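/-
JOB VOR-LPABS.  Abstract typed two-point linear programming bound (uses `leg_psd`, `leg_one`).
Proof.  For every l apply `leg_psd` (k = kk l) to the n+m points (u_i), (z_a) with coefficients α_l on the u_i and
β_l(a) on z_a, and sum over l:
0 ≤ Σ_l [ Σ_{i,j} α² P(t_ij) + 2 Σ_{i,a} α β_a P(⟪u_i,z_a⟫) + Σ_{a,b} β_a β_b P(⟪z_a,z_b⟫) ].
Split off the diagonal terms (P(1) = 1), use hF, hG, hK (add the constants f0, g0, k0 for every pair) and divide by 2.
-/
import Pool.Agent.H54.V.J.Leg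
set_option autoImplicit false
open MeasureTheory
namespace Pool.Agent.H54.V

theorem lpabs_sym {n : ℕ} (F : Fin n → Fin n → ℝ) (hF : ∀ i j, F i j = F j i) :
    ∑ i, ∑ j, F i j = ∑ i, F i i + 2 * pairSum F := by
  have h1 : ∀ i j, F i j = (if i < j then F i j else 0) + (if j < i then F i j else 0) +
      (if i = j then F i j else 0) := by
    intro i j
    rcases lt_trichotomy i j with h | h | h
    · rw [if_pos h, if_neg (not_lt.mpr h.le), if_neg h.ne]; ring
    · subst h; simp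
    · rw [if_neg (not_lt.mpr h.le), if_pos h, if_neg h.ne']; ring
  have h2 : ∑ i, ∑ j, F i j = ∑ i, ∑ j, (if i < j then F i j else 0) +
      ∑ i, ∑ j, (if j < i then F i j else 0) + ∑ i, ∑ j, (if i = j then F i j else 0) := by
    rw [← Finset.sum_add_distrib, ← Finset.sum_add_distrib]
    refine Finset.sum_congr rfl fun i _ => ?_
    rw [← Finset.sum_add_distrib, ← Finset.sum_add_distrib]
    exact Finset.sum_congr rfl fun j _ => h1 i j
  have h3 : ∑ i, ∑ j, (if j < i then F i j else 0) = pairSum F := by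
    rw [Finset.sum_comm]
    unfold pairSum
    refine Finset.sum_congr rfl fun i _ => Finset.sum_congr rfl fun j _ => ?_
    rw [hF j i]
  have h4 : ∑ i, ∑ j, (if i = j then F i j else 0) = ∑ i, F i i := by
    refine Finset.sum_congr rfl fun i _ => ?_
    simp
  rw [h2, h3, h4]
  unfold pairSum
  ring

theorem lpabs_const (n : ℕ) (f0 : ℝ) :
    2 * pairSum (fun _ _ : Fin n => f0) = (n : ℝ) * (n - 1) * f0 := by
  have h := lpabs_sym (fun _ _ : Fin n => f0) (fun _ _ => rfl)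
  simp only [Finset.sum_const, Finset.card_univ, Fintype.card_fin, nsmul_eq_mul] at h
  linarith

theorem lpabs_mono {n : ℕ} {f g : Fin n → Fin n → ℝ} (h : ∀ i j, i < j → f i j ≤ g i j) :
    pairSum f ≤ pairSum g := by
  unfold pairSum
  refine Finset.sum_le_sum fun i _ => Finset.sum_le_sum fun j _ => ?_
  split_ifs with hij
  · exact h i j hij
  · exact le_rfl

theorem lpabs_add {n : ℕ} (f g : Fin n → Fin n → ℝ) :
    pairSum (fun i j => f i j + g i j) = pairSum f + pairSum g := by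
  unfold pairSum
  rw [← Finset.sum_add_distrib]
  refine Finset.sum_congr rfl fun i _ => ?_
  rw [← Finset.sum_add_distrib]
  refine Finset.sum_congr rfl fun j _ => ?_
  split_ifs <;> simp

/-- positivity for points of two types -/
theorem lpabs_two (k : ℕ) (hk : k ≤ 12) {n m : ℕ} (u : Fin n → E3) (z : Fin m → E3)
    (hu : ∀ i, ‖u i‖ = 1) (hz : ∀ a, ‖z a‖ = 1) (α : ℝ) (β : Fin m → ℝ) :
    0 ≤ ∑ i, ∑ j, α ^ 2 * leg k (inner ℝ (u i) (u j)) +
      2 * ∑ a, ∑ i, α * β a * leg k (inner ℝ (u i) (z a)) +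
      ∑ a, ∑ b, β a * β b * leg k (inner ℝ (z a) (z b)) := by
  have h := leg_psd k hk (Fin.append u z)
    (fun i => by
      refine Fin.addCases (fun i => ?_) (fun a => ?_) i
      · rw [Fin.append_left]; exact hu i
      · rw [Fin.append_right]; exact hz a)
    (Fin.append (fun _ => α) β)
  rw [Fin.sum_univ_add] at h
  simp only [Fin.sum_univ_add, Fin.append_left, Fin.append_right, Finset.sum_add_distrib] at h
  have e1 : ∑ i, ∑ j, α * α * leg k (inner ℝ (u i) (u j)) =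
      ∑ i, ∑ j, α ^ 2 * leg k (inner ℝ (u i) (u j)) :=
    Finset.sum_congr rfl fun i _ => Finset.sum_congr rfl fun j _ => by ring
  have e2 : ∑ i, ∑ a, α * β a * leg k (inner ℝ (u i) (z a)) =
      ∑ a, ∑ i, α * β a * leg k (inner ℝ (u i) (z a)) := Finset.sum_comm
  have e3 : ∑ a, ∑ i, β a * α * leg k (inner ℝ (z a) (u i)) =
      ∑ a, ∑ i, α * β a * leg k (inner ℝ (u i) (z a)) :=
    Finset.sum_congr rfl fun a _ => Finset.sum_congr rfl fun i _ => by
      rw [real_inner_comm]; ring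
  rw [e1, e2, e3] at h
  linarith

theorem lp_abs {n m L : ℕ} (kk : Fin L → ℕ) (hk : ∀ l, kk l ≤ 12) (α : Fin L → ℝ) (β : Fin L → Fin m → ℝ)
    (f0 : ℝ) (g0 : Fin m → ℝ) (k0 : Fin m → Fin m → ℝ) (u : Fin n → E3) (z : Fin m → E3)
    (hu : ∀ i, ‖u i‖ = 1) (hz : ∀ a, ‖z a‖ = 1) (φ : Fin n → Fin n → ℝ) (ψ : Fin m → Fin n → ℝ)
    (hF : ∀ i j, i < j → f0 + ∑ l, α l ^ 2 * leg (kk l) (inner ℝ (u i) (u j)) ≤ φ i j)
    (hG : ∀ a i, g0 a + ∑ l, α l * β l a * leg (kk l) (inner ℝ (u i) (z a)) ≤ ψ a i)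
    (hK : ∀ a b, a ≠ b → k0 a b + ∑ l, β l a * β l b * leg (kk l) (inner ℝ (z a) (z b)) ≤ 0) :
    ((n : ℝ) * (n - 1) * f0 + 2 * n * ∑ a, g0 a + ∑ a, ∑ b, (if a = b then 0 else k0 a b)
      - n * ∑ l, α l ^ 2 - ∑ a, ∑ l, β l a ^ 2) / 2 ≤ pairSum φ + ∑ a, ∑ i, ψ a i := by
  -- sum of the positivity statements
  have h0 : 0 ≤ ∑ l, (∑ i, ∑ j, α l ^ 2 * leg (kk l) (inner ℝ (u i) (u j)) +
      2 * ∑ a, ∑ i, α l * β l a * leg (kk l) (inner ℝ (u i) (z a)) +
      ∑ a, ∑ b, β l a * β l b * leg (kk l) (inner ℝ (z a) (z b))) :=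
    Finset.sum_nonneg fun l _ => lpabs_two (kk l) (hk l) u z hu hz (α l) (β l)
  have swap : ∀ {ι κ : Type} [Fintype ι] [Fintype κ] (T : Fin L → ι → κ → ℝ),
      ∑ l, ∑ i, ∑ j, T l i j = ∑ i, ∑ j, ∑ l, T l i j := by
    intro ι κ _ _ T
    rw [Finset.sum_comm]
    exact Finset.sum_congr rfl fun i _ => Finset.sum_comm
  rw [Finset.sum_add_distrib, Finset.sum_add_distrib, ← Finset.mul_sum, swap, swap, swap] at h0
  set F : Fin n → Fin n → ℝ := fun i j => ∑ l, α l ^ 2 * leg (kk l) (inner ℝ (u i) (u j)) with hFd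
  have hsym : ∀ i j, F i j = F j i := by
    intro i j
    simp only [hFd]
    exact Finset.sum_congr rfl fun l _ => by rw [real_inner_comm]
  have hdiag : ∀ i, F i i = ∑ l, α l ^ 2 := by
    intro i
    simp only [hFd]
    refine Finset.sum_congr rfl fun l _ => ?_
    rw [real_inner_self_eq_norm_sq, hu i, one_pow, leg_one, mul_one]
  have h1 : ∑ i, ∑ j, F i j = n * ∑ l, α l ^ 2 + 2 * pairSum F := by
    rw [lpabs_sym F hsym]
    congr 1
    rw [Finset.sum_congr rfl fun i _ => hdiag i]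
    simp
  have h2 : pairSum (fun _ _ : Fin n => f0) + pairSum F ≤ pairSum φ := by
    rw [← lpabs_add]
    exact lpabs_mono hF
  have h3 := lpabs_const n f0
  have h4 : (n : ℝ) * ∑ a, g0 a + ∑ a, ∑ i, ∑ l, α l * β l a * leg (kk l) (inner ℝ (u i) (z a)) ≤
      ∑ a, ∑ i, ψ a i := by
    have e : (n : ℝ) * ∑ a, g0 a = ∑ a, ∑ _i : Fin n, g0 a := by
      rw [Finset.mul_sum]
      refine Finset.sum_congr rfl fun a _ => ?_
      simp
    rw [e, ← Finset.sum_add_distrib]
    refine Finset.sum_le_sum fun a _ => ?_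
    rw [← Finset.sum_add_distrib]
    exact Finset.sum_le_sum fun i _ => hG a i
  have h5 : ∑ a, ∑ b, (if a = b then 0 else k0 a b) +
      ∑ a, ∑ b, ∑ l, β l a * β l b * leg (kk l) (inner ℝ (z a) (z b)) ≤ ∑ a, ∑ l, β l a ^ 2 := by
    rw [← Finset.sum_add_distrib]
    refine Finset.sum_le_sum fun a _ => ?_
    rw [← Finset.sum_add_distrib]
    have h6 : ∀ b, (if a = b then 0 else k0 a b) +
        ∑ l, β l a * β l b * leg (kk l) (inner ℝ (z a) (z b)) ≤
        if b = a then ∑ l, β l a ^ 2 else 0 := by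
      intro b
      by_cases hab : a = b
      · subst hab
        rw [if_pos rfl, if_pos rfl, zero_add]
        refine Finset.sum_le_sum fun l _ => ?_
        rw [real_inner_self_eq_norm_sq, hz a, one_pow, leg_one, mul_one, pow_two]
      · rw [if_neg hab, if_neg (Ne.symm hab)]
        exact hK a b hab
    refine (Finset.sum_le_sum fun b _ => h6 b).trans ?_
    rw [Finset.sum_ite_eq' Finset.univ a]
    simp
  linarith

end Pool.Agent.H54.V
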