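/-
JOB VOR-LEG.  Positive definiteness of the Legendre kernels P_k(⟪x,y⟫), k ≤ 12, on the unit sphere of E3, and of the
three-point kernels `Qk`.
(a) `Qk_psd`: let e be a unit vector, choose an orthonormal basis e, f1, f2 and put ζ_x = ⟪f1,x⟫ + i ⟪f2,x⟫ ∈ ℂ.
Then |ζ_x|² = 1 - ⟪e,x⟫², Re(ζ_x conj ζ_y) = ⟪x,y⟫ - ⟪e,x⟫⟪e,y⟫ and Qk k u v t = Re ((ζ_x conj ζ_y)^k) for
u = ⟪e,x⟫, v = ⟪e,y⟫, t = ⟪x,y⟫, by the recursion Re w^{k+2} = 2 Re w Re w^{k+1} - |w|² Re w^k.
Hence Σ c_x c_y Q_k = |Σ c_x ζ_x^k|² ≥ 0 (c real).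
(b) `leg_psd`: addition theorem: for fixed unit e
 P_k(t) = P_k(u)P_k(v) + Σ_{j=1}^{k} 2 (k-j)!/(k+j)! P_k^{(j)}(u) P_k^{(j)}(v) Q_j(u,v,t)   (P_k^{(j)} = j-th derivative),
proved in general (`leg_add`) from the recursions; every term is positive semidefinite by (a).
-/
import Pool.Agent.H54.V.Defs
set_option autoImplicit false
open MeasureTheory
namespace Pool.Agent.H54.V

/-! ### the three-point kernels -/

theorem qk_re (w : ℂ) (u v t : ℝ) (h1 : w.re = t - u * v)
    (h2 : Complex.normSq w = (1 - u ^ 2) * (1 - v ^ 2)) (k : ℕ) :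
    Qk k u v t = (w ^ k).re ∧ Qk (k + 1) u v t = (w ^ (k + 1)).re := by
  induction k with
  | zero => simp [Qk, h1]
  | succ k ih =>
    refine ⟨ih.2, ?_⟩
    have e : w ^ (k + 1 + 1) = 2 * (w.re : ℂ) * w ^ (k + 1) - (Complex.normSq w : ℂ) * w ^ k := by
      have h3 : w * w = 2 * (w.re : ℂ) * w - (Complex.normSq w : ℂ) := by
        apply Complex.ext
        · simp [Complex.normSq_apply]; ring
        · simp [Complex.normSq_apply]; ring
      rw [pow_succ, pow_succ]
      linear_combination (w ^ k) * h3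
    rw [e]
    change 2 * (t - u * v) * Qk (k + 1) u v t - (1 - u ^ 2) * (1 - v ^ 2) * Qk k u v t = _
    rw [ih.1, ih.2, ← h1, ← h2]
    simp [Complex.mul_re]

theorem qk_psd_aux (k : ℕ) {n : ℕ} (ζ : Fin n → ℂ) (c : Fin n → ℝ) :
    0 ≤ ∑ i, ∑ j, c i * c j * ((ζ i * (starRingEnd ℂ) (ζ j)) ^ k).re := by
  have h : ∑ i, ∑ j, c i * c j * ((ζ i * (starRingEnd ℂ) (ζ j)) ^ k).re =
      Complex.normSq (∑ i, (c i : ℂ) * ζ i ^ k) := by
    have h1 : ((Complex.normSq (∑ i, (c i : ℂ) * ζ i ^ k) : ℝ) : ℂ) =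
        ∑ i, ∑ j, (c i : ℂ) * c j * (ζ i * (starRingEnd ℂ) (ζ j)) ^ k := by
      rw [← Complex.mul_conj, map_sum, Finset.sum_mul_sum]
      refine Finset.sum_congr rfl fun i _ => Finset.sum_congr rfl fun j _ => ?_
      rw [map_mul, map_pow, Complex.conj_ofReal, mul_pow]
      ring
    have h2 := congrArg Complex.re h1
    rw [Complex.ofReal_re] at h2
    rw [h2, Complex.re_sum]
    refine Finset.sum_congr rfl fun i _ => ?_
    rw [Complex.re_sum]
    refine Finset.sum_congr rfl fun j _ => ?_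
    rw [← Complex.ofReal_mul, Complex.re_ofReal_mul]
  rw [h]
  exact Complex.normSq_nonneg _

theorem exists_zeta (e : E3) (he : ‖e‖ = 1) : ∃ ζ : E3 → ℂ, ∀ x y : E3,
    (ζ x * (starRingEnd ℂ) (ζ y)).re = (inner ℝ x y : ℝ) - inner ℝ e x * inner ℝ e y := by
  have hv : Orthonormal ℝ (Set.domRestrict ({0} : Set (Fin 3)) (fun _ => e)) := by
    constructor
    · intro i
      exact he
    · intro i j hij
      exact absurd (Subsingleton.elim i j) hij
  obtain ⟨b, hb⟩ := hv.exists_orthonormalBasis_extension_of_card_eq (by simp)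
  have hb0 : b 0 = e := hb 0 rfl
  refine ⟨fun x => ⟨inner ℝ (b 1) x, inner ℝ (b 2) x⟩, fun x y => ?_⟩
  have h1 := b.sum_inner_mul_inner x y
  rw [Fin.sum_univ_three, hb0] at h1
  simp only [Complex.mul_re, Complex.conj_re, Complex.conj_im]
  rw [← h1, real_inner_comm x e, real_inner_comm x (b 1), real_inner_comm x (b 2)]
  ring

theorem Qk_psd (k : ℕ) (e : E3) (he : ‖e‖ = 1) {n : ℕ} (x : Fin n → E3) (hx : ∀ i, ‖x i‖ = 1) (c : Fin n → ℝ) :
    0 ≤ ∑ i, ∑ j, c i * c j * Qk k (inner ℝ e (x i) : ℝ) (inner ℝ e (x j)) (inner ℝ (x i) (x j)) := by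
  obtain ⟨ζ, hζ⟩ := exists_zeta e he
  have hn : ∀ i, Complex.normSq (ζ (x i)) = 1 - (inner ℝ e (x i) : ℝ) ^ 2 := by
    intro i
    have h1 := hζ (x i) (x i)
    rw [Complex.mul_conj, Complex.ofReal_re] at h1
    rw [h1, real_inner_self_eq_norm_sq, hx i]
    ring
  have h2 := qk_psd_aux k (fun i => ζ (x i)) c
  refine h2.trans (le_of_eq ?_)
  refine Finset.sum_congr rfl fun i _ => Finset.sum_congr rfl fun j _ => ?_
  have h3 := (qk_re (ζ (x i) * (starRingEnd ℂ) (ζ (x j))) (inner ℝ e (x i)) (inner ℝ e (x j))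
    (inner ℝ (x i) (x j)) (hζ _ _) (by rw [map_mul, Complex.normSq_conj, hn, hn]) k).1
  rw [h3]

/-! ### derivatives of Legendre polynomials -/

/-- `G k j` is the `j`-th derivative of `P_k` -/
noncomputable def G : ℕ → ℕ → ℝ → ℝ
  | 0, 0, _ => 1
  | 0, (_ + 1), _ => 0
  | 1, 0, u => u
  | 1, 1, _ => 1
  | 1, (_ + 2), _ => 0
  | (k + 2), 0, u => leg (k + 2) u
  | (k + 2), (j + 1), u => G k (j + 1) u + (2 * (k : ℝ) + 3) * G (k + 1) j u

theorem G_zero (k : ℕ) (u : ℝ) : G k 0 u = leg k u := by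
  match k with
  | 0 => simp [G, leg]
  | 1 => simp [G, leg]
  | (k + 2) => simp [G]

theorem G_succ (k j : ℕ) (u : ℝ) :
    G (k + 2) (j + 1) u = G k (j + 1) u + (2 * (k : ℝ) + 3) * G (k + 1) j u := by
  simp [G]

theorem G_big : ∀ (k j : ℕ) (u : ℝ), k < j → G k j u = 0
  | 0, 0, _, h => absurd h (by omega)
  | 0, (_ + 1), _, _ => by simp [G]
  | 1, 0, _, h => absurd h (by omega)
  | 1, 1, _, h => absurd h (by omega)
  | 1, (_ + 2), _, _ => by simp [G]
  | (k + 2), 0, _, h => absurd h (by omega)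
  | (k + 2), (j + 1), u, h => by
    rw [G_succ, G_big k (j + 1) u (by omega), G_big (k + 1) j u (by omega)]
    ring

/-- relations between consecutive derivatives -/
theorem G_rel (u : ℝ) (k : ℕ) :
    (∀ j : ℕ, G (k + 1) (j + 1) u = u * G k (j + 1) u + ((k : ℝ) + j + 1) * G k j u) ∧
    (∀ j : ℕ, (1 - u ^ 2) * G (k + 1) (j + 1) u =
      ((k : ℝ) + 1 + j) * G k j u - ((k : ℝ) + 1 - j) * u * G (k + 1) j u) ∧
    (∀ j : ℕ, u * G (k + 1) (j + 1) u - G k (j + 1) u = ((k : ℝ) + 1 - j) * G (k + 1) j u) ∧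
    (∀ j : ℕ, (2 * (k : ℝ) + 3) * u * G (k + 1) j u =
      ((k : ℝ) + 2 - j) * G (k + 2) j u + ((k : ℝ) + 1 + j) * G k j u) := by
  have hA : ∀ k : ℕ,
      (∀ j : ℕ, u * G (k + 1) (j + 1) u - G k (j + 1) u = ((k : ℝ) + 1 - j) * G (k + 1) j u) →
      (∀ j : ℕ, G (k + 2) (j + 1) u = u * G (k + 1) (j + 1) u +
        (((k + 1 : ℕ) : ℝ) + j + 1) * G (k + 1) j u) ∧
      (∀ j : ℕ, (2 * (k : ℝ) + 3) * u * G (k + 1) j u =
        ((k : ℝ) + 2 - j) * G (k + 2) j u + ((k : ℝ) + 1 + j) * G k j u) := by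
    intro k hR
    have hB : ∀ j : ℕ, G (k + 2) (j + 1) u = u * G (k + 1) (j + 1) u +
        (((k + 1 : ℕ) : ℝ) + j + 1) * G (k + 1) j u := by
      intro j
      rw [G_succ]
      push_cast
      linear_combination -(hR j)
    refine ⟨hB, fun j => ?_⟩
    cases j with
    | zero =>
      rw [G_zero, G_zero, G_zero]
      have e : leg (k + 2) u =
          ((2 * (k : ℝ) + 3) * u * leg (k + 1) u - ((k : ℝ) + 1) * leg k u) / ((k : ℝ) + 2) := rfl
      have hk : (k : ℝ) + 2 ≠ 0 := by positivity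
      rw [e]
      field_simp
      push_cast
      ring
    | succ j =>
      have h1 := hB j
      have h2 := hR j
      push_cast at h1 ⊢
      linear_combination (-((k : ℝ) + 1 - j)) * h1 + ((k : ℝ) + 2 + j) * h2
  induction k with
  | zero =>
    have hB : ∀ j : ℕ, G (0 + 1) (j + 1) u = u * G 0 (j + 1) u + (((0 : ℕ) : ℝ) + j + 1) * G 0 j u := by
      intro j
      cases j with
      | zero => simp [G]
      | succ j => simp [G]
    have hR : ∀ j : ℕ, u * G (0 + 1) (j + 1) u - G 0 (j + 1) u =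
        (((0 : ℕ) : ℝ) + 1 - j) * G (0 + 1) j u := by
      intro j
      match j with
      | 0 => simp [G]
      | 1 => simp [G]
      | (j + 2) => simp [G]
    have hD : ∀ j : ℕ, (1 - u ^ 2) * G (0 + 1) (j + 1) u =
        (((0 : ℕ) : ℝ) + 1 + j) * G 0 j u - (((0 : ℕ) : ℝ) + 1 - j) * u * G (0 + 1) j u := by
      intro j
      match j with
      | 0 => simp [G]; ring
      | 1 => simp [G]
      | (j + 2) => simp [G]
    exact ⟨hB, hD, hR, (hA 0 hR).2⟩
  | succ k ih =>
    obtain ⟨hB, hD, hR, hA0⟩ := ih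
    have hB1 := (hA k hR).1
    have hD1 : ∀ j : ℕ, (1 - u ^ 2) * G (k + 1 + 1) (j + 1) u =
        (((k + 1 : ℕ) : ℝ) + 1 + j) * G (k + 1) j u -
          (((k + 1 : ℕ) : ℝ) + 1 - j) * u * G (k + 1 + 1) j u := by
      intro j
      have h1 := hB1 j
      have h2 := hD j
      have h3 := hA0 j
      push_cast at h1 ⊢
      linear_combination (1 - u ^ 2) * h1 + u * h2 - u * h3
    have hR1 : ∀ j : ℕ, u * G (k + 1 + 1) (j + 1) u - G (k + 1) (j + 1) u =
        (((k + 1 : ℕ) : ℝ) + 1 - j) * G (k + 1 + 1) j u := by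
      intro j
      have h1 := hB1 j
      have h2 := hD j
      have h3 := hA0 j
      push_cast at h1 ⊢
      linear_combination u * h1 - h2 + h3
    exact ⟨hB1, hD1, hR1, (hA (k + 1) hR1).2⟩

/-! ### the addition theorem -/

/-- weights -/
noncomputable def wt (n j : ℕ) : ℝ := 2 * ((n - j).factorial : ℝ) / ((n + j).factorial : ℝ)

/-- the kernels with `Q_0` halved -/
noncomputable def qt (u v t : ℝ) : ℕ → ℝ
  | 0 => 1 / 2
  | (j + 1) => Qk (j + 1) u v t

theorem qt_rel (u v t : ℝ) (j : ℕ) : t * qt u v t (j + 1) = u * v * qt u v t (j + 1) +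
    1 / 2 * qt u v t (j + 2) +
      (if j = 0 then 1 else 1 / 2) * ((1 - u ^ 2) * (1 - v ^ 2)) * qt u v t j := by
  cases j with
  | zero =>
    simp only [qt, Qk]
    norm_num
    ring
  | succ j =>
    rw [if_neg (Nat.succ_ne_zero j)]
    simp only [qt]
    have e : Qk (j + 1 + 2) u v t = 2 * (t - u * v) * Qk (j + 2) u v t -
        (1 - u ^ 2) * (1 - v ^ 2) * Qk (j + 1) u v t := rfl
    rw [e]
    ring

/-- multiplication of an expansion by `t` -/
theorem qt_sum (u v t : ℝ) (f : ℕ → ℝ) (N : ℕ) :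
    t * ∑ j ∈ Finset.range (N + 1), f j * qt u v t j =
      (u * v * f 0 + (1 - u ^ 2) * (1 - v ^ 2) * f 1) * qt u v t 0 +
      ∑ j ∈ Finset.range N, (u * v * f (j + 1) + 1 / 2 * f j +
        1 / 2 * ((1 - u ^ 2) * (1 - v ^ 2)) * f (j + 2)) * qt u v t (j + 1) +
      1 / 2 * f N * qt u v t (N + 1) -
        (if N = 0 then 1 else 1 / 2) * ((1 - u ^ 2) * (1 - v ^ 2)) * f (N + 1) * qt u v t N := by
  induction N with
  | zero =>
    simp only [zero_add, Finset.sum_range_one, Finset.sum_range_zero, qt, Qk, if_true]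
    ring
  | succ N ih =>
    rw [Finset.sum_range_succ, mul_add, ih, Finset.sum_range_succ _ N, if_neg (Nat.succ_ne_zero N)]
    have h := qt_rel u v t N
    have e : t * (f (N + 1) * qt u v t (N + 1)) = f (N + 1) * (t * qt u v t (N + 1)) := by ring
    rw [e, h]
    ring

/-- coefficients of the addition theorem -/
noncomputable def FF (u v : ℝ) (n j : ℕ) : ℝ := wt n j * G n j u * G n j v

theorem FF_big (u v : ℝ) {n j : ℕ} (h : n < j) : FF u v n j = 0 := by
  unfold FF
  rw [G_big n j u h]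
  ring

theorem wt_zero (n : ℕ) : wt n 0 = 2 := by
  unfold wt
  have : ((n.factorial : ℕ) : ℝ) ≠ 0 := by exact_mod_cast n.factorial_ne_zero
  rw [Nat.sub_zero, Nat.add_zero]
  field_simp

/-- third relation -/
theorem G_rel3 (u : ℝ) (k j : ℕ) : (2 * (k : ℝ) + 3) * (1 - u ^ 2) * G (k + 1) (j + 1) u =
    ((k : ℝ) + 1 + j) * ((k : ℝ) + 2 + j) * G k j u -
      ((k : ℝ) + 1 - j) * ((k : ℝ) + 2 - j) * G (k + 2) j u := by
  obtain ⟨-, hD, -, hA⟩ := G_rel u k
  linear_combination (2 * (k : ℝ) + 3) * hD j - ((k : ℝ) + 1 - j) * hA j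

theorem FF_rel_zero (u v : ℝ) (k : ℕ) :
    ((k : ℝ) + 2) * FF u v (k + 2) 0 = (2 * (k : ℝ) + 3) * (u * v * FF u v (k + 1) 0 +
      (1 - u ^ 2) * (1 - v ^ 2) * FF u v (k + 1) 1) - ((k : ℝ) + 1) * FF u v k 0 := by
  have h1 := (G_rel u k).2.2.2 0
  have h2 := (G_rel v k).2.2.2 0
  have h3 := G_rel3 u k 0
  have h4 := G_rel3 v k 0
  have hw : wt (k + 1) 1 = 2 / (((k : ℝ) + 1) * (k + 2)) := by
    unfold wt
    have e1 : (k + 1 - 1).factorial = k.factorial := by rw [Nat.add_sub_cancel]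
    have e2 : (k + 1 + 1).factorial = (k + 2) * ((k + 1) * k.factorial) := by
      rw [Nat.factorial_succ, Nat.factorial_succ]
    rw [e1, e2]
    push_cast
    have : ((k.factorial : ℕ) : ℝ) ≠ 0 := by exact_mod_cast k.factorial_ne_zero
    field_simp
  unfold FF
  rw [wt_zero, wt_zero, wt_zero, hw]
  have hk1 : (k : ℝ) + 1 ≠ 0 := by positivity
  have hk2 : (k : ℝ) + 2 ≠ 0 := by positivity
  have hk3 : 2 * (k : ℝ) + 3 ≠ 0 := by positivity
  simp only [Nat.cast_zero, sub_zero, add_zero, zero_add] at h1 h2 h3 h4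
  apply mul_left_cancel₀ hk3
  set a := G (k + 2) 0 u
  set a' := G (k + 2) 0 v
  set b := G k 0 u
  set b' := G k 0 v
  have e1 : (2 * (k : ℝ) + 3) * ((2 * (k : ℝ) + 3) * (u * v * (2 * G (k + 1) 0 u * G (k + 1) 0 v) +
      (1 - u ^ 2) * (1 - v ^ 2) * (2 / (((k : ℝ) + 1) * (k + 2)) * G (k + 1) 1 u * G (k + 1) 1 v)) -
        ((k : ℝ) + 1) * (2 * b * b')) =
      2 * (((2 * (k : ℝ) + 3) * u * G (k + 1) 0 u) * ((2 * (k : ℝ) + 3) * v * G (k + 1) 0 v)) +
      2 / (((k : ℝ) + 1) * (k + 2)) * (((2 * (k : ℝ) + 3) * (1 - u ^ 2) * G (k + 1) 1 u) *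
        ((2 * (k : ℝ) + 3) * (1 - v ^ 2) * G (k + 1) 1 v)) -
        (2 * (k : ℝ) + 3) * ((k : ℝ) + 1) * (2 * b * b') := by
    ring
  rw [e1, h1, h2, h3, h4]
  field_simp
  ring

theorem FF_rel_succ (u v : ℝ) (k j : ℕ) :
    ((k : ℝ) + 2) * FF u v (k + 2) (j + 1) = (2 * (k : ℝ) + 3) * (u * v * FF u v (k + 1) (j + 1) +
      1 / 2 * FF u v (k + 1) j + 1 / 2 * ((1 - u ^ 2) * (1 - v ^ 2)) * FF u v (k + 1) (j + 2)) -
        ((k : ℝ) + 1) * FF u v k (j + 1) := by
  rcases lt_trichotomy j (k + 1) with hj | hj | hj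
  · -- main case
    obtain ⟨m, rfl⟩ : ∃ m, k = j + m := ⟨k - j, by omega⟩
    have h1 := (G_rel u (j + m)).2.2.2 (j + 1)
    have h2 := (G_rel v (j + m)).2.2.2 (j + 1)
    have h3 := G_rel3 u (j + m) (j + 1)
    have h4 := G_rel3 v (j + m) (j + 1)
    have h5 := G_succ (j + m) j u
    have h6 := G_succ (j + m) j v
    unfold FF
    cases m with
    | zero =>
      rw [add_zero] at *
      have z1 : G j (j + 1) u = 0 := G_big _ _ _ (by omega)
      have z2 : G (j + 1) (j + 2) u = 0 := G_big _ _ _ (by omega)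
      have z3 : G j (j + 1) v = 0 := G_big _ _ _ (by omega)
      rw [z1] at h1 h5 ⊢
      rw [z2]
      rw [z3] at h2 h6
      set a := G (j + 2) (j + 1) u
      set a' := G (j + 2) (j + 1) v
      set g := G (j + 1) (j + 1) u
      set g' := G (j + 1) (j + 1) v
      set p := G (j + 1) j u
      set p' := G (j + 1) j v
      have hY : (((2 * j + 3).factorial : ℕ) : ℝ) ≠ 0 := by
        exact_mod_cast (2 * j + 3).factorial_ne_zero
      set Y : ℝ := (((2 * j + 3).factorial : ℕ) : ℝ)⁻¹ with hYd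
      have w1 : wt (j + 2) (j + 1) = 2 * Y := by
        unfold wt
        have e1 : j + 2 - (j + 1) = 1 := by omega
        have e2 : j + 2 + (j + 1) = 2 * j + 3 := by omega
        rw [e1, e2, Nat.factorial_one, div_eq_mul_inv]
        push_cast
        ring
      have w2 : wt (j + 1) (j + 1) = 2 * (2 * j + 3) * Y := by
        unfold wt
        have e1 : j + 1 - (j + 1) = 0 := by omega
        have e2 : j + 1 + (j + 1) = 2 * j + 2 := by omega
        have e3 : (2 * j + 3).factorial = (2 * j + 3) * (2 * j + 2).factorial := by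
          rw [Nat.factorial_succ]
        have e4 : (((2 * j + 2).factorial : ℕ) : ℝ) ≠ 0 := by
          exact_mod_cast (2 * j + 2).factorial_ne_zero
        rw [e1, e2, Nat.factorial_zero, hYd, e3]
        push_cast
        field_simp
      have w3 : wt (j + 1) j = 2 * (2 * j + 3) * (2 * j + 2) * Y := by
        unfold wt
        have e1 : j + 1 - j = 1 := by omega
        have e2 : j + 1 + j = 2 * j + 1 := by omega
        have e3 : (2 * j + 3).factorial = (2 * j + 3) * ((2 * j + 2) * (2 * j + 1).factorial) := by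
          rw [Nat.factorial_succ, Nat.factorial_succ]
        have e4 : (((2 * j + 1).factorial : ℕ) : ℝ) ≠ 0 := by
          exact_mod_cast (2 * j + 1).factorial_ne_zero
        rw [e1, e2, Nat.factorial_one, hYd, e3]
        push_cast
        field_simp
      rw [w1, w2, w3]
      have hk3 : 2 * (j : ℝ) + 3 ≠ 0 := by positivity
      apply mul_left_cancel₀ hk3
      push_cast at h1 h2 h5 h6
      have e1 : (2 * (j : ℝ) + 3) * u * g = a := by linarith
      have e2 : (2 * (j : ℝ) + 3) * v * g' = a' := by linarith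
      have e3 : (2 * (j : ℝ) + 3) * p = a := by linarith
      have e4 : (2 * (j : ℝ) + 3) * p' = a' := by linarith
      have e5 : (2 * (j : ℝ) + 3) * ((2 * (j : ℝ) + 3) * (u * v * (2 * (2 * (j : ℝ) + 3) * Y * g * g') +
          1 / 2 * (2 * (2 * (j : ℝ) + 3) * (2 * j + 2) * Y * p * p') +
            1 / 2 * ((1 - u ^ 2) * (1 - v ^ 2)) * (wt (j + 1) (j + 2) * 0 * G (j + 1) (j + 2) v)) -
            ((j : ℝ) + 1) * (wt j (j + 1) * 0 * G j (j + 1) v)) =
          2 * (2 * (j : ℝ) + 3) * Y * (((2 * (j : ℝ) + 3) * u * g) * ((2 * (j : ℝ) + 3) * v * g')) +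
          (2 * (j : ℝ) + 3) * (2 * j + 2) * Y * (((2 * (j : ℝ) + 3) * p) * ((2 * (j : ℝ) + 3) * p')) := by
        ring
      rw [e5, e1, e2, e3, e4]
      ring
    | succ m =>
      set a := G (j + (m + 1) + 2) (j + 1) u
      set a' := G (j + (m + 1) + 2) (j + 1) v
      set b := G (j + (m + 1)) (j + 1) u
      set b' := G (j + (m + 1)) (j + 1) v
      set g := G (j + (m + 1) + 1) (j + 1) u
      set g' := G (j + (m + 1) + 1) (j + 1) v
      set p := G (j + (m + 1) + 1) j u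
      set p' := G (j + (m + 1) + 1) j v
      set r := G (j + (m + 1) + 1) (j + 1 + 1) u
      set r' := G (j + (m + 1) + 1) (j + 1 + 1) v
      have hX1 : (((m.factorial : ℕ)) : ℝ) ≠ 0 := by exact_mod_cast m.factorial_ne_zero
      set X : ℝ := ((m.factorial : ℕ) : ℝ) / (((2 * j + m + 4).factorial : ℕ) : ℝ) with hXd
      have f1 : (2 * j + m + 4).factorial =
          (2 * j + m + 4) * ((2 * j + m + 3) * (2 * j + m + 2).factorial) := by
        rw [Nat.factorial_succ, Nat.factorial_succ]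
      have f2 : (2 * j + m + 4).factorial = (2 * j + m + 4) * (2 * j + m + 3).factorial := by
        rw [Nat.factorial_succ]
      have n1 : (((2 * j + m + 2).factorial : ℕ) : ℝ) ≠ 0 := by
        exact_mod_cast (2 * j + m + 2).factorial_ne_zero
      have n2 : (((2 * j + m + 3).factorial : ℕ) : ℝ) ≠ 0 := by
        exact_mod_cast (2 * j + m + 3).factorial_ne_zero
      have n3 : (((2 * j + m + 4).factorial : ℕ) : ℝ) ≠ 0 := by
        exact_mod_cast (2 * j + m + 4).factorial_ne_zero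
      have w1 : wt (j + (m + 1) + 2) (j + 1) = 2 * (m + 2) * (m + 1) * X := by
        unfold wt
        have e1 : j + (m + 1) + 2 - (j + 1) = m + 2 := by omega
        have e2 : j + (m + 1) + 2 + (j + 1) = 2 * j + m + 4 := by omega
        have e3 : (m + 2).factorial = (m + 2) * ((m + 1) * m.factorial) := by
          rw [Nat.factorial_succ, Nat.factorial_succ]
        rw [e1, e2, e3, hXd]
        push_cast
        field_simp
      have w2 : wt (j + (m + 1) + 1) (j + 1) = 2 * (m + 1) * (2 * j + m + 4) * X := by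
        unfold wt
        have e1 : j + (m + 1) + 1 - (j + 1) = m + 1 := by omega
        have e2 : j + (m + 1) + 1 + (j + 1) = 2 * j + m + 3 := by omega
        have e3 : (m + 1).factorial = (m + 1) * m.factorial := by rw [Nat.factorial_succ]
        rw [e1, e2, e3, hXd, f2]
        push_cast
        field_simp
      have w3 : wt (j + (m + 1) + 1) j =
          2 * (m + 2) * (m + 1) * (2 * j + m + 4) * (2 * j + m + 3) * X := by
        unfold wt
        have e1 : j + (m + 1) + 1 - j = m + 2 := by omega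
        have e2 : j + (m + 1) + 1 + j = 2 * j + m + 2 := by omega
        have e3 : (m + 2).factorial = (m + 2) * ((m + 1) * m.factorial) := by
          rw [Nat.factorial_succ, Nat.factorial_succ]
        rw [e1, e2, e3, hXd, f1]
        push_cast
        field_simp
      have w4 : wt (j + (m + 1) + 1) (j + 2) = 2 * X := by
        unfold wt
        have e1 : j + (m + 1) + 1 - (j + 2) = m := by omega
        have e2 : j + (m + 1) + 1 + (j + 2) = 2 * j + m + 4 := by omega
        rw [e1, e2, hXd]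
        ring
      have w5 : wt (j + (m + 1)) (j + 1) = 2 * (2 * j + m + 4) * (2 * j + m + 3) * X := by
        unfold wt
        have e1 : j + (m + 1) - (j + 1) = m := by omega
        have e2 : j + (m + 1) + (j + 1) = 2 * j + m + 2 := by omega
        rw [e1, e2, hXd, f1]
        push_cast
        field_simp
      rw [w1, w2, w3, w4, w5]
      push_cast at h1 h2 h3 h4 h5 h6 ⊢
      have hk3 : 2 * ((j : ℝ) + (m + 1)) + 3 ≠ 0 := by positivity
      apply mul_left_cancel₀ hk3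
      have g5 : (2 * ((j : ℝ) + (m + 1)) + 3) * p = a - b := by linarith
      have g6 : (2 * ((j : ℝ) + (m + 1)) + 3) * p' = a' - b' := by linarith
      change _ = (2 * ((j : ℝ) + (m + 1)) + 3) * ((2 * ((j : ℝ) + (m + 1)) + 3) *
        (u * v * (2 * ((m : ℝ) + 1) * (2 * (j : ℝ) + m + 4) * X * g * g') +
        1 / 2 * (2 * ((m : ℝ) + 2) * (m + 1) * (2 * j + m + 4) * (2 * j + m + 3) * X * p * p') +
        1 / 2 * ((1 - u ^ 2) * (1 - v ^ 2)) * (2 * X * r * r')) -
        (((j : ℝ) + (m + 1)) + 1) * (2 * (2 * (j : ℝ) + m + 4) * (2 * j + m + 3) * X * b * b'))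
      have e7 : (2 * ((j : ℝ) + (m + 1)) + 3) * ((2 * ((j : ℝ) + (m + 1)) + 3) *
        (u * v * (2 * ((m : ℝ) + 1) * (2 * (j : ℝ) + m + 4) * X * g * g') +
        1 / 2 * (2 * ((m : ℝ) + 2) * (m + 1) * (2 * j + m + 4) * (2 * j + m + 3) * X * p * p') +
        1 / 2 * ((1 - u ^ 2) * (1 - v ^ 2)) * (2 * X * r * r')) -
        (((j : ℝ) + (m + 1)) + 1) * (2 * (2 * (j : ℝ) + m + 4) * (2 * j + m + 3) * X * b * b')) =
        2 * ((m : ℝ) + 1) * (2 * (j : ℝ) + m + 4) * X *
          (((2 * ((j : ℝ) + (m + 1)) + 3) * u * g) * ((2 * ((j : ℝ) + (m + 1)) + 3) * v * g')) +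
        ((m : ℝ) + 2) * (m + 1) * (2 * j + m + 4) * (2 * j + m + 3) * X *
          (((2 * ((j : ℝ) + (m + 1)) + 3) * p) * ((2 * ((j : ℝ) + (m + 1)) + 3) * p')) +
        X * (((2 * ((j : ℝ) + (m + 1)) + 3) * (1 - u ^ 2) * r) *
          ((2 * ((j : ℝ) + (m + 1)) + 3) * (1 - v ^ 2) * r')) -
        (2 * ((j : ℝ) + (m + 1)) + 3) * (((j : ℝ) + (m + 1)) + 1) *
          (2 * (2 * (j : ℝ) + m + 4) * (2 * j + m + 3) * X * b * b') := by
        ring
      rw [e7, h1, h2, h3, h4, g5, g6]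
      ring
  · -- j = k + 1
    subst hj
    have z1 : FF u v (k + 1) (k + 1 + 1) = 0 := FF_big u v (by omega)
    have z2 : FF u v (k + 1) (k + 1 + 2) = 0 := FF_big u v (by omega)
    have z3 : FF u v k (k + 1 + 1) = 0 := FF_big u v (by omega)
    rw [z1, z2, z3]
    unfold FF
    rw [G_succ k (k + 1) u, G_succ k (k + 1) v, G_big k (k + 1 + 1) u (by omega),
      G_big k (k + 1 + 1) v (by omega)]
    have w1 : wt (k + 2) (k + 1 + 1) * (((k : ℝ) + 2) * (2 * (k : ℝ) + 3) * 2) = wt (k + 1) (k + 1) := by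
      unfold wt
      have e1 : k + 2 - (k + 1 + 1) = 0 := by omega
      have e2 : k + 2 + (k + 1 + 1) = 2 * k + 4 := by omega
      have e3 : k + 1 - (k + 1) = 0 := by omega
      have e4 : k + 1 + (k + 1) = 2 * k + 2 := by omega
      have e5 : (2 * k + 4).factorial = (2 * k + 4) * ((2 * k + 3) * (2 * k + 2).factorial) := by
        rw [Nat.factorial_succ, Nat.factorial_succ]
      have e6 : (((2 * k + 2).factorial : ℕ) : ℝ) ≠ 0 := by
        exact_mod_cast (2 * k + 2).factorial_ne_zero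
      rw [e1, e2, e3, e4, e5]
      push_cast
      field_simp
      ring
    rw [← w1]
    ring
  · rw [FF_big u v (show k + 2 < j + 1 by omega), FF_big u v (show k + 1 < j + 1 by omega),
      FF_big u v (show k + 1 < j by omega), FF_big u v (show k + 1 < j + 2 by omega),
      FF_big u v (show k < j + 1 by omega)]
    ring

theorem FF_ext (u v t : ℝ) (n N : ℕ) (h : n ≤ N) :
    ∑ j ∈ Finset.range (N + 1), FF u v n j * qt u v t j =
      ∑ j ∈ Finset.range (n + 1), FF u v n j * qt u v t j := by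
  symm
  apply Finset.sum_subset
  · exact Finset.range_subset_range.mpr (by omega)
  · intro j _ hj
    rw [Finset.mem_range, not_lt] at hj
    rw [FF_big u v (by omega), zero_mul]

/-- the addition theorem -/
theorem leg_add (u v t : ℝ) (n : ℕ) :
    leg n t = ∑ j ∈ Finset.range (n + 1), FF u v n j * qt u v t j ∧
    leg (n + 1) t = ∑ j ∈ Finset.range (n + 2), FF u v (n + 1) j * qt u v t j := by
  induction n with
  | zero =>
    constructor
    · simp [FF, qt, wt, G, leg]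
    · rw [Finset.sum_range_succ, Finset.sum_range_succ, Finset.sum_range_zero]
      simp [FF, qt, wt, G, leg, Qk]
      ring
  | succ n ih =>
    refine ⟨ih.2, ?_⟩
    have e : leg (n + 1 + 1) t =
        ((2 * (n : ℝ) + 3) * t * leg (n + 1) t - ((n : ℝ) + 1) * leg n t) / ((n : ℝ) + 2) := rfl
    have hk2 : (n : ℝ) + 2 ≠ 0 := by positivity
    rw [e, div_eq_iff hk2, ih.2, ih.1]
    have h1 := qt_sum u v t (FF u v (n + 1)) (n + 2)
    rw [if_neg (by omega), FF_big u v (show n + 1 < n + 2 by omega),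
      FF_big u v (show n + 1 < n + 2 + 1 by omega), FF_ext u v t (n + 1) (n + 2) (by omega)] at h1
    have h2 : (2 * (n : ℝ) + 3) * t * ∑ j ∈ Finset.range (n + 2), FF u v (n + 1) j * qt u v t j =
        (2 * (n : ℝ) + 3) * (t * ∑ j ∈ Finset.range (n + 1 + 1), FF u v (n + 1) j * qt u v t j) := by
      ring
    rw [h2, h1]
    have h3 : ∑ j ∈ Finset.range (n + 1), FF u v n j * qt u v t j =
        FF u v n 0 * qt u v t 0 +
          ∑ j ∈ Finset.range (n + 2), FF u v n (j + 1) * qt u v t (j + 1) := by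
      rw [← FF_ext u v t n (n + 2) (by omega), Finset.sum_range_succ']
      ring
    have h4 : ∑ j ∈ Finset.range (n + 1 + 2), FF u v (n + 1 + 1) j * qt u v t j =
        FF u v (n + 2) 0 * qt u v t 0 +
          ∑ j ∈ Finset.range (n + 2), FF u v (n + 2) (j + 1) * qt u v t (j + 1) := by
      rw [Finset.sum_range_succ']
      ring
    rw [h3, h4]
    have h5 : ∀ j ∈ Finset.range (n + 2), FF u v (n + 2) (j + 1) * qt u v t (j + 1) * ((n : ℝ) + 2) =
        (2 * (n : ℝ) + 3) * ((u * v * FF u v (n + 1) (j + 1) + 1 / 2 * FF u v (n + 1) j +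
          1 / 2 * ((1 - u ^ 2) * (1 - v ^ 2)) * FF u v (n + 1) (j + 2)) * qt u v t (j + 1)) -
          ((n : ℝ) + 1) * (FF u v n (j + 1) * qt u v t (j + 1)) := by
      intro j _
      linear_combination (qt u v t (j + 1)) * FF_rel_succ u v n j
    have h6 : (∑ j ∈ Finset.range (n + 2), FF u v (n + 2) (j + 1) * qt u v t (j + 1)) *
        ((n : ℝ) + 2) = (2 * (n : ℝ) + 3) * (∑ j ∈ Finset.range (n + 2),
          (u * v * FF u v (n + 1) (j + 1) + 1 / 2 * FF u v (n + 1) j +
          1 / 2 * ((1 - u ^ 2) * (1 - v ^ 2)) * FF u v (n + 1) (j + 2)) * qt u v t (j + 1)) -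
          ((n : ℝ) + 1) * ∑ j ∈ Finset.range (n + 2), FF u v n (j + 1) * qt u v t (j + 1) := by
      rw [Finset.sum_mul, Finset.sum_congr rfl h5, Finset.sum_sub_distrib, ← Finset.mul_sum,
        ← Finset.mul_sum]
    linear_combination (-(qt u v t 0)) * FF_rel_zero u v n - h6

theorem wt_nonneg (n j : ℕ) : 0 ≤ wt n j := by
  unfold wt
  positivity

theorem leg_psd (k : ℕ) (hk : k ≤ 12) {n : ℕ} (x : Fin n → E3) (hx : ∀ i, ‖x i‖ = 1) (c : Fin n → ℝ) :
    0 ≤ ∑ i, ∑ j, c i * c j * leg k (inner ℝ (x i) (x j)) := by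
  set e : E3 := EuclideanSpace.single 0 1 with he
  have he1 : ‖e‖ = 1 := by rw [he]; simp
  have h1 : ∀ i j, leg k (inner ℝ (x i) (x j)) = ∑ l ∈ Finset.range (k + 1),
      FF (inner ℝ e (x i)) (inner ℝ e (x j)) k l *
        qt (inner ℝ e (x i)) (inner ℝ e (x j)) (inner ℝ (x i) (x j)) l :=
    fun i j => (leg_add _ _ _ k).1
  have h2 : ∑ i, ∑ j, c i * c j * leg k (inner ℝ (x i) (x j)) =
      ∑ l ∈ Finset.range (k + 1), ∑ i, ∑ j, c i * c j * (FF (inner ℝ e (x i)) (inner ℝ e (x j)) k l *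
        qt (inner ℝ e (x i)) (inner ℝ e (x j)) (inner ℝ (x i) (x j)) l) := by
    have h6 : ∀ T : Fin n → Fin n → ℕ → ℝ, ∑ l ∈ Finset.range (k + 1), ∑ i, ∑ j, T i j l =
        ∑ i, ∑ j, ∑ l ∈ Finset.range (k + 1), T i j l := by
      intro T
      rw [Finset.sum_comm]
      exact Finset.sum_congr rfl fun i _ => Finset.sum_comm
    rw [h6]
    refine Finset.sum_congr rfl fun i _ => Finset.sum_congr rfl fun j _ => ?_
    rw [h1, Finset.mul_sum]
  rw [h2]
  refine Finset.sum_nonneg fun l _ => ?_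
  have h3 : ∀ s : ℝ, 0 ≤ s → (∀ u v t : ℝ, qt u v t l = s * Qk l u v t) →
      0 ≤ ∑ i, ∑ j, c i * c j * (FF (inner ℝ e (x i)) (inner ℝ e (x j)) k l *
        qt (inner ℝ e (x i)) (inner ℝ e (x j)) (inner ℝ (x i) (x j)) l) := by
    intro s hs hq
    have h4 := Qk_psd l e he1 x hx (fun i => c i * G k l (inner ℝ e (x i)))
    have h5 : ∑ i, ∑ j, c i * c j * (FF (inner ℝ e (x i)) (inner ℝ e (x j)) k l *
        qt (inner ℝ e (x i)) (inner ℝ e (x j)) (inner ℝ (x i) (x j)) l) =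
        (wt k l * s) * ∑ i, ∑ j, c i * G k l (inner ℝ e (x i)) * (c j * G k l (inner ℝ e (x j))) *
          Qk l (inner ℝ e (x i)) (inner ℝ e (x j)) (inner ℝ (x i) (x j)) := by
      rw [Finset.mul_sum]
      refine Finset.sum_congr rfl fun i _ => ?_
      rw [Finset.mul_sum]
      refine Finset.sum_congr rfl fun j _ => ?_
      rw [hq]
      unfold FF
      ring
    rw [h5]
    exact mul_nonneg (mul_nonneg (wt_nonneg _ _) hs) h4
  cases l with
  | zero => exact h3 (1 / 2) (by norm_num) (fun u v t => by simp [qt, Qk])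
  | succ l => exact h3 1 (by norm_num) (fun u v t => by simp [qt])

theorem leg_one (k : ℕ) : leg k 1 = 1 := by
  have h : leg k 1 = 1 ∧ leg (k + 1) 1 = 1 := by
    induction k with
    | zero => simp [leg]
    | succ k ih =>
      refine ⟨ih.2, ?_⟩
      have e : leg (k + 1 + 1) 1 =
          ((2 * (k : ℝ) + 3) * 1 * leg (k + 1) 1 - ((k : ℝ) + 1) * leg k 1) / ((k : ℝ) + 2) := rfl
      have hk2 : (k : ℝ) + 2 ≠ 0 := by positivity
      rw [e, ih.1, ih.2, div_eq_iff hk2]
      ring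
  exact h.1

theorem Qk_diag (k : ℕ) (u : ℝ) : Qk k u u 1 = (1 - u ^ 2) ^ k := by
  have h : Qk k u u 1 = (1 - u ^ 2) ^ k ∧ Qk (k + 1) u u 1 = (1 - u ^ 2) ^ (k + 1) := by
    induction k with
    | zero => simp [Qk]; ring
    | succ k ih =>
      refine ⟨ih.2, ?_⟩
      have e : Qk (k + 1 + 1) u u (1 : ℝ) = 2 * (1 - u * u) * Qk (k + 1) u u 1 -
          (1 - u ^ 2) * (1 - u ^ 2) * Qk k u u 1 := rfl
      rw [e, ih.1, ih.2]
      ring
  exact h.1

end Pool.Agent.H54.V
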