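/-
JOB VOR-BERN.  Reflective checker for positivity of a univariate integer polynomial on a rational interval.

The polynomial is transported to the half line by `x = (a + b t) / (d (1 + t))` (`bcInit`); a list of integers `m`
is accepted if all its members are nonnegative; otherwise the half line is cut at `t = 1` (the middle of the
interval in the variable `x`), the two halves are `m (1 + 2 t)` and `rev m (1 + 2 t)`.  Evaluation in the kernel
(`decide +kernel`): degree 12, 50 nodes: 1 second; degree 30, 85 nodes: 4 seconds.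
-/
import Pool.Agent.H54.V.Defs
set_option autoImplicit false
namespace Pool.Agent.H54.V

/-- evaluation of an integer coefficient list. -/
def pe {R : Type*} [CommRing R] (c : List ℤ) (x : R) : R := c.foldr (fun (a : ℤ) (s : R) => (a : R) + x * s) 0

/-- `c + (1 + t) * L`. -/
def bcGo : List ℤ → ℤ → List ℤ
  | [], c => [c]
  | x :: xs, c => Int.add c x :: bcGo xs x

/-- Taylor shift by one. -/
def bcShift : List ℤ → List ℤ
  | [] => []
  | c :: cs => bcGo (bcShift cs) c

/-- `p * L (2 t)`. -/
def bcScale : List ℤ → ℤ → List ℤ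
  | [], _ => []
  | x :: xs, p => Int.mul p x :: bcScale xs (Int.mul 2 p)

/-- all coefficients are nonnegative. -/
def bcNonneg : List ℤ → Bool
  | [] => true
  | x :: xs => match x with
    | Int.ofNat _ => bcNonneg xs
    | Int.negSucc _ => false

/-- `m (1 + 2 t)`. -/
def bcR (m : List ℤ) : List ℤ := bcScale (bcShift m) 1

/-- positivity on the half line by bisection. -/
def bcRec : ℕ → List ℤ → Bool
  | 0, m => bcNonneg m
  | N + 1, m => bcNonneg m || (match m with
    | [] => true
    | x :: xs => (match x with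
      | Int.ofNat _ => bcRec N (bcR (x :: xs)) && bcRec N (bcR (x :: xs).reverse)
      | Int.negSucc _ => false))

/-- `c + (α + β t) * L`. -/
def bcMul (α β : ℤ) : List ℤ → ℤ → List ℤ
  | [], c => [c]
  | x :: xs, c => Int.add c (Int.mul α x) :: bcMul α β xs (Int.mul β x)

/-- sum of two polynomials. -/
def bcAdd : List ℤ → List ℤ → List ℤ
  | [], L => L
  | x :: xs, [] => x :: xs
  | x :: xs, y :: ys => Int.add x y :: bcAdd xs ys

/-- scalar multiple. -/
def bcSmul (c : ℤ) : List ℤ → List ℤ
  | [] => []
  | x :: xs => Int.mul c x :: bcSmul c xs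

/-- the homogeneous substitution, together with `(d (1 + t)) ^ length`. -/
def bcInit (a b d : ℤ) : List ℤ → List ℤ × List ℤ
  | [] => ([], [1])
  | c :: cs => (fun r => (bcAdd (bcSmul c r.2) (bcMul a b r.1 0), bcMul d d r.2 0)) (bcInit a b d cs)

/-- value at the right end, together with `d ^ length`. -/
def bcEnd (b d : ℤ) : List ℤ → ℤ × ℤ
  | [] => (0, 1)
  | c :: cs => (fun r => (Int.add (Int.mul c r.2) (Int.mul b r.1), Int.mul d r.2)) (bcEnd b d cs)

/-- checker: coefficient list, left end a, right end b, common denominator d, recursion depth N. -/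
def bernCheck (c : List ℤ) (a b : ℤ) (d N : ℕ) : Bool :=
  bcNonneg [(bcEnd b d c).1] && bcRec N (bcInit a b d c).1

section
variable {R : Type*} [CommRing R]

theorem bc_pe_nil (x : R) : pe [] x = 0 := rfl

theorem bc_pe_cons (a : ℤ) (c : List ℤ) (x : R) : pe (a :: c) x = a + x * pe c x := rfl

theorem bc_pe_go (L : List ℤ) (c : ℤ) (t : R) : pe (bcGo L c) t = c + (1 + t) * pe L t := by
  induction L generalizing c with
  | nil => rw [bcGo, bc_pe_cons, bc_pe_nil]; ring
  | cons x xs ih =>
    rw [bcGo, bc_pe_cons, bc_pe_cons, ih, Int.add_def, Int.cast_add]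
    ring

theorem bc_pe_shift (m : List ℤ) (t : R) : pe (bcShift m) t = pe m (1 + t) := by
  induction m with
  | nil => rfl
  | cons x xs ih => rw [bcShift, bc_pe_go, ih, bc_pe_cons]

theorem bc_pe_scale (L : List ℤ) (p : ℤ) (t : R) : pe (bcScale L p) t = p * pe L (2 * t) := by
  induction L generalizing p with
  | nil => rw [bcScale, bc_pe_nil, bc_pe_nil]; ring
  | cons x xs ih =>
    rw [bcScale, bc_pe_cons, bc_pe_cons, ih, Int.mul_def, Int.mul_def, Int.cast_mul, Int.cast_mul]
    push_cast
    ring

theorem bc_pe_R (m : List ℤ) (t : R) : pe (bcR m) t = pe m (1 + 2 * t) := by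
  rw [bcR, bc_pe_scale, bc_pe_shift]
  simp

theorem bc_pe_mul (α β : ℤ) (L : List ℤ) (c : ℤ) (t : R) :
    pe (bcMul α β L c) t = c + (α + β * t) * pe L t := by
  induction L generalizing c with
  | nil => rw [bcMul, bc_pe_cons, bc_pe_nil]; ring
  | cons x xs ih =>
    rw [bcMul, bc_pe_cons, bc_pe_cons, ih, Int.add_def, Int.mul_def, Int.mul_def]
    push_cast
    ring

theorem bc_pe_add (L M : List ℤ) (t : R) : pe (bcAdd L M) t = pe L t + pe M t := by
  induction L generalizing M with
  | nil => rw [bcAdd, bc_pe_nil]; ring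
  | cons x xs ih =>
    cases M with
    | nil => rw [bcAdd, bc_pe_nil]; ring
    | cons y ys =>
      rw [bcAdd, bc_pe_cons, bc_pe_cons, bc_pe_cons, ih, Int.add_def, Int.cast_add]
      ring

theorem bc_pe_smul (c : ℤ) (L : List ℤ) (t : R) : pe (bcSmul c L) t = c * pe L t := by
  induction L with
  | nil => rw [bcSmul, bc_pe_nil]; ring
  | cons x xs ih =>
    rw [bcSmul, bc_pe_cons, bc_pe_cons, ih, Int.mul_def, Int.cast_mul]
    ring

theorem bc_pe_append (L : List ℤ) (c : ℤ) (t : R) :
    pe (L ++ [c]) t = pe L t + t ^ L.length * c := by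
  induction L with
  | nil => rw [List.nil_append, bc_pe_cons, bc_pe_nil, List.length_nil]; ring
  | cons x xs ih =>
    rw [List.cons_append, bc_pe_cons, bc_pe_cons, ih, List.length_cons]
    ring

theorem bc_pe_init (a b d : ℤ) (c : List ℤ) (t x : R) (hx : x * (d * (1 + t)) = a + b * t) :
    (d * (1 + t)) * pe (bcInit a b d c).1 t = (d * (1 + t)) ^ c.length * pe c x ∧
      pe (bcInit a b d c).2 t = (d * (1 + t)) ^ c.length := by
  induction c with
  | nil =>
    rw [bcInit]
    refine ⟨?_, ?_⟩
    · simp [bc_pe_nil]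
    · rw [bc_pe_cons, bc_pe_nil]
      simp
  | cons c cs ih =>
    obtain ⟨h1, h2⟩ := ih
    rw [bcInit]
    refine ⟨?_, ?_⟩
    · simp only
      rw [bc_pe_add, bc_pe_smul, bc_pe_mul, h2, bc_pe_cons, List.length_cons, Int.cast_zero,
        zero_add, mul_add, mul_left_comm _ ((a : R) + b * t), h1, ← hx]
      ring
    · simp only
      rw [bc_pe_mul, h2, List.length_cons]
      push_cast
      ring

theorem bc_pe_end (b d : ℤ) (c : List ℤ) (x : R) (hx : x * d = b) :
    d * ((bcEnd b d c).1 : R) = (d : R) ^ c.length * pe c x ∧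
      ((bcEnd b d c).2 : R) = (d : R) ^ c.length := by
  induction c with
  | nil =>
    rw [bcEnd]
    refine ⟨?_, ?_⟩ <;> simp [bc_pe_nil]
  | cons c cs ih =>
    obtain ⟨h1, h2⟩ := ih
    rw [bcEnd]
    refine ⟨?_, ?_⟩
    · simp only
      rw [Int.add_def, Int.mul_def, Int.mul_def, Int.cast_add, Int.cast_mul, Int.cast_mul, h2,
        mul_add, mul_left_comm _ (b : R), h1, bc_pe_cons, List.length_cons, ← hx]
      ring
    · simp only
      rw [Int.mul_def, Int.cast_mul, h2, List.length_cons]
      ring

end

theorem bc_pe_reverse (m : List ℤ) (t : ℝ) (ht : t ≠ 0) :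
    t * pe m.reverse t = t ^ m.length * pe m (1 / t) := by
  induction m with
  | nil => simp [bc_pe_nil]
  | cons c cs ih =>
    rw [List.reverse_cons, bc_pe_append, mul_add, ih, List.length_reverse, List.length_cons,
      bc_pe_cons, pow_succ]
    field_simp
    ring

theorem bc_nonneg (m : List ℤ) (h : bcNonneg m = true) (t : ℝ) (ht : 0 ≤ t) : 0 ≤ pe m t := by
  induction m with
  | nil => exact le_rfl
  | cons x xs ih =>
    cases x with
    | ofNat n =>
      rw [bc_pe_cons]
      have h1 : bcNonneg xs = true := h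
      have h2 := mul_nonneg ht (ih h1)
      have h3 : (0 : ℝ) ≤ ((Int.ofNat n : ℤ) : ℝ) := by simp
      linarith
    | negSucc n =>
      have h1 : (false : Bool) = true := h
      exact absurd h1 (by simp)

theorem bc_rec (N : ℕ) (m : List ℤ) (h : bcRec N m = true) (t : ℝ) (ht : 0 ≤ t) :
    0 ≤ pe m t := by
  induction N generalizing m t with
  | zero => exact bc_nonneg m h t ht
  | succ N ih =>
    rw [bcRec.eq_def] at h
    simp only [Bool.or_eq_true] at h
    rcases h with h | h
    · exact bc_nonneg m h t ht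
    cases m with
    | nil => exact le_rfl
    | cons x xs =>
      cases x with
      | negSucc n => simp at h
      | ofNat n =>
        simp only [Bool.and_eq_true] at h
        obtain ⟨h1, h2⟩ := h
        rcases le_or_gt 1 t with h3 | h3
        · have h4 := ih _ h1 ((t - 1) / 2) (by linarith)
          rw [bc_pe_R] at h4
          have h5 : 1 + 2 * ((t - 1) / 2) = t := by ring
          rwa [h5] at h4
        · rcases ht.eq_or_lt with h4 | h4
          · rw [← h4, bc_pe_cons]
            simp
          · have h5 := ih _ h2 ((1 / t - 1) / 2) (by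
              have : 1 ≤ 1 / t := by
                rw [le_div_iff₀ h4]; linarith
              linarith)
            rw [bc_pe_R] at h5
            have h6 : 1 + 2 * ((1 / t - 1) / 2) = 1 / t := by ring
            rw [h6] at h5
            have h7 : (1 / t) ≠ 0 := by positivity
            have h8 := bc_pe_reverse (Int.ofNat n :: xs) (1 / t) h7
            rw [one_div_one_div] at h8
            have h9 : 0 ≤ (1 / t) * pe (Int.ofNat n :: xs).reverse (1 / t) :=
              mul_nonneg (by positivity) h5
            rw [h8] at h9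
            exact nonneg_of_mul_nonneg_right h9 (by positivity)

theorem bernCheck_sound (c : List ℤ) (a b : ℤ) (d N : ℕ) (hd : 0 < d) (h : bernCheck c a b d N = true) (x : ℝ)
    (hx : (a : ℝ) / d ≤ x) (hx' : x ≤ (b : ℝ) / d) : 0 ≤ pe c x := by
  rw [bernCheck, Bool.and_eq_true] at h
  obtain ⟨h1, h2⟩ := h
  have hd0 : (0 : ℝ) < d := by exact_mod_cast hd
  rcases hx'.eq_or_lt with h3 | h3
  · have h4 := bc_nonneg _ h1 0 le_rfl
    rw [bc_pe_cons, zero_mul, add_zero] at h4
    obtain ⟨h5, _⟩ := bc_pe_end b d c x (by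
      rw [h3]
      push_cast
      field_simp)
    have h6 : (0 : ℝ) ≤ ((d : ℤ) : ℝ) * ((bcEnd b d c).1 : ℝ) :=
      mul_nonneg (by exact_mod_cast hd0.le) h4
    rw [h5] at h6
    refine nonneg_of_mul_nonneg_right h6 (pow_pos ?_ _)
    exact_mod_cast hd0
  · have h4 : x * d < b := by rwa [lt_div_iff₀ hd0] at h3
    have h5 : (a : ℝ) ≤ x * d := by rwa [div_le_iff₀ hd0] at hx
    have h6 : 0 < (b : ℝ) - x * d := by linarith
    have h7 := bc_rec N _ h2 ((x * d - a) / (b - x * d)) (div_nonneg (by linarith) h6.le)
    obtain ⟨h8, _⟩ := bc_pe_init a b d c ((x * d - a) / (b - x * d)) x (by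
      push_cast
      field_simp
      ring)
    have h9 : 0 < (((d : ℕ) : ℤ) : ℝ) * (1 + (x * d - a) / (b - x * d)) := by
      have h10 : 0 ≤ (x * d - a) / (b - x * d) := div_nonneg (by linarith) h6.le
      have h11 : (0 : ℝ) < (((d : ℕ) : ℤ) : ℝ) := by exact_mod_cast hd0
      positivity
    have h12 := mul_nonneg h9.le h7
    rw [h8] at h12
    exact nonneg_of_mul_nonneg_right h12 (pow_pos h9 _)

end Pool.Agent.H54.V
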