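/-
JOB VOR-SDPABS.  From the pointwise inequalities of a three-point certificate to the energy bound.
Write s = 2^80, t_ij = ⟪u i,u j⟫, u_i = ⟪u i,z⟫.  All sums over pairs i<j (66 pairs) and triples i<j<k (220 triples) of the
12 ordinary points.
(1) For every (k,cols) ∈ Fo and every column c: for each pole p = u i apply `Qk_psd` to the 12 points {u j : j ≠ i} ∪ {z}
 with coefficients pe c.1 (t_ij) on u j and pe c.2 (u_i) on z; sum over i:
 0 ≤ X_c := Σ_triples 2[Q(t12,t13,t23) f(t12) f(t13) + (two other poles)] + Σ_pairs [2(1-t²)^k f(t)² + 2Q(t,u,v) f(t) g(u)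
 + 2Q(t,v,u) f(t) g(v)] + Σ_i (1-u_i²)^k g(u_i)²   (f = pe c.1, g = pe c.2, t = t_ij, u = u_i, v = u_j), and
 Σ_i (1-u_i²)^k g(u_i)² = (1/11) Σ_pairs [(1-u²)^k g(u)² + (1-v²)^k g(v)²].
 (Symmetry `Qk k u v t = Qk k v u t`; the triple {1,2,3} with pole 1 has arguments Q(t12,t13,t23); T1I is symmetric.)
(2) For every (k,cols) ∈ Fz: pole z, points u i with coefficients pe c (u_i):
 0 ≤ Σ_pairs [2 Q(u,v,t) h(u)h(v) + ((1-u²)^k h(u)² + (1-v²)^k h(v)²)/11].
(3) For every (k,cols) ∈ A (1 ≤ k ≤ 12): `leg_psd` for the 13 points u i (weight a), z (weight b); with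
 pe (LPi k) t = 1024 P_k(t), P_k(1) = 1: 0 ≤ 1024 (12 a² + b²) + Σ_pairs [2a² pe(LPi k) t + (2ab/11)(pe(LPi k) u + pe(LPi k) v)].
(4) Σ_triples (b(t12)+b(t13)+b(t23)) = 10 Σ_pairs b(t).
(5) Sum h1 over the triples, h2 over the pairs:  Σ_triples T1I ≥ -220 ε1, Σ_pairs T2I ≥ -66 ε2, and insert (1)-(4):
 11·(Σ_pairs q(t) + Σ_i qs(u_i)) ≥ 11·66 kap - 11·220 ε1 - 66 ε2 - 11·1024 trA;  finally hq, hqs.
 (The Gram condition 0 ≤ 1+2xyz-x²-y²-z² holds for the three inner products of three unit vectors.)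
-/
import Pool.Agent.H54.V.J.Leg
import Pool.Agent.H54.V.SDPDefs
set_option autoImplicit false
open MeasureTheory
namespace Pool.Agent.H54.V

theorem sda_leg0 (t : ℝ) : leg 0 t = 1 := by rw [leg]

theorem sda_leg1 (t : ℝ) : leg 1 t = t := by rw [leg]



theorem sda_leg2 (t : ℝ) : leg 2 t = ((-512) * t ^ 0 + (1536) * t ^ 2) / 1024 := by
  have h : leg (0 + 2) t = ((2 * (((0 : ℕ)) : ℝ) + 3) * t * leg (0 + 1) t - (((0 : ℕ) : ℝ) + 1) * leg 0 t) /
      (((0 : ℕ) : ℝ) + 2) := rfl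
  norm_num only at h
  rw [h, sda_leg1, sda_leg0]
  ring

theorem sda_leg3 (t : ℝ) : leg 3 t = ((-1536) * t ^ 1 + (2560) * t ^ 3) / 1024 := by
  have h : leg (1 + 2) t = ((2 * (((1 : ℕ)) : ℝ) + 3) * t * leg (1 + 1) t - (((1 : ℕ) : ℝ) + 1) * leg 1 t) /
      (((1 : ℕ) : ℝ) + 2) := rfl
  norm_num only at h
  rw [h, sda_leg2, sda_leg1]
  ring

theorem sda_leg4 (t : ℝ) : leg 4 t = ((384) * t ^ 0 + (-3840) * t ^ 2 + (4480) * t ^ 4) / 1024 := by
  have h : leg (2 + 2) t = ((2 * (((2 : ℕ)) : ℝ) + 3) * t * leg (2 + 1) t - (((2 : ℕ) : ℝ) + 1) * leg 2 t) /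
      (((2 : ℕ) : ℝ) + 2) := rfl
  norm_num only at h
  rw [h, sda_leg3, sda_leg2]
  ring

theorem sda_leg5 (t : ℝ) : leg 5 t = ((1920) * t ^ 1 + (-8960) * t ^ 3 + (8064) * t ^ 5) / 1024 := by
  have h : leg (3 + 2) t = ((2 * (((3 : ℕ)) : ℝ) + 3) * t * leg (3 + 1) t - (((3 : ℕ) : ℝ) + 1) * leg 3 t) /
      (((3 : ℕ) : ℝ) + 2) := rfl
  norm_num only at h
  rw [h, sda_leg4, sda_leg3]
  ring

theorem sda_leg6 (t : ℝ) : leg 6 t = ((-320) * t ^ 0 + (6720) * t ^ 2 + (-20160) * t ^ 4 + (14784) * t ^ 6) / 1024 := by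
  have h : leg (4 + 2) t = ((2 * (((4 : ℕ)) : ℝ) + 3) * t * leg (4 + 1) t - (((4 : ℕ) : ℝ) + 1) * leg 4 t) /
      (((4 : ℕ) : ℝ) + 2) := rfl
  norm_num only at h
  rw [h, sda_leg5, sda_leg4]
  ring

theorem sda_leg7 (t : ℝ) : leg 7 t = ((-2240) * t ^ 1 + (20160) * t ^ 3 + (-44352) * t ^ 5 + (27456) * t ^ 7) / 1024 := by
  have h : leg (5 + 2) t = ((2 * (((5 : ℕ)) : ℝ) + 3) * t * leg (5 + 1) t - (((5 : ℕ) : ℝ) + 1) * leg 5 t) /
      (((5 : ℕ) : ℝ) + 2) := rfl
  norm_num only at h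
  rw [h, sda_leg6, sda_leg5]
  ring

theorem sda_leg8 (t : ℝ) : leg 8 t = ((280) * t ^ 0 + (-10080) * t ^ 2 + (55440) * t ^ 4 + (-96096) * t ^ 6 + (51480) * t ^ 8) / 1024 := by
  have h : leg (6 + 2) t = ((2 * (((6 : ℕ)) : ℝ) + 3) * t * leg (6 + 1) t - (((6 : ℕ) : ℝ) + 1) * leg 6 t) /
      (((6 : ℕ) : ℝ) + 2) := rfl
  norm_num only at h
  rw [h, sda_leg7, sda_leg6]
  ring

theorem sda_leg9 (t : ℝ) : leg 9 t = ((2520) * t ^ 1 + (-36960) * t ^ 3 + (144144) * t ^ 5 + (-205920) * t ^ 7 + (97240) * t ^ 9) / 1024 := by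
  have h : leg (7 + 2) t = ((2 * (((7 : ℕ)) : ℝ) + 3) * t * leg (7 + 1) t - (((7 : ℕ) : ℝ) + 1) * leg 7 t) /
      (((7 : ℕ) : ℝ) + 2) := rfl
  norm_num only at h
  rw [h, sda_leg8, sda_leg7]
  ring

theorem sda_leg10 (t : ℝ) : leg 10 t = ((-252) * t ^ 0 + (13860) * t ^ 2 + (-120120) * t ^ 4 + (360360) * t ^ 6 + (-437580) * t ^ 8 + (184756) * t ^ 10) / 1024 := by
  have h : leg (8 + 2) t = ((2 * (((8 : ℕ)) : ℝ) + 3) * t * leg (8 + 1) t - (((8 : ℕ) : ℝ) + 1) * leg 8 t) /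
      (((8 : ℕ) : ℝ) + 2) := rfl
  norm_num only at h
  rw [h, sda_leg9, sda_leg8]
  ring

theorem sda_leg11 (t : ℝ) : leg 11 t = ((-2772) * t ^ 1 + (60060) * t ^ 3 + (-360360) * t ^ 5 + (875160) * t ^ 7 + (-923780) * t ^ 9 + (352716) * t ^ 11) / 1024 := by
  have h : leg (9 + 2) t = ((2 * (((9 : ℕ)) : ℝ) + 3) * t * leg (9 + 1) t - (((9 : ℕ) : ℝ) + 1) * leg 9 t) /
      (((9 : ℕ) : ℝ) + 2) := rfl
  norm_num only at h
  rw [h, sda_leg10, sda_leg9]
  ring

theorem sda_leg12 (t : ℝ) : leg 12 t = ((231) * t ^ 0 + (-18018) * t ^ 2 + (225225) * t ^ 4 + (-1021020) * t ^ 6 + (2078505) * t ^ 8 + (-1939938) * t ^ 10 + (676039) * t ^ 12) / 1024 := by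
  have h : leg (10 + 2) t = ((2 * (((10 : ℕ)) : ℝ) + 3) * t * leg (10 + 1) t - (((10 : ℕ) : ℝ) + 1) * leg 10 t) /
      (((10 : ℕ) : ℝ) + 2) := rfl
  norm_num only at h
  rw [h, sda_leg11, sda_leg10]
  ring


theorem pe_LPi (k : ℕ) (hk : k ≤ 12) (t : ℝ) : pe (LPi k) t = 1024 * leg k t := by
  interval_cases k
  · rw [sda_leg0]; simp only [LPi, pe, List.foldr_cons, List.foldr_nil]; push_cast; ring
  · rw [sda_leg1]; simp only [LPi, pe, List.foldr_cons, List.foldr_nil]; push_cast; ring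
  · rw [sda_leg2]; simp only [LPi, pe, List.foldr_cons, List.foldr_nil]; push_cast; ring
  · rw [sda_leg3]; simp only [LPi, pe, List.foldr_cons, List.foldr_nil]; push_cast; ring
  · rw [sda_leg4]; simp only [LPi, pe, List.foldr_cons, List.foldr_nil]; push_cast; ring
  · rw [sda_leg5]; simp only [LPi, pe, List.foldr_cons, List.foldr_nil]; push_cast; ring
  · rw [sda_leg6]; simp only [LPi, pe, List.foldr_cons, List.foldr_nil]; push_cast; ring
  · rw [sda_leg7]; simp only [LPi, pe, List.foldr_cons, List.foldr_nil]; push_cast; ring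
  · rw [sda_leg8]; simp only [LPi, pe, List.foldr_cons, List.foldr_nil]; push_cast; ring
  · rw [sda_leg9]; simp only [LPi, pe, List.foldr_cons, List.foldr_nil]; push_cast; ring
  · rw [sda_leg10]; simp only [LPi, pe, List.foldr_cons, List.foldr_nil]; push_cast; ring
  · rw [sda_leg11]; simp only [LPi, pe, List.foldr_cons, List.foldr_nil]; push_cast; ring
  · rw [sda_leg12]; simp only [LPi, pe, List.foldr_cons, List.foldr_nil]; push_cast; ring


/-- sum over ordered triples of distinct indices -/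
noncomputable def sdL3 (F : Fin 12 → Fin 12 → Fin 12 → ℝ) : ℝ :=
  ∑ i, ∑ j, ∑ k, if (i ≠ j ∧ i ≠ k ∧ j ≠ k) then F i j k else 0

/-- sum over ordered pairs of distinct indices -/
noncomputable def sdL2 (F : Fin 12 → Fin 12 → ℝ) : ℝ :=
  ∑ i, ∑ j, if i ≠ j then F i j else 0

theorem sdL3_congr {F G : Fin 12 → Fin 12 → Fin 12 → ℝ}
    (h : ∀ i j k, i ≠ j → i ≠ k → j ≠ k → F i j k = G i j k) : sdL3 F = sdL3 G := by
  unfold sdL3
  refine Finset.sum_congr rfl fun i _ => Finset.sum_congr rfl fun j _ =>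
    Finset.sum_congr rfl fun k _ => ?_
  by_cases hh : i ≠ j ∧ i ≠ k ∧ j ≠ k
  · rw [if_pos hh, if_pos hh, h i j k hh.1 hh.2.1 hh.2.2]
  · rw [if_neg hh, if_neg hh]

theorem sdL2_congr {F G : Fin 12 → Fin 12 → ℝ}
    (h : ∀ i j, i ≠ j → F i j = G i j) : sdL2 F = sdL2 G := by
  unfold sdL2
  refine Finset.sum_congr rfl fun i _ => Finset.sum_congr rfl fun j _ => ?_
  by_cases hh : i ≠ j
  · rw [if_pos hh, if_pos hh, h i j hh]
  · rw [if_neg hh, if_neg hh]

theorem sdL3_add (F G : Fin 12 → Fin 12 → Fin 12 → ℝ) :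
    sdL3 (fun i j k => F i j k + G i j k) = sdL3 F + sdL3 G := by
  unfold sdL3
  rw [← Finset.sum_add_distrib]
  refine Finset.sum_congr rfl fun i _ => ?_
  rw [← Finset.sum_add_distrib]
  refine Finset.sum_congr rfl fun j _ => ?_
  rw [← Finset.sum_add_distrib]
  refine Finset.sum_congr rfl fun k _ => ?_
  split_ifs <;> simp

theorem sdL2_add (F G : Fin 12 → Fin 12 → ℝ) :
    sdL2 (fun i j => F i j + G i j) = sdL2 F + sdL2 G := by
  unfold sdL2
  rw [← Finset.sum_add_distrib]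
  refine Finset.sum_congr rfl fun i _ => ?_
  rw [← Finset.sum_add_distrib]
  refine Finset.sum_congr rfl fun j _ => ?_
  split_ifs <;> simp

theorem sdL3_smul (a : ℝ) (F : Fin 12 → Fin 12 → Fin 12 → ℝ) :
    sdL3 (fun i j k => a * F i j k) = a * sdL3 F := by
  unfold sdL3
  rw [Finset.mul_sum]
  refine Finset.sum_congr rfl fun i _ => ?_
  rw [Finset.mul_sum]
  refine Finset.sum_congr rfl fun j _ => ?_
  rw [Finset.mul_sum]
  refine Finset.sum_congr rfl fun k _ => ?_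
  split_ifs <;> simp

theorem sdL2_smul (a : ℝ) (F : Fin 12 → Fin 12 → ℝ) :
    sdL2 (fun i j => a * F i j) = a * sdL2 F := by
  unfold sdL2
  rw [Finset.mul_sum]
  refine Finset.sum_congr rfl fun i _ => ?_
  rw [Finset.mul_sum]
  refine Finset.sum_congr rfl fun j _ => ?_
  split_ifs <;> simp

theorem sdL3_zero : sdL3 (fun _ _ _ => 0) = 0 := by
  unfold sdL3
  simp

theorem sdL2_zero : sdL2 (fun _ _ => 0) = 0 := by
  unfold sdL2
  simp

theorem sdL3_sub (F G : Fin 12 → Fin 12 → Fin 12 → ℝ) :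
    sdL3 (fun i j k => F i j k - G i j k) = sdL3 F - sdL3 G := by
  have h := sdL3_add F (fun i j k => (-1) * G i j k)
  rw [sdL3_smul] at h
  have h2 : sdL3 (fun i j k => F i j k - G i j k) = sdL3 (fun i j k => F i j k + (-1) * G i j k) :=
    sdL3_congr fun i j k _ _ _ => by ring
  rw [h2, h]
  ring

theorem sdL2_sub (F G : Fin 12 → Fin 12 → ℝ) :
    sdL2 (fun i j => F i j - G i j) = sdL2 F - sdL2 G := by
  have h := sdL2_add F (fun i j => (-1) * G i j)
  rw [sdL2_smul] at h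
  have h2 : sdL2 (fun i j => F i j - G i j) = sdL2 (fun i j => F i j + (-1) * G i j) :=
    sdL2_congr fun i j _ => by ring
  rw [h2, h]
  ring

theorem sdL3_le {F G : Fin 12 → Fin 12 → Fin 12 → ℝ}
    (h : ∀ i j k, i ≠ j → i ≠ k → j ≠ k → F i j k ≤ G i j k) : sdL3 F ≤ sdL3 G := by
  unfold sdL3
  refine Finset.sum_le_sum fun i _ => Finset.sum_le_sum fun j _ =>
    Finset.sum_le_sum fun k _ => ?_
  by_cases hh : i ≠ j ∧ i ≠ k ∧ j ≠ k
  · rw [if_pos hh, if_pos hh]
    exact h i j k hh.1 hh.2.1 hh.2.2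
  · rw [if_neg hh, if_neg hh]

theorem sdL2_le {F G : Fin 12 → Fin 12 → ℝ}
    (h : ∀ i j, i ≠ j → F i j ≤ G i j) : sdL2 F ≤ sdL2 G := by
  unfold sdL2
  refine Finset.sum_le_sum fun i _ => Finset.sum_le_sum fun j _ => ?_
  by_cases hh : i ≠ j
  · rw [if_pos hh, if_pos hh]
    exact h i j hh
  · rw [if_neg hh, if_neg hh]

theorem sdL2_swap (F : Fin 12 → Fin 12 → ℝ) : sdL2 (fun i j => F j i) = sdL2 F := by
  unfold sdL2
  rw [Finset.sum_comm]
  refine Finset.sum_congr rfl fun i _ => Finset.sum_congr rfl fun j _ => ?_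
  simp only [ne_comm]

/-- `(i, j, k) ↦ (j, k, i)` -/
theorem sdL3_cyc (F : Fin 12 → Fin 12 → Fin 12 → ℝ) :
    sdL3 (fun i j k => F j k i) = sdL3 F := by
  unfold sdL3
  rw [Finset.sum_comm]
  refine Finset.sum_congr rfl fun j _ => ?_
  rw [Finset.sum_comm]
  refine Finset.sum_congr rfl fun k _ => Finset.sum_congr rfl fun i _ => ?_
  refine if_congr ?_ rfl rfl
  constructor
  · rintro ⟨h1, h2, h3⟩
    exact ⟨h3, h1.symm, h2.symm⟩
  · rintro ⟨h1, h2, h3⟩
    exact ⟨h2.symm, h3.symm, h1⟩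

theorem sdL3_cyc2 (F : Fin 12 → Fin 12 → Fin 12 → ℝ) :
    sdL3 (fun i j k => F k i j) = sdL3 F :=
  (sdL3_cyc (fun i j k => F k i j)).symm

theorem sda_cnt3 : ∀ i j : Fin 12, (∑ k : Fin 12, if (i ≠ j ∧ i ≠ k ∧ j ≠ k) then 1 else 0) =
    if i ≠ j then 10 else 0 := by decide

theorem sda_cnt2 : ∀ i : Fin 12, (∑ j : Fin 12, if i ≠ j then 1 else 0) = 11 := by decide

theorem sda_cnt3R (i j : Fin 12) :
    (∑ k : Fin 12, if (i ≠ j ∧ i ≠ k ∧ j ≠ k) then (1 : ℝ) else 0) =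
    if i ≠ j then 10 else 0 := by
  have h := congrArg (fun n : ℕ => (n : ℝ)) (sda_cnt3 i j)
  push_cast at h
  exact h

theorem sda_cnt2R (i : Fin 12) : (∑ j : Fin 12, if i ≠ j then (1 : ℝ) else 0) = 11 := by
  have h := congrArg (fun n : ℕ => (n : ℝ)) (sda_cnt2 i)
  push_cast at h
  exact h

theorem sdL3_pair (b : Fin 12 → Fin 12 → ℝ) : sdL3 (fun i j _ => b i j) = 10 * sdL2 b := by
  unfold sdL3 sdL2
  rw [Finset.mul_sum]
  refine Finset.sum_congr rfl fun i _ => ?_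
  rw [Finset.mul_sum]
  refine Finset.sum_congr rfl fun j _ => ?_
  have h := sda_cnt3R i j
  calc (∑ k : Fin 12, if (i ≠ j ∧ i ≠ k ∧ j ≠ k) then b i j else 0)
      = ∑ k : Fin 12, b i j * (if (i ≠ j ∧ i ≠ k ∧ j ≠ k) then (1 : ℝ) else 0) := by
        refine Finset.sum_congr rfl fun k _ => ?_
        split_ifs <;> simp
    _ = b i j * (if i ≠ j then 10 else 0) := by rw [← Finset.mul_sum, h]
    _ = _ := by split_ifs <;> ring

theorem sdL2_single (a : Fin 12 → ℝ) : sdL2 (fun i _ => a i) = 11 * ∑ i, a i := by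
  unfold sdL2
  rw [Finset.mul_sum]
  refine Finset.sum_congr rfl fun i _ => ?_
  calc (∑ j : Fin 12, if i ≠ j then a i else 0)
      = ∑ j : Fin 12, a i * (if i ≠ j then (1 : ℝ) else 0) := by
        refine Finset.sum_congr rfl fun k _ => ?_
        split_ifs <;> simp
    _ = a i * 11 := by rw [← Finset.mul_sum, sda_cnt2R]
    _ = _ := by ring

theorem sdL2_single' (a : Fin 12 → ℝ) : sdL2 (fun _ j => a j) = 11 * ∑ i, a i := by
  rw [← sdL2_single a]
  exact sdL2_swap (fun i _ => a i)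

theorem sdL2_const (c : ℝ) : sdL2 (fun _ _ => c) = 132 * c := by
  rw [sdL2_single (fun _ => c)]
  simp
  ring

theorem sdL3_const (c : ℝ) : sdL3 (fun _ _ _ => c) = 1320 * c := by
  rw [sdL3_pair (fun _ _ => c), sdL2_const]
  ring

theorem sda_pairSum (F : Fin 12 → Fin 12 → ℝ) (hF : ∀ i j, F i j = F j i) :
    sdL2 F = 2 * pairSum F := by
  have h1 : pairSum F = ∑ i, ∑ j, if j < i then F i j else 0 := by
    unfold pairSum
    rw [Finset.sum_comm]
    refine Finset.sum_congr rfl fun i _ => Finset.sum_congr rfl fun j _ => ?_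
    rw [hF]
  have h2 : sdL2 F = pairSum F + ∑ i, ∑ j, if j < i then F i j else 0 := by
    unfold sdL2 pairSum
    rw [← Finset.sum_add_distrib]
    refine Finset.sum_congr rfl fun i _ => ?_
    rw [← Finset.sum_add_distrib]
    refine Finset.sum_congr rfl fun j _ => ?_
    rcases lt_trichotomy i j with h | h | h
    · rw [if_pos h.ne, if_pos h, if_neg h.not_gt, add_zero]
    · rw [if_neg (not_not.mpr h), if_neg (by rw [h]; exact lt_irrefl _),
        if_neg (by rw [h]; exact lt_irrefl _), add_zero]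
    · rw [if_pos h.ne', if_neg h.not_gt, if_pos h, zero_add]
  rw [h2, ← h1]
  ring


theorem sda_Qk_symm : ∀ (k : ℕ) (u v t : ℝ), Qk k u v t = Qk k v u t
  | 0, _, _, _ => rfl
  | 1, u, v, t => by
    rw [Qk, Qk]
    ring
  | (k + 2), u, v, t => by
    rw [Qk, Qk, sda_Qk_symm (k + 1) u v t, sda_Qk_symm k u v t]
    ring

theorem sda_sum13 (A : Fin (12 + 1) → Fin (12 + 1) → ℝ) :
    ∑ a, ∑ b, A a b = A 0 0 + ∑ j : Fin 12, A 0 j.succ + ∑ j : Fin 12, A j.succ 0 +
      ∑ j : Fin 12, ∑ k : Fin 12, A j.succ k.succ := by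
  rw [Fin.sum_univ_succ, Fin.sum_univ_succ (fun b => A 0 b), add_assoc (A 0 0 + _),
    ← Finset.sum_add_distrib]
  congr 1

section
variable (u : Fin 12 → E3) (z : E3)

/-- inner products of the ordinary points -/
noncomputable def sdt (i j : Fin 12) : ℝ := inner ℝ (u i) (u j)

/-- inner products with the special point -/
noncomputable def sds (i : Fin 12) : ℝ := inner ℝ (u i) z

theorem sdt_symm (i j : Fin 12) : sdt u i j = sdt u j i := real_inner_comm _ _

theorem sdt_self (hu : ∀ i, ‖u i‖ = 1) (i : Fin 12) : sdt u i i = 1 := by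
  unfold sdt
  rw [real_inner_self_eq_norm_sq, hu, one_pow]

theorem sda_cons (hu : ∀ i, ‖u i‖ = 1) (hz : ‖z‖ = 1) :
    ∀ i : Fin (12 + 1), ‖(Fin.cons z u : Fin (12 + 1) → E3) i‖ = 1 := by
  intro i
  refine Fin.cases ?_ (fun j => ?_) i
  · rw [Fin.cons_zero]
    exact hz
  · rw [Fin.cons_succ]
    exact hu j

theorem sda_pole (k : ℕ) (f g : ℝ → ℝ) (hu : ∀ i, ‖u i‖ = 1) (hz : ‖z‖ = 1) (i : Fin 12) :
    0 ≤ (1 - sds u z i ^ 2) ^ k * g (sds u z i) ^ 2
      + 2 * (∑ j, if i ≠ j then Qk k (sdt u i j) (sds u z i) (sds u z j) *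
          (f (sdt u i j) * g (sds u z i)) else 0)
      + ((∑ j, if i ≠ j then (1 - sdt u i j ^ 2) ^ k * f (sdt u i j) ^ 2 else 0)
      + ∑ j, ∑ l, if (i ≠ j ∧ i ≠ l ∧ j ≠ l) then
          Qk k (sdt u i j) (sdt u i l) (sdt u j l) * (f (sdt u i j) * f (sdt u i l)) else 0) := by
  have h := Qk_psd k (u i) (hu i) (Fin.cons z u : Fin (12 + 1) → E3) (sda_cons u z hu hz)
    (Fin.cons (g (sds u z i)) (fun j => if i ≠ j then f (sdt u i j) else 0) : Fin (12 + 1) → ℝ)
  rw [sda_sum13] at h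
  simp only [Fin.cons_zero, Fin.cons_succ] at h
  refine h.trans (le_of_eq ?_)
  have hzz : (inner ℝ z z : ℝ) = 1 := by
    rw [real_inner_self_eq_norm_sq, hz, one_pow]
  have e1 : g (sds u z i) * g (sds u z i) * Qk k (inner ℝ (u i) z : ℝ) (inner ℝ (u i) z) (inner ℝ z z) =
      (1 - sds u z i ^ 2) ^ k * g (sds u z i) ^ 2 := by
    rw [hzz, Qk_diag]
    change g (sds u z i) * g (sds u z i) * (1 - sds u z i ^ 2) ^ k = _
    ring
  have e2 : (∑ j : Fin 12, g (sds u z i) * (if i ≠ j then f (sdt u i j) else 0) *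
      Qk k (inner ℝ (u i) z : ℝ) (inner ℝ (u i) (u j)) (inner ℝ z (u j))) =
      ∑ j, if i ≠ j then Qk k (sdt u i j) (sds u z i) (sds u z j) *
          (f (sdt u i j) * g (sds u z i)) else 0 := by
    refine Finset.sum_congr rfl fun j _ => ?_
    rw [real_inner_comm (u j) z]
    change g (sds u z i) * (if i ≠ j then f (sdt u i j) else 0) *
      Qk k (sds u z i) (sdt u i j) (sds u z j) = _
    rw [sda_Qk_symm k (sds u z i) (sdt u i j) (sds u z j)]
    split_ifs <;> ring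
  have e3 : (∑ j : Fin 12, (if i ≠ j then f (sdt u i j) else 0) * g (sds u z i) *
      Qk k (inner ℝ (u i) (u j) : ℝ) (inner ℝ (u i) z) (inner ℝ (u j) z)) =
      ∑ j, if i ≠ j then Qk k (sdt u i j) (sds u z i) (sds u z j) *
          (f (sdt u i j) * g (sds u z i)) else 0 := by
    refine Finset.sum_congr rfl fun j _ => ?_
    change (if i ≠ j then f (sdt u i j) else 0) * g (sds u z i) *
      Qk k (sdt u i j) (sds u z i) (sds u z j) = _
    split_ifs <;> ring
  have e4 : (∑ j : Fin 12, ∑ l : Fin 12, (if i ≠ j then f (sdt u i j) else 0) *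
      (if i ≠ l then f (sdt u i l) else 0) *
      Qk k (inner ℝ (u i) (u j) : ℝ) (inner ℝ (u i) (u l)) (inner ℝ (u j) (u l))) =
      (∑ j, if i ≠ j then (1 - sdt u i j ^ 2) ^ k * f (sdt u i j) ^ 2 else 0)
      + ∑ j, ∑ l, if (i ≠ j ∧ i ≠ l ∧ j ≠ l) then
          Qk k (sdt u i j) (sdt u i l) (sdt u j l) * (f (sdt u i j) * f (sdt u i l)) else 0 := by
    rw [← Finset.sum_add_distrib]
    refine Finset.sum_congr rfl fun j _ => ?_
    have e5 : (if i ≠ j then (1 - sdt u i j ^ 2) ^ k * f (sdt u i j) ^ 2 else 0) =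
        ∑ l : Fin 12, if j = l then (if i ≠ j then (1 - sdt u i j ^ 2) ^ k * f (sdt u i j) ^ 2 else 0)
          else 0 := by
      rw [Finset.sum_ite_eq]
      simp
    rw [e5, ← Finset.sum_add_distrib]
    refine Finset.sum_congr rfl fun l _ => ?_
    change (if i ≠ j then f (sdt u i j) else 0) * (if i ≠ l then f (sdt u i l) else 0) *
      Qk k (sdt u i j) (sdt u i l) (sdt u j l) = _
    by_cases hjl : j = l
    · subst hjl
      have hn : ¬ (i ≠ j ∧ i ≠ j ∧ j ≠ j) := fun h => h.2.2 rfl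
      rw [sdt_self u hu j, Qk_diag, if_pos rfl, if_neg hn]
      split_ifs <;> ring
    · rw [if_neg hjl]
      by_cases hij : i ≠ j
      · by_cases hil : i ≠ l
        · rw [if_pos hij, if_pos hil, if_pos ⟨hij, hil, hjl⟩]
          ring
        · have hn : ¬ (i ≠ j ∧ i ≠ l ∧ j ≠ l) := fun h => hil h.2.1
          rw [if_neg hil, if_neg hn]
          ring
      · have hn : ¬ (i ≠ j ∧ i ≠ l ∧ j ≠ l) := fun h => hij h.1
        rw [if_neg hij, if_neg hn]
        ring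
  rw [e1, e2, e3, e4]
  ring

theorem sda_fo (k : ℕ) (f g : ℝ → ℝ) (hu : ∀ i, ‖u i‖ = 1) (hz : ‖z‖ = 1) :
    0 ≤ (∑ i, (1 - sds u z i ^ 2) ^ k * g (sds u z i) ^ 2)
      + 2 * sdL2 (fun i j => Qk k (sdt u i j) (sds u z i) (sds u z j) *
          (f (sdt u i j) * g (sds u z i)))
      + (sdL2 (fun i j => (1 - sdt u i j ^ 2) ^ k * f (sdt u i j) ^ 2)
      + sdL3 (fun i j l => Qk k (sdt u i j) (sdt u i l) (sdt u j l) *
          (f (sdt u i j) * f (sdt u i l)))) := by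
  have h := Finset.sum_nonneg (fun i (_ : i ∈ (Finset.univ : Finset (Fin 12))) =>
    sda_pole u z k f g hu hz i)
  rw [Finset.sum_add_distrib, Finset.sum_add_distrib, Finset.sum_add_distrib,
    ← Finset.mul_sum] at h
  exact h

theorem sda_fz (k : ℕ) (g : ℝ → ℝ) (hu : ∀ i, ‖u i‖ = 1) (hz : ‖z‖ = 1) :
    0 ≤ sdL2 (fun i j => Qk k (sds u z i) (sds u z j) (sdt u i j) *
          (g (sds u z i) * g (sds u z j)))
      + ∑ i, (1 - sds u z i ^ 2) ^ k * g (sds u z i) ^ 2 := by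
  have h := Qk_psd k z hz u hu (fun i => g (sds u z i))
  refine h.trans (le_of_eq ?_)
  unfold sdL2
  rw [← Finset.sum_add_distrib]
  refine Finset.sum_congr rfl fun i _ => ?_
  have e5 : (1 - sds u z i ^ 2) ^ k * g (sds u z i) ^ 2 =
      ∑ l : Fin 12, if i = l then (1 - sds u z i ^ 2) ^ k * g (sds u z i) ^ 2 else 0 := by
    rw [Finset.sum_ite_eq]
    simp
  rw [e5, ← Finset.sum_add_distrib]
  refine Finset.sum_congr rfl fun j _ => ?_
  rw [real_inner_comm (u i) z, real_inner_comm (u j) z]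
  change g (sds u z i) * g (sds u z j) * Qk k (sds u z i) (sds u z j) (sdt u i j) = _
  by_cases hij : i = j
  · subst hij
    rw [sdt_self u hu i, Qk_diag, if_pos rfl, if_neg (fun h => h rfl)]
    ring
  · rw [if_neg hij, if_pos hij]
    ring

theorem sda_a (k : ℕ) (hk : k ≤ 12) (a b : ℝ) (hu : ∀ i, ‖u i‖ = 1) (hz : ‖z‖ = 1) :
    0 ≤ a ^ 2 * sdL2 (fun i j => leg k (sdt u i j)) + 12 * a ^ 2
      + 2 * a * b * (∑ i, leg k (sds u z i)) + b ^ 2 := by
  have h := leg_psd k hk (Fin.cons z u : Fin (12 + 1) → E3) (sda_cons u z hu hz)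
    (Fin.cons b (fun _ => a) : Fin (12 + 1) → ℝ)
  rw [sda_sum13] at h
  simp only [Fin.cons_zero, Fin.cons_succ] at h
  refine h.trans (le_of_eq ?_)
  have hzz : (inner ℝ z z : ℝ) = 1 := by
    rw [real_inner_self_eq_norm_sq, hz, one_pow]
  have e2 : (∑ j : Fin 12, b * a * leg k (inner ℝ z (u j) : ℝ)) = a * b * ∑ i, leg k (sds u z i) := by
    rw [Finset.mul_sum]
    refine Finset.sum_congr rfl fun j _ => ?_
    rw [real_inner_comm (u j) z]
    change b * a * leg k (sds u z j) = _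
    ring
  have e3 : (∑ j : Fin 12, a * b * leg k (inner ℝ (u j) z : ℝ)) = a * b * ∑ i, leg k (sds u z i) := by
    rw [Finset.mul_sum]
    rfl
  have e4 : (∑ j : Fin 12, ∑ l : Fin 12, a * a * leg k (inner ℝ (u j) (u l) : ℝ)) =
      a ^ 2 * sdL2 (fun i j => leg k (sdt u i j)) + 12 * a ^ 2 := by
    have e6 : (12 : ℝ) * a ^ 2 = ∑ _i : Fin 12, a ^ 2 := by
      simp
    unfold sdL2
    rw [e6, Finset.mul_sum, ← Finset.sum_add_distrib]
    refine Finset.sum_congr rfl fun i _ => ?_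
    have e5 : a ^ 2 = ∑ l : Fin 12, if i = l then a ^ 2 else 0 := by
      rw [Finset.sum_ite_eq]
      simp
    have e7 : (∑ l : Fin 12, a * a * leg k (inner ℝ (u i) (u l) : ℝ)) =
        ∑ l : Fin 12, (a ^ 2 * (if i ≠ l then leg k (sdt u i l) else 0) +
          (if i = l then a ^ 2 else 0)) := by
      refine Finset.sum_congr rfl fun j _ => ?_
      change a * a * leg k (sdt u i j) = _
      by_cases hij : i = j
      · subst hij
        rw [sdt_self u hu i, leg_one, if_pos rfl, if_neg (fun h => h rfl)]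
        ring
      · rw [if_neg hij, if_pos hij]
        ring
    rw [e7, Finset.sum_add_distrib, ← e5, Finset.mul_sum]
  rw [hzz, leg_one, e2, e3, e4]
  ring

theorem sda_fo_col (hu : ∀ i, ‖u i‖ = 1) (hz : ‖z‖ = 1) (k : ℕ)
    (cols : List (List ℤ × List ℤ)) :
    0 ≤ 11 / 3 * sdL3 (fun i j l =>
        Qk k (sdt u i j) (sdt u i l) (sdt u j l) *
          (cols.map fun c => pe c.1 (sdt u i j) * pe c.1 (sdt u i l)).sum
        + Qk k (sdt u i l) (sdt u j l) (sdt u i j) *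
          (cols.map fun c => pe c.1 (sdt u i l) * pe c.1 (sdt u j l)).sum
        + Qk k (sdt u j l) (sdt u i j) (sdt u i l) *
          (cols.map fun c => pe c.1 (sdt u j l) * pe c.1 (sdt u i j)).sum) +
      1 / 2 * sdL2 (fun i j =>
        22 * (1 - sdt u i j ^ 2) ^ k * (cols.map fun c => pe c.1 (sdt u i j) ^ 2).sum
        + 22 * Qk k (sdt u i j) (sds u z i) (sds u z j) *
          (cols.map fun c => pe c.1 (sdt u i j) * pe c.2 (sds u z i)).sum
        + 22 * Qk k (sdt u i j) (sds u z j) (sds u z i) *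
          (cols.map fun c => pe c.1 (sdt u i j) * pe c.2 (sds u z j)).sum
        + (1 - sds u z i ^ 2) ^ k * (cols.map fun c => pe c.2 (sds u z i) ^ 2).sum
        + (1 - sds u z j ^ 2) ^ k * (cols.map fun c => pe c.2 (sds u z j) ^ 2).sum) := by
  induction cols with
  | nil =>
    simp only [List.map_nil, List.sum_nil, mul_zero, add_zero, sdL3_zero, sdL2_zero]
    exact le_refl _
  | cons c cs ih =>
    have h := sda_fo u z k (fun t => pe c.1 t) (fun t => pe c.2 t) hu hz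
    set G : Fin 12 → Fin 12 → Fin 12 → ℝ := fun i j l =>
      Qk k (sdt u i j) (sdt u i l) (sdt u j l) * (pe c.1 (sdt u i j) * pe c.1 (sdt u i l)) with hG
    have g1 : sdL3 (fun i j l => G i j l + G l i j + G j l i) = 3 * sdL3 G := by
      have g2 := sdL3_add (fun i j l => G i j l + G l i j) (fun i j l => G j l i)
      have g3 := sdL3_add (fun i j l => G i j l) (fun i j l => G l i j)
      rw [g2, g3, sdL3_cyc G, sdL3_cyc2 G]
      ring
    have e1 : sdL3 (fun i j l =>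
        Qk k (sdt u i j) (sdt u i l) (sdt u j l) *
          ((c :: cs).map fun c => pe c.1 (sdt u i j) * pe c.1 (sdt u i l)).sum
        + Qk k (sdt u i l) (sdt u j l) (sdt u i j) *
          ((c :: cs).map fun c => pe c.1 (sdt u i l) * pe c.1 (sdt u j l)).sum
        + Qk k (sdt u j l) (sdt u i j) (sdt u i l) *
          ((c :: cs).map fun c => pe c.1 (sdt u j l) * pe c.1 (sdt u i j)).sum) =
        3 * sdL3 G + sdL3 (fun i j l =>
        Qk k (sdt u i j) (sdt u i l) (sdt u j l) *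
          (cs.map fun c => pe c.1 (sdt u i j) * pe c.1 (sdt u i l)).sum
        + Qk k (sdt u i l) (sdt u j l) (sdt u i j) *
          (cs.map fun c => pe c.1 (sdt u i l) * pe c.1 (sdt u j l)).sum
        + Qk k (sdt u j l) (sdt u i j) (sdt u i l) *
          (cs.map fun c => pe c.1 (sdt u j l) * pe c.1 (sdt u i j)).sum) := by
      rw [← g1, ← sdL3_add]
      refine sdL3_congr fun i j l _ _ _ => ?_
      simp only [List.map_cons, List.sum_cons, hG]
      rw [sdt_symm u l i, sdt_symm u l j, sdt_symm u j i]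
      ring
    set B : Fin 12 → Fin 12 → ℝ := fun i j =>
      Qk k (sdt u i j) (sds u z i) (sds u z j) * (pe c.1 (sdt u i j) * pe c.2 (sds u z i)) with hB
    set A : Fin 12 → Fin 12 → ℝ := fun i j =>
      (1 - sdt u i j ^ 2) ^ k * pe c.1 (sdt u i j) ^ 2 with hA
    set S : Fin 12 → ℝ := fun i => (1 - sds u z i ^ 2) ^ k * pe c.2 (sds u z i) ^ 2 with hS
    have g4 : sdL2 (fun i j => 22 * A i j + 22 * B i j + 22 * B j i + S i + S j) =
        22 * sdL2 A + 44 * sdL2 B + 22 * ∑ i, S i := by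
      have a1 := sdL2_add (fun i j => 22 * A i j + 22 * B i j + 22 * B j i + S i)
        (fun _ j => S j)
      have a2 := sdL2_add (fun i j => 22 * A i j + 22 * B i j + 22 * B j i) (fun i _ => S i)
      have a3 := sdL2_add (fun i j => 22 * A i j + 22 * B i j) (fun i j => 22 * B j i)
      have a4 := sdL2_add (fun i j => 22 * A i j) (fun i j => 22 * B i j)
      rw [a1, a2, a3, a4, sdL2_smul, sdL2_smul, sdL2_smul, sdL2_swap B, sdL2_single S,
        sdL2_single' S]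
      ring
    have e2 : sdL2 (fun i j =>
        22 * (1 - sdt u i j ^ 2) ^ k * ((c :: cs).map fun c => pe c.1 (sdt u i j) ^ 2).sum
        + 22 * Qk k (sdt u i j) (sds u z i) (sds u z j) *
          ((c :: cs).map fun c => pe c.1 (sdt u i j) * pe c.2 (sds u z i)).sum
        + 22 * Qk k (sdt u i j) (sds u z j) (sds u z i) *
          ((c :: cs).map fun c => pe c.1 (sdt u i j) * pe c.2 (sds u z j)).sum
        + (1 - sds u z i ^ 2) ^ k * ((c :: cs).map fun c => pe c.2 (sds u z i) ^ 2).sum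
        + (1 - sds u z j ^ 2) ^ k * ((c :: cs).map fun c => pe c.2 (sds u z j) ^ 2).sum) =
        (22 * sdL2 A + 44 * sdL2 B + 22 * ∑ i, S i) + sdL2 (fun i j =>
        22 * (1 - sdt u i j ^ 2) ^ k * (cs.map fun c => pe c.1 (sdt u i j) ^ 2).sum
        + 22 * Qk k (sdt u i j) (sds u z i) (sds u z j) *
          (cs.map fun c => pe c.1 (sdt u i j) * pe c.2 (sds u z i)).sum
        + 22 * Qk k (sdt u i j) (sds u z j) (sds u z i) *
          (cs.map fun c => pe c.1 (sdt u i j) * pe c.2 (sds u z j)).sum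
        + (1 - sds u z i ^ 2) ^ k * (cs.map fun c => pe c.2 (sds u z i) ^ 2).sum
        + (1 - sds u z j ^ 2) ^ k * (cs.map fun c => pe c.2 (sds u z j) ^ 2).sum) := by
      rw [← g4, ← sdL2_add]
      refine sdL2_congr fun i j _ => ?_
      simp only [List.map_cons, List.sum_cons, hA, hB, hS]
      rw [sdt_symm u j i]
      ring
    rw [e1, e2]
    linarith [ih, h]

theorem sda_fz_col (hu : ∀ i, ‖u i‖ = 1) (hz : ‖z‖ = 1) (k : ℕ) (cols : List (List ℤ)) :
    0 ≤ sdL2 (fun i j =>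
        22 * Qk k (sds u z i) (sds u z j) (sdt u i j) *
          (cols.map fun c => pe c (sds u z i) * pe c (sds u z j)).sum
        + (1 - sds u z i ^ 2) ^ k * (cols.map fun c => pe c (sds u z i) ^ 2).sum
        + (1 - sds u z j ^ 2) ^ k * (cols.map fun c => pe c (sds u z j) ^ 2).sum) := by
  induction cols with
  | nil =>
    simp only [List.map_nil, List.sum_nil, mul_zero, add_zero, sdL2_zero]
    exact le_refl _
  | cons c cs ih =>
    have h := sda_fz u z k (fun t => pe c t) hu hz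
    set B : Fin 12 → Fin 12 → ℝ := fun i j =>
      Qk k (sds u z i) (sds u z j) (sdt u i j) * (pe c (sds u z i) * pe c (sds u z j)) with hB
    set S : Fin 12 → ℝ := fun i => (1 - sds u z i ^ 2) ^ k * pe c (sds u z i) ^ 2 with hS
    have g4 : sdL2 (fun i j => 22 * B i j + S i + S j) = 22 * sdL2 B + 22 * ∑ i, S i := by
      have a1 := sdL2_add (fun i j => 22 * B i j + S i) (fun _ j => S j)
      have a2 := sdL2_add (fun i j => 22 * B i j) (fun i _ => S i)
      rw [a1, a2, sdL2_smul, sdL2_single S, sdL2_single' S]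
      ring
    have e2 : sdL2 (fun i j =>
        22 * Qk k (sds u z i) (sds u z j) (sdt u i j) *
          ((c :: cs).map fun c => pe c (sds u z i) * pe c (sds u z j)).sum
        + (1 - sds u z i ^ 2) ^ k * ((c :: cs).map fun c => pe c (sds u z i) ^ 2).sum
        + (1 - sds u z j ^ 2) ^ k * ((c :: cs).map fun c => pe c (sds u z j) ^ 2).sum) =
        (22 * sdL2 B + 22 * ∑ i, S i) + sdL2 (fun i j =>
        22 * Qk k (sds u z i) (sds u z j) (sdt u i j) *
          (cs.map fun c => pe c (sds u z i) * pe c (sds u z j)).sum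
        + (1 - sds u z i ^ 2) ^ k * (cs.map fun c => pe c (sds u z i) ^ 2).sum
        + (1 - sds u z j ^ 2) ^ k * (cs.map fun c => pe c (sds u z j) ^ 2).sum) := by
      rw [← g4, ← sdL2_add]
      refine sdL2_congr fun i j _ => ?_
      simp only [List.map_cons, List.sum_cons, hB, hS]
      ring
    rw [e2]
    linarith [ih, h]

theorem sda_a_col (hu : ∀ i, ‖u i‖ = 1) (hz : ‖z‖ = 1) (k : ℕ) (hk : k ≤ 12)
    (cols : List (ℤ × ℤ)) :
    0 ≤ 1 / 2 * sdL2 (fun i j =>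
        22 * (((cols.map fun c => c.1 ^ 2).sum : ℤ) : ℝ) * pe (LPi k) (sdt u i j)
        + 2 * (((cols.map fun c => c.1 * c.2).sum : ℤ) : ℝ) *
          (pe (LPi k) (sds u z i) + pe (LPi k) (sds u z j)))
      + 11264 * (((cols.map fun c => 12 * c.1 ^ 2 + c.2 ^ 2).sum : ℤ) : ℝ) := by
  induction cols with
  | nil =>
    simp only [List.map_nil, List.sum_nil, Int.cast_zero, mul_zero, zero_mul, add_zero, sdL2_zero]
    exact le_refl _
  | cons c cs ih =>
    have h := sda_a u z k hk (c.1 : ℝ) (c.2 : ℝ) hu hz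
    set B : Fin 12 → Fin 12 → ℝ := fun i j => leg k (sdt u i j) with hB
    set S : Fin 12 → ℝ := fun i => leg k (sds u z i) with hS
    have g4 : sdL2 (fun i j => 22528 * (c.1 : ℝ) ^ 2 * B i j + (2048 * (c.1 : ℝ) * c.2 * S i +
        2048 * (c.1 : ℝ) * c.2 * S j)) =
        22528 * (c.1 : ℝ) ^ 2 * sdL2 B + 45056 * (c.1 : ℝ) * c.2 * ∑ i, S i := by
      have a1 := sdL2_add (fun i j => 22528 * (c.1 : ℝ) ^ 2 * B i j)
        (fun i j => 2048 * (c.1 : ℝ) * c.2 * S i + 2048 * (c.1 : ℝ) * c.2 * S j)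
      have a2 := sdL2_add (fun i _ => 2048 * (c.1 : ℝ) * c.2 * S i)
        (fun _ j => 2048 * (c.1 : ℝ) * c.2 * S j)
      have a3 := sdL2_single (fun i => 2048 * (c.1 : ℝ) * c.2 * S i)
      have a4 := sdL2_single' (fun i => 2048 * (c.1 : ℝ) * c.2 * S i)
      rw [← Finset.mul_sum] at a3 a4
      rw [a1, a2, a3, a4, sdL2_smul]
      ring
    have e2 : sdL2 (fun i j =>
        22 * ((((c :: cs).map fun c => c.1 ^ 2).sum : ℤ) : ℝ) * pe (LPi k) (sdt u i j)
        + 2 * ((((c :: cs).map fun c => c.1 * c.2).sum : ℤ) : ℝ) *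
          (pe (LPi k) (sds u z i) + pe (LPi k) (sds u z j))) =
        (22528 * (c.1 : ℝ) ^ 2 * sdL2 B + 45056 * (c.1 : ℝ) * c.2 * ∑ i, S i) + sdL2 (fun i j =>
        22 * (((cs.map fun c => c.1 ^ 2).sum : ℤ) : ℝ) * pe (LPi k) (sdt u i j)
        + 2 * (((cs.map fun c => c.1 * c.2).sum : ℤ) : ℝ) *
          (pe (LPi k) (sds u z i) + pe (LPi k) (sds u z j))) := by
      rw [← g4, ← sdL2_add]
      refine sdL2_congr fun i j _ => ?_
      simp only [List.map_cons, List.sum_cons, hB, hS]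
      rw [pe_LPi k hk, pe_LPi k hk, pe_LPi k hk]
      push_cast
      ring
    rw [e2]
    simp only [List.map_cons, List.sum_cons]
    push_cast
    push_cast at ih
    linarith [ih, h]

theorem sda_fo_all (hu : ∀ i, ‖u i‖ = 1) (hz : ‖z‖ = 1)
    (l : List (ℕ × List (List ℤ × List ℤ))) :
    0 ≤ 11 / 3 * sdL3 (fun i j m => (l.map fun p =>
        Qk p.1 (sdt u i j) (sdt u i m) (sdt u j m) *
          (p.2.map fun c => pe c.1 (sdt u i j) * pe c.1 (sdt u i m)).sum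
        + Qk p.1 (sdt u i m) (sdt u j m) (sdt u i j) *
          (p.2.map fun c => pe c.1 (sdt u i m) * pe c.1 (sdt u j m)).sum
        + Qk p.1 (sdt u j m) (sdt u i j) (sdt u i m) *
          (p.2.map fun c => pe c.1 (sdt u j m) * pe c.1 (sdt u i j)).sum).sum) +
      1 / 2 * sdL2 (fun i j => (l.map fun p =>
        22 * (1 - sdt u i j ^ 2) ^ p.1 * (p.2.map fun c => pe c.1 (sdt u i j) ^ 2).sum
        + 22 * Qk p.1 (sdt u i j) (sds u z i) (sds u z j) *
          (p.2.map fun c => pe c.1 (sdt u i j) * pe c.2 (sds u z i)).sum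
        + 22 * Qk p.1 (sdt u i j) (sds u z j) (sds u z i) *
          (p.2.map fun c => pe c.1 (sdt u i j) * pe c.2 (sds u z j)).sum
        + (1 - sds u z i ^ 2) ^ p.1 * (p.2.map fun c => pe c.2 (sds u z i) ^ 2).sum
        + (1 - sds u z j ^ 2) ^ p.1 * (p.2.map fun c => pe c.2 (sds u z j) ^ 2).sum).sum) := by
  induction l with
  | nil =>
    simp only [List.map_nil, List.sum_nil, mul_zero, add_zero, sdL3_zero, sdL2_zero]
    exact le_refl _
  | cons p l ih =>
    have h := sda_fo_col u z hu hz p.1 p.2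
    simp only [List.map_cons, List.sum_cons]
    rw [sdL3_add, sdL2_add]
    linarith [ih, h]

theorem sda_fz_all (hu : ∀ i, ‖u i‖ = 1) (hz : ‖z‖ = 1) (l : List (ℕ × List (List ℤ))) :
    0 ≤ sdL2 (fun i j => (l.map fun p =>
        22 * Qk p.1 (sds u z i) (sds u z j) (sdt u i j) *
          (p.2.map fun c => pe c (sds u z i) * pe c (sds u z j)).sum
        + (1 - sds u z i ^ 2) ^ p.1 * (p.2.map fun c => pe c (sds u z i) ^ 2).sum
        + (1 - sds u z j ^ 2) ^ p.1 * (p.2.map fun c => pe c (sds u z j) ^ 2).sum).sum) := by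
  induction l with
  | nil =>
    simp only [List.map_nil, List.sum_nil, sdL2_zero]
    exact le_refl _
  | cons p l ih =>
    have h := sda_fz_col u z hu hz p.1 p.2
    simp only [List.map_cons, List.sum_cons]
    rw [sdL2_add]
    linarith [ih, h]

theorem sda_a_all (hu : ∀ i, ‖u i‖ = 1) (hz : ‖z‖ = 1) (l : List (ℕ × List (ℤ × ℤ)))
    (hl : ∀ p ∈ l, 1 ≤ p.1 ∧ p.1 ≤ 12) :
    0 ≤ 1 / 2 * sdL2 (fun i j => (l.map fun p =>
        22 * (((p.2.map fun c => c.1 ^ 2).sum : ℤ) : ℝ) * pe (LPi p.1) (sdt u i j)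
        + 2 * (((p.2.map fun c => c.1 * c.2).sum : ℤ) : ℝ) *
          (pe (LPi p.1) (sds u z i) + pe (LPi p.1) (sds u z j))).sum)
      + 11264 * (((l.map fun p => (p.2.map fun c => 12 * c.1 ^ 2 + c.2 ^ 2).sum).sum : ℤ) : ℝ) := by
  induction l with
  | nil =>
    simp only [List.map_nil, List.sum_nil, Int.cast_zero, mul_zero, add_zero, sdL2_zero]
    exact le_refl _
  | cons p l ih =>
    have h := sda_a_col u z hu hz p.1 (hl p List.mem_cons_self).2 p.2
    have ih' := ih (fun q hq => hl q (List.mem_cons_of_mem _ hq))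
    simp only [List.map_cons, List.sum_cons]
    rw [sdL2_add, Int.cast_add]
    linarith [ih', h]

theorem sda_gram (a b c : E3) (ha : ‖a‖ = 1) (hb : ‖b‖ = 1) (hc : ‖c‖ = 1) :
    0 ≤ gramR (inner ℝ a b : ℝ) (inner ℝ a c) (inner ℝ b c) := by
  have haa : (inner ℝ a a : ℝ) = 1 := by rw [real_inner_self_eq_norm_sq, ha, one_pow]
  have hbb : (inner ℝ b b : ℝ) = 1 := by rw [real_inner_self_eq_norm_sq, hb, one_pow]
  have hcc : (inner ℝ c c : ℝ) = 1 := by rw [real_inner_self_eq_norm_sq, hc, one_pow]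
  set x : ℝ := inner ℝ a b with hx
  set y : ℝ := inner ℝ a c with hy
  set w : ℝ := inner ℝ b c with hw
  have hba : (inner ℝ b a : ℝ) = x := real_inner_comm _ _
  have hca : (inner ℝ c a : ℝ) = y := real_inner_comm _ _
  have h := real_inner_mul_inner_self_le (b - x • a) (c - y • a)
  have e1 : (inner ℝ (b - x • a) (c - y • a) : ℝ) = w - x * y := by
    simp only [inner_sub_left, inner_sub_right, real_inner_smul_left, real_inner_smul_right, haa,
      hba, ← hx, ← hy, ← hw]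
    ring
  have e2 : (inner ℝ (b - x • a) (b - x • a) : ℝ) = 1 - x ^ 2 := by
    simp only [inner_sub_left, inner_sub_right, real_inner_smul_left, real_inner_smul_right, haa,
      hba, hbb, ← hx]
    ring
  have e3 : (inner ℝ (c - y • a) (c - y • a) : ℝ) = 1 - y ^ 2 := by
    simp only [inner_sub_left, inner_sub_right, real_inner_smul_left, real_inner_smul_right, haa,
      hca, hcc, ← hy]
    ring
  rw [e1, e2, e3] at h
  unfold gramR
  nlinarith [h]

theorem sda_gram' (a b c : E3) (ha : ‖a‖ = 1) (hb : ‖b‖ = 1) (hc : ‖c‖ = 1) :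
    0 ≤ gramR (inner ℝ a c : ℝ) (inner ℝ b c) (inner ℝ a b) := by
  have h := sda_gram a b c ha hb hc
  unfold gramR at h ⊢
  linarith [h]

theorem sda_ge (a b : E3) (ha : ‖a‖ = 1) (hb : ‖b‖ = 1) : -1 ≤ (inner ℝ a b : ℝ) := by
  have h := abs_real_inner_le_norm a b
  rw [ha, hb, one_mul] at h
  exact (abs_le.mp h).1

end

theorem sdp_abs (D : SDPData) (hA : ∀ p ∈ D.A, 1 ≤ p.1 ∧ p.1 ≤ 12) (tp U τ ε1 ε2 : ℝ)
    (h1 : ∀ x y z : ℝ, -1 ≤ x → x ≤ tp → -1 ≤ y → y ≤ tp → -1 ≤ z → z ≤ tp → 0 ≤ gramR x y z → -ε1 ≤ T1I D x y z)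
    (h2 : ∀ u v t : ℝ, -1 ≤ u → u ≤ U → -1 ≤ v → v ≤ U → -1 ≤ t → t ≤ tp → 0 ≤ gramR u v t → -ε2 ≤ T2I D u v t)
    (hq : ∀ t : ℝ, -1 ≤ t → t ≤ tp → pe D.q t ≤ 2 ^ 80 * max 0 (t - 1 / 2))
    (hqs : ∀ t : ℝ, -1 ≤ t → t ≤ U → pe D.qs t ≤ 2 ^ 80 * max 0 (t - τ))
    (u : Fin 12 → E3) (z : E3) (hu : ∀ i, ‖u i‖ = 1) (hz : ‖z‖ = 1)
    (huu : ∀ i j, i ≠ j → inner ℝ (u i) (u j) ≤ tp) (huz : ∀ i, inner ℝ (u i) z ≤ U) :
    (66 * (D.kap : ℝ) - 1024 * (trA D : ℝ) - 220 * ε1 - 6 * ε2) / 2 ^ 80 ≤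
      en u (fun _ : Fin 1 => z) (fun _ => τ) := by
  have k1 : 1320 * (-ε1) ≤ sdL3 (fun i j l => T1I D (sdt u i j) (sdt u i l) (sdt u j l)) := by
    rw [← sdL3_const]
    refine sdL3_le fun i j l hij hil hjl => ?_
    exact h1 _ _ _ (sda_ge _ _ (hu i) (hu j)) (huu i j hij) (sda_ge _ _ (hu i) (hu l)) (huu i l hil)
      (sda_ge _ _ (hu j) (hu l)) (huu j l hjl) (sda_gram _ _ _ (hu i) (hu j) (hu l))
  have k2 : 132 * (-ε2) ≤ sdL2 (fun i j => T2I D (sds u z i) (sds u z j) (sdt u i j)) := by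
    rw [← sdL2_const]
    refine sdL2_le fun i j hij => ?_
    exact h2 _ _ _ (sda_ge _ _ (hu i) hz) (huz i) (sda_ge _ _ (hu j) hz) (huz j)
      (sda_ge _ _ (hu i) (hu j)) (huu i j hij) (sda_gram' _ _ _ (hu i) (hu j) hz)
  have m1 := sda_fo_all u z hu hz D.Fo
  have m2 := sda_fz_all u z hu hz D.Fz
  have m3 := sda_a_all u z hu hz D.A hA
  have n1 : sdL3 (fun i j l => T1I D (sdt u i j) (sdt u i l) (sdt u j l)) =
      30 * sdL2 (fun i j => pe D.b (sdt u i j)) -
      2 * sdL3 (fun i j m => (D.Fo.map fun p =>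
        Qk p.1 (sdt u i j) (sdt u i m) (sdt u j m) *
          (p.2.map fun c => pe c.1 (sdt u i j) * pe c.1 (sdt u i m)).sum
        + Qk p.1 (sdt u i m) (sdt u j m) (sdt u i j) *
          (p.2.map fun c => pe c.1 (sdt u i m) * pe c.1 (sdt u j m)).sum
        + Qk p.1 (sdt u j m) (sdt u i j) (sdt u i m) *
          (p.2.map fun c => pe c.1 (sdt u j m) * pe c.1 (sdt u i j)).sum).sum) := by
    unfold T1I
    rw [sdL3_sub, sdL3_smul, sdL3_add, sdL3_add]
    have b1 := sdL3_pair (fun i j => pe D.b (sdt u i j))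
    have b2 : sdL3 (fun i _ l => pe D.b (sdt u i l)) = 10 * sdL2 (fun i j => pe D.b (sdt u i j)) := by
      rw [← b1, ← sdL3_cyc2 (fun i j _ => pe D.b (sdt u i j))]
      exact sdL3_congr fun i j l _ _ _ => by rw [sdt_symm]
    have b3 : sdL3 (fun _ j l => pe D.b (sdt u j l)) = 10 * sdL2 (fun i j => pe D.b (sdt u i j)) := by
      rw [← b1]
      exact sdL3_cyc (fun i j _ => pe D.b (sdt u i j))
    rw [b1, b2, b3]
    ring
  have n2 : sdL2 (fun i j => T2I D (sds u z i) (sds u z j) (sdt u i j)) =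
      11 * sdL2 (fun i j => pe D.q (sdt u i j)) + 22 * (∑ i, pe D.qs (sds u z i)) -
      sdL2 (fun i j => (D.Fo.map fun p =>
        22 * (1 - sdt u i j ^ 2) ^ p.1 * (p.2.map fun c => pe c.1 (sdt u i j) ^ 2).sum
        + 22 * Qk p.1 (sdt u i j) (sds u z i) (sds u z j) *
          (p.2.map fun c => pe c.1 (sdt u i j) * pe c.2 (sds u z i)).sum
        + 22 * Qk p.1 (sdt u i j) (sds u z j) (sds u z i) *
          (p.2.map fun c => pe c.1 (sdt u i j) * pe c.2 (sds u z j)).sum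
        + (1 - sds u z i ^ 2) ^ p.1 * (p.2.map fun c => pe c.2 (sds u z i) ^ 2).sum
        + (1 - sds u z j ^ 2) ^ p.1 * (p.2.map fun c => pe c.2 (sds u z j) ^ 2).sum).sum) -
      sdL2 (fun i j => (D.Fz.map fun p =>
        22 * Qk p.1 (sds u z i) (sds u z j) (sdt u i j) *
          (p.2.map fun c => pe c (sds u z i) * pe c (sds u z j)).sum
        + (1 - sds u z i ^ 2) ^ p.1 * (p.2.map fun c => pe c (sds u z i) ^ 2).sum
        + (1 - sds u z j ^ 2) ^ p.1 * (p.2.map fun c => pe c (sds u z j) ^ 2).sum).sum) -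
      sdL2 (fun i j => (D.A.map fun p =>
        22 * (((p.2.map fun c => c.1 ^ 2).sum : ℤ) : ℝ) * pe (LPi p.1) (sdt u i j)
        + 2 * (((p.2.map fun c => c.1 * c.2).sum : ℤ) : ℝ) *
          (pe (LPi p.1) (sds u z i) + pe (LPi p.1) (sds u z j))).sum) -
      110 * sdL2 (fun i j => pe D.b (sdt u i j)) - 1452 * (D.kap : ℝ) := by
    unfold T2I
    rw [sdL2_sub, sdL2_sub, sdL2_sub, sdL2_sub, sdL2_sub, sdL2_add, sdL2_add, sdL2_smul, sdL2_smul,
      sdL2_const, sdL2_single (fun i => pe D.qs (sds u z i)),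
      sdL2_single' (fun i => pe D.qs (sds u z i))]
    ring
  have q1 : sdL2 (fun i j => pe D.q (sdt u i j)) ≤
      2 ^ 80 * (2 * pairSum (fun i j => max 0 (inner ℝ (u i) (u j) - 1 / 2))) := by
    rw [← sda_pairSum _ (fun i j => by rw [real_inner_comm]), ← sdL2_smul]
    exact sdL2_le fun i j hij => hq _ (sda_ge _ _ (hu i) (hu j)) (huu i j hij)
  have q2 : (∑ i, pe D.qs (sds u z i)) ≤
      2 ^ 80 * ∑ i, max 0 (inner ℝ (u i) z - τ) := by
    rw [Finset.mul_sum]
    exact Finset.sum_le_sum fun i _ => hqs _ (sda_ge _ _ (hu i) hz) (huz i)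
  have hen : en u (fun _ : Fin 1 => z) (fun _ => τ) =
      pairSum (fun i j => max 0 (inner ℝ (u i) (u j) - 1 / 2)) +
        ∑ i, max 0 (inner ℝ (u i) z - τ) := by
    unfold en
    rw [Fin.sum_univ_one]
  have htr : (trA D : ℝ) =
      (((D.A.map fun p => (p.2.map fun c => 12 * c.1 ^ 2 + c.2 ^ 2).sum).sum : ℤ) : ℝ) := rfl
  rw [n1] at k1
  rw [n2] at k2
  rw [hen, div_le_iff₀ (by positivity), htr]
  linarith [k1, k2, m1, m2, m3, q1, q2]

end Pool.Agent.H54.V
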