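/-
JOB VOR-LPCHK.  Reflective check of two-point LP certificates (uses `lp_abs`, `bernCheck`, `LPi`).
Data: columns (k, α, [β_0, β_1, ...]) scaled by 2^20, constants f0, g0, k0 scaled by 2^40, rational bounds scaled by den.
Put F(t) = Σ α² P_k(t) + f0, G_a(t) = Σ α β_a P_k(t) + g0_a, K_ab(t) = Σ β_a β_b P_k(t) + k0_ab; the coefficient lists of
2^50 F etc. are integer combinations of `LPi k` (= 1024 P_k).  `checkLP` has to verify with `bernCheck`
  F ≤ 0 on [-1,1/2], F ≤ t - 1/2 on [1/2,tp], G_a ≤ 0 on [-1,tau_a], G_a ≤ t - tau_a on [tau_a,U_a], K_ab ≤ 0 on [-1,tz_ab],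
1 ≤ k ≤ 12, all beta lists have length tau.length, k0 symmetric (if you need it), 0 < den, for all types a, b.
Use recursion depth 14 in `bernCheck` (the certificates leave a slack of about 1e-6, degrees ≤ 12).
Test data: Pool/Agent/H54/V/Data/L1.lean etc. (checks must run in < 1 minute by `decide +kernel`).
-/
import Pool.Agent.H54.V.J.LPAbs
import Pool.Agent.H54.V.SDPDefs
import Pool.Agent.H54.V.LPDefs
import Pool.Agent.H54.V.J.SDPAbs
set_option autoImplicit false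
open MeasureTheory
namespace Pool.Agent.H54.V

/-- `1024 * c + Σ w(x) * (1024 P_k(x))` as a coefficient list. -/
def lcComb (w : ℕ × ℤ × List ℤ → ℤ) : List (ℕ × ℤ × List ℤ) → ℤ → List ℤ
  | [], c => [Int.mul 1024 c]
  | x :: xs, c => bcAdd (bcSmul (w x) (LPi x.1)) (lcComb w xs c)

/-- the polynomial `F`. -/
def lcF (D : LPData) : List ℤ := lcComb (fun x => Int.mul x.2.1 x.2.1) D.cols D.f0

/-- the polynomial `G_a`. -/
def lcG (D : LPData) (a : ℕ) : List ℤ :=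
  lcComb (fun x => Int.mul x.2.1 (x.2.2.getD a 0)) D.cols (D.g0.getD a 0)

/-- the polynomial `K_ab`. -/
def lcK (D : LPData) (a b : ℕ) : List ℤ :=
  lcComb (fun x => Int.mul (x.2.2.getD a 0) (x.2.2.getD b 0)) D.cols ((D.k0.getD a []).getD b 0)

/-- `c` is nonpositive on `[-1, b / d]`. -/
def lcNeg (c : List ℤ) (b : ℤ) (d : ℕ) : Bool :=
  bernCheck (bcSmul (-1) c) (-(Int.ofNat d)) b d 14

/-- `c ≤ 2^50 (t - s / d)` on `[s / d, b / d]`. -/
def lcLin (c : List ℤ) (s b : ℤ) (d : ℕ) : Bool :=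
  bernCheck (bcAdd [Int.mul (-1125899906842624) s, Int.mul 1125899906842624 (Int.ofNat d)]
    (bcSmul (-(Int.ofNat d)) c)) s b d 14

def checkLP (D : LPData) : Bool :=
  Nat.ble 1 D.den && D.cols.all (fun x => Nat.ble x.1 12) &&
  lcNeg (lcF D) 1 2 && lcLin (lcF D) (Int.ofNat D.den) (Int.mul 2 D.tp) (2 * D.den) &&
  (List.range D.tau.length).all (fun a =>
    lcNeg (lcG D a) (D.tau.getD a 0) D.den &&
    lcLin (lcG D a) (D.tau.getD a 0) (D.U.getD a 0) D.den &&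
    (List.range D.tau.length).all (fun b => lcNeg (lcK D a b) ((D.tz.getD a []).getD b 0) D.den))

theorem lc_pe_comb (w : ℕ × ℤ × List ℤ → ℤ) (cols : List (ℕ × ℤ × List ℤ)) (c : ℤ) (t : ℝ) :
    pe (lcComb w cols c) t = 1024 * (c : ℝ) + (cols.map fun x => (w x : ℝ) * pe (LPi x.1) t).sum := by
  induction cols with
  | nil => rw [lcComb, bc_pe_cons, bc_pe_nil, Int.mul_def]; push_cast; simp
  | cons x xs ih =>
    rw [lcComb, bc_pe_add, bc_pe_smul, ih, List.map_cons, List.sum_cons]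
    ring

theorem lc_comb (w : ℕ × ℤ × List ℤ → ℤ) (cols : List (ℕ × ℤ × List ℤ)) (hk : ∀ x ∈ cols, x.1 ≤ 12)
    (c : ℤ) (t : ℝ) : pe (lcComb w cols c) t = 1024 * ((c : ℝ) +
      ∑ l : Fin cols.length, (w cols[l.1] : ℝ) * leg (cols[l.1]).1 t) := by
  rw [lc_pe_comb, mul_add, Finset.mul_sum]
  congr 1
  rw [Fin.sum_univ_fun_getElem cols (fun x => 1024 * ((w x : ℝ) * leg x.1 t))]
  congr 1
  apply List.map_congr_left
  intro x hx
  rw [pe_LPi _ (hk x hx)]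
  ring

theorem lc_neg (c : List ℤ) (b : ℤ) (d : ℕ) (hd : 0 < d) (h : lcNeg c b d = true) (t : ℝ)
    (h1 : -1 ≤ t) (h2 : t ≤ (b : ℝ) / d) : pe c t ≤ 0 := by
  have h3 := bernCheck_sound _ _ _ _ _ hd h t (by
    have : (d : ℝ) ≠ 0 := by positivity
    push_cast
    rw [Int.ofNat_eq_natCast, Int.cast_natCast, neg_div, div_self this]
    exact h1) h2
  rw [bc_pe_smul] at h3
  push_cast at h3
  linarith

theorem lc_lin (c : List ℤ) (s b : ℤ) (d : ℕ) (hd : 0 < d) (h : lcLin c s b d = true) (t : ℝ)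
    (h1 : (s : ℝ) / d ≤ t) (h2 : t ≤ (b : ℝ) / d) : pe c t ≤ 2 ^ 50 * (t - (s : ℝ) / d) := by
  have h3 := bernCheck_sound _ _ _ _ _ hd h t h1 h2
  rw [bc_pe_add, bc_pe_smul, bc_pe_cons, bc_pe_cons, bc_pe_nil, Int.mul_def, Int.mul_def] at h3
  rw [Int.ofNat_eq_natCast] at h3
  push_cast at h3
  have hd0 : (0 : ℝ) < d := by exact_mod_cast hd
  have h4 : (d : ℝ) * (2 ^ 50 * (t - (s : ℝ) / d)) = 2 ^ 50 * (d * t - s) := by
    field_simp
  have h5 : (d : ℝ) * pe c t ≤ d * (2 ^ 50 * (t - (s : ℝ) / d)) := by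
    rw [h4]
    linarith
  exact le_of_mul_le_mul_left h5 hd0

theorem lc_both (c : List ℤ) (s b b' : ℤ) (d d' : ℕ) (hd : 0 < d) (hd' : 0 < d') (s' : ℤ)
    (hs : (s' : ℝ) / d' = (s : ℝ) / d)
    (h : lcNeg c s' d' = true) (h' : lcLin c s b d = true) (hb : (b' : ℝ) ≤ b) (t : ℝ)
    (h1 : -1 ≤ t) (h2 : t ≤ (b' : ℝ) / d) : pe c t ≤ 2 ^ 50 * max 0 (t - (s : ℝ) / d) := by
  have hd0 : (0 : ℝ) < d := by exact_mod_cast hd
  rcases le_total t ((s : ℝ) / d) with h3 | h3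
  · have h4 := lc_neg c s' d' hd' h t h1 (by rw [hs]; exact h3)
    exact h4.trans (by positivity)
  · have h4 := lc_lin c s b d hd h' t h3 (h2.trans (div_le_div_of_nonneg_right hb hd0.le))
    exact h4.trans (mul_le_mul_of_nonneg_left (le_max_right _ _) (by positivity))

theorem checkLP_sound (D : LPData) (h : checkLP D = true) {n m : ℕ} (ty : Fin m → ℕ)
    (hty : ∀ a, ty a < D.tau.length) (u : Fin n → E3) (z : Fin m → E3) (hu : ∀ i, ‖u i‖ = 1) (hz : ∀ a, ‖z a‖ = 1)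
    (huu : ∀ i j, i ≠ j → inner ℝ (u i) (u j) ≤ (D.tp : ℝ) / D.den)
    (huz : ∀ i a, inner ℝ (u i) (z a) ≤ ((D.U.getD (ty a) 0 : ℤ) : ℝ) / D.den)
    (hzz : ∀ a b, a ≠ b → inner ℝ (z a) (z b) ≤ (((D.tz.getD (ty a) []).getD (ty b) 0 : ℤ) : ℝ) / D.den) :
    ((n : ℝ) * (n - 1) * D.f0 + 2 * n * ∑ a, ((D.g0.getD (ty a) 0 : ℤ) : ℝ)
      + ∑ a, ∑ b, (if a = b then 0 else (((D.k0.getD (ty a) []).getD (ty b) 0 : ℤ) : ℝ))
      - n * (((D.cols.map fun c => c.2.1 ^ 2).sum : ℤ) : ℝ)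
      - ∑ a, (((D.cols.map fun c => (c.2.2.getD (ty a) 0) ^ 2).sum : ℤ) : ℝ)) / 2 ^ 41 ≤
      en u z (fun a => ((D.tau.getD (ty a) 0 : ℤ) : ℝ) / D.den) := by
  rw [checkLP] at h
  simp only [Bool.and_eq_true] at h
  obtain ⟨⟨⟨⟨hden, hcols⟩, hF1⟩, hF2⟩, hall⟩ := h
  have hd : 0 < D.den := Nat.le_of_ble_eq_true hden
  have hd0 : (0 : ℝ) < D.den := by exact_mod_cast hd
  have hk : ∀ x ∈ D.cols, x.1 ≤ 12 := fun x hx =>
    Nat.le_of_ble_eq_true ((List.all_eq_true.1 hcols) x hx)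
  have hty2 : ∀ a, lcNeg (lcG D (ty a)) (D.tau.getD (ty a) 0) D.den = true ∧
      lcLin (lcG D (ty a)) (D.tau.getD (ty a) 0) (D.U.getD (ty a) 0) D.den = true ∧
      ∀ b, lcNeg (lcK D (ty a) (ty b)) ((D.tz.getD (ty a) []).getD (ty b) 0) D.den = true := by
    intro a
    have h1 := (List.all_eq_true.1 hall) (ty a) (List.mem_range.2 (hty a))
    simp only [Bool.and_eq_true] at h1
    obtain ⟨⟨h2, h3⟩, h4⟩ := h1
    exact ⟨h2, h3, fun b => (List.all_eq_true.1 h4) (ty b) (List.mem_range.2 (hty b))⟩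
  have hlow : ∀ v w : E3, ‖v‖ = 1 → ‖w‖ = 1 → -1 ≤ inner ℝ v w := by
    intro v w hv hw
    have h1 := abs_real_inner_le_norm v w
    rw [hv, hw, mul_one] at h1
    exact (abs_le.1 h1).1
  have e40 : (2 : ℝ) ^ 50 = 1024 * 2 ^ 40 := by norm_num
  -- the abstract bound
  have key := lp_abs (L := D.cols.length) (fun l => (D.cols[l.1]).1)
    (fun l => hk _ (List.getElem_mem _)) (fun l => ((D.cols[l.1]).2.1 : ℝ) / 2 ^ 20)
    (fun l a => (((D.cols[l.1]).2.2.getD (ty a) 0 : ℤ) : ℝ) / 2 ^ 20)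
    ((D.f0 : ℝ) / 2 ^ 40) (fun a => ((D.g0.getD (ty a) 0 : ℤ) : ℝ) / 2 ^ 40)
    (fun a b => (((D.k0.getD (ty a) []).getD (ty b) 0 : ℤ) : ℝ) / 2 ^ 40) u z hu hz
    (fun i j => max 0 (inner ℝ (u i) (u j) - 1 / 2))
    (fun a i => max 0 (inner ℝ (u i) (z a) - ((D.tau.getD (ty a) 0 : ℤ) : ℝ) / D.den))
    (by
      intro i j hij
      have h1 := lc_both (lcF D) (Int.ofNat D.den) (Int.mul 2 D.tp) (Int.mul 2 D.tp) (2 * D.den) 2
        (by omega) (by norm_num) 1 (by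
          rw [Int.ofNat_eq_natCast]
          push_cast
          field_simp) hF1 hF2 le_rfl (inner ℝ (u i) (u j)) (hlow _ _ (hu i) (hu j)) (by
          refine (huu i j hij.ne).trans (le_of_eq ?_)
          rw [Int.mul_def]
          push_cast
          rw [mul_div_mul_left _ _ (two_ne_zero)])
      have h2 : ((Int.ofNat D.den : ℤ) : ℝ) / ((2 * D.den : ℕ) : ℝ) = 1 / 2 := by
        rw [Int.ofNat_eq_natCast]
        push_cast
        field_simp
      rw [h2, lcF, lc_comb _ _ hk, e40] at h1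
      have h3 : (D.f0 : ℝ) + ∑ l : Fin D.cols.length,
          ((Int.mul (D.cols[l.1]).2.1 (D.cols[l.1]).2.1 : ℤ) : ℝ) *
            leg (D.cols[l.1]).1 (inner ℝ (u i) (u j)) ≤
          2 ^ 40 * max 0 (inner ℝ (u i) (u j) - 1 / 2) := by
        linarith
      have h4 : (D.f0 : ℝ) / 2 ^ 40 + ∑ l : Fin D.cols.length,
          (((D.cols[l.1]).2.1 : ℝ) / 2 ^ 20) ^ 2 * leg (D.cols[l.1]).1 (inner ℝ (u i) (u j)) =
          ((D.f0 : ℝ) + ∑ l : Fin D.cols.length,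
          ((Int.mul (D.cols[l.1]).2.1 (D.cols[l.1]).2.1 : ℤ) : ℝ) *
            leg (D.cols[l.1]).1 (inner ℝ (u i) (u j))) / 2 ^ 40 := by
        rw [add_div, Finset.sum_div]
        congr 1
        refine Finset.sum_congr rfl fun l _ => ?_
        rw [Int.mul_def]
        push_cast
        ring
      rw [h4, div_le_iff₀ (by positivity)]
      linarith)
    (by
      intro a i
      obtain ⟨g1, g2, -⟩ := hty2 a
      have h1 := lc_both (lcG D (ty a)) (D.tau.getD (ty a) 0) (D.U.getD (ty a) 0)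
        (D.U.getD (ty a) 0) D.den D.den hd hd _ rfl g1 g2 le_rfl (inner ℝ (u i) (z a))
        (hlow _ _ (hu i) (hz a)) (huz i a)
      rw [lcG, lc_comb _ _ hk, e40] at h1
      have h4 : ((D.g0.getD (ty a) 0 : ℤ) : ℝ) / 2 ^ 40 + ∑ l : Fin D.cols.length,
          ((D.cols[l.1]).2.1 : ℝ) / 2 ^ 20 * ((((D.cols[l.1]).2.2.getD (ty a) 0 : ℤ) : ℝ) / 2 ^ 20) *
            leg (D.cols[l.1]).1 (inner ℝ (u i) (z a)) =
          (((D.g0.getD (ty a) 0 : ℤ) : ℝ) + ∑ l : Fin D.cols.length,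
          ((Int.mul (D.cols[l.1]).2.1 ((D.cols[l.1]).2.2.getD (ty a) 0) : ℤ) : ℝ) *
            leg (D.cols[l.1]).1 (inner ℝ (u i) (z a))) / 2 ^ 40 := by
        rw [add_div, Finset.sum_div]
        congr 1
        refine Finset.sum_congr rfl fun l _ => ?_
        rw [Int.mul_def]
        push_cast
        ring
      rw [h4, div_le_iff₀ (by positivity)]
      linarith)
    (by
      intro a b hab
      obtain ⟨-, -, g3⟩ := hty2 a
      have h1 := lc_neg _ _ _ hd (g3 b) (inner ℝ (z a) (z b)) (hlow _ _ (hz a) (hz b)) (hzz a b hab)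
      rw [lcK, lc_comb _ _ hk] at h1
      have h4 : (((D.k0.getD (ty a) []).getD (ty b) 0 : ℤ) : ℝ) / 2 ^ 40 + ∑ l : Fin D.cols.length,
          (((D.cols[l.1]).2.2.getD (ty a) 0 : ℤ) : ℝ) / 2 ^ 20 *
            ((((D.cols[l.1]).2.2.getD (ty b) 0 : ℤ) : ℝ) / 2 ^ 20) *
            leg (D.cols[l.1]).1 (inner ℝ (z a) (z b)) =
          ((((D.k0.getD (ty a) []).getD (ty b) 0 : ℤ) : ℝ) + ∑ l : Fin D.cols.length,
          ((Int.mul ((D.cols[l.1]).2.2.getD (ty a) 0) ((D.cols[l.1]).2.2.getD (ty b) 0) : ℤ) : ℝ) *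
            leg (D.cols[l.1]).1 (inner ℝ (z a) (z b))) / 2 ^ 40 := by
        rw [add_div, Finset.sum_div]
        congr 1
        refine Finset.sum_congr rfl fun l _ => ?_
        rw [Int.mul_def]
        push_cast
        ring
      rw [h4, div_le_iff₀ (by positivity)]
      linarith)
  refine le_trans (le_of_eq ?_) key
  have s1 : (((D.cols.map fun c => c.2.1 ^ 2).sum : ℤ) : ℝ) =
      2 ^ 40 * ∑ l : Fin D.cols.length, (((D.cols[l.1]).2.1 : ℝ) / 2 ^ 20) ^ 2 := by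
    rw [Fin.sum_univ_fun_getElem D.cols (fun x => ((x.2.1 : ℝ) / 2 ^ 20) ^ 2), ← List.sum_map_mul_left,
      Int.cast_list_sum, List.map_map]
    congr 1
    apply List.map_congr_left
    intro x _
    simp only [Function.comp_apply]
    push_cast
    ring
  have s2 : ∀ a, (((D.cols.map fun c => (c.2.2.getD (ty a) 0) ^ 2).sum : ℤ) : ℝ) =
      2 ^ 40 * ∑ l : Fin D.cols.length, ((((D.cols[l.1]).2.2.getD (ty a) 0 : ℤ) : ℝ) / 2 ^ 20) ^ 2 := by
    intro a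
    rw [Fin.sum_univ_fun_getElem D.cols (fun x => (((x.2.2.getD (ty a) 0 : ℤ) : ℝ) / 2 ^ 20) ^ 2),
      ← List.sum_map_mul_left, Int.cast_list_sum, List.map_map]
    congr 1
    apply List.map_congr_left
    intro x _
    simp only [Function.comp_apply]
    push_cast
    ring
  rw [s1, Finset.sum_congr rfl fun a _ => s2 a, ← Finset.mul_sum, ← Finset.sum_div]
  have s3 : ∑ a, ∑ b, (if a = b then (0 : ℝ) else
      (((D.k0.getD (ty a) []).getD (ty b) 0 : ℤ) : ℝ) / 2 ^ 40) =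
      (∑ a, ∑ b, (if a = b then (0 : ℝ) else (((D.k0.getD (ty a) []).getD (ty b) 0 : ℤ) : ℝ))) / 2 ^ 40 := by
    rw [Finset.sum_div]
    refine Finset.sum_congr rfl fun a _ => ?_
    rw [Finset.sum_div]
    refine Finset.sum_congr rfl fun b _ => ?_
    split_ifs <;> simp
  rw [s3]
  have e41 : (2 : ℝ) ^ 41 = 2 * 2 ^ 40 := by norm_num
  rw [e41]
  field_simp

end Pool.Agent.H54.V
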