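/-
JOB VOR-CERTL.  The two-point LP certificates (Data/L1 .. L4, L10, L11, K1 .. K3) prove the statements HL.., HK..:
`checkLP_sound` with `checkLP L1 = true` by `decide +kernel` etc.  Types: ty = fun _ => 0 (one type), K2 and K3: ty = ![0,1].
Energy bounds computed exactly in Python: L1 .779649, L2 .521905, L3 .459446, L4 .418790, K1 .236078, K2 .197573, K3 .125534,
L11 .156617; L10: f0/2^40 = .1314161.., g0/2^40 = .0785175.., k0/2^40 = .0424034.., Σα²/2^40 = 1.6066868.., Σβ²/2^40 = 1.0193916..
-/
import Pool.Agent.H54.V.KDefs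
import Pool.Agent.H54.V.J.LPChk
import Pool.Agent.H54.V.Data.L1
import Pool.Agent.H54.V.Data.L2
import Pool.Agent.H54.V.Data.L3
import Pool.Agent.H54.V.Data.L4
import Pool.Agent.H54.V.Data.L10
import Pool.Agent.H54.V.Data.L11
import Pool.Agent.H54.V.Data.K1
import Pool.Agent.H54.V.Data.K2
import Pool.Agent.H54.V.Data.K3
set_option autoImplicit false
open MeasureTheory
namespace Pool.Agent.H54.V

theorem hl1 : HL1 := by
  intro u z hu hz huu huz hzz
  have h := checkLP_sound L1 (by decide +kernel) (fun _ : Fin 0 => 0) (fun a => a.elim0) u z hu hz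
    (fun i j hij => (huu i j hij).trans (by norm_num [L1]))
    (fun i a => a.elim0) (fun a => a.elim0)
  have e : (fun a : Fin 0 => ((L1.tau.getD ((fun _ : Fin 0 => 0) a) 0 : ℤ) : ℝ) / L1.den) =
      fun _ => 0 := by
    funext a
    exact a.elim0
  rw [e] at h
  refine le_trans ?_ h
  norm_num [L1]

theorem hl2 : HL2 := by
  intro u z hu hz huu huz hzz
  have h := checkLP_sound L2 (by decide +kernel) (fun _ : Fin 1 => 0) (by intro a; decide) u z hu hz
    (fun i j hij => (huu i j hij).trans (by norm_num [L2]))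
    (fun i a => (huz i a).trans (by norm_num [L2]))
    (fun a b hab => (hzz a b hab).trans (by norm_num [L2]))
  have e : (fun a : Fin 1 => ((L2.tau.getD ((fun _ : Fin 1 => 0) a) 0 : ℤ) : ℝ) / L2.den) = fun _ => 0.5625 := by
    funext a
    norm_num [L2]
  rw [e] at h
  refine le_trans ?_ h
  norm_num [L2, Finset.sum_ite_eq, Fin.sum_univ_succ]

theorem hl3 : HL3 := by
  intro u z hu hz huu huz hzz
  have h := checkLP_sound L3 (by decide +kernel) (fun _ : Fin 1 => 0) (by intro a; decide) u z hu hz
    (fun i j hij => (huu i j hij).trans (by norm_num [L3]))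
    (fun i a => (huz i a).trans (by norm_num [L3]))
    (fun a b hab => (hzz a b hab).trans (by norm_num [L3]))
  have e : (fun a : Fin 1 => ((L3.tau.getD ((fun _ : Fin 1 => 0) a) 0 : ℤ) : ℝ) / L3.den) = fun _ => 0.5775 := by
    funext a
    norm_num [L3]
  rw [e] at h
  refine le_trans ?_ h
  norm_num [L3, Finset.sum_ite_eq, Fin.sum_univ_succ]

theorem hl4 : HL4 := by
  intro u z hu hz huu huz hzz
  have h := checkLP_sound L4 (by decide +kernel) (fun _ : Fin 1 => 0) (by intro a; decide) u z hu hz
    (fun i j hij => (huu i j hij).trans (by norm_num [L4]))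
    (fun i a => (huz i a).trans (by norm_num [L4]))
    (fun a b hab => (hzz a b hab).trans (by norm_num [L4]))
  have e : (fun a : Fin 1 => ((L4.tau.getD ((fun _ : Fin 1 => 0) a) 0 : ℤ) : ℝ) / L4.den) = fun _ => 0.5875 := by
    funext a
    norm_num [L4]
  rw [e] at h
  refine le_trans ?_ h
  norm_num [L4, Finset.sum_ite_eq, Fin.sum_univ_succ]

theorem certL_off (m : ℕ) (c : ℝ) : ∑ a : Fin m, ∑ b : Fin m, (if a = b then 0 else c) =
    (m : ℝ) * (m - 1) * c := by
  have h : ∀ a : Fin m, ∑ b : Fin m, (if a = b then 0 else c) = ((m : ℝ) - 1) * c := by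
    intro a
    have h1 : ∀ b : Fin m, (if a = b then 0 else c) = c - (if a = b then c else 0) := by
      intro b
      split_ifs <;> simp
    simp only [h1, Finset.sum_sub_distrib, Finset.sum_ite_eq, Finset.mem_univ, if_true,
      Finset.sum_const, Finset.card_univ, Fintype.card_fin, nsmul_eq_mul]
    ring
  simp only [h, Finset.sum_const, Finset.card_univ, Fintype.card_fin, nsmul_eq_mul]
  ring

theorem hl10 : HL10 := by
  intro n m u z hu hz huu huz hzz
  have h := checkLP_sound L10 (by decide +kernel) (fun _ : Fin m => 0) (by intro a; decide) u z hu hz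
    (fun i j hij => (huu i j hij).trans (by norm_num [L10]))
    (fun i a => (huz i a).trans (by norm_num [L10]))
    (fun a b hab => (hzz a b hab).trans (by norm_num [L10]))
  have e : (fun a : Fin m => ((L10.tau.getD ((fun _ : Fin m => 0) a) 0 : ℤ) : ℝ) / L10.den) =
      fun _ => 0.6 := by
    funext a
    norm_num [L10]
  rw [e] at h
  refine le_trans ?_ h
  rw [certL_off]
  simp only [Finset.sum_const, Finset.card_univ, Fintype.card_fin, nsmul_eq_mul]
  have a1 : (0 : ℝ) ≤ (n : ℝ) * (n - 1) := by
    rcases n with - | n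
    · simp
    · push_cast
      have : (0 : ℝ) ≤ n := Nat.cast_nonneg n
      nlinarith
  have a2 : (0 : ℝ) ≤ (m : ℝ) * (m - 1) := by
    rcases m with - | m
    · simp
    · push_cast
      have : (0 : ℝ) ≤ m := Nat.cast_nonneg m
      nlinarith
  have a3 : (0 : ℝ) ≤ (n : ℝ) * m := by positivity
  have a4 : (0 : ℝ) ≤ n := Nat.cast_nonneg n
  have a5 : (0 : ℝ) ≤ m := Nat.cast_nonneg m
  rw [E10]
  norm_num [L10]
  nlinarith

theorem hl11 : HL11 := by
  intro u z hu hz huu huz hzz
  have h := checkLP_sound L11 (by decide +kernel) (fun _ : Fin 3 => 0) (by intro a; decide) u z hu hz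
    (fun i j hij => (huu i j hij).trans (by norm_num [L11]))
    (fun i a => (huz i a).trans (by norm_num [L11]))
    (fun a b hab => (hzz a b hab).trans (by norm_num [L11]))
  have e : (fun a : Fin 3 => ((L11.tau.getD ((fun _ : Fin 3 => 0) a) 0 : ℤ) : ℝ) / L11.den) = fun _ => 0.6293 := by
    funext a
    norm_num [L11]
  rw [e] at h
  refine le_trans ?_ h
  rw [certL_off]
  norm_num [L11]

theorem hk1 : HK1 := by
  intro u z hu hz huu huz hzz
  have h := checkLP_sound K1 (by decide +kernel) (fun _ : Fin 2 => 0) (by intro a; decide) u z hu hz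
    (fun i j hij => (huu i j hij).trans (by norm_num [K1]))
    (fun i a => (huz i a).trans (by norm_num [K1]))
    (fun a b hab => (hzz a b hab).trans (by norm_num [K1]))
  have e : (fun a : Fin 2 => ((K1.tau.getD ((fun _ : Fin 2 => 0) a) 0 : ℤ) : ℝ) / K1.den) = fun _ => 0.57 := by
    funext a
    norm_num [K1]
  rw [e] at h
  refine le_trans ?_ h
  norm_num [K1, Finset.sum_ite_eq, Fin.sum_univ_succ]

theorem hk2 : HK2 := by
  intro u z hu hz huu huz hzz
  have h := checkLP_sound K2 (by decide +kernel) (![0, 1] : Fin 2 → ℕ) (by decide) u z hu hz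
    (fun i j hij => (huu i j hij).trans (by norm_num [K2]))
    (fun i a => (huz i a).trans (by fin_cases a <;> norm_num [K2]))
    (fun a b hab => (hzz a b hab).trans (by
      fin_cases a <;> fin_cases b <;> first | exact absurd rfl hab | norm_num [K2]))
  have e : (fun a : Fin 2 => ((K2.tau.getD ((![0, 1] : Fin 2 → ℕ) a) 0 : ℤ) : ℝ) / K2.den) =
      ![(0.5625 : ℝ), 0.5875] := by
    funext a
    fin_cases a <;> norm_num [K2]
  rw [e] at h
  refine le_trans ?_ h
  norm_num [K2, Fin.sum_univ_succ]

theorem hk3 : HK3 := by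
  intro u z hu hz huu huz hzz
  have h := checkLP_sound K3 (by decide +kernel) (![0, 1] : Fin 2 → ℕ) (by decide) u z hu hz
    (fun i j hij => (huu i j hij).trans (by norm_num [K3]))
    (fun i a => (huz i a).trans (by fin_cases a <;> norm_num [K3]))
    (fun a b hab => (hzz a b hab).trans (by
      fin_cases a <;> fin_cases b <;> first | exact absurd rfl hab | norm_num [K3]))
  have e : (fun a : Fin 2 => ((K3.tau.getD ((![0, 1] : Fin 2 → ℕ) a) 0 : ℤ) : ℝ) / K3.den) =
      ![(0.578 : ℝ), 0.5875] := by
    funext a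
    fin_cases a <;> norm_num [K3]
  rw [e] at h
  refine le_trans ?_ h
  norm_num [K3, Fin.sum_univ_succ]

end Pool.Agent.H54.V
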