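/-
JOB VOR-KRON.  Polynomial identities in three variables by Kronecker substitution.
`IsPoly K f z d M`: the real function f is given by an integer polynomial P in 3 variables of total degree ≤ d, with
1-norm ≤ M, whose value at the integer point (2^K, 2^(15K), 2^(225K)) is z.  Prove the closure lemmas and the final
theorem.  Final theorem: suppose P ≠ 0, total degree ≤ 14, 1-norm ≤ M ≤ 2^K.  The exponents e(m) = m0 + 15 m1 + 225 m2
of the monomials m of P are pairwise distinct (all m_i ≤ 14); let m* be the monomial with the largest one.  Then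
|Σ_{m≠m*} c_m 2^{K e(m)}| ≤ (M-1) 2^{K(e(m*)-1)} < 2^{K e(m*)} ≤ |c_{m*}| 2^{K e(m*)}, so the value is not 0.
-/
import Pool.Agent.H54.V.J.Bern
set_option autoImplicit false
namespace Pool.Agent.H54.V

/-- 1-norm of an integer polynomial. -/
noncomputable def n1 (P : MvPolynomial (Fin 3) ℤ) : ℕ := ∑ m ∈ P.support, (P.coeff m).natAbs

section n1
open MvPolynomial

private theorem n1_eq (P : MvPolynomial (Fin 3) ℤ) (T : Finset (Fin 3 →₀ ℕ)) (h : P.support ⊆ T) :
    n1 P = ∑ m ∈ T, (P.coeff m).natAbs := by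
  unfold n1
  refine Finset.sum_subset h fun m _ hm => ?_
  rw [MvPolynomial.notMem_support_iff.1 hm, Int.natAbs_zero]

private theorem n1_add (P Q : MvPolynomial (Fin 3) ℤ) : n1 (P + Q) ≤ n1 P + n1 Q := by
  classical
  rw [n1_eq (P + Q) (P.support ∪ Q.support) MvPolynomial.support_add,
    n1_eq P (P.support ∪ Q.support) Finset.subset_union_left,
    n1_eq Q (P.support ∪ Q.support) Finset.subset_union_right, ← Finset.sum_add_distrib]
  refine Finset.sum_le_sum fun m _ => ?_
  rw [MvPolynomial.coeff_add]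
  exact Int.natAbs_add_le _ _

private theorem n1_neg (P : MvPolynomial (Fin 3) ℤ) : n1 (-P) = n1 P := by
  unfold n1
  rw [MvPolynomial.support_neg]
  refine Finset.sum_congr rfl fun m _ => ?_
  rw [MvPolynomial.coeff_neg, Int.natAbs_neg]

private theorem n1_zero : n1 0 = 0 := by
  unfold n1
  simp

private theorem n1_monomial_mul (m : Fin 3 →₀ ℕ) (c : ℤ) (Q : MvPolynomial (Fin 3) ℤ) :
    n1 (monomial m c * Q) ≤ c.natAbs * n1 Q := by
  classical
  have h1 : (monomial m c * Q).support ⊆ Q.support.map (addLeftEmbedding m) := by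
    intro k hk
    rw [MvPolynomial.mem_support_iff, MvPolynomial.coeff_monomial_mul'] at hk
    by_cases hmk : m ≤ k
    · rw [if_pos hmk] at hk
      rw [Finset.mem_map]
      refine ⟨k - m, ?_, ?_⟩
      · rw [MvPolynomial.mem_support_iff]
        intro h0
        exact hk (by rw [h0, mul_zero])
      · exact add_tsub_cancel_of_le hmk
    · rw [if_neg hmk] at hk
      exact absurd rfl hk
  rw [n1_eq _ _ h1, Finset.sum_map]
  unfold n1
  rw [Finset.mul_sum]
  refine le_of_eq (Finset.sum_congr rfl fun k _ => ?_)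
  show ((monomial m c * Q).coeff (m + k)).natAbs = _
  rw [MvPolynomial.coeff_monomial_mul, Int.natAbs_mul]

private theorem n1_sum {ι : Type} (T : Finset ι) (F : ι → MvPolynomial (Fin 3) ℤ) :
    n1 (∑ i ∈ T, F i) ≤ ∑ i ∈ T, n1 (F i) := by
  classical
  induction T using Finset.induction_on with
  | empty => rw [Finset.sum_empty, Finset.sum_empty, n1_zero]
  | insert a T ha ih =>
    rw [Finset.sum_insert ha, Finset.sum_insert ha]
    exact (n1_add _ _).trans (by omega)

private theorem n1_mul (P Q : MvPolynomial (Fin 3) ℤ) : n1 (P * Q) ≤ n1 P * n1 Q := by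
  classical
  have h1 : P * Q = ∑ m ∈ P.support, monomial m (P.coeff m) * Q := by
    rw [← Finset.sum_mul, ← MvPolynomial.as_sum P]
  rw [h1]
  refine (n1_sum _ _).trans ?_
  have h2 : n1 P = ∑ m ∈ P.support, (P.coeff m).natAbs := rfl
  rw [h2, Finset.sum_mul]
  exact Finset.sum_le_sum fun m _ => n1_monomial_mul m _ Q

private theorem n1_monomial (m : Fin 3 →₀ ℕ) (c : ℤ) : n1 (monomial m c) ≤ c.natAbs := by
  classical
  rw [n1_eq _ {m} MvPolynomial.support_monomial_subset, Finset.sum_singleton,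
    MvPolynomial.coeff_monomial, if_pos rfl]

end n1

structure IsPoly (K : ℕ) (f : ℝ → ℝ → ℝ → ℝ) (z : ℤ) (d M : ℕ) : Prop where
  ex : ∃ P : MvPolynomial (Fin 3) ℤ, (∀ x y t : ℝ, f x y t = MvPolynomial.aeval ![x, y, t] P) ∧
    MvPolynomial.eval ![(2 : ℤ) ^ K, (2 : ℤ) ^ (15 * K), (2 : ℤ) ^ (225 * K)] P = z ∧ P.totalDegree ≤ d ∧ n1 P ≤ M

namespace IsPoly
variable {K : ℕ} {f g : ℝ → ℝ → ℝ → ℝ} {z w : ℤ} {d e M L : ℕ}

theorem const (c : ℤ) : IsPoly K (fun _ _ _ => (c : ℝ)) c 0 c.natAbs := by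
  refine ⟨MvPolynomial.C c, fun x y t => ?_, ?_, ?_, ?_⟩
  · rw [MvPolynomial.aeval_C]
    simp
  · rw [MvPolynomial.eval_C]
  · rw [MvPolynomial.totalDegree_C]
  · exact n1_monomial 0 c
theorem vx : IsPoly K (fun x _ _ => x) (2 ^ K) 1 1 := by
  refine ⟨MvPolynomial.X 0, fun x y t => ?_, ?_, ?_, ?_⟩
  · rw [MvPolynomial.aeval_X]
    rfl
  · rw [MvPolynomial.eval_X]
    rfl
  · rw [MvPolynomial.totalDegree_X]
  · exact n1_monomial (Finsupp.single 0 1) 1
theorem vy : IsPoly K (fun _ y _ => y) (2 ^ (15 * K)) 1 1 := by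
  refine ⟨MvPolynomial.X 1, fun x y t => ?_, ?_, ?_, ?_⟩
  · rw [MvPolynomial.aeval_X]
    rfl
  · rw [MvPolynomial.eval_X]
    rfl
  · rw [MvPolynomial.totalDegree_X]
  · exact n1_monomial (Finsupp.single 1 1) 1
theorem vt : IsPoly K (fun _ _ t => t) (2 ^ (225 * K)) 1 1 := by
  refine ⟨MvPolynomial.X 2, fun x y t => ?_, ?_, ?_, ?_⟩
  · rw [MvPolynomial.aeval_X]
    rfl
  · rw [MvPolynomial.eval_X]
    rfl
  · rw [MvPolynomial.totalDegree_X]
  · exact n1_monomial (Finsupp.single 2 1) 1
theorem add (hf : IsPoly K f z d M) (hg : IsPoly K g w e L) :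
    IsPoly K (fun x y t => f x y t + g x y t) (z + w) (max d e) (M + L) := by
  obtain ⟨P, h1, h2, h3, h4⟩ := hf.ex
  obtain ⟨Q, k1, k2, k3, k4⟩ := hg.ex
  refine ⟨P + Q, fun x y t => ?_, ?_, ?_, ?_⟩
  · rw [map_add, h1, k1]
  · rw [map_add, h2, k2]
  · exact (MvPolynomial.totalDegree_add P Q).trans (max_le_max h3 k3)
  · exact (n1_add P Q).trans (Nat.add_le_add h4 k4)
theorem sub (hf : IsPoly K f z d M) (hg : IsPoly K g w e L) :
    IsPoly K (fun x y t => f x y t - g x y t) (z - w) (max d e) (M + L) := by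
  obtain ⟨P, h1, h2, h3, h4⟩ := hf.ex
  obtain ⟨Q, k1, k2, k3, k4⟩ := hg.ex
  refine ⟨P - Q, fun x y t => ?_, ?_, ?_, ?_⟩
  · rw [map_sub, h1, k1]
  · rw [map_sub, h2, k2]
  · exact (MvPolynomial.totalDegree_sub P Q).trans (max_le_max h3 k3)
  · rw [sub_eq_add_neg]
    refine (n1_add P (-Q)).trans ?_
    rw [n1_neg]
    exact Nat.add_le_add h4 k4
theorem mul (hf : IsPoly K f z d M) (hg : IsPoly K g w e L) :
    IsPoly K (fun x y t => f x y t * g x y t) (z * w) (d + e) (M * L) := by
  obtain ⟨P, h1, h2, h3, h4⟩ := hf.ex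
  obtain ⟨Q, k1, k2, k3, k4⟩ := hg.ex
  refine ⟨P * Q, fun x y t => ?_, ?_, ?_, ?_⟩
  · rw [map_mul, h1, k1]
  · rw [map_mul, h2, k2]
  · exact (MvPolynomial.totalDegree_mul P Q).trans (Nat.add_le_add h3 k3)
  · exact (n1_mul P Q).trans (Nat.mul_le_mul h4 k4)
theorem pow (hf : IsPoly K f z d M) (n : ℕ) :
    IsPoly K (fun x y t => f x y t ^ n) (z ^ n) (n * d) (M ^ n) := by
  induction n with
  | zero =>
    have h1 := const (K := K) 1
    simpa using h1
  | succ n ih =>
    have h1 := mul ih hf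
    have e1 : (n + 1) * d = n * d + d := by ring
    rw [e1]
    simpa only [pow_succ] using h1
theorem mono (hf : IsPoly K f z d M) {d' M' : ℕ} (hd : d ≤ d') (hM : M ≤ M') : IsPoly K f z d' M' := by
  obtain ⟨P, h1, h2, h3, h4⟩ := hf.ex
  exact ⟨P, h1, h2, h3.trans hd, h4.trans hM⟩
/-- sum over a list. -/
theorem listSum {α : Type*} (l : List α) (F : α → ℝ → ℝ → ℝ → ℝ) (Z : α → ℤ) (D : ℕ) (N : α → ℕ)
    (h : ∀ a ∈ l, IsPoly K (F a) (Z a) D (N a)) :
    IsPoly K (fun x y t => (l.map (fun a => F a x y t)).sum) (l.map Z).sum D (l.map N).sum := by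
  induction l with
  | nil =>
    have h1 := (const (K := K) 0).mono (Nat.zero_le D) le_rfl
    simpa using h1
  | cons a l ih =>
    have h1 := add (h a (List.mem_cons_self)) (ih fun b hb => h b (List.mem_cons_of_mem a hb))
    rw [max_self] at h1
    simpa only [List.map_cons, List.sum_cons] using h1
/-- univariate integer polynomial composed with f. -/
theorem pe_comp (c : List ℤ) (hf : IsPoly K f z 1 1) :
    IsPoly K (fun x y t => pe c (f x y t)) (pe c z) (c.length - 1) ((c.map Int.natAbs).sum) := by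
  induction c with
  | nil =>
    have h1 := const (K := K) 0
    simpa [pe] using h1
  | cons a c ih =>
    have e1 : ∀ u : ℝ, pe (a :: c) u = (a : ℝ) + u * pe c u := fun u => rfl
    have e2 : ∀ u : ℤ, pe (a :: c) u = a + u * pe c u := fun u => rfl
    simp only [e1, e2]
    rcases List.eq_nil_or_concat c with hc | ⟨c', b, hc⟩
    · subst hc
      have e3 : ∀ u : ℝ, pe [] u = 0 := fun u => rfl
      have e4 : ∀ u : ℤ, pe [] u = 0 := fun u => rfl
      simp only [e3, e4, mul_zero, add_zero]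
      have h1 := const (K := K) a
      simpa using h1
    · have hl : 1 ≤ c.length := by
        rw [hc]
        simp
      have h1 := add (const (K := K) a) (mul hf ih)
      refine h1.mono ?_ ?_
      · rw [List.length_cons]
        omega
      · rw [List.map_cons, List.sum_cons, one_mul]
/-- final theorem -/
theorem eq_zero (h : IsPoly K f z d M) (hd : d ≤ 14) (hM : M ≤ 2 ^ K) (hz : z = 0) (x y t : ℝ) : f x y t = 0 := by
  obtain ⟨P, h1, h2, h3, h4⟩ := h.ex
  have hP0 : P = 0 := by
    by_contra hP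
    -- exponents
    set e : (Fin 3 →₀ ℕ) → ℕ := fun m => m 0 + 15 * m 1 + 225 * m 2 with he
    have hb : ∀ m ∈ P.support, m 0 + m 1 + m 2 ≤ 14 := by
      intro m hm
      have k1 := MvPolynomial.le_totalDegree hm
      rw [Finsupp.sum_fintype _ _ (fun _ => rfl), Fin.sum_univ_three] at k1
      omega
    have hinj : ∀ m ∈ P.support, ∀ m' ∈ P.support, e m = e m' → m = m' := by
      intro m hm m' hm' hee
      have k1 := hb m hm
      have k2 := hb m' hm'
      simp only [he] at hee
      have q2 : m 2 = m' 2 := by omega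
      have q1 : m 1 = m' 1 := by omega
      have q0 : m 0 = m' 0 := by omega
      ext i
      fin_cases i
      · exact q0
      · exact q1
      · exact q2
    have hne : P.support.Nonempty := MvPolynomial.support_nonempty.2 hP
    obtain ⟨ms, hms, hmax⟩ := Finset.exists_max_image P.support e hne
    set B : ℤ := 2 ^ K with hB
    have hB1 : 1 ≤ B := by
      rw [hB]
      exact one_le_pow₀ (by norm_num)
    -- the value
    have hval : ∑ m ∈ P.support, P.coeff m * B ^ e m = 0 := by
      rw [← hz, ← h2, MvPolynomial.eval_eq']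
      refine Finset.sum_congr rfl fun m _ => ?_
      rw [Fin.prod_univ_three]
      congr 1
      show (2 ^ K) ^ (m 0 + 15 * m 1 + 225 * m 2) =
        ((2 : ℤ) ^ K) ^ m 0 * ((2 : ℤ) ^ (15 * K)) ^ m 1 * ((2 : ℤ) ^ (225 * K)) ^ m 2
      rw [← pow_mul, ← pow_mul, ← pow_mul, ← pow_mul, ← pow_add, ← pow_add]
      congr 1
      ring
    rw [← Finset.add_sum_erase _ _ hms] at hval
    have hoth : |B * ∑ m ∈ P.support.erase ms, P.coeff m * B ^ e m| ≤
        (∑ m ∈ P.support.erase ms, ((P.coeff m).natAbs : ℤ)) * B ^ e ms := by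
      rw [Finset.mul_sum, Finset.sum_mul]
      refine (Finset.abs_sum_le_sum_abs _ _).trans (Finset.sum_le_sum fun m hm => ?_)
      rw [Finset.mem_erase] at hm
      have k1 : e m < e ms := by
        refine lt_of_le_of_ne (hmax m hm.2) fun hee => hm.1 (hinj m hm.2 ms hms hee)
      have k2 : B * (P.coeff m * B ^ e m) = P.coeff m * B ^ (e m + 1) := by ring
      rw [k2, abs_mul, abs_pow, abs_of_pos (lt_of_lt_of_le one_pos hB1), Int.natCast_natAbs]
      exact mul_le_mul_of_nonneg_left (pow_le_pow_right₀ hB1 k1) (abs_nonneg _)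
    have hn : (∑ m ∈ P.support.erase ms, ((P.coeff m).natAbs : ℤ)) + ((P.coeff ms).natAbs : ℤ) ≤ B := by
      have k1 : n1 P = (P.coeff ms).natAbs + ∑ m ∈ P.support.erase ms, (P.coeff m).natAbs := by
        unfold n1
        rw [← Finset.add_sum_erase _ _ hms]
      have k2 : n1 P ≤ 2 ^ K := h4.trans hM
      rw [k1] at k2
      have k3 : (((P.coeff ms).natAbs + ∑ m ∈ P.support.erase ms, (P.coeff m).natAbs : ℕ) : ℤ) ≤
          ((2 ^ K : ℕ) : ℤ) := by exact_mod_cast k2
      push_cast at k3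
      rw [hB]
      push_cast
      linarith
    have hc : 1 ≤ ((P.coeff ms).natAbs : ℤ) := by
      have k1 : P.coeff ms ≠ 0 := MvPolynomial.mem_support_iff.1 hms
      have k2 : 0 < (P.coeff ms).natAbs := Int.natAbs_pos.2 k1
      exact_mod_cast k2
    have hBe : 0 < B ^ e ms := pow_pos (lt_of_lt_of_le one_pos hB1) _
    have heq : B * ∑ m ∈ P.support.erase ms, P.coeff m * B ^ e m = -(B * (P.coeff ms * B ^ e ms)) := by
      have : ∑ m ∈ P.support.erase ms, P.coeff m * B ^ e m = -(P.coeff ms * B ^ e ms) := by linarith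
      rw [this]
      ring
    rw [heq, abs_neg, abs_mul, abs_mul, abs_of_pos hBe, abs_of_pos (lt_of_lt_of_le one_pos hB1),
      ← Int.natCast_natAbs (P.coeff ms)] at hoth
    have k5 : B * 1 ≤ B * ((P.coeff ms).natAbs : ℤ) := mul_le_mul_of_nonneg_left hc (by omega)
    have k6 : B * ((P.coeff ms).natAbs : ℤ) ≤ ∑ m ∈ P.support.erase ms, ((P.coeff m).natAbs : ℤ) := by
      rw [← mul_assoc] at hoth
      exact le_of_mul_le_mul_right hoth hBe
    linarith
  rw [h1, hP0, map_zero]

end IsPoly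

end Pool.Agent.H54.V
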