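/-
JOB VOR-SOSCHK.  Kernel-fast check of the two polynomial identities of a three-point certificate and its consequences.
Write computable functions `check1 check2 : SDPData → SOSData → Bool` (structural recursion, Nat/Int arithmetic only, to be
evaluated by `decide +kernel`; the numbers have up to 14·225·K bits, K = 256, which is fine for GMP: on my prototype the
kernel evaluates a block of 120 packed columns at the Kronecker point in about 2 seconds with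
  colA K W mask : List Nat → Nat → Nat → Nat | [], _, acc => acc
   | e :: es, N, acc => colA K W mask es (N >>> W) (acc + ((N &&& mask) <<< (K*e)))   -- e = a + 15 b + 225 c
and then squaring).  They must verify
 (i)  `id1 D S X Y Z = 0` resp. `id2 D S X Y Z = 0` at the integer point X = 2^K, Y = 2^(15K), Z = 2^(225K);
 (ii) degree conditions: in `Fo`, (k, cols): every list has length ≤ 8 - k (so Qk·pe·pe has total degree ≤ 2k+2(7-k) = 14),
      k ≤ 7; same for `Fz`; A: 1 ≤ k ≤ 12; b, q, qs have length ≤ 15; 0 < tD, 0 < uD;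
 (iii) the 1-norm bound (computed structurally, see `IsPoly` in J/Kron.lean; 1-norm of Qk is bounded by q_k with
      q_0 = 1, q_1 = 2, q_{k+2} = 4 q_{k+1} + 4 q_k) is ≤ 2^K.
Then `IsPoly.eq_zero` gives id1 = 0, id2 = 0 as real functions, and since S1R ≥ 0 (on the domain, all six permutations),
S2R ≥ 0, |remR l x y z| ≤ Σ|l_j| for x,y,z ∈ [-1,1] the two inequalities follow.
Choose K as you like (256 should do).  A full test certificate is in Pool/Agent/H54/V/Data/C4.lean (`C4.D`, `C4.S`); the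
checks `check1 C4.D C4.S = true`, `check2 C4.D C4.S = true` (put them in Data/T4.lean) must run in < 2 minutes each.

The identities themselves are checked in two steps, see J/SosPoly.lean.
-/
import Pool.Agent.H54.V.J.Kron
import Pool.Agent.H54.V.SDPDefs
set_option autoImplicit false
namespace Pool.Agent.H54.V

/-! ### computable functions -/

/-- exponents of the monomials -/
def sckE (D p q r : ℕ) : List ℕ := (mons D).map fun m => m.1 * p + m.2.1 * q + m.2.2 * r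

/-- value of a packed column -/
def sckCol : List ℕ → ℕ → ℕ → ℕ
  | [], _, acc => acc
  | e :: es, N, acc => sckCol es (N >>> 44) (acc + ((N % 17592186044416) <<< e))

/-- offset -/
def sckOff : List ℕ → ℕ → ℕ
  | [], acc => acc
  | e :: es, acc => sckOff es (acc + (8796093022208 <<< e))

def sckSq (a o : ℕ) : ℕ := (a - o + (o - a)) * (a - o + (o - a))

def sckSos (es : List ℕ) (o : ℕ) : List ℕ → ℕ → ℕ
  | [], acc => acc
  | N :: cs, acc => sckSos es o cs (acc + sckSq (sckCol es N 0) o)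

/-- sum of squares of the columns at `x = 2^p, y = 2^q, z = 2^r` -/
def sckS (D p q r : ℕ) (cols : List ℕ) : ℕ :=
  sckSos (sckE D p q r) (sckOff (sckE D p q r) 0) cols 0

/-- `2^p` as an integer -/
def sckP (p : ℕ) : ℤ := Int.ofNat (2 ^ p)

def sckS1 (S : SOSData) (p q r : ℕ) : ℤ :=
  S.tD ^ 2 * Int.ofNat (sckS 7 p q r S.s10)
  + S.tD * ((1 + sckP p) * (S.tN - S.tD * sckP p)) * Int.ofNat (sckS 6 p q r S.s11)
  + S.tD ^ 2 * gramR (sckP p) (sckP q) (sckP r) * Int.ofNat (sckS 5 p q r S.s1g)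
  + (S.tN - S.tD * sckP p) * (S.tN - S.tD * sckP q) * Int.ofNat (sckS 6 p q r S.s1p)

def sckS2 (S : SOSData) (p q r : ℕ) : ℤ :=
  S.uD ^ 2 * S.tD * Int.ofNat (sckS 7 p q r S.s20)
  + S.uD * S.tD * ((1 + sckP p) * (S.uN - S.uD * sckP p)) * Int.ofNat (sckS 6 p q r S.s2u)
  + S.uD ^ 2 * ((1 + sckP r) * (S.tN - S.tD * sckP r)) * Int.ofNat (sckS 6 p q r S.s2t)
  + S.uD ^ 2 * S.tD * gramR (sckP p) (sckP q) (sckP r) * Int.ofNat (sckS 5 p q r S.s2g)
  + S.tD * ((S.uN - S.uD * sckP p) * (S.uN - S.uD * sckP q)) * Int.ofNat (sckS 6 p q r S.s2p)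
  + S.uD * ((S.uN - S.uD * sckP p) * (S.tN - S.tD * sckP r)) * Int.ofNat (sckS 6 p q r S.s2q)

def sckRem : List ℕ → List ℤ → ℤ
  | e :: es, c :: cs => c * Int.ofNat (1 <<< e) + sckRem es cs
  | _, _ => 0

/-- value of `id1` at the Kronecker point -/
def sckZ1 (K : ℕ) (D : SDPData) (S : SOSData) : ℤ :=
  6 * S.tD ^ 2 * T1I D (sckP K) (sckP (15 * K)) (sckP (225 * K))
   - (sckS1 S K (15 * K) (225 * K) + sckS1 S (15 * K) K (225 * K) + sckS1 S K (225 * K) (15 * K)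
    + sckS1 S (15 * K) (225 * K) K + sckS1 S (225 * K) K (15 * K) + sckS1 S (225 * K) (15 * K) K)
   - sckRem (sckE 14 K (15 * K) (225 * K)) S.r1

/-- value of `id2` at the Kronecker point -/
def sckZ2 (K : ℕ) (D : SDPData) (S : SOSData) : ℤ :=
  2 * (S.uD ^ 2 * S.tD) * T2I D (sckP K) (sckP (15 * K)) (sckP (225 * K))
   - 11 * (sckS2 S K (15 * K) (225 * K) + sckS2 S (15 * K) K (225 * K))
   - sckRem (sckE 14 K (15 * K) (225 * K)) S.r2

/-! norms -/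

def nPe (c : List ℤ) : ℕ := (c.map Int.natAbs).sum

def qn : ℕ → ℕ
  | 0 => 1
  | 1 => 2
  | (k + 2) => 4 * qn (k + 1) + 4 * qn k

def nT1 (D : SDPData) : ℕ :=
  3 * nPe D.b + 2 * (D.Fo.map fun p => 3 * (qn p.1 * (p.2.map fun c => nPe c.1 * nPe c.1).sum)).sum

def nT2 (D : SDPData) : ℕ :=
  11 * nPe D.q + nPe D.qs + nPe D.qs
  + (D.Fo.map fun p =>
      22 * 2 ^ p.1 * (p.2.map fun c => nPe c.1 ^ 2).sum
      + 22 * qn p.1 * (p.2.map fun c => nPe c.1 * nPe c.2).sum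
      + 22 * qn p.1 * (p.2.map fun c => nPe c.1 * nPe c.2).sum
      + 2 ^ p.1 * (p.2.map fun c => nPe c.2 ^ 2).sum
      + 2 ^ p.1 * (p.2.map fun c => nPe c.2 ^ 2).sum).sum
  + (D.Fz.map fun p =>
      22 * qn p.1 * (p.2.map fun c => nPe c * nPe c).sum
      + 2 ^ p.1 * (p.2.map fun c => nPe c ^ 2).sum
      + 2 ^ p.1 * (p.2.map fun c => nPe c ^ 2).sum).sum
  + (D.A.map fun p =>
      22 * ((p.2.map fun (c : ℤ × ℤ) => c.1 ^ 2).sum).natAbs * nPe (LPi p.1)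
      + 2 * ((p.2.map fun (c : ℤ × ℤ) => c.1 * c.2).sum).natAbs * (nPe (LPi p.1) + nPe (LPi p.1))).sum
  + 110 * nPe D.b + 11 * D.kap.natAbs

def nCol (D : ℕ) : ℕ := (mons D).length * 8796093022208

def nSos (D : ℕ) (cols : List ℕ) : ℕ := cols.length * nCol D ^ 2

def nS1 (S : SOSData) : ℕ :=
  S.tD.natAbs ^ 2 * nSos 7 S.s10 + S.tD.natAbs * (2 * (S.tN.natAbs + S.tD.natAbs)) * nSos 6 S.s11
  + S.tD.natAbs ^ 2 * 6 * nSos 5 S.s1g
  + (S.tN.natAbs + S.tD.natAbs) * (S.tN.natAbs + S.tD.natAbs) * nSos 6 S.s1p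

def nS2 (S : SOSData) : ℕ :=
  S.uD.natAbs ^ 2 * S.tD.natAbs * nSos 7 S.s20
  + S.uD.natAbs * S.tD.natAbs * (2 * (S.uN.natAbs + S.uD.natAbs)) * nSos 6 S.s2u
  + S.uD.natAbs ^ 2 * (2 * (S.tN.natAbs + S.tD.natAbs)) * nSos 6 S.s2t
  + S.uD.natAbs ^ 2 * S.tD.natAbs * 6 * nSos 5 S.s2g
  + S.tD.natAbs * ((S.uN.natAbs + S.uD.natAbs) * (S.uN.natAbs + S.uD.natAbs)) * nSos 6 S.s2p
  + S.uD.natAbs * ((S.uN.natAbs + S.uD.natAbs) * (S.tN.natAbs + S.tD.natAbs)) * nSos 6 S.s2q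

def nZ1 (D : SDPData) (S : SOSData) : ℕ :=
  6 * S.tD.natAbs ^ 2 * nT1 D + (nS1 S + nS1 S + nS1 S + nS1 S + nS1 S + nS1 S) + nPe S.r1

def nZ2 (D : SDPData) (S : SOSData) : ℕ :=
  2 * (S.uD.natAbs ^ 2 * S.tD.natAbs) * nT2 D + 11 * (nS2 S + nS2 S) + nPe S.r2

/-- degree conditions for `Fo` and `b` -/
def okF (D : SDPData) : Bool :=
  decide (D.b.length ≤ 15) && D.Fo.all fun p => decide (p.1 ≤ 7) && p.2.all fun c =>
    decide (c.1.length ≤ 7 - p.1 + 1) && decide (c.2.length ≤ 7 - p.1 + 1)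

/-- the other degree conditions -/
def okG (D : SDPData) : Bool :=
  decide (D.q.length ≤ 15) && decide (D.qs.length ≤ 15) &&
  (D.Fz.all fun p => decide (p.1 ≤ 7) && p.2.all fun c => decide (c.length ≤ 7 - p.1 + 1)) &&
  D.A.all fun p => decide ((LPi p.1).length ≤ 15)

def check1 (D : SDPData) (S : SOSData) : Bool :=
  decide (0 < S.tD) && okF D && decide (nZ1 D S ≤ 2 ^ 160) && decide (sckZ1 160 D S = 0)

def check2 (D : SDPData) (S : SOSData) : Bool :=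
  decide (0 < S.tD) && decide (0 < S.uD) && okF D && okG D && decide (nZ2 D S ≤ 2 ^ 160) &&
    decide (sckZ2 160 D S = 0)

/-! ### values at the Kronecker point -/

theorem sckP_eq (p : ℕ) : sckP p = 2 ^ p := by
  unfold sckP
  simp

theorem sckSq_eq (a o : ℕ) : ((sckSq a o : ℕ) : ℤ) = ((a : ℤ) - o) ^ 2 := by
  unfold sckSq
  rcases le_total a o with h | h
  · rw [Nat.sub_eq_zero_of_le h, zero_add]
    push_cast [Nat.cast_sub h]
    ring
  · rw [Nat.sub_eq_zero_of_le h, add_zero]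
    push_cast [Nat.cast_sub h]
    ring

theorem sckOff_eq (es : List ℕ) : ∀ acc : ℕ,
    sckOff es acc = acc + 8796093022208 * (es.map fun e => 2 ^ e).sum := by
  induction es with
  | nil => intro acc; simp [sckOff]
  | cons e es ih =>
    intro acc
    unfold sckOff
    rw [ih, List.map_cons, List.sum_cons, Nat.shiftLeft_eq]
    ring

theorem sckCol_eq {α : Type*} (L : List α) (g : α → ℕ) (N : ℕ) : ∀ (i acc : ℕ),
    ((sckCol (L.map g) (N >>> (44 * i)) acc : ℕ) : ℤ) =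
      acc + ((L.zipIdx i).map fun m => (dig N m.2) * 2 ^ g m.1).sum +
        8796093022208 * ((L.map g).map fun e => (2 : ℤ) ^ e).sum := by
  induction L with
  | nil => intro i acc; simp [sckCol]
  | cons a L ih =>
    intro i acc
    rw [List.map_cons]
    unfold sckCol
    have h1 : (N >>> (44 * i)) >>> 44 = N >>> (44 * (i + 1)) := by
      rw [← Nat.shiftRight_add]
      congr 1
    rw [h1, ih, List.zipIdx_cons, List.map_cons, List.sum_cons, List.map_cons, List.sum_cons,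
      Nat.shiftLeft_eq]
    unfold dig
    push_cast
    ring

theorem sckColR (D N p q r : ℕ) : colR D N ((2 : ℤ) ^ p) (2 ^ q) (2 ^ r) =
    ((sckCol (sckE D p q r) N 0 : ℕ) : ℤ) - ((sckOff (sckE D p q r) 0 : ℕ) : ℤ) := by
  unfold sckE
  have h1 := sckCol_eq (mons D) (fun m => m.1 * p + m.2.1 * q + m.2.2 * r) N 0 0
  rw [Nat.mul_zero, Nat.shiftRight_zero] at h1
  have h3 : (((List.map (fun e => (2 : ℕ) ^ e)
      (List.map (fun m => m.1 * p + m.2.1 * q + m.2.2 * r) (mons D))).sum : ℕ) : ℤ) =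
      (List.map (fun e => (2 : ℤ) ^ e)
      (List.map (fun m => m.1 * p + m.2.1 * q + m.2.2 * r) (mons D))).sum := by
    rw [Nat.cast_list_sum, List.map_map]
    refine congrArg List.sum (List.map_congr_left fun e _ => ?_)
    exact Nat.cast_pow 2 e
  have h2 : ∀ m : (ℕ × ℕ × ℕ) × ℕ, dig N m.2 * (2 : ℤ) ^ (m.1.1 * p + m.1.2.1 * q + m.1.2.2 * r) =
      ((dig N m.2 : ℤ) : ℤ) * (((2 : ℤ) ^ p) ^ m.1.1 * (2 ^ q) ^ m.1.2.1 * (2 ^ r) ^ m.1.2.2) := by
    intro m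
    rw [pow_add, pow_add, ← pow_mul, ← pow_mul, ← pow_mul, mul_comm p, mul_comm q, mul_comm r]
  rw [h1, sckOff_eq, Nat.cast_add, Nat.cast_mul, h3]
  unfold colR
  simp only [h2, Int.cast_id]
  push_cast
  ring

theorem sckSos_eq (D p q r : ℕ) (cols : List ℕ) : ∀ acc : ℕ,
    ((sckSos (sckE D p q r) (sckOff (sckE D p q r) 0) cols acc : ℕ) : ℤ) =
      acc + sosR D cols ((2 : ℤ) ^ p) (2 ^ q) (2 ^ r) := by
  induction cols with
  | nil => intro acc; simp [sckSos, sosR]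
  | cons N cols ih =>
    intro acc
    unfold sckSos
    rw [ih]
    have h1 : sosR D (N :: cols) ((2 : ℤ) ^ p) (2 ^ q) (2 ^ r) =
        colR D N ((2 : ℤ) ^ p) (2 ^ q) (2 ^ r) ^ 2 + sosR D cols ((2 : ℤ) ^ p) (2 ^ q) (2 ^ r) := by
      unfold sosR
      rw [List.map_cons, List.sum_cons]
    rw [h1, sckColR]
    push_cast
    rw [sckSq_eq]
    ring

theorem sckS_eq (D p q r : ℕ) (cols : List ℕ) :
    Int.ofNat (sckS D p q r cols) = sosR D cols ((2 : ℤ) ^ p) (2 ^ q) (2 ^ r) := by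
  have h := sckSos_eq D p q r cols 0
  rw [Nat.cast_zero, zero_add] at h
  exact h

theorem sckS1_eq (S : SOSData) (p q r : ℕ) :
    sckS1 S p q r = S1R S ((2 : ℤ) ^ p) (2 ^ q) (2 ^ r) := by
  unfold sckS1 S1R
  simp only [sckS_eq, sckP_eq, Int.cast_id]

theorem sckS2_eq (S : SOSData) (p q r : ℕ) :
    sckS2 S p q r = S2R S ((2 : ℤ) ^ p) (2 ^ q) (2 ^ r) := by
  unfold sckS2 S2R
  simp only [sckS_eq, sckP_eq, Int.cast_id]

theorem sckRem_aux {α : Type*} (L : List α) (g : α → ℕ) : ∀ l : List ℤ,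
    sckRem (L.map g) l = ((L.zip l).map fun m => m.2 * 2 ^ g m.1).sum := by
  induction L with
  | nil => intro l; simp [sckRem]
  | cons a L ih =>
    intro l
    cases l with
    | nil => simp [sckRem]
    | cons c l =>
      rw [List.map_cons, List.zip_cons_cons, List.map_cons, List.sum_cons]
      unfold sckRem
      rw [ih]
      congr 1
      show c * ((1 <<< g a : ℕ) : ℤ) = c * 2 ^ g a
      rw [Nat.shiftLeft_eq]
      simp

theorem sckRem_eq (p q r : ℕ) (l : List ℤ) :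
    sckRem (sckE 14 p q r) l = remR l ((2 : ℤ) ^ p) (2 ^ q) (2 ^ r) := by
  unfold sckE remR
  rw [sckRem_aux]
  congr 1
  refine List.map_congr_left fun m _ => ?_
  rw [pow_add, pow_add, ← pow_mul, ← pow_mul, ← pow_mul, mul_comm p, mul_comm q, mul_comm r]
  simp

theorem sckZ1_eq (K : ℕ) (D : SDPData) (S : SOSData) :
    sckZ1 K D S = id1 D S ((2 : ℤ) ^ K) (2 ^ (15 * K)) (2 ^ (225 * K)) := by
  unfold sckZ1 id1
  simp only [sckS1_eq, sckP_eq, sckRem_eq, Int.cast_id]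

theorem sckZ2_eq (K : ℕ) (D : SDPData) (S : SOSData) :
    sckZ2 K D S = id2 D S ((2 : ℤ) ^ K) (2 ^ (15 * K)) (2 ^ (225 * K)) := by
  unfold sckZ2 id2
  simp only [sckS2_eq, sckP_eq, sckRem_eq, Int.cast_id]

/-! ### degree and norm -/

section ip
variable {K : ℕ} {f g h : ℝ → ℝ → ℝ → ℝ} {a b c : ℤ}

theorem ipC (c : ℤ) : IsPoly K (fun _ _ _ => (c : ℝ)) (Int.cast c : ℤ) 0 c.natAbs := by
  rw [Int.cast_id]
  exact IsPoly.const c

theorem ipN (r : ℝ) (c : ℤ) (n : ℕ) (h : (c : ℝ) = r) (h2 : c.natAbs = n) :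
    IsPoly K (fun _ _ _ => r) c 0 n := by
  subst h
  subst h2
  exact IsPoly.const c

theorem ipPe (hf : IsPoly K f a 1 1) (l : List ℤ) (n : ℕ) (hc : l.length ≤ n + 1) :
    IsPoly K (fun x y t => pe l (f x y t)) (pe l a) n (nPe l) :=
  (IsPoly.pe_comp l hf).mono (by omega) le_rfl

theorem ipT (hf : IsPoly K f a 1 1) (hg : IsPoly K g b 1 1) (hh : IsPoly K h c 1 1) :
    IsPoly K (fun x y t => h x y t - f x y t * g x y t) (c - a * b) 2 2 :=
  (hh.sub (hf.mul hg)).mono (by norm_num) (by norm_num)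

theorem ipO (hf : IsPoly K f a 1 1) :
    IsPoly K (fun x y t => 1 - f x y t ^ 2) (1 - a ^ 2) 2 2 :=
  ((ipN 1 1 1 (by norm_num) rfl).sub (hf.pow 2)).mono (by norm_num) (by norm_num)

theorem ipQk (hf : IsPoly K f a 1 1) (hg : IsPoly K g b 1 1) (hh : IsPoly K h c 1 1) (k : ℕ) :
    IsPoly K (fun x y t => Qk k (f x y t) (g x y t) (h x y t)) (Qk k a b c) (2 * k) (qn k) := by
  induction k using Nat.twoStepInduction with
  | zero => exact ipN 1 1 1 (by norm_num) rfl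
  | one => exact ipT hf hg hh
  | more k ih1 ih2 =>
    have e1 := ((ipN 2 2 2 (by norm_num) rfl).mul (ipT hf hg hh)).mul ih2
    have e2 := ((ipO hf).mul (ipO hg)).mul ih1
    refine (e1.sub e2).mono (by omega) ?_
    show 2 * 2 * qn (k + 1) + 2 * 2 * qn k ≤ 4 * qn (k + 1) + 4 * qn k
    exact le_rfl

/-- one column term -/
theorem ipCol2 {α : Type*} (l : List α) (u v : α → List ℤ) (k : ℕ) (hk : k ≤ 7)
    (hu : ∀ p ∈ l, (u p).length ≤ 7 - k + 1) (hv : ∀ p ∈ l, (v p).length ≤ 7 - k + 1)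
    (hf : IsPoly K f a 1 1) (hg : IsPoly K g b 1 1) {F : ℝ → ℝ → ℝ → ℝ} {z : ℤ} {M : ℕ}
    (hF : IsPoly K F z (2 * k) M) :
    IsPoly K (fun x y t => F x y t * (l.map fun p => pe (u p) (f x y t) * pe (v p) (g x y t)).sum)
      (z * (l.map fun p => pe (u p) a * pe (v p) b).sum) 14
      (M * (l.map fun p => nPe (u p) * nPe (v p)).sum) := by
  have h1 := IsPoly.listSum (K := K) l (fun p x y t => pe (u p) (f x y t) * pe (v p) (g x y t))
    (fun p => pe (u p) a * pe (v p) b) (7 - k + (7 - k)) (fun p => nPe (u p) * nPe (v p))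
    (fun p hp => (ipPe hf (u p) (7 - k) (hu p hp)).mul (ipPe hg (v p) (7 - k) (hv p hp)))
  exact (hF.mul h1).mono (by omega) le_rfl

theorem ipColS {α : Type*} (l : List α) (u : α → List ℤ) (k : ℕ) (hk : k ≤ 7)
    (hu : ∀ p ∈ l, (u p).length ≤ 7 - k + 1)
    (hf : IsPoly K f a 1 1) {F : ℝ → ℝ → ℝ → ℝ} {z : ℤ} {M : ℕ}
    (hF : IsPoly K F z (2 * k) M) :
    IsPoly K (fun x y t => F x y t * (l.map fun p => pe (u p) (f x y t) ^ 2).sum)
      (z * (l.map fun p => pe (u p) a ^ 2).sum) 14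
      (M * (l.map fun p => nPe (u p) ^ 2).sum) := by
  have h1 := IsPoly.listSum (K := K) l (fun p x y t => pe (u p) (f x y t) ^ 2)
    (fun p => pe (u p) a ^ 2) (2 * (7 - k)) (fun p => nPe (u p) ^ 2)
    (fun p hp => (ipPe hf (u p) (7 - k) (hu p hp)).pow 2)
  exact (hF.mul h1).mono (by omega) le_rfl

theorem ipT1 (D : SDPData) (hD : okF D = true) :
    IsPoly K (fun x y z => T1I D x y z) (T1I D (2 ^ K) (2 ^ (15 * K)) (2 ^ (225 * K))) 14 (nT1 D) := by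
  unfold okF at hD
  simp only [Bool.and_eq_true, decide_eq_true_eq, List.all_eq_true] at hD
  obtain ⟨hb, hF⟩ := hD
  have hx : IsPoly K (fun x _ _ => x) (2 ^ K) 1 1 := IsPoly.vx
  have hy : IsPoly K (fun _ y _ => y) (2 ^ (15 * K)) 1 1 := IsPoly.vy
  have hz : IsPoly K (fun _ _ t => t) (2 ^ (225 * K)) 1 1 := IsPoly.vt
  have h1 := ((ipPe hx D.b 14 hb).add (ipPe hy D.b 14 hb)).add (ipPe hz D.b 14 hb)
  have h2 := IsPoly.listSum (K := K) D.Fo (fun p x y z =>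
      Qk p.1 x y z * (p.2.map fun c => pe c.1 x * pe c.1 y).sum
      + Qk p.1 y z x * (p.2.map fun c => pe c.1 y * pe c.1 z).sum
      + Qk p.1 z x y * (p.2.map fun c => pe c.1 z * pe c.1 x).sum)
    (fun p => Qk p.1 (2 ^ K) (2 ^ (15 * K)) (2 ^ (225 * K)) *
        (p.2.map fun c => pe c.1 (2 ^ K : ℤ) * pe c.1 (2 ^ (15 * K))).sum
      + Qk p.1 (2 ^ (15 * K)) (2 ^ (225 * K)) (2 ^ K) *
        (p.2.map fun c => pe c.1 (2 ^ (15 * K) : ℤ) * pe c.1 (2 ^ (225 * K))).sum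
      + Qk p.1 (2 ^ (225 * K)) (2 ^ K) (2 ^ (15 * K)) *
        (p.2.map fun c => pe c.1 (2 ^ (225 * K) : ℤ) * pe c.1 (2 ^ K)).sum)
    14 (fun p => 3 * (qn p.1 * (p.2.map fun c => nPe c.1 * nPe c.1).sum))
    (fun p hp => by
      obtain ⟨hk, hc⟩ := hF p hp
      have hu : ∀ c ∈ p.2, (c.1).length ≤ 7 - p.1 + 1 := fun c hc' => (hc c hc').1
      have k1 := ipCol2 p.2 (fun c => c.1) (fun c => c.1) p.1 hk hu hu hx hy (ipQk hx hy hz p.1)
      have k2 := ipCol2 p.2 (fun c => c.1) (fun c => c.1) p.1 hk hu hu hy hz (ipQk hy hz hx p.1)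
      have k3 := ipCol2 p.2 (fun c => c.1) (fun c => c.1) p.1 hk hu hu hz hx (ipQk hz hx hy p.1)
      refine ((k1.add k2).add k3).mono (by omega) (le_of_eq ?_)
      ring)
  have h3 := h1.sub ((ipN 2 2 2 (by norm_num) rfl).mul h2)
  refine h3.mono (by omega) (le_of_eq ?_)
  unfold nT1
  ring

theorem ipT2 (D : SDPData) (hD : okF D = true) (hG : okG D = true) :
    IsPoly K (fun u v t => T2I D u v t) (T2I D (2 ^ K) (2 ^ (15 * K)) (2 ^ (225 * K))) 14 (nT2 D) := by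
  unfold okF at hD
  unfold okG at hG
  simp only [Bool.and_eq_true, decide_eq_true_eq, List.all_eq_true] at hD hG
  obtain ⟨hb, hF⟩ := hD
  obtain ⟨⟨⟨hq, hqs⟩, hFz⟩, hA⟩ := hG
  have hu : IsPoly K (fun x _ _ => x) (2 ^ K) 1 1 := IsPoly.vx
  have hv : IsPoly K (fun _ y _ => y) (2 ^ (15 * K)) 1 1 := IsPoly.vy
  have ht : IsPoly K (fun _ _ t => t) (2 ^ (225 * K)) 1 1 := IsPoly.vt
  have n22 : IsPoly K (fun _ _ _ => (22 : ℝ)) 22 0 22 := ipN 22 22 22 (by norm_num) rfl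
  have n2 : IsPoly K (fun _ _ _ => (2 : ℝ)) 2 0 2 := ipN 2 2 2 (by norm_num) rfl
  have n11 : IsPoly K (fun _ _ _ => (11 : ℝ)) 11 0 11 := ipN 11 11 11 (by norm_num) rfl
  have n110 : IsPoly K (fun _ _ _ => (110 : ℝ)) 110 0 110 := ipN 110 110 110 (by norm_num) rfl
  have pO : ∀ {f : ℝ → ℝ → ℝ → ℝ} {a : ℤ} (hf : IsPoly K f a 1 1) (k : ℕ),
      IsPoly K (fun x y t => (1 - f x y t ^ 2) ^ k) ((1 - a ^ 2) ^ k) (2 * k) (2 ^ k) := fun hf k =>
    ((ipO hf).pow k).mono (by omega) le_rfl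
  have pO22 : ∀ {f : ℝ → ℝ → ℝ → ℝ} {a : ℤ} (hf : IsPoly K f a 1 1) (k : ℕ),
      IsPoly K (fun x y t => 22 * (1 - f x y t ^ 2) ^ k) (22 * (1 - a ^ 2) ^ k) (2 * k) (22 * 2 ^ k) :=
    fun hf k => (n22.mul (pO hf k)).mono (by omega) le_rfl
  have pQ22 : ∀ {f g h : ℝ → ℝ → ℝ → ℝ} {a b c : ℤ} (hf : IsPoly K f a 1 1) (hg : IsPoly K g b 1 1)
      (hh : IsPoly K h c 1 1) (k : ℕ), IsPoly K (fun x y t => 22 * Qk k (f x y t) (g x y t) (h x y t))
      (22 * Qk k a b c) (2 * k) (22 * qn k) := fun hf hg hh k =>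
    (n22.mul (ipQk hf hg hh k)).mono (by omega) le_rfl
  have h1 := ((n11.mul (ipPe ht D.q 14 hq)).add (ipPe hu D.qs 14 hqs)).add (ipPe hv D.qs 14 hqs)
  have h2 := IsPoly.listSum (K := K) D.Fo (fun p u v t =>
      22 * (1 - t ^ 2) ^ p.1 * (p.2.map fun c => pe c.1 t ^ 2).sum
      + 22 * Qk p.1 t u v * (p.2.map fun c => pe c.1 t * pe c.2 u).sum
      + 22 * Qk p.1 t v u * (p.2.map fun c => pe c.1 t * pe c.2 v).sum
      + (1 - u ^ 2) ^ p.1 * (p.2.map fun c => pe c.2 u ^ 2).sum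
      + (1 - v ^ 2) ^ p.1 * (p.2.map fun c => pe c.2 v ^ 2).sum)
    (fun p => 22 * (1 - (2 ^ (225 * K)) ^ 2) ^ p.1 * (p.2.map fun c => pe c.1 (2 ^ (225 * K) : ℤ) ^ 2).sum
      + 22 * Qk p.1 (2 ^ (225 * K)) (2 ^ K) (2 ^ (15 * K)) *
        (p.2.map fun c => pe c.1 (2 ^ (225 * K) : ℤ) * pe c.2 (2 ^ K)).sum
      + 22 * Qk p.1 (2 ^ (225 * K)) (2 ^ (15 * K)) (2 ^ K) *
        (p.2.map fun c => pe c.1 (2 ^ (225 * K) : ℤ) * pe c.2 (2 ^ (15 * K))).sum
      + (1 - (2 ^ K) ^ 2) ^ p.1 * (p.2.map fun c => pe c.2 (2 ^ K : ℤ) ^ 2).sum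
      + (1 - (2 ^ (15 * K)) ^ 2) ^ p.1 * (p.2.map fun c => pe c.2 (2 ^ (15 * K) : ℤ) ^ 2).sum)
    14 (fun p =>
      22 * 2 ^ p.1 * (p.2.map fun c => nPe c.1 ^ 2).sum
      + 22 * qn p.1 * (p.2.map fun c => nPe c.1 * nPe c.2).sum
      + 22 * qn p.1 * (p.2.map fun c => nPe c.1 * nPe c.2).sum
      + 2 ^ p.1 * (p.2.map fun c => nPe c.2 ^ 2).sum
      + 2 ^ p.1 * (p.2.map fun c => nPe c.2 ^ 2).sum)
    (fun p hp => by
      obtain ⟨hk, hc⟩ := hF p hp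
      have c1 : ∀ c ∈ p.2, (c.1).length ≤ 7 - p.1 + 1 := fun c hc' => (hc c hc').1
      have c2 : ∀ c ∈ p.2, (c.2).length ≤ 7 - p.1 + 1 := fun c hc' => (hc c hc').2
      have k1 := ipColS p.2 (fun c => c.1) p.1 hk c1 ht (pO22 ht p.1)
      have k2 := ipCol2 p.2 (fun c => c.1) (fun c => c.2) p.1 hk c1 c2 ht hu (pQ22 ht hu hv p.1)
      have k3 := ipCol2 p.2 (fun c => c.1) (fun c => c.2) p.1 hk c1 c2 ht hv (pQ22 ht hv hu p.1)
      have k4 := ipColS p.2 (fun c => c.2) p.1 hk c2 hu (pO hu p.1)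
      have k5 := ipColS p.2 (fun c => c.2) p.1 hk c2 hv (pO hv p.1)
      exact ((((k1.add k2).add k3).add k4).add k5).mono (by omega) le_rfl)
  have h3 := IsPoly.listSum (K := K) D.Fz (fun p u v t =>
      22 * Qk p.1 u v t * (p.2.map fun c => pe c u * pe c v).sum
      + (1 - u ^ 2) ^ p.1 * (p.2.map fun c => pe c u ^ 2).sum
      + (1 - v ^ 2) ^ p.1 * (p.2.map fun c => pe c v ^ 2).sum)
    (fun p => 22 * Qk p.1 (2 ^ K) (2 ^ (15 * K)) (2 ^ (225 * K)) *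
        (p.2.map fun c => pe c (2 ^ K : ℤ) * pe c (2 ^ (15 * K))).sum
      + (1 - (2 ^ K) ^ 2) ^ p.1 * (p.2.map fun c => pe c (2 ^ K : ℤ) ^ 2).sum
      + (1 - (2 ^ (15 * K)) ^ 2) ^ p.1 * (p.2.map fun c => pe c (2 ^ (15 * K) : ℤ) ^ 2).sum)
    14 (fun p =>
      22 * qn p.1 * (p.2.map fun c => nPe c * nPe c).sum
      + 2 ^ p.1 * (p.2.map fun c => nPe c ^ 2).sum
      + 2 ^ p.1 * (p.2.map fun c => nPe c ^ 2).sum)
    (fun p hp => by
      obtain ⟨hk, hc⟩ := hFz p hp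
      have k1 := ipCol2 p.2 (fun c => c) (fun c => c) p.1 hk hc hc hu hv (pQ22 hu hv ht p.1)
      have k2 := ipColS p.2 (fun c => c) p.1 hk hc hu (pO hu p.1)
      have k3 := ipColS p.2 (fun c => c) p.1 hk hc hv (pO hv p.1)
      exact ((k1.add k2).add k3).mono (by omega) le_rfl)
  have h4 := IsPoly.listSum (K := K) D.A (fun p u v t =>
      22 * (((p.2.map fun c => c.1 ^ 2).sum : ℤ) : ℝ) * pe (LPi p.1) t
      + 2 * (((p.2.map fun c => c.1 * c.2).sum : ℤ) : ℝ) * (pe (LPi p.1) u + pe (LPi p.1) v))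
    (fun p => 22 * (((p.2.map fun c => c.1 ^ 2).sum : ℤ) : ℤ) * pe (LPi p.1) (2 ^ (225 * K))
      + 2 * (((p.2.map fun c => c.1 * c.2).sum : ℤ) : ℤ) *
        (pe (LPi p.1) (2 ^ K) + pe (LPi p.1) (2 ^ (15 * K))))
    14 (fun p =>
      22 * ((p.2.map fun (c : ℤ × ℤ) => c.1 ^ 2).sum).natAbs * nPe (LPi p.1)
      + 2 * ((p.2.map fun (c : ℤ × ℤ) => c.1 * c.2).sum).natAbs * (nPe (LPi p.1) + nPe (LPi p.1)))
    (fun p hp => by
      have hl := hA p hp
      have k1 := (n22.mul (ipC (K := K) ((p.2.map fun c => c.1 ^ 2).sum))).mul (ipPe ht (LPi p.1) 14 hl)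
      have k2 := (n2.mul (ipC (K := K) ((p.2.map fun c => c.1 * c.2).sum))).mul
        ((ipPe hu (LPi p.1) 14 hl).add (ipPe hv (LPi p.1) 14 hl))
      exact (k1.add k2).mono (by omega) le_rfl)
  have h5 := n110.mul (ipPe ht D.b 14 hb)
  have h6 := n11.mul (ipC (K := K) D.kap)
  exact (((((h1.sub h2).sub h3).sub h4).sub h5).sub h6).mono (by omega) le_rfl

theorem mons_deg (D : ℕ) (m : ℕ × ℕ × ℕ) (hm : m ∈ mons D) : m.1 + m.2.1 + m.2.2 ≤ D := by
  unfold mons at hm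
  simp only [List.mem_flatMap, List.mem_map, List.mem_range] at hm
  obtain ⟨s, hs, i, hi, j, hj, rfl⟩ := hm
  simp only
  omega

theorem ipMon (hf : IsPoly K f a 1 1) (hg : IsPoly K g b 1 1) (hh : IsPoly K h c 1 1) (i j k d : ℕ)
    (hd : i + j + k ≤ d) : IsPoly K (fun x y t => f x y t ^ i * g x y t ^ j * h x y t ^ k)
      (a ^ i * b ^ j * c ^ k) d 1 := by
  refine (((hf.pow i).mul (hg.pow j)).mul (hh.pow k)).mono (by omega) ?_
  rw [one_pow, one_pow, one_pow]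
  exact le_rfl

theorem dig_abs (N j : ℕ) : (dig N j).natAbs ≤ 8796093022208 := by
  have h1 : ((N >>> (44 * j)) % 2 ^ 44) < 2 ^ 44 := Nat.mod_lt _ (by positivity)
  unfold dig
  omega

theorem ipColR (hf : IsPoly K f a 1 1) (hg : IsPoly K g b 1 1) (hh : IsPoly K h c 1 1) (D N : ℕ) :
    IsPoly K (fun x y t => colR D N (f x y t) (g x y t) (h x y t)) (colR D N a b c) D (nCol D) := by
  have h1 := IsPoly.listSum (K := K) (mons D).zipIdx (fun m x y t => ((dig N m.2 : ℤ) : ℝ) *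
      (f x y t ^ m.1.1 * g x y t ^ m.1.2.1 * h x y t ^ m.1.2.2))
    (fun m => ((dig N m.2 : ℤ) : ℤ) * (a ^ m.1.1 * b ^ m.1.2.1 * c ^ m.1.2.2)) D
    (fun _ => 8796093022208)
    (fun m hm => by
      have k1 : m.1 ∈ mons D := by
        obtain ⟨m1, m2⟩ := m
        exact List.fst_mem_of_mem_zipIdx hm
      have k2 := mons_deg D m.1 k1
      exact ((ipC (K := K) (dig N m.2)).mul (ipMon hf hg hh m.1.1 m.1.2.1 m.1.2.2 D k2)).mono
        (by omega) (by rw [mul_one]; exact dig_abs N m.2))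
  refine h1.mono le_rfl (le_of_eq ?_)
  unfold nCol
  rw [List.map_const', List.sum_replicate, List.length_zipIdx, smul_eq_mul]

theorem ipSosR (hf : IsPoly K f a 1 1) (hg : IsPoly K g b 1 1) (hh : IsPoly K h c 1 1) (D : ℕ)
    (cols : List ℕ) :
    IsPoly K (fun x y t => sosR D cols (f x y t) (g x y t) (h x y t)) (sosR D cols a b c) (2 * D)
      (nSos D cols) := by
  have h1 := IsPoly.listSum (K := K) cols (fun N x y t => colR D N (f x y t) (g x y t) (h x y t) ^ 2)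
    (fun N => colR D N a b c ^ 2) (2 * D) (fun _ => nCol D ^ 2)
    (fun N _ => (ipColR hf hg hh D N).pow 2)
  refine h1.mono le_rfl (le_of_eq ?_)
  unfold nSos
  rw [List.map_const', List.sum_replicate, smul_eq_mul]

theorem zip_norm {α : Type*} (L : List α) : ∀ l : List ℤ,
    ((L.zip l).map fun m => m.2.natAbs).sum ≤ nPe l := by
  unfold nPe
  induction L with
  | nil => intro l; simp
  | cons a L ih =>
    intro l
    cases l with
    | nil => simp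
    | cons c l =>
      rw [List.zip_cons_cons, List.map_cons, List.sum_cons, List.map_cons, List.sum_cons]
      exact Nat.add_le_add_left (ih l) _

theorem ipRem (hf : IsPoly K f a 1 1) (hg : IsPoly K g b 1 1) (hh : IsPoly K h c 1 1) (l : List ℤ) :
    IsPoly K (fun x y t => remR l (f x y t) (g x y t) (h x y t)) (remR l a b c) 14 (nPe l) := by
  have h1 := IsPoly.listSum (K := K) ((mons 14).zip l) (fun m x y t => ((m.2 : ℤ) : ℝ) *
      (f x y t ^ m.1.1 * g x y t ^ m.1.2.1 * h x y t ^ m.1.2.2))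
    (fun m => ((m.2 : ℤ) : ℤ) * (a ^ m.1.1 * b ^ m.1.2.1 * c ^ m.1.2.2)) 14
    (fun m => m.2.natAbs)
    (fun m hm => by
      have k1 : m.1 ∈ mons 14 := by
        obtain ⟨m1, m2⟩ := m
        exact (List.of_mem_zip hm).1
      have k2 := mons_deg 14 m.1 k1
      exact ((ipC (K := K) m.2).mul (ipMon hf hg hh m.1.1 m.1.2.1 m.1.2.2 14 k2)).mono
        (by omega) (by rw [mul_one]))
  exact h1.mono le_rfl (zip_norm _ l)

theorem ipGram (hf : IsPoly K f a 1 1) (hg : IsPoly K g b 1 1) (hh : IsPoly K h c 1 1) :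
    IsPoly K (fun x y t => gramR (f x y t) (g x y t) (h x y t)) (gramR a b c) 3 6 := by
  have n1 : IsPoly K (fun _ _ _ => (1 : ℝ)) 1 0 1 := ipN 1 1 1 (by norm_num) rfl
  have n2 : IsPoly K (fun _ _ _ => (2 : ℝ)) 2 0 2 := ipN 2 2 2 (by norm_num) rfl
  exact ((((n1.add (((n2.mul hf).mul hg).mul hh)).sub (hf.pow 2)).sub (hg.pow 2)).sub (hh.pow 2)).mono
    (by omega) (by norm_num)

/-- `N - D x` -/
theorem ipLin (hf : IsPoly K f a 1 1) (N D : ℤ) :
    IsPoly K (fun x y t => (N : ℝ) - (D : ℝ) * f x y t) ((Int.cast N : ℤ) - (Int.cast D : ℤ) * a) 1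
      (N.natAbs + D.natAbs) :=
  ((ipC N).sub ((ipC D).mul hf)).mono (by omega) (by omega)

theorem ipPl (hf : IsPoly K f a 1 1) : IsPoly K (fun x y t => 1 + f x y t) (1 + a) 1 2 :=
  ((ipN 1 1 1 (by norm_num) rfl).add hf).mono (by omega) (by omega)

theorem ipS1 (hf : IsPoly K f a 1 1) (hg : IsPoly K g b 1 1) (hh : IsPoly K h c 1 1) (S : SOSData) :
    IsPoly K (fun x y t => S1R S (f x y t) (g x y t) (h x y t)) (S1R S a b c) 14 (nS1 S) := by
  have hD : IsPoly K (fun _ _ _ => (S.tD : ℝ)) (Int.cast S.tD : ℤ) 0 S.tD.natAbs := ipC S.tD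
  have k1 := (hD.pow 2).mul (ipSosR hf hg hh 7 S.s10)
  have k2 := (hD.mul ((ipPl hf).mul (ipLin hf S.tN S.tD))).mul (ipSosR hf hg hh 6 S.s11)
  have k3 := ((hD.pow 2).mul (ipGram hf hg hh)).mul (ipSosR hf hg hh 5 S.s1g)
  have k4 := ((ipLin hf S.tN S.tD).mul (ipLin hg S.tN S.tD)).mul (ipSosR hf hg hh 6 S.s1p)
  exact (((k1.add k2).add k3).add k4).mono (by omega) le_rfl

theorem ipS2 (hf : IsPoly K f a 1 1) (hg : IsPoly K g b 1 1) (hh : IsPoly K h c 1 1) (S : SOSData) :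
    IsPoly K (fun x y t => S2R S (f x y t) (g x y t) (h x y t)) (S2R S a b c) 14 (nS2 S) := by
  have hD : IsPoly K (fun _ _ _ => (S.tD : ℝ)) (Int.cast S.tD : ℤ) 0 S.tD.natAbs := ipC S.tD
  have hU : IsPoly K (fun _ _ _ => (S.uD : ℝ)) (Int.cast S.uD : ℤ) 0 S.uD.natAbs := ipC S.uD
  have k1 := ((hU.pow 2).mul hD).mul (ipSosR hf hg hh 7 S.s20)
  have k2 := ((hU.mul hD).mul ((ipPl hf).mul (ipLin hf S.uN S.uD))).mul (ipSosR hf hg hh 6 S.s2u)
  have k3 := ((hU.pow 2).mul ((ipPl hh).mul (ipLin hh S.tN S.tD))).mul (ipSosR hf hg hh 6 S.s2t)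
  have k4 := (((hU.pow 2).mul hD).mul (ipGram hf hg hh)).mul (ipSosR hf hg hh 5 S.s2g)
  have k5 := (hD.mul ((ipLin hf S.uN S.uD).mul (ipLin hg S.uN S.uD))).mul (ipSosR hf hg hh 6 S.s2p)
  have k6 := (hU.mul ((ipLin hf S.uN S.uD).mul (ipLin hh S.tN S.tD))).mul (ipSosR hf hg hh 6 S.s2q)
  exact (((((k1.add k2).add k3).add k4).add k5).add k6).mono (by omega) le_rfl

theorem ipId1 (D : SDPData) (S : SOSData) (hD : okF D = true) :
    IsPoly K (fun x y z => id1 D S x y z) (id1 D S (2 ^ K) (2 ^ (15 * K)) (2 ^ (225 * K))) 14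
      (nZ1 D S) := by
  have hx : IsPoly K (fun x _ _ => x) (2 ^ K) 1 1 := IsPoly.vx
  have hy : IsPoly K (fun _ y _ => y) (2 ^ (15 * K)) 1 1 := IsPoly.vy
  have hz : IsPoly K (fun _ _ t => t) (2 ^ (225 * K)) 1 1 := IsPoly.vt
  have n6 : IsPoly K (fun _ _ _ => (6 : ℝ)) 6 0 6 := ipN 6 6 6 (by norm_num) rfl
  have hd : IsPoly K (fun _ _ _ => (S.tD : ℝ)) (Int.cast S.tD : ℤ) 0 S.tD.natAbs := ipC S.tD
  have k1 := (n6.mul (hd.pow 2)).mul (ipT1 (K := K) D hD)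
  have k2 := (((((ipS1 hx hy hz S).add (ipS1 hy hx hz S)).add (ipS1 hx hz hy S)).add
    (ipS1 hy hz hx S)).add (ipS1 hz hx hy S)).add (ipS1 hz hy hx S)
  have k3 := ipRem hx hy hz S.r1
  exact ((k1.sub k2).sub k3).mono (by omega) le_rfl

theorem ipId2 (D : SDPData) (S : SOSData) (hD : okF D = true) (hG : okG D = true) :
    IsPoly K (fun x y z => id2 D S x y z) (id2 D S (2 ^ K) (2 ^ (15 * K)) (2 ^ (225 * K))) 14
      (nZ2 D S) := by
  have hx : IsPoly K (fun x _ _ => x) (2 ^ K) 1 1 := IsPoly.vx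
  have hy : IsPoly K (fun _ y _ => y) (2 ^ (15 * K)) 1 1 := IsPoly.vy
  have hz : IsPoly K (fun _ _ t => t) (2 ^ (225 * K)) 1 1 := IsPoly.vt
  have n2 : IsPoly K (fun _ _ _ => (2 : ℝ)) 2 0 2 := ipN 2 2 2 (by norm_num) rfl
  have n11 : IsPoly K (fun _ _ _ => (11 : ℝ)) 11 0 11 := ipN 11 11 11 (by norm_num) rfl
  have hd : IsPoly K (fun _ _ _ => (S.tD : ℝ)) (Int.cast S.tD : ℤ) 0 S.tD.natAbs := ipC S.tD
  have hu : IsPoly K (fun _ _ _ => (S.uD : ℝ)) (Int.cast S.uD : ℤ) 0 S.uD.natAbs := ipC S.uD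
  have k1 := (n2.mul ((hu.pow 2).mul hd)).mul (ipT2 (K := K) D hD hG)
  have k2 := n11.mul ((ipS2 hx hy hz S).add (ipS2 hy hx hz S))
  have k3 := ipRem hx hy hz S.r2
  exact ((k1.sub k2).sub k3).mono (by omega) le_rfl

end ip

/-! ### consequences -/

theorem sosR_nonneg (D : ℕ) (cols : List ℕ) (x y z : ℝ) : 0 ≤ sosR D cols x y z := by
  unfold sosR
  refine List.sum_nonneg fun a ha => ?_
  rw [List.mem_map] at ha
  obtain ⟨N, _, rfl⟩ := ha
  exact sq_nonneg _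

theorem zip_abs {α : Type*} (L : List α) (w : α → ℝ) (hw : ∀ a, |w a| ≤ 1) : ∀ l : List ℤ,
    |((L.zip l).map fun m => ((m.2 : ℤ) : ℝ) * w m.1).sum| ≤ ((l.map Int.natAbs).sum : ℕ) := by
  induction L with
  | nil =>
    intro l
    rw [List.zip_nil_left, List.map_nil, List.sum_nil, abs_zero]
    exact Nat.cast_nonneg _
  | cons a L ih =>
    intro l
    cases l with
    | nil => simp
    | cons c l =>
      rw [List.zip_cons_cons, List.map_cons, List.sum_cons, List.map_cons, List.sum_cons]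
      refine (abs_add_le _ _).trans ?_
      rw [Nat.cast_add]
      refine add_le_add ?_ (ih l)
      rw [abs_mul]
      have h1 : |((c : ℤ) : ℝ)| = ((c.natAbs : ℕ) : ℝ) := by
        rw [Nat.cast_natAbs, Int.cast_abs]
      show |((c : ℤ) : ℝ)| * |w a| ≤ _
      rw [h1]
      exact mul_le_of_le_one_right (Nat.cast_nonneg _) (hw a)

theorem remR_abs (l : List ℤ) (x y z : ℝ) (hx : |x| ≤ 1) (hy : |y| ≤ 1) (hz : |z| ≤ 1) :
    |remR l x y z| ≤ ((l.map Int.natAbs).sum : ℕ) := by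
  unfold remR
  refine zip_abs (mons 14) (fun m => x ^ m.1 * y ^ m.2.1 * z ^ m.2.2) (fun m => ?_) l
  have p : ∀ (w : ℝ) (n : ℕ), |w| ≤ 1 → |w| ^ n ≤ 1 := fun w n h => pow_le_one₀ (abs_nonneg w) h
  rw [abs_mul, abs_mul, abs_pow, abs_pow, abs_pow]
  have h1 := p x m.1 hx
  have h2 := p y m.2.1 hy
  have h3 := p z m.2.2 hz
  have h4 : |x| ^ m.1 * |y| ^ m.2.1 ≤ 1 := mul_le_one₀ h1 (by positivity) h2
  exact mul_le_one₀ h4 (by positivity) h3

theorem lin_nonneg {N D : ℤ} {x : ℝ} (hD : 0 < (D : ℝ)) (h : x ≤ (N : ℝ) / D) :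
    0 ≤ (N : ℝ) - (D : ℝ) * x := by
  rw [le_div_iff₀ hD] at h
  linarith

theorem S1R_nonneg (S : SOSData) (hD : 0 < (S.tD : ℝ)) (x y z : ℝ) (hx : -1 ≤ x)
    (hx' : 0 ≤ (S.tN : ℝ) - (S.tD : ℝ) * x) (hy' : 0 ≤ (S.tN : ℝ) - (S.tD : ℝ) * y)
    (hg : 0 ≤ gramR x y z) : 0 ≤ S1R S x y z := by
  unfold S1R
  have h1 := sosR_nonneg 7 S.s10 x y z
  have h2 := sosR_nonneg 6 S.s11 x y z
  have h3 := sosR_nonneg 5 S.s1g x y z
  have h4 := sosR_nonneg 6 S.s1p x y z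
  have h5 : 0 ≤ 1 + x := by linarith
  have k1 : 0 ≤ (S.tD : ℝ) ^ 2 * sosR 7 S.s10 x y z := mul_nonneg (sq_nonneg _) h1
  have k2 : 0 ≤ (S.tD : ℝ) * ((1 + x) * ((S.tN : ℝ) - (S.tD : ℝ) * x)) * sosR 6 S.s11 x y z :=
    mul_nonneg (mul_nonneg hD.le (mul_nonneg h5 hx')) h2
  have k3 : 0 ≤ (S.tD : ℝ) ^ 2 * gramR x y z * sosR 5 S.s1g x y z :=
    mul_nonneg (mul_nonneg (sq_nonneg _) hg) h3
  have k4 : 0 ≤ ((S.tN : ℝ) - (S.tD : ℝ) * x) * ((S.tN : ℝ) - (S.tD : ℝ) * y) * sosR 6 S.s1p x y z :=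
    mul_nonneg (mul_nonneg hx' hy') h4
  linarith

theorem S2R_nonneg (S : SOSData) (hD : 0 < (S.tD : ℝ)) (hU : 0 < (S.uD : ℝ)) (u v t : ℝ) (hu : -1 ≤ u)
    (ht : -1 ≤ t) (hu' : 0 ≤ (S.uN : ℝ) - (S.uD : ℝ) * u) (hv' : 0 ≤ (S.uN : ℝ) - (S.uD : ℝ) * v)
    (ht' : 0 ≤ (S.tN : ℝ) - (S.tD : ℝ) * t) (hg : 0 ≤ gramR u v t) : 0 ≤ S2R S u v t := by
  unfold S2R
  have h1 := sosR_nonneg 7 S.s20 u v t
  have h2 := sosR_nonneg 6 S.s2u u v t
  have h3 := sosR_nonneg 6 S.s2t u v t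
  have h4 := sosR_nonneg 5 S.s2g u v t
  have h5 := sosR_nonneg 6 S.s2p u v t
  have h6 := sosR_nonneg 6 S.s2q u v t
  have hU2 : 0 ≤ (S.uD : ℝ) ^ 2 := sq_nonneg _
  have g1 : 0 ≤ 1 + u := by linarith
  have g2 : 0 ≤ 1 + t := by linarith
  have k1 := mul_nonneg (mul_nonneg hU2 hD.le) h1
  have k2 := mul_nonneg (mul_nonneg (mul_nonneg hU.le hD.le) (mul_nonneg g1 hu')) h2
  have k3 := mul_nonneg (mul_nonneg hU2 (mul_nonneg g2 ht')) h3
  have k4 := mul_nonneg (mul_nonneg (mul_nonneg hU2 hD.le) hg) h4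
  have k5 := mul_nonneg (mul_nonneg hD.le (mul_nonneg hu' hv')) h5
  have k6 := mul_nonneg (mul_nonneg hU.le (mul_nonneg hu' ht')) h6
  linarith

theorem id1_sound (D : SDPData) (S : SOSData) (hD : 0 < S.tD) (x y z : ℝ) (hid : id1 D S x y z = 0)
    (hx : -1 ≤ x) (hx' : x ≤ (S.tN : ℝ) / S.tD) (hy : -1 ≤ y) (hy' : y ≤ (S.tN : ℝ) / S.tD)
    (hz : -1 ≤ z) (hz' : z ≤ (S.tN : ℝ) / S.tD) (h1 : (S.tN : ℝ) ≤ S.tD) (hg : 0 ≤ gramR x y z) :
    -(((S.r1.map Int.natAbs).sum : ℝ) / (6 * (S.tD : ℝ) ^ 2)) ≤ T1I D x y z := by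
  have hD' : 0 < (S.tD : ℝ) := by exact_mod_cast hD
  have hq : (S.tN : ℝ) / S.tD ≤ 1 := by
    rw [div_le_one hD']
    exact h1
  have ax : |x| ≤ 1 := abs_le.2 ⟨hx, hx'.trans hq⟩
  have ay : |y| ≤ 1 := abs_le.2 ⟨hy, hy'.trans hq⟩
  have az : |z| ≤ 1 := abs_le.2 ⟨hz, hz'.trans hq⟩
  have hr := remR_abs S.r1 x y z ax ay az
  have lx := lin_nonneg hD' hx'
  have ly := lin_nonneg hD' hy'
  have lz := lin_nonneg hD' hz'
  have g1 : gramR y x z = gramR x y z := by unfold gramR; ring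
  have g2 : gramR x z y = gramR x y z := by unfold gramR; ring
  have g3 : gramR y z x = gramR x y z := by unfold gramR; ring
  have g4 : gramR z x y = gramR x y z := by unfold gramR; ring
  have g5 : gramR z y x = gramR x y z := by unfold gramR; ring
  have s1 := S1R_nonneg S hD' x y z hx lx ly hg
  have s2 := S1R_nonneg S hD' y x z hy ly lx (by rw [g1]; exact hg)
  have s3 := S1R_nonneg S hD' x z y hx lx lz (by rw [g2]; exact hg)
  have s4 := S1R_nonneg S hD' y z x hy ly lz (by rw [g3]; exact hg)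
  have s5 := S1R_nonneg S hD' z x y hz lz lx (by rw [g4]; exact hg)
  have s6 := S1R_nonneg S hD' z y x hz lz ly (by rw [g5]; exact hg)
  have r1 := (abs_le.1 hr).1
  unfold id1 at hid
  have hD2 : 0 < 6 * (S.tD : ℝ) ^ 2 := by positivity
  rw [← neg_div, div_le_iff₀' hD2]
  linarith

theorem id2_sound (D : SDPData) (S : SOSData) (hD : 0 < S.tD) (hU : 0 < S.uD) (u v t : ℝ)
    (hid : id2 D S u v t = 0)
    (hu : -1 ≤ u) (hu' : u ≤ (S.uN : ℝ) / S.uD) (hv : -1 ≤ v) (hv' : v ≤ (S.uN : ℝ) / S.uD)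
    (ht : -1 ≤ t) (ht' : t ≤ (S.tN : ℝ) / S.tD) (h1 : (S.tN : ℝ) ≤ S.tD) (h2 : (S.uN : ℝ) ≤ S.uD)
    (hg : 0 ≤ gramR u v t) :
    -(((S.r2.map Int.natAbs).sum : ℝ) / (2 * ((S.uD : ℝ) ^ 2 * S.tD))) ≤ T2I D u v t := by
  have hD' : 0 < (S.tD : ℝ) := by exact_mod_cast hD
  have hU' : 0 < (S.uD : ℝ) := by exact_mod_cast hU
  have hq : (S.tN : ℝ) / S.tD ≤ 1 := by
    rw [div_le_one hD']
    exact h1
  have hq2 : (S.uN : ℝ) / S.uD ≤ 1 := by
    rw [div_le_one hU']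
    exact h2
  have au : |u| ≤ 1 := abs_le.2 ⟨hu, hu'.trans hq2⟩
  have av : |v| ≤ 1 := abs_le.2 ⟨hv, hv'.trans hq2⟩
  have at' : |t| ≤ 1 := abs_le.2 ⟨ht, ht'.trans hq⟩
  have hr := remR_abs S.r2 u v t au av at'
  have lu := lin_nonneg hU' hu'
  have lv := lin_nonneg hU' hv'
  have lt := lin_nonneg hD' ht'
  have g1 : gramR v u t = gramR u v t := by unfold gramR; ring
  have s1 := S2R_nonneg S hD' hU' u v t hu ht lu lv lt hg
  have s2 := S2R_nonneg S hD' hU' v u t hv ht lv lu lt (by rw [g1]; exact hg)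
  have r1 := (abs_le.1 hr).1
  unfold id2 at hid
  have hD2 : 0 < 2 * ((S.uD : ℝ) ^ 2 * (S.tD : ℝ)) := by positivity
  rw [← neg_div, div_le_iff₀' hD2]
  linarith

end Pool.Agent.H54.V
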