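/-
JOB VOR-CERTC.  The general lemma for the five three-point certificates.
-/
import Pool.Agent.H54.V.KDefs
import Pool.Agent.H54.V.J.SosChk
import Pool.Agent.H54.V.J.SDPAbs
set_option autoImplicit false
open MeasureTheory
namespace Pool.Agent.H54.V

/-- `2^80 (d t - n) - d p(t)` -/
def ceLin (c : List ℤ) (n d : ℤ) : List ℤ := bcAdd [-(n * 2 ^ 80), d * 2 ^ 80] (bcSmul (-d) c)

theorem ceLin_pe (c : List ℤ) (n d : ℤ) (t : ℝ) :
    pe (ceLin c n d) t = 2 ^ 80 * ((d : ℝ) * t - n) - d * pe c t := by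
  unfold ceLin
  rw [bc_pe_add, bc_pe_smul, bc_pe_cons, bc_pe_cons, bc_pe_nil]
  push_cast
  ring

/-- the one-variable condition: `pe c t ≤ 2^80 max 0 (t - n/d)` on `[-1, N/D]`. -/
def ceOk (c : List ℤ) (n : ℤ) (d : ℕ) (N : ℤ) (D : ℕ) : Bool :=
  decide (0 < d) && decide (0 < D) &&
  bernCheck (bcSmul (-1) c) (-d) n d 12 && bernCheck (ceLin c n d) (n * D) (N * d) (d * D) 12

theorem ceOk_sound (c : List ℤ) (n : ℤ) (d : ℕ) (N : ℤ) (D : ℕ) (h : ceOk c n d N D = true) (t : ℝ)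
    (h1 : -1 ≤ t) (h2 : t ≤ (N : ℝ) / D) : pe c t ≤ 2 ^ 80 * max 0 (t - (n : ℝ) / d) := by
  unfold ceOk at h
  simp only [Bool.and_eq_true, decide_eq_true_eq] at h
  obtain ⟨⟨⟨hd, hD⟩, hb1⟩, hb2⟩ := h
  have hd' : (0 : ℝ) < d := by exact_mod_cast hd
  have hD' : (0 : ℝ) < D := by exact_mod_cast hD
  rcases le_total t ((n : ℝ) / d) with ht | ht
  · have h3 := bernCheck_sound _ _ _ _ _ hd hb1 t (by
      push_cast
      rw [neg_div, div_self hd'.ne']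
      exact h1) ht
    rw [bc_pe_smul] at h3
    push_cast at h3
    have h4 : 0 ≤ max 0 (t - (n : ℝ) / d) := le_max_left _ _
    have h5 : 0 ≤ (2 : ℝ) ^ 80 * max 0 (t - (n : ℝ) / d) := by positivity
    linarith
  · have h3 := bernCheck_sound _ _ _ _ _ (Nat.mul_pos hd hD) hb2 t (by
      push_cast
      rw [mul_div_mul_right _ _ hD'.ne']
      exact ht) (by
      push_cast
      rw [mul_comm (d : ℝ), mul_div_mul_right _ _ hd'.ne']
      exact h2)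
    rw [ceLin_pe] at h3
    push_cast at h3
    have h4 : t - (n : ℝ) / d ≤ max 0 (t - (n : ℝ) / d) := le_max_right _ _
    have h5 : pe c t ≤ 2 ^ 80 * (t - (n : ℝ) / d) := by
      have h6 : (d : ℝ) * pe c t ≤ d * (2 ^ 80 * (t - (n : ℝ) / d)) := by
        have : (d : ℝ) * (2 ^ 80 * (t - (n : ℝ) / d)) = 2 ^ 80 * ((d : ℝ) * t - n) := by
          field_simp
        linarith
      exact le_of_mul_le_mul_left h6 hd'
    refine h5.trans ?_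
    gcongr

/-- all conditions besides the two identities; `E = e / 10^4`. -/
def okCert (D : SDPData) (S : SOSData) (n : ℤ) (d : ℕ) (e : ℤ) : Bool :=
  decide (0 < S.tD) && decide (0 < S.uD) && decide (S.tN ≤ S.tD) && decide (S.uN ≤ S.uD) &&
  (D.A.all fun p => decide (1 ≤ p.1) && decide (p.1 ≤ 12)) &&
  ceOk D.q 1 2 S.tN S.tD.toNat && ceOk D.qs n d S.uN S.uD.toNat &&
  decide (e * 2 ^ 80 * (6 * S.tD ^ 2 * S.uD ^ 2 * S.tD) +
    220 * ((S.r1.map Int.natAbs).sum : ℤ) * (S.uD ^ 2 * S.tD) * 10 ^ 4 +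
    18 * ((S.r2.map Int.natAbs).sum : ℤ) * S.tD ^ 2 * 10 ^ 4 ≤
    (66 * D.kap - 1024 * trA D) * (6 * S.tD ^ 2 * S.uD ^ 2 * S.tD) * 10 ^ 4)

theorem certC (D : SDPData) (S : SOSData) (n : ℤ) (d : ℕ) (e : ℤ) (c1 : ∀ x y z : ℝ, id1 D S x y z = 0)
    (c2 : ∀ x y z : ℝ, id2 D S x y z = 0) (c3 : okCert D S n d e = true) (tp U τ E : ℝ)
    (htp : tp = (S.tN : ℝ) / S.tD) (hU : U = (S.uN : ℝ) / S.uD) (hτ : τ = (n : ℝ) / d)
    (hE : E = (e : ℝ) / 10 ^ 4) :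
    TCert 12 tp (fun _ : Fin 1 => U) (fun _ => τ) (fun _ _ => 1) E := by
  unfold okCert at c3
  simp only [Bool.and_eq_true, decide_eq_true_eq, List.all_eq_true] at c3
  obtain ⟨⟨⟨⟨⟨⟨⟨hD, hUD⟩, ht1⟩, hu1⟩, hA⟩, hq⟩, hqs⟩, hen⟩ := c3
  have htD : ((S.tD.toNat : ℕ) : ℝ) = (S.tD : ℝ) := by
    have : ((S.tD.toNat : ℕ) : ℤ) = S.tD := Int.toNat_of_nonneg hD.le
    exact_mod_cast this
  have huD : ((S.uD.toNat : ℕ) : ℝ) = (S.uD : ℝ) := by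
    have : ((S.uD.toNat : ℕ) : ℤ) = S.uD := Int.toNat_of_nonneg hUD.le
    exact_mod_cast this
  have hD' : (0 : ℝ) < S.tD := by exact_mod_cast hD
  have hUD' : (0 : ℝ) < S.uD := by exact_mod_cast hUD
  have ht1' : (S.tN : ℝ) ≤ S.tD := by exact_mod_cast ht1
  have hu1' : (S.uN : ℝ) ≤ S.uD := by exact_mod_cast hu1
  intro u z hu hz huu huz _
  have hzz : z = fun _ => z 0 := funext fun a => by rw [Subsingleton.elim a 0]
  have key := sdp_abs D (fun p hp => hA p hp) tp U τ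
    (((S.r1.map Int.natAbs).sum : ℝ) / (6 * (S.tD : ℝ) ^ 2))
    (((S.r2.map Int.natAbs).sum : ℝ) / (2 * ((S.uD : ℝ) ^ 2 * S.tD)))
    (fun x y w hx hx' hy hy' hw hw' hg => id1_sound D S hD x y w (c1 x y w) hx (htp ▸ hx') hy (htp ▸ hy')
      hw (htp ▸ hw') ht1' hg)
    (fun x y w hx hx' hy hy' hw hw' hg => id2_sound D S hD hUD x y w (c2 x y w) hx (hU ▸ hx') hy (hU ▸ hy')
      hw (htp ▸ hw') ht1' hu1' hg)
    (fun t h1 h2 => by
      have := ceOk_sound _ _ _ _ _ hq t h1 (by rw [htD, ← htp]; exact h2)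
      simpa using this)
    (fun t h1 h2 => by
      have := ceOk_sound _ _ _ _ _ hqs t h1 (by rw [huD, ← hU]; exact h2)
      rw [hτ]
      exact this)
    u (z 0) hu (hz 0) huu (fun i => huz i 0)
  rw [hzz]
  refine le_trans ?_ key
  rw [hE, div_le_div_iff₀ (by norm_num) (by norm_num)]
  have hen' : (e : ℝ) * 2 ^ 80 * (6 * (S.tD : ℝ) ^ 2 * (S.uD : ℝ) ^ 2 * S.tD) +
    220 * ((S.r1.map Int.natAbs).sum : ℝ) * ((S.uD : ℝ) ^ 2 * S.tD) * 10 ^ 4 +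
    18 * ((S.r2.map Int.natAbs).sum : ℝ) * (S.tD : ℝ) ^ 2 * 10 ^ 4 ≤
    (66 * (D.kap : ℝ) - 1024 * (trA D : ℝ)) * (6 * (S.tD : ℝ) ^ 2 * (S.uD : ℝ) ^ 2 * S.tD) * 10 ^ 4 := by
    clear key
    generalize (S.r1.map Int.natAbs).sum = s1 at hen ⊢
    generalize (S.r2.map Int.natAbs).sum = s2 at hen ⊢
    have h := (Int.cast_le (R := ℝ)).2 hen
    push_cast at h
    norm_num at h ⊢
    exact h
  have hP : (0 : ℝ) < 6 * (S.tD : ℝ) ^ 2 * (S.uD : ℝ) ^ 2 * S.tD := by positivity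
  refine le_of_mul_le_mul_right ?_ hP
  have e1 : ((S.r1.map Int.natAbs).sum : ℝ) / (6 * (S.tD : ℝ) ^ 2) *
      (6 * (S.tD : ℝ) ^ 2 * (S.uD : ℝ) ^ 2 * S.tD) =
      ((S.r1.map Int.natAbs).sum : ℝ) * ((S.uD : ℝ) ^ 2 * S.tD) := by
    field_simp
  have e2 : ((S.r2.map Int.natAbs).sum : ℝ) / (2 * ((S.uD : ℝ) ^ 2 * S.tD)) *
      (6 * (S.tD : ℝ) ^ 2 * (S.uD : ℝ) ^ 2 * S.tD) =
      3 * ((S.r2.map Int.natAbs).sum : ℝ) * (S.tD : ℝ) ^ 2 := by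
    field_simp
    ring
  generalize ((S.r1.map Int.natAbs).sum : ℝ) / (6 * (S.tD : ℝ) ^ 2) = A1 at e1 ⊢
  generalize ((S.r2.map Int.natAbs).sum : ℝ) / (2 * ((S.uD : ℝ) ^ 2 * S.tD)) = A2 at e2 ⊢
  nlinarith

end Pool.Agent.H54.V
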