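/-
Low-memory evaluation of the packed columns of the three-point certificates (helper24):
`fcheck1 = check1`, `fcheck2 = check2`.
-/
import Pool.Agent.H54.V.J.SosChk
set_option autoImplicit false
set_option maxRecDepth 100000
namespace Pool.Agent.H54.V

/-- a digit of a packed column -/
def frd (N i : ℕ) : ℕ := (N >>> (44 * i)) % 17592186044416

def f1 (N K : ℕ) : List ℕ → ℕ
  | [] => 0
  | i :: l => frd N i + (f1 N K l) <<< K

def f2 (N K K2 : ℕ) : List (List ℕ) → ℕ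
  | [] => 0
  | l :: ls => f1 N K l + (f2 N K K2 ls) <<< K2

def f3 (N K K2 K3 : ℕ) : List (List (List ℕ)) → ℕ
  | [] => 0
  | ls :: lss => f2 N K K2 ls + (f3 N K K2 K3 lss) <<< K3

def fl1 (K : ℕ) : ℕ → List ℕ → List (ℕ × ℕ)
  | _, [] => []
  | b, i :: l => (b, i) :: fl1 K (b + K) l

def fl2 (K K2 : ℕ) : ℕ → List (List ℕ) → List (ℕ × ℕ)
  | _, [] => []
  | b, l :: ls => fl1 K b l ++ fl2 K K2 (b + K2) ls

def fl3 (K K2 K3 : ℕ) : ℕ → List (List (List ℕ)) → List (ℕ × ℕ)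
  | _, [] => []
  | b, ls :: lss => fl2 K K2 b ls ++ fl3 K K2 K3 (b + K3) lss

/-- the weight of a digit -/
def fw (N : ℕ) (p : ℕ × ℕ) : ℕ := frd N p.2 * 2 ^ p.1

theorem fl1_sum (N K : ℕ) : ∀ (l : List ℕ) (b : ℕ),
    ((fl1 K b l).map (fw N)).sum = 2 ^ b * f1 N K l := by
  intro l
  induction l with
  | nil => intro b; simp [fl1, f1]
  | cons i l ih =>
    intro b
    rw [fl1, f1, List.map_cons, List.sum_cons, ih, Nat.shiftLeft_eq, fw]
    simp only
    rw [pow_add]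
    ring

theorem fl2_sum (N K K2 : ℕ) : ∀ (l : List (List ℕ)) (b : ℕ),
    ((fl2 K K2 b l).map (fw N)).sum = 2 ^ b * f2 N K K2 l := by
  intro l
  induction l with
  | nil => intro b; simp [fl2, f2]
  | cons i l ih =>
    intro b
    rw [fl2, f2, List.map_append, List.sum_append, ih, fl1_sum, Nat.shiftLeft_eq, pow_add]
    ring

theorem fl3_sum (N K K2 K3 : ℕ) : ∀ (l : List (List (List ℕ))) (b : ℕ),
    ((fl3 K K2 K3 b l).map (fw N)).sum = 2 ^ b * f3 N K K2 K3 l := by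
  intro l
  induction l with
  | nil => intro b; simp [fl3, f3]
  | cons i l ih =>
    intro b
    rw [fl3, f3, List.map_append, List.sum_append, ih, fl2_sum, Nat.shiftLeft_eq, pow_add]
    ring

theorem fcol_sum (N : ℕ) : ∀ (es : List ℕ) (i acc : ℕ),
    sckCol es (N >>> (44 * i)) acc = acc + ((es.zipIdx i).map (fw N)).sum := by
  intro es
  induction es with
  | nil => intro i acc; simp [sckCol]
  | cons e es ih =>
    intro i acc
    have h1 : (N >>> (44 * i)) >>> 44 = N >>> (44 * (i + 1)) := by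
      rw [← Nat.shiftRight_add]
      congr 1
    rw [sckCol, h1, ih, List.zipIdx_cons, List.map_cons, List.sum_cons, Nat.shiftLeft_eq, fw, frd]
    ring

theorem f3_eq (N K K2 K3 : ℕ) (L : List (List (List ℕ))) (es : List ℕ)
    (h : (fl3 K K2 K3 0 L).Perm (es.zipIdx 0)) : f3 N K K2 K3 L = sckCol es N 0 := by
  have h1 := fcol_sum N es 0 0
  rw [Nat.mul_zero, Nat.shiftRight_zero, zero_add] at h1
  have h2 := fl3_sum N K K2 K3 L 0
  rw [pow_zero, one_mul] at h2
  rw [h1, ← h2]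
  exact (h.map (fw N)).sum_eq

/-- index of the monomial with exponents `a, b, c` -/
def fix (a b c : ℕ) : ℕ :=
  (a + b + c) * (a + b + c + 1) * (a + b + c + 2) / 6 + (b + c) * (b + c + 1) / 2 + c

/-- the three exponents (of `x, y, z`), from the exponents of the small, middle, large variable -/
def fpr (v a1 a2 a3 : ℕ) : ℕ :=
  match v with
  | 0 => fix a1 a2 a3   -- (p,q,r) = (K, 15K, 225K)
  | 1 => fix a2 a1 a3   -- (15K, K, 225K)
  | 2 => fix a1 a3 a2   -- (K, 225K, 15K)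
  | 3 => fix a2 a3 a1   -- (15K, 225K, K)
  | 4 => fix a3 a1 a2   -- (225K, K, 15K)
  | _ => fix a3 a2 a1   -- (225K, 15K, K)

/-- the nested index lists -/
def fL (D v : ℕ) : List (List (List ℕ)) :=
  (List.range (D + 1)).map fun a3 => (List.range (D - a3 + 1)).map fun a2 =>
    (List.range (D - a3 - a2 + 1)).map fun a1 => fpr v a1 a2 a3

def fP (v : ℕ) : ℕ := match v with | 0 => 160 | 1 => 2400 | 2 => 160 | 3 => 2400 | 4 => 36000 | _ => 36000
def fQ (v : ℕ) : ℕ := match v with | 0 => 2400 | 1 => 160 | 2 => 36000 | 3 => 36000 | 4 => 160 | _ => 2400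
def fR (v : ℕ) : ℕ := match v with | 0 => 36000 | 1 => 36000 | 2 => 2400 | 3 => 160 | 4 => 2400 | _ => 160

theorem f_perm : ∀ v < 6, ∀ D < 8, (fl3 160 2400 36000 0 (fL D v)).Perm
    ((sckE D (fP v) (fQ v) (fR v)).zipIdx 0) := by
  decide +kernel

/-! ### the same with raw operations (few kernel steps) -/

noncomputable def g1 (N K : ℕ) (l : List ℕ) : ℕ :=
  List.rec (motive := fun _ => ℕ) (nat_lit 0)
    (fun i _ ih => Nat.add (Nat.mod (Nat.shiftRight N i) (nat_lit 17592186044416))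
      (Nat.shiftLeft ih K)) l

noncomputable def g2 (N K K2 : ℕ) (l : List (List ℕ)) : ℕ :=
  List.rec (motive := fun _ => ℕ) (nat_lit 0)
    (fun i _ ih => Nat.add (g1 N K i) (Nat.shiftLeft ih K2)) l

noncomputable def g3 (N K K2 K3 : ℕ) (l : List (List (List ℕ))) : ℕ :=
  List.rec (motive := fun _ => ℕ) (nat_lit 0)
    (fun i _ ih => Nat.add (g2 N K K2 i) (Nat.shiftLeft ih K3)) l

theorem g1_eq (N K : ℕ) (l : List ℕ) : g1 N K (l.map fun i => 44 * i) = f1 N K l := by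
  induction l with
  | nil => rfl
  | cons i l ih =>
    rw [f1, ← ih]
    rfl

theorem g2_eq (N K K2 : ℕ) (l : List (List ℕ)) :
    g2 N K K2 (l.map fun l => l.map fun i => 44 * i) = f2 N K K2 l := by
  induction l with
  | nil => rfl
  | cons i l ih =>
    rw [f2, ← ih, ← g1_eq]
    rfl

theorem g3_eq (N K K2 K3 : ℕ) (l : List (List (List ℕ))) :
    g3 N K K2 K3 (l.map fun l => l.map fun l => l.map fun i => 44 * i) = f3 N K K2 K3 l := by
  induction l with
  | nil => rfl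
  | cons i l ih =>
    rw [f3, ← ih, ← g2_eq]
    rfl

/-- the nested index lists, multiplied by 44 -/
def gL (D v : ℕ) : List (List (List ℕ)) :=
  (fL D v).map fun l => l.map fun l => l.map fun i => 44 * i

/-- sum of squares -/
noncomputable def fSos (L : List (List (List ℕ))) (o : ℕ) (cols : List ℕ) : ℕ :=
  List.rec (motive := fun _ => ℕ) (nat_lit 0)
    (fun N _ ih => Nat.add ih
      (sckSq (g3 N (nat_lit 160) (nat_lit 2400) (nat_lit 36000) L) o)) cols

theorem fSos_cons (L : List (List (List ℕ))) (o N : ℕ) (cols : List ℕ) :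
    fSos L o (N :: cols) = fSos L o cols + sckSq (g3 N 160 2400 36000 L) o := rfl

theorem fSos_eq (D v : ℕ) (hD : D < 8) (hv : v < 6) (o : ℕ) : ∀ (cols : List ℕ) (acc : ℕ),
    acc + fSos (gL D v) o cols = sckSos (sckE D (fP v) (fQ v) (fR v)) o cols acc := by
  intro cols
  induction cols with
  | nil => intro acc; rfl
  | cons N cols ih =>
    intro acc
    rw [fSos_cons, sckSos, ← ih, ← f3_eq _ _ _ _ _ _ (f_perm v hv D hD), ← g3_eq]
    unfold gL
    ring

noncomputable def fS (D v : ℕ) (cols : List ℕ) : ℕ :=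
  fSos (gL D v) (sckOff (sckE D (fP v) (fQ v) (fR v)) 0) cols

theorem fS_eq (D v : ℕ) (hD : D < 8) (hv : v < 6) (cols : List ℕ) :
    fS D v cols = sckS D (fP v) (fQ v) (fR v) cols := by
  have h := fSos_eq D v hD hv (sckOff (sckE D (fP v) (fQ v) (fR v)) 0) cols 0
  rw [zero_add] at h
  exact h

noncomputable def fS1 (S : SOSData) (v : ℕ) : ℤ :=
  S.tD ^ 2 * Int.ofNat (fS 7 v S.s10)
  + S.tD * ((1 + sckP (fP v)) * (S.tN - S.tD * sckP (fP v))) * Int.ofNat (fS 6 v S.s11)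
  + S.tD ^ 2 * gramR (sckP (fP v)) (sckP (fQ v)) (sckP (fR v)) * Int.ofNat (fS 5 v S.s1g)
  + (S.tN - S.tD * sckP (fP v)) * (S.tN - S.tD * sckP (fQ v)) * Int.ofNat (fS 6 v S.s1p)

noncomputable def fS2 (S : SOSData) (v : ℕ) : ℤ :=
  S.uD ^ 2 * S.tD * Int.ofNat (fS 7 v S.s20)
  + S.uD * S.tD * ((1 + sckP (fP v)) * (S.uN - S.uD * sckP (fP v))) * Int.ofNat (fS 6 v S.s2u)
  + S.uD ^ 2 * ((1 + sckP (fR v)) * (S.tN - S.tD * sckP (fR v))) * Int.ofNat (fS 6 v S.s2t)
  + S.uD ^ 2 * S.tD * gramR (sckP (fP v)) (sckP (fQ v)) (sckP (fR v)) * Int.ofNat (fS 5 v S.s2g)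
  + S.tD * ((S.uN - S.uD * sckP (fP v)) * (S.uN - S.uD * sckP (fQ v))) * Int.ofNat (fS 6 v S.s2p)
  + S.uD * ((S.uN - S.uD * sckP (fP v)) * (S.tN - S.tD * sckP (fR v))) * Int.ofNat (fS 6 v S.s2q)

theorem fS1_eq (S : SOSData) (v : ℕ) (hv : v < 6) : fS1 S v = sckS1 S (fP v) (fQ v) (fR v) := by
  unfold fS1 sckS1
  rw [fS_eq 7 v (by norm_num) hv, fS_eq 6 v (by norm_num) hv, fS_eq 5 v (by norm_num) hv,
    fS_eq 6 v (by norm_num) hv]

theorem fS2_eq (S : SOSData) (v : ℕ) (hv : v < 6) : fS2 S v = sckS2 S (fP v) (fQ v) (fR v) := by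
  unfold fS2 sckS2
  rw [fS_eq 7 v (by norm_num) hv, fS_eq 6 v (by norm_num) hv, fS_eq 6 v (by norm_num) hv,
    fS_eq 5 v (by norm_num) hv, fS_eq 6 v (by norm_num) hv, fS_eq 6 v (by norm_num) hv]

noncomputable def fZ1 (D : SDPData) (S : SOSData) : ℤ :=
  6 * S.tD ^ 2 * T1I D (sckP 160) (sckP 2400) (sckP 36000)
   - (fS1 S 0 + fS1 S 1 + fS1 S 2 + fS1 S 3 + fS1 S 4 + fS1 S 5)
   - sckRem (sckE 14 160 2400 36000) S.r1

noncomputable def fZ2 (D : SDPData) (S : SOSData) : ℤ :=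
  2 * (S.uD ^ 2 * S.tD) * T2I D (sckP 160) (sckP 2400) (sckP 36000)
   - 11 * (fS2 S 0 + fS2 S 1)
   - sckRem (sckE 14 160 2400 36000) S.r2

theorem fZ1_eq (D : SDPData) (S : SOSData) : fZ1 D S = sckZ1 160 D S := by
  unfold fZ1 sckZ1
  rw [fS1_eq S 0 (by norm_num), fS1_eq S 1 (by norm_num), fS1_eq S 2 (by norm_num),
    fS1_eq S 3 (by norm_num), fS1_eq S 4 (by norm_num), fS1_eq S 5 (by norm_num)]
  norm_num [fP, fQ, fR]

theorem fZ2_eq (D : SDPData) (S : SOSData) : fZ2 D S = sckZ2 160 D S := by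
  unfold fZ2 sckZ2
  rw [fS2_eq S 0 (by norm_num), fS2_eq S 1 (by norm_num)]
  norm_num [fP, fQ, fR]

noncomputable def fcheck1 (D : SDPData) (S : SOSData) : Bool :=
  decide (0 < S.tD) && okF D && decide (nZ1 D S ≤ 2 ^ 160) && decide (fZ1 D S = 0)

noncomputable def fcheck2 (D : SDPData) (S : SOSData) : Bool :=
  decide (0 < S.tD) && decide (0 < S.uD) && okF D && okG D && decide (nZ2 D S ≤ 2 ^ 160) &&
    decide (fZ2 D S = 0)

theorem fcheck1_eq (D : SDPData) (S : SOSData) : fcheck1 D S = check1 D S := by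
  unfold fcheck1 check1
  rw [fZ1_eq]

theorem fcheck2_eq (D : SDPData) (S : SOSData) : fcheck2 D S = check2 D S := by
  unfold fcheck2 check2
  rw [fZ2_eq]

end Pool.Agent.H54.V
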