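/-
The two identities of a three-point certificate, checked in two steps: the weighted sum of squares `S1R` (resp. `S2R`) is a
polynomial given by its coefficient list (one evaluation at the Kronecker point), and the symmetrised identity for the
coefficient lists (cheap).
-/
import Pool.Agent.H54.V.J.SosFast
set_option autoImplicit false
namespace Pool.Agent.H54.V

section
variable {R : Type*} [CommRing R]

/-- polynomial in two variables, nested Horner form -/
def he2 (x y : R) : List (List ℤ) → R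
  | [] => 0
  | l :: L => pe l x + y * he2 x y L

/-- polynomial in three variables, nested Horner form -/
def he3 (x y z : R) : List (List (List ℤ)) → R
  | [] => 0
  | L :: M => he2 x y L + z * he3 x y z M

end

/-- sum of the absolute values of the coefficients -/
def hn2 : List (List ℤ) → ℕ
  | [] => 0
  | l :: L => nPe l + hn2 L

def hn3 : List (List (List ℤ)) → ℕ
  | [] => 0
  | L :: M => hn2 L + hn3 M

/-- total degree `< n` -/
def hd2 : ℕ → List (List ℤ) → Bool
  | _, [] => true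
  | 0, _ :: _ => false
  | n + 1, l :: L => decide (l.length ≤ n + 1) && hd2 n L

def hd3 : ℕ → List (List (List ℤ)) → Bool
  | _, [] => true
  | 0, _ :: _ => false
  | n + 1, L :: M => hd2 (n + 1) L && hd3 n M

section ip
variable {K : ℕ} {f g h : ℝ → ℝ → ℝ → ℝ} {a b c : ℤ}

theorem ipH2 (hf : IsPoly K f a 1 1) (hg : IsPoly K g b 1 1) : ∀ (L : List (List ℤ)) (n : ℕ),
    hd2 n L = true →
    IsPoly K (fun x y t => he2 (f x y t) (g x y t) L) (he2 a b L) (n - 1) (hn2 L) := by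
  intro L
  induction L with
  | nil =>
    intro n _
    exact (ipN 0 0 0 (by norm_num) rfl).mono (Nat.zero_le _) le_rfl
  | cons l L ih =>
    intro n hn
    cases n with
    | zero => simp [hd2] at hn
    | succ n =>
      simp only [hd2, Bool.and_eq_true, decide_eq_true_eq] at hn
      obtain ⟨h1, h2⟩ := hn
      have k1 := ipPe hf l n h1
      cases L with
      | nil =>
        have k2 := k1.add ((ipN (K := K) 0 0 0 (by norm_num) rfl))
        have e1 : ∀ x y : ℝ, he2 x y [l] = pe l x + 0 := fun x y => by simp [he2]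
        have e2 : ∀ x y : ℤ, he2 x y [l] = pe l x + 0 := fun x y => by simp [he2]
        simp only [e1, e2]
        exact k2.mono (by omega) le_rfl
      | cons l' L' =>
        cases n with
        | zero => simp [hd2] at h2
        | succ n =>
          have k2 := ih (n + 1) h2
          refine (k1.add (hg.mul k2)).mono (by omega) ?_
          rw [one_mul]
          exact le_rfl

theorem ipH3 (hf : IsPoly K f a 1 1) (hg : IsPoly K g b 1 1) (hh : IsPoly K h c 1 1) :
    ∀ (M : List (List (List ℤ))) (n : ℕ), hd3 n M = true →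
    IsPoly K (fun x y t => he3 (f x y t) (g x y t) (h x y t) M) (he3 a b c M) (n - 1) (hn3 M) := by
  intro M
  induction M with
  | nil =>
    intro n _
    exact (ipN 0 0 0 (by norm_num) rfl).mono (Nat.zero_le _) le_rfl
  | cons L M ih =>
    intro n hn
    cases n with
    | zero => simp [hd3] at hn
    | succ n =>
      simp only [hd3, Bool.and_eq_true] at hn
      obtain ⟨h1, h2⟩ := hn
      have k1 := ipH2 hf hg L (n + 1) h1
      cases M with
      | nil =>
        have k2 := k1.add ((ipN (K := K) 0 0 0 (by norm_num) rfl))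
        have e1 : ∀ x y z : ℝ, he3 x y z [L] = he2 x y L + 0 := fun x y z => by simp [he3]
        have e2 : ∀ x y z : ℤ, he3 x y z [L] = he2 x y L + 0 := fun x y z => by simp [he3]
        simp only [e1, e2]
        exact k2.mono (by omega) le_rfl
      | cons L' M' =>
        cases n with
        | zero => simp [hd3] at h2
        | succ n =>
          have k2 := ih (n + 1) h2
          refine (k1.add (hh.mul k2)).mono (by omega) ?_
          rw [one_mul]
          exact le_rfl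

end ip

/-- `S1R S` is the polynomial `P` -/
noncomputable def fpoly1 (S : SOSData) (P : List (List (List ℤ))) : Bool :=
  hd3 15 P && decide (nS1 S + hn3 P ≤ 2 ^ 160) &&
    decide (fS1 S 0 - he3 (sckP 160) (sckP 2400) (sckP 36000) P = 0)

noncomputable def fpoly2 (S : SOSData) (P : List (List (List ℤ))) : Bool :=
  hd3 15 P && decide (nS2 S + hn3 P ≤ 2 ^ 160) &&
    decide (fS2 S 0 - he3 (sckP 160) (sckP 2400) (sckP 36000) P = 0)

theorem fpoly1_sound (S : SOSData) (P : List (List (List ℤ))) (h : fpoly1 S P = true) (x y z : ℝ) :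
    S1R S x y z = he3 x y z P := by
  unfold fpoly1 at h
  simp only [Bool.and_eq_true, decide_eq_true_eq] at h
  obtain ⟨⟨h1, h2⟩, h3⟩ := h
  rw [fS1_eq S 0 (by norm_num)] at h3
  have e1 : sckS1 S (fP 0) (fQ 0) (fR 0) = S1R S ((2 : ℤ) ^ 160) (2 ^ (15 * 160)) (2 ^ (225 * 160)) := by
    rw [sckS1_eq]
    rfl
  rw [e1, sckP_eq, sckP_eq, sckP_eq] at h3
  have hx : IsPoly 160 (fun x _ _ => x) (2 ^ 160) 1 1 := IsPoly.vx
  have hy : IsPoly 160 (fun _ y _ => y) (2 ^ (15 * 160)) 1 1 := IsPoly.vy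
  have hz : IsPoly 160 (fun _ _ t => t) (2 ^ (225 * 160)) 1 1 := IsPoly.vt
  have k1 := (ipS1 hx hy hz S).sub (ipH3 hx hy hz P 15 h1)
  have k2 := IsPoly.eq_zero k1 (by norm_num) h2 h3 x y z
  exact sub_eq_zero.1 k2

theorem fpoly2_sound (S : SOSData) (P : List (List (List ℤ))) (h : fpoly2 S P = true) (x y z : ℝ) :
    S2R S x y z = he3 x y z P := by
  unfold fpoly2 at h
  simp only [Bool.and_eq_true, decide_eq_true_eq] at h
  obtain ⟨⟨h1, h2⟩, h3⟩ := h
  rw [fS2_eq S 0 (by norm_num)] at h3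
  have e1 : sckS2 S (fP 0) (fQ 0) (fR 0) = S2R S ((2 : ℤ) ^ 160) (2 ^ (15 * 160)) (2 ^ (225 * 160)) := by
    rw [sckS2_eq]
    rfl
  rw [e1, sckP_eq, sckP_eq, sckP_eq] at h3
  have hx : IsPoly 160 (fun x _ _ => x) (2 ^ 160) 1 1 := IsPoly.vx
  have hy : IsPoly 160 (fun _ y _ => y) (2 ^ (15 * 160)) 1 1 := IsPoly.vy
  have hz : IsPoly 160 (fun _ _ t => t) (2 ^ (225 * 160)) 1 1 := IsPoly.vt
  have k1 := (ipS2 hx hy hz S).sub (ipH3 hx hy hz P 15 h1)
  have k2 := IsPoly.eq_zero k1 (by norm_num) h2 h3 x y z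
  exact sub_eq_zero.1 k2

/-- the symmetrised identities -/
def fsym1 (D : SDPData) (tD : ℤ) (r : List ℤ) (P : List (List (List ℤ))) : Bool :=
  okF D && hd3 15 P &&
  decide (6 * tD.natAbs ^ 2 * nT1 D + (hn3 P + hn3 P + hn3 P + hn3 P + hn3 P + hn3 P) + nPe r ≤ 2 ^ 160) &&
  decide (6 * tD ^ 2 * T1I D (sckP 160) (sckP 2400) (sckP 36000)
    - (he3 (sckP 160) (sckP 2400) (sckP 36000) P + he3 (sckP 2400) (sckP 160) (sckP 36000) P
      + he3 (sckP 160) (sckP 36000) (sckP 2400) P + he3 (sckP 2400) (sckP 36000) (sckP 160) P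
      + he3 (sckP 36000) (sckP 160) (sckP 2400) P + he3 (sckP 36000) (sckP 2400) (sckP 160) P)
    - sckRem (sckE 14 160 2400 36000) r = 0)

def fsym2 (D : SDPData) (uD tD : ℤ) (r : List ℤ) (P : List (List (List ℤ))) : Bool :=
  okF D && okG D && hd3 15 P &&
  decide (2 * (uD.natAbs ^ 2 * tD.natAbs) * nT2 D + 11 * (hn3 P + hn3 P) + nPe r ≤ 2 ^ 160) &&
  decide (2 * (uD ^ 2 * tD) * T2I D (sckP 160) (sckP 2400) (sckP 36000)
    - 11 * (he3 (sckP 160) (sckP 2400) (sckP 36000) P + he3 (sckP 2400) (sckP 160) (sckP 36000) P)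
    - sckRem (sckE 14 160 2400 36000) r = 0)

theorem fsym1_sound (D : SDPData) (S : SOSData) (P : List (List (List ℤ))) (h0 : fpoly1 S P = true)
    (h : fsym1 D S.tD S.r1 P = true) (x y z : ℝ) : id1 D S x y z = 0 := by
  have hS := fpoly1_sound S P h0
  unfold fsym1 at h
  simp only [Bool.and_eq_true, decide_eq_true_eq] at h
  obtain ⟨⟨⟨hF, h1⟩, h2⟩, h3⟩ := h
  rw [sckRem_eq, sckP_eq, sckP_eq, sckP_eq] at h3
  have hx : IsPoly 160 (fun x _ _ => x) (2 ^ 160) 1 1 := IsPoly.vx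
  have hy : IsPoly 160 (fun _ y _ => y) (2 ^ (15 * 160)) 1 1 := IsPoly.vy
  have hz : IsPoly 160 (fun _ _ t => t) (2 ^ (225 * 160)) 1 1 := IsPoly.vt
  have n6 : IsPoly 160 (fun _ _ _ => (6 : ℝ)) 6 0 6 := ipN 6 6 6 (by norm_num) rfl
  have hd : IsPoly 160 (fun _ _ _ => (S.tD : ℝ)) (Int.cast S.tD : ℤ) 0 S.tD.natAbs := ipC S.tD
  have k1 := (n6.mul (hd.pow 2)).mul (ipT1 (K := 160) D hF)
  have k2 := (((((ipH3 hx hy hz P 15 h1).add (ipH3 hy hx hz P 15 h1)).add (ipH3 hx hz hy P 15 h1)).add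
    (ipH3 hy hz hx P 15 h1)).add (ipH3 hz hx hy P 15 h1)).add (ipH3 hz hy hx P 15 h1)
  have k3 := ipRem hx hy hz S.r1
  have k4 := ((k1.sub k2).sub k3).mono (d' := 14) (M' := _) (by omega) le_rfl
  have k5 := IsPoly.eq_zero k4 le_rfl h2 h3 x y z
  unfold id1
  rw [hS, hS, hS, hS, hS, hS]
  exact k5

theorem fsym2_sound (D : SDPData) (S : SOSData) (P : List (List (List ℤ))) (h0 : fpoly2 S P = true)
    (h : fsym2 D S.uD S.tD S.r2 P = true) (x y z : ℝ) : id2 D S x y z = 0 := by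
  have hS := fpoly2_sound S P h0
  unfold fsym2 at h
  simp only [Bool.and_eq_true, decide_eq_true_eq] at h
  obtain ⟨⟨⟨⟨hF, hG⟩, h1⟩, h2⟩, h3⟩ := h
  rw [sckRem_eq, sckP_eq, sckP_eq, sckP_eq] at h3
  have hx : IsPoly 160 (fun x _ _ => x) (2 ^ 160) 1 1 := IsPoly.vx
  have hy : IsPoly 160 (fun _ y _ => y) (2 ^ (15 * 160)) 1 1 := IsPoly.vy
  have hz : IsPoly 160 (fun _ _ t => t) (2 ^ (225 * 160)) 1 1 := IsPoly.vt
  have n2 : IsPoly 160 (fun _ _ _ => (2 : ℝ)) 2 0 2 := ipN 2 2 2 (by norm_num) rfl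
  have n11 : IsPoly 160 (fun _ _ _ => (11 : ℝ)) 11 0 11 := ipN 11 11 11 (by norm_num) rfl
  have hd : IsPoly 160 (fun _ _ _ => (S.tD : ℝ)) (Int.cast S.tD : ℤ) 0 S.tD.natAbs := ipC S.tD
  have hu : IsPoly 160 (fun _ _ _ => (S.uD : ℝ)) (Int.cast S.uD : ℤ) 0 S.uD.natAbs := ipC S.uD
  have k1 := (n2.mul ((hu.pow 2).mul hd)).mul (ipT2 (K := 160) D hF hG)
  have k2 := n11.mul ((ipH3 hx hy hz P 15 h1).add (ipH3 hy hx hz P 15 h1))
  have k3 := ipRem hx hy hz S.r2
  have k4 := ((k1.sub k2).sub k3).mono (d' := 14) (M' := _) (by omega) le_rfl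
  have k5 := IsPoly.eq_zero k4 le_rfl h2 h3 x y z
  unfold id2
  rw [hS, hS]
  exact k5

end Pool.Agent.H54.V
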