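/-
The certificate C1 proves HC1.  The two identities are checked in HA11, HA12 (sums of squares) and here.
-/
import Pool.Agent.H54.V.KDefs
import Pool.Agent.H54.V.J.SDPAbs
import Pool.Agent.H54.V.J.CertC
import Pool.Agent.H54.V.J.SosPoly
import Pool.Agent.H54.V.Data.C1
import Pool.Agent.H54.V.Data.P1
import Pool.Agent.H54.V.J.HA11
import Pool.Agent.H54.V.J.HA12
set_option autoImplicit false
set_option maxRecDepth 100000
open MeasureTheory
namespace Pool.Agent.H54.V

theorem C1_fsym1 : fsym1 C1.D C1.S.tD C1.S.r1 C1.P1 = true := by decide +kernel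

theorem C1_fsym2 : fsym2 C1.D C1.S.uD C1.S.tD C1.S.r2 C1.P2 = true := by decide +kernel

theorem C1_ok : okCert C1.D C1.S 1 2 3420 = true := by decide +kernel

theorem hc1 : HC1 := by
  have h := certC C1.D C1.S 1 2 3420 (fsym1_sound C1.D C1.S C1.P1 C1_fpoly1 C1_fsym1)
    (fsym2_sound C1.D C1.S C1.P2 C1_fpoly2 C1_fsym2) C1_ok 0.5465 0.5465 0.5 0.342
    (by norm_num [C1.S]) (by norm_num [C1.S]) (by norm_num) (by norm_num)
  exact h

end Pool.Agent.H54.V
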