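/-
The weighted sum of squares number 1 of certificate 2 is the polynomial `C2.P1`.
-/
import Pool.Agent.H54.V.J.SosPoly
import Pool.Agent.H54.V.Data.C2
import Pool.Agent.H54.V.Data.P2
set_option autoImplicit false
set_option maxRecDepth 100000
namespace Pool.Agent.H54.V

theorem C2_fpoly1 : fpoly1 C2.S C2.P1 = true := by decide +kernel

end Pool.Agent.H54.V
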