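/-
The certificate C2 proves HC2.  The two identities are checked in HA21, HA22 (sums of squares) and here.
-/
import Pool.Agent.H54.V.KDefs
import Pool.Agent.H54.V.J.SDPAbs
import Pool.Agent.H54.V.J.CertC
import Pool.Agent.H54.V.J.SosPoly
import Pool.Agent.H54.V.Data.C2
import Pool.Agent.H54.V.Data.P2
import Pool.Agent.H54.V.J.HA21
import Pool.Agent.H54.V.J.HA22
set_option autoImplicit false
set_option maxRecDepth 100000
open MeasureTheory
namespace Pool.Agent.H54.V

theorem C2_fsym1 : fsym1 C2.D C2.S.tD C2.S.r1 C2.P1 = true := by decide +kernel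

theorem C2_fsym2 : fsym2 C2.D C2.S.uD C2.S.tD C2.S.r2 C2.P2 = true := by decide +kernel

theorem C2_ok : okCert C2.D C2.S 53 100 2240 = true := by decide +kernel

theorem hc2 : HC2 := by
  have h := certC C2.D C2.S 53 100 2240 (fsym1_sound C2.D C2.S C2.P1 C2_fpoly1 C2_fsym1)
    (fsym2_sound C2.D C2.S C2.P2 C2_fpoly2 C2_fsym2) C2_ok 0.542 0.573 0.53 0.224
    (by norm_num [C2.S]) (by norm_num [C2.S]) (by norm_num) (by norm_num)
  exact h

end Pool.Agent.H54.V
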