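/-
The certificate C3 proves HC3.  The two identities are checked in HA31, HA32 (sums of squares) and here.
-/
import Pool.Agent.H54.V.KDefs
import Pool.Agent.H54.V.J.SDPAbs
import Pool.Agent.H54.V.J.CertC
import Pool.Agent.H54.V.J.SosPoly
import Pool.Agent.H54.V.Data.C3
import Pool.Agent.H54.V.Data.P3
import Pool.Agent.H54.V.J.HA31
import Pool.Agent.H54.V.J.HA32
set_option autoImplicit false
set_option maxRecDepth 100000
open MeasureTheory
namespace Pool.Agent.H54.V

theorem C3_fsym1 : fsym1 C3.D C3.S.tD C3.S.r1 C3.P1 = true := by decide +kernel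

theorem C3_fsym2 : fsym2 C3.D C3.S.uD C3.S.tD C3.S.r2 C3.P2 = true := by decide +kernel

theorem C3_ok : okCert C3.D C3.S 11 20 1725 = true := by decide +kernel

theorem hc3 : HC3 := by
  have h := certC C3.D C3.S 11 20 1725 (fsym1_sound C3.D C3.S C3.P1 C3_fpoly1 C3_fsym1)
    (fsym2_sound C3.D C3.S C3.P2 C3_fpoly2 C3_fsym2) C3_ok 0.525 0.582 0.55 0.1725
    (by norm_num [C3.S]) (by norm_num [C3.S]) (by norm_num) (by norm_num)
  exact h

end Pool.Agent.H54.V
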