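/-
The weighted sum of squares number 2 of certificate 4 is the polynomial `C4.P2`.
-/
import Pool.Agent.H54.V.J.SosPoly
import Pool.Agent.H54.V.Data.C4
import Pool.Agent.H54.V.Data.P4
import Pool.Agent.H54.V.J.HA41
set_option autoImplicit false
set_option maxRecDepth 100000
namespace Pool.Agent.H54.V

theorem C4_fpoly2 : fpoly2 C4.S C4.P2 = true := by decide +kernel

end Pool.Agent.H54.V
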