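/-
The certificate C4 proves HC4.  The two identities are checked in HA41, HA42 (sums of squares) and here.
-/
import Pool.Agent.H54.V.KDefs
import Pool.Agent.H54.V.J.SDPAbs
import Pool.Agent.H54.V.J.CertC
import Pool.Agent.H54.V.J.SosPoly
import Pool.Agent.H54.V.Data.C4
import Pool.Agent.H54.V.Data.P4
import Pool.Agent.H54.V.J.HA41
import Pool.Agent.H54.V.J.HA42
set_option autoImplicit false
set_option maxRecDepth 100000
open MeasureTheory
namespace Pool.Agent.H54.V

theorem C4_fsym1 : fsym1 C4.D C4.S.tD C4.S.r1 C4.P1 = true := by decide +kernel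

theorem C4_fsym2 : fsym2 C4.D C4.S.uD C4.S.tD C4.S.r2 C4.P2 = true := by decide +kernel

theorem C4_ok : okCert C4.D C4.S 57 100 1055 = true := by decide +kernel

theorem hc4 : HC4 := by
  have h := certC C4.D C4.S 57 100 1055 (fsym1_sound C4.D C4.S C4.P1 C4_fpoly1 C4_fsym1)
    (fsym2_sound C4.D C4.S C4.P2 C4_fpoly2 C4_fsym2) C4_ok 0.5155 0.594 0.57 0.1055
    (by norm_num [C4.S]) (by norm_num [C4.S]) (by norm_num) (by norm_num)
  exact h

end Pool.Agent.H54.V
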