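/-
The weighted sum of squares number 2 of certificate 5 is the polynomial `C5.P2`.
-/
import Pool.Agent.H54.V.J.SosPoly
import Pool.Agent.H54.V.Data.C5
import Pool.Agent.H54.V.Data.P5
import Pool.Agent.H54.V.J.HA51
set_option autoImplicit false
set_option maxRecDepth 100000
namespace Pool.Agent.H54.V

theorem C5_fpoly2 : fpoly2 C5.S C5.P2 = true := by decide +kernel

end Pool.Agent.H54.V
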