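/-
The certificate C5 proves HC5.  The two identities are checked in HA51, HA52 (sums of squares) and here.
-/
import Pool.Agent.H54.V.KDefs
import Pool.Agent.H54.V.J.SDPAbs
import Pool.Agent.H54.V.J.CertC
import Pool.Agent.H54.V.J.SosPoly
import Pool.Agent.H54.V.Data.C5
import Pool.Agent.H54.V.Data.P5
import Pool.Agent.H54.V.J.HA51
import Pool.Agent.H54.V.J.HA52
set_option autoImplicit false
set_option maxRecDepth 100000
open MeasureTheory
namespace Pool.Agent.H54.V

theorem C5_fsym1 : fsym1 C5.D C5.S.tD C5.S.r1 C5.P1 = true := by decide +kernel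

theorem C5_fsym2 : fsym2 C5.D C5.S.uD C5.S.tD C5.S.r2 C5.P2 = true := by decide +kernel

theorem C5_ok : okCert C5.D C5.S 59 100 226 = true := by decide +kernel

theorem hc5 : HC5 := by
  have h := certC C5.D C5.S 59 100 226 (fsym1_sound C5.D C5.S C5.P1 C5_fpoly1 C5_fsym1)
    (fsym2_sound C5.D C5.S C5.P2 C5_fpoly2 C5_fsym2) C5_ok 0.5155 0.6025 0.59 0.0226
    (by norm_num [C5.S]) (by norm_num [C5.S]) (by norm_num) (by norm_num)
  exact h

end Pool.Agent.H54.V
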