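/-
JOB VOR-LENSLOW (analysis).  Lower bound of the lens volume by the sharp degree 4 kernel.
Notation: a = a5 = 1/√5, g(t) = gA t = (t+1)(t+a)², λ = lam r, L = lens r, so L' = λ on (-1,1), L = 0 on [-1,t0], t0 = 2/r²-1.
A = L(a)/g(a), B = Bc r = (λ(a) g(a) - g'(a) L(a))/g(a)², g'(a) = 8a²+4a = 1.6 + 4a.  If t0 ≥ a everything is 0.
Let t0 < a.  D(t) = L(t)/g(t) - A - B (t - a) on [t0, 0.514]: D(a) = D'(a) = 0 and on (t0,1)
  D'' = [ g λ' - 2 g' λ ] / g² + L (2 g'² - g g'') / g³ ,   λ'/λ = ρ = 3/((1+t) y) + t/(1-t²),  y = r²(1+t) - 2 > 0.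
Since g is a product of linear factors, 2g'² - g g'' ≥ 0.  And g λ' - 2g'λ = λ g (ρ - 2g'/g), 2g'/g = 2/(1+t) + 4/(t+a);
ρ ≥ 2g'/g for t0 < t ≤ 0.514, r ≤ R0 : multiply by (1+t) y (1-t)(t+a): 3(1-t)(t+a) + t y (t+a) - 2 y (1-t)(t+a)
- 4 (1+t)(1-t) y ≥ 0, y ≤ R0²(1+t) - 2 ≤ 1.5837 (1+t) - 2  (at r = R0, t = 0.514 the left side of ρ - 2g'/g is 0.20).
So D is convex on [t0,0.514], D(t) ≥ 0 there, B ≥ 0 (D(t0) = -A - B(t0-a) ≥ 0 and A ≥ 0), i.e. L ≥ g (A + B(t-a)).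
For -1 ≤ t ≤ t0: A + B (t-a) ≤ A + B (t0-a) ≤ 0 = L.
`lens_room`: for r ≥ 1.216 and t ∈ [a, 0.514] one has D'' ≥ 0.0745 (minimum 0.0939, at r = R0, t = 0.514), hence
D(t) ≥ 0.03725 (t-a)², and g(t) ≥ g(a) = 0.8 (1+a) > 1.1577 gives g D ≥ 0.043 (t-a)².  For D'' ≥ 0.0745 keep the L term:
L(t) ≥ (2/5)(t - t0) λ(t) (because λ(s) ≥ λ(t) ((s-t0)/(t-t0))^{3/2}·... ; any other way is fine), numerically
at r = R0: D''(a) = 0.1564, D''(0.48) = 0.125, D''(0.514) = 0.0939; at r = 1.216: D''(a) = 0.192, D''(0.514) = 0.15.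
Any method of proof is welcome.
-/
import Pool.Agent.H54.V.Defs
set_option autoImplicit false
open MeasureTheory
namespace Pool.Agent.H54.V

noncomputable def gA (t : ℝ) : ℝ := (t + 1) * (t + a5) ^ 2

noncomputable def Bc (r : ℝ) : ℝ := (lam r a5 * gA a5 - (1.6 + 4 * a5) * lens r a5) / (gA a5) ^ 2

theorem ll_lam_nonneg (r s : ℝ) : 0 ≤ lam r s := by
  unfold lam
  refine div_nonneg (mul_nonneg (by norm_num) (Real.rpow_nonneg (le_max_right _ _) _))
    (Real.sqrt_nonneg _)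

theorem lens_nonneg (r t : ℝ) (ht : -1 ≤ t) : 0 ≤ lens r t :=
  intervalIntegral.integral_nonneg ht fun s _ => ll_lam_nonneg r s

theorem lens_eq_zero (r t : ℝ) (hr : 0 < r) (ht : -1 ≤ t) (h : (1 + t) * r ^ 2 ≤ 2) : lens r t = 0 := by
  unfold lens
  apply intervalIntegral.integral_zero_ae
  refine Filter.Eventually.of_forall fun s hs => ?_
  rw [Set.uIoc_of_le ht, Set.mem_Ioc] at hs
  have h1 : 0 < 1 + s := by linarith [hs.1]
  have h2 : r ^ 2 - 2 / (1 + s) ≤ 0 := by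
    rw [sub_nonpos, le_div_iff₀ h1]
    have : r ^ 2 * (1 + s) ≤ r ^ 2 * (1 + t) := mul_le_mul_of_nonneg_left (by linarith [hs.2]) (sq_nonneg r)
    linarith
  unfold lam
  rw [max_eq_right h2, Real.zero_rpow (by norm_num), mul_zero, zero_div]

/-! numerical facts -/

theorem ll_a5_pos : 0 < a5 := by
  unfold a5
  positivity

theorem ll_a5_sq : a5 ^ 2 = 1 / 5 := by
  unfold a5
  rw [div_pow, Real.sq_sqrt (by norm_num)]
  norm_num

theorem ll_a5_lo : 0.4472 < a5 := by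
  have h1 := ll_a5_sq
  have h2 := ll_a5_pos
  nlinarith

theorem ll_a5_hi : a5 < 0.44722 := by
  have h1 := ll_a5_sq
  have h2 := ll_a5_pos
  nlinarith

theorem ll_R0_sq : R0 ^ 2 ≤ 1.5837 := by
  have h1 : Real.cos (Real.pi / 5) = (1 + Real.sqrt 5) / 4 := Real.cos_pi_div_five
  have h5 : Real.sqrt 5 ^ 2 = 5 := Real.sq_sqrt (by norm_num)
  have h50 : 0 ≤ Real.sqrt 5 := Real.sqrt_nonneg 5
  have h51 : 2.23605 < Real.sqrt 5 := by
    rw [Real.lt_sqrt (by norm_num)]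
    norm_num
  have hc : Real.cos (Real.pi / 5) ≠ 0 := by
    rw [h1]
    positivity
  have h2 : Real.tan (Real.pi / 5) ^ 2 = 5 - 2 * Real.sqrt 5 := by
    rw [Real.tan_eq_sin_div_cos, div_pow, div_eq_iff (pow_ne_zero 2 hc)]
    have h3 := Real.sin_sq_add_cos_sq (Real.pi / 5)
    rw [h1] at h3 ⊢
    nlinarith
  unfold R0
  rw [mul_pow, h2, Real.sq_sqrt (by norm_num)]
  linarith

/-! the kernel -/

/-- the density of `lens`, in a simplified form -/
noncomputable def llNu (r t0 s : ℝ) : ℝ :=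
  (2 / 3) * r ^ 3 * ((s - t0) * Real.sqrt (s - t0)) / ((1 + s) ^ 2 * Real.sqrt (1 - s))

theorem ll_rpow (W : ℝ) : (max W 0) ^ (3 / 2 : ℝ) = W * Real.sqrt W := by
  rcases le_or_gt W 0 with h | h
  · rw [max_eq_right h, Real.zero_rpow (by norm_num), Real.sqrt_eq_zero_of_nonpos h, mul_zero]
  · rw [max_eq_left h.le, show (3 / 2 : ℝ) = 1 + 1 / 2 by norm_num, Real.rpow_add h,
      Real.rpow_one, Real.sqrt_eq_rpow]

theorem ll_lam_eq (r s : ℝ) (hr : 0 < r) (h1 : -1 ≤ s) (h2 : s < 1) :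
    lam r s = llNu r (2 / r ^ 2 - 1) s := by
  rcases h1.eq_or_lt with h | h
  · subst h
    unfold lam llNu
    norm_num
  · have h3 : 0 < 1 + s := by linarith
    have h4 : 0 < 1 - s := by linarith
    unfold lam llNu
    have e1 : r ^ 2 - 2 / (1 + s) = r ^ 2 * (s - (2 / r ^ 2 - 1)) / (1 + s) := by
      field_simp
      ring
    have e2 : Real.sqrt (1 - s ^ 2) = Real.sqrt (1 - s) * Real.sqrt (1 + s) := by
      rw [← Real.sqrt_mul h4.le]
      congr 1
      ring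
    have e3 : Real.sqrt (r ^ 2 * (s - (2 / r ^ 2 - 1)) / (1 + s)) =
        r * Real.sqrt (s - (2 / r ^ 2 - 1)) / Real.sqrt (1 + s) := by
      rw [Real.sqrt_div' _ h3.le, Real.sqrt_mul (sq_nonneg r), Real.sqrt_sq hr.le]
    rw [ll_rpow, e1, e2, e3]
    have e4 : Real.sqrt (1 + s) ^ 2 = 1 + s := Real.sq_sqrt h3.le
    have e5 : 0 < Real.sqrt (1 + s) := Real.sqrt_pos.2 h3
    have e6 : 0 < Real.sqrt (1 - s) := Real.sqrt_pos.2 h4
    rw [div_eq_div_iff (by positivity) (by positivity)]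
    field_simp
    rw [e4]
    ring

theorem ll_nu_zero (r t0 s : ℝ) (h : s ≤ t0) : llNu r t0 s = 0 := by
  unfold llNu
  rw [Real.sqrt_eq_zero_of_nonpos (by linarith)]
  simp

theorem ll_nu_nonneg (r t0 s : ℝ) (hr : 0 ≤ r) : 0 ≤ llNu r t0 s := by
  rcases le_total s t0 with h | h
  · rw [ll_nu_zero r t0 s h]
  · have : 0 ≤ s - t0 := by linarith
    unfold llNu
    positivity

theorem ll_nu_pos (r t0 s : ℝ) (hr : 0 < r) (h : t0 < s) (h1 : -1 < s) (h2 : s < 1) :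
    0 < llNu r t0 s := by
  have h3 : 0 < s - t0 := by linarith
  have h4 : 0 < 1 - s := by linarith
  have h5 : 0 < 1 + s := by linarith
  unfold llNu
  positivity

theorem ll_nu_cont (r t0 : ℝ) (h0 : -1 < t0) : ContinuousOn (llNu r t0) (Set.Iio 1) := by
  intro s hs
  apply ContinuousAt.continuousWithinAt
  rcases lt_or_ge s t0 with h | h
  · have : llNu r t0 =ᶠ[nhds s] fun _ => 0 := by
      filter_upwards [isOpen_Iio.mem_nhds h] with x hx
      exact ll_nu_zero r t0 x (le_of_lt hx)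
    exact this.continuousAt
  · have h1 : 0 < 1 - s := by linarith [Set.mem_Iio.1 hs]
    have h2 : 0 < 1 + s := by linarith
    unfold llNu
    refine ContinuousAt.div (by fun_prop) (by fun_prop) ?_
    positivity

/-- the logarithmic derivative of the density -/
theorem ll_nu_deriv (r t0 t : ℝ) (h : t0 < t) (h1 : -1 < t) (h2 : t < 1) :
    HasDerivAt (llNu r t0)
      (llNu r t0 t * (3 / (2 * (t - t0)) - 2 / (1 + t) + 1 / (2 * (1 - t)))) t := by
  have h3 : 0 < t - t0 := by linarith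
  have h4 : 0 < 1 - t := by linarith
  have h5 : 0 < 1 + t := by linarith
  have w0 : 0 < Real.sqrt (t - t0) := Real.sqrt_pos.2 h3
  have z0 : 0 < Real.sqrt (1 - t) := Real.sqrt_pos.2 h4
  have w2 : Real.sqrt (t - t0) ^ 2 = t - t0 := Real.sq_sqrt h3.le
  have z2 : Real.sqrt (1 - t) ^ 2 = 1 - t := Real.sq_sqrt h4.le
  have d1 : HasDerivAt (fun s : ℝ => s - t0) 1 t := (hasDerivAt_id t).sub_const t0
  have d2 : HasDerivAt (fun s : ℝ => Real.sqrt (s - t0)) (1 / (2 * Real.sqrt (t - t0))) t :=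
    d1.sqrt h3.ne'
  have d3 : HasDerivAt (fun s : ℝ => 1 - s) (-1) t := by
    simpa using (hasDerivAt_id t).const_sub 1
  have d4 : HasDerivAt (fun s : ℝ => Real.sqrt (1 - s)) (-1 / (2 * Real.sqrt (1 - t))) t :=
    d3.sqrt h4.ne'
  have d5 : HasDerivAt (fun s : ℝ => (1 + s) ^ 2) (2 * (1 + t)) t := by
    have h6 := ((hasDerivAt_id t).const_add 1).fun_pow 2
    refine h6.congr_deriv ?_
    simp
  have d7 : (1 + t) ^ 2 * Real.sqrt (1 - t) ≠ 0 := by positivity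
  have d6 := ((d1.fun_mul d2).const_mul ((2 / 3) * r ^ 3)).fun_div (d5.fun_mul d4) d7
  unfold llNu
  refine d6.congr_deriv ?_
  generalize Real.sqrt (t - t0) = w at *
  generalize Real.sqrt (1 - t) = z at *
  rw [← w2, ← z2]
  field_simp
  ring

/-! the primitive -/

/-- the primitive of `llNu` -/
noncomputable def llPrim (r t0 t : ℝ) : ℝ := ∫ s in (-1 : ℝ)..t, llNu r t0 s

theorem ll_lens_eq (r t : ℝ) (hr : 0 < r) (h1 : -1 ≤ t) (h2 : t < 1) :
    lens r t = llPrim r (2 / r ^ 2 - 1) t := by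
  unfold lens llPrim
  apply intervalIntegral.integral_congr
  intro s hs
  rw [Set.uIcc_of_le h1] at hs
  exact ll_lam_eq r s hr hs.1 (lt_of_le_of_lt hs.2 h2)

theorem ll_LL_deriv (r t0 t : ℝ) (h0 : -1 < t0) (h1 : -1 < t) (h2 : t < 1) :
    HasDerivAt (llPrim r t0) (llNu r t0 t) t := by
  have hc := ll_nu_cont r t0 h0
  refine intervalIntegral.integral_hasDerivAt_right ?_ ?_ ?_
  · apply ContinuousOn.intervalIntegrable
    apply hc.mono
    rw [Set.uIcc_of_le h1.le]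
    intro s hs
    exact lt_of_le_of_lt hs.2 h2
  · exact ContinuousOn.stronglyMeasurableAtFilter isOpen_Iio hc t h2
  · exact hc.continuousAt (isOpen_Iio.mem_nhds h2)

theorem ll_LL_zero (r t0 t : ℝ) (h0 : -1 ≤ t) (h : t ≤ t0) : llPrim r t0 t = 0 := by
  unfold llPrim
  apply intervalIntegral.integral_zero_ae
  refine Filter.Eventually.of_forall fun s hs => ?_
  rw [Set.uIoc_of_le h0, Set.mem_Ioc] at hs
  exact ll_nu_zero r t0 s (hs.2.trans h)

theorem ll_LL_nonneg (r t0 t : ℝ) (hr : 0 ≤ r) (h0 : -1 ≤ t) : 0 ≤ llPrim r t0 t :=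
  intervalIntegral.integral_nonneg h0 fun s _ => ll_nu_nonneg r t0 s hr

/-- `L(t) ≥ (2/5) (t - t0) λ(t)` -/
theorem ll_LL_lower (r t0 t : ℝ) (hr : 0 < r) (h0 : -1 < t0) (h1 : t0 ≤ t) (h2 : t ≤ 3 / 5) :
    2 / 5 * (t - t0) * llNu r t0 t ≤ llPrim r t0 t := by
  have hd : ∀ s ∈ Set.Ioo t0 (3 / 5), HasDerivAt (fun s => llPrim r t0 s - 2 / 5 * ((s - t0) * llNu r t0 s))
      (llNu r t0 s - 2 / 5 * (1 * llNu r t0 s + (s - t0) *
        (llNu r t0 s * (3 / (2 * (s - t0)) - 2 / (1 + s) + 1 / (2 * (1 - s)))))) s := by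
    intro s hs
    have e1 := ll_LL_deriv r t0 s h0 (h0.trans hs.1) (by linarith [hs.2])
    have e2 := ll_nu_deriv r t0 s hs.1 (h0.trans hs.1) (by linarith [hs.2])
    exact e1.sub ((((hasDerivAt_id s).sub_const t0).mul e2).const_mul _)
  have hc : ContinuousOn (fun s => llPrim r t0 s - 2 / 5 * ((s - t0) * llNu r t0 s))
      (Set.Icc t0 (3 / 5)) := by
    have c1 : ContinuousOn (llPrim r t0) (Set.Icc t0 (3 / 5)) := fun s hs =>
      (ll_LL_deriv r t0 s h0 (by linarith [hs.1]) (by linarith [hs.2])).continuousAt.continuousWithinAt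
    have c2 : ContinuousOn (llNu r t0) (Set.Icc t0 (3 / 5)) :=
      (ll_nu_cont r t0 h0).mono fun s hs => by
        rw [Set.mem_Iio]
        linarith [hs.2]
    fun_prop
  have hm : MonotoneOn (fun s => llPrim r t0 s - 2 / 5 * ((s - t0) * llNu r t0 s))
      (Set.Icc t0 (3 / 5)) := by
    apply monotoneOn_of_deriv_nonneg (convex_Icc _ _) hc
    · rw [interior_Icc]
      intro s hs
      exact (hd s hs).differentiableAt.differentiableWithinAt
    · rw [interior_Icc]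
      intro s hs
      rw [(hd s hs).deriv]
      have e1 : 0 < s - t0 := by linarith [hs.1]
      have e2 : 0 < 1 + s := by linarith [hs.1]
      have e3 : 0 < 1 - s := by linarith [hs.2]
      have e4 := ll_nu_nonneg r t0 s hr.le
      have e5 : llNu r t0 s - 2 / 5 * (1 * llNu r t0 s + (s - t0) *
        (llNu r t0 s * (3 / (2 * (s - t0)) - 2 / (1 + s) + 1 / (2 * (1 - s))))) =
          llNu r t0 s * (2 / 5 * (s - t0) * ((3 - 5 * s) / (2 * (1 + s) * (1 - s)))) := by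
        field_simp
        ring
      rw [e5]
      have e6 : 0 ≤ 3 - 5 * s := by linarith [hs.2]
      positivity
  have h3 := hm ⟨le_refl _, h1.trans h2⟩ ⟨h1, h2⟩ h1
  simp only [ll_LL_zero r t0 t0 h0.le (le_refl _), sub_self, zero_mul, mul_zero] at h3
  linarith

/-! the weight `1/g` -/

/-- `1/g` -/
noncomputable def llP (t : ℝ) : ℝ := ((1 + t) * (t + a5) ^ 2)⁻¹

theorem ll_pp_pos (t : ℝ) (h : -1 < t) (h' : -a5 < t) : 0 < llP t := by
  unfold llP
  have h1 : 0 < 1 + t := by linarith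
  have h2 : 0 < t + a5 := by linarith
  positivity

theorem ll_pp_deriv (t : ℝ) (h : -1 < t) (h' : -a5 < t) :
    HasDerivAt llP (-(llP t * (1 / (1 + t) + 2 / (t + a5)))) t := by
  have h1 : 0 < 1 + t := by linarith
  have h2 : 0 < t + a5 := by linarith
  have d1 : HasDerivAt (fun s : ℝ => 1 + s) 1 t := (hasDerivAt_id t).const_add 1
  have d2 : HasDerivAt (fun s : ℝ => (s + a5) ^ 2) (2 * (t + a5)) t := by
    have h6 := ((hasDerivAt_id t).add_const a5).fun_pow 2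
    refine h6.congr_deriv ?_
    simp
  have d3 : (1 + t) * (t + a5) ^ 2 ≠ 0 := by positivity
  have d4 := (d1.fun_mul d2).fun_inv d3
  unfold llP
  refine d4.congr_deriv ?_
  field_simp

theorem ll_pp_deriv2 (t : ℝ) (h : -1 < t) (h' : -a5 < t) :
    HasDerivAt (fun t => -(llP t * (1 / (1 + t) + 2 / (t + a5))))
      (llP t * (2 / (1 + t) ^ 2 + 4 / ((1 + t) * (t + a5)) + 6 / (t + a5) ^ 2)) t := by
  have h1 : 0 < 1 + t := by linarith
  have h2 : 0 < t + a5 := by linarith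
  have d1 : HasDerivAt (fun s : ℝ => 1 / (1 + s)) (-1 / (1 + t) ^ 2) t := by
    have := ((hasDerivAt_id t).const_add 1).fun_inv h1.ne'
    simpa using this
  have d2 : HasDerivAt (fun s : ℝ => 2 / (s + a5)) (2 * (-1 / (t + a5) ^ 2)) t := by
    have := (((hasDerivAt_id t).add_const a5).fun_inv h2.ne').const_mul 2
    simpa [div_eq_mul_inv] using this
  have d3 := ((ll_pp_deriv t h h').fun_mul (d1.fun_add d2)).fun_neg
  refine d3.congr_deriv ?_
  field_simp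
  ring

/-! a calculus lemma -/

theorem ll_tangent {f f1 f2 : ℝ → ℝ} {x y : ℝ} (hf : ∀ t ∈ Set.Icc x y, HasDerivAt f (f1 t) t)
    (hc : ContinuousOn f1 (Set.Icc x y)) (hf1 : ∀ t ∈ Set.Ioo x y, HasDerivAt f1 (f2 t) t)
    (h2 : ∀ t ∈ Set.Ioo x y, 0 ≤ f2 t) {s t : ℝ} (hs : s ∈ Set.Icc x y) (ht : t ∈ Set.Icc x y) :
    f s + f1 s * (t - s) ≤ f t := by
  have hm : MonotoneOn f1 (Set.Icc x y) := by
    apply monotoneOn_of_deriv_nonneg (convex_Icc _ _) hc
    · rw [interior_Icc]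
      intro u hu
      exact (hf1 u hu).differentiableAt.differentiableWithinAt
    · rw [interior_Icc]
      intro u hu
      rw [(hf1 u hu).deriv]
      exact h2 u hu
  have hfc : ContinuousOn f (Set.Icc x y) := fun u hu => (hf u hu).continuousAt.continuousWithinAt
  rcases lt_trichotomy s t with h | h | h
  · have hsub : Set.Icc s t ⊆ Set.Icc x y := Set.Icc_subset_Icc hs.1 ht.2
    obtain ⟨c, hc1, hc2⟩ := exists_hasDerivAt_eq_slope f f1 h (hfc.mono hsub)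
      (fun u hu => hf u (hsub (Set.Ioo_subset_Icc_self hu)))
    have h3 := hm hs (hsub (Set.Ioo_subset_Icc_self hc1)) hc1.1.le
    rw [hc2, le_div_iff₀ (by linarith)] at h3
    linarith
  · subst h
    simp
  · have hsub : Set.Icc t s ⊆ Set.Icc x y := Set.Icc_subset_Icc ht.1 hs.2
    obtain ⟨c, hc1, hc2⟩ := exists_hasDerivAt_eq_slope f f1 h (hfc.mono hsub)
      (fun u hu => hf u (hsub (Set.Ioo_subset_Icc_self hu)))
    have h3 := hm (hsub (Set.Ioo_subset_Icc_self hc1)) hs hc1.2.le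
    rw [hc2, div_le_iff₀ (by linarith)] at h3
    linarith

/-! polynomial inequalities -/

theorem ll_n1 {a t : ℝ} (a1 : 0.4472 < a) (a2 : a < 0.44722) (ht : 0.2628 ≤ t) (ht' : t ≤ 0.514) :
    (t - 0.2628) * (8 * (t + a) * (1 - t) + 8 * (1 + t) * (1 - t) - (1 + t) * (t + a)) ≤
      3 * ((1 + t) * (t + a) * (1 - t)) := by
  have h1 : 0 ≤ 3 * (1 - t ^ 2) - (t - 0.2628) * (7 - 9 * t) := by nlinarith
  have h2 : 0 ≤ 0.4472 * (3 * (1 - t ^ 2) - (t - 0.2628) * (7 - 9 * t)) +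
      (3 * (1 - t ^ 2) * t - (t - 0.2628) * (8 * t * (1 - t) + 8 * (1 - t ^ 2) - t * (1 + t))) := by
    nlinarith [mul_nonneg (sub_nonneg.2 ht) (sub_nonneg.2 ht'),
      mul_nonneg (mul_nonneg (sub_nonneg.2 ht) (sub_nonneg.2 ht')) (sub_nonneg.2 ht')]
  nlinarith [mul_nonneg h1 (sub_nonneg.2 a1.le)]

theorem ll_n2a {x : ℝ} (h0 : 0 ≤ x) (h1 : x ≤ 0.0668) : 4 ≤ (2.7641 - 1.82 * x) * (1.4472 + x) := by
  nlinarith [mul_nonneg h0 (sub_nonneg.2 h1)]

theorem ll_n2b {x : ℝ} (h0 : 0 ≤ x) (h1 : x ≤ 0.0668) : 4 ≤ (4.4725 - 4.65 * x) * (0.8944 + x) := by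
  nlinarith [mul_nonneg h0 (sub_nonneg.2 h1)]

theorem ll_n2c {x : ℝ} (h0 : 0 ≤ x) (h1 : x ≤ 0.0668) :
    (0.904 + 1.63 * x) * (2 * (0.5528 - x)) ≤ 1 := by
  nlinarith [mul_nonneg h0 (sub_nonneg.2 h1)]

theorem ll_n5 {x : ℝ} (h0 : 0 ≤ x) (h1 : x ≤ 0.0668) :
    (0.3074 + 1.4 * x) ^ 2 ≤ x + 0.09461 := by
  nlinarith [mul_nonneg h0 (sub_nonneg.2 h1)]

theorem ll_n6 {x : ℝ} (h0 : 0 ≤ x) (h1 : x ≤ 0.0668) :
    (1.44722 + x) ^ 3 * (0.89444 + x) ^ 2 ≤ 2.4252 + 11.71 * x := by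
  have e1 : (1.44722 + x) ^ 3 ≤ 3.0312 + 6.58 * x := by
    nlinarith [mul_nonneg h0 (sub_nonneg.2 h1), mul_nonneg h0 (mul_nonneg h0 (sub_nonneg.2 h1))]
  have e2 : (0.89444 + x) ^ 2 ≤ 0.80003 + 1.856 * x := by
    nlinarith [mul_nonneg h0 (sub_nonneg.2 h1)]
  have e3 : (1.44722 + x) ^ 3 * (0.89444 + x) ^ 2 ≤ (3.0312 + 6.58 * x) * (0.80003 + 1.856 * x) :=
    mul_le_mul e1 e2 (by positivity) (by positivity)
  refine e3.trans ?_
  nlinarith [mul_nonneg h0 (sub_nonneg.2 h1)]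

theorem ll_n7 {x : ℝ} (h0 : 0 ≤ x) (h1 : x ≤ 0.0668) :
    0.74351 * (2.4252 + 11.71 * x) * (0.088 - 0.45 * x) ≤
      2 / 3 * 1.216 ^ 3 * (0.3074 + 1.4 * x) *
        (3 / 2 - (6.335 - 8.1 * x) * (x + 0.18442) + 4.04 * (x + 0.18442) ^ 2) := by
  have e1 : 0 ≤ (x + 0.1) * (x - 0.05) ^ 2 := by positivity
  have e2 : 0 ≤ (x - 0.045) ^ 2 := by positivity
  have e3 : 2 / 3 * 1.216 ^ 3 * (0.3074 + 1.4 * x) *
        (3 / 2 - (6.335 - 8.1 * x) * (x + 0.18442) + 4.04 * (x + 0.18442) ^ 2) -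
      0.74351 * (2.4252 + 11.71 * x) * (0.088 - 0.45 * x) ≥
      20.37 * ((x + 0.1) * (x - 0.05) ^ 2) + 2.7 * (x - 0.045) ^ 2 := by
    nlinarith [mul_nonneg h0 (sub_nonneg.2 h1), mul_nonneg h0 (mul_nonneg h0 (sub_nonneg.2 h1)),
      pow_nonneg h0 3, pow_nonneg h0 2]
  linarith

theorem ll_n8 (x : ℝ) :
    0 ≤ 3 / 2 - (6.335 - 8.1 * x) * (x + 0.18442) + 4.04 * (x + 0.18442) ^ 2 := by
  nlinarith [sq_nonneg (x - 0.138)]

/-! the second derivative of `L/g` -/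

/-- `-(λ'/λ - 2g'/g) + 3/(2(t-t0))` -/
noncomputable def llC (t : ℝ) : ℝ := 4 / (1 + t) + 4 / (t + a5) - 1 / (2 * (1 - t))

noncomputable def llK (t : ℝ) : ℝ := 2 / (1 + t) ^ 2 + 4 / ((1 + t) * (t + a5)) + 6 / (t + a5) ^ 2

noncomputable def llQ0 (r t0 t : ℝ) : ℝ := llPrim r t0 t * llP t

noncomputable def llQ1 (r t0 t : ℝ) : ℝ :=
  llNu r t0 t * llP t + llPrim r t0 t * (-(llP t * (1 / (1 + t) + 2 / (t + a5))))

noncomputable def llQ2 (r t0 t : ℝ) : ℝ :=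
  (llNu r t0 t * (3 / (2 * (t - t0)) - 2 / (1 + t) + 1 / (2 * (1 - t)))) * llP t +
    llNu r t0 t * (-(llP t * (1 / (1 + t) + 2 / (t + a5)))) +
    (llNu r t0 t * (-(llP t * (1 / (1 + t) + 2 / (t + a5)))) + llPrim r t0 t *
      (llP t * (2 / (1 + t) ^ 2 + 4 / ((1 + t) * (t + a5)) + 6 / (t + a5) ^ 2)))

theorem ll_q0_deriv (r t0 t : ℝ) (h0 : 0 < t0) (h : 0 < t) (h1 : t < 1) :
    HasDerivAt (llQ0 r t0) (llQ1 r t0 t) t := by
  have ha := ll_a5_pos
  exact (ll_LL_deriv r t0 t (by linarith) (by linarith) h1).fun_mul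
    (ll_pp_deriv t (by linarith) (by linarith))

theorem ll_q1_deriv (r t0 t : ℝ) (h0 : 0 < t0) (h : t0 < t) (h1 : t < 1) :
    HasDerivAt (llQ1 r t0) (llQ2 r t0 t) t := by
  have ha := ll_a5_pos
  exact ((ll_nu_deriv r t0 t h (by linarith) h1).fun_mul
    (ll_pp_deriv t (by linarith) (by linarith))).fun_add
    ((ll_LL_deriv r t0 t (by linarith) (by linarith) h1).fun_mul
    (ll_pp_deriv2 t (by linarith) (by linarith)))

theorem ll_q1_cont (r t0 : ℝ) (h0 : 0 < t0) : ContinuousOn (llQ1 r t0) (Set.Icc t0 0.514) := by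
  have ha := ll_a5_pos
  have c1 : ContinuousOn (llPrim r t0) (Set.Icc t0 0.514) := fun s hs =>
    (ll_LL_deriv r t0 s (by linarith) (by linarith [hs.1])
      (by norm_num at hs; linarith [hs.2])).continuousAt.continuousWithinAt
  have c2 : ContinuousOn (llNu r t0) (Set.Icc t0 0.514) :=
    (ll_nu_cont r t0 (by linarith)).mono fun s hs => by
      rw [Set.mem_Iio]
      norm_num at hs
      linarith [hs.2]
  have c3 : ContinuousOn llP (Set.Icc t0 0.514) := fun s hs =>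
    (ll_pp_deriv s (by linarith [hs.1]) (by linarith [hs.1])).continuousAt.continuousWithinAt
  have c4 : ContinuousOn (fun t => -(llP t * (1 / (1 + t) + 2 / (t + a5)))) (Set.Icc t0 0.514) :=
    fun s hs =>
    (ll_pp_deriv2 s (by linarith [hs.1]) (by linarith [hs.1])).continuousAt.continuousWithinAt
  exact (c2.mul c3).add (c1.mul c4)

theorem ll_q2_lower (r t0 t : ℝ) (hr : 0 < r) (h0 : 0 < t0) (h : t0 < t) (h1 : t ≤ 0.514) :
    llP t * llNu r t0 t / (t - t0) *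
      (3 / 2 - llC t * (t - t0) + 2 / 5 * llK t * (t - t0) ^ 2) ≤ llQ2 r t0 t := by
  have ha := ll_a5_pos
  norm_num at h1
  have e1 : 0 < t - t0 := by linarith
  have e2 : 0 < 1 + t := by linarith
  have e3 : 0 < 1 - t := by linarith
  have e4 : 0 < t + a5 := by linarith
  have e5 : 0 < llP t := ll_pp_pos t (by linarith) (by linarith)
  have e6 := ll_LL_lower r t0 t hr (by linarith) h.le (by linarith)
  have e7 : 0 ≤ llK t := by unfold llK; positivity
  have e8 : llQ2 r t0 t = llP t * llNu r t0 t / (t - t0) * (3 / 2 - llC t * (t - t0)) +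
      llP t * llK t * llPrim r t0 t := by
    unfold llQ2 llC llK
    field_simp
    ring
  rw [e8]
  have e9 : llP t * llNu r t0 t / (t - t0) *
      (3 / 2 - llC t * (t - t0) + 2 / 5 * llK t * (t - t0) ^ 2) =
      llP t * llNu r t0 t / (t - t0) * (3 / 2 - llC t * (t - t0)) +
        llP t * llK t * (2 / 5 * (t - t0) * llNu r t0 t) := by
    field_simp
  rw [e9]
  have e10 : 0 ≤ llP t * llK t := by positivity
  linarith [mul_le_mul_of_nonneg_left e6 e10]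

theorem ll_phi (t0 t : ℝ) (h0 : 0.2628 ≤ t0) (h : t0 < t) (h1 : t ≤ 0.514) :
    0 ≤ 3 / 2 - llC t * (t - t0) := by
  have a1 := ll_a5_lo
  have a2 := ll_a5_hi
  have n1 := ll_n1 a1 a2 (h0.trans h.le) h1
  norm_num at h0 h1 a1 a2
  have e2 : 0 < 1 + t := by linarith
  have e3 : 0 < 1 - t := by linarith
  have e4 : 0 < t + a5 := by linarith
  have e5 : llC t = (8 * (t + a5) * (1 - t) + 8 * (1 + t) * (1 - t) - (1 + t) * (t + a5)) /
      (2 * ((1 + t) * (t + a5) * (1 - t))) := by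
    unfold llC
    field_simp
    ring
  have e6 : 0 ≤ 8 * (t + a5) * (1 - t) + 8 * (1 + t) * (1 - t) - (1 + t) * (t + a5) := by
    nlinarith [mul_pos e2 e3, mul_pos e4 e3, mul_nonneg e2.le (show 0 ≤ 8 * (1 - t) - (t + a5) by linarith)]
  have e7 : (t - t0) * (8 * (t + a5) * (1 - t) + 8 * (1 + t) * (1 - t) - (1 + t) * (t + a5)) ≤
      (t - 0.2628) * (8 * (t + a5) * (1 - t) + 8 * (1 + t) * (1 - t) - (1 + t) * (t + a5)) :=
    mul_le_mul_of_nonneg_right (by norm_num; linarith) e6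
  have e8 : 0 < 2 * ((1 + t) * (t + a5) * (1 - t)) := by positivity
  rw [sub_nonneg, e5, div_mul_eq_mul_div, div_le_iff₀ e8]
  linarith

theorem ll_phi2 (t0 t : ℝ) (h0 : 0.2628 ≤ t0) (h : t0 < t) (ht : a5 ≤ t) (h1 : t ≤ 0.514) :
    3 / 2 - (6.335 - 8.1 * (t - a5)) * (t - a5 + 0.18442) + 4.04 * (t - a5 + 0.18442) ^ 2 ≤
      3 / 2 - llC t * (t - t0) + 2 / 5 * llK t * (t - t0) ^ 2 := by
  have a1 := ll_a5_lo
  have a2 := ll_a5_hi
  set x := t - a5 with hx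
  have x0 : 0 ≤ x := by linarith
  have x1 : x ≤ 0.0668 := by norm_num at *; linarith
  have na := ll_n2a x0 x1
  have nb := ll_n2b x0 x1
  have nc := ll_n2c x0 x1
  norm_num at h0 h1 a1 a2 x1 na nb nc
  have e2 : 0 < 1 + t := by linarith
  have e3 : 0 < 1 - t := by linarith
  have e4 : 0 < t + a5 := by linarith
  have f1 : 4 / (1 + t) ≤ 2.7641 - 1.82 * x := by
    rw [div_le_iff₀ e2]
    norm_num
    nlinarith
  have f2 : 4 / (t + a5) ≤ 4.4725 - 4.65 * x := by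
    rw [div_le_iff₀ e4]
    norm_num
    nlinarith
  have f3 : 0.904 + 1.63 * x ≤ 1 / (2 * (1 - t)) := by
    rw [le_div_iff₀ (by positivity)]
    norm_num
    nlinarith
  have hc : llC t ≤ 6.335 - 8.1 * x := by
    unfold llC
    norm_num at f1 f2 f3 ⊢
    linarith
  have hK : 10.1 ≤ llK t := by
    have g1 : 0.872 ≤ 2 / (1 + t) ^ 2 := by
      rw [le_div_iff₀ (by positivity)]
      norm_num
      nlinarith
    have g2 : 2.745 ≤ 4 / ((1 + t) * (t + a5)) := by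
      rw [le_div_iff₀ (by positivity)]
      norm_num
      nlinarith [mul_pos e2 e4]
    have g3 : 6.485 ≤ 6 / (t + a5) ^ 2 := by
      rw [le_div_iff₀ (by positivity)]
      norm_num
      nlinarith
    unfold llK
    norm_num at g1 g2 g3 ⊢
    linarith
  set u := t - t0 with hu
  have u0 : 0 < u := by linarith
  have u1 : u ≤ x + 0.18442 := by norm_num; linarith
  have k1 : llC t * u ≤ (6.335 - 8.1 * x) * u := mul_le_mul_of_nonneg_right hc u0.le
  have k2 : 10.1 * u ^ 2 ≤ llK t * u ^ 2 := mul_le_mul_of_nonneg_right hK (sq_nonneg u)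
  have k3 : 0 ≤ (x + 0.18442 - u) * ((6.335 - 8.1 * x) - 4.04 * (x + 0.18442 + u)) := by
    apply mul_nonneg (by linarith)
    norm_num at u1 ⊢
    linarith
  nlinarith [k1, k2, k3]


theorem ll_q2_nonneg (r t0 t : ℝ) (hr : 0 < r) (h0 : 0.2628 ≤ t0) (h : t0 < t)
    (h1 : t ≤ 0.514) : 0 ≤ llQ2 r t0 t := by
  have ha := ll_a5_pos
  have h0' : 0 < t0 := by norm_num at h0; linarith
  have h3 := ll_q2_lower r t0 t hr h0' h h1
  have h4 := ll_phi t0 t h0 h h1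
  norm_num at h1
  have e1 : 0 < t - t0 := by linarith
  have e2 : 0 < 1 + t := by linarith
  have e4 : 0 < t + a5 := by linarith
  have e5 : 0 < llP t := ll_pp_pos t (by linarith) (by linarith)
  have e6 := ll_nu_nonneg r t0 t hr.le
  have e7 : 0 ≤ llK t := by unfold llK; positivity
  refine le_trans ?_ h3
  have e8 : 0 ≤ 2 / 5 * llK t * (t - t0) ^ 2 := by positivity
  have e9 : 0 ≤ llP t * llNu r t0 t / (t - t0) := by positivity
  exact mul_nonneg e9 (by linarith)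

theorem ll_t0_lo (r : ℝ) (h1 : 1 < r) (hr : r ≤ R0) : 0.2628 ≤ 2 / r ^ 2 - 1 := by
  have h2 : r ^ 2 ≤ 1.5837 := by
    refine le_trans ?_ ll_R0_sq
    exact pow_le_pow_left₀ (by linarith) hr 2
  have h3 : 0 < r ^ 2 := by positivity
  have h4 : 1.2628 ≤ 2 / r ^ 2 := by
    rw [le_div_iff₀ h3]
    norm_num at h2 ⊢
    linarith
  norm_num at h4 ⊢
  linarith

theorem ll_gA_pos (t : ℝ) (h : 0 < t) : 0 < gA t := by
  have ha := ll_a5_pos
  unfold gA
  positivity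

theorem ll_gA_pp (t : ℝ) : llP t = (gA t)⁻¹ := by
  unfold llP gA
  rw [add_comm 1 t]

theorem ll_a5_lt_one : a5 < 1 := by
  have := ll_a5_hi
  norm_num at this
  linarith

theorem ll_A_eq (r : ℝ) (h1 : 1 < r) :
    lens r a5 / gA a5 = llQ0 r (2 / r ^ 2 - 1) a5 := by
  have ha := ll_a5_pos
  have ha1 := ll_a5_lt_one
  unfold llQ0
  rw [ll_lens_eq r a5 (by linarith) (by linarith) ha1, ll_gA_pp, div_eq_mul_inv]

theorem ll_B_eq (r : ℝ) (h1 : 1 < r) : Bc r = llQ1 r (2 / r ^ 2 - 1) a5 := by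
  have ha := ll_a5_pos
  have ha1 := ll_a5_lt_one
  have hg := ll_gA_pos a5 ha
  unfold llQ1 Bc
  rw [ll_lens_eq r a5 (by linarith) (by linarith) ha1, ll_gA_pp,
    ll_lam_eq r a5 (by linarith) (by linarith) ha1]
  have e1 : 1.6 + 4 * a5 = gA a5 * (1 / (1 + a5) + 2 / (a5 + a5)) := by
    unfold gA
    have h2 : (1 + a5) ≠ 0 := by positivity
    field_simp
    have := ll_a5_sq
    norm_num
    nlinarith
  rw [e1]
  field_simp
  ring

theorem ll_tangent_q (r : ℝ) (h1 : 1 < r) (hr : r ≤ R0) (h : 2 / r ^ 2 - 1 < a5) (t : ℝ)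
    (ht : 2 / r ^ 2 - 1 ≤ t) (ht' : t ≤ 0.514) :
    llQ0 r (2 / r ^ 2 - 1) a5 + llQ1 r (2 / r ^ 2 - 1) a5 * (t - a5) ≤ llQ0 r (2 / r ^ 2 - 1) t := by
  have h2 := ll_t0_lo r h1 hr
  have a2 := ll_a5_hi
  have h3 : (0 : ℝ) < 2 / r ^ 2 - 1 := lt_of_lt_of_le (by norm_num) h2
  refine ll_tangent (f2 := llQ2 r (2 / r ^ 2 - 1)) (x := 2 / r ^ 2 - 1) (y := 0.514) (fun s hs => ?_)
    (ll_q1_cont r _ h3) (fun s hs => ?_) (fun s hs => ?_) ⟨h.le, ?_⟩ ⟨ht, ht'⟩
  · exact ll_q0_deriv r _ s h3 (h3.trans_le hs.1) (lt_of_le_of_lt hs.2 (by norm_num))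
  · exact ll_q1_deriv r _ s h3 hs.1 (lt_trans hs.2 (by norm_num))
  · exact ll_q2_nonneg r _ s (by linarith) h2 hs.1 hs.2.le
  · exact a2.le.trans (by norm_num)

theorem Bc_nonneg (r : ℝ) (h1 : 1 < r) (hr : r ≤ R0) : 0 ≤ Bc r := by
  have h2 := ll_t0_lo r h1 hr
  have ha := ll_a5_pos
  have h3 : (0 : ℝ) < 2 / r ^ 2 - 1 := lt_of_lt_of_le (by norm_num) h2
  rw [ll_B_eq r h1]
  rcases le_or_gt a5 (2 / r ^ 2 - 1) with h | h
  · unfold llQ1
    rw [ll_nu_zero _ _ _ h, ll_LL_zero _ _ _ (by linarith) h]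
    simp
  · have h4 := ll_tangent_q r h1 hr h (2 / r ^ 2 - 1) le_rfl
      (h.le.trans (ll_a5_hi.le.trans (by norm_num)))
    have h5 : llQ0 r (2 / r ^ 2 - 1) (2 / r ^ 2 - 1) = 0 := by
      unfold llQ0
      rw [ll_LL_zero _ _ _ (by linarith) le_rfl, zero_mul]
    have h6 : 0 ≤ llQ0 r (2 / r ^ 2 - 1) a5 :=
      mul_nonneg (ll_LL_nonneg _ _ _ (by linarith) (by linarith))
        (ll_pp_pos _ (by linarith) (by linarith)).le
    rw [h5] at h4
    by_contra hcon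
    push Not at hcon
    nlinarith [mul_pos (neg_pos.2 hcon) (sub_pos.2 h)]

theorem lens_ge (r : ℝ) (h1 : 1 < r) (hr : r ≤ R0) (t : ℝ) (ht : -1 ≤ t) (ht' : t ≤ 0.514) :
    gA t * (lens r a5 / gA a5 + Bc r * (t - a5)) ≤ lens r t := by
  have h2 := ll_t0_lo r h1 hr
  have ha := ll_a5_pos
  have h3 : (0 : ℝ) < 2 / r ^ 2 - 1 := lt_of_lt_of_le (by norm_num) h2
  have ht1 : t < 1 := lt_of_le_of_lt ht' (by norm_num)
  rw [ll_A_eq r h1, ll_lens_eq r t (by linarith) ht ht1]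
  rcases le_or_gt a5 (2 / r ^ 2 - 1) with h | h
  · rw [ll_B_eq r h1]
    unfold llQ1 llQ0
    rw [ll_nu_zero _ _ _ h, ll_LL_zero _ _ _ (by linarith) h]
    simp only [zero_mul, add_zero, mul_zero]
    exact ll_LL_nonneg _ _ _ (by linarith) ht
  · have hB := Bc_nonneg r h1 hr
    rcases le_total (2 / r ^ 2 - 1) t with h4 | h4
    · have h5 := ll_tangent_q r h1 hr h t h4 ht'
      have h6 := ll_gA_pos t (by linarith)
      rw [ll_B_eq r h1]
      have h7 := mul_le_mul_of_nonneg_left h5 h6.le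
      refine h7.trans ?_
      unfold llQ0
      rw [ll_gA_pp]
      field_simp
      exact le_rfl
    · have h5 := ll_tangent_q r h1 hr h (2 / r ^ 2 - 1) le_rfl
        (h.le.trans (ll_a5_hi.le.trans (by norm_num)))
      have h8 : llQ0 r (2 / r ^ 2 - 1) (2 / r ^ 2 - 1) = 0 := by
        unfold llQ0
        rw [ll_LL_zero _ _ _ (by linarith) le_rfl, zero_mul]
      rw [h8, ← ll_B_eq r h1] at h5
      have h6 : 0 ≤ gA t := by
        unfold gA
        exact mul_nonneg (by linarith) (sq_nonneg _)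
      have h7 : llQ0 r (2 / r ^ 2 - 1) a5 + Bc r * (t - a5) ≤ 0 := by
        have := mul_le_mul_of_nonneg_left (sub_le_sub_right h4 a5) hB
        linarith
      exact (mul_nonpos_of_nonneg_of_nonpos h6 h7).trans (ll_LL_nonneg _ _ _ (by linarith) ht)

theorem ll_q2_room (r t : ℝ) (h1 : 1.216 ≤ r) (hr : r ≤ R0) (ht : a5 ≤ t) (ht' : t ≤ 0.514) :
    0.088 - 0.45 * (t - a5) ≤ llQ2 r (2 / r ^ 2 - 1) t := by
  have hr1 : 1 < r := lt_of_lt_of_le (by norm_num) h1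
  have hr0 : 0 < r := by linarith
  have h2 := ll_t0_lo r hr1 hr
  have ha := ll_a5_pos
  have a1 := ll_a5_lo
  have a2 := ll_a5_hi
  have h3 : (0 : ℝ) < 2 / r ^ 2 - 1 := lt_of_lt_of_le (by norm_num) h2
  have h4 : 2 / r ^ 2 - 1 ≤ 0.35259 := by
    have : 2 / r ^ 2 ≤ 1.35259 := by
      rw [div_le_iff₀ (by positivity)]
      have : (1.216 : ℝ) ^ 2 ≤ r ^ 2 := pow_le_pow_left₀ (by norm_num) h1 2
      norm_num at this ⊢
      linarith
    norm_num at this ⊢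
    linarith
  set t0 := 2 / r ^ 2 - 1 with ht0
  have h5 : t0 < t := by
    norm_num at h4 a1
    linarith
  have h6 := ll_q2_lower r t0 t hr0 h3 h5 ht'
  have h7 := ll_phi2 t0 t h2 h5 ht ht'
  set x := t - a5 with hx
  have x0 : 0 ≤ x := by linarith
  have x1 : x ≤ 0.0668 := by norm_num at *; linarith
  have n5 := ll_n5 x0 x1
  have n6 := ll_n6 x0 x1
  have n7 := ll_n7 x0 x1
  set P := 3 / 2 - (6.335 - 8.1 * x) * (x + 0.18442) + 4.04 * (x + 0.18442) ^ 2 with hP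
  have htt : t < 1 := lt_of_le_of_lt ht' (by norm_num)
  have e1 : 0 < t - t0 := by linarith
  have e2 : 0 < 1 + t := by linarith
  have e3 : 0 < 1 - t := by linarith
  have e4 : 0 < t + a5 := by linarith
  -- the square roots
  have s1 : 0.3074 + 1.4 * x ≤ Real.sqrt (t - t0) := by
    apply Real.le_sqrt_of_sq_le
    refine n5.trans ?_
    norm_num at h4 a1 ⊢
    linarith
  have s2 : Real.sqrt (1 - t) ≤ 0.74351 := by
    rw [Real.sqrt_le_left (by norm_num)]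
    norm_num at a1 ⊢
    linarith
  have s3 : 0 < Real.sqrt (1 - t) := Real.sqrt_pos.2 e3
  -- the lower bound
  have m1 : llP t * llNu r t0 t / (t - t0) =
      2 / 3 * r ^ 3 * Real.sqrt (t - t0) / ((1 + t) ^ 3 * (t + a5) ^ 2 * Real.sqrt (1 - t)) := by
    unfold llP llNu
    field_simp
  rw [m1] at h6
  have hx1 : 0 ≤ 0.3074 + 1.4 * x := by positivity
  have hPpos : 0 ≤ P := ll_n8 x
  have m2 : 2 / 3 * 1.216 ^ 3 * (0.3074 + 1.4 * x) * P ≤
      2 / 3 * r ^ 3 * Real.sqrt (t - t0) *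
        (3 / 2 - llC t * (t - t0) + 2 / 5 * llK t * (t - t0) ^ 2) := by
    apply mul_le_mul _ h7 hPpos (by positivity)
    apply mul_le_mul _ s1 hx1 (by positivity)
    have : (1.216 : ℝ) ^ 3 ≤ r ^ 3 := pow_le_pow_left₀ (by norm_num) h1 3
    linarith
  have m3 : (1 + t) ^ 3 * (t + a5) ^ 2 * Real.sqrt (1 - t) * (0.088 - 0.45 * x) ≤
      0.74351 * (2.4252 + 11.71 * x) * (0.088 - 0.45 * x) := by
    apply mul_le_mul_of_nonneg_right _ (by norm_num at x1 ⊢; linarith)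
    have m4 : (1 + t) ^ 3 * (t + a5) ^ 2 ≤ (1.44722 + x) ^ 3 * (0.89444 + x) ^ 2 := by
      apply mul_le_mul
      · exact pow_le_pow_left₀ e2.le (by norm_num at a2 ⊢; linarith) 3
      · exact pow_le_pow_left₀ e4.le (by norm_num at a2 ⊢; linarith) 2
      · positivity
      · positivity
    have m5 : (1 + t) ^ 3 * (t + a5) ^ 2 * Real.sqrt (1 - t) ≤ (2.4252 + 11.71 * x) * 0.74351 := by
      apply mul_le_mul (m4.trans n6) s2 s3.le (by positivity)
    linarith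
  refine le_trans ?_ h6
  rw [div_mul_eq_mul_div, le_div_iff₀ (by positivity)]
  calc (0.088 - 0.45 * x) * ((1 + t) ^ 3 * (t + a5) ^ 2 * Real.sqrt (1 - t)) =
      (1 + t) ^ 3 * (t + a5) ^ 2 * Real.sqrt (1 - t) * (0.088 - 0.45 * x) := by ring
    _ ≤ _ := m3
    _ ≤ _ := n7
    _ ≤ _ := m2

theorem lens_room (r : ℝ) (h1 : 1.216 ≤ r) (hr : r ≤ R0) (t : ℝ) (ht : a5 ≤ t) (ht' : t ≤ 0.514) :
    gA t * (lens r a5 / gA a5 + Bc r * (t - a5)) + 0.043 * (t - a5) ^ 2 ≤ lens r t := by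
  have hr1 : 1 < r := lt_of_lt_of_le (by norm_num) h1
  have hr0 : 0 < r := by linarith
  have h2 := ll_t0_lo r hr1 hr
  have ha := ll_a5_pos
  have a1 := ll_a5_lo
  have a2 := ll_a5_hi
  have h3 : (0 : ℝ) < 2 / r ^ 2 - 1 := lt_of_lt_of_le (by norm_num) h2
  have ht1 : t < 1 := lt_of_le_of_lt ht' (by norm_num)
  have h4 : 2 / r ^ 2 - 1 < a5 := by
    have : 2 / r ^ 2 ≤ 1.35259 := by
      rw [div_le_iff₀ (by positivity)]
      have : (1.216 : ℝ) ^ 2 ≤ r ^ 2 := pow_le_pow_left₀ (by norm_num) h1 2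
      norm_num at this ⊢
      linarith
    norm_num at this a1 ⊢
    linarith
  rw [ll_A_eq r hr1, ll_B_eq r hr1, ll_lens_eq r t hr0 (by linarith) ht1]
  set t0 := 2 / r ^ 2 - 1 with ht0
  have key : llQ0 r t0 a5 + llQ1 r t0 a5 * (t - a5) ≤
      llQ0 r t0 t - (0.044 * (t - a5) ^ 2 - 0.075 * (t - a5) ^ 3) := by
    have hd1 : ∀ s : ℝ, HasDerivAt (fun s : ℝ => 0.044 * (s - a5) ^ 2 - 0.075 * (s - a5) ^ 3)
        (0.088 * (s - a5) - 0.225 * (s - a5) ^ 2) s := by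
      intro s
      have e0 := (hasDerivAt_id s).sub_const a5
      have e1 := ((e0.fun_pow 2).const_mul 0.044).fun_sub ((e0.fun_pow 3).const_mul 0.075)
      refine e1.congr_deriv ?_
      norm_num
      ring
    have hd2 : ∀ s : ℝ, HasDerivAt (fun s : ℝ => 0.088 * (s - a5) - 0.225 * (s - a5) ^ 2)
        (0.088 - 0.45 * (s - a5)) s := by
      intro s
      have e0 := (hasDerivAt_id s).sub_const a5
      have e1 := (e0.const_mul 0.088).fun_sub ((e0.fun_pow 2).const_mul 0.225)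
      refine e1.congr_deriv ?_
      norm_num
      ring
    have h5 := ll_tangent (x := a5) (y := 0.514)
      (f := fun s => llQ0 r t0 s - (0.044 * (s - a5) ^ 2 - 0.075 * (s - a5) ^ 3))
      (f1 := fun s => llQ1 r t0 s - (0.088 * (s - a5) - 0.225 * (s - a5) ^ 2))
      (f2 := fun s => llQ2 r t0 s - (0.088 - 0.45 * (s - a5)))
      (fun s hs => (ll_q0_deriv r t0 s h3 (ha.trans_le hs.1)
        (lt_of_le_of_lt hs.2 (by norm_num))).fun_sub (hd1 s))
      (by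
        apply ContinuousOn.sub
        · exact (ll_q1_cont r t0 h3).mono (Set.Icc_subset_Icc h4.le le_rfl)
        · fun_prop)
      (fun s hs => (ll_q1_deriv r t0 s h3 (h4.trans hs.1)
        (lt_trans hs.2 (by norm_num))).fun_sub (hd2 s))
      (fun s hs => sub_nonneg.2 (ll_q2_room r s h1 hr hs.1.le hs.2.le))
      (s := a5) (t := t) ⟨le_rfl, ht.trans ht'⟩ ⟨ht, ht'⟩
    simp only [sub_self, ne_eq, OfNat.ofNat_ne_zero, not_false_eq_true, zero_pow, mul_zero,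
      sub_zero] at h5
    exact h5
  have hg := ll_gA_pos t (by linarith)
  have hgl : 1.1577 ≤ gA t := by
    have e1 : gA a5 ≤ gA t := by
      have e0 : 0 ≤ t + 1 := by linarith
      unfold gA
      gcongr
    refine le_trans ?_ e1
    have e2 : gA a5 = 0.8 * (1 + a5) := by
      unfold gA
      have := ll_a5_sq
      norm_num
      nlinarith
    rw [e2]
    norm_num at a1 ⊢
    linarith
  have e3 : llPrim r t0 t = gA t * llQ0 r t0 t := by
    unfold llQ0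
    rw [ll_gA_pp]
    field_simp
  rw [e3]
  have e4 := mul_le_mul_of_nonneg_left key hg.le
  have x0 : 0 ≤ t - a5 := by linarith
  have x1 : t - a5 ≤ 0.0668 := by norm_num at *; linarith
  set x := t - a5 with hx
  have e5 : 0.043 * x ^ 2 ≤ gA t * (0.044 * x ^ 2 - 0.075 * x ^ 3) := by
    have e6 : 0.044 * x ^ 2 - 0.075 * x ^ 3 = x ^ 2 * (0.044 - 0.075 * x) := by ring
    have e7 : (0.0389 : ℝ) ≤ 0.044 - 0.075 * x := by norm_num at x1 ⊢; linarith
    have e8 : (0.043 : ℝ) ≤ gA t * (0.044 - 0.075 * x) := by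
      refine le_trans ?_ (mul_le_mul hgl e7 (by norm_num) hg.le)
      norm_num
    rw [e6]
    have := mul_le_mul_of_nonneg_left e8 (sq_nonneg x)
    linarith
  have e9 : gA t * (llQ0 r t0 t - (0.044 * x ^ 2 - 0.075 * x ^ 3)) =
      gA t * llQ0 r t0 t - gA t * (0.044 * x ^ 2 - 0.075 * x ^ 3) := by ring
  rw [e9] at e4
  linarith

end Pool.Agent.H54.V
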