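/-
JOB VOR-VK.  Volume kernels at r = 1.21 with a hole (certificates Data/V1, Data/V2, minorant Data/LP21).
`lens_minorant`: for every (a,b,p,P) in `lensPieces` and t ∈ [a/1000,b/1000]: pe P t / 2^40 ≤ lens 1.21 t.
 Proof: lam 1.21 s = (2/3)(r² - 2/(1+s))^{3/2}/√(1-s²) with r² = 1.4641, r²(1+s) - 2 = (14641 s - 5359)/10^4, so for 0 ≤ p(s):
 lam 1.21 s ≥ p(s)/2^40  ⟺  9·10^12 p(s)² (1-s)(1+s)^4 ≤ 4·2^80 (14641 s - 5359)³   (s < 1, 14641 s > 5359).
 On each piece `bernCheck` shows p ≥ 0 and 4·2^80 (14641 s - 5359)³ - 9·10^12 p² (1-s)(1+s)^4 ≥ 0 (exact check done in Python,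
 depth ≤ 3); P' = p coefficientwise ((k+1) P_{k+1} = p_k); P_0(370/1000) ≤ 0 ≤ lens; P_{j+1}(t_{j+1}) ≤ P_j(t_{j+1}); then
 lens 1.21 t = lens 1.21 a + ∫_a^t lam ≥ P(a) + ∫_a^t p = P(t) by induction over the pieces (values scaled by 2^40).
`hv1`, `hv2`: F(t) = f0 + Σ α² P_k(t) ≤ lens 1.21 t on [-1,.514]: F ≤ 0 on [-1,370/1000] (`bernCheck`), F ≤ P_j on piece j
 (`bernCheck`, depth ≤ 5); G(t) = g0 + Σ αβ P_k(t) ≤ 0 on [-1,τ], ≤ (t-τ)/20 on [τ,U]; then `lp_abs` with m = 1, φ i j =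
 lens 1.21 ⟪u i,u j⟫, ψ a i = .05 max 0 (⟪u i,z⟫ - τ).  Bounds (132 f0 + 24 g0 - 12 Σα² - Σβ²)/2^41: V1 .029847, V2 .027492.
 The k0 entry of the data (-2^40) is not needed (one special point).
-/
import Pool.Agent.H54.V.KDefs
import Pool.Agent.H54.V.J.LensLow
import Pool.Agent.H54.V.J.LPChk
import Pool.Agent.H54.V.Data.LP21
import Pool.Agent.H54.V.Data.V1
import Pool.Agent.H54.V.Data.V2
set_option autoImplicit false
open MeasureTheory
namespace Pool.Agent.H54.V


/-! products of coefficient lists -/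

/-- product of two polynomials. -/
def vkMul : List ℤ → List ℤ → List ℤ
  | [], _ => []
  | x :: xs, b => bcAdd (bcSmul x b) (0 :: vkMul xs b)

theorem vk_pe_mul {R : Type*} [CommRing R] (a b : List ℤ) (x : R) : pe (vkMul a b) x = pe a x * pe b x := by
  induction a with
  | nil => rw [vkMul, bc_pe_nil, zero_mul]
  | cons c cs ih =>
    rw [vkMul, bc_pe_add, bc_pe_smul, bc_pe_cons, bc_pe_cons, ih]
    push_cast
    ring

/-- `4 * 2^80 (14641 s - 5359)³ - 9 * 10^12 p² (1-s)(1+s)^4`. -/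
def vkQ (p : List ℤ) : List ℤ :=
  bcAdd (bcSmul 4835703278458516698824704 (vkMul [-5359, 14641] (vkMul [-5359, 14641] [-5359, 14641])))
    (bcSmul (-9000000000000) (vkMul (vkMul p p) [1, 3, 2, -2, -3, -1]))

theorem vk_pe_Q (p : List ℤ) (s : ℝ) : pe (vkQ p) s =
    4 * 2 ^ 80 * (14641 * s - 5359) ^ 3 - 9 * 10 ^ 12 * (pe p s) ^ 2 * ((1 - s) * (1 + s) ^ 4) := by
  rw [vkQ, bc_pe_add, bc_pe_smul, bc_pe_smul, vk_pe_mul, vk_pe_mul, vk_pe_mul, vk_pe_mul]
  have e1 : pe [-5359, 14641] s = 14641 * s - 5359 := by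
    rw [bc_pe_cons, bc_pe_cons, bc_pe_nil]
    push_cast
    ring
  have e2 : pe [1, 3, 2, -2, -3, -1] s = (1 - s) * (1 + s) ^ 4 := by
    rw [bc_pe_cons, bc_pe_cons, bc_pe_cons, bc_pe_cons, bc_pe_cons, bc_pe_cons, bc_pe_nil]
    push_cast
    ring
  rw [e1, e2]
  push_cast
  ring

/-! the density -/

theorem vk_lam_ge (p : List ℤ) (s : ℝ) (h1 : 0.367 ≤ s) (h2 : s < 1) (h : 0 ≤ pe (vkQ p) s) :
    pe p s / 2 ^ 40 ≤ lam 1.21 s := by
  have e1 : 0 < 1 - s := by linarith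
  have e2 : 0 < 1 + s := by norm_num at h1; linarith
  have e3 : 0 < 14641 * s - 5359 := by norm_num at h1; linarith
  have hlam := ll_lam_nonneg 1.21 s
  apply le_of_abs_le
  apply abs_le_of_sq_le_sq _ hlam
  rw [ll_lam_eq 1.21 s (by norm_num) (by linarith) h2, llNu]
  have e4 : s - (2 / (1.21 : ℝ) ^ 2 - 1) = (14641 * s - 5359) / 14641 := by
    norm_num
    ring
  rw [e4]
  have e5 : Real.sqrt ((14641 * s - 5359) / 14641) ^ 2 = (14641 * s - 5359) / 14641 :=
    Real.sq_sqrt (by positivity)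
  have e6 : Real.sqrt (1 - s) ^ 2 = 1 - s := Real.sq_sqrt e1.le
  have e7 : (2 / 3 * (1.21 : ℝ) ^ 3 * ((14641 * s - 5359) / 14641 * Real.sqrt ((14641 * s - 5359) / 14641)) /
      ((1 + s) ^ 2 * Real.sqrt (1 - s))) ^ 2 =
      4 * (14641 * s - 5359) ^ 3 / (9 * 10 ^ 12 * ((1 - s) * (1 + s) ^ 4)) := by
    rw [div_pow, mul_pow, mul_pow, mul_pow, mul_pow, e5, e6]
    norm_num
    field_simp
    norm_num
  rw [e7, div_pow, div_le_div_iff₀ (by positivity) (by positivity)]
  rw [vk_pe_Q] at h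
  have e8 : ((2 : ℝ) ^ 40) ^ 2 = 2 ^ 80 := by norm_num
  rw [e8]
  linarith

/-! one piece -/

theorem vk_lens_deriv (t : ℝ) (h1 : -1 < t) (h2 : t < 1) : HasDerivAt (lens 1.21) (lam 1.21 t) t := by
  have h3 := ll_LL_deriv 1.21 (2 / (1.21 : ℝ) ^ 2 - 1) t (by norm_num) h1 h2
  rw [← ll_lam_eq 1.21 t (by norm_num) h1.le h2] at h3
  refine h3.congr_of_eventuallyEq ?_
  filter_upwards [Ioo_mem_nhds h1 h2] with x hx
  exact ll_lens_eq 1.21 x (by norm_num) hx.1.le hx.2

theorem vk_pe_deriv (c P1 P2 P3 P4 : ℤ) (x : ℝ) :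
    HasDerivAt (fun x : ℝ => pe [c, P1, P2, P3, P4] x) (pe [P1, 2 * P2, 3 * P3, 4 * P4] x) x := by
  have e : (fun x : ℝ => pe [c, P1, P2, P3, P4] x) =
      fun x => (c : ℝ) + P1 * x + P2 * x ^ 2 + P3 * x ^ 3 + P4 * x ^ 4 := by
    funext x
    simp only [bc_pe_cons, bc_pe_nil]
    ring
  rw [e]
  have h := ((((hasDerivAt_const x (c : ℝ)).add ((hasDerivAt_id x).const_mul (P1 : ℝ))).add
    (((hasDerivAt_id x).pow 2).const_mul (P2 : ℝ))).add
    (((hasDerivAt_id x).pow 3).const_mul (P3 : ℝ))).add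
    (((hasDerivAt_id x).pow 4).const_mul (P4 : ℝ))
  refine (h.congr_deriv ?_).congr_of_eventuallyEq ?_
  · simp only [bc_pe_cons, bc_pe_nil, id]
    push_cast
    ring
  · refine Filter.Eventually.of_forall fun y => ?_
    simp

theorem vk_piece (a b : ℤ) (c P1 P2 P3 P4 : ℤ) (ha : 367 ≤ a) (hb : b < 1000)
    (hchk : bernCheck (vkQ [P1, 2 * P2, 3 * P3, 4 * P4]) a b 1000 8 = true)
    (h0 : pe [c, P1, P2, P3, P4] ((a : ℝ) / 1000) / 2 ^ 40 ≤ lens 1.21 ((a : ℝ) / 1000))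
    (t : ℝ) (h1 : (a : ℝ) / 1000 ≤ t) (h2 : t ≤ (b : ℝ) / 1000) :
    pe [c, P1, P2, P3, P4] t / 2 ^ 40 ≤ lens 1.21 t := by
  have ha' : (0.367 : ℝ) ≤ (a : ℝ) / 1000 := by
    rw [le_div_iff₀ (by norm_num)]
    norm_num
    exact_mod_cast ha
  have hb' : (b : ℝ) / 1000 < 1 := by
    rw [div_lt_iff₀ (by norm_num)]
    norm_num
    exact_mod_cast hb
  have ha0 : (0 : ℝ) < (a : ℝ) / 1000 := lt_of_lt_of_le (by norm_num) ha'
  have hd : ∀ s ∈ Set.Icc ((a : ℝ) / 1000) ((b : ℝ) / 1000),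
      HasDerivAt (fun s => lens 1.21 s - pe [c, P1, P2, P3, P4] s / 2 ^ 40)
        (lam 1.21 s - pe [P1, 2 * P2, 3 * P3, 4 * P4] s / 2 ^ 40) s := by
    intro s hs
    exact (vk_lens_deriv s (by linarith [hs.1]) (by linarith [hs.2])).sub
      ((vk_pe_deriv c P1 P2 P3 P4 s).div_const _)
  have hm : MonotoneOn (fun s => lens 1.21 s - pe [c, P1, P2, P3, P4] s / 2 ^ 40)
      (Set.Icc ((a : ℝ) / 1000) ((b : ℝ) / 1000)) := by
    apply monotoneOn_of_deriv_nonneg (convex_Icc _ _)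
    · exact fun s hs => (hd s hs).continuousAt.continuousWithinAt
    · rw [interior_Icc]
      intro s hs
      exact (hd s ⟨hs.1.le, hs.2.le⟩).differentiableAt.differentiableWithinAt
    · rw [interior_Icc]
      intro s hs
      rw [(hd s ⟨hs.1.le, hs.2.le⟩).deriv, sub_nonneg]
      apply vk_lam_ge _ _ (ha'.trans hs.1.le) (hs.2.trans hb')
      exact bernCheck_sound _ a b 1000 8 (by norm_num) hchk s (by exact_mod_cast hs.1.le)
        (by exact_mod_cast hs.2.le)
  have h3 := hm ⟨le_rfl, h1.trans h2⟩ ⟨h1, h2⟩ h1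
  simp only at h3
  linarith

/-! all pieces -/

theorem vk_step (a b : ℤ) (c P1 P2 P3 P4 : ℤ) (Q : List ℤ) (ha : 367 ≤ a) (hb : b < 1000)
    (hchk : bernCheck (vkQ [P1, 2 * P2, 3 * P3, 4 * P4]) a b 1000 8 = true)
    (h0 : pe Q ((a : ℝ) / 1000) / 2 ^ 40 ≤ lens 1.21 ((a : ℝ) / 1000))
    (h1 : (pe [c, P1, P2, P3, P4] ((a : ℝ) / 1000) : ℝ) ≤ pe Q ((a : ℝ) / 1000))
    (t : ℝ) (h2 : (a : ℝ) / 1000 ≤ t) (h3 : t ≤ (b : ℝ) / 1000) :
    pe [c, P1, P2, P3, P4] t / 2 ^ 40 ≤ lens 1.21 t := by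
  refine vk_piece a b c P1 P2 P3 P4 ha hb hchk (le_trans ?_ h0) t h2 h3
  exact div_le_div_of_nonneg_right h1 (by positivity)

theorem lens_minorant (q : ℤ × ℤ × List ℤ × List ℤ) (hq : q ∈ lensPieces) (t : ℝ)
    (h1 : (q.1 : ℝ) / 1000 ≤ t) (h2 : t ≤ (q.2.1 : ℝ) / 1000) : pe q.2.2.2 t / 2 ^ 40 ≤ lens 1.21 t := by
  have k0 := vk_step 370 372 (-826710092313) (8736228022183) (-34562173926221) (60661159762648) (-39847291180075) [] (by norm_num) (by norm_num) (by decide +kernel)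
    (by
      rw [bc_pe_nil, zero_div]
      exact lens_nonneg _ _ (by norm_num))
    (by
      simp only [bc_pe_cons, bc_pe_nil]
      norm_num)
  have k1 := vk_step 372 376 (-443523072670) (4617722769777) (-17962451284971) (30925291396687) (-19872015036243) [-826710092313, 8736228022183, -34562173926221, 60661159762648, -39847291180075] (by norm_num) (by norm_num) (by decide +kernel)
    (k0 _ (by norm_num) (by norm_num))
    (by
      simp only [bc_pe_cons, bc_pe_nil]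
      norm_num)
  have k2 := vk_step 376 382 (-239622973784) (2448436951454) (-9307783213404) (15578960244888) (-9667485014071) [-443523072670, 4617722769777, -17962451284971, 30925291396687, -19872015036243] (by norm_num) (by norm_num) (by decide +kernel)
    (k1 _ (by norm_num) (by norm_num))
    (by
      simp only [bc_pe_cons, bc_pe_nil]
      norm_num)
  have k3 := vk_step 382 392 (-135177446487) (1355201699113) (-5016608276635) (8092718769089) (-4769806855240) [-239622973784, 2448436951454, -9307783213404, 15578960244888, -9667485014071] (by norm_num) (by norm_num) (by decide +kernel)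
    (k2 _ (by norm_num) (by norm_num))
    (by
      simp only [bc_pe_cons, bc_pe_nil]
      norm_num)
  have k4 := vk_step 392 408 (-77615882486) (768087113733) (-2770848056290) (4274680130848) (-2335544242346) [-135177446487, 1355201699113, -5016608276635, 8092718769089, -4769806855240] (by norm_num) (by norm_num) (by decide +kernel)
    (k3 _ (by norm_num) (by norm_num))
    (by
      simp only [bc_pe_cons, bc_pe_nil]
      norm_num)
  have k5 := vk_step 408 433 (-44217497705) (440874496549) (-1568556839156) (2311091562127) (-1132819642960) [-77615882486, 768087113733, -2770848056290, 4274680130848, -2335544242346] (by norm_num) (by norm_num) (by decide +kernel)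
    (k4 _ (by norm_num) (by norm_num))
    (by
      simp only [bc_pe_cons, bc_pe_nil]
      norm_num)
  have k6 := vk_step 433 473 (-21947822064) (235551333883) (-858502674361) (1219498962891) (-503373107121) [-44217497705, 440874496549, -1568556839156, 2311091562127, -1132819642960] (by norm_num) (by norm_num) (by decide +kernel)
    (k5 _ (by norm_num) (by norm_num))
    (by
      simp only [bc_pe_cons, bc_pe_nil]
      norm_num)
  have k7 := vk_step 473 514 (-6509112898) (104526865756) (-441387635605) (629152886973) (-189959587755) [-21947822064, 235551333883, -858502674361, 1219498962891, -503373107121] (by norm_num) (by norm_num) (by decide +kernel)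
    (k6 _ (by norm_num) (by norm_num))
    (by
      simp only [bc_pe_cons, bc_pe_nil]
      norm_num)
  simp only [lensPieces, List.mem_cons, List.not_mem_nil, or_false] at hq
  rcases hq with rfl | rfl | rfl | rfl | rfl | rfl | rfl | rfl
  · exact k0 t h1 h2
  · exact k1 t h1 h2
  · exact k2 t h1 h2
  · exact k3 t h1 h2
  · exact k4 t h1 h2
  · exact k5 t h1 h2
  · exact k6 t h1 h2
  · exact k7 t h1 h2

theorem vk_cover (t : ℝ) (h1 : 0.37 ≤ t) (h2 : t ≤ 0.514) :
    ∃ q ∈ lensPieces, (q.1 : ℝ) / 1000 ≤ t ∧ t ≤ (q.2.1 : ℝ) / 1000 := by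
  simp only [lensPieces, List.mem_cons, List.not_mem_nil, or_false, exists_eq_or_imp, exists_eq_left]
  norm_num at h1 h2 ⊢
  by_contra hcon
  simp only [not_or, not_and, not_le] at hcon
  obtain ⟨c0, c1, c2, c3, c4, c5, c6, c7⟩ := hcon
  have e0 := c0 (by linarith)
  have e1 := c1 (by linarith)
  have e2 := c2 (by linarith)
  have e3 := c3 (by linarith)
  have e4 := c4 (by linarith)
  have e5 := c5 (by linarith)
  have e6 := c6 (by linarith)
  have e7 := c7 (by linarith)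
  linarith

/-! the certificates -/

/-- checks for the volume kernels. -/
def vkCheck (D : LPData) : Bool :=
  D.cols.all (fun x => Nat.ble x.1 12) && lcNeg (lcF D) 370 1000 &&
  lensPieces.all (fun q => bernCheck (bcAdd (bcSmul 1024 q.2.2.2) (bcSmul (-1) (lcF D))) q.1 q.2.1 1000 8) &&
  lcNeg (lcG D 0) (D.tau.getD 0 0) 10000 &&
  bernCheck (bcAdd [Int.mul (-1125899906842624) (D.tau.getD 0 0), 11258999068426240000]
    (bcSmul (-200000) (lcG D 0))) (D.tau.getD 0 0) (D.U.getD 0 0) 10000 14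

theorem vk_sound (D : LPData) (h : vkCheck D = true) (u : Fin 12 → E3) (z : E3) (hu : ∀ i, ‖u i‖ = 1)
    (hz : ‖z‖ = 1) (huu : ∀ i j, i ≠ j → inner ℝ (u i) (u j) ≤ (0.514 : ℝ))
    (huz : ∀ i, inner ℝ (u i) z ≤ ((D.U.getD 0 0 : ℤ) : ℝ) / 10000) :
    (132 * (D.f0 : ℝ) + 24 * ((D.g0.getD 0 0 : ℤ) : ℝ) - 12 * (((D.cols.map fun c => c.2.1 ^ 2).sum : ℤ) : ℝ)
      - (((D.cols.map fun c => (c.2.2.getD 0 0) ^ 2).sum : ℤ) : ℝ)) / 2 ^ 41 ≤
      pairSum (fun i j => lens 1.21 (inner ℝ (u i) (u j))) +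
        0.05 * ∑ i, max 0 (inner ℝ (u i) z - ((D.tau.getD 0 0 : ℤ) : ℝ) / 10000) := by
  rw [vkCheck] at h
  simp only [Bool.and_eq_true] at h
  obtain ⟨⟨⟨⟨hcols, hF1⟩, hF2⟩, hG1⟩, hG2⟩ := h
  have hk : ∀ x ∈ D.cols, x.1 ≤ 12 := fun x hx =>
    Nat.le_of_ble_eq_true ((List.all_eq_true.1 hcols) x hx)
  have hlow : ∀ v w : E3, ‖v‖ = 1 → ‖w‖ = 1 → -1 ≤ inner ℝ v w := by
    intro v w hv hw
    have h1 := abs_real_inner_le_norm v w
    rw [hv, hw, mul_one] at h1
    exact (abs_le.1 h1).1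
  have e40 : (2 : ℝ) ^ 50 = 1024 * 2 ^ 40 := by norm_num
  -- the first kernel
  have hF : ∀ t : ℝ, -1 ≤ t → t ≤ 0.514 → pe (lcF D) t ≤ 2 ^ 50 * lens 1.21 t := by
    intro t h1 h2
    rcases le_total t 0.37 with h3 | h3
    · have h4 := lc_neg (lcF D) 370 1000 (by norm_num) hF1 t h1 (by norm_num at h3 ⊢; linarith)
      exact h4.trans (mul_nonneg (by positivity) (lens_nonneg _ _ h1))
    · obtain ⟨q, hq, h4, h5⟩ := vk_cover t h3 h2
      have h6 := bernCheck_sound _ _ _ _ _ (by norm_num) ((List.all_eq_true.1 hF2) q hq) t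
        (by exact_mod_cast h4) (by exact_mod_cast h5)
      rw [bc_pe_add, bc_pe_smul, bc_pe_smul] at h6
      push_cast at h6
      have h7 := lens_minorant q hq t h4 h5
      rw [div_le_iff₀ (by positivity)] at h7
      rw [e40]
      linarith
  -- the second kernel
  have hG : ∀ t : ℝ, -1 ≤ t → t ≤ ((D.U.getD 0 0 : ℤ) : ℝ) / 10000 →
      pe (lcG D 0) t ≤ 2 ^ 50 * (0.05 * max 0 (t - ((D.tau.getD 0 0 : ℤ) : ℝ) / 10000)) := by
    intro t h1 h2
    rcases le_total t (((D.tau.getD 0 0 : ℤ) : ℝ) / 10000) with h3 | h3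
    · have h4 := lc_neg _ _ 10000 (by norm_num) hG1 t h1 (by exact_mod_cast h3)
      exact h4.trans (mul_nonneg (by norm_num) (mul_nonneg (by norm_num) (le_max_left _ _)))
    · have h4 := bernCheck_sound _ _ _ _ _ (by norm_num) hG2 t (by exact_mod_cast h3)
        (by exact_mod_cast h2)
      rw [bc_pe_add, bc_pe_smul, bc_pe_cons, bc_pe_cons, bc_pe_nil, Int.mul_def] at h4
      push_cast at h4
      have h5 : t - ((D.tau.getD 0 0 : ℤ) : ℝ) / 10000 ≤
          max 0 (t - ((D.tau.getD 0 0 : ℤ) : ℝ) / 10000) := le_max_right _ _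
      set M := max 0 (t - ((D.tau.getD 0 0 : ℤ) : ℝ) / 10000) with hM
      norm_num
      nlinarith
  -- the abstract bound
  have key := lp_abs (L := D.cols.length) (fun l => (D.cols[l.1]).1)
    (fun l => hk _ (List.getElem_mem _)) (fun l => ((D.cols[l.1]).2.1 : ℝ) / 2 ^ 20)
    (fun l (_ : Fin 1) => (((D.cols[l.1]).2.2.getD 0 0 : ℤ) : ℝ) / 2 ^ 20)
    ((D.f0 : ℝ) / 2 ^ 40) (fun _ => ((D.g0.getD 0 0 : ℤ) : ℝ) / 2 ^ 40)
    (fun _ _ => 0) u (fun _ => z) hu (fun _ => hz)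
    (fun i j => lens 1.21 (inner ℝ (u i) (u j)))
    (fun _ i => 0.05 * max 0 (inner ℝ (u i) z - ((D.tau.getD 0 0 : ℤ) : ℝ) / 10000))
    (by
      intro i j hij
      have h1 := hF (inner ℝ (u i) (u j)) (hlow _ _ (hu i) (hu j)) (huu i j hij.ne)
      rw [lcF, lc_comb _ _ hk, e40] at h1
      have h4 : (D.f0 : ℝ) / 2 ^ 40 + ∑ l : Fin D.cols.length,
          (((D.cols[l.1]).2.1 : ℝ) / 2 ^ 20) ^ 2 * leg (D.cols[l.1]).1 (inner ℝ (u i) (u j)) =
          ((D.f0 : ℝ) + ∑ l : Fin D.cols.length,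
          ((Int.mul (D.cols[l.1]).2.1 (D.cols[l.1]).2.1 : ℤ) : ℝ) *
            leg (D.cols[l.1]).1 (inner ℝ (u i) (u j))) / 2 ^ 40 := by
        rw [add_div, Finset.sum_div]
        congr 1
        refine Finset.sum_congr rfl fun l _ => ?_
        rw [Int.mul_def]
        push_cast
        ring
      rw [h4, div_le_iff₀ (by positivity)]
      linarith)
    (by
      intro a i
      have h1 := hG (inner ℝ (u i) z) (hlow _ _ (hu i) hz) (huz i)
      rw [lcG, lc_comb _ _ hk, e40] at h1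
      have h4 : ((D.g0.getD 0 0 : ℤ) : ℝ) / 2 ^ 40 + ∑ l : Fin D.cols.length,
          ((D.cols[l.1]).2.1 : ℝ) / 2 ^ 20 * ((((D.cols[l.1]).2.2.getD 0 0 : ℤ) : ℝ) / 2 ^ 20) *
            leg (D.cols[l.1]).1 (inner ℝ (u i) z) =
          (((D.g0.getD 0 0 : ℤ) : ℝ) + ∑ l : Fin D.cols.length,
          ((Int.mul (D.cols[l.1]).2.1 ((D.cols[l.1]).2.2.getD 0 0) : ℤ) : ℝ) *
            leg (D.cols[l.1]).1 (inner ℝ (u i) z)) / 2 ^ 40 := by
        rw [add_div, Finset.sum_div]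
        congr 1
        refine Finset.sum_congr rfl fun l _ => ?_
        rw [Int.mul_def]
        push_cast
        ring
      rw [h4, div_le_iff₀ (by positivity)]
      linarith)
    (by
      intro a b hab
      exact absurd (Subsingleton.elim a b) hab)
  have s1 : (((D.cols.map fun c => c.2.1 ^ 2).sum : ℤ) : ℝ) =
      2 ^ 40 * ∑ l : Fin D.cols.length, (((D.cols[l.1]).2.1 : ℝ) / 2 ^ 20) ^ 2 := by
    rw [Fin.sum_univ_fun_getElem D.cols (fun x => ((x.2.1 : ℝ) / 2 ^ 20) ^ 2), ← List.sum_map_mul_left,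
      Int.cast_list_sum, List.map_map]
    congr 1
    apply List.map_congr_left
    intro x _
    simp only [Function.comp_apply]
    push_cast
    ring
  have s2 : (((D.cols.map fun c => (c.2.2.getD 0 0) ^ 2).sum : ℤ) : ℝ) =
      2 ^ 40 * ∑ l : Fin D.cols.length, ((((D.cols[l.1]).2.2.getD 0 0 : ℤ) : ℝ) / 2 ^ 20) ^ 2 := by
    rw [Fin.sum_univ_fun_getElem D.cols (fun x => (((x.2.2.getD 0 0 : ℤ) : ℝ) / 2 ^ 20) ^ 2),
      ← List.sum_map_mul_left, Int.cast_list_sum, List.map_map]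
    congr 1
    apply List.map_congr_left
    intro x _
    simp only [Function.comp_apply]
    push_cast
    ring
  rw [← Finset.mul_sum] at key
  rw [s1, s2]
  simp only [Finset.univ_unique, Finset.sum_const, Finset.card_singleton, one_smul,
    Finset.sum_singleton] at key
  refine le_trans (le_of_eq ?_) key
  have e41 : (2 : ℝ) ^ 41 = 2 * 2 ^ 40 := by norm_num
  rw [e41]
  norm_num
  ring

theorem hv1 : HV1 := by
  intro u z hu hz huu huz
  have h := vk_sound V1 (by decide +kernel) u z hu hz huu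
    (fun i => (huz i).trans (by norm_num [V1]))
  have e : ((V1.tau.getD 0 0 : ℤ) : ℝ) / 10000 = 0.6 := by norm_num [V1]
  rw [e] at h
  rw [sub_le_iff_le_add]
  refine le_trans ?_ h
  norm_num [V1]

theorem hv2 : HV2 := by
  intro u z hu hz huu huz
  have h := vk_sound V2 (by decide +kernel) u z hu hz huu
    (fun i => (huz i).trans (by norm_num [V2]))
  have e : ((V2.tau.getD 0 0 : ℤ) : ℝ) / 10000 = 0.6293 := by norm_num [V2]
  rw [e] at h
  rw [sub_le_iff_le_add]
  refine le_trans ?_ h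
  norm_num [V2]

end Pool.Agent.H54.V
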