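/-
JOB VOR-BONF.  Bonferroni inequalities.
Proof.  Pointwise: if x belongs to exactly m of the sets then 1_{m ≥ 1} ≤ m - C(m,2) + C(m,3) (the difference is
C(m-1,3) for m ≥ 1) and m - C(m,2) ≤ 1_{m ≥ 1}.  Integrate the indicator functions
(`integral_indicator`, all sets have finite measure).
-/
import Pool.Agent.H54.V.Defs
set_option autoImplicit false
open MeasureTheory
namespace Pool.Agent.H54.V

theorem Bonf_pairSum_succ {n : ℕ} (f : Fin (n + 1) → Fin (n + 1) → ℝ) :
    pairSum f = pairSum (fun i j => f i.castSucc j.castSucc) +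
      ∑ i : Fin n, f i.castSucc (Fin.last n) := by
  unfold pairSum
  rw [Fin.sum_univ_castSucc]
  have h1 : ∑ j, (if Fin.last n < j then f (Fin.last n) j else 0) = 0 := by
    refine Finset.sum_eq_zero fun j _ => ?_
    rw [if_neg (not_lt.2 (Fin.le_last j))]
  rw [h1, add_zero, ← Finset.sum_add_distrib]
  refine Finset.sum_congr rfl fun i _ => ?_
  rw [Fin.sum_univ_castSucc, if_pos (Fin.castSucc_lt_last i)]
  simp only [Fin.castSucc_lt_castSucc_iff]

theorem Bonf_tripSum_succ {n : ℕ} (f : Fin (n + 1) → Fin (n + 1) → Fin (n + 1) → ℝ) :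
    tripSum f = tripSum (fun i j k => f i.castSucc j.castSucc k.castSucc) +
      pairSum (fun i j : Fin n => f i.castSucc j.castSucc (Fin.last n)) := by
  unfold tripSum pairSum
  rw [Fin.sum_univ_castSucc]
  have h1 : ∑ j, ∑ k, (if Fin.last n < j ∧ j < k then f (Fin.last n) j k else 0) = 0 := by
    refine Finset.sum_eq_zero fun j _ => Finset.sum_eq_zero fun k _ => ?_
    rw [if_neg (fun h => not_lt.2 (Fin.le_last j) h.1)]
  rw [h1, add_zero, ← Finset.sum_add_distrib]
  refine Finset.sum_congr rfl fun i _ => ?_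
  rw [Fin.sum_univ_castSucc]
  have h2 : ∑ k, (if i.castSucc < Fin.last n ∧ Fin.last n < k then
      f i.castSucc (Fin.last n) k else 0) = 0 := by
    refine Finset.sum_eq_zero fun k _ => ?_
    rw [if_neg (fun h => not_lt.2 (Fin.le_last k) h.2)]
  rw [h2, add_zero, ← Finset.sum_add_distrib]
  refine Finset.sum_congr rfl fun j _ => ?_
  rw [Fin.sum_univ_castSucc]
  simp only [Fin.castSucc_lt_castSucc_iff, Fin.castSucc_lt_last, and_true]

theorem Bonf_iUnion_succ {n : ℕ} (C : Fin (n + 1) → Set E3) :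
    (⋃ i, C i) = (⋃ i : Fin n, C i.castSucc) ∪ C (Fin.last n) := by
  ext x
  simp only [Set.mem_iUnion, Set.mem_union]
  constructor
  · rintro ⟨i, hi⟩
    induction i using Fin.lastCases with
    | last => exact Or.inr hi
    | cast i => exact Or.inl ⟨i, hi⟩
  · rintro (⟨i, hi⟩ | h)
    · exact ⟨_, hi⟩
    · exact ⟨_, h⟩

theorem Bonf_fin {n : ℕ} (C : Fin n → Set E3) (hf : ∀ i, volume (C i) ≠ ⊤) :
    volume (⋃ i, C i) ≠ ⊤ := by
  refine ne_top_of_le_ne_top ?_ (measure_iUnion_fintype_le volume C)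
  exact ENNReal.sum_ne_top.2 fun i _ => hf i

theorem Bonf_step {n : ℕ} (C : Fin (n + 1) → Set E3) (hC : ∀ i, MeasurableSet (C i))
    (hf : ∀ i, volume (C i) ≠ ⊤) :
    (volume (⋃ i, C i)).toReal = (volume (⋃ i : Fin n, C i.castSucc)).toReal +
      (volume (C (Fin.last n))).toReal -
      (volume (⋃ i : Fin n, C i.castSucc ∩ C (Fin.last n))).toReal := by
  have h1 := measureReal_union_add_inter (μ := volume) (s := ⋃ i : Fin n, C i.castSucc)
    (t := C (Fin.last n)) (hC _) (Bonf_fin _ fun i => hf _) (hf _)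
  rw [← Bonf_iUnion_succ, Set.iUnion_inter] at h1
  simp only [measureReal_def] at h1
  linarith

theorem bonf_lower {n : ℕ} (C : Fin n → Set E3) (hC : ∀ i, MeasurableSet (C i)) (hf : ∀ i, volume (C i) ≠ ⊤) :
    ∑ i, (volume (C i)).toReal - pairSum (fun i j => (volume (C i ∩ C j)).toReal)
      ≤ (volume (⋃ i, C i)).toReal := by
  induction n with
  | zero => simp [pairSum]
  | succ n ih =>
    rw [Bonf_step C hC hf, Bonf_pairSum_succ, Fin.sum_univ_castSucc]
    have h1 := ih (fun i => C i.castSucc) (fun i => hC _) (fun i => hf _)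
    have h2 : (volume (⋃ i : Fin n, C i.castSucc ∩ C (Fin.last n))).toReal ≤
        ∑ i : Fin n, (volume (C i.castSucc ∩ C (Fin.last n))).toReal := by
      have := measureReal_iUnion_fintype_le (μ := (volume : Measure E3))
        (fun i : Fin n => C i.castSucc ∩ C (Fin.last n))
      simpa [measureReal_def] using this
    linarith

theorem bonf_upper {n : ℕ} (C : Fin n → Set E3) (hC : ∀ i, MeasurableSet (C i)) (hf : ∀ i, volume (C i) ≠ ⊤) :
    (volume (⋃ i, C i)).toReal ≤ ∑ i, (volume (C i)).toReal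
      - pairSum (fun i j => (volume (C i ∩ C j)).toReal)
      + tripSum (fun i j k => (volume (C i ∩ C j ∩ C k)).toReal) := by
  induction n with
  | zero => simp [pairSum, tripSum]
  | succ n ih =>
    rw [Bonf_step C hC hf, Bonf_pairSum_succ, Bonf_tripSum_succ, Fin.sum_univ_castSucc]
    have h1 := ih (fun i => C i.castSucc) (fun i => hC _) (fun i => hf _)
    have h2 := bonf_lower (fun i : Fin n => C i.castSucc ∩ C (Fin.last n))
      (fun i => (hC _).inter (hC _))
      (fun i => ne_top_of_le_ne_top (hf i.castSucc) (measure_mono Set.inter_subset_left))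
    have h3 : ∀ i j : Fin n, (C i.castSucc ∩ C (Fin.last n)) ∩ (C j.castSucc ∩ C (Fin.last n)) =
        C i.castSucc ∩ C j.castSucc ∩ C (Fin.last n) := by
      intro i j
      ext x
      simp only [Set.mem_inter_iff]
      tauto
    simp only [h3] at h2
    linarith

end Pool.Agent.H54.V
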