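/-
JOB VOR-CAP.  Volume of a spherical cap.
Proof.  Choose an orthonormal basis of `E3` whose first vector is `u` (volume preserving linear isometry), so the set
becomes `{(s,y) : s² + |y|² ≤ r², s > h}`; by Fubini its volume is `∫_h^r π (r² - s²) ds`
`= π (r - h)² (2 r + h) / 3`.  (Area of a disc: `EuclideanSpace.volume_ball_fin_two` / `volume_closedBall`.)
-/
import Pool.Agent.H54.V.Defs
set_option autoImplicit false
open MeasureTheory
namespace Pool.Agent.H54.V

theorem cap_disc (a : ℝ) (ha : 0 ≤ a) :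
    volume {w : Fin 2 → ℝ | w 0 ^ 2 + w 1 ^ 2 ≤ a} = ENNReal.ofReal (Real.pi * a) := by
  have hmeas : MeasurableSet {w : Fin 2 → ℝ | w 0 ^ 2 + w 1 ^ 2 ≤ a} :=
    measurableSet_le (by fun_prop) measurable_const
  have h1 : (@WithLp.ofLp 2 (Fin 2 → ℝ)) ⁻¹' {w : Fin 2 → ℝ | w 0 ^ 2 + w 1 ^ 2 ≤ a}
      = Metric.closedBall (0 : EuclideanSpace ℝ (Fin 2)) (Real.sqrt a) := by
    ext w
    rw [mem_closedBall_zero_iff, EuclideanSpace.norm_eq, Fin.sum_univ_two,
      Real.sqrt_le_sqrt_iff ha, Real.norm_eq_abs, Real.norm_eq_abs, sq_abs, sq_abs]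
    rfl
  rw [← (PiLp.volume_preserving_ofLp (Fin 2)).measure_preimage hmeas.nullMeasurableSet, h1,
    EuclideanSpace.volume_closedBall_fin_two, ← ENNReal.ofReal_pow (Real.sqrt_nonneg a),
    Real.sq_sqrt ha, ← ENNReal.ofReal_mul ha, mul_comm]

/-- the cap in coordinates -/
def capS (r h : ℝ) : Set (ℝ × (Fin 2 → ℝ)) :=
  {p | p.1 ^ 2 + (p.2 0 ^ 2 + p.2 1 ^ 2) ≤ r ^ 2 ∧ h < p.1}

theorem capS_meas (r h : ℝ) : MeasurableSet (capS r h) := by
  refine MeasurableSet.inter ?_ ?_
  · exact measurableSet_le (f := fun p : ℝ × (Fin 2 → ℝ) => p.1 ^ 2 + (p.2 0 ^ 2 + p.2 1 ^ 2))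
      (by fun_prop) measurable_const
  · exact measurableSet_lt measurable_const measurable_fst

theorem capS_integral (r h : ℝ) : ∫ s in h..r, Real.pi * (r ^ 2 - s ^ 2) = capV r h := by
  rw [intervalIntegral.integral_const_mul, intervalIntegral.integral_sub (by simp) (by simp),
    intervalIntegral.integral_const, integral_pow]
  unfold capV
  simp only [smul_eq_mul]
  push_cast
  ring

theorem capS_volume (r h : ℝ) (h0 : 0 ≤ h) (hr : h ≤ r) :
    volume (capS r h) = ENNReal.ofReal (capV r h) := by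
  rw [Measure.volume_eq_prod, Measure.prod_apply (capS_meas r h)]
  have hsec : ∀ s : ℝ, volume (Prod.mk s ⁻¹' capS r h) =
      (Set.Ioc h r).indicator (fun s => ENNReal.ofReal (Real.pi * (r ^ 2 - s ^ 2))) s := by
    intro s
    by_cases hs : s ∈ Set.Ioc h r
    · rw [Set.indicator_of_mem hs]
      have h1 : 0 ≤ r ^ 2 - s ^ 2 := by nlinarith [hs.1, hs.2]
      rw [← cap_disc _ h1]
      congr 1
      ext w
      simp only [capS, Set.mem_preimage, Set.mem_ofPred_eq]
      constructor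
      · rintro ⟨h2, _⟩
        linarith
      · intro h2
        exact ⟨by linarith, hs.1⟩
    · rw [Set.indicator_of_notMem hs]
      have : Prod.mk s ⁻¹' capS r h = ∅ := by
        ext w
        simp only [capS, Set.mem_preimage, Set.mem_ofPred_eq, Set.mem_empty_iff_false, iff_false]
        rintro ⟨h2, h3⟩
        apply hs
        refine ⟨h3, ?_⟩
        by_contra h4
        push Not at h4
        nlinarith [sq_nonneg (w 0), sq_nonneg (w 1)]
      rw [this, measure_empty]
  simp_rw [hsec]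
  rw [lintegral_indicator measurableSet_Ioc, ← capS_integral, intervalIntegral.integral_of_le hr]
  symm
  refine ofReal_integral_eq_lintegral_ofReal ?_ ?_
  · have h1 : IntervalIntegrable (fun s : ℝ => Real.pi * (r ^ 2 - s ^ 2)) volume h r :=
      (by fun_prop : Continuous fun s : ℝ => Real.pi * (r ^ 2 - s ^ 2)).intervalIntegrable _ _
    exact (intervalIntegrable_iff_integrableOn_Ioc_of_le hr).1 h1
  · rw [Filter.EventuallyLE, ae_restrict_iff' measurableSet_Ioc]
    refine Filter.Eventually.of_forall (fun s hs => ?_)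
    have h1 : 0 ≤ r ^ 2 - s ^ 2 := by nlinarith [hs.1, hs.2]
    exact mul_nonneg Real.pi_pos.le h1

theorem cap_volume (r h : ℝ) (h0 : 0 ≤ h) (hr : h ≤ r) (u : E3) (hu : ‖u‖ = 1) :
    volume {x : E3 | ‖x‖ ≤ r ∧ h < inner ℝ u x} = ENNReal.ofReal (capV r h) := by
  have hr0 : 0 ≤ r := h0.trans hr
  -- an orthonormal basis with first vector `u`
  obtain ⟨b, hb⟩ : ∃ b : OrthonormalBasis (Fin 3) ℝ E3, b 0 = u := by
    have hon : Orthonormal ℝ (({0} : Set (Fin 3)).domRestrict (fun _ : Fin 3 => u)) := by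
      constructor
      · intro i
        exact hu
      · intro i j hij
        exfalso
        apply hij
        apply Subtype.ext
        have h1 := i.2
        have h2 := j.2
        rw [Set.mem_singleton_iff] at h1 h2
        rw [h1, h2]
    obtain ⟨b, hb⟩ := Orthonormal.exists_orthonormalBasis_extension_of_card_eq (𝕜 := ℝ)
      (E := E3) (ι := Fin 3) (by simp) hon
    exact ⟨b, hb 0 rfl⟩
  have e1 : {x : E3 | ‖x‖ ≤ r ∧ h < inner ℝ u x} =
      b.repr ⁻¹' {y : EuclideanSpace ℝ (Fin 3) | ‖y‖ ≤ r ∧ h < y 0} := by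
    ext x
    simp only [Set.mem_ofPred_eq, Set.mem_preimage, LinearIsometryEquiv.norm_map]
    rw [b.repr_apply_apply, hb]
  have hm1 : MeasurableSet {y : EuclideanSpace ℝ (Fin 3) | ‖y‖ ≤ r ∧ h < y 0} := by
    refine MeasurableSet.inter ?_ ?_
    · exact measurableSet_le measurable_norm measurable_const
    · exact measurableSet_lt measurable_const
        (EuclideanSpace.proj (𝕜 := ℝ) (0 : Fin 3)).continuous.measurable
  rw [e1, b.measurePreserving_repr.measure_preimage hm1.nullMeasurableSet]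
  have e2 : {y : EuclideanSpace ℝ (Fin 3) | ‖y‖ ≤ r ∧ h < y 0} =
      (@WithLp.ofLp 2 (Fin 3 → ℝ)) ⁻¹' ((MeasurableEquiv.piFinSuccAbove (fun _ : Fin 3 => ℝ) 0) ⁻¹'
        capS r h) := by
    ext y
    simp only [Set.mem_ofPred_eq, Set.mem_preimage, capS]
    have h1 : ‖y‖ ≤ r ↔ y 0 ^ 2 + (y 1 ^ 2 + y 2 ^ 2) ≤ r ^ 2 := by
      rw [EuclideanSpace.norm_eq, Fin.sum_univ_three, Real.sqrt_le_left hr0, Real.norm_eq_abs,
        Real.norm_eq_abs, Real.norm_eq_abs, sq_abs, sq_abs, sq_abs, add_assoc]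
    rw [h1]
    rfl
  have hm2 : MeasurableSet ((MeasurableEquiv.piFinSuccAbove (fun _ : Fin 3 => ℝ) 0) ⁻¹'
      capS r h) := (MeasurableEquiv.measurable _) (capS_meas r h)
  rw [e2, (PiLp.volume_preserving_ofLp (Fin 3)).measure_preimage hm2.nullMeasurableSet,
    (volume_preserving_piFinSuccAbove (fun _ : Fin 3 => ℝ) 0).measure_preimage
      (capS_meas r h).nullMeasurableSet]
  exact capS_volume r h h0 hr

end Pool.Agent.H54.V
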