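/-
JOB VOR-LENS.  Volume of the intersection of two caps of height 1.
Proof.  Put θ = (arccos t)/2.  Choose an orthonormal basis with e1 = (u+v)/‖u+v‖, e2 = (u-v)/‖u-v‖, e3 ⟂ both; in
coordinates x = (p,q,w) : ⟪u,x⟫ = p cos θ + q sin θ, ⟪v,x⟫ = p cos θ - q sin θ.  By Fubini in w the volume is
`∫∫_{(p,q) : p cosθ ± q sinθ > 1} 2 √(r² - p² - q²)₊`.  Polar coordinates p = ρ cos φ, q = ρ sin φ: the two conditions say
`ρ cos(|φ| + θ) > 1`, so the volume is `2 ∫_{φ=0}^{α-θ} ∫_{ρ = sec(φ+θ)}^{r} 2 √(r²-ρ²) ρ dρ dφ`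
`= (4/3) ∫_{ψ=θ}^{α} (r² - sec² ψ)^{3/2} dψ` with `cos α = 1/r` (and `0` if θ ≥ α).  Substituting s = cos 2ψ
(sec² ψ = 2/(1+s), dψ = - ds / (2 √(1-s²))) gives `∫_{2/r²-1}^{t} (2/3) (r² - 2/(1+s))^{3/2} / √(1-s²) ds = lens r t`
(the integrand `lam r s` vanishes for `-1 < s ≤ 2/r² - 1`).
Useful for the integrability questions: on `[-1,t]`, `t < 1`, `lam r` is bounded and continuous except at `-1`.

Status: complete (helper26).
-/
import Pool.Agent.H54.V.Defs
set_option autoImplicit false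
open MeasureTheory
namespace Pool.Agent.H54.V

open Set Real

/-- integral over the radius -/
noncomputable def LensG (r m : ℝ) : ENNReal :=
  if 1 < r * m then ENNReal.ofReal (2 / 3 * (r ^ 2 - 1 / m ^ 2) ^ (3 / 2 : ℝ)) else 0

theorem Lens_primitive {r a : ℝ} :
    ∫ ρ in a..r, 2 * ρ * √(r ^ 2 - ρ ^ 2) = 2 / 3 * (r ^ 2 - a ^ 2) ^ (3 / 2 : ℝ) := by
  have hd : ∀ ρ : ℝ, HasDerivAt (fun ρ : ℝ => -(2 / 3) * (r ^ 2 - ρ ^ 2) ^ (3 / 2 : ℝ))
      (2 * ρ * √(r ^ 2 - ρ ^ 2)) ρ := by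
    intro ρ
    have h1 : HasDerivAt (fun ρ : ℝ => r ^ 2 - ρ ^ 2) (-(2 * ρ)) ρ := by
      have := (hasDerivAt_pow 2 ρ).const_sub (r ^ 2)
      simpa using this
    have h2 := (h1.rpow_const (p := 3 / 2) (Or.inr (by norm_num))).const_mul (-(2 / 3))
    refine h2.congr_deriv ?_
    rw [sqrt_eq_rpow]
    norm_num
    ring
  rw [intervalIntegral.integral_eq_sub_of_hasDerivAt (fun ρ _ => hd ρ)]
  · rw [sub_self, zero_rpow (by norm_num)]
    ring
  · apply Continuous.intervalIntegrable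
    fun_prop

theorem Lens_inner {r : ℝ} (hr : 1 < r) (m : ℝ) :
    ∫⁻ ρ in Ioi (0 : ℝ), (if 1 < ρ * m then
      ENNReal.ofReal ρ * ENNReal.ofReal (2 * √(r ^ 2 - ρ ^ 2)) else 0) = LensG r m := by
  unfold LensG
  rcases le_or_gt m 0 with hm | hm
  · rw [if_neg (by nlinarith)]
    rw [setLIntegral_congr_fun (g := fun _ => 0) measurableSet_Ioi]
    · simp
    · intro ρ hρ
      have hρ' : (0 : ℝ) < ρ := hρ
      simp only
      rw [if_neg]
      nlinarith
  · set a : ℝ := 1 / m with ha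
    have ha0 : 0 < a := by positivity
    have hcond : ∀ ρ : ℝ, (1 < ρ * m ↔ a < ρ) := by
      intro ρ
      rw [ha, div_lt_iff₀ hm]
    have e1 : ∫⁻ ρ in Ioi (0 : ℝ), (if 1 < ρ * m then
        ENNReal.ofReal ρ * ENNReal.ofReal (2 * √(r ^ 2 - ρ ^ 2)) else 0) =
        ∫⁻ ρ in Ioi a, ENNReal.ofReal (2 * ρ * √(r ^ 2 - ρ ^ 2)) := by
      have : ∀ ρ : ℝ, (if 1 < ρ * m then
        ENNReal.ofReal ρ * ENNReal.ofReal (2 * √(r ^ 2 - ρ ^ 2)) else 0) =
          (Ioi a).indicator (fun ρ => ENNReal.ofReal (2 * ρ * √(r ^ 2 - ρ ^ 2))) ρ := by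
        intro ρ
        rw [Set.indicator_apply]
        by_cases h : a < ρ
        · rw [if_pos ((hcond ρ).2 h), if_pos (show ρ ∈ Ioi a from h)]
          rw [← ENNReal.ofReal_mul (ha0.trans h).le]
          congr 1; ring
        · rw [if_neg (fun hh => h ((hcond ρ).1 hh)), if_neg (show ¬ ρ ∈ Ioi a from h)]
      simp_rw [this]
      rw [setLIntegral_indicator measurableSet_Ioi]
      congr 2
      ext ρ
      simp only [mem_inter_iff, mem_Ioi]
      constructor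
      · exact fun h => h.1
      · exact fun h => ⟨h, ha0.trans h⟩
    rw [e1]
    have hz : ∀ ρ : ℝ, r ≤ ρ → ENNReal.ofReal (2 * ρ * √(r ^ 2 - ρ ^ 2)) = 0 := by
      intro ρ hρ
      rw [sqrt_eq_zero_of_nonpos (by nlinarith), mul_zero, ENNReal.ofReal_zero]
    rcases lt_or_ge a r with har | har
    · have h1 : 1 < r * m := (hcond r).2 har
      rw [if_pos h1]
      have e2 : ∫⁻ ρ in Ioi a, ENNReal.ofReal (2 * ρ * √(r ^ 2 - ρ ^ 2)) =
          ∫⁻ ρ in Ioc a r, ENNReal.ofReal (2 * ρ * √(r ^ 2 - ρ ^ 2)) := by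
        rw [← Ioc_union_Ioi_eq_Ioi har.le, lintegral_union measurableSet_Ioi
          (Set.Ioc_disjoint_Ioi le_rfl)]
        rw [setLIntegral_congr_fun (g := fun _ => 0) measurableSet_Ioi
          (fun ρ hρ => hz ρ (le_of_lt hρ))]
        simp
      rw [e2, ← ofReal_integral_eq_lintegral_ofReal]
      · rw [← intervalIntegral.integral_of_le har.le, Lens_primitive]
        congr 3
        rw [ha, one_div, one_div, inv_pow]
      · have : IntervalIntegrable (fun ρ : ℝ => 2 * ρ * √(r ^ 2 - ρ ^ 2)) volume a r := by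
          apply Continuous.intervalIntegrable
          fun_prop
        exact (intervalIntegrable_iff_integrableOn_Ioc_of_le har.le).1 this
      · rw [Filter.EventuallyLE, ae_restrict_iff' measurableSet_Ioc]
        refine Filter.Eventually.of_forall fun ρ hρ => ?_
        have : 0 < ρ := ha0.trans hρ.1
        simp only [Pi.zero_apply]
        positivity
    · rw [if_neg (fun hh => absurd ((hcond r).1 hh) (not_lt.2 har))]
      rw [setLIntegral_congr_fun (g := fun _ => 0) measurableSet_Ioi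
        (fun ρ hρ => hz ρ (har.trans (le_of_lt hρ)))]
      simp

theorem Lens_cond {θ φ ρ : ℝ} (h0 : 0 ≤ θ) (h1 : θ ≤ π / 2) (h2 : -π < φ) (h3 : φ < π)
    (hρ : 0 < ρ) :
    (1 < ρ * cos φ * cos θ + ρ * sin φ * sin θ ∧ 1 < ρ * cos φ * cos θ - ρ * sin φ * sin θ) ↔
      1 < ρ * cos (|φ| + θ) := by
  have hs : 0 ≤ sin θ := sin_nonneg_of_nonneg_of_le_pi h0 (by linarith [pi_pos])
  rcases le_or_gt 0 φ with hφ | hφ
  · rw [abs_of_nonneg hφ, cos_add]
    have h4 : 0 ≤ sin φ := sin_nonneg_of_nonneg_of_le_pi hφ h3.le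
    have h5 : 0 ≤ ρ * sin φ * sin θ := by positivity
    constructor
    · rintro ⟨_, h⟩; linarith
    · intro h; constructor <;> nlinarith
  · rw [abs_of_neg hφ, cos_add, cos_neg, sin_neg]
    have h4 : 0 ≤ -sin φ := by
      rw [← sin_neg]
      exact sin_nonneg_of_nonneg_of_le_pi (by linarith) (by linarith)
    have h5 : 0 ≤ ρ * (-sin φ) * sin θ := by positivity
    constructor
    · rintro ⟨h, _⟩; nlinarith
    · intro h; constructor <;> nlinarith

theorem Lens_fold (H : ℝ → ENNReal) (a : ℝ) :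
    ∫⁻ φ in Ioo (-a) a, H |φ| = 2 * ∫⁻ φ in Ioo 0 a, H φ := by
  rcases le_or_gt a 0 with ha | ha
  · rw [Ioo_eq_empty (by linarith), Ioo_eq_empty (by linarith)]
    simp
  have e1 : Ioo (-a) a = Ioc (-a) 0 ∪ Ioo 0 a := (Ioc_union_Ioo_eq_Ioo (by linarith) ha).symm
  have hd : Disjoint (Ioc (-a) 0) (Ioo 0 a) := by
    rw [Set.disjoint_left]
    intro x hx hx'
    exact absurd hx'.1 (not_lt.2 hx.2)
  rw [e1, lintegral_union measurableSet_Ioo hd]
  have e2 : ∫⁻ φ in Ioo 0 a, H |φ| = ∫⁻ φ in Ioo 0 a, H φ := by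
    apply setLIntegral_congr_fun measurableSet_Ioo
    intro φ hφ
    simp only
    rw [abs_of_pos hφ.1]
  have e3 : ∫⁻ φ in Ioc (-a) 0, H |φ| = ∫⁻ φ in Ioo 0 a, H φ := by
    have h1 : ∫⁻ φ in Ioc (-a) 0, H |φ| = ∫⁻ φ in Ioo (-a) 0, H |φ| := by
      apply setLIntegral_congr
      exact Ioo_ae_eq_Ioc.symm
    rw [h1]
    have h2 : Ioo (-a) 0 = (fun x : ℝ => -x) ⁻¹' Ioo 0 a := by
      ext x
      simp only [mem_preimage, mem_Ioo]
      constructor
      · rintro ⟨q1, q2⟩; constructor <;> linarith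
      · rintro ⟨q1, q2⟩; constructor <;> linarith
    have h3 : ∀ φ ∈ Ioo (-a) 0, H |φ| = (fun x => H x) (-φ) := by
      intro φ hφ
      simp only
      rw [abs_of_neg hφ.2]
    rw [setLIntegral_congr_fun measurableSet_Ioo h3, h2]
    exact (Measure.measurePreserving_neg (volume : Measure ℝ)).setLIntegral_comp_preimage_emb
      (MeasurableEquiv.neg ℝ).measurableEmbedding H (Ioo 0 a)
  rw [e2, e3, two_mul]

theorem Lens_subst {r : ℝ} (hr : 1 < r) {θ : ℝ} (h0 : 0 < θ) (h1 : θ < π / 2) :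
    ∫⁻ s in Ioo (-1 : ℝ) (cos (2 * θ)), ENNReal.ofReal (lam r s) =
      2 * ∫⁻ φ in Ioo 0 (π / 2 - θ), LensG r (cos (φ + θ)) := by
  set f : ℝ → ℝ := fun φ => cos (2 * (φ + θ)) with hf
  set f' : ℝ → ℝ := fun φ => -(2 * sin (2 * (φ + θ))) with hf'
  have hder : ∀ x, HasDerivAt f (f' x) x := by
    intro x
    have e1 : HasDerivAt (fun φ : ℝ => 2 * (φ + θ)) 2 x := by
      have := ((hasDerivAt_id x).add_const θ).const_mul 2
      simpa using this
    have e2 := e1.cos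
    refine e2.congr_deriv ?_
    rw [hf']
    ring
  have hrange : ∀ x ∈ Ioo 0 (π / 2 - θ), 0 < 2 * (x + θ) ∧ 2 * (x + θ) < π := by
    intro x hx
    constructor
    · linarith [hx.1]
    · linarith [hx.2]
  have hinj : InjOn f (Ioo 0 (π / 2 - θ)) := by
    intro x hx y hy hxy
    have := injOn_cos ⟨(hrange x hx).1.le, (hrange x hx).2.le⟩
      ⟨(hrange y hy).1.le, (hrange y hy).2.le⟩ hxy
    linarith
  have himg : f '' Ioo 0 (π / 2 - θ) = Ioo (-1 : ℝ) (cos (2 * θ)) := by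
    ext s
    constructor
    · rintro ⟨x, hx, rfl⟩
      have h2 := hrange x hx
      constructor
      · rw [← cos_pi]
        exact cos_lt_cos_of_nonneg_of_le_pi h2.1.le le_rfl h2.2
      · exact cos_lt_cos_of_nonneg_of_le_pi (by linarith) h2.2.le (by linarith [hx.1])
    · rintro ⟨hs1, hs2⟩
      have hs3 : s ≤ 1 := hs2.le.trans (cos_le_one _)
      refine ⟨arccos s / 2 - θ, ⟨?_, ?_⟩, ?_⟩
      · have : 2 * θ < arccos s := by
          have h3 : arccos (cos (2 * θ)) = 2 * θ := arccos_cos (by linarith) (by linarith)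
          rw [← h3]
          exact arccos_lt_arccos hs1.le hs2 (cos_le_one _)
        linarith
      · have : arccos s < π := by
          rw [← arccos_neg_one]
          exact arccos_lt_arccos le_rfl hs1 hs3
        linarith
      · rw [hf]
        simp only
        rw [show 2 * (arccos s / 2 - θ + θ) = arccos s by ring]
        exact cos_arccos hs1.le hs3
  rw [← himg, lintegral_image_eq_lintegral_abs_deriv_mul measurableSet_Ioo
    (fun x _ => (hder x).hasDerivWithinAt) hinj]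
  rw [← lintegral_const_mul' _ _ (by norm_num)]
  apply setLIntegral_congr_fun measurableSet_Ioo
  intro φ hφ
  have h2 := hrange φ hφ
  simp only
  set ψ := φ + θ with hψ
  have hψ0 : 0 < ψ := by linarith [h2.1]
  have hψ1 : ψ < π / 2 := by linarith [h2.2]
  have hc : 0 < cos ψ := cos_pos_of_mem_Ioo ⟨by linarith, hψ1⟩
  have hs2 : 0 < sin (2 * ψ) := sin_pos_of_pos_of_lt_pi h2.1 h2.2
  have e1 : |f' φ| = 2 * sin (2 * ψ) := by
    rw [hf']
    simp only
    rw [abs_neg, abs_of_pos (by positivity)]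
  have e2 : lam r (f φ) = (2 / 3) * (max (r ^ 2 - 1 / cos ψ ^ 2) 0) ^ (3 / 2 : ℝ) / sin (2 * ψ) := by
    unfold lam
    rw [hf]
    simp only
    rw [← hψ]
    have e3 : √(1 - cos (2 * ψ) ^ 2) = sin (2 * ψ) := by
      rw [← sin_sq, sqrt_sq hs2.le]
    have e4 : 2 / (1 + cos (2 * ψ)) = 1 / cos ψ ^ 2 := by
      rw [cos_two_mul]
      rw [show 1 + (2 * cos ψ ^ 2 - 1) = 2 * cos ψ ^ 2 by ring]
      field_simp
    rw [e3, e4]
  rw [e1, e2, ← ENNReal.ofReal_mul (by positivity)]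
  have e5 : 2 * sin (2 * ψ) * ((2 / 3) * (max (r ^ 2 - 1 / cos ψ ^ 2) 0) ^ (3 / 2 : ℝ) /
      sin (2 * ψ)) = 2 * ((2 / 3) * (max (r ^ 2 - 1 / cos ψ ^ 2) 0) ^ (3 / 2 : ℝ)) := by
    field_simp
  rw [e5, ENNReal.ofReal_mul (by norm_num), ENNReal.ofReal_ofNat]
  congr 1
  unfold LensG
  split_ifs with hh
  · rw [max_eq_left]
    have : 1 ≤ r ^ 2 * cos ψ ^ 2 := by
      rw [← mul_pow]
      exact one_le_pow₀ hh.le
    rw [sub_nonneg, div_le_iff₀ (by positivity)]
    exact this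
  · rw [max_eq_right, zero_rpow (by norm_num), mul_zero, ENNReal.ofReal_zero]
    have : r ^ 2 * cos ψ ^ 2 ≤ 1 := by
      rw [← mul_pow]
      exact pow_le_one₀ (by positivity) (not_lt.1 hh)
    rw [sub_nonpos, le_div_iff₀ (by positivity)]
    exact this

theorem Lens_cut {r : ℝ} (hr : 1 < r) {θ : ℝ} (h0 : 0 < θ) (h1 : θ < π / 2) :
    ∫⁻ φ in Ioo 0 π, LensG r (cos (φ + θ)) =
      ∫⁻ φ in Ioo 0 (π / 2 - θ), LensG r (cos (φ + θ)) := by
  have e1 : Ioo 0 π = Ioo 0 (π / 2 - θ) ∪ Ico (π / 2 - θ) π :=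
    (Ioo_union_Ico_eq_Ioo (by linarith) (by linarith [pi_pos])).symm
  have hd : Disjoint (Ioo 0 (π / 2 - θ)) (Ico (π / 2 - θ) π) := by
    rw [Set.disjoint_left]
    intro x hx hx'
    exact absurd hx.2 (not_lt.2 hx'.1)
  rw [e1, lintegral_union measurableSet_Ico hd]
  have e2 : ∫⁻ φ in Ico (π / 2 - θ) π, LensG r (cos (φ + θ)) = 0 := by
    rw [setLIntegral_congr_fun (g := fun _ => 0) measurableSet_Ico]
    · simp
    · intro φ hφ
      simp only
      have : cos (φ + θ) ≤ 0 := cos_nonpos_of_pi_div_two_le_of_le (by linarith [hφ.1])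
        (by linarith [hφ.2])
      unfold LensG
      rw [if_neg]
      nlinarith
  rw [e2, add_zero]

theorem Lens_measurable_lam (r : ℝ) : Measurable (lam r) := by
  unfold lam
  fun_prop

theorem Lens_lam_nonneg {r s : ℝ} : 0 ≤ lam r s := by
  unfold lam
  positivity

theorem Lens_ofReal {r t : ℝ} (ht : -1 < t)
    (hfin : ∫⁻ s in Ioo (-1 : ℝ) t, ENNReal.ofReal (lam r s) ≠ ⊤) :
    ENNReal.ofReal (lens r t) = ∫⁻ s in Ioo (-1 : ℝ) t, ENNReal.ofReal (lam r s) := by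
  unfold lens
  rw [intervalIntegral.integral_of_le ht.le, ← setIntegral_congr_set Ioo_ae_eq_Ioc]
  rw [ofReal_integral_eq_lintegral_ofReal]
  · refine ⟨(Lens_measurable_lam r).aestronglyMeasurable, ?_⟩
    rw [hasFiniteIntegral_iff_ofReal (Filter.Eventually.of_forall fun _ => Lens_lam_nonneg)]
    exact lt_of_le_of_ne le_top hfin
  · exact Filter.Eventually.of_forall fun _ => Lens_lam_nonneg

/-- the plane integral -/
theorem Lens_plane {r : ℝ} (hr : 1 < r) {θ : ℝ} (h0 : 0 < θ) (h1 : θ < π / 2) :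
    ∫⁻ y : ℝ × ℝ, (if 1 < y.1 * cos θ + y.2 * sin θ ∧ 1 < y.1 * cos θ - y.2 * sin θ then
      ENNReal.ofReal (2 * √(r ^ 2 - y.1 ^ 2 - y.2 ^ 2)) else 0) =
      ∫⁻ s in Ioo (-1 : ℝ) (cos (2 * θ)), ENNReal.ofReal (lam r s) := by
  rw [Lens_subst hr h0 h1, ← Lens_cut hr h0 h1, ← Lens_fold (fun φ => LensG r (cos (φ + θ)))]
  rw [← lintegral_comp_polarCoord_symm]
  have hm : Measurable (fun z : ℝ × ℝ => ENNReal.ofReal z.1 •
      (if 1 < (z.1 * cos z.2) * cos θ + (z.1 * sin z.2) * sin θ ∧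
        1 < (z.1 * cos z.2) * cos θ - (z.1 * sin z.2) * sin θ then
      ENNReal.ofReal (2 * √(r ^ 2 - (z.1 * cos z.2) ^ 2 - (z.1 * sin z.2) ^ 2)) else 0)) := by
    simp only [smul_eq_mul]
    refine Measurable.mul (by fun_prop) (Measurable.ite ?_ (by fun_prop) (by fun_prop))
    exact (measurableSet_lt (g := fun z : ℝ × ℝ =>
        (z.1 * cos z.2) * cos θ + (z.1 * sin z.2) * sin θ) measurable_const (by fun_prop)).inter
      (measurableSet_lt (g := fun z : ℝ × ℝ =>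
        (z.1 * cos z.2) * cos θ - (z.1 * sin z.2) * sin θ) measurable_const (by fun_prop))
  have e0 : ∀ z : ℝ × ℝ, polarCoord.symm z = (z.1 * cos z.2, z.1 * sin z.2) := fun z => rfl
  simp only [e0]
  change ∫⁻ z in Ioi (0 : ℝ) ×ˢ Ioo (-π) π, _ = _
  rw [Measure.volume_eq_prod, ← Measure.prod_restrict, lintegral_prod_symm _ hm.aemeasurable]
  apply setLIntegral_congr_fun measurableSet_Ioo
  intro φ hφ
  simp only
  rw [← Lens_inner hr (cos (|φ| + θ))]
  apply setLIntegral_congr_fun measurableSet_Ioi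
  intro ρ hρ
  have hρ' : (0 : ℝ) < ρ := hρ
  simp only
  have h2 := Lens_cond h0.le h1.le hφ.1 hφ.2 hρ'
  have e1 : r ^ 2 - (ρ * cos φ) ^ 2 - (ρ * sin φ) ^ 2 = r ^ 2 - ρ ^ 2 := by
    have := sin_sq_add_cos_sq φ
    linear_combination -(ρ ^ 2) * this
  rw [e1, smul_eq_mul]
  split_ifs with h3 h4 h5
  · rfl
  · exact absurd (h2.1 h3) h4
  · exact absurd (h2.2 h5) h3
  · rw [mul_zero]

/-- the integral over the third coordinate -/
theorem Lens_line (a : ℝ) : volume {w : ℝ | w ^ 2 ≤ a} = ENNReal.ofReal (2 * √a) := by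
  rcases lt_or_ge a 0 with ha | ha
  · have : {w : ℝ | w ^ 2 ≤ a} = ∅ := by
      ext w
      simp only [mem_ofPred_eq, mem_empty_iff_false, iff_false, not_le]
      nlinarith [sq_nonneg w]
    rw [this, sqrt_eq_zero_of_nonpos ha.le]
    simp
  · have : {w : ℝ | w ^ 2 ≤ a} = Icc (-√a) (√a) := by
      ext w
      simp only [mem_ofPred_eq, mem_Icc]
      exact Real.sq_le ha
    rw [this, Real.volume_Icc]
    congr 1; ring

theorem Lens_T_meas (r θ : ℝ) : MeasurableSet {z : ℝ × ℝ × ℝ |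
    z.2.1 ^ 2 + z.2.2 ^ 2 + z.1 ^ 2 ≤ r ^ 2 ∧
      1 < z.2.1 * cos θ + z.2.2 * sin θ ∧ 1 < z.2.1 * cos θ - z.2.2 * sin θ} :=
  (measurableSet_le (f := fun z : ℝ × ℝ × ℝ => z.2.1 ^ 2 + z.2.2 ^ 2 + z.1 ^ 2)
    (by fun_prop) measurable_const).inter
    ((measurableSet_lt (g := fun z : ℝ × ℝ × ℝ => z.2.1 * cos θ + z.2.2 * sin θ)
      measurable_const (by fun_prop)).inter
    (measurableSet_lt (g := fun z : ℝ × ℝ × ℝ => z.2.1 * cos θ - z.2.2 * sin θ)
      measurable_const (by fun_prop)))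

theorem Lens_prod {r : ℝ} (hr : 1 < r) {θ : ℝ} (h0 : 0 < θ) (h1 : θ < π / 2) :
    volume {z : ℝ × ℝ × ℝ | z.2.1 ^ 2 + z.2.2 ^ 2 + z.1 ^ 2 ≤ r ^ 2 ∧
      1 < z.2.1 * cos θ + z.2.2 * sin θ ∧ 1 < z.2.1 * cos θ - z.2.2 * sin θ} =
      ∫⁻ s in Ioo (-1 : ℝ) (cos (2 * θ)), ENNReal.ofReal (lam r s) := by
  have hmeas := Lens_T_meas r θ
  rw [Measure.volume_eq_prod, Measure.prod_apply_symm hmeas, ← Lens_plane hr h0 h1]
  apply lintegral_congr
  intro y
  split_ifs with h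
  · rw [← Lens_line]
    congr 1
    ext w
    simp only [mem_preimage, mem_ofPred_eq]
    constructor
    · rintro ⟨h2, _⟩; linarith
    · intro h2; exact ⟨by linarith, h⟩
  · have : (fun x => (x, y)) ⁻¹' {z : ℝ × ℝ × ℝ | z.2.1 ^ 2 + z.2.2 ^ 2 + z.1 ^ 2 ≤ r ^ 2 ∧
      1 < z.2.1 * cos θ + z.2.2 * sin θ ∧ 1 < z.2.1 * cos θ - z.2.2 * sin θ} = ∅ := by
      ext w
      simp only [mem_preimage, mem_ofPred_eq, mem_empty_iff_false, iff_false]
      rintro ⟨_, h2⟩
      exact h h2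
    rw [this, measure_empty]

theorem lens_volume (r : ℝ) (hr : 1 < r) (t : ℝ) (ht : -1 < t) (ht1 : t < 1) (u v : E3) (hu : ‖u‖ = 1)
    (hv : ‖v‖ = 1) (huv : inner ℝ u v = t) :
    volume {x : E3 | ‖x‖ ≤ r ∧ 1 < inner ℝ u x ∧ 1 < inner ℝ v x} = ENNReal.ofReal (lens r t) := by
  set θ : ℝ := arccos t / 2 with hθ
  have hθ0 : 0 < θ := by
    have : 0 < arccos t := arccos_pos.2 ht1
    positivity
  have hθ1 : θ < π / 2 := by
    have : arccos t < π := by
      rw [← arccos_neg_one]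
      exact arccos_lt_arccos le_rfl ht ht1.le
    linarith
  have hcos2 : cos (2 * θ) = t := by
    rw [hθ, mul_div_cancel₀ _ (by norm_num : (2 : ℝ) ≠ 0)]
    exact cos_arccos ht.le ht1.le
  have hc : 0 < cos θ := cos_pos_of_mem_Ioo ⟨by linarith [pi_pos], hθ1⟩
  have hs : 0 < sin θ := sin_pos_of_pos_of_lt_pi hθ0 (by linarith [pi_pos])
  have hc2 : 2 * cos θ ^ 2 = 1 + t := by rw [← hcos2, cos_two_mul]; ring
  have hs2 : 2 * sin θ ^ 2 = 1 - t := by
    have := sin_sq_add_cos_sq θ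
    linarith
  -- the orthonormal basis
  set e1 : E3 := (2 * cos θ)⁻¹ • (u + v) with he1
  set e2 : E3 := (2 * sin θ)⁻¹ • (u - v) with he2
  have hvu : inner ℝ v u = t := by rw [real_inner_comm]; exact huv
  have huu : inner ℝ u u = (1 : ℝ) := by rw [real_inner_self_eq_norm_sq, hu]; norm_num
  have hvv : inner ℝ v v = (1 : ℝ) := by rw [real_inner_self_eq_norm_sq, hv]; norm_num
  have h11 : inner ℝ e1 e1 = (1 : ℝ) := by
    rw [he1, inner_smul_left, inner_smul_right, inner_add_left, inner_add_right, inner_add_right,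
      huu, hvv, huv, hvu]
    simp only [conj_trivial]
    have : (1 : ℝ) + t + (t + 1) = (2 * cos θ) ^ 2 := by linarith
    rw [this]
    field_simp
  have h22 : inner ℝ e2 e2 = (1 : ℝ) := by
    rw [he2, inner_smul_left, inner_smul_right, inner_sub_left, inner_sub_right, inner_sub_right,
      huu, hvv, huv, hvu]
    simp only [conj_trivial]
    have : (1 : ℝ) - t - (t - 1) = (2 * sin θ) ^ 2 := by linarith
    rw [this]
    field_simp
  have h12 : inner ℝ e1 e2 = (0 : ℝ) := by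
    rw [he1, he2, inner_smul_left, inner_smul_right, inner_add_left, inner_sub_right,
      inner_sub_right, huu, hvv, huv, hvu]
    ring
  have hue : u = cos θ • e1 + sin θ • e2 := by
    rw [he1, he2, smul_smul, smul_smul]
    have q1 : cos θ * (2 * cos θ)⁻¹ = 1 / 2 := by field_simp
    have q2 : sin θ * (2 * sin θ)⁻¹ = 1 / 2 := by field_simp
    rw [q1, q2]
    module
  have hve : v = cos θ • e1 - sin θ • e2 := by
    rw [he1, he2, smul_smul, smul_smul]
    have q1 : cos θ * (2 * cos θ)⁻¹ = 1 / 2 := by field_simp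
    have q2 : sin θ * (2 * sin θ)⁻¹ = 1 / 2 := by field_simp
    rw [q1, q2]
    module
  clear_value e1 e2
  have hort : Orthonormal ℝ (({0, 1} : Set (Fin 3)).domRestrict
      (fun i : Fin 3 => if i = 0 then e1 else e2)) := by
    rw [orthonormal_iff_ite]
    rintro ⟨i, hi⟩ ⟨j, hj⟩
    simp only [mem_insert_iff, mem_singleton_iff] at hi hj
    rcases hi with rfl | rfl <;> rcases hj with rfl | rfl
    · simpa using h11
    · simpa using h12
    · simpa [real_inner_comm] using h12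
    · simpa using h22
  obtain ⟨b, hb⟩ := hort.exists_orthonormalBasis_extension_of_card_eq (by simp)
  have hb0 : b 0 = e1 := by
    have := hb 0 (by simp)
    simpa using this
  have hb1 : b 1 = e2 := by
    have := hb 1 (by simp)
    simpa using this
  -- the measure preserving coordinates
  have mp1 := b.measurePreserving_repr
  have mp2 := PiLp.volume_preserving_ofLp (Fin 3)
  have mp3 := volume_preserving_piFinSuccAbove (fun _ : Fin 3 => ℝ) 2
  have mp4 : MeasurePreserving (Prod.map (id : ℝ → ℝ) (MeasurableEquiv.finTwoArrow (α := ℝ)))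
      (volume : Measure (ℝ × (Fin 2 → ℝ))) (volume : Measure (ℝ × ℝ × ℝ)) :=
    (MeasurePreserving.id volume).prod (volume_preserving_finTwoArrow ℝ)
  have mp := mp4.comp (mp3.comp (mp2.comp mp1))
  have hfun : ∀ x : E3, (Prod.map (id : ℝ → ℝ) (MeasurableEquiv.finTwoArrow (α := ℝ)) ∘
      (MeasurableEquiv.piFinSuccAbove (fun _ : Fin 3 => ℝ) 2) ∘
      (WithLp.ofLp (p := 2)) ∘ b.repr) x = (inner ℝ (b 2) x, inner ℝ e1 x, inner ℝ e2 x) := by
    intro x
    rw [← hb0, ← hb1, ← b.repr_apply_apply, ← b.repr_apply_apply, ← b.repr_apply_apply]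
    rfl
  have hS : {x : E3 | ‖x‖ ≤ r ∧ 1 < inner ℝ u x ∧ 1 < inner ℝ v x} =
      (Prod.map (id : ℝ → ℝ) (MeasurableEquiv.finTwoArrow (α := ℝ)) ∘
      (MeasurableEquiv.piFinSuccAbove (fun _ : Fin 3 => ℝ) 2) ∘
      (WithLp.ofLp (p := 2)) ∘ b.repr) ⁻¹' {z : ℝ × ℝ × ℝ |
        z.2.1 ^ 2 + z.2.2 ^ 2 + z.1 ^ 2 ≤ r ^ 2 ∧
      1 < z.2.1 * cos θ + z.2.2 * sin θ ∧ 1 < z.2.1 * cos θ - z.2.2 * sin θ} := by
    ext x
    rw [mem_preimage, hfun]
    simp only [mem_ofPred_eq]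
    have q0 : ‖x‖ ^ 2 = inner ℝ e1 x ^ 2 + inner ℝ e2 x ^ 2 + inner ℝ (b 2) x ^ 2 := by
      have := b.sum_sq_inner_right x
      rw [← this, Fin.sum_univ_three, hb0, hb1]
    have q1 : inner ℝ u x = inner ℝ e1 x * cos θ + inner ℝ e2 x * sin θ := by
      have q3 : inner ℝ u x = inner ℝ (cos θ • e1 + sin θ • e2) x := by rw [← hue]
      rw [q3, inner_add_left, inner_smul_left, inner_smul_left]
      simp only [conj_trivial]
      ring
    have q2 : inner ℝ v x = inner ℝ e1 x * cos θ - inner ℝ e2 x * sin θ := by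
      have q3 : inner ℝ v x = inner ℝ (cos θ • e1 - sin θ • e2) x := by rw [← hve]
      rw [q3, inner_sub_left, inner_smul_left, inner_smul_left]
      simp only [conj_trivial]
      ring
    rw [← q1, ← q2, ← q0]
    rw [sq_le_sq₀ (norm_nonneg _) (by linarith)]
  have hvol : volume {x : E3 | ‖x‖ ≤ r ∧ 1 < inner ℝ u x ∧ 1 < inner ℝ v x} =
      ∫⁻ s in Ioo (-1 : ℝ) t, ENNReal.ofReal (lam r s) := by
    rw [hS]
    have hmeas := Lens_T_meas r θ
    rw [mp.measure_preimage hmeas.nullMeasurableSet, Lens_prod hr hθ0 hθ1, hcos2]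
  rw [Lens_ofReal ht, hvol]
  rw [← hvol]
  have : {x : E3 | ‖x‖ ≤ r ∧ 1 < inner ℝ u x ∧ 1 < inner ℝ v x} ⊆ Metric.closedBall (0 : E3) r := by
    intro x hx
    rw [Metric.mem_closedBall, dist_zero_right]
    exact hx.1
  exact ((measure_mono this).trans_lt measure_closedBall_lt_top).ne

end Pool.Agent.H54.V
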