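/-
JOB VOR-DODEC.  Volume of the truncated dodecahedron (needs VOR-CAP, VOR-LENS, VOR-BONF as imports, still `sorry`ed).
`Qset` is the intersection of the 12 half spaces ⟪n,x⟫ ≤ 1 with the unit normals n = (0,±1,±φ)/√(φ+2), (±1,±φ,0)/√(φ+2),
(±φ,0,±1)/√(φ+2) (coordinates x 0, x 1, x 2; φ = Real.goldenRatio, φ² = φ+1, so 1+φ² = φ+2).
Inner products of distinct normals: 30 pairs with 1/√5 = a5 (φ/(φ+2) = 1/√5), 30 pairs with -1/√5, 6 pairs with -1.
Let C_n = {‖x‖ ≤ r, 1 < ⟪n,x⟫}.  Qset ∩ closedBall 0 r = closedBall 0 r \ ⋃ C_n, so by `bonf_lower`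
QV r ≤ (4/3)π r³ - Σ vol C_n + Σ_{pairs} vol (C_n ∩ C_m) = (4/3) π r³ - 12 capV r 1 + 30 lens r a5: for the pairs with
inner product -1/√5 or -1 the intersection is empty, since ‖n+m‖ r ≥ ⟪n+m,x⟫ > 2 would give (2 - 2/√5) r² > 4, but
r² ≤ R0² = 15 - 6√5 < 1.584.
-/
import Pool.Agent.H54.V.J.Cap
import Pool.Agent.H54.V.J.Lens
import Pool.Agent.H54.V.J.Bonf
set_option autoImplicit false
open MeasureTheory
namespace Pool.Agent.H54.V

/-- integral parts of the normals (scaled by `√(φ+2)`) -/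
def dodA : Fin 12 → Fin 3 → ℤ :=
  ![![0, 1, 0], ![0, 1, 0], ![0, -1, 0], ![0, -1, 0], ![1, 0, 0], ![1, 0, 0], ![-1, 0, 0],
    ![-1, 0, 0], ![0, 0, 1], ![0, 0, 1], ![0, 0, -1], ![0, 0, -1]]

/-- coefficients of `φ` of the normals (scaled by `√(φ+2)`) -/
def dodB : Fin 12 → Fin 3 → ℤ :=
  ![![0, 0, 1], ![0, 0, -1], ![0, 0, 1], ![0, 0, -1], ![0, 1, 0], ![0, -1, 0], ![0, 1, 0],
    ![0, -1, 0], ![1, 0, 0], ![-1, 0, 0], ![1, 0, 0], ![-1, 0, 0]]

/-- scalar products in `ℤ[φ]` -/
def dodDot (i j : Fin 12) : ℤ × ℤ :=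
  (∑ k, (dodA i k * dodA j k + dodB i k * dodB j k),
    ∑ k, (dodA i k * dodB j k + dodB i k * dodA j k + dodB i k * dodB j k))

theorem dodDot_cases : ∀ i j : Fin 12, i < j →
    dodDot i j = (0, 1) ∨ dodDot i j = (0, -1) ∨ dodDot i j = (-2, -1) := by
  decide

theorem dodDot_self : ∀ i : Fin 12, dodDot i i = (2, 1) := by
  decide

/-- the unit normals of the dodecahedron -/
noncomputable def dodN (i : Fin 12) : E3 :=
  WithLp.toLp 2 fun k => ((dodA i k : ℝ) + (dodB i k : ℝ) * Real.goldenRatio) /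
    Real.sqrt (Real.goldenRatio + 2)

theorem dod_pos : (0 : ℝ) < Real.goldenRatio + 2 := by
  have := Real.goldenRatio_pos
  linarith

theorem dodN_inner (i j : Fin 12) : inner ℝ (dodN i) (dodN j) =
    (((dodDot i j).1 : ℝ) + ((dodDot i j).2 : ℝ) * Real.goldenRatio) / (Real.goldenRatio + 2) := by
  have hs : Real.sqrt (Real.goldenRatio + 2) * Real.sqrt (Real.goldenRatio + 2) =
    Real.goldenRatio + 2 := Real.mul_self_sqrt dod_pos.le
  have hφ := Real.goldenRatio_sq
  rw [PiLp.inner_apply]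
  simp only [dodN, dodDot, RCLike.inner_apply, conj_trivial]
  push_cast
  rw [Finset.sum_mul, ← Finset.sum_add_distrib, Finset.sum_div]
  refine Finset.sum_congr rfl fun k _ => ?_
  rw [div_mul_div_comm, hs]
  congr 1
  linear_combination ((dodB i k : ℝ) * (dodB j k : ℝ)) * hφ

theorem dodN_norm (i : Fin 12) : ‖dodN i‖ = 1 := by
  have h : inner ℝ (dodN i) (dodN i) = (1 : ℝ) := by
    rw [dodN_inner, dodDot_self]
    have := dod_pos
    push_cast
    field_simp
    ring
  rw [real_inner_self_eq_norm_sq] at h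
  nlinarith [norm_nonneg (dodN i)]

theorem dod_phi : Real.goldenRatio / (Real.goldenRatio + 2) = a5 := by
  have h5 : Real.sqrt 5 * Real.sqrt 5 = 5 := Real.mul_self_sqrt (by norm_num)
  have h0 : (0 : ℝ) < Real.sqrt 5 := Real.sqrt_pos.2 (by norm_num)
  unfold a5
  rw [div_eq_div_iff dod_pos.ne' h0.ne']
  unfold Real.goldenRatio
  nlinarith

theorem dod_a5 : -1 < a5 ∧ a5 < 1 := by
  have h0 : (2 : ℝ) < Real.sqrt 5 := by
    rw [Real.lt_sqrt (by norm_num)]
    norm_num
  unfold a5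
  constructor
  · have : (0 : ℝ) < 1 / Real.sqrt 5 := by positivity
    linarith
  · rw [div_lt_one (by linarith)]
    linarith

theorem dod_lens_nonneg (r : ℝ) : 0 ≤ lens r a5 := by
  unfold lens
  refine intervalIntegral.integral_nonneg dod_a5.1.le fun s _ => ?_
  unfold lam
  positivity

theorem dod_R0 : R0 ^ 2 < 8 / 5 := by
  have h5 : Real.sqrt 5 * Real.sqrt 5 = 5 := Real.mul_self_sqrt (by norm_num)
  have h3 : Real.sqrt 3 * Real.sqrt 3 = 3 := Real.mul_self_sqrt (by norm_num)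
  have hs : (2.235 : ℝ) < Real.sqrt 5 := by
    rw [Real.lt_sqrt (by norm_num)]
    norm_num
  have hc := Real.cos_pi_div_five
  have hcpos : 0 < Real.cos (Real.pi / 5) := by
    rw [hc]
    positivity
  have h1 := Real.sin_sq_add_cos_sq (Real.pi / 5)
  have h2 : R0 ^ 2 * Real.cos (Real.pi / 5) ^ 2 = 3 * (1 - Real.cos (Real.pi / 5) ^ 2) := by
    unfold R0
    rw [Real.tan_eq_sin_div_cos, mul_pow, div_pow]
    field_simp
    nlinarith
  rw [hc] at h2
  have h4 : 0 ≤ R0 ^ 2 := sq_nonneg _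
  by_contra h6
  push Not at h6
  nlinarith

theorem dod_empty {r : ℝ} (hr : r ≤ R0) {i j : Fin 12}
    (h : inner ℝ (dodN i) (dodN j) ≤ -a5) :
    {x : E3 | ‖x‖ ≤ r ∧ 1 < inner ℝ (dodN i) x} ∩ {x : E3 | ‖x‖ ≤ r ∧ 1 < inner ℝ (dodN j) x} =
      ∅ := by
  rw [Set.eq_empty_iff_forall_notMem]
  rintro x ⟨⟨h1, h2⟩, -, h3⟩
  have h4 : (2 : ℝ) < inner ℝ (dodN i + dodN j) x := by
    rw [inner_add_left]
    linarith
  have h5 := real_inner_le_norm (dodN i + dodN j) x
  have h6 : ‖dodN i + dodN j‖ ^ 2 = 2 + 2 * inner ℝ (dodN i) (dodN j) := by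
    rw [norm_add_sq_real, dodN_norm, dodN_norm]
    ring
  have h7 : ‖x‖ ^ 2 ≤ R0 ^ 2 := by
    have : ‖x‖ ≤ R0 := h1.trans hr
    exact pow_le_pow_left₀ (norm_nonneg x) this 2
  have h8 := dod_R0
  have h9 : (4 : ℝ) < ‖dodN i + dodN j‖ ^ 2 * ‖x‖ ^ 2 := by
    rw [← mul_pow]
    have : (2 : ℝ) < ‖dodN i + dodN j‖ * ‖x‖ := h4.trans_le h5
    nlinarith
  have h10 : (0 : ℝ) < a5 := by
    unfold a5
    positivity
  have h11 : ‖dodN i + dodN j‖ ^ 2 ≤ 2 := by
    rw [h6]
    linarith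
  have h12 : ‖dodN i + dodN j‖ ^ 2 * ‖x‖ ^ 2 ≤ 2 * (8 / 5) := by
    have h13 : ‖x‖ ^ 2 ≤ 8 / 5 := by linarith
    exact mul_le_mul h11 h13 (sq_nonneg _) (by norm_num)
  linarith

theorem dod_inner_x (i : Fin 12) (x : E3) : inner ℝ (dodN i) x =
    (∑ k, ((dodA i k : ℝ) + (dodB i k : ℝ) * Real.goldenRatio) * x k) /
      Real.sqrt (Real.goldenRatio + 2) := by
  rw [PiLp.inner_apply, Finset.sum_div]
  refine Finset.sum_congr rfl fun k _ => ?_
  simp only [dodN, RCLike.inner_apply, conj_trivial]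
  ring

theorem dod_mem {x : E3} : x ∈ Qset ↔ ∀ i, inner ℝ (dodN i) x ≤ 1 := by
  have hs : 0 < Real.sqrt (Real.goldenRatio + 2) := Real.sqrt_pos.2 dod_pos
  have hφ := Real.goldenRatio_pos
  have e : (∀ i, inner ℝ (dodN i) x ≤ 1) ↔ ∀ i : Fin 12,
      (∑ k, ((dodA i k : ℝ) + (dodB i k : ℝ) * Real.goldenRatio) * x k) ≤
        Real.sqrt (Real.goldenRatio + 2) := by
    refine forall_congr' fun i => ?_
    rw [dod_inner_x, div_le_one hs]
  rw [e]
  unfold Qset
  change (_ ∧ _ ∧ _) ↔ _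
  constructor
  · rintro ⟨h1, h2, h3⟩ i
    have a0 := abs_le.1 (le_refl |x 0|)
    have a1 := abs_le.1 (le_refl |x 1|)
    have a2 := abs_le.1 (le_refl |x 2|)
    have b0 := mul_le_mul_of_nonneg_left a0.2 hφ.le
    have b0' := mul_le_mul_of_nonneg_left a0.1 hφ.le
    have b1 := mul_le_mul_of_nonneg_left a1.2 hφ.le
    have b1' := mul_le_mul_of_nonneg_left a1.1 hφ.le
    have b2 := mul_le_mul_of_nonneg_left a2.2 hφ.le
    have b2' := mul_le_mul_of_nonneg_left a2.1 hφ.le
    fin_cases i <;> simp [dodA, dodB, Fin.sum_univ_three] <;> linarith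
  · intro h
    have c0 := h 0
    have c1 := h 1
    have c2 := h 2
    have c3 := h 3
    have c4 := h 4
    have c5 := h 5
    have c6 := h 6
    have c7 := h 7
    have c8 := h 8
    have c9 := h 9
    have c10 := h 10
    have c11 := h 11
    simp [dodA, dodB, Fin.sum_univ_three] at c0 c1 c2 c3 c4 c5 c6 c7 c8 c9 c10 c11
    refine ⟨?_, ?_, ?_⟩
    · rcases abs_cases (x 1) with ⟨h1, _⟩ | ⟨h1, _⟩ <;> rcases abs_cases (x 2) with ⟨h2, _⟩ | ⟨h2, _⟩ <;>
        rw [h1, h2] <;> linarith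
    · rcases abs_cases (x 0) with ⟨h1, _⟩ | ⟨h1, _⟩ <;> rcases abs_cases (x 1) with ⟨h2, _⟩ | ⟨h2, _⟩ <;>
        rw [h1, h2] <;> linarith
    · rcases abs_cases (x 0) with ⟨h1, _⟩ | ⟨h1, _⟩ <;> rcases abs_cases (x 2) with ⟨h2, _⟩ | ⟨h2, _⟩ <;>
        rw [h1, h2] <;> linarith

theorem QV_le_V12 (r : ℝ) (h1 : 1 < r) (hr : r ≤ R0) : QV r ≤ V12 r := by
  have hr0 : (0 : ℝ) ≤ r := by linarith
  set C : Fin 12 → Set E3 := fun i => {x : E3 | ‖x‖ ≤ r ∧ 1 < inner ℝ (dodN i) x} with hC
  have hCm : ∀ i, MeasurableSet (C i) := by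
    intro i
    refine MeasurableSet.inter ?_ ?_
    · exact measurableSet_le measurable_norm measurable_const
    · have hm : Measurable fun x : E3 => inner ℝ (dodN i) x :=
        (continuous_const.inner continuous_id).measurable
      exact measurableSet_lt measurable_const hm
  have hcap : 0 ≤ capV r 1 := by
    unfold capV
    have := Real.pi_pos
    positivity
  have hCv : ∀ i, (volume (C i)).toReal = capV r 1 := by
    intro i
    rw [hC]
    simp only
    rw [cap_volume r 1 zero_le_one h1.le (dodN i) (dodN_norm i), ENNReal.toReal_ofReal hcap]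
  have hCf : ∀ i, volume (C i) ≠ ⊤ := by
    intro i
    rw [hC]
    simp only
    rw [cap_volume r 1 zero_le_one h1.le (dodN i) (dodN_norm i)]
    exact ENNReal.ofReal_ne_top
  have hpair : ∀ i j, i < j → (volume (C i ∩ C j)).toReal =
      if dodDot i j = (0, 1) then lens r a5 else 0 := by
    intro i j hij
    rcases dodDot_cases i j hij with h | h | h
    · rw [if_pos h]
      have h2 : C i ∩ C j = {x : E3 | ‖x‖ ≤ r ∧ 1 < inner ℝ (dodN i) x ∧ 1 < inner ℝ (dodN j) x} := by
        ext x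
        simp only [hC, Set.mem_inter_iff, Set.mem_ofPred_eq]
        tauto
      have h3 : inner ℝ (dodN i) (dodN j) = a5 := by
        rw [dodN_inner, h]
        simpa using dod_phi
      rw [h2, lens_volume r h1 a5 dod_a5.1 dod_a5.2 _ _ (dodN_norm i) (dodN_norm j) h3,
        ENNReal.toReal_ofReal (dod_lens_nonneg r)]
    · have h2 : C i ∩ C j = ∅ := by
        refine dod_empty hr ?_
        rw [dodN_inner, h]
        have := dod_phi
        push_cast
        have e : ((0 : ℝ) + (-1) * Real.goldenRatio) / (Real.goldenRatio + 2) = -a5 := by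
          rw [← this]
          ring
        rw [e]
      rw [h2, if_neg (by rw [h]; decide)]
      simp
    · have h2 : C i ∩ C j = ∅ := by
        refine dod_empty hr ?_
        rw [dodN_inner, h]
        have h3 := dod_a5
        have h4 : (0 : ℝ) < Real.goldenRatio + 2 := by
          have := Real.goldenRatio_pos
          linarith
        push_cast
        have e : ((-2 : ℝ) + (-1) * Real.goldenRatio) / (Real.goldenRatio + 2) = -1 := by
          field_simp
          ring
        rw [e]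
        linarith
      rw [h2, if_neg (by rw [h]; decide)]
      simp
  have hset : Qset ∩ Metric.closedBall (0 : E3) r = Metric.closedBall (0 : E3) r \ ⋃ i, C i := by
    ext x
    simp only [Set.mem_inter_iff, Set.mem_sdiff, Set.mem_iUnion, not_exists]
    rw [dod_mem]
    constructor
    · rintro ⟨h2, h3⟩
      exact ⟨h3, fun i h4 => absurd (h2 i) (not_le.2 h4.2)⟩
    · rintro ⟨h3, h2⟩
      refine ⟨fun i => ?_, h3⟩
      by_contra h4
      exact h2 i ⟨by simpa using h3, not_le.1 h4⟩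
  have hsub : (⋃ i, C i) ⊆ Metric.closedBall (0 : E3) r := by
    intro x hx
    rw [Set.mem_iUnion] at hx
    obtain ⟨i, hi⟩ := hx
    simpa using hi.1
  have hUf : volume (⋃ i, C i) ≠ ⊤ := ne_top_of_le_ne_top measure_closedBall_lt_top.ne
    (measure_mono hsub)
  have hball : (volume (Metric.closedBall (0 : E3) r)).toReal = 4 / 3 * Real.pi * r ^ 3 := by
    rw [EuclideanSpace.volume_closedBall_fin_three]
    rw [ENNReal.toReal_mul, ENNReal.toReal_pow, ENNReal.toReal_ofReal hr0, ENNReal.toReal_ofReal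
      (by have := Real.pi_pos; positivity)]
    ring
  have hb := bonf_lower C hCm hCf
  have hps : pairSum (fun i j => (volume (C i ∩ C j)).toReal) = 30 * lens r a5 := by
    unfold pairSum
    have e1 : ∀ i j : Fin 12, (if i < j then (volume (C i ∩ C j)).toReal else 0) =
        (((if i < j ∧ dodDot i j = (0, 1) then 1 else 0 : ℕ)) : ℝ) * lens r a5 := by
      intro i j
      by_cases hij : i < j
      · rw [if_pos hij, hpair i j hij]
        by_cases h : dodDot i j = (0, 1)
        · rw [if_pos h, if_pos ⟨hij, h⟩]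
          simp
        · rw [if_neg h, if_neg (fun h' => h h'.2)]
          simp
      · rw [if_neg hij, if_neg (fun h' => hij h'.1)]
        simp
    simp only [e1]
    simp only [← Finset.sum_mul]
    congr 1
    have e2 : (∑ i : Fin 12, ∑ j : Fin 12, (if i < j ∧ dodDot i j = (0, 1) then 1 else 0 : ℕ)) = 30 := by
      decide
    exact_mod_cast e2
  unfold QV V12
  rw [hset, measure_sdiff hsub (MeasurableSet.iUnion hCm).nullMeasurableSet hUf,
    ENNReal.toReal_sub_of_le (measure_mono hsub) measure_closedBall_lt_top.ne, hball]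
  rw [hps] at hb
  simp only [hCv, Finset.sum_const, Finset.card_univ, Fintype.card_fin, nsmul_eq_mul] at hb
  push_cast at hb
  linarith

theorem QV_mono {r s : ℝ} (hrs : r ≤ s) : QV r ≤ QV s := by
  unfold QV
  refine ENNReal.toReal_mono ?_ (measure_mono (Set.inter_subset_inter_right _
    (Metric.closedBall_subset_closedBall hrs)))
  exact ne_top_of_le_ne_top measure_closedBall_lt_top.ne (measure_mono Set.inter_subset_right)

theorem Qvol_ne_top (r : ℝ) : volume (Qset ∩ Metric.closedBall (0 : E3) r) ≠ ⊤ := by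
  exact ne_top_of_le_ne_top measure_closedBall_lt_top.ne (measure_mono Set.inter_subset_right)

end Pool.Agent.H54.V
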