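/-
JOB VOR-FIN.  Reduction of an arbitrary packing to a finite sorted configuration of active centres.
Proof.  Let A = {c ∈ C : c ≠ 0, ‖c‖ < 2 R0}.  A is finite: C is uniformly discrete (pairwise distances ≥ 2) and A is
contained in a ball, which is compact / totally bounded.  N = card A; enumerate A sorted by norm; u i = c_i/‖c_i‖,
h i = ‖c_i‖/2 ≥ 1 (distance from 0 ∈ C is ≥ 2).  `sep`: 4 ≤ ‖c_i - c_j‖² = 4h_i² + 4h_j² - 8 h_i h_j ⟪u_i,u_j⟫.
If ‖x‖ ≤ r ≤ R0 and ⟪u i,x⟫ ≤ h i for all i, then for c ∈ A: ‖x-c‖² = ‖x‖² - 2·2h⟪u,x⟫ + 4h² ≥ ‖x‖²; for c ∈ C with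
‖c‖ ≥ 2R0: ‖x-c‖ ≥ 2R0 - r ≥ r ≥ ‖x‖; for c = 0 equality.
-/
import Pool.Agent.H54.V.Defs
set_option autoImplicit false
open MeasureTheory
namespace Pool.Agent.H54.V

theorem fin_finite (C : Set E3) (hC : ∀ a ∈ C, ∀ b ∈ C, a ≠ b → (2 : ℝ) ≤ dist a b) (R : ℝ) :
    {c : E3 | c ∈ C ∧ c ≠ 0 ∧ ‖c‖ < R}.Finite := by
  obtain ⟨t, -, ht, hcov⟩ := (isCompact_closedBall (0 : E3) R).finite_cover_balls
    (e := 1) one_pos
  have h1 : ∀ c ∈ {c : E3 | c ∈ C ∧ c ≠ 0 ∧ ‖c‖ < R}, ∃ y ∈ t, dist c y < 1 := by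
    intro c hc
    have h2 : c ∈ Metric.closedBall (0 : E3) R := by
      rw [mem_closedBall_zero_iff]
      exact hc.2.2.le
    obtain ⟨y, hy, hcy⟩ := Set.mem_iUnion₂.1 (hcov h2)
    exact ⟨y, hy, hcy⟩
  choose! f hf1 hf2 using h1
  refine Set.Finite.of_injOn (f := f) (t := t) (fun c hc => hf1 c hc) ?_ ht
  intro a ha b hb hab
  by_contra hne
  have h2 := hC a ha.1 b hb.1 hne
  have h3 := hf2 a ha
  have h4 := hf2 b hb
  rw [← hab] at h4
  have h5 := dist_triangle_right a b (f a)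
  linarith

theorem exists_cfg (C : Set E3) (h0 : (0 : E3) ∈ C) (hC : ∀ a ∈ C, ∀ b ∈ C, a ≠ b → (2 : ℝ) ≤ dist a b) :
    ∃ N : ℕ, ∃ c : Cfg N R0, ∀ r : ℝ, r ≤ R0 →
      Poly c.u c.h r ⊆ {x : E3 | ∀ c' ∈ C, ‖x‖ ≤ dist x c'} ∩ Metric.closedBall (0 : E3) r := by
  have hfin := fin_finite C hC (2 * R0)
  set A := hfin.toFinset with hA
  have hmem : ∀ c, c ∈ A ↔ c ∈ C ∧ c ≠ 0 ∧ ‖c‖ < 2 * R0 := by
    intro c
    rw [hA, Set.Finite.mem_toFinset]
    exact Iff.rfl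
  let e := A.equivFin.symm
  let g : Fin A.card → ℝ := fun i => ‖((e i : A) : E3)‖ / 2
  let σ := Tuple.sort g
  let p : Fin A.card → E3 := fun i => ((e (σ i) : A) : E3)
  have hp : ∀ i, p i ∈ A := fun i => (e (σ i)).2
  have hpinj : ∀ i j, i ≠ j → p i ≠ p j := by
    intro i j hij h
    apply hij
    exact σ.injective (e.injective (Subtype.ext h))
  have hpn : ∀ i, 2 ≤ ‖p i‖ := by
    intro i
    obtain ⟨h1, h2, -⟩ := (hmem _).1 (hp i)
    have h3 := hC (p i) h1 0 h0 h2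
    rwa [dist_zero_right] at h3
  have hpos : ∀ i, 0 < ‖p i‖ := fun i => by linarith [hpn i]
  have hin : ∀ i j, inner ℝ ((‖p i‖)⁻¹ • p i) ((‖p j‖)⁻¹ • p j) =
      (‖p i‖)⁻¹ * ((‖p j‖)⁻¹ * inner ℝ (p i) (p j)) := by
    intro i j
    rw [real_inner_smul_left, real_inner_smul_right]
  refine ⟨A.card,
    { u := fun i => (‖p i‖)⁻¹ • p i
      h := fun i => ‖p i‖ / 2
      unit := ?_
      one_le := ?_
      lt := ?_
      mono := ?_
      sep := ?_ }, ?_⟩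
  · intro i
    rw [norm_smul, norm_inv, norm_norm]
    exact inv_mul_cancel₀ (hpos i).ne'
  · intro i
    linarith [hpn i]
  · intro i
    have := ((hmem _).1 (hp i)).2.2
    linarith
  · exact Tuple.monotone_sort g
  · intro i j hij
    rw [hin]
    have h1 : (2 : ℝ) ≤ dist (p i) (p j) :=
      hC _ ((hmem _).1 (hp i)).1 _ ((hmem _).1 (hp j)).1 (hpinj i j hij)
    rw [dist_eq_norm] at h1
    have h2 : (4 : ℝ) ≤ ‖p i - p j‖ ^ 2 := by nlinarith
    rw [norm_sub_sq_real] at h2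
    have hi := hpos i
    have hj := hpos j
    rw [le_div_iff₀ (by positivity)]
    have h3 : (‖p i‖)⁻¹ * ((‖p j‖)⁻¹ * inner ℝ (p i) (p j)) * (2 * (‖p i‖ / 2) * (‖p j‖ / 2)) =
        inner ℝ (p i) (p j) / 2 := by
      field_simp
    rw [h3]
    nlinarith
  · intro r hr x hx
    obtain ⟨hx1, hx2⟩ := hx
    refine ⟨?_, by rw [mem_closedBall_zero_iff]; exact hx1⟩
    intro c' hc'
    by_cases hc0 : c' = 0
    · rw [hc0, dist_zero_right]
    · by_cases hcR : ‖c'‖ < 2 * R0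
      · have hcA : c' ∈ A := (hmem _).2 ⟨hc', hc0, hcR⟩
        obtain ⟨k, hk⟩ := e.surjective ⟨c', hcA⟩
        obtain ⟨i, hi⟩ := σ.surjective k
        have hpi : p i = c' := by
          change ((e (σ i) : A) : E3) = c'
          rw [hi, hk]
        have h1 : inner ℝ ((‖p i‖)⁻¹ • p i) x ≤ ‖p i‖ / 2 := hx2 i
        rw [real_inner_smul_left, hpi] at h1
        have hc : 0 < ‖c'‖ := norm_pos_iff.2 hc0
        rw [inv_mul_le_iff₀ hc] at h1
        have h2 : ‖x - c'‖ ^ 2 = ‖x‖ ^ 2 - 2 * inner ℝ x c' + ‖c'‖ ^ 2 := norm_sub_sq_real x c'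
        rw [real_inner_comm] at h2
        have h3 : ‖x‖ ^ 2 ≤ ‖x - c'‖ ^ 2 := by nlinarith
        rw [dist_eq_norm]
        exact le_of_sq_le_sq h3 (norm_nonneg _)
      · have h1 : ‖c'‖ - ‖x‖ ≤ dist x c' := by
          rw [dist_comm, dist_eq_norm]
          exact norm_sub_norm_le c' x
        have h2 := not_lt.1 hcR
        linarith

theorem fin_sqrt5 : 2.2360679 < Real.sqrt 5 ∧ Real.sqrt 5 < 2.236068 := by
  constructor
  · apply Real.lt_sqrt_of_sq_lt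
    norm_num
  · rw [Real.sqrt_lt' (by norm_num)]
    norm_num

theorem R0_sq : R0 ^ 2 = 15 - 6 * Real.sqrt 5 := by
  have h5 : Real.sqrt 5 ^ 2 = 5 := Real.sq_sqrt (by norm_num)
  have h3 : Real.sqrt 3 ^ 2 = 3 := Real.sq_sqrt (by norm_num)
  obtain ⟨h1, h2⟩ := fin_sqrt5
  rw [R0, mul_pow, h3, Real.tan_eq_sin_div_cos, div_pow, Real.sin_sq, Real.cos_pi_div_five]
  have h4 : ((1 + Real.sqrt 5) / 4) ^ 2 ≠ 0 := by positivity
  field_simp
  nlinarith

theorem R0_pos : 0 < R0 := by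
  apply mul_pos (Real.sqrt_pos.2 (by norm_num))
  apply Real.tan_pos_of_pos_of_lt_pi_div_two
  · positivity
  · have := Real.pi_pos
    linarith

theorem R0_bounds : 1.25840 < R0 ∧ R0 < 1.25841 := by
  have h := R0_sq
  have hp := R0_pos
  obtain ⟨h1, h2⟩ := fin_sqrt5
  constructor
  · by_contra hc
    have hc' := not_lt.1 hc
    have : R0 ^ 2 ≤ 1.25840 ^ 2 := pow_le_pow_left₀ hp.le hc' 2
    rw [h] at this
    norm_num at this h2
    linarith
  · by_contra hc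
    have hc' := not_lt.1 hc
    have : (1.25841 : ℝ) ^ 2 ≤ R0 ^ 2 := pow_le_pow_left₀ (by norm_num) hc' 2
    rw [h] at this
    norm_num at this h1
    linarith

theorem a5_bounds : 0.44721 < a5 ∧ a5 < 0.44722 := by
  obtain ⟨h1, h2⟩ := fin_sqrt5
  have hp : 0 < Real.sqrt 5 := by positivity
  rw [a5]
  constructor
  · rw [lt_div_iff₀ hp]
    norm_num at h2 ⊢
    linarith
  · rw [div_lt_iff₀ hp]
    norm_num at h1 ⊢
    linarith

end Pool.Agent.H54.V
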