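/-
JOB VOR-GAIN.  Raising the heights of the 12 near faces gains volume, a far face loses at most its cap.
Setting: u : Fin 12 → E3 unit, heights h i ∈ [1, 1.0276], ⟪u i,u j⟫ ≤ 0.514 (i ≠ j); far faces z j (unit), heights
g j ∈ [1.156, R0], ⟪u i, z j⟫ ≤ (h i² + g j² - 1)/(2 h i g j); r ≥ 1.17.
Proof.  Let P1 = Poly u 1 r and S_i = {x : 1 < ⟪u i,x⟫ ≤ h i, ‖x - ⟪u i,x⟫ • u i‖ ≤ d}, d = 0.5471, π d² ≥ 0.94.
Claim: S_i ⊆ {‖x‖ ≤ r, ⟪u j,x⟫ ≤ h j ∀ j, ⟪z j,x⟫ ≤ g j ∀ j}, S_i is disjoint from P1 and S_i ∩ S_j = ∅ for i ≠ j.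
 - For x ∈ S_i write x = y u_i + q, q ⟂ u_i, 1 < y ≤ 1.0276, ‖q‖ ≤ d.  ‖x‖² ≤ 1.0276² + 0.2993 < 1.3689 ≤ r².
 - For a unit vector w with t = ⟪u_i,w⟫: ⟪w,x⟫ ≤ y t + d √(1-t²).  For t ≤ 0.514 this is ≤ 1 (the function
   t ↦ y t + d√(1-t²) is increasing for t ≤ y/√(y²+d²), which is > 0.88; at t = 0.514, y = 1.0276 it is
   0.52819 + 0.547·0.85779 = 0.99740).  So ⟪u j,x⟫ ≤ 1 ≤ h j (j ≠ i) and S_i ∩ S_j = ∅.
 - For w = z j: t ≤ (1.0276² + R0² - 1)/(2·1.0276·R0) < 0.6343 (the bound is increasing in h and in g since the heights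
   differ by squares less than 1), so ⟪z j,x⟫ ≤ 1.0276·0.6343 + 0.547·0.7731 = 1.0747 < 1.156 ≤ g j.
Volume of S_i = (h i - 1) π d² ≥ 0.94 (h i - 1) (Fubini as in VOR-CAP).  Finally
Poly(u,h) ∩ {⟪z j,x⟫ ≤ g j ∀ j} ⊇ (P1 \ ⋃_j {‖x‖ ≤ r, g j < ⟪z j,x⟫}) ∪ ⋃_i S_i, disjoint unions; the far caps have volume
capP r (g j) (0 if g j ≥ r) by VOR-CAP.
-/
import Pool.Agent.H54.V.J.Cap
import Pool.Agent.H54.V.J.Fin
set_option autoImplicit false
open MeasureTheory
namespace Pool.Agent.H54.V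

/-- a cylinder over the face of the unit direction `u` -/
def gnCylS (u : E3) (h : ℝ) : Set E3 :=
  {x : E3 | 1 < inner ℝ u x ∧ inner ℝ u x ≤ h ∧ ‖x - (inner ℝ u x : ℝ) • u‖ ≤ 0.5471}

theorem gn_cylS_meas (u : E3) (h : ℝ) : MeasurableSet (gnCylS u h) := by
  have c1 : Continuous (fun x : E3 => (inner ℝ u x : ℝ)) := by fun_prop
  have c2 : Continuous (fun x : E3 => ‖x - (inner ℝ u x : ℝ) • u‖) := by fun_prop
  exact ((isOpen_lt continuous_const c1).measurableSet).inter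
    (((isClosed_le c1 continuous_const).measurableSet).inter
      ((isClosed_le c2 continuous_const).measurableSet))

theorem gn_exists_basis (u : E3) (hu : ‖u‖ = 1) : ∃ b : OrthonormalBasis (Fin 3) ℝ E3, b 0 = u := by
  have h1 : Module.finrank ℝ E3 = Fintype.card (Fin 3) := by simp
  obtain ⟨b, hb⟩ := Orthonormal.exists_orthonormalBasis_extension_of_card_eq (𝕜 := ℝ) h1
    (v := fun _ : Fin 3 => u) (s := {0}) (by
      constructor
      · intro i
        simpa using hu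
      · rintro ⟨i, hi⟩ ⟨j, hj⟩ hij
        exact absurd (by
          rw [Set.mem_singleton_iff] at hi hj
          exact Subtype.ext (hi.trans hj.symm)) hij)
  exact ⟨b, hb 0 (by simp)⟩

/-- the cylinder in coordinates -/
def gnCylT (h : ℝ) : Set (Fin 3 → ℝ) :=
  {y | 1 < y 0 ∧ y 0 ≤ h ∧ y 1 ^ 2 + y 2 ^ 2 ≤ 0.5471 ^ 2}

theorem gn_cylT_meas (h : ℝ) : MeasurableSet (gnCylT h) := by
  have c0 : Continuous (fun y : Fin 3 → ℝ => y 0) := by fun_prop
  have c2 : Continuous (fun y : Fin 3 → ℝ => y 1 ^ 2 + y 2 ^ 2) := by fun_prop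
  exact ((isOpen_lt continuous_const c0).measurableSet).inter
    (((isClosed_le c0 continuous_const).measurableSet).inter
      ((isClosed_le c2 continuous_const).measurableSet))

theorem gn_cylS_eq (u : E3) (h : ℝ) (b : OrthonormalBasis (Fin 3) ℝ E3) (hb : b 0 = u) :
    gnCylS u h = (fun x : E3 => WithLp.ofLp (b.repr x)) ⁻¹' gnCylT h := by
  ext x
  have h0 : (b.repr x).ofLp 0 = inner ℝ u x := by
    rw [OrthonormalBasis.repr_apply_apply, hb]
  have hn : ‖x - (inner ℝ u x : ℝ) • u‖ ^ 2 = (b.repr x).ofLp 1 ^ 2 + (b.repr x).ofLp 2 ^ 2 := by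
    rw [← b.repr.norm_map, EuclideanSpace.norm_sq_eq]
    have e0 : (b.repr u) = EuclideanSpace.single 0 1 := by
      rw [← hb]
      exact b.repr_self 0
    rw [map_sub, map_smul, e0]
    simp only [Fin.sum_univ_three, PiLp.sub_apply, PiLp.smul_apply, h0]
    simp
  simp only [gnCylS, gnCylT, Set.mem_ofPred_eq, Set.mem_preimage, h0, ← hn]
  have h3 : ‖x - (inner ℝ u x : ℝ) • u‖ ≤ 0.5471 ↔
      ‖x - (inner ℝ u x : ℝ) • u‖ ^ 2 ≤ 0.5471 ^ 2 :=
    (pow_le_pow_iff_left₀ (norm_nonneg _) (by norm_num) (by norm_num)).symm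
  rw [h3]

theorem gn_cylT_vol (h : ℝ) : volume (gnCylT h) =
    ENNReal.ofReal (h - 1) * (ENNReal.ofReal 0.5471 ^ 2 * ENNReal.ofReal Real.pi) := by
  have e1 := volume_preserving_piFinSuccAbove (fun _ : Fin 3 => ℝ) 0
  set D : Set (Fin 2 → ℝ) := {w | w 0 ^ 2 + w 1 ^ 2 ≤ 0.5471 ^ 2} with hD
  have hDm : MeasurableSet D := by
    have c2 : Continuous (fun y : Fin 2 → ℝ => y 0 ^ 2 + y 1 ^ 2) := by fun_prop
    exact (isClosed_le c2 continuous_const).measurableSet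
  have e2 : gnCylT h = (MeasurableEquiv.piFinSuccAbove (fun _ : Fin 3 => ℝ) 0) ⁻¹'
      ((Set.Ioc 1 h) ×ˢ D) := by
    ext y
    simp only [gnCylT, Set.mem_ofPred_eq, Set.mem_preimage, Set.mem_prod, Set.mem_Ioc, hD]
    constructor
    · rintro ⟨a, b, c⟩
      exact ⟨⟨a, b⟩, c⟩
    · rintro ⟨⟨a, b⟩, c⟩
      exact ⟨a, b, c⟩
  rw [e2, e1.measure_preimage ((measurableSet_Ioc.prod hDm).nullMeasurableSet),
    MeasureTheory.Measure.volume_eq_prod, Measure.prod_prod, Real.volume_Ioc]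
  congr 1
  have e3 : WithLp.ofLp ⁻¹' D = Metric.closedBall (0 : EuclideanSpace ℝ (Fin 2)) 0.5471 := by
    ext w
    simp only [hD, Set.mem_preimage, Set.mem_ofPred_eq, Metric.mem_closedBall, dist_zero_right]
    rw [← pow_le_pow_iff_left₀ (norm_nonneg _) (by norm_num : (0:ℝ) ≤ 0.5471) (two_ne_zero),
      EuclideanSpace.norm_sq_eq, Fin.sum_univ_two]
    simp
  rw [← (PiLp.volume_preserving_ofLp (Fin 2)).measure_preimage hDm.nullMeasurableSet, e3,
    EuclideanSpace.volume_closedBall_fin_two]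

theorem gn_cylS_vol (u : E3) (hu : ‖u‖ = 1) (h : ℝ) : volume (gnCylS u h) =
    ENNReal.ofReal (h - 1) * (ENNReal.ofReal 0.5471 ^ 2 * ENNReal.ofReal Real.pi) := by
  obtain ⟨b, hb⟩ := gn_exists_basis u hu
  rw [gn_cylS_eq u h b hb, ← gn_cylT_vol h]
  exact ((PiLp.volume_preserving_ofLp (Fin 3)).comp b.repr.measurePreserving).measure_preimage
    (gn_cylT_meas h).nullMeasurableSet

theorem gn_cylS_ge (u : E3) (hu : ‖u‖ = 1) (h : ℝ) (hh : 1 ≤ h) :
    0.94 * (h - 1) ≤ (volume (gnCylS u h)).toReal := by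
  rw [gn_cylS_vol u hu h, ENNReal.toReal_mul, ENNReal.toReal_mul, ENNReal.toReal_pow,
    ENNReal.toReal_ofReal (by linarith), ENNReal.toReal_ofReal (by norm_num),
    ENNReal.toReal_ofReal Real.pi_pos.le]
  have h1 := Real.pi_gt_d4
  have h2 : (0.94 : ℝ) ≤ 0.5471 ^ 2 * Real.pi := by nlinarith
  have h3 : 0 ≤ h - 1 := by linarith
  nlinarith


/-- decomposition of the inner product of a point of the cylinder with a unit vector -/
theorem gn_cyl_inner {u w x : E3} (hu : ‖u‖ = 1) (hw : ‖w‖ = 1) {h : ℝ} (hx : x ∈ gnCylS u h) :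
    (inner ℝ w x - inner ℝ u x * inner ℝ u w) ^ 2 ≤ 0.5471 ^ 2 * (1 - (inner ℝ u w : ℝ) ^ 2) := by
  obtain ⟨-, -, h3⟩ := hx
  set y : ℝ := inner ℝ u x with hy
  set t : ℝ := inner ℝ u w with ht
  have e1 : (inner ℝ w x - y * t : ℝ) = inner ℝ (w - t • u) (x - y • u) := by
    rw [inner_sub_left, inner_sub_right, inner_sub_right, inner_smul_left, inner_smul_right,
      inner_smul_left, inner_smul_right, real_inner_self_eq_norm_sq, hu, real_inner_comm u w,
      ← ht, ← hy]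
    simp only [conj_trivial]
    ring
  have e2 : ‖w - t • u‖ ^ 2 = 1 - t ^ 2 := by
    rw [norm_sub_sq_real, norm_smul, hw, hu, inner_smul_right, real_inner_comm u w, ← ht]
    simp only [Real.norm_eq_abs, mul_one, sq_abs]
    ring
  have e3 := abs_real_inner_le_norm (w - t • u) (x - y • u)
  rw [e1, ← sq_abs]
  calc |(inner ℝ (w - t • u) (x - y • u) : ℝ)| ^ 2 ≤ (‖w - t • u‖ * ‖x - y • u‖) ^ 2 :=
        pow_le_pow_left₀ (abs_nonneg _) e3 2
    _ = (1 - t ^ 2) * ‖x - y • u‖ ^ 2 := by rw [mul_pow, e2]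
    _ ≤ (1 - t ^ 2) * 0.5471 ^ 2 := by
        refine mul_le_mul_of_nonneg_left (pow_le_pow_left₀ (norm_nonneg _) h3 2) ?_
        rw [← e2]
        positivity
    _ = _ := mul_comm _ _

/-- inner products with the normals of the other near faces are at most 1 -/
theorem gn_cyl_near {u w x : E3} (hu : ‖u‖ = 1) (hw : ‖w‖ = 1) {h : ℝ} (hh : h ≤ 1.0276)
    (hx : x ∈ gnCylS u h) (huw : inner ℝ u w ≤ (0.514 : ℝ)) : inner ℝ w x ≤ (1 : ℝ) := by
  have h1 := gn_cyl_inner hu hw hx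
  obtain ⟨h2, h3, -⟩ := hx
  set y : ℝ := inner ℝ u x
  set t : ℝ := inner ℝ u w
  have h4 : y * t ≤ 1.0276 * max t 0 := by
    rcases le_total t 0 with h | h
    · rw [max_eq_right h]
      nlinarith
    · rw [max_eq_left h]
      nlinarith
  have h5 : max t 0 ≤ 0.514 := max_le huw (by norm_num)
  have h6 : 0 ≤ max t 0 := le_max_right _ _
  have h7 : (max t 0) ^ 2 ≤ t ^ 2 := by
    rcases le_total t 0 with h | h
    · rw [max_eq_right h]
      have := sq_nonneg t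
      linarith
    · rw [max_eq_left h]
  set s : ℝ := max t 0
  have h8 : 0 ≤ 1 - 1.0276 * s := by nlinarith
  have h9 : 0.5471 ^ 2 * (1 - s ^ 2) ≤ (1 - 1.0276 * s) ^ 2 := by nlinarith
  have h10 : (inner ℝ w x - y * t) ^ 2 ≤ (1 - 1.0276 * s) ^ 2 := by nlinarith
  have h11 := abs_le_of_sq_le_sq h10 h8
  have h12 := le_abs_self (inner ℝ w x - y * t)
  linarith

/-- inner products with the normals of the far faces -/
theorem gn_cyl_far {u w x : E3} (hu : ‖u‖ = 1) (hw : ‖w‖ = 1) {h : ℝ} (hh : h ≤ 1.0276)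
    (hx : x ∈ gnCylS u h) (huw : inner ℝ u w ≤ (0.6343 : ℝ)) : inner ℝ w x ≤ (1.156 : ℝ) := by
  have h1 := gn_cyl_inner hu hw hx
  obtain ⟨h2, h3, -⟩ := hx
  set y : ℝ := inner ℝ u x
  set t : ℝ := inner ℝ u w
  have h4 : y * t ≤ 1.0276 * max t 0 := by
    rcases le_total t 0 with h | h
    · rw [max_eq_right h]
      nlinarith
    · rw [max_eq_left h]
      nlinarith
  have h5 : max t 0 ≤ 0.6343 := max_le huw (by norm_num)
  have h6 : 0 ≤ max t 0 := le_max_right _ _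
  have h7 : (max t 0) ^ 2 ≤ t ^ 2 := by
    rcases le_total t 0 with h | h
    · rw [max_eq_right h]
      have := sq_nonneg t
      linarith
    · rw [max_eq_left h]
  set s : ℝ := max t 0
  have h8 : 0 ≤ 1.156 - 1.0276 * s := by nlinarith
  have h9 : 0.5471 ^ 2 * (1 - s ^ 2) ≤ (1.156 - 1.0276 * s) ^ 2 := by nlinarith
  have h10 : (inner ℝ w x - y * t) ^ 2 ≤ (1.156 - 1.0276 * s) ^ 2 := by nlinarith
  have h11 := abs_le_of_sq_le_sq h10 h8
  have h12 := le_abs_self (inner ℝ w x - y * t)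
  linarith

theorem gn_cyl_norm {u x : E3} (hu : ‖u‖ = 1) {h r : ℝ} (hh : h ≤ 1.0276) (hx : x ∈ gnCylS u h)
    (hr : 1.17 ≤ r) : ‖x‖ ≤ r := by
  obtain ⟨h2, h3, h4⟩ := hx
  set y : ℝ := inner ℝ u x with hy
  have e : ‖x - y • u‖ ^ 2 = ‖x‖ ^ 2 - y ^ 2 := by
    rw [norm_sub_sq_real, norm_smul, hu, inner_smul_right, real_inner_comm u x, ← hy]
    simp only [Real.norm_eq_abs, mul_one, sq_abs]
    ring
  have h5 := pow_le_pow_left₀ (norm_nonneg _) h4 2
  rw [e] at h5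
  have h6 : ‖x‖ ^ 2 ≤ 1.17 ^ 2 := by nlinarith
  exact (pow_le_pow_iff_left₀ (norm_nonneg _) (by norm_num) two_ne_zero).1 h6 |>.trans hr

/-- the bound for the cosines between near and far directions -/
theorem gn_far_cos {h g : ℝ} (h1 : 1 ≤ h) (h2 : h ≤ 1.0276) (g1 : 1.156 ≤ g) (g2 : g ≤ R0) :
    (h ^ 2 + g ^ 2 - 1) / (2 * h * g) ≤ 0.6343 := by
  have h3 : g ≤ 1.25841 := g2.trans R0_bounds.2.le
  rw [div_le_iff₀ (by positivity)]
  have a1 := mul_nonneg (sub_nonneg.2 h1) (sub_nonneg.2 h2)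
  have a2 := mul_nonneg (sub_nonneg.2 g1) (sub_nonneg.2 h3)
  have b1 := mul_nonneg (sub_nonneg.2 h1) (sub_nonneg.2 g1)
  have b2 := mul_nonneg (sub_nonneg.2 h1) (sub_nonneg.2 h3)
  have b3 := mul_nonneg (sub_nonneg.2 h2) (sub_nonneg.2 g1)
  have b4 := mul_nonneg (sub_nonneg.2 h2) (sub_nonneg.2 h3)
  nlinarith

/-- the cap over a face -/
def gnCapS (u : E3) (r g : ℝ) : Set E3 := {x : E3 | ‖x‖ ≤ r ∧ g < inner ℝ u x}

theorem gn_capS_vol (u : E3) (hu : ‖u‖ = 1) (r g : ℝ) (g0 : 0 ≤ g) :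
    volume (gnCapS u r g) = ENNReal.ofReal (capP r g) := by
  unfold capP
  split_ifs with h
  · exact cap_volume r g g0 h.le u hu
  · have : gnCapS u r g = ∅ := by
      ext x
      simp only [gnCapS, Set.mem_ofPred_eq, Set.mem_empty_iff_false, iff_false, not_and, not_lt]
      intro hx
      have h1 := real_inner_le_norm u x
      rw [hu, one_mul] at h1
      linarith
    rw [this]
    simp

theorem gn_capP_nonneg (r g : ℝ) (g0 : 0 ≤ g) : 0 ≤ capP r g := by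
  unfold capP capV
  split_ifs with h
  · have := Real.pi_pos
    have h1 : 0 ≤ 2 * r + g := by linarith
    positivity
  · exact le_rfl

theorem gn_poly_meas {ι : Type*} [Fintype ι] (u : ι → E3) (h : ι → ℝ) (r : ℝ) :
    MeasurableSet (Poly u h r) := by
  have e : Poly u h r = {x | ‖x‖ ≤ r} ∩ ⋂ i, {x | inner ℝ (u i) x ≤ h i} := by
    ext x
    simp [Poly]
  rw [e]
  refine ((isClosed_le (by fun_prop) continuous_const).measurableSet).inter ?_
  exact MeasurableSet.iInter (fun i => (isClosed_le (by fun_prop) continuous_const).measurableSet)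

theorem gn_poly_ne_top {ι : Type*} (u : ι → E3) (h : ι → ℝ) (r : ℝ) : volume (Poly u h r) ≠ ⊤ := by
  have h0 : volume (Metric.closedBall (0 : E3) r) ≠ ⊤ := measure_closedBall_lt_top.ne
  refine ne_top_of_le_ne_top h0 (measure_mono ?_)
  rintro x ⟨hx, -⟩
  simpa using hx

theorem union_bound {ι : Type*} [Fintype ι] (u : ι → E3) (h : ι → ℝ) (r : ℝ) (hr : 0 < r)
    (hu : ∀ i, ‖u i‖ = 1) (h1 : ∀ i, 0 ≤ h i) :
    4 / 3 * Real.pi * r ^ 3 - ∑ i, capP r (h i) ≤ VP u h r := by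
  have hsub : Metric.closedBall (0 : E3) r ⊆ Poly u h r ∪ ⋃ i, gnCapS (u i) r (h i) := by
    intro x hx
    have hx' : ‖x‖ ≤ r := by simpa using hx
    by_cases hall : ∀ i, inner ℝ (u i) x ≤ h i
    · exact Or.inl ⟨hx', hall⟩
    · push Not at hall
      obtain ⟨i, hi⟩ := hall
      exact Or.inr (Set.mem_iUnion.2 ⟨i, hx', hi⟩)
  have h2 : volume (Metric.closedBall (0 : E3) r) ≤
      volume (Poly u h r) + ∑ i, ENNReal.ofReal (capP r (h i)) := by
    refine (measure_mono hsub).trans ((measure_union_le _ _).trans ?_)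
    gcongr
    refine (measure_iUnion_fintype_le _ _).trans (le_of_eq ?_)
    exact Finset.sum_congr rfl (fun i _ => gn_capS_vol (u i) (hu i) r (h i) (h1 i))
  rw [← ENNReal.ofReal_sum_of_nonneg (fun i _ => gn_capP_nonneg r (h i) (h1 i)),
    EuclideanSpace.volume_closedBall_fin_three] at h2
  have h3 := ENNReal.toReal_mono (ENNReal.add_ne_top.2 ⟨gn_poly_ne_top u h r,
    ENNReal.ofReal_ne_top⟩) h2
  rw [ENNReal.toReal_add (gn_poly_ne_top u h r) ENNReal.ofReal_ne_top, ENNReal.toReal_mul,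
    ENNReal.toReal_pow, ENNReal.toReal_ofReal hr.le, ENNReal.toReal_ofReal (by positivity),
    ENNReal.toReal_ofReal (Finset.sum_nonneg (fun i _ => gn_capP_nonneg r (h i) (h1 i)))] at h3
  unfold VP
  linarith

theorem gain {m : ℕ} (u : Fin 12 → E3) (h : Fin 12 → ℝ) (z : Fin m → E3) (g : Fin m → ℝ) (r : ℝ)
    (hu : ∀ i, ‖u i‖ = 1) (hz : ∀ a, ‖z a‖ = 1) (h1 : ∀ i, 1 ≤ h i) (h2 : ∀ i, h i ≤ 1.0276)
    (huu : ∀ i j, i ≠ j → inner ℝ (u i) (u j) ≤ (0.514 : ℝ)) (g1 : ∀ a, 1.156 ≤ g a) (g2 : ∀ a, g a ≤ R0)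
    (huz : ∀ i a, inner ℝ (u i) (z a) ≤ (h i ^ 2 + g a ^ 2 - 1) / (2 * h i * g a)) (hr : 1.17 ≤ r) :
    VP u (fun _ => 1) r + 0.94 * ∑ i, (h i - 1) - ∑ a, capP r (g a) ≤
      VP (Sum.elim u z) (Sum.elim h g) r := by
  have g0 : ∀ a, 0 ≤ g a := fun a => by linarith [g1 a]
  -- disjointness
  have hdisj : Pairwise (Function.onFun Disjoint (fun i => gnCylS (u i) (h i))) := by
    intro i j hij
    rw [Function.onFun, Set.disjoint_left]
    intro x hx hx'
    have h3 := gn_cyl_near (hu i) (hu j) (h2 i) hx (huu i j hij)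
    have h4 := hx'.1
    linarith
  have hdisj2 : Disjoint (Poly u (fun _ => (1:ℝ)) r) (⋃ i, gnCylS (u i) (h i)) := by
    rw [Set.disjoint_left]
    intro x hx hx'
    obtain ⟨i, hi⟩ := Set.mem_iUnion.1 hx'
    have h3 := hx.2 i
    have h4 := hi.1
    simp only at h3
    linarith
  have hsub : Poly u (fun _ => (1:ℝ)) r ∪ ⋃ i, gnCylS (u i) (h i) ⊆
      Poly (Sum.elim u z) (Sum.elim h g) r ∪ ⋃ a, gnCapS (z a) r (g a) := by
    rintro x (hx | hx)
    · by_cases hall : ∀ a, inner ℝ (z a) x ≤ g a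
      · refine Or.inl ⟨hx.1, ?_⟩
        rintro (i | a)
        · exact (hx.2 i).trans (h1 i)
        · exact hall a
      · push Not at hall
        obtain ⟨a, ha⟩ := hall
        exact Or.inr (Set.mem_iUnion.2 ⟨a, hx.1, ha⟩)
    · obtain ⟨i, hi⟩ := Set.mem_iUnion.1 hx
      refine Or.inl ⟨gn_cyl_norm (hu i) (h2 i) hi hr, ?_⟩
      rintro (j | a)
      · by_cases hij : i = j
        · subst hij
          exact hi.2.1
        · exact (gn_cyl_near (hu i) (hu j) (h2 i) hi (huu i j hij)).trans (h1 j)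
      · exact (gn_cyl_far (hu i) (hz a) (h2 i) hi
          ((huz i a).trans (gn_far_cos (h1 i) (h2 i) (g1 a) (g2 a)))).trans (g1 a)
  have hS_top : ∀ i, volume (gnCylS (u i) (h i)) ≠ ⊤ := by
    intro i
    rw [gn_cylS_vol (u i) (hu i)]
    exact ENNReal.mul_ne_top ENNReal.ofReal_ne_top (ENNReal.mul_ne_top
      (ENNReal.pow_ne_top ENNReal.ofReal_ne_top) ENNReal.ofReal_ne_top)
  have h3 : volume (Poly u (fun _ => (1:ℝ)) r) + ∑ i, volume (gnCylS (u i) (h i)) ≤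
      volume (Poly (Sum.elim u z) (Sum.elim h g) r) + ∑ a, ENNReal.ofReal (capP r (g a)) := by
    have e1 : volume (Poly u (fun _ => (1:ℝ)) r ∪ ⋃ i, gnCylS (u i) (h i)) =
        volume (Poly u (fun _ => (1:ℝ)) r) + ∑ i, volume (gnCylS (u i) (h i)) := by
      rw [measure_union hdisj2 (MeasurableSet.iUnion (fun i => gn_cylS_meas _ _)),
        measure_iUnion hdisj (fun i => gn_cylS_meas _ _), tsum_fintype]
    rw [← e1]
    refine (measure_mono hsub).trans ((measure_union_le _ _).trans ?_)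
    gcongr
    refine (measure_iUnion_fintype_le _ _).trans (le_of_eq ?_)
    exact Finset.sum_congr rfl (fun a _ => gn_capS_vol (z a) (hz a) r (g a) (g0 a))
  rw [← ENNReal.ofReal_sum_of_nonneg (fun a _ => gn_capP_nonneg r (g a) (g0 a))] at h3
  have h4 := ENNReal.toReal_mono (ENNReal.add_ne_top.2 ⟨gn_poly_ne_top _ _ r,
    ENNReal.ofReal_ne_top⟩) h3
  rw [ENNReal.toReal_add (gn_poly_ne_top _ _ r) ENNReal.ofReal_ne_top,
    ENNReal.toReal_add (gn_poly_ne_top _ _ r) (ENNReal.sum_ne_top.2 (fun i _ => hS_top i)),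
    ENNReal.toReal_sum (fun i _ => hS_top i),
    ENNReal.toReal_ofReal (Finset.sum_nonneg (fun a _ => gn_capP_nonneg r (g a) (g0 a)))] at h4
  have h5 : 0.94 * ∑ i, (h i - 1) ≤ ∑ i, (volume (gnCylS (u i) (h i))).toReal := by
    rw [Finset.mul_sum]
    exact Finset.sum_le_sum (fun i _ => gn_cylS_ge (u i) (hu i) (h i) (h1 i))
  unfold VP
  linarith

end Pool.Agent.H54.V
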