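/-
JOB VOR-NUM1.  Numerical bounds for the lens volumes at t = a5 = 1/√5.
lens r a5 = ∫_{2/r²-1}^{a5} (2/3)(r² - 2/(1+s))^{3/2}/√(1-s²) ds.
(a) r = R0: lens R0 a5 = 0.00512890..., (4/3)πR0³ - 12 capV R0 1 = 5.39642..., V12 R0 = 5.5502910 (so the slack is 1.09e-4,
i.e. lens R0 a5 ≤ 0.0051325 is enough).  Upper bound of the integral: split [0.26295, 0.4472136] (2/R0²-1 = 0.262952) into
pieces and bound the integrand above by polynomials / chords (it is convex for most of the range) or by a Riemann sum.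
A convenient way: prove p(s) ≥ lam r s from p ≥ 0 and (4/9)(r²(1+s)-2)³ ≤ p(s)² (1+s)³ (1-s²) (polynomial inequality).
(b) lens 1.2 a5 = 0.00024530..; lens is monotone in r.
-/
import Pool.Agent.H54.V.J.Fin
import Pool.Agent.H54.V.J.LensLow
set_option autoImplicit false
open MeasureTheory
namespace Pool.Agent.H54.V
namespace Num1

lemma lam_zero {r s : ℝ} (hs : -1 < s) (h : (1 + s) * r ^ 2 ≤ 2) : lam r s = 0 := by
  have h1 : 0 < 1 + s := by linarith
  have h2 : r ^ 2 - 2 / (1 + s) ≤ 0 := by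
    rw [sub_nonpos, le_div_iff₀ h1]; linarith
  unfold lam
  rw [max_eq_right h2, Real.zero_rpow (by norm_num), mul_zero, zero_div]

lemma lam_cont (r : ℝ) : ContinuousOn (lam r) (Set.Ioo (-1) 1) := by
  unfold lam
  apply ContinuousOn.div
  · apply ContinuousOn.mul continuousOn_const
    apply ContinuousOn.rpow_const
    · refine ContinuousOn.sup ?_ continuousOn_const
      refine continuousOn_const.sub (continuousOn_const.div (continuousOn_const.add continuousOn_id) ?_)
      intro x hx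
      have := hx.1
      have h2 : (1 : ℝ) + x ≠ 0 := by linarith
      exact h2
    · intro x hx; right; norm_num
  · exact (Real.continuous_sqrt.comp (by fun_prop)).continuousOn
  · intro x hx
    exact (Real.sqrt_pos.mpr (by nlinarith [hx.1, hx.2])).ne'

lemma lam_int (r : ℝ) {t : ℝ} (ht : -1 ≤ t) (ht' : t < 1) :
    IntervalIntegrable (lam r) volume (-1) t := by
  rcases ht.eq_or_lt with h | h
  · subst h; exact IntervalIntegrable.refl
  · set c := min t (-1 + 2 / (r ^ 2 + 1)) with hcdef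
    have hc : -1 < c := lt_min h (by have : 0 < 2 / (r ^ 2 + 1) := by positivity
                                     linarith)
    have hct : c ≤ t := min_le_left _ _
    have h1 : IntervalIntegrable (lam r) volume (-1) c := by
      have h0 : IntervalIntegrable (fun _ : ℝ => (0 : ℝ)) volume (-1) c := intervalIntegrable_const
      refine h0.congr ?_
      rw [Set.uIoc_of_le hc.le]
      intro s hs
      refine (lam_zero hs.1 ?_).symm
      have h3 : s ≤ -1 + 2 / (r ^ 2 + 1) := hs.2.trans (min_le_right _ _)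
      have h4 : 0 < r ^ 2 + 1 := by positivity
      have h5 : (1 + s) * (r ^ 2 + 1) ≤ 2 := by
        have : 1 + s ≤ 2 / (r ^ 2 + 1) := by linarith
        rwa [le_div_iff₀ h4] at this
      nlinarith [hs.1]
    have h2 : IntervalIntegrable (lam r) volume c t := by
      apply ContinuousOn.intervalIntegrable
      rw [Set.uIcc_of_le hct]
      exact (lam_cont r).mono (fun x hx => ⟨hc.trans_le hx.1, hx.2.trans_lt ht'⟩)
    exact h1.trans h2

lemma lam_mono_r {r s x : ℝ} (hr : 0 ≤ r) (hrs : r ≤ s) : lam r x ≤ lam s x := by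
  unfold lam
  have h1 : r ^ 2 ≤ s ^ 2 := pow_le_pow_left₀ hr hrs 2
  gcongr

lemma lam_mono_t {r x y : ℝ} (hx : 0 ≤ x) (hxy : x ≤ y) (hy : y < 1) : lam r x ≤ lam r y := by
  unfold lam
  have h0 : 0 < 1 - y ^ 2 := by nlinarith
  have h1 : 1 - y ^ 2 ≤ 1 - x ^ 2 := by nlinarith
  gcongr

lemma lam_of_pos {r s : ℝ} (hr : 0 ≤ r) (hs : -1 < s) (hs1 : s < 1) (h : 2 ≤ (1 + s) * r ^ 2) :
    lam r s = (2 / 3) * ((r ^ 2 - 2 / (1 + s)) * Real.sqrt (r ^ 2 - 2 / (1 + s))) /
      Real.sqrt (1 - s ^ 2) := by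
  have h1 : 0 < 1 + s := by linarith
  have h2 : 0 ≤ r ^ 2 - 2 / (1 + s) := by
    rw [sub_nonneg, div_le_iff₀ h1]; linarith
  unfold lam
  rw [max_eq_left h2]
  congr 2
  rw [show (3 / 2 : ℝ) = 1 + 1 / 2 by norm_num, Real.rpow_add_of_nonneg h2 (by norm_num) (by norm_num),
    Real.rpow_one, Real.sqrt_eq_rpow]

/-- upper bound of `lam` at a point from squared data. -/
lemma lam_le {r s c : ℝ} (hr : 0 ≤ r) (hs : -1 < s) (hs1 : s < 1) (hc : 0 ≤ c)
    (h : 2 ≤ (1 + s) * r ^ 2)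
    (hb : (4 / 9) * (r ^ 2 - 2 / (1 + s)) ^ 3 ≤ c ^ 2 * (1 - s ^ 2)) : lam r s ≤ c := by
  have h1 : 0 < 1 + s := by linarith
  have h2 : 0 ≤ r ^ 2 - 2 / (1 + s) := by
    rw [sub_nonneg, div_le_iff₀ h1]; linarith
  have h3 : 0 < 1 - s ^ 2 := by nlinarith
  rw [lam_of_pos hr hs hs1 h, div_le_iff₀ (Real.sqrt_pos.mpr h3)]
  refine le_of_sq_le_sq ?_ (by positivity)
  rw [mul_pow, mul_pow, mul_pow, Real.sq_sqrt h2, Real.sq_sqrt h3.le]
  nlinarith [hb]

lemma sqrt5 : 2.236067977 < Real.sqrt 5 ∧ Real.sqrt 5 < 2.236067978 := by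
  constructor
  · rw [Real.lt_sqrt (by norm_num)]; norm_num
  · rw [Real.sqrt_lt' (by norm_num)]; norm_num

lemma sq5 : Real.sqrt 5 * Real.sqrt 5 = 5 := Real.mul_self_sqrt (by norm_num)

lemma a5_eq : a5 = Real.sqrt 5 / 5 := by
  unfold a5
  have h : Real.sqrt 5 ≠ 0 := by have := sqrt5.1; positivity
  field_simp
  rw [sq, sq5]

lemma poly_pos {x : ℝ} (hx : 0 ≤ x) (hx' : x ≤ 1843 / 10000) :
    1 ≤ (73031 / 100000 - 6524 / 10000 * x + 9502 / 10000 * x ^ 2) ^ 2 * (1262951 / 1000000 + x) ^ 4 * (737048 / 1000000 - x) := by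
  have key : (73031 / 100000 - 6524 / 10000 * x + 9502 / 10000 * x ^ 2) ^ 2 * (1262951 / 1000000 + x) ^ 4 * (737048 / 1000000 - x) - 1
      = (161972357533018987687075778216812691 / 306646512621666953877426941303750) * (x ^ 0 * (1843 / 10000 - x) ^ 9)
        + (1734375278527515839314565447960445290749 / 76661628155416738469356735325937500) * (x ^ 1 * (1843 / 10000 - x) ^ 8)
        + (84910574437439600806321446032794986622219899 / 766616281554167384693567353259375000000) * (x ^ 2 * (1843 / 10000 - x) ^ 7)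
        + (21929335772899621918702670211457840311852716149 / 95827035194270923086695919157421875000000) * (x ^ 3 * (1843 / 10000 - x) ^ 6)
        + (1858691073519025825022694139488085628317391003830131 / 7666162815541673846935673532593750000000000000) * (x ^ 4 * (1843 / 10000 - x) ^ 5)
        + (419399554104746809657169472670209038451611691314327 / 3066465126216669538774269413037500000000000000) * (x ^ 5 * (1843 / 10000 - x) ^ 4)
        + (4337902432513970445109763734111527904624635504837 / 95827035194270923086695919157421875000000000) * (x ^ 6 * (1843 / 10000 - x) ^ 3)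
        + (28432533134421164573100137653578168911738677739457 / 1533232563108334769387134706518750000000000000) * (x ^ 7 * (1843 / 10000 - x) ^ 2)
        + (15411169842852817197890013997664806009106504349261 / 1533232563108334769387134706518750000000000000) * (x ^ 8 * (1843 / 10000 - x) ^ 1)
        + (34962616806090604322235086195640688665899394120587 / 15332325631083347693871347065187500000000000000) * (x ^ 9 * (1843 / 10000 - x) ^ 0) := by ring
  have h1 : 0 ≤ 1843 / 10000 - x := by linarith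
  rw [← sub_nonneg, key]
  positivity

end Num1

open Num1

theorem lens_mono_r (t : ℝ) (ht : -1 ≤ t) (ht' : t < 1) {r s : ℝ} (hr : 0 ≤ r) (hrs : r ≤ s) :
    lens r t ≤ lens s t := by
  unfold lens
  exact intervalIntegral.integral_mono_on ht (lam_int r ht ht') (lam_int s ht ht')
    (fun x _ => lam_mono_r hr hrs)

theorem lens_small (r : ℝ) (hr : 1 < r) (hr' : r ≤ 1.1755) : lens r a5 = 0 := by
  refine lens_eq_zero r a5 (by linarith) (by have := a5_bounds.1; linarith) ?_
  have h1 := a5_bounds.2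
  have h2 := a5_bounds.1
  have h3 : r ^ 2 ≤ 1.1755 ^ 2 := pow_le_pow_left₀ (by linarith) hr' 2
  nlinarith [sq_nonneg r]

theorem lens_12 : 30 * lens 1.2 a5 ≤ 0.0155 := by
  have ha1 := a5_bounds.1
  have ha2 := a5_bounds.2
  have e0 : lens 1.2 (7 / 18) = 0 := lens_eq_zero 1.2 (7 / 18) (by norm_num) (by norm_num) (by norm_num)
  have i0 := lam_int 1.2 (t := 7 / 18) (by norm_num) (by norm_num)
  have i1 := lam_int 1.2 (t := 0.42) (by norm_num) (by norm_num)
  have i2 := lam_int 1.2 (t := a5) (by linarith) (by linarith)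
  have j1 : IntervalIntegrable (lam 1.2) volume (7 / 18) 0.42 := i0.symm.trans i1
  have j2 : IntervalIntegrable (lam 1.2) volume 0.42 a5 := i1.symm.trans i2
  have e1 : lens 1.2 a5 = (∫ s in (7 / 18 : ℝ)..0.42, lam 1.2 s) + ∫ s in (0.42 : ℝ)..a5, lam 1.2 s := by
    rw [intervalIntegral.integral_add_adjacent_intervals j1 j2]
    have := intervalIntegral.integral_add_adjacent_intervals i0 (j1.trans j2)
    unfold lens at e0 ⊢
    rw [← this, e0, zero_add]
  have b1 : (∫ s in (7 / 18 : ℝ)..0.42, lam 1.2 s) ≤ ∫ s in (7 / 18 : ℝ)..0.42, (0.00413 : ℝ) := by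
    refine intervalIntegral.integral_mono_on (by norm_num) j1 intervalIntegrable_const (fun x hx => ?_)
    refine (lam_mono_t (y := 0.42) (by linarith [hx.1]) hx.2 (by norm_num)).trans ?_
    exact lam_le (by norm_num) (by norm_num) (by norm_num) (by norm_num) (by norm_num) (by norm_num)
  have b2 : (∫ s in (0.42 : ℝ)..a5, lam 1.2 s) ≤ ∫ s in (0.42 : ℝ)..a5, (0.01044 : ℝ) := by
    refine intervalIntegral.integral_mono_on (by linarith) j2 intervalIntegrable_const (fun x hx => ?_)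
    refine (lam_mono_t (y := 0.44722) (by linarith [hx.1]) (by linarith [hx.2]) (by norm_num)).trans ?_
    exact lam_le (by norm_num) (by norm_num) (by norm_num) (by norm_num) (by norm_num) (by norm_num)
  rw [intervalIntegral.integral_const, smul_eq_mul] at b1 b2
  rw [e1]
  nlinarith

namespace Num1

/-- the left end point of the support for `r = R0`. -/
noncomputable def t0 : ℝ := -1 / 3 + 4 * Real.sqrt 5 / 15

lemma t0_bounds : 0.262951 < t0 ∧ t0 < 0.262952 := by
  have h1 := sqrt5.1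
  have h2 := sqrt5.2
  unfold t0
  constructor <;> linarith

lemma t0_R0 : (1 + t0) * R0 ^ 2 = 2 := by
  rw [R0_sq]
  unfold t0
  nlinarith [sq5]

lemma R0_fine : 1.258408 < R0 ∧ R0 < 1.258409 := by
  have h := R0_sq
  have h0 := R0_bounds.1
  have h1 := sqrt5.1
  have h2 := sqrt5.2
  constructor
  · by_contra hc
    push Not at hc
    have : R0 ^ 2 ≤ 1.258408 ^ 2 := pow_le_pow_left₀ (by linarith) hc 2
    rw [h] at this
    linarith
  · by_contra hc
    push Not at hc
    have : (1.258409 : ℝ) ^ 2 ≤ R0 ^ 2 := pow_le_pow_left₀ (by norm_num) hc 2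
    rw [h] at this
    linarith

lemma L_bounds : 0.184262 < a5 - t0 ∧ a5 - t0 < 0.184263 := by
  have h1 := sqrt5.1
  have h2 := sqrt5.2
  rw [a5_eq]
  unfold t0
  constructor <;> linarith

lemma rp (x : ℝ) (hx : 0 ≤ x) : x ^ (5 / 2 : ℝ) = x ^ (3 / 2 : ℝ) * x ∧
    x ^ (7 / 2 : ℝ) = x ^ (3 / 2 : ℝ) * x ^ 2 ∧ (x ^ (3 / 2 : ℝ)) ^ 2 = x ^ 3 := by
  refine ⟨?_, ?_, ?_⟩
  · rw [show (5 / 2 : ℝ) = 3 / 2 + 1 by norm_num, Real.rpow_add_of_nonneg hx (by norm_num) (by norm_num),
      Real.rpow_one]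
  · rw [show (7 / 2 : ℝ) = 3 / 2 + (2 : ℕ) by norm_num,
      Real.rpow_add_of_nonneg hx (by norm_num) (by norm_num), Real.rpow_natCast]
  · rw [← Real.rpow_natCast, ← Real.rpow_mul hx, ← Real.rpow_natCast]
    norm_num

/-- the majorant. -/
noncomputable def maj (x : ℝ) : ℝ :=
  73031 / 100000 * x ^ (3 / 2 : ℝ) - 6524 / 10000 * x ^ (5 / 2 : ℝ) + 9502 / 10000 * x ^ (7 / 2 : ℝ)

lemma lam_maj {s : ℝ} (hs : t0 ≤ s) (hs' : s ≤ a5) :
    lam R0 s ≤ 2 / 3 * R0 ^ 3 * maj (s - t0) := by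
  have ht := t0_bounds
  have ha := a5_bounds
  have hL := L_bounds
  have hR := R0_fine
  have hx : 0 ≤ s - t0 := by linarith
  have hx' : s - t0 ≤ 1843 / 10000 := by linarith
  obtain ⟨r1, r2, r3⟩ := rp (s - t0) hx
  have hm : maj (s - t0) = (s - t0) ^ (3 / 2 : ℝ) *
      (73031 / 100000 - 6524 / 10000 * (s - t0) + 9502 / 10000 * (s - t0) ^ 2) := by
    unfold maj
    rw [r1, r2]
    ring
  have hq : 0 ≤ 73031 / 100000 - 6524 / 10000 * (s - t0) + 9502 / 10000 * (s - t0) ^ 2 := by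
    nlinarith [sq_nonneg (s - t0)]
  have hR0 : 0 < R0 := by linarith
  have h1s : 0 < 1 + s := by linarith
  have hp := poly_pos hx hx'
  apply lam_le hR0.le (by linarith) (by linarith)
  · rw [hm]; positivity
  · have := t0_R0
    nlinarith [sq_nonneg R0]
  · have e1 : R0 ^ 2 - 2 / (1 + s) = R0 ^ 2 * (s - t0) / (1 + s) := by
      rw [eq_div_iff h1s.ne', sub_mul, div_mul_cancel₀ _ h1s.ne']
      have := t0_R0
      linarith
    rw [e1, hm, div_pow, mul_div_assoc', div_le_iff₀ (by positivity), mul_pow, mul_pow, mul_pow, mul_pow, r3]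
    set q := 73031 / 100000 - 6524 / 10000 * (s - t0) + 9502 / 10000 * (s - t0) ^ 2 with hqd
    have h3 : 1 ≤ q ^ 2 * (1 + s) ^ 4 * (1 - s) := by
      refine hp.trans ?_
      have k1 : (1262951 / 1000000 + (s - t0)) ^ 4 ≤ (1 + s) ^ 4 :=
        pow_le_pow_left₀ (by linarith) (by linarith) 4
      have k2 : 737048 / 1000000 - (s - t0) ≤ 1 - s := by linarith
      have k3 : 0 ≤ 737048 / 1000000 - (s - t0) := by linarith
      gcongr
    have h4 : 0 ≤ 4 / 9 * ((R0 ^ 2) ^ 3 * (s - t0) ^ 3) := by positivity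
    calc 4 / 9 * ((R0 ^ 2) ^ 3 * (s - t0) ^ 3) 
        ≤ 4 / 9 * ((R0 ^ 2) ^ 3 * (s - t0) ^ 3) * (q ^ 2 * (1 + s) ^ 4 * (1 - s)) := le_mul_of_one_le_right h4 h3
      _ = _ := by ring

lemma int_pow (p : ℝ) (hp : 0 ≤ p) :
    ∫ s in t0..a5, (s - t0) ^ p = (a5 - t0) ^ (p + 1) / (p + 1) := by
  rw [intervalIntegral.integral_comp_sub_right (fun x => x ^ p) t0, sub_self,
    integral_rpow (Or.inl (by linarith)), Real.zero_rpow (by linarith), sub_zero]

lemma pow_ii (p : ℝ) (hp : 0 ≤ p) : IntervalIntegrable (fun s => (s - t0) ^ p) volume t0 a5 := by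
  apply Continuous.intervalIntegrable
  exact (continuous_id.sub continuous_const).rpow_const (fun x => Or.inr hp)

lemma lens_R0 : lens R0 a5 ≤ 2 / 3 * R0 ^ 3 * ((a5 - t0) ^ 2 * Real.sqrt (a5 - t0) *
    (73031 / 100000 * (2 / 5) - 6524 / 10000 * (2 / 7) * (a5 - t0)
      + 9502 / 10000 * (2 / 9) * (a5 - t0) ^ 2)) := by
  have ht := t0_bounds
  have ha := a5_bounds
  have hL := L_bounds
  have hR := R0_fine
  have e0 : lens R0 t0 = 0 := lens_eq_zero R0 t0 (by linarith) (by linarith) t0_R0.le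
  have i0 := lam_int R0 (t := t0) (by linarith) (by linarith)
  have i2 := lam_int R0 (t := a5) (by linarith) (by linarith)
  have j : IntervalIntegrable (lam R0) volume t0 a5 := i0.symm.trans i2
  have e1 : lens R0 a5 = ∫ s in t0..a5, lam R0 s := by
    have := intervalIntegral.integral_add_adjacent_intervals i0 j
    unfold lens at e0 ⊢
    rw [← this, e0, zero_add]
  have p1 := pow_ii (3 / 2) (by norm_num)
  have p2 := pow_ii (5 / 2) (by norm_num)
  have p3 := pow_ii (7 / 2) (by norm_num)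
  have jm : IntervalIntegrable (fun s => 2 / 3 * R0 ^ 3 * maj (s - t0)) volume t0 a5 := by
    unfold maj
    exact (((p1.const_mul _).sub (p2.const_mul _)).add (p3.const_mul _)).const_mul _
  have b : (∫ s in t0..a5, lam R0 s) ≤ ∫ s in t0..a5, 2 / 3 * R0 ^ 3 * maj (s - t0) :=
    intervalIntegral.integral_mono_on (by linarith) j jm (fun x hx => lam_maj hx.1 hx.2)
  rw [e1]
  refine b.trans_eq ?_
  rw [intervalIntegral.integral_const_mul]
  congr 1
  unfold maj
  rw [intervalIntegral.integral_add ((p1.const_mul _).sub (p2.const_mul _)) (p3.const_mul _),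
    intervalIntegral.integral_sub (p1.const_mul _) (p2.const_mul _),
    intervalIntegral.integral_const_mul, intervalIntegral.integral_const_mul,
    intervalIntegral.integral_const_mul, int_pow _ (by norm_num), int_pow _ (by norm_num),
    int_pow _ (by norm_num)]
  have hx : 0 ≤ a5 - t0 := by linarith
  have q1 : (a5 - t0) ^ (3 / 2 + 1 : ℝ) = (a5 - t0) ^ 2 * Real.sqrt (a5 - t0) := by
    rw [show (3 / 2 + 1 : ℝ) = (2 : ℕ) + 1 / 2 by norm_num,
      Real.rpow_add_of_nonneg hx (by norm_num) (by norm_num), Real.rpow_natCast, Real.sqrt_eq_rpow]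
  have q2 : (a5 - t0) ^ (5 / 2 + 1 : ℝ) = (a5 - t0) ^ 3 * Real.sqrt (a5 - t0) := by
    rw [show (5 / 2 + 1 : ℝ) = (3 : ℕ) + 1 / 2 by norm_num,
      Real.rpow_add_of_nonneg hx (by norm_num) (by norm_num), Real.rpow_natCast, Real.sqrt_eq_rpow]
  have q3 : (a5 - t0) ^ (7 / 2 + 1 : ℝ) = (a5 - t0) ^ 4 * Real.sqrt (a5 - t0) := by
    rw [show (7 / 2 + 1 : ℝ) = (4 : ℕ) + 1 / 2 by norm_num,
      Real.rpow_add_of_nonneg hx (by norm_num) (by norm_num), Real.rpow_natCast, Real.sqrt_eq_rpow]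
  rw [q1, q2, q3]
  ring

lemma lens_R0_num : lens R0 a5 ≤ 0.0051312 := by
  have hL := L_bounds
  have hR := R0_fine
  refine lens_R0.trans ?_
  have h1 : R0 ^ 3 ≤ 1.258409 ^ 3 := pow_le_pow_left₀ (by linarith) hR.2.le 3
  have h2 : (a5 - t0) ^ 2 ≤ 0.184263 ^ 2 := pow_le_pow_left₀ (by linarith) hL.2.le 2
  have h3 : Real.sqrt (a5 - t0) ≤ 0.42926 := by
    rw [Real.sqrt_le_left (by norm_num)]
    linarith
  have h4 : 73031 / 100000 * (2 / 5) - 6524 / 10000 * (2 / 7) * (a5 - t0)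
      + 9502 / 10000 * (2 / 9) * (a5 - t0) ^ 2 ≤ 73031 / 100000 * (2 / 5) - 6524 / 10000 * (2 / 7) * 0.184262
      + 9502 / 10000 * (2 / 9) * 0.184263 ^ 2 := by linarith [hL.1]
  have h5 : 0 ≤ 73031 / 100000 * (2 / 5) - 6524 / 10000 * (2 / 7) * (a5 - t0)
      + 9502 / 10000 * (2 / 9) * (a5 - t0) ^ 2 := by nlinarith [hL.2, hL.1]
  have h6 : 0 ≤ Real.sqrt (a5 - t0) := Real.sqrt_nonneg _
  have h7 : 0 < R0 := by linarith
  calc 2 / 3 * R0 ^ 3 * ((a5 - t0) ^ 2 * Real.sqrt (a5 - t0) *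
    (73031 / 100000 * (2 / 5) - 6524 / 10000 * (2 / 7) * (a5 - t0)
      + 9502 / 10000 * (2 / 9) * (a5 - t0) ^ 2)) ≤ 2 / 3 * 1.258409 ^ 3 * (0.184263 ^ 2 * 0.42926 * (73031 / 100000 * (2 / 5) - 6524 / 10000 * (2 / 7) * 0.184262
      + 9502 / 10000 * (2 / 9) * 0.184263 ^ 2)) := by gcongr
    _ ≤ _ := by norm_num

end Num1

theorem V12_R0 : V12 R0 ≤ 5.5504 := by
  have h := lens_R0_num
  have hR := R0_fine
  have h1 := sqrt5.1
  have h2 := sqrt5.2
  unfold V12 capV
  have e : 4 / 3 * Real.pi * R0 ^ 3 - 12 * (Real.pi * (R0 - 1) ^ 2 * (2 * R0 + 1) / 3) =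
      Real.pi * (12 * R0 ^ 2 - 4 - 20 / 3 * (R0 ^ 2 * R0)) := by ring
  have k : 12 * R0 ^ 2 - 4 - 20 / 3 * (R0 ^ 2 * R0) ≤ 1.71774 := by
    rw [R0_sq]
    nlinarith [mul_nonneg (sub_nonneg.mpr hR.1.le) (sub_nonneg.mpr h2.le)]
  have k2 : Real.pi * (12 * R0 ^ 2 - 4 - 20 / 3 * (R0 ^ 2 * R0)) ≤ 3.141593 * 1.71774 := by
    have hp : Real.pi < 3.141593 := Real.pi_lt_d6
    calc _ ≤ Real.pi * 1.71774 := mul_le_mul_of_nonneg_left k Real.pi_pos.le
      _ ≤ _ := by linarith
  rw [e]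
  linarith

end Pool.Agent.H54.V
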