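/-
JOB VOR-KCRIT.  The K-criterion.
Let S = Σ ch(h i) ≤ 12 ch 1 - 27/4000 (ch 1 = 17/375; π ch h = capP 1.2 h).
r ≥ 1.2:  VP r ≥ VP 1.2 ≥ (4/3)π 1.2³ - π S ≥ π (2.304 - 0.544 + 0.00675) = 1.76675 π ≥ 5.5504 ≥ V12 R0 ≥ QV R0 ≥ QV r
(`union_bound`, `V12_R0`, `QV_le_V12`, `QV_mono`; π > 3.141592 gives 1.76675 π > 5.55040).
r < 1.2: capP r h ≤ (capV r 1 / capV 1.2 1) capP 1.2 h for h ≥ 1, since for 1 ≤ h < r
 (r-h)²(2r+h) (0.2)² (3.4) ≤ (r-1)²(2r+1) (1.2-h)² (2.4+h)   [h ↦ (r-h)²(2r+h)/((1.2-h)²(2.4+h)) is decreasing].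
So VP r ≥ (4/3)πr³ - (capV r 1/capV 1.2 1) π S ≥ (4/3)πr³ - 12 capV r 1 + (27/4000) π capV r 1 / capV 1.2 1, and
30 lens r a5 ≤ (27/4000) π capV r 1/capV 1.2 1: the left side is 0 for r ≤ 1.1755 (`lens_small`), and for
1.1755 ≤ r ≤ 1.2 it is ≤ 0.0155 while the right side is ≥ 0.0212·0.759 > 0.016.
-/
import Pool.Agent.H54.V.J.Dodec
import Pool.Agent.H54.V.J.Gain
import Pool.Agent.H54.V.J.Fin
import Pool.Agent.H54.V.J.Num1
set_option autoImplicit false
open MeasureTheory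
namespace Pool.Agent.H54.V

theorem kc_capP (h : ℝ) : capP (6 / 5) h = Real.pi * ch h := by
  unfold capP ch capV
  split_ifs
  · ring
  · ring

theorem kc_ch_nonneg (h : ℝ) (h1 : 1 ≤ h) : 0 ≤ ch h := by
  unfold ch
  split_ifs
  · have : 0 ≤ 12 / 5 + h := by linarith
    positivity
  · exact le_rfl

/-- monotonicity in the radius -/
theorem kc_VP_mono {ι : Type*} (u : ι → E3) (h : ι → ℝ) {r s : ℝ} (hrs : r ≤ s) :
    VP u h r ≤ VP u h s := by
  unfold VP
  refine ENNReal.toReal_mono ?_ ?_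
  · have hfin : volume (Metric.closedBall (0 : E3) s) ≠ ⊤ := measure_closedBall_lt_top.ne
    refine ne_top_of_le_ne_top hfin ?_
    refine measure_mono fun x hx => ?_
    rw [Metric.mem_closedBall, dist_zero_right]
    exact hx.1
  · exact measure_mono fun x hx => ⟨hx.1.trans hrs, hx.2⟩

/-- the elementary inequality -/
theorem kc_ineq {r h : ℝ} (h1 : 1 ≤ h) (hr : h < r) (hr2 : r ≤ 6 / 5) :
    (r - h) ^ 2 * (2 * r + h) * (17 / 125) ≤
      (r - 1) ^ 2 * (2 * r + 1) * ((6 / 5 - h) ^ 2 * (12 / 5 + h)) := by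
  have a1 : (r - h) * (1 / 5) ≤ (r - 1) * (6 / 5 - h) := by
    have : (r - 1) * (6 / 5 - h) - (r - h) * (1 / 5) = (6 / 5 - r) * (h - 1) := by ring
    have h2 : 0 ≤ (6 / 5 - r) * (h - 1) := mul_nonneg (by linarith) (by linarith)
    linarith
  have a2 : (r - h) * (2 * r + h) * (17 / 25) ≤
      (r - 1) * (2 * r + 1) * ((6 / 5 - h) * (12 / 5 + h)) := by
    have : (r - 1) * (2 * r + 1) * ((6 / 5 - h) * (12 / 5 + h)) -
        (r - h) * (2 * r + h) * (17 / 25) =
        (h - 1) * ((6 / 5 - r) * (2 * r + 7 / 5) * h + (6 / 5 - r) * (22 / 5 * r + 12 / 5)) := by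
      ring
    have h2 : 0 ≤ (h - 1) * ((6 / 5 - r) * (2 * r + 7 / 5) * h +
        (6 / 5 - r) * (22 / 5 * r + 12 / 5)) := by
      have c1 : 0 ≤ h - 1 := by linarith
      have c2 : 0 ≤ 6 / 5 - r := by linarith
      have c3 : 0 ≤ 2 * r + 7 / 5 := by linarith
      have c4 : 0 ≤ h := by linarith
      have c5 : 0 ≤ 22 / 5 * r + 12 / 5 := by linarith
      positivity
    linarith
  have b1 : 0 ≤ (r - h) * (1 / 5) := mul_nonneg (by linarith) (by norm_num)
  have b2 : 0 ≤ (r - h) * (2 * r + h) * (17 / 25) :=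
    mul_nonneg (mul_nonneg (by linarith) (by linarith)) (by norm_num)
  have c := mul_le_mul a1 a2 b2 (b1.trans a1)
  calc (r - h) ^ 2 * (2 * r + h) * (17 / 125)
      = (r - h) * (1 / 5) * ((r - h) * (2 * r + h) * (17 / 25)) := by ring
    _ ≤ (r - 1) * (6 / 5 - h) * ((r - 1) * (2 * r + 1) * ((6 / 5 - h) * (12 / 5 + h))) := c
    _ = _ := by ring

/-- the ratio of the caps -/
noncomputable def kc (r : ℝ) : ℝ := (r - 1) ^ 2 * (2 * r + 1) / (17 / 125)

theorem kc_cap {r h : ℝ} (h1 : 1 ≤ h) (hr1 : 1 < r) (hr2 : r ≤ 6 / 5) :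
    capP r h ≤ kc r * (Real.pi * ch h) := by
  have hk : 0 ≤ kc r := by
    unfold kc
    have : 0 ≤ 2 * r + 1 := by linarith
    positivity
  have hpi := Real.pi_pos
  unfold capP
  split_ifs with hh
  · have hh2 : h < 6 / 5 := by linarith
    have h3 := kc_ineq h1 hh hr2
    unfold capV ch kc
    rw [if_pos hh2]
    have h4 : (r - h) ^ 2 * (2 * r + h) ≤
        (r - 1) ^ 2 * (2 * r + 1) / (17 / 125) * ((6 / 5 - h) ^ 2 * (12 / 5 + h)) := by
      rw [div_mul_eq_mul_div, le_div_iff₀ (by norm_num)]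
      exact h3
    calc Real.pi * (r - h) ^ 2 * (2 * r + h) / 3 = Real.pi / 3 * ((r - h) ^ 2 * (2 * r + h)) := by ring
      _ ≤ Real.pi / 3 * ((r - 1) ^ 2 * (2 * r + 1) / (17 / 125) *
          ((6 / 5 - h) ^ 2 * (12 / 5 + h))) := mul_le_mul_of_nonneg_left h4 (by positivity)
      _ = _ := by ring
  · exact mul_nonneg hk (mul_nonneg hpi.le (kc_ch_nonneg h h1))

theorem Kcrit {N : ℕ} (c : Cfg N R0) (hK : KK c.h) (r : ℝ) (h1 : 1 < r) (hr : r ≤ R0) :
    QV r ≤ VP c.u c.h r := by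
  have hpi := Real.pi_pos
  have hch1 : ch 1 = 17 / 375 := by
    unfold ch
    rw [if_pos (by norm_num)]
    norm_num
  have hS : ∑ i, ch (c.h i) ≤ 12 * (17 / 375) - 27 / 4000 := by
    rw [← hch1]
    exact hK
  by_cases hr2 : 6 / 5 ≤ r
  · have e1 := kc_VP_mono c.u c.h hr2
    have e2 := union_bound c.u c.h (6 / 5) (by norm_num) c.unit
      (fun i => le_trans zero_le_one (c.one_le i))
    have e3 : ∑ i, capP (6 / 5) (c.h i) = Real.pi * ∑ i, ch (c.h i) := by
      rw [Finset.mul_sum]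
      exact Finset.sum_congr rfl fun i _ => kc_capP _
    rw [e3] at e2
    have e4 : QV r ≤ 5.5504 :=
      ((QV_mono hr).trans (QV_le_V12 R0 (by have := R0_bounds.1; linarith) le_rfl)).trans V12_R0
    have e5 : Real.pi * ∑ i, ch (c.h i) ≤ Real.pi * (12 * (17 / 375) - 27 / 4000) :=
      mul_le_mul_of_nonneg_left hS hpi.le
    have e6 : (3.141592 : ℝ) < Real.pi := Real.pi_gt_d6
    have e7 : (5.5504 : ℝ) ≤ Real.pi * (4 / 3 * (6 / 5) ^ 3 - (12 * (17 / 375) - 27 / 4000)) := by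
      nlinarith
    have e8 : Real.pi * (4 / 3 * (6 / 5) ^ 3 - (12 * (17 / 375) - 27 / 4000)) =
        4 / 3 * Real.pi * (6 / 5) ^ 3 - Real.pi * (12 * (17 / 375) - 27 / 4000) := by ring
    linarith
  · have hr3 : r < 6 / 5 := not_le.mp hr2
    have e2 := union_bound c.u c.h r (by linarith) c.unit
      (fun i => le_trans zero_le_one (c.one_le i))
    have hk : 0 ≤ kc r := by
      unfold kc
      have : 0 ≤ 2 * r + 1 := by linarith
      positivity
    have e3 : ∑ i, capP r (c.h i) ≤ kc r * (Real.pi * ∑ i, ch (c.h i)) := by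
      rw [Finset.mul_sum, Finset.mul_sum]
      exact Finset.sum_le_sum fun i _ => kc_cap (c.one_le i) h1 hr3.le
    have e4 : kc r * (Real.pi * ∑ i, ch (c.h i)) ≤
        kc r * (Real.pi * (12 * (17 / 375) - 27 / 4000)) :=
      mul_le_mul_of_nonneg_left (mul_le_mul_of_nonneg_left hS hpi.le) hk
    have e5 : kc r * (Real.pi * (12 * (17 / 375) - 27 / 4000)) =
        12 * capV r 1 - 27 / 4000 * Real.pi * kc r := by
      unfold kc capV
      ring
    have e6 := QV_le_V12 r h1 hr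
    unfold V12 at e6
    have ha := a5_bounds
    have e7 : 30 * lens r a5 ≤ 27 / 4000 * Real.pi * kc r := by
      by_cases hr4 : r ≤ 1.1755
      · rw [lens_small r h1 hr4]
        have : 0 ≤ 27 / 4000 * Real.pi * kc r := by positivity
        linarith
      · push Not at hr4
        have f1 := lens_mono_r a5 (by linarith [ha.1]) (by linarith [ha.2]) (r := r) (s := 1.2)
          (by linarith) (by norm_num; linarith)
        have f2 := lens_12
        have f3 : (0.758 : ℝ) ≤ kc r := by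
          unfold kc
          rw [le_div_iff₀ (by norm_num)]
          have g1 : (0.1755 : ℝ) ≤ r - 1 := by linarith
          have g2 : (3.351 : ℝ) ≤ 2 * r + 1 := by linarith
          have g3 : (0.1755 : ℝ) ^ 2 ≤ (r - 1) ^ 2 := pow_le_pow_left₀ (by norm_num) g1 2
          have g4 : (0.1755 : ℝ) ^ 2 * 3.351 ≤ (r - 1) ^ 2 * (2 * r + 1) :=
            mul_le_mul g3 g2 (by norm_num) (by positivity)
          refine le_trans ?_ g4
          norm_num
        have f4 : (3.141592 : ℝ) < Real.pi := Real.pi_gt_d6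
        have f5 : (3.141592 : ℝ) * 0.758 ≤ Real.pi * kc r :=
          mul_le_mul f4.le f3 (by norm_num) hpi.le
        have f6 : 27 / 4000 * Real.pi * kc r = 27 / 4000 * (Real.pi * kc r) := by ring
        rw [f6]
        have f7 : (0.0155 : ℝ) ≤ 27 / 4000 * (3.141592 * 0.758) := by norm_num
        linarith
    linarith

end Pool.Agent.H54.V
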