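/-
JOB VOR-TRI2.  A pair (u,v) lies in at most two active triples.
Let t = ⟪u,v⟫, α k = ⟪u,w k⟫, β k = ⟪v,w k⟫, all ≤ .514, t + α k + β k > 3 a5 > 1.34163 (`a5_bounds`).  So t, α k, β k ≥ .31363,
α k + β k ≥ .82763, |α k - β k| ≤ 2·.514 - .82763 = .20037.  ‖u-v‖² = 2 - 2t ∈ [.972, 1.373], ‖u+v‖² = 2 + 2t ∈ [2.62726, 3.028].
p = (u-v)/‖u-v‖, q = (u+v)/‖u+v‖ are orthonormal, complete by a unit vector n; w k = a p + b q + c n with a = (α-β)/‖u-v‖,
b = (α+β)/‖u+v‖, c² = 1 - a² - b².  a² ≤ .20037²/.972 ≤ .04131, b² ≤ 1.028²/2.62726 ≤ .40225, c² ≥ .5564.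
Two of the three c's have the same sign (or vanish - impossible), say for w, w'.  Then
(a-a')² ≤ .40074²/.972 ≤ .16522, (b-b')² ≤ .20037²/2.62726 ≤ .01529, (c-c')² = (c²-c'²)²/(c+c')² ≤ (.04131+.15681)²/(4·.5564) ≤ .01764
(|b²-b'²| ≤ 2.056·.20037/2.62726 ≤ .15681).  So ‖w-w'‖² ≤ .199, but ‖w-w'‖² = 2 - 2⟪w,w'⟫ ≥ .972.  Contradiction.
(Without a basis: use the orthogonal projection onto span(u,v) and the fact that its complement is one-dimensional.)
-/
import Pool.Agent.H54.V.J.Fin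
set_option autoImplicit false
open MeasureTheory
namespace Pool.Agent.H54.V

theorem tri2_inner (x y : E3) : inner ℝ x y = x 0 * y 0 + x 1 * y 1 + x 2 * y 2 := by
  rw [PiLp.inner_apply, Fin.sum_univ_three]
  simp only [RCLike.inner_apply, conj_trivial]
  ring

/-- the determinant of three vectors -/
noncomputable def tri2_det (x y z : E3) : ℝ :=
  x 0 * (y 1 * z 2 - y 2 * z 1) - x 1 * (y 0 * z 2 - y 2 * z 0) + x 2 * (y 0 * z 1 - y 1 * z 0)

theorem tri2_gram (u v w w' : E3) (hu : inner ℝ u u = (1 : ℝ)) (hv : inner ℝ v v = (1 : ℝ)) :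
    tri2_det u v w * tri2_det u v w' = inner ℝ w w' * (1 - inner ℝ u v ^ 2) -
      inner ℝ v w * inner ℝ v w' - inner ℝ u w * inner ℝ u w' +
      inner ℝ u v * (inner ℝ u w * inner ℝ v w' + inner ℝ u w' * inner ℝ v w) := by
  have h : tri2_det u v w * tri2_det u v w' =
      inner ℝ u u * (inner ℝ v v * inner ℝ w w' - inner ℝ v w * inner ℝ v w') -
      inner ℝ u v * (inner ℝ u v * inner ℝ w w' - inner ℝ v w' * inner ℝ u w) +
      inner ℝ u w' * (inner ℝ u v * inner ℝ v w - inner ℝ v v * inner ℝ u w) := by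
    simp only [tri2_inner, tri2_det]
    ring
  rw [h, hu, hv]
  ring

theorem tri2_pair (u v w w' : E3) (hu : ‖u‖ = 1) (hv : ‖v‖ = 1) (hw : ‖w‖ = 1)
    (huv : inner ℝ u v ≤ (0.514 : ℝ)) (huw : inner ℝ u w ≤ (0.514 : ℝ))
    (huw' : inner ℝ u w' ≤ (0.514 : ℝ)) (hvw : inner ℝ v w ≤ (0.514 : ℝ))
    (hvw' : inner ℝ v w' ≤ (0.514 : ℝ)) (hww : inner ℝ w w' ≤ (0.514 : ℝ))
    (ht : 1.3416 < inner ℝ u v + inner ℝ u w + inner ℝ v w)
    (ht' : 1.3416 < inner ℝ u v + inner ℝ u w' + inner ℝ v w')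
    (hD : 0 ≤ tri2_det u v w * tri2_det u v w')
    (hle : tri2_det u v w ^ 2 ≤ tri2_det u v w' ^ 2) : False := by
  have hu1 : inner ℝ u u = (1 : ℝ) := by rw [real_inner_self_eq_norm_sq, hu, one_pow]
  have hv1 : inner ℝ v v = (1 : ℝ) := by rw [real_inner_self_eq_norm_sq, hv, one_pow]
  have hw1 : inner ℝ w w = (1 : ℝ) := by rw [real_inner_self_eq_norm_sq, hw, one_pow]
  have g1 := tri2_gram u v w w hu1 hv1
  have g2 := tri2_gram u v w w' hu1 hv1
  rw [hw1] at g1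
  have hDD : tri2_det u v w * tri2_det u v w ≤ tri2_det u v w * tri2_det u v w' := by
    have h1 := sq_le_sq.1 hle
    have h2 : tri2_det u v w * tri2_det u v w = |tri2_det u v w| * |tri2_det u v w| :=
      (abs_mul_abs_self _).symm
    have h3 : tri2_det u v w * tri2_det u v w' = |tri2_det u v w| * |tri2_det u v w'| := by
      rw [← abs_mul, abs_of_nonneg hD]
    rw [h2, h3]
    exact mul_le_mul_of_nonneg_left h1 (abs_nonneg _)
  rw [g1, g2] at hDD
  generalize inner ℝ u v = t at *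
  generalize inner ℝ u w = a at *
  generalize inner ℝ u w' = a' at *
  generalize inner ℝ v w = b at *
  generalize inner ℝ v w' = b' at *
  generalize inner ℝ w w' = c at *
  have ht1 : 0.3136 ≤ t := by linarith
  have ha1 : 0.3136 ≤ a := by linarith
  have hb1 : 0.3136 ≤ b := by linarith
  have ha2 : 0.3136 ≤ a' := by linarith
  have hb2 : 0.3136 ≤ b' := by linarith
  have e1 : t * b ≤ 0.514 * 0.514 := mul_le_mul huv hvw (by linarith) (by norm_num)
  have e2 : t * a ≤ 0.514 * 0.514 := mul_le_mul huv huw (by linarith) (by norm_num)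
  have e3 : 0.3136 * 0.3136 ≤ t * b := mul_le_mul ht1 hb1 (by norm_num) (by linarith)
  have e4 : 0.3136 * 0.3136 ≤ t * a := mul_le_mul ht1 ha1 (by norm_num) (by linarith)
  have e5 : t ^ 2 ≤ 0.514 * 0.514 := by
    rw [sq]; exact mul_le_mul huv huv (by linarith) (by norm_num)
  have p1 : (a - t * b) * (a - a') ≤ (a - t * b) * 0.2004 :=
    mul_le_mul_of_nonneg_left (by linarith) (by linarith)
  have p2 : (b - t * a) * (b - b') ≤ (b - t * a) * 0.2004 :=
    mul_le_mul_of_nonneg_left (by linarith) (by linarith)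
  have p3 : c * (1 - t ^ 2) ≤ 0.514 * (1 - t ^ 2) :=
    mul_le_mul_of_nonneg_right hww (by linarith)
  have p4 : (1 - t ^ 2) - (a - t * b) * (a - a') - (b - t * a) * (b - b') ≤ c * (1 - t ^ 2) := by
    linarith [hDD]
  linarith

theorem tri2_a5 : 1.3416 < 3 * a5 := by
  have h1 : Real.sqrt 5 < 2.236068 := by
    rw [Real.sqrt_lt' (by norm_num)]
    norm_num
  have h2 : 0 < Real.sqrt 5 := Real.sqrt_pos.2 (by norm_num)
  rw [a5, mul_one_div, lt_div_iff₀ h2]
  linarith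

theorem tri2 (u v : E3) (w : Fin 3 → E3) (hu : ‖u‖ = 1) (hv : ‖v‖ = 1) (hw : ∀ k, ‖w k‖ = 1)
    (huv : inner ℝ u v ≤ (0.514 : ℝ)) (huw : ∀ k, inner ℝ u (w k) ≤ (0.514 : ℝ))
    (hvw : ∀ k, inner ℝ v (w k) ≤ (0.514 : ℝ)) (hww : ∀ k l, k ≠ l → inner ℝ (w k) (w l) ≤ (0.514 : ℝ))
    (ht : ∀ k, 3 * a5 < inner ℝ u v + inner ℝ u (w k) + inner ℝ v (w k)) : False := by
  have ht1 : ∀ k, 1.3416 < inner ℝ u v + inner ℝ u (w k) + inner ℝ v (w k) :=
    fun k => tri2_a5.trans (ht k)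
  have key : ∀ k l, k ≠ l → tri2_det u v (w k) * tri2_det u v (w l) < 0 := by
    intro k l hkl
    by_contra hc
    push Not at hc
    rcases le_total (tri2_det u v (w k) ^ 2) (tri2_det u v (w l) ^ 2) with h | h
    · exact tri2_pair u v (w k) (w l) hu hv (hw k) huv (huw k) (huw l) (hvw k) (hvw l)
        (hww k l hkl) (ht1 k) (ht1 l) hc h
    · exact tri2_pair u v (w l) (w k) hu hv (hw l) huv (huw l) (huw k) (hvw l) (hvw k)
        (hww l k hkl.symm) (ht1 l) (ht1 k) (by rw [mul_comm]; exact hc) h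
  have h01 := key 0 1 (by decide)
  have h12 := key 1 2 (by decide)
  have h02 := key 0 2 (by decide)
  have h3 := mul_pos_of_neg_of_neg h01 h12
  have h4 : 0 ≤ tri2_det u v (w 1) ^ 2 * (- (tri2_det u v (w 0) * tri2_det u v (w 2))) :=
    mul_nonneg (sq_nonneg _) (by linarith)
  nlinarith

end Pool.Agent.H54.V
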