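/-
JOB VOR-TSUM.  The triple terms are dominated by the quadratic pair terms.
x_ij = ⟪u i,u j⟫ - a5 ≤ .514 - .44721 = .06679.  For a triple with X = x_ij + x_ik + x_jk > 0 (active): X ≤ Σ (x)_+ ≤ .20037, so
X³ ≤ .20037 (Σ (x)_+)² ≤ .20037·3·Σ (x)_+² , .0355·.60111 ≤ .02134.  By `tri2` every pair {i,j} has at most two k such that
{i,j,k} is active (three distinct k's give w : Fin 3 → E3 contradicting `tri2`).  Sum over the active triples:
Σ ≤ .02134·2·Σ_pairs (x)_+² ≤ .043 Σ_pairs (x)_+².  (Double counting over ordered triples is convenient: tripSum f for a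
symmetric f is 1/6 of the sum over ordered triples with distinct entries, pairSum f is 1/2 of the sum over ordered pairs.)
-/
import Pool.Agent.H54.V.J.Tri2
set_option autoImplicit false
open MeasureTheory
namespace Pool.Agent.H54.V

/-- the excess of a triple -/
noncomputable def tsX (u : Fin 12 → E3) (i j k : Fin 12) : ℝ :=
  inner ℝ (u i) (u j) + inner ℝ (u i) (u k) + inner ℝ (u j) (u k) - 3 * a5

open Classical in
/-- active triples -/
noncomputable def tsA (u : Fin 12 → E3) (i j k : Fin 12) : ℝ := if 0 < tsX u i j k then 1 else 0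

theorem tsX_swap (u : Fin 12 → E3) (a k b : Fin 12) : tsX u a k b = tsX u a b k := by
  unfold tsX
  rw [real_inner_comm (u b) (u k)]
  ring

theorem tsX_rot (u : Fin 12 → E3) (k a b : Fin 12) : tsX u k a b = tsX u a b k := by
  unfold tsX
  rw [real_inner_comm (u a) (u k), real_inner_comm (u b) (u k)]
  ring

/-- double counting -/
theorem ts_dc (act : Fin 12 → Fin 12 → Fin 12 → ℝ) (q : Fin 12 → Fin 12 → ℝ) :
    tripSum (fun i j k => act i j k * (q i j + q i k + q j k)) =
    pairSum (fun a b => q a b * ∑ k, ((if b < k then act a b k else 0) +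
      (if a < k ∧ k < b then act a k b else 0) + (if k < a then act k a b else 0))) := by
  unfold tripSum pairSum
  have h1 : ∀ i j k : Fin 12, (if i < j ∧ j < k then act i j k * (q i j + q i k + q j k) else 0) =
      (if i < j ∧ j < k then act i j k * q i j else 0) +
      (if i < j ∧ j < k then act i j k * q i k else 0) +
      (if i < j ∧ j < k then act i j k * q j k else 0) := by
    intro i j k
    split_ifs
    · ring
    · ring
  simp_rw [h1, Finset.sum_add_distrib]
  have h2 : ∑ i : Fin 12, ∑ j : Fin 12, ∑ k : Fin 12,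
      (if i < j ∧ j < k then act i j k * q i k else 0) =
      ∑ a : Fin 12, ∑ b : Fin 12, ∑ k : Fin 12,
        (if a < k ∧ k < b then act a k b * q a b else 0) :=
    Finset.sum_congr rfl fun i _ => Finset.sum_comm
  have h3 : ∑ i : Fin 12, ∑ j : Fin 12, ∑ k : Fin 12,
      (if i < j ∧ j < k then act i j k * q j k else 0) =
      ∑ a : Fin 12, ∑ b : Fin 12, ∑ k : Fin 12,
        (if k < a ∧ a < b then act k a b * q a b else 0) := by
    rw [Finset.sum_comm]
    exact Finset.sum_congr rfl fun j _ => Finset.sum_comm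
  rw [h2, h3, ← Finset.sum_add_distrib, ← Finset.sum_add_distrib]
  refine Finset.sum_congr rfl fun a _ => ?_
  rw [← Finset.sum_add_distrib, ← Finset.sum_add_distrib]
  refine Finset.sum_congr rfl fun b _ => ?_
  rw [← Finset.sum_add_distrib, ← Finset.sum_add_distrib, ← Finset.sum_add_distrib,
    ← Finset.sum_add_distrib]
  by_cases hab : a < b
  · rw [if_pos hab, Finset.mul_sum]
    refine Finset.sum_congr rfl fun k _ => ?_
    simp only [hab, true_and, and_true]
    split_ifs <;> ring
  · rw [if_neg hab]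
    refine Finset.sum_eq_zero fun k _ => ?_
    have h4 : ¬ (a < k ∧ k < b) := fun h => hab (h.1.trans h.2)
    rw [if_neg (fun h => hab h.1), if_neg h4, if_neg (fun h => hab h.2)]
    ring

open Classical in
theorem ts_count (u : Fin 12 → E3) (hu : ∀ i, ‖u i‖ = 1)
    (huu : ∀ i j, i ≠ j → inner ℝ (u i) (u j) ≤ (0.514 : ℝ)) (a b : Fin 12) (hab : a < b) :
    ∑ k, ((if b < k then tsA u a b k else 0) +
      (if a < k ∧ k < b then tsA u a k b else 0) + (if k < a then tsA u k a b else 0)) ≤ 2 := by
  have h1 : ∀ k : Fin 12, ((if b < k then tsA u a b k else 0) +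
      (if a < k ∧ k < b then tsA u a k b else 0) + (if k < a then tsA u k a b else 0)) ≤
      (if k ≠ a ∧ k ≠ b ∧ 0 < tsX u a b k then (1 : ℝ) else 0) := by
    intro k
    have e1 : tsA u a k b = tsA u a b k := by unfold tsA; rw [tsX_swap]
    have e2 : tsA u k a b = tsA u a b k := by unfold tsA; rw [tsX_rot]
    rw [e1, e2]
    by_cases hX : 0 < tsX u a b k
    · have e3 : tsA u a b k = 1 := by unfold tsA; rw [if_pos hX]
      rw [e3]
      rcases lt_trichotomy k a with h | h | h
      · have h' : k < b := h.trans hab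
        rw [if_neg (not_lt.2 h'.le), if_neg (fun hh => not_lt.2 h.le hh.1), if_pos h,
          if_pos ⟨h.ne, h'.ne, hX⟩]
        norm_num
      · subst h
        rw [if_neg (not_lt.2 hab.le), if_neg (fun hh => lt_irrefl _ hh.1), if_neg (lt_irrefl _),
          if_neg (fun hh => hh.1 rfl)]
        norm_num
      · rcases lt_trichotomy k b with h' | h' | h'
        · rw [if_neg (not_lt.2 h'.le), if_pos ⟨h, h'⟩, if_neg (not_lt.2 h.le),
            if_pos ⟨h.ne', h'.ne, hX⟩]
          norm_num
        · subst h'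
          rw [if_neg (lt_irrefl _), if_neg (fun hh => lt_irrefl _ hh.2), if_neg (not_lt.2 h.le),
            if_neg (fun hh => hh.2.1 rfl)]
          norm_num
        · rw [if_pos h', if_neg (fun hh => not_lt.2 h'.le hh.2), if_neg (not_lt.2 h.le),
            if_pos ⟨h.ne', h'.ne', hX⟩]
          norm_num
    · have e3 : tsA u a b k = 0 := by unfold tsA; rw [if_neg hX]
      simp only [e3, ite_self, add_zero]
      split_ifs <;> norm_num
  refine (Finset.sum_le_sum fun k _ => h1 k).trans ?_
  rw [Finset.sum_boole]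
  have h2 : (Finset.univ.filter (fun k : Fin 12 => k ≠ a ∧ k ≠ b ∧ 0 < tsX u a b k)).card ≤ 2 := by
    by_contra hc
    push Not at hc
    rw [Finset.two_lt_card] at hc
    obtain ⟨p, hp, q, hq, r, hr, hpq, hpr, hqr⟩ := hc
    rw [Finset.mem_filter] at hp hq hr
    obtain ⟨-, p1, p2, p3⟩ := hp
    obtain ⟨-, q1, q2, q3⟩ := hq
    obtain ⟨-, r1, r2, r3⟩ := hr
    unfold tsX at p3 q3 r3
    have key := tri2 (u a) (u b) ![u p, u q, u r] (hu a) (hu b)
    apply key
    · intro k; fin_cases k
      · exact hu p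
      · exact hu q
      · exact hu r
    · exact huu a b hab.ne
    · intro k; fin_cases k
      · exact huu a p p1.symm
      · exact huu a q q1.symm
      · exact huu a r r1.symm
    · intro k; fin_cases k
      · exact huu b p p2.symm
      · exact huu b q q2.symm
      · exact huu b r r2.symm
    · intro k l hkl
      fin_cases k <;> fin_cases l
      · exact absurd rfl hkl
      · exact huu p q hpq
      · exact huu p r hpr
      · exact huu q p hpq.symm
      · exact absurd rfl hkl
      · exact huu q r hqr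
      · exact huu r p hpr.symm
      · exact huu r q hqr.symm
      · exact absurd rfl hkl
    · intro k; fin_cases k
      · change 3 * a5 < inner ℝ (u a) (u b) + inner ℝ (u a) (u p) + inner ℝ (u b) (u p)
        linarith
      · change 3 * a5 < inner ℝ (u a) (u b) + inner ℝ (u a) (u q) + inner ℝ (u b) (u q)
        linarith
      · change 3 * a5 < inner ℝ (u a) (u b) + inner ℝ (u a) (u r) + inner ℝ (u b) (u r)
        linarith
  exact_mod_cast h2

/-- the elementary inequality for one triple -/
theorem ts_elem (x y z : ℝ) (hx : x ≤ 0.0668) (hy : y ≤ 0.0668) (hz : z ≤ 0.0668)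
    (h : 0 < x + y + z) : 0.0355 * (x + y + z) ^ 3 ≤
      0.0214 * (max 0 x) ^ 2 + 0.0214 * (max 0 y) ^ 2 + 0.0214 * (max 0 z) ^ 2 := by
  set a := max 0 x with ha
  set b := max 0 y with hb
  set c := max 0 z with hc
  have a0 : 0 ≤ a := le_max_left _ _
  have b0 : 0 ≤ b := le_max_left _ _
  have c0 : 0 ≤ c := le_max_left _ _
  have a1 : x ≤ a := le_max_right _ _
  have b1 : y ≤ b := le_max_right _ _
  have c1 : z ≤ c := le_max_right _ _
  have a2 : a ≤ 0.0668 := max_le (by norm_num) hx
  have b2 : b ≤ 0.0668 := max_le (by norm_num) hy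
  have c2 : c ≤ 0.0668 := max_le (by norm_num) hz
  have h1 : (x + y + z) ^ 3 ≤ (a + b + c) ^ 3 := pow_le_pow_left₀ h.le (by linarith) 3
  have h2 : (a + b + c) ^ 3 ≤ 0.2004 * (a + b + c) ^ 2 := by
    have h3 : a + b + c ≤ 0.2004 := by linarith
    have h4 : 0 ≤ (a + b + c) ^ 2 := sq_nonneg _
    calc (a + b + c) ^ 3 = (a + b + c) * (a + b + c) ^ 2 := by ring
      _ ≤ _ := mul_le_mul_of_nonneg_right h3 h4
  have h5 : (a + b + c) ^ 2 ≤ 3 * (a ^ 2 + b ^ 2 + c ^ 2) := by
    nlinarith [sq_nonneg (a - b), sq_nonneg (a - c), sq_nonneg (b - c)]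
  nlinarith [sq_nonneg a, sq_nonneg b, sq_nonneg c]

theorem tsum (u : Fin 12 → E3) (hu : ∀ i, ‖u i‖ = 1) (huu : ∀ i j, i ≠ j → inner ℝ (u i) (u j) ≤ (0.514 : ℝ)) :
    tripSum (fun i j k => 0.0355 * (max 0 (inner ℝ (u i) (u j) + inner ℝ (u i) (u k) + inner ℝ (u j) (u k) - 3 * a5)) ^ 3) ≤
      pairSum (fun i j => 0.043 * (max 0 (inner ℝ (u i) (u j) - a5)) ^ 2) := by
  have ha := a5_bounds
  have hx : ∀ i j, i ≠ j → inner ℝ (u i) (u j) - a5 ≤ (0.0668 : ℝ) := by
    intro i j hij
    have := huu i j hij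
    linarith [ha.1]
  have h1 : tripSum (fun i j k => 0.0355 * (max 0 (inner ℝ (u i) (u j) + inner ℝ (u i) (u k) +
      inner ℝ (u j) (u k) - 3 * a5)) ^ 3) ≤
      tripSum (fun i j k => tsA u i j k * ((0.0214 * (max 0 (inner ℝ (u i) (u j) - a5)) ^ 2) +
        (0.0214 * (max 0 (inner ℝ (u i) (u k) - a5)) ^ 2) +
        (0.0214 * (max 0 (inner ℝ (u j) (u k) - a5)) ^ 2))) := by
    unfold tripSum
    refine Finset.sum_le_sum fun i _ => Finset.sum_le_sum fun j _ => Finset.sum_le_sum fun k _ => ?_
    by_cases hijk : i < j ∧ j < k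
    · rw [if_pos hijk, if_pos hijk]
      beta_reduce
      by_cases hX : 0 < tsX u i j k
      · have e3 : tsA u i j k = 1 := by unfold tsA; rw [if_pos hX]
        unfold tsX at hX
        rw [e3, one_mul, max_eq_right hX.le]
        have e4 : inner ℝ (u i) (u j) + inner ℝ (u i) (u k) + inner ℝ (u j) (u k) - 3 * a5 =
          (inner ℝ (u i) (u j) - a5) + (inner ℝ (u i) (u k) - a5) +
            (inner ℝ (u j) (u k) - a5) := by ring
        rw [e4] at hX ⊢
        exact ts_elem _ _ _ (hx i j hijk.1.ne) (hx i k (hijk.1.trans hijk.2).ne)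
          (hx j k hijk.2.ne) hX
      · have e3 : tsA u i j k = 0 := by unfold tsA; rw [if_neg hX]
        unfold tsX at hX
        rw [e3, zero_mul, max_eq_left (not_lt.1 hX)]
        norm_num
    · rw [if_neg hijk, if_neg hijk]
  refine h1.trans ?_
  rw [ts_dc (tsA u) (fun i j => 0.0214 * (max 0 (inner ℝ (u i) (u j) - a5)) ^ 2)]
  unfold pairSum
  refine Finset.sum_le_sum fun a _ => Finset.sum_le_sum fun b _ => ?_
  by_cases hab : a < b
  · rw [if_pos hab, if_pos hab]
    have h2 := ts_count u hu huu a b hab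
    have h3 : 0 ≤ (max 0 (inner ℝ (u a) (u b) - a5)) ^ 2 := sq_nonneg _
    have h4 : 0.0214 * (max 0 (inner ℝ (u a) (u b) - a5)) ^ 2 *
        (∑ k, ((if b < k then tsA u a b k else 0) +
      (if a < k ∧ k < b then tsA u a k b else 0) + (if k < a then tsA u k a b else 0))) ≤
        0.0214 * (max 0 (inner ℝ (u a) (u b) - a5)) ^ 2 * 2 :=
      mul_le_mul_of_nonneg_left h2 (by positivity)
    linarith
  · rw [if_neg hab, if_neg hab]

end Pool.Agent.H54.V
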