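/-
JOB VOR-TRIP.  Triple overlaps of caps of height 1.
Facts: with β = 5 - 2√5 one has R0² = 15 - 6√5 = 3β, a5 = 1/√5 = 0.4472..., β (1 + 2 a5) = 1, β = 0.527864...
(a) `trip_empty`: if x is in the three caps then 3 < ⟪u+v+w, x⟫ ≤ ‖u+v+w‖ r and ‖u+v+w‖² = 3 + 2(sum of the three inner
products) ≤ 6.084, so r² > 9/6.084 = 1.4792..., but 1.216² = 1.478656.
(b) `trip_volume`: let X = t12 + t13 + t23 - 3 a5.  For x in the region put z_i = ⟪u_i,x⟫ - 1 > 0.  Then
0 ≤ ‖x - β(u+v+w)‖² = ‖x‖² - 2β (3 + Σ z_i) + β² (3 + 2 Σ t) ≤ 3β - 6β - 2β Σ z + β²(3 + 6 a5) + 2β² X = 2β² X - 2β Σ z,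
so Σ z_i ≤ β X.  If X ≤ 0 the region is empty.  If X > 0 then each t_ij > 3 a5 - 2·0.514 > 0.3136, the Gram determinant
D = 1 + 2abc - a² - b² - c² (a,b,c the three inner products, all in [0.3136,0.514]) is decreasing in each variable
(∂/∂a = 2bc - 2a < 0) so D ≥ 0.479.  The linear map x ↦ (⟪u,x⟫,⟪v,x⟫,⟪w,x⟫) has |det| = √D, and it maps the region into
(1,1,1) + {z > 0, Σ z ≤ βX}, a simplex of volume (βX)³/6.  Hence the volume is at most β³ X³/(6 √0.479) ≤ 0.0355 X³
(β³/6 = 0.024514, √0.479 = 0.69209).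
-/
import Pool.Agent.H54.V.Defs
set_option autoImplicit false
open MeasureTheory
namespace Pool.Agent.H54.V

theorem trip_norm_sq (u v w : E3) (hu : ‖u‖ = 1) (hv : ‖v‖ = 1) (hw : ‖w‖ = 1) :
    ‖u + v + w‖ ^ 2 = 3 + 2 * (inner ℝ u v + inner ℝ u w + inner ℝ v w) := by
  rw [← real_inner_self_eq_norm_sq]
  simp only [inner_add_left, inner_add_right, real_inner_self_eq_norm_sq, hu, hv, hw]
  rw [real_inner_comm u v, real_inner_comm u w, real_inner_comm v w]
  ring

theorem trip_empty (r : ℝ) (hr : r ≤ 1.216) (u v w : E3) (hu : ‖u‖ = 1) (hv : ‖v‖ = 1) (hw : ‖w‖ = 1)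
    (huv : inner ℝ u v ≤ (0.514 : ℝ)) (huw : inner ℝ u w ≤ (0.514 : ℝ)) (hvw : inner ℝ v w ≤ (0.514 : ℝ)) :
    {x : E3 | ‖x‖ ≤ r ∧ 1 < inner ℝ u x ∧ 1 < inner ℝ v x ∧ 1 < inner ℝ w x} = ∅ := by
  rw [Set.eq_empty_iff_forall_notMem]
  rintro x ⟨h1, h2, h3, h4⟩
  have hs := trip_norm_sq u v w hu hv hw
  have h5 : (3 : ℝ) < inner ℝ (u + v + w) x := by
    rw [inner_add_left, inner_add_left]; linarith
  have h6 : inner ℝ (u + v + w) x ≤ ‖u + v + w‖ * ‖x‖ := real_inner_le_norm _ _
  have h7 : (3 : ℝ) < ‖u + v + w‖ * ‖x‖ := lt_of_lt_of_le h5 h6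
  have h8 : (9 : ℝ) < ‖u + v + w‖ ^ 2 * ‖x‖ ^ 2 := by nlinarith
  have h9 : ‖x‖ ^ 2 ≤ 1.216 ^ 2 := pow_le_pow_left₀ (norm_nonneg _) (h1.trans hr) 2
  have h10 : ‖u + v + w‖ ^ 2 ≤ 6.084 := by rw [hs]; linarith
  have h11 : ‖u + v + w‖ ^ 2 * ‖x‖ ^ 2 ≤ 6.084 * 1.216 ^ 2 :=
    mul_le_mul h10 h9 (sq_nonneg _) (by norm_num)
  norm_num at h11
  linarith

theorem trip_R0_sq : R0 ^ 2 = 3 * (5 - 2 * Real.sqrt 5) := by
  have h5 : Real.sqrt 5 ^ 2 = 5 := Real.sq_sqrt (by norm_num)
  have hs0 : 0 < Real.sqrt 5 := Real.sqrt_pos.2 (by norm_num)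
  have hc : Real.cos (Real.pi / 5) = (1 + Real.sqrt 5) / 4 := Real.cos_pi_div_five
  have hc0 : Real.cos (Real.pi / 5) ≠ 0 := by rw [hc]; positivity
  have hsin : Real.sin (Real.pi / 5) ^ 2 = 1 - ((1 + Real.sqrt 5) / 4) ^ 2 := by
    rw [← hc]; have := Real.sin_sq_add_cos_sq (Real.pi / 5); linarith
  have h3 : Real.sqrt 3 ^ 2 = 3 := Real.sq_sqrt (by norm_num)
  rw [R0, mul_pow, h3, Real.tan_eq_sin_div_cos, div_pow, hsin, hc]
  have : ((1 + Real.sqrt 5) / 4) ^ 2 ≠ 0 := by positivity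
  field_simp
  nlinarith

/-- volume of the corner simplex -/
theorem trip_simplex (s : ℝ) :
    volume {z : Fin 3 → ℝ | (∀ i, 0 < z i) ∧ ∑ i, z i ≤ s} ≤ ENNReal.ofReal (s ^ 3 / 6) := by
  rcases le_or_gt s 0 with hs | hs
  · have : {z : Fin 3 → ℝ | (∀ i, 0 < z i) ∧ ∑ i, z i ≤ s} = ∅ := by
      rw [Set.eq_empty_iff_forall_notMem]
      rintro z ⟨h1, h2⟩
      have : 0 < ∑ i, z i := Finset.sum_pos (fun i _ => h1 i) Finset.univ_nonempty
      linarith
    rw [this]
    simp
  · set T : Set (Fin 3 → ℝ) := {z : Fin 3 → ℝ | (∀ i, 0 < z i) ∧ ∑ i, z i ≤ s} with hT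
    set B : Set (Fin 3 → ℝ) := {x : Fin 3 → ℝ | (∑ i, |x i| ^ (1 : ℝ)) ^ (1 / (1 : ℝ)) ≤ s} with hB
    have hBv : volume B = ENNReal.ofReal (8 * (s ^ 3 / 6)) := by
      rw [hB, MeasureTheory.volume_sum_rpow_le (Fin 3) le_rfl s, Fintype.card_fin,
        ← ENNReal.ofReal_pow hs.le, ← ENNReal.ofReal_mul (by positivity)]
      congr 1
      have e1 : Real.Gamma (1 / 1 + 1) = 1 := by
        rw [show (1 / 1 + 1 : ℝ) = 2 by norm_num]; exact Real.Gamma_two
      have e2 : Real.Gamma (((3 : ℕ) : ℝ) / 1 + 1) = 6 := by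
        rw [show (((3 : ℕ) : ℝ) / 1 + 1 : ℝ) = ((3 : ℕ) : ℝ) + 1 by norm_num,
          Real.Gamma_nat_eq_factorial]
        norm_num [Nat.factorial]
      rw [e1, e2]
      ring
    have hTm : MeasurableSet T := by
      have : T = (⋂ i, {z : Fin 3 → ℝ | 0 < z i}) ∩ {z | ∑ i, z i ≤ s} := by
        ext z; simp [hT]
      rw [this]
      refine MeasurableSet.inter (MeasurableSet.iInter fun i => ?_) ?_
      · exact measurableSet_lt measurable_const (measurable_pi_apply i)
      · exact measurableSet_le (Finset.measurable_sum _ fun i _ => measurable_pi_apply i)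
          measurable_const
    -- reflections
    set g : (Fin 3 → Bool) → (Fin 3 → ℝ) → (Fin 3 → ℝ) :=
      fun ε z i => if ε i then -z i else z i with hg
    have hgm : ∀ ε, MeasurePreserving (g ε) := by
      intro ε
      have := volume_preserving_pi (ι := Fin 3) (α' := fun _ => ℝ) (β' := fun _ => ℝ)
        (f := fun i x => if ε i then -x else x) (fun i => by
          cases ε i
          · simp only [Bool.false_eq_true, if_false]
            exact MeasurePreserving.id volume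
          · simpa using Measure.measurePreserving_neg (volume : Measure ℝ))
      exact this
    have hsum : ∑ ε : Fin 3 → Bool, volume (g ε ⁻¹' T) = 8 * volume T := by
      have : ∀ ε : Fin 3 → Bool, volume (g ε ⁻¹' T) = volume T := fun ε =>
        (hgm ε).measure_preimage hTm.nullMeasurableSet
      rw [Finset.sum_congr rfl fun ε _ => this ε, Finset.sum_const]
      simp
    have hdis : Pairwise (Function.onFun Disjoint fun ε => g ε ⁻¹' T) := by
      intro ε ε' hne
      rw [Function.onFun, Set.disjoint_left]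
      intro z h1 h2
      apply hne
      funext i
      have a1 := h1.1 i
      have a2 := h2.1 i
      simp only [hg] at a1 a2
      rcases he : ε i with _ | _ <;> rcases he' : ε' i with _ | _ <;> simp_all <;> linarith
    have hle : volume (⋃ ε, g ε ⁻¹' T) ≤ volume B := by
      refine measure_mono (Set.iUnion_subset fun ε z hz => ?_)
      obtain ⟨h1, h2⟩ := hz
      rw [hB, Set.mem_ofPred_eq]
      simp only [Real.rpow_one, div_one]
      refine le_trans (le_of_eq ?_) h2
      refine Finset.sum_congr rfl fun i _ => ?_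
      have a1 := h1 i
      simp only [hg] at a1 ⊢
      rcases he : ε i with _ | _
      · simp [he] at a1 ⊢
        exact a1.le
      · simp [he] at a1 ⊢
        exact a1.le
    rw [measure_iUnion hdis (fun ε => (hgm ε).measurable hTm), tsum_fintype, hsum, hBv] at hle
    rw [ENNReal.ofReal_mul (by norm_num)] at hle
    have h8 : ENNReal.ofReal 8 = 8 := by norm_num
    rw [h8] at hle
    exact (ENNReal.mul_le_mul_iff_right (by norm_num) (by norm_num)).1 hle

theorem trip_det_bound (a b c : ℝ) (ha : 0.3136 ≤ a) (hb : 0.3136 ≤ b) (hc : 0.3136 ≤ c)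
    (ha' : a ≤ 0.514) (hb' : b ≤ 0.514) (hc' : c ≤ 0.514) :
    0.479 ≤ 1 + 2 * a * b * c - a ^ 2 - b ^ 2 - c ^ 2 := by
  have h1 : 0 ≤ (0.514 - a) * (0.514 + a - 2 * (b * c)) := by
    refine mul_nonneg (by linarith) ?_
    have : b * c ≤ 0.514 * 0.514 := mul_le_mul hb' hc' (by linarith) (by norm_num)
    norm_num at this ⊢
    linarith
  have h2 : 0 ≤ (0.514 - b) * (0.514 + b - 2 * (0.514 * c)) := by
    refine mul_nonneg (by linarith) ?_
    norm_num
    linarith
  have h3 : 0 ≤ (0.514 - c) * (0.514 + c - 2 * (0.514 * 0.514)) := by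
    refine mul_nonneg (by linarith) ?_
    norm_num
    linarith
  norm_num at h1 h2 h3 ⊢
  nlinarith

theorem trip_volume (r : ℝ) (hr0 : 0 < r) (hr : r ≤ R0) (u v w : E3) (hu : ‖u‖ = 1) (hv : ‖v‖ = 1) (hw : ‖w‖ = 1)
    (huv : inner ℝ u v ≤ (0.514 : ℝ)) (huw : inner ℝ u w ≤ (0.514 : ℝ)) (hvw : inner ℝ v w ≤ (0.514 : ℝ)) :
    (volume {x : E3 | ‖x‖ ≤ r ∧ 1 < inner ℝ u x ∧ 1 < inner ℝ v x ∧ 1 < inner ℝ w x}).toReal ≤
      0.0355 * (max 0 (inner ℝ u v + inner ℝ u w + inner ℝ v w - 3 * a5)) ^ 3 := by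
  set a : ℝ := inner ℝ u v with ha
  set b : ℝ := inner ℝ u w with hb
  set c : ℝ := inner ℝ v w with hc
  set X : ℝ := a + b + c - 3 * a5 with hX
  have h5 : Real.sqrt 5 ^ 2 = 5 := Real.sq_sqrt (by norm_num)
  have hs0 : 0 < Real.sqrt 5 := Real.sqrt_pos.2 (by norm_num)
  have hs1 : 2.236 < Real.sqrt 5 := by
    rw [Real.lt_sqrt (by norm_num)]; norm_num
  have hs2 : Real.sqrt 5 < 2.2361 := by
    rw [Real.sqrt_lt' (by norm_num)]; norm_num
  have ha5 : a5 * Real.sqrt 5 = 1 := by rw [a5]; field_simp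
  have ha5' : 0.4472 < a5 := by
    rw [a5, lt_div_iff₀ hs0]; linarith
  set β : ℝ := 5 - 2 * Real.sqrt 5 with hβ
  have hβ0 : 0 < β := by rw [hβ]; linarith
  have hβ1 : β < 0.528 := by rw [hβ]; linarith
  have hβa : β * (1 + 2 * a5) = 1 := by
    have : β * (1 + 2 * a5) = 5 - 2 * Real.sqrt 5 + 10 * a5 - 4 * (a5 * Real.sqrt 5) := by
      rw [hβ]; ring
    rw [this, ha5]
    have : 10 * a5 = 2 * Real.sqrt 5 := by
      have h6 : 10 * a5 * Real.sqrt 5 = 2 * Real.sqrt 5 * Real.sqrt 5 := by nlinarith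
      exact mul_right_cancel₀ hs0.ne' h6
    rw [this]; ring
  have hRsq : R0 ^ 2 = 3 * β := trip_R0_sq
  have hnorm := trip_norm_sq u v w hu hv hw
  rw [← ha, ← hb, ← hc] at hnorm
  have key : ∀ x : E3, ‖x‖ ≤ r →
      (inner ℝ u x - 1) + (inner ℝ v x - 1) + (inner ℝ w x - 1) ≤ β * X := by
    intro x hx
    have h1 : 0 ≤ ‖x - β • (u + v + w)‖ ^ 2 := sq_nonneg _
    rw [norm_sub_sq_real, norm_smul, mul_pow, hnorm, Real.norm_of_nonneg hβ0.le, inner_smul_right,
      real_inner_comm, inner_add_left, inner_add_left] at h1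
    have h2 : ‖x‖ ^ 2 ≤ 3 * β := by
      rw [← hRsq]; exact pow_le_pow_left₀ (norm_nonneg _) (hx.trans hr) 2
    have h3 : 0 ≤ β * (2 * (β * X) - 2 * ((inner ℝ u x - 1) + (inner ℝ v x - 1) +
        (inner ℝ w x - 1))) := by
      have e : β ^ 2 * (3 + 2 * (a + b + c)) = 3 * β + 2 * β * (β * X) := by
        have : β ^ 2 * (3 + 2 * (a + b + c)) = 3 * β * (β * (1 + 2 * a5)) + 2 * β * (β * X) := by
          rw [hX]; ring
        rw [this, hβa]; ring
      nlinarith
    have h4 : 0 ≤ 2 * (β * X) - 2 * ((inner ℝ u x - 1) + (inner ℝ v x - 1) +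
        (inner ℝ w x - 1)) := nonneg_of_mul_nonneg_right h3 hβ0
    linarith
  rcases le_or_gt X 0 with hX0 | hX0
  · have : {x : E3 | ‖x‖ ≤ r ∧ 1 < inner ℝ u x ∧ 1 < inner ℝ v x ∧ 1 < inner ℝ w x} = ∅ := by
      rw [Set.eq_empty_iff_forall_notMem]
      rintro x ⟨h1, h2, h3, h4⟩
      have := key x h1
      have : β * X ≤ 0 := mul_nonpos_of_nonneg_of_nonpos hβ0.le hX0
      linarith
    rw [this, max_eq_left hX0]
    simp
  · rw [max_eq_right hX0.le]
    have hla : 0.3136 ≤ a := by linarith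
    have hlb : 0.3136 ≤ b := by linarith
    have hlc : 0.3136 ≤ c := by linarith
    have hD := trip_det_bound a b c hla hlb hlc huv huw hvw
    set M : Matrix (Fin 3) (Fin 3) ℝ := Matrix.of ![fun j => u j, fun j => v j, fun j => w j] with hM
    have hinner : ∀ p q : E3, inner ℝ p q = ∑ j, p j * q j := by
      intro p q
      rw [PiLp.inner_apply]
      exact Finset.sum_congr rfl fun j _ => by simp [mul_comm]
    have hdet : M.det ^ 2 = 1 + 2 * a * b * c - a ^ 2 - b ^ 2 - c ^ 2 := by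
      have e1 : M.det ^ 2 = (M * M.transpose).det := by
        rw [Matrix.det_mul, Matrix.det_transpose, sq]
      have e2 : M * M.transpose = !![1, a, b; a, 1, c; b, c, 1] := by
        have huu : ∑ j, u j * u j = 1 := by
          rw [← hinner, real_inner_self_eq_norm_sq, hu]; norm_num
        have hvv : ∑ j, v j * v j = 1 := by
          rw [← hinner, real_inner_self_eq_norm_sq, hv]; norm_num
        have hww : ∑ j, w j * w j = 1 := by
          rw [← hinner, real_inner_self_eq_norm_sq, hw]; norm_num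
        have e3 : ∑ j, u j * v j = a := by rw [← hinner]
        have e4 : ∑ j, u j * w j = b := by rw [← hinner]
        have e5 : ∑ j, v j * w j = c := by rw [← hinner]
        have e3' : ∑ j, v j * u j = a := by rw [← hinner, real_inner_comm]
        have e4' : ∑ j, w j * u j = b := by rw [← hinner, real_inner_comm]
        have e5' : ∑ j, w j * v j = c := by rw [← hinner, real_inner_comm]
        ext i j
        rw [Matrix.mul_apply]
        fin_cases i <;> fin_cases j <;> simp [hM, Matrix.transpose_apply] <;> assumption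
      rw [e1, e2, Matrix.det_fin_three]
      simp
      ring
    have hdet0 : M.det ≠ 0 := by
      intro h0
      rw [h0] at hdet
      norm_num at hdet hD
      linarith
    have habs : 0.692 ≤ |M.det| := by
      refine le_of_sq_le_sq ?_ (abs_nonneg _)
      rw [sq_abs, hdet]
      norm_num at hD ⊢
      linarith
    -- transport to `Fin 3 → ℝ`
    set T : Set (Fin 3 → ℝ) := {z : Fin 3 → ℝ | (∀ i, 0 < z i) ∧ ∑ i, z i ≤ β * X} with hT
    have hmp : MeasurePreserving (@WithLp.ofLp 2 (Fin 3 → ℝ)) := PiLp.volume_preserving_ofLp (Fin 3)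
    have hTm : MeasurableSet T := by
      have : T = (⋂ i, {z : Fin 3 → ℝ | 0 < z i}) ∩ {z | ∑ i, z i ≤ β * X} := by
        ext z; simp [hT]
      rw [this]
      refine MeasurableSet.inter (MeasurableSet.iInter fun i => ?_) ?_
      · exact measurableSet_lt measurable_const (measurable_pi_apply i)
      · exact measurableSet_le (Finset.measurable_sum _ fun i _ => measurable_pi_apply i)
          measurable_const
    set T1 : Set (Fin 3 → ℝ) := (fun y => y - fun _ => (1 : ℝ)) ⁻¹' T with hT1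
    have hT1m : MeasurableSet T1 := (measurable_id.sub_const _) hTm
    have hT1v : volume T1 = volume T :=
      (measurePreserving_sub_right volume (fun _ => (1 : ℝ))).measure_preimage hTm.nullMeasurableSet
    have hlin : Measurable (Matrix.toLin' M) := (Matrix.toLin' M).continuous_of_finiteDimensional.measurable
    have hsub : {x : E3 | ‖x‖ ≤ r ∧ 1 < inner ℝ u x ∧ 1 < inner ℝ v x ∧ 1 < inner ℝ w x} ⊆
        (@WithLp.ofLp 2 (Fin 3 → ℝ)) ⁻¹' ((Matrix.toLin' M) ⁻¹' T1) := by
      rintro x ⟨h1, h2, h3, h4⟩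
      have hk := key x h1
      have c0 : (Matrix.toLin' M) (WithLp.ofLp x) 0 = inner ℝ u x := by
        rw [hinner, Matrix.toLin'_apply, Matrix.mulVec, dotProduct]
        exact Finset.sum_congr rfl fun j _ => by simp [hM]
      have c1 : (Matrix.toLin' M) (WithLp.ofLp x) 1 = inner ℝ v x := by
        rw [hinner, Matrix.toLin'_apply, Matrix.mulVec, dotProduct]
        exact Finset.sum_congr rfl fun j _ => by simp [hM]
      have c2 : (Matrix.toLin' M) (WithLp.ofLp x) 2 = inner ℝ w x := by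
        rw [hinner, Matrix.toLin'_apply, Matrix.mulVec, dotProduct]
        exact Finset.sum_congr rfl fun j _ => by simp [hM]
      rw [Set.mem_preimage, Set.mem_preimage, hT1, Set.mem_preimage, hT]
      refine ⟨fun i => ?_, ?_⟩
      · fin_cases i
        · show 0 < (Matrix.toLin' M) (WithLp.ofLp x) 0 - 1
          rw [c0]; linarith
        · show 0 < (Matrix.toLin' M) (WithLp.ofLp x) 1 - 1
          rw [c1]; linarith
        · show 0 < (Matrix.toLin' M) (WithLp.ofLp x) 2 - 1
          rw [c2]; linarith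
      · rw [Fin.sum_univ_three]
        show (Matrix.toLin' M) (WithLp.ofLp x) 0 - 1 + ((Matrix.toLin' M) (WithLp.ofLp x) 1 - 1) +
          ((Matrix.toLin' M) (WithLp.ofLp x) 2 - 1) ≤ β * X
        rw [c0, c1, c2]
        exact hk
    have hvol : volume {x : E3 | ‖x‖ ≤ r ∧ 1 < inner ℝ u x ∧ 1 < inner ℝ v x ∧ 1 < inner ℝ w x} ≤
        ENNReal.ofReal (0.0355 * X ^ 3) := by
      calc volume {x : E3 | ‖x‖ ≤ r ∧ 1 < inner ℝ u x ∧ 1 < inner ℝ v x ∧ 1 < inner ℝ w x}
          ≤ volume ((@WithLp.ofLp 2 (Fin 3 → ℝ)) ⁻¹' ((Matrix.toLin' M) ⁻¹' T1)) :=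
            measure_mono hsub
        _ = volume ((Matrix.toLin' M) ⁻¹' T1) :=
            hmp.measure_preimage (hlin hT1m).nullMeasurableSet
        _ = Measure.map (Matrix.toLin' M) volume T1 := (Measure.map_apply hlin hT1m).symm
        _ = ENNReal.ofReal (abs (M.det)⁻¹) * volume T := by
            rw [Real.map_matrix_volume_pi_eq_smul_volume_pi hdet0, Measure.smul_apply, hT1v,
              smul_eq_mul]
        _ ≤ ENNReal.ofReal (abs (M.det)⁻¹) * ENNReal.ofReal ((β * X) ^ 3 / 6) := by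
            gcongr
            exact trip_simplex _
        _ = ENNReal.ofReal (abs (M.det)⁻¹ * ((β * X) ^ 3 / 6)) := by
            rw [ENNReal.ofReal_mul (abs_nonneg _)]
        _ ≤ ENNReal.ofReal (0.0355 * X ^ 3) := by
            apply ENNReal.ofReal_le_ofReal
            have e1 : |(M.det)⁻¹| ≤ 1 / 0.692 := by
              rw [abs_inv, ← one_div]
              exact one_div_le_one_div_of_le (by norm_num) habs
            have e2 : β ^ 3 ≤ 0.52787 ^ 3 := by
              refine pow_le_pow_left₀ hβ0.le ?_ 3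
              have : 2.236067 < Real.sqrt 5 := by
                rw [Real.lt_sqrt (by norm_num)]; norm_num
              rw [hβ]; linarith
            have e3 : 0 < X ^ 3 := by positivity
            calc |(M.det)⁻¹| * ((β * X) ^ 3 / 6) ≤ (1 / 0.692) * ((β * X) ^ 3 / 6) :=
                  mul_le_mul_of_nonneg_right e1 (by positivity)
              _ = (1 / 0.692) * (β ^ 3 / 6) * X ^ 3 := by ring
              _ ≤ (1 / 0.692) * (0.52787 ^ 3 / 6) * X ^ 3 := by gcongr
              _ ≤ 0.0355 * X ^ 3 := by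
                  refine mul_le_mul_of_nonneg_right ?_ e3.le
                  norm_num
    exact ENNReal.toReal_le_of_le_ofReal (by positivity) hvol

end Pool.Agent.H54.V
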