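/-
JOB VOR-VA.  Lower bounds for the volume of P1 = Poly u 1 r (12 faces at height 1).
`P1_low`: the closed ball of radius r is P1 ∪ ⋃ C_i, C_i = {‖x‖ ≤ r, 1 < ⟪u i,x⟫}; `bonf_upper`, `cap_volume` (h = 1),
`lens_volume` (for ⟪u i,u j⟫ > -1; if it is -1 then C_i ∩ C_j = ∅ and lens r (-1) = 0; 1 < r).
`VA`, `VH1`, `VH2`: A = lens r a5/gA a5, B = Bc r (≥ 0 by `Bc_nonneg`, `lens_nonneg`).
 r ≤ 1.216: the triples are empty (`trip_empty`), lens ≥ gA (A + B(t-a5)) (`lens_ge`), then `lp12` (30 A gA a5 = 30 lens r a5,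
 so 4/3πr³ - 12 capV r 1 + 30 lens r a5 = V12 r), resp. `lp12hole1`, `lp12hole2`.
 r ≥ 1.216 (only `VA`): lens r t ≥ gA (A + B (t-a5)) + .043 (max 0 (t-a5))² (`lens_room` for t ≥ a5, `lens_ge` else),
 volume of the triples ≤ .0355 (max 0 (...))³ (`trip_volume`), `tsum`, `lp12`.
-/
import Pool.Agent.H54.V.J.Cap
import Pool.Agent.H54.V.J.Lens
import Pool.Agent.H54.V.J.Trip
import Pool.Agent.H54.V.J.Bonf
import Pool.Agent.H54.V.J.LensLow
import Pool.Agent.H54.V.J.LP12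
import Pool.Agent.H54.V.J.TSum
set_option autoImplicit false
open MeasureTheory
namespace Pool.Agent.H54.V

theorem va_pairSum_mono {n : ℕ} {f g : Fin n → Fin n → ℝ} (h : ∀ i j, i < j → f i j ≤ g i j) :
    pairSum f ≤ pairSum g := by
  unfold pairSum
  refine Finset.sum_le_sum fun i _ => Finset.sum_le_sum fun j _ => ?_
  split_ifs with hij
  · exact h i j hij
  · exact le_rfl

theorem va_tripSum_mono {n : ℕ} {f g : Fin n → Fin n → Fin n → ℝ}
    (h : ∀ i j k, i < j → j < k → f i j k ≤ g i j k) : tripSum f ≤ tripSum g := by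
  unfold tripSum
  refine Finset.sum_le_sum fun i _ => Finset.sum_le_sum fun j _ => Finset.sum_le_sum fun k _ => ?_
  split_ifs with hij
  · exact h i j k hij.1 hij.2
  · exact le_rfl

theorem va_pairSum_congr {n : ℕ} {f g : Fin n → Fin n → ℝ} (h : ∀ i j, i < j → f i j = g i j) :
    pairSum f = pairSum g :=
  le_antisymm (va_pairSum_mono fun i j hij => (h i j hij).le)
    (va_pairSum_mono fun i j hij => (h i j hij).ge)

theorem va_pairSum_add {n : ℕ} (f g : Fin n → Fin n → ℝ) :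
    pairSum (fun i j => f i j + g i j) = pairSum f + pairSum g := by
  unfold pairSum
  rw [← Finset.sum_add_distrib]
  refine Finset.sum_congr rfl fun i _ => ?_
  rw [← Finset.sum_add_distrib]
  refine Finset.sum_congr rfl fun j _ => ?_
  split_ifs <;> simp

/-- the caps -/
def vaC (u : Fin 12 → E3) (r : ℝ) (i : Fin 12) : Set E3 := {x | ‖x‖ ≤ r ∧ 1 < inner ℝ (u i) x}

theorem vaC_meas (u : Fin 12 → E3) (r : ℝ) (i : Fin 12) : MeasurableSet (vaC u r i) := by
  refine MeasurableSet.inter ?_ ?_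
  · exact measurableSet_le (f := fun x : E3 => ‖x‖) (by fun_prop) measurable_const
  · exact measurableSet_lt measurable_const (g := fun x : E3 => inner ℝ (u i) x) (by fun_prop)

theorem va_inner_ge (u v : E3) (hu : ‖u‖ = 1) (hv : ‖v‖ = 1) : -1 ≤ inner ℝ u v := by
  have h := abs_real_inner_le_norm u v
  rw [hu, hv, one_mul] at h
  exact (abs_le.mp h).1

theorem va_lens_vol (r : ℝ) (h1 : 1 < r) (u v : E3) (hu : ‖u‖ = 1) (hv : ‖v‖ = 1)
    (huv : inner ℝ u v ≤ (0.514 : ℝ)) :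
    (volume {x : E3 | ‖x‖ ≤ r ∧ 1 < inner ℝ u x ∧ 1 < inner ℝ v x}).toReal =
      lens r (inner ℝ u v) := by
  have h2 := va_inner_ge u v hu hv
  rcases h2.lt_or_eq with h | h
  · rw [lens_volume r h1 (inner ℝ u v) h (by linarith) u v hu hv rfl,
      ENNReal.toReal_ofReal (lens_nonneg r _ h2)]
  · have h3 : {x : E3 | ‖x‖ ≤ r ∧ 1 < inner ℝ u x ∧ 1 < inner ℝ v x} = ∅ := by
      rw [Set.eq_empty_iff_forall_notMem]
      rintro x ⟨-, h5, h6⟩
      have h7 : ‖u + v‖ ^ 2 = 0 := by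
        rw [← real_inner_self_eq_norm_sq]
        simp only [inner_add_left, inner_add_right, real_inner_self_eq_norm_sq, hu, hv]
        rw [real_inner_comm u v, ← h]
        norm_num
      have h8 : u + v = 0 := by
        rw [← norm_eq_zero]
        exact pow_eq_zero_iff (two_ne_zero) |>.mp h7
      have h9 : inner ℝ (u + v) x = inner ℝ u x + inner ℝ v x := inner_add_left _ _ _
      rw [h8, inner_zero_left] at h9
      linarith
    rw [h3, ← h]
    simp [lens]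

theorem va_ball (r : ℝ) (h1 : 1 < r) :
    (volume (Metric.closedBall (0 : E3) r)).toReal = 4 / 3 * Real.pi * r ^ 3 := by
  rw [EuclideanSpace.volume_closedBall_fin_three, ← ENNReal.ofReal_pow (by linarith),
    ← ENNReal.ofReal_mul (by positivity), ENNReal.toReal_ofReal (by positivity)]
  ring

theorem va_split (r : ℝ) (h1 : 1 < r) (u : Fin 12 → E3) :
    VP u (fun _ => 1) r = 4 / 3 * Real.pi * r ^ 3 - (volume (⋃ i, vaC u r i)).toReal := by
  have hU : MeasurableSet (⋃ i, vaC u r i) := MeasurableSet.iUnion fun i => vaC_meas u r i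
  have hsub : (⋃ i, vaC u r i) ⊆ Metric.closedBall (0 : E3) r := by
    intro x hx
    obtain ⟨i, hi⟩ := Set.mem_iUnion.mp hx
    rw [mem_closedBall_zero_iff]
    exact hi.1
  have hP : Poly u (fun _ => 1) r = Metric.closedBall (0 : E3) r \ (⋃ i, vaC u r i) := by
    ext x
    rw [Set.mem_sdiff, mem_closedBall_zero_iff, Set.mem_iUnion]
    constructor
    · rintro ⟨h2, h3⟩
      refine ⟨h2, ?_⟩
      rintro ⟨i, -, hi⟩
      exact absurd (h3 i) (not_le.2 hi)
    · rintro ⟨h2, h3⟩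
      refine ⟨h2, fun i => ?_⟩
      by_contra h4
      exact h3 ⟨i, h2, not_le.1 h4⟩
  have hfin : volume (⋃ i, vaC u r i) ≠ ⊤ :=
    ne_top_of_le_ne_top (measure_closedBall_lt_top (μ := volume) (x := (0 : E3)) (r := r)).ne
      (measure_mono hsub)
  unfold VP
  rw [hP, measure_sdiff hsub hU.nullMeasurableSet hfin, ENNReal.toReal_sub_of_le
    (measure_mono hsub) (measure_closedBall_lt_top (μ := volume) (x := (0 : E3)) (r := r)).ne,
    va_ball r h1]

theorem P1_low (r : ℝ) (h1 : 1 < r) (u : Fin 12 → E3) (hu : ∀ i, ‖u i‖ = 1)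
    (huu : ∀ i j, i ≠ j → inner ℝ (u i) (u j) ≤ (0.514 : ℝ)) :
    4 / 3 * Real.pi * r ^ 3 - 12 * capV r 1 + pairSum (fun i j => lens r (inner ℝ (u i) (u j)))
      - tripSum (fun i j k =>
        (volume {x : E3 | ‖x‖ ≤ r ∧ 1 < inner ℝ (u i) x ∧ 1 < inner ℝ (u j) x ∧ 1 < inner ℝ (u k) x}).toReal)
      ≤ VP u (fun _ => 1) r := by
  have hcap : ∀ i, volume (vaC u r i) = ENNReal.ofReal (capV r 1) := fun i =>
    cap_volume r 1 (by norm_num) h1.le (u i) (hu i)
  have hcap0 : 0 ≤ capV r 1 := by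
    unfold capV
    have : 0 ≤ 2 * r + 1 := by linarith
    have := Real.pi_pos
    positivity
  have hfin : ∀ i, volume (vaC u r i) ≠ ⊤ := fun i => by
    rw [hcap i]; exact ENNReal.ofReal_ne_top
  have hb := bonf_upper (vaC u r) (vaC_meas u r) hfin
  have e1 : ∑ i, (volume (vaC u r i)).toReal = 12 * capV r 1 := by
    simp_rw [hcap, ENNReal.toReal_ofReal hcap0]
    rw [Finset.sum_const, Finset.card_univ, Fintype.card_fin]
    simp
  have e2 : pairSum (fun i j => (volume (vaC u r i ∩ vaC u r j)).toReal) =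
      pairSum (fun i j => lens r (inner ℝ (u i) (u j))) := by
    refine va_pairSum_congr fun i j hij => ?_
    rw [← va_lens_vol r h1 (u i) (u j) (hu i) (hu j) (huu i j hij.ne)]
    congr 2
    ext x
    constructor
    · rintro ⟨⟨h2, h3⟩, -, h4⟩
      exact ⟨h2, h3, h4⟩
    · rintro ⟨h2, h3, h4⟩
      exact ⟨⟨h2, h3⟩, h2, h4⟩
  have e3 : tripSum (fun i j k => (volume (vaC u r i ∩ vaC u r j ∩ vaC u r k)).toReal) =
      tripSum (fun i j k => (volume {x : E3 | ‖x‖ ≤ r ∧ 1 < inner ℝ (u i) x ∧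
        1 < inner ℝ (u j) x ∧ 1 < inner ℝ (u k) x}).toReal) := by
    congr 1
    funext i j k
    congr 2
    ext x
    constructor
    · rintro ⟨⟨⟨h2, h3⟩, -, h4⟩, -, h5⟩
      exact ⟨h2, h3, h4, h5⟩
    · rintro ⟨h2, h3, h4, h5⟩
      exact ⟨⟨⟨h2, h3⟩, h2, h4⟩, h2, h5⟩
  rw [e1, e2, e3] at hb
  rw [va_split r h1 u]
  linarith

theorem P1_low' (r : ℝ) (h1 : 1 < r) (hr : r ≤ 1.216) (u : Fin 12 → E3) (hu : ∀ i, ‖u i‖ = 1)
    (huu : ∀ i j, i ≠ j → inner ℝ (u i) (u j) ≤ (0.514 : ℝ)) :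
    4 / 3 * Real.pi * r ^ 3 - 12 * capV r 1 + pairSum (fun i j => lens r (inner ℝ (u i) (u j)))
      ≤ VP u (fun _ => 1) r := by
  have h := P1_low r h1 u hu huu
  have h2 : tripSum (fun i j k => (volume {x : E3 | ‖x‖ ≤ r ∧ 1 < inner ℝ (u i) x ∧
      1 < inner ℝ (u j) x ∧ 1 < inner ℝ (u k) x}).toReal) ≤ 0 := by
    have h3 : tripSum (fun i j k => (volume {x : E3 | ‖x‖ ≤ r ∧ 1 < inner ℝ (u i) x ∧
      1 < inner ℝ (u j) x ∧ 1 < inner ℝ (u k) x}).toReal) ≤
      tripSum (fun _ _ _ : Fin 12 => (0 : ℝ)) := by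
      refine va_tripSum_mono fun i j k hij hjk => ?_
      rw [trip_empty r hr (u i) (u j) (u k) (hu i) (hu j) (hu k) (huu i j hij.ne)
        (huu i k (hij.trans hjk).ne) (huu j k hjk.ne)]
      simp
    refine h3.trans (le_of_eq ?_)
    simp [tripSum]
  linarith

theorem va_gA : 0 < gA a5 := by
  have h := a5_bounds
  unfold gA
  have h1 : 0 < a5 := by linarith [h.1]
  positivity

theorem va_A (r : ℝ) : 30 * (lens r a5 / gA a5) * gA a5 = 30 * lens r a5 := by
  have h := va_gA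
  field_simp

theorem va_A0 (r : ℝ) : 0 ≤ lens r a5 / gA a5 := by
  have h := a5_bounds
  exact div_nonneg (lens_nonneg r a5 (by linarith [h.1])) va_gA.le

theorem VA (r : ℝ) (h1 : 1 < r) (hr : r ≤ R0) (u : Fin 12 → E3) (hu : ∀ i, ‖u i‖ = 1)
    (huu : ∀ i j, i ≠ j → inner ℝ (u i) (u j) ≤ (0.514 : ℝ)) : V12 r ≤ VP u (fun _ => 1) r := by
  have hl := lp12 (lens r a5 / gA a5) (Bc r) (va_A0 r) (Bc_nonneg r h1 hr) u hu
  rw [va_A] at hl
  have ht : ∀ i j, -1 ≤ inner ℝ (u i) (u j) := fun i j => va_inner_ge _ _ (hu i) (hu j)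
  unfold V12
  rcases le_total r 1.216 with h2 | h2
  · have h3 := P1_low' r h1 h2 u hu huu
    have h4 : pairSum (fun i j => gA (inner ℝ (u i) (u j)) * (lens r a5 / gA a5 +
        Bc r * (inner ℝ (u i) (u j) - a5))) ≤ pairSum (fun i j => lens r (inner ℝ (u i) (u j))) :=
      va_pairSum_mono fun i j hij => lens_ge r h1 hr _ (ht i j) (huu i j hij.ne)
    linarith
  · have h3 := P1_low r h1 u hu huu
    have h4 : pairSum (fun i j => gA (inner ℝ (u i) (u j)) * (lens r a5 / gA a5 +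
        Bc r * (inner ℝ (u i) (u j) - a5)) + 0.043 * (max 0 (inner ℝ (u i) (u j) - a5)) ^ 2) ≤
        pairSum (fun i j => lens r (inner ℝ (u i) (u j))) := by
      refine va_pairSum_mono fun i j hij => ?_
      rcases le_total a5 (inner ℝ (u i) (u j)) with h5 | h5
      · rw [max_eq_right (sub_nonneg.2 h5)]
        exact lens_room r h2 hr _ h5 (huu i j hij.ne)
      · rw [max_eq_left (sub_nonpos.2 h5)]
        have := lens_ge r h1 hr _ (ht i j) (huu i j hij.ne)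
        simpa using this
    rw [va_pairSum_add] at h4
    have h5 := tsum u hu huu
    have h6 : tripSum (fun i j k => (volume {x : E3 | ‖x‖ ≤ r ∧ 1 < inner ℝ (u i) x ∧
        1 < inner ℝ (u j) x ∧ 1 < inner ℝ (u k) x}).toReal) ≤
        tripSum (fun i j k => 0.0355 * (max 0 (inner ℝ (u i) (u j) + inner ℝ (u i) (u k) +
          inner ℝ (u j) (u k) - 3 * a5)) ^ 3) :=
      va_tripSum_mono fun i j k hij hjk => trip_volume r (by linarith) hr (u i) (u j) (u k)
        (hu i) (hu j) (hu k) (huu i j hij.ne) (huu i k (hij.trans hjk).ne) (huu j k hjk.ne)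
    linarith

theorem VH1 (r : ℝ) (h1 : 1 < r) (hr : r ≤ 1.216) (u : Fin 12 → E3) (hu : ∀ i, ‖u i‖ = 1)
    (huu : ∀ i j, i ≠ j → inner ℝ (u i) (u j) ≤ (0.514 : ℝ)) (z : E3) (hz : ‖z‖ = 1)
    (huz : ∀ i, inner ℝ (u i) z ≤ (0.64 : ℝ)) :
    V12 r + Bc r * (0.2995 - 1.6 * ∑ i, max 0 (inner ℝ (u i) z - 0.595)) ≤ VP u (fun _ => 1) r := by
  have hR : r ≤ R0 := by linarith [R0_bounds.1]
  have hl := lp12hole1 (lens r a5 / gA a5) (Bc r) (va_A0 r) (Bc_nonneg r h1 hR) u hu z hz huz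
  rw [va_A] at hl
  have ht : ∀ i j, -1 ≤ inner ℝ (u i) (u j) := fun i j => va_inner_ge _ _ (hu i) (hu j)
  unfold V12
  have h3 := P1_low' r h1 hr u hu huu
  have h4 : pairSum (fun i j => gA (inner ℝ (u i) (u j)) * (lens r a5 / gA a5 +
      Bc r * (inner ℝ (u i) (u j) - a5))) ≤ pairSum (fun i j => lens r (inner ℝ (u i) (u j))) :=
    va_pairSum_mono fun i j hij => lens_ge r h1 hR _ (ht i j) (huu i j hij.ne)
  linarith

theorem VH2 (r : ℝ) (h1 : 1 < r) (hr : r ≤ 1.216) (u : Fin 12 → E3) (hu : ∀ i, ‖u i‖ = 1)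
    (huu : ∀ i j, i ≠ j → inner ℝ (u i) (u j) ≤ (0.514 : ℝ)) (z : E3) (hz : ‖z‖ = 1)
    (huz : ∀ i, inner ℝ (u i) z ≤ (0.64 : ℝ)) :
    V12 r + Bc r * (0.2472 - 1.6 * ∑ i, max 0 (inner ℝ (u i) z - 0.605)) ≤ VP u (fun _ => 1) r := by
  have hR : r ≤ R0 := by linarith [R0_bounds.1]
  have hl := lp12hole2 (lens r a5 / gA a5) (Bc r) (va_A0 r) (Bc_nonneg r h1 hR) u hu z hz huz
  rw [va_A] at hl
  have ht : ∀ i j, -1 ≤ inner ℝ (u i) (u j) := fun i j => va_inner_ge _ _ (hu i) (hu j)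
  unfold V12
  have h3 := P1_low' r h1 hr u hu huu
  have h4 : pairSum (fun i j => gA (inner ℝ (u i) (u j)) * (lens r a5 / gA a5 +
      Bc r * (inner ℝ (u i) (u j) - a5))) ≤ pairSum (fun i j => lens r (inner ℝ (u i) (u j))) :=
    va_pairSum_mono fun i j hij => lens_ge r h1 hR _ (ht i j) (huu i j hij.ne)
  linarith

end Pool.Agent.H54.V
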