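/-
JOB VOR-VB.  Numerical inequalities for r ≤ 1.21.
`Bc_low`: y(r) = r² - 2/(1+a5), 2/(1+a5) ∈ (1.38196, 1.38198).  lam r a5 = (2/3) y^{3/2}/√.8; lens r a5 = ∫_{t0}^{a5} lam,
 and for s ≤ a5: r² - 2/(1+s) ≤ y - (2/(1+a5)²)(a5 - s) (concavity), √(1-s²) ≥ √(1-a5²) for |s| ≤ a5, so
 lens r a5 ≤ lam r a5·(2/5) y (1+a5)²/2 ≤ .4189 y lam r a5.  With gA a5 = .8(1+a5) ≈ 1.15777 and 1.6 + 4 a5 ≈ 3.38885:
 Bc r ≥ lam r a5 (1.15776 - 3.38889·.4189 y)/1.34045, lam r a5 ≥ .74535 y^{3/2}; so Bc r ≥ y^{3/2} (.6437 - .7894 y).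
 (statement with a lower bound y0 of y: the function y ↦ y^{3/2}(.6437-.7894 y) is increasing on [0,.0822].)
`Bc_up`: Bc r ≤ lam r a5/gA a5 ≤ .0176/1.157 ≤ .02.
`vb1`: 2 capP r (1+δ) = (2π/3)(r-1-δ)²(2r+1+δ) for δ < r - 1, else 0.  Minimum of the difference .00074 at r = 1.21, δ = .189.
 Suggestion: x = r - 1 - δ ∈ (0, .054]; capP ≤ 7.57 x²/2...; cases δ ≤ .172: .92 (.182-δ) alone suffices together with
 .2995 Bc (r = 1.21, δ = .172: .0092 + .0041 against .01087); δ ∈ (.172,.18]: s ≥ .009; (.18,.189]: s ≥ .189 - δ; (.189,.19]: s ≥ 0.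
 For r < 1.2 the Bc-term is only needed when δ > .188.
`vb2`: δ ≥ .19: 2 capP r (1+δ) ≤ 2 capP r 1.19 = (2π/3)(r-1.19)²(2r+1.19) for r > 1.19, ≤ .2472 Bc r; minimum of the difference
 .00034 at r = 1.21 (.2472 Bc ≥ .003368 against .003025), .0010 at r = 1.19.
`vc1`, `vc2`: r = 1.21: minimum of the difference .0014 (at δ = .189), .0016.
`v1210`: 4/3 π 1.21³ - 12 capV 1.21 1 = 1.758793333 π ≥ 5.525412.
-/
import Pool.Agent.H54.V.J.LensLow
import Pool.Agent.H54.V.J.Fin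
set_option autoImplicit false
open MeasureTheory
namespace Pool.Agent.H54.V

/-! the upper bound of the lens -/

/-- `L(t) ≤ (2/5) (t - t0) (1 + (t - t0)/2) λ(t)` for `t0 ≥ 0.36`, `t ≤ 0.45` -/
theorem vb_LL_upper (r t0 t : ℝ) (hr : 0 < r) (h0 : 0.36 ≤ t0) (h1 : t0 ≤ t) (h2 : t ≤ 0.45) :
    llPrim r t0 t ≤ 2 / 5 * (((t - t0) + (t - t0) ^ 2 / 2) * llNu r t0 t) := by
  norm_num at h0 h2
  have hd : ∀ s ∈ Set.Ioo t0 (9 / 20 : ℝ), HasDerivAt
      (fun s => 2 / 5 * (((s - t0) + (s - t0) ^ 2 / 2) * llNu r t0 s) - llPrim r t0 s)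
      (2 / 5 * ((1 + (2 * (s - t0) ^ 1 * 1) / 2) * llNu r t0 s + ((s - t0) + (s - t0) ^ 2 / 2) *
        (llNu r t0 s * (3 / (2 * (s - t0)) - 2 / (1 + s) + 1 / (2 * (1 - s))))) - llNu r t0 s) s := by
    intro s hs
    have hs1 := hs.1
    have hs2 := hs.2
    have e1 := ll_LL_deriv r t0 s (by linarith) (by linarith) (by linarith)
    have e2 := ll_nu_deriv r t0 s hs.1 (by linarith) (by linarith)
    have e3 : HasDerivAt (fun s : ℝ => s - t0) 1 s := (hasDerivAt_id s).sub_const t0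
    have e4 : HasDerivAt (fun s : ℝ => (s - t0) + (s - t0) ^ 2 / 2)
        (1 + (2 * (s - t0) ^ 1 * 1) / 2) s := by
      refine e3.fun_add ((e3.fun_pow 2).div_const 2) |>.congr_deriv ?_
      norm_num
    exact ((e4.fun_mul e2).const_mul (2 / 5)).fun_sub e1
  have hc : ContinuousOn (fun s => 2 / 5 * (((s - t0) + (s - t0) ^ 2 / 2) * llNu r t0 s) - llPrim r t0 s)
      (Set.Icc t0 (9 / 20 : ℝ)) := by
    have c1 : ContinuousOn (llPrim r t0) (Set.Icc t0 (9 / 20 : ℝ)) := fun s hs =>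
      (ll_LL_deriv r t0 s (by linarith) (by linarith [hs.1]) (by linarith [hs.2])).continuousAt.continuousWithinAt
    have c2 : ContinuousOn (llNu r t0) (Set.Icc t0 (9 / 20 : ℝ)) :=
      (ll_nu_cont r t0 (by linarith)).mono fun s hs => by
        rw [Set.mem_Iio]
        linarith [hs.2]
    fun_prop
  have hm : MonotoneOn (fun s => 2 / 5 * (((s - t0) + (s - t0) ^ 2 / 2) * llNu r t0 s) - llPrim r t0 s)
      (Set.Icc t0 (9 / 20 : ℝ)) := by
    apply monotoneOn_of_deriv_nonneg (convex_Icc _ _) hc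
    · rw [interior_Icc]
      intro s hs
      exact (hd s hs).differentiableAt.differentiableWithinAt
    · rw [interior_Icc]
      intro s hs
      rw [(hd s hs).deriv]
      have hs1 := hs.1
      have hs2 := hs.2
      have e1 : 0 < s - t0 := by linarith
      have e2 : 0 < 1 + s := by linarith
      have e3 : 0 < 1 - s := by linarith
      have e4 := ll_nu_nonneg r t0 s hr.le
      have e5 : 2 / 5 * ((1 + (2 * (s - t0) ^ 1 * 1) / 2) * llNu r t0 s + ((s - t0) + (s - t0) ^ 2 / 2) *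
        (llNu r t0 s * (3 / (2 * (s - t0)) - 2 / (1 + s) + 1 / (2 * (1 - s))))) - llNu r t0 s =
          llNu r t0 s * ((s - t0) * (7 / 10 - 2 / 5 * (1 + (s - t0) / 2) * (2 / (1 + s) - 1 / (2 * (1 - s))))) := by
        field_simp
        ring
      rw [e5]
      have e6 : 2 / (1 + s) - 1 / (2 * (1 - s)) ≤ 3 / 2 := by
        have e7 : 2 / (1 + s) ≤ 3 / 2 := by
          rw [div_le_iff₀ e2]
          linarith
        have e8 : 0 ≤ 1 / (2 * (1 - s)) := by positivity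
        linarith
      have e9 : 0 ≤ 7 / 10 - 2 / 5 * (1 + (s - t0) / 2) * (2 / (1 + s) - 1 / (2 * (1 - s))) := by
        have e10 : 2 / 5 * (1 + (s - t0) / 2) * (2 / (1 + s) - 1 / (2 * (1 - s))) ≤
            2 / 5 * (1 + (s - t0) / 2) * (3 / 2) := by
          apply mul_le_mul_of_nonneg_left e6
          positivity
        linarith
      positivity
  have h3 := hm ⟨le_refl _, h1.trans h2⟩ ⟨h1, h2⟩ h1
  simp only [ll_LL_zero r t0 t0 (by linarith) (le_refl _), sub_self, zero_mul, mul_zero, ne_eq,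
    OfNat.ofNat_ne_zero, not_false_eq_true, zero_pow, zero_div, add_zero] at h3
  linarith

theorem vb_c_lo : 1.38195 < 2 / (1 + a5) := by
  have h1 := ll_a5_hi
  have h2 := ll_a5_pos
  rw [lt_div_iff₀ (by linarith)]
  norm_num at h1 ⊢
  linarith

theorem vb_c_hi : 2 / (1 + a5) < 1.38198 := by
  have h1 := ll_a5_lo
  have h2 := ll_a5_pos
  rw [div_lt_iff₀ (by linarith)]
  norm_num at h1 ⊢
  linarith

theorem vb_gA : gA a5 = 0.8 * (1 + a5) := by
  have e2 := ll_a5_sq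
  unfold gA
  have e3 : (a5 + 1) * (a5 + a5) ^ 2 = 4 * a5 ^ 2 * (1 + a5) := by ring
  rw [e3, e2]
  norm_num

/-- the value of `lam` at `a5` -/
theorem vb_lam (r : ℝ) (h : 0 ≤ r ^ 2 - 2 / (1 + a5)) :
    lam r a5 = (2 / 3) / Real.sqrt 0.8 *
      ((r ^ 2 - 2 / (1 + a5)) * Real.sqrt (r ^ 2 - 2 / (1 + a5))) := by
  unfold lam
  rw [ll_rpow, ll_a5_sq]
  norm_num
  ring

theorem vb_sqrt_lo : 0.894427 < Real.sqrt 0.8 := by
  rw [Real.lt_sqrt (by norm_num)]
  norm_num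

theorem vb_sqrt_hi : Real.sqrt 0.8 < 0.894428 := by
  rw [Real.sqrt_lt' (by norm_num)]
  norm_num

/-- the lens at `a5` -/
theorem vb_lens (r : ℝ) (h1 : 1 < r) (hr : r ≤ 1.21) (h : 0 ≤ r ^ 2 - 2 / (1 + a5)) :
    lens r a5 ≤ 0.4189 * (r ^ 2 - 2 / (1 + a5)) * lam r a5 := by
  have ha := ll_a5_pos
  have ha1 := ll_a5_lt_one
  have a1 := ll_a5_lo
  have a2 := ll_a5_hi
  have hr2 : r ^ 2 ≤ 1.4641 := by
    norm_num at hr ⊢
    nlinarith
  have hr3 : 0 < r ^ 2 := by positivity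
  have c1 := vb_c_lo
  have hx : a5 - (2 / r ^ 2 - 1) = (1 + a5) * (r ^ 2 - 2 / (1 + a5)) / r ^ 2 := by
    field_simp
    ring
  have ht0 : 0.36 ≤ 2 / r ^ 2 - 1 := by
    have : 1.36 ≤ 2 / r ^ 2 := by
      rw [le_div_iff₀ hr3]
      norm_num at hr2 ⊢
      linarith
    norm_num at this ⊢
    linarith
  set Y := r ^ 2 - 2 / (1 + a5) with hY
  have hx0 : 0 ≤ a5 - (2 / r ^ 2 - 1) := by
    rw [hx]
    positivity
  have h3 := vb_LL_upper r (2 / r ^ 2 - 1) a5 (by linarith) ht0 (by linarith) (a2.le.trans (by norm_num))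
  rw [ll_lens_eq r a5 (by linarith) (by linarith) ha1]
  rw [← ll_lam_eq r a5 (by linarith) (by linarith) ha1] at h3
  refine h3.trans ?_
  have hl := ll_lam_nonneg r a5
  set x := a5 - (2 / r ^ 2 - 1) with hxd
  have key : 2 / 5 * (x + x ^ 2 / 2) ≤ 0.4189 * Y := by
    have hrY : r ^ 2 = Y + 2 / (1 + a5) := by rw [hY]; ring
    have hr4 : 1.38195 ≤ r ^ 2 := by
      rw [hrY]
      linarith
    -- x ≤ 1.0473 Y
    have x1 : x * r ^ 2 = (1 + a5) * Y := by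
      rw [hx]
      field_simp
    have hx2 : x ≤ 1.0473 * Y := by
      have : x * 1.38195 ≤ x * r ^ 2 := mul_le_mul_of_nonneg_left hr4 hx0
      norm_num at a2 this ⊢
      nlinarith
    have hY2 : Y ≤ 0.08215 := by
      rw [hY]
      norm_num at c1 hr2 ⊢
      linarith
    -- x (1 + x/2) r² ≤ 1.04725 Y r²
    have k1 : (x + x ^ 2 / 2) * r ^ 2 ≤ 1.04725 * Y * r ^ 2 := by
      have k2 : (x + x ^ 2 / 2) * r ^ 2 = (1 + a5) * Y * (1 + x / 2) := by
        have : (x + x ^ 2 / 2) * r ^ 2 = (x * r ^ 2) * (1 + x / 2) := by ring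
        rw [this, x1]
      rw [k2]
      have k3 : (1 + a5) * (1 + x / 2) ≤ 1.04725 * r ^ 2 := by
        rw [hrY]
        norm_num at a2 c1 hx2 hY2 ⊢
        nlinarith [mul_nonneg hx0 ha.le]
      have := mul_le_mul_of_nonneg_left k3 h
      nlinarith
    have k4 := le_of_mul_le_mul_right k1 hr3
    norm_num at k4 ⊢
    linarith
  have := mul_le_mul_of_nonneg_right key hl
  linarith

theorem vb_Bc_low' (r : ℝ) (h1 : 1 < r) (hr : r ≤ 1.21) (h : 0 ≤ r ^ 2 - 2 / (1 + a5)) :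
    (r ^ 2 - 2 / (1 + a5)) * Real.sqrt (r ^ 2 - 2 / (1 + a5)) *
      (0.6437 - 0.7894 * (r ^ 2 - 2 / (1 + a5))) ≤ Bc r := by
  have ha := ll_a5_pos
  have a1 := ll_a5_lo
  have a2 := ll_a5_hi
  have c1 := vb_c_lo
  have hr2 : r ^ 2 ≤ 1.4641 := by
    norm_num at hr ⊢
    nlinarith
  have hL := vb_lens r h1 hr h
  have hlam := vb_lam r h
  have hl := ll_lam_nonneg r a5
  have s1 := vb_sqrt_lo
  have s2 := vb_sqrt_hi
  set Y := r ^ 2 - 2 / (1 + a5) with hY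
  have hY2 : Y ≤ 0.08215 := by
    rw [hY]
    norm_num at c1 hr2 ⊢
    linarith
  have hg : 0 < gA a5 := ll_gA_pos a5 ha
  unfold Bc
  rw [le_div_iff₀ (by positivity), vb_gA]
  set P := Y * Real.sqrt Y with hP
  have hP0 : 0 ≤ P := by positivity
  have q1 : 0.745355 ≤ (2 / 3) / Real.sqrt 0.8 := by
    rw [le_div_iff₀ (by linarith [Real.sqrt_nonneg (0.8 : ℝ)])]
    norm_num at s2 ⊢
    linarith
  have q2 : 0.745355 * P ≤ lam r a5 := by
    rw [hlam]
    exact mul_le_mul_of_nonneg_right q1 hP0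
  have hG : 0 ≤ 1.15776 - 1.41961 * Y := by
    norm_num at hY2 ⊢
    linarith
  have q3 : lam r a5 * (1.15776 - 1.41961 * Y) ≤
      lam r a5 * (0.8 * (1 + a5)) - (1.6 + 4 * a5) * lens r a5 := by
    have q4 : (1.6 + 4 * a5) * lens r a5 ≤ 3.38888 * (0.4189 * Y * lam r a5) := by
      have q5 : 1.6 + 4 * a5 ≤ 3.38888 := by
        norm_num at a2 ⊢
        linarith
      have q6 : 0 ≤ 0.4189 * Y * lam r a5 := by positivity
      calc (1.6 + 4 * a5) * lens r a5 ≤ (1.6 + 4 * a5) * (0.4189 * Y * lam r a5) := by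
            apply mul_le_mul_of_nonneg_left hL
            positivity
        _ ≤ _ := mul_le_mul_of_nonneg_right q5 q6
    have q7 : lam r a5 * 1.15776 ≤ lam r a5 * (0.8 * (1 + a5)) := by
      apply mul_le_mul_of_nonneg_left _ hl
      norm_num at a1 ⊢
      linarith
    have q8 : 0 ≤ lam r a5 * Y := mul_nonneg hl h
    norm_num at q4 q7 q8 ⊢
    nlinarith
  refine le_trans ?_ q3
  have q9 : 0.745355 * P * (1.15776 - 1.41961 * Y) ≤ lam r a5 * (1.15776 - 1.41961 * Y) :=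
    mul_le_mul_of_nonneg_right q2 hG
  refine le_trans ?_ q9
  have q10 : (0.8 * (1 + a5)) ^ 2 ≤ 1.34045 := by
    have q11 : 0.8 * (1 + a5) ≤ 1.157776 := by
      norm_num at a2 ⊢
      linarith
    have q12 : 0 ≤ 0.8 * (1 + a5) := by positivity
    have := mul_le_mul q11 q11 q12 (by norm_num)
    norm_num at this ⊢
    nlinarith
  have q13 : 0 ≤ 0.6437 - 0.7894 * Y := by
    norm_num at hY2 ⊢
    linarith
  calc P * (0.6437 - 0.7894 * Y) * (0.8 * (1 + a5)) ^ 2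
      ≤ P * (0.6437 - 0.7894 * Y) * 1.34045 := by
        apply mul_le_mul_of_nonneg_left q10
        positivity
    _ ≤ 0.745355 * P * (1.15776 - 1.41961 * Y) := by
        have q14 : (0.6437 - 0.7894 * Y) * 1.34045 ≤ 0.745355 * (1.15776 - 1.41961 * Y) := by
          norm_num at h ⊢
          linarith
        have := mul_le_mul_of_nonneg_left q14 hP0
        linarith

/-- monotonicity of the bound -/
theorem vb_mono (y Y : ℝ) (h0 : 0 ≤ y) (h1 : y ≤ Y) (h2 : Y ≤ 0.08215) :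
    y * Real.sqrt y * (0.6437 - 0.7894 * y) ≤ Y * Real.sqrt Y * (0.6437 - 0.7894 * Y) := by
  have hY0 : 0 ≤ Y := h0.trans h1
  obtain ⟨q, hq, rfl⟩ : ∃ q : ℝ, 0 ≤ q ∧ q ^ 2 = y :=
    ⟨Real.sqrt y, Real.sqrt_nonneg _, Real.sq_sqrt h0⟩
  obtain ⟨p, hp, rfl⟩ : ∃ p : ℝ, 0 ≤ p ∧ p ^ 2 = Y :=
    ⟨Real.sqrt Y, Real.sqrt_nonneg _, Real.sq_sqrt hY0⟩
  rw [Real.sqrt_sq hq, Real.sqrt_sq hp]
  have hqp : q ≤ p := by
    by_contra hc
    push Not at hc
    nlinarith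
  have e1 : p ^ 2 * p * (0.6437 - 0.7894 * p ^ 2) - q ^ 2 * q * (0.6437 - 0.7894 * q ^ 2) =
      (p - q) * (0.6437 * (p ^ 2 + p * q + q ^ 2) -
        0.7894 * (p ^ 4 + p ^ 3 * q + p ^ 2 * q ^ 2 + p * q ^ 3 + q ^ 4)) := by
    ring
  have e2 : p ^ 4 + p ^ 3 * q + p ^ 2 * q ^ 2 + p * q ^ 3 + q ^ 4 ≤ 2 * p ^ 2 * (p ^ 2 + p * q + q ^ 2) := by
    have f1 : p * q ^ 3 ≤ p ^ 3 * q := by
      have : q * q ≤ p * p := mul_self_le_mul_self hq hqp
      nlinarith [mul_nonneg hp hq]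
    have f2 : q ^ 4 ≤ p ^ 2 * q ^ 2 := by
      have : q * q ≤ p * p := mul_self_le_mul_self hq hqp
      nlinarith [mul_nonneg hq hq]
    nlinarith [sq_nonneg (p ^ 2), mul_nonneg (mul_nonneg hp hp) (mul_nonneg hp hq)]
  have e3 : 0 ≤ p ^ 2 + p * q + q ^ 2 := by positivity
  have e4 : 2 * p ^ 2 * (p ^ 2 + p * q + q ^ 2) ≤ 2 * 0.08215 * (p ^ 2 + p * q + q ^ 2) := by
    apply mul_le_mul_of_nonneg_right _ e3
    linarith
  have e5 : 0 ≤ (p - q) * (0.6437 * (p ^ 2 + p * q + q ^ 2) -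
        0.7894 * (p ^ 4 + p ^ 3 * q + p ^ 2 * q ^ 2 + p * q ^ 3 + q ^ 4)) := by
    apply mul_nonneg (by linarith)
    norm_num at e2 e3 e4 ⊢
    linarith
  linarith

theorem Bc_low (r y : ℝ) (h1 : 1 < r) (hr : r ≤ 1.21) (hy0 : 0 ≤ y) (hy : y ≤ r ^ 2 - 1.38198) :
    y ^ (3 / 2 : ℝ) * (0.6437 - 0.7894 * y) ≤ Bc r := by
  have c1 := vb_c_lo
  have c2 := vb_c_hi
  have hr2 : r ^ 2 ≤ 1.4641 := by
    norm_num at hr ⊢
    nlinarith
  have hyY : y ≤ r ^ 2 - 2 / (1 + a5) := by linarith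
  have h3 := ll_rpow y
  rw [max_eq_left hy0] at h3
  rw [h3]
  refine (vb_mono y _ hy0 hyY ?_).trans (vb_Bc_low' r h1 hr (hy0.trans hyY))
  norm_num at c1 hr2 ⊢
  linarith

theorem Bc_up (r : ℝ) (h1 : 1 < r) (hr : r ≤ 1.21) : Bc r ≤ 0.02 := by
  have ha := ll_a5_pos
  have a1 := ll_a5_lo
  have c1 := vb_c_lo
  have hr2 : r ^ 2 ≤ 1.4641 := by
    norm_num at hr ⊢
    nlinarith
  have hg : 0 < gA a5 := ll_gA_pos a5 ha
  have hL : 0 ≤ lens r a5 := lens_nonneg r a5 (by linarith)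
  have hl : lam r a5 ≤ 0.0177 := by
    rcases le_or_gt 0 (r ^ 2 - 2 / (1 + a5)) with h | h
    · rw [vb_lam r h]
      have s1 := vb_sqrt_lo
      set Y := r ^ 2 - 2 / (1 + a5) with hY
      have hY2 : Y ≤ 0.08215 := by
        rw [hY]
        norm_num at c1 hr2 ⊢
        linarith
      have q1 : (2 / 3) / Real.sqrt 0.8 ≤ 0.74536 := by
        rw [div_le_iff₀ (by linarith [Real.sqrt_nonneg (0.8 : ℝ)])]
        norm_num at s1 ⊢
        linarith
      have q2 : Real.sqrt Y ≤ 0.28662 := by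
        rw [Real.sqrt_le_left (by norm_num)]
        refine hY2.trans ?_
        norm_num
      have q3 : Y * Real.sqrt Y ≤ 0.08215 * 0.28662 := mul_le_mul hY2 q2 (Real.sqrt_nonneg _) (by norm_num)
      calc (2 / 3) / Real.sqrt 0.8 * (Y * Real.sqrt Y) ≤ 0.74536 * (0.08215 * 0.28662) :=
            mul_le_mul q1 q3 (by positivity) (by norm_num)
        _ ≤ 0.0177 := by norm_num
    · unfold lam
      rw [max_eq_right h.le, Real.zero_rpow (by norm_num)]
      norm_num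
  unfold Bc
  rw [div_le_iff₀ (by positivity)]
  have q1 : lam r a5 * gA a5 - (1.6 + 4 * a5) * lens r a5 ≤ lam r a5 * gA a5 := by
    have : 0 ≤ (1.6 + 4 * a5) * lens r a5 := by positivity
    linarith
  refine q1.trans ?_
  have q2 : 1.1577 ≤ gA a5 := by
    rw [vb_gA]
    norm_num at a1 ⊢
    linarith
  have q3 : lam r a5 * gA a5 ≤ 0.0177 * gA a5 := mul_le_mul_of_nonneg_right hl hg.le
  have q4 : 0.0177 * gA a5 ≤ 0.02 * gA a5 * 1.1577 := by
    norm_num at hg ⊢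
    linarith
  have q5 : 0.02 * gA a5 * 1.1577 ≤ 0.02 * gA a5 * gA a5 := by
    apply mul_le_mul_of_nonneg_left q2
    positivity
  linarith

theorem capP_anti (r h k : ℝ) (h0 : 0 ≤ h) (hk : h ≤ k) (hr : 0 ≤ r) : capP r k ≤ capP r h := by
  unfold capP
  split_ifs with h1 h2 h2
  · unfold capV
    have hpi := Real.pi_pos
    have e1 : (r - k) ^ 2 * (2 * r + k) ≤ (r - h) ^ 2 * (2 * r + h) := by
      have e2 : (r - h) ^ 2 * (2 * r + h) - (r - k) ^ 2 * (2 * r + k) =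
          (k - h) * (3 * r ^ 2 - h ^ 2 - h * k - k ^ 2) := by ring
      have e3 : 0 ≤ (k - h) * (3 * r ^ 2 - h ^ 2 - h * k - k ^ 2) := by
        apply mul_nonneg (by linarith)
        nlinarith
      linarith
    have := mul_le_mul_of_nonneg_left e1 hpi.le
    have e4 : Real.pi * (r - k) ^ 2 * (2 * r + k) / 3 = Real.pi * ((r - k) ^ 2 * (2 * r + k)) / 3 := by ring
    have e5 : Real.pi * (r - h) ^ 2 * (2 * r + h) / 3 = Real.pi * ((r - h) ^ 2 * (2 * r + h)) / 3 := by ring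
    rw [e4, e5]
    linarith
  · exact absurd (hk.trans_lt h1) h2
  · unfold capV
    have hpi := Real.pi_pos
    positivity
  · exact le_rfl

theorem capP_nonneg (r h : ℝ) (h0 : 0 ≤ h) (hr : 0 ≤ r) : 0 ≤ capP r h := by
  unfold capP
  split_ifs with h1
  · unfold capV
    have hpi := Real.pi_pos
    positivity
  · exact le_rfl

/-! numerical part -/

theorem vb_pi : Real.pi < 3.1416 := by
  have := Real.pi_lt_d4
  exact this

/-- upper bound of a cap: `r ≤ ρ`, `x = ρ - h` -/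
theorem vb_cap (r ρ h : ℝ) (h0 : 0 ≤ h) (hr : 0 ≤ r) (hrρ : r ≤ ρ) (hh : h ≤ ρ) :
    2 * capP r h ≤ 2.0944 * ((ρ - h) ^ 2 * (2 * ρ + h)) := by
  have hpi := Real.pi_pos
  have hpi2 := vb_pi
  unfold capP
  split_ifs with h1
  · unfold capV
    have e1 : (r - h) ^ 2 * (2 * r + h) ≤ (ρ - h) ^ 2 * (2 * ρ + h) := by
      have e2 : (r - h) ^ 2 ≤ (ρ - h) ^ 2 := by
        apply pow_le_pow_left₀ (by linarith)
        linarith
      exact mul_le_mul e2 (by linarith) (by positivity) (by positivity)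
    have e3 : 0 ≤ (ρ - h) ^ 2 * (2 * ρ + h) := by
      have : 0 ≤ ρ := hr.trans hrρ
      positivity
    have e4 : 2 * (Real.pi * (r - h) ^ 2 * (2 * r + h) / 3) = Real.pi * (2 / 3) * ((r - h) ^ 2 * (2 * r + h)) := by
      ring
    rw [e4]
    calc Real.pi * (2 / 3) * ((r - h) ^ 2 * (2 * r + h))
        ≤ Real.pi * (2 / 3) * ((ρ - h) ^ 2 * (2 * ρ + h)) := by
          apply mul_le_mul_of_nonneg_left e1
          positivity
      _ ≤ 2.0944 * ((ρ - h) ^ 2 * (2 * ρ + h)) := by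
          apply mul_le_mul_of_nonneg_right _ e3
          norm_num at hpi2 ⊢
          linarith
  · have : 0 ≤ ρ := hr.trans hrρ
    have : 0 ≤ (ρ - h) ^ 2 * (2 * ρ + h) := by positivity
    norm_num
    positivity

theorem vb_R0 : 1.21 ≤ R0 := by
  have h1 : Real.cos (Real.pi / 5) = (1 + Real.sqrt 5) / 4 := Real.cos_pi_div_five
  have h5 : Real.sqrt 5 ^ 2 = 5 := Real.sq_sqrt (by norm_num)
  have h50 : 0 ≤ Real.sqrt 5 := Real.sqrt_nonneg 5
  have h51 : Real.sqrt 5 < 2.25 := by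
    rw [Real.sqrt_lt' (by norm_num)]
    norm_num
  have hc : Real.cos (Real.pi / 5) ≠ 0 := by
    rw [h1]
    positivity
  have h2 : Real.tan (Real.pi / 5) ^ 2 = 5 - 2 * Real.sqrt 5 := by
    rw [Real.tan_eq_sin_div_cos, div_pow, div_eq_iff (pow_ne_zero 2 hc)]
    have h3 := Real.sin_sq_add_cos_sq (Real.pi / 5)
    rw [h1] at h3 ⊢
    nlinarith
  have h4 : R0 ^ 2 = 3 * (5 - 2 * Real.sqrt 5) := by
    unfold R0
    rw [mul_pow, h2, Real.sq_sqrt (by norm_num)]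
  have h6 : 0 ≤ R0 := by
    unfold R0
    apply mul_nonneg (Real.sqrt_nonneg _)
    apply Real.tan_nonneg_of_nonneg_of_le_pi_div_two
    · positivity
    · have := Real.pi_pos
      linarith
  by_contra hcon
  push Not at hcon
  have h7 : R0 ^ 2 < 1.21 ^ 2 := pow_lt_pow_left₀ hcon h6 (by norm_num)
  rw [h4] at h7
  norm_num at h7 h51
  linarith

theorem vb_Bc_nonneg (r : ℝ) (h1 : 1 < r) (hr : r ≤ 1.21) : 0 ≤ Bc r :=
  Bc_nonneg r h1 (hr.trans vb_R0)

/-- numerical lower bounds of `Bc` : `q² ≤ r² - 1.38198` -/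
theorem vb_Bc_num (r q : ℝ) (h1 : 1 < r) (hr : r ≤ 1.21) (hq : 0 ≤ q) (hqr : q ^ 2 ≤ r ^ 2 - 1.38198) :
    q ^ 3 * (0.6437 - 0.7894 * q ^ 2) ≤ Bc r := by
  have h3 := Bc_low r (q ^ 2) h1 hr (by positivity) hqr
  have h4 := ll_rpow (q ^ 2)
  rw [max_eq_left (by positivity), Real.sqrt_sq hq] at h4
  rw [h4] at h3
  calc q ^ 3 * (0.6437 - 0.7894 * q ^ 2) = q ^ 2 * q * (0.6437 - 0.7894 * q ^ 2) := by ring
    _ ≤ _ := h3

theorem vb_B1189 (r : ℝ) (h1 : 1.189 ≤ r) (hr : r ≤ 1.21) : 0.00348 ≤ Bc r := by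
  have h := vb_Bc_num r 0.178 (by norm_num at h1 ⊢; linarith) hr (by norm_num) (by
    norm_num at h1 ⊢
    nlinarith)
  refine le_trans ?_ h
  norm_num

theorem vb_B12 (r : ℝ) (h1 : 1.2 ≤ r) (hr : r ≤ 1.21) : 0.0083 ≤ Bc r := by
  have h := vb_Bc_num r 0.2408 (by norm_num at h1 ⊢; linarith) hr (by norm_num) (by
    norm_num at h1 ⊢
    nlinarith)
  refine le_trans ?_ h
  norm_num

theorem vb_B1205 (r : ℝ) (h1 : 1.205 ≤ r) (hr : r ≤ 1.21) : 0.01089 ≤ Bc r := by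
  have h := vb_Bc_num r 0.2646 (by norm_num at h1 ⊢; linarith) hr (by norm_num) (by
    norm_num at h1 ⊢
    nlinarith)
  refine le_trans ?_ h
  norm_num

theorem vb_B1208 (r : ℝ) (h1 : 1.208 ≤ r) (hr : r ≤ 1.21) : 0.0125 ≤ Bc r := by
  have h := vb_Bc_num r 0.2779 (by norm_num at h1 ⊢; linarith) hr (by norm_num) (by
    norm_num at h1 ⊢
    nlinarith)
  refine le_trans ?_ h
  norm_num

theorem vb_1189 (r : ℝ) (hr1 : 1.17 ≤ r) (hr : r ≤ 1.21) : 2 * capP r 1.189 ≤ 0.2995 * Bc r := by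
  have h0 : (0 : ℝ) ≤ r := by norm_num at hr1; linarith
  rcases le_or_gt r 1.189 with h | h
  · have h1 : capP r 1.189 = 0 := by
      unfold capP
      rw [if_neg (not_lt.2 h)]
    rw [h1]
    have := vb_Bc_nonneg r (by norm_num at hr1; linarith) hr
    linarith
  rcases le_or_gt r 1.2 with h2 | h2
  · have h3 := vb_cap r 1.2 1.189 (by norm_num) h0 h2 (by norm_num)
    have h4 := vb_B1189 r h.le hr
    norm_num at h3 h4 ⊢
    linarith
  rcases le_or_gt r 1.205 with h3 | h3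
  · have h4 := vb_cap r 1.205 1.189 (by norm_num) h0 h3 (by norm_num)
    have h5 := vb_B12 r h2.le hr
    norm_num at h4 h5 ⊢
    linarith
  rcases le_or_gt r 1.208 with h4 | h4
  · have h5 := vb_cap r 1.208 1.189 (by norm_num) h0 h4 (by norm_num)
    have h6 := vb_B1205 r h3.le hr
    norm_num at h5 h6 ⊢
    linarith
  · have h5 := vb_cap r 1.21 1.189 (by norm_num) h0 hr (by norm_num)
    have h6 := vb_B1208 r h4.le hr
    norm_num at h5 h6 ⊢
    linarith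

/-- Lipschitz bound of `2 capP` in the height, for heights above `1.18` -/
theorem vb_lip (r h k : ℝ) (hr : r ≤ 1.21) (hr0 : 0 ≤ r) (h0 : 1.18 ≤ h) (hk : h ≤ k) :
    2 * capP r h ≤ 2 * capP r k + 0.92 * (k - h) := by
  have hpi := Real.pi_pos
  have hpi2 := vb_pi
  norm_num at h0 hr hpi2
  unfold capP
  split_ifs with h1 h2 h2
  · unfold capV
    have e2 : 2 * (Real.pi * (r - h) ^ 2 * (2 * r + h) / 3) - 2 * (Real.pi * (r - k) ^ 2 * (2 * r + k) / 3) =
        (k - h) * (Real.pi * (2 / 3) * (3 * r ^ 2 - h ^ 2 - h * k - k ^ 2)) := by ring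
    have e3 : 3 * r ^ 2 - h ^ 2 - h * k - k ^ 2 ≤ 0.2152 := by
      norm_num
      nlinarith
    have e4 : Real.pi * (2 / 3) * (3 * r ^ 2 - h ^ 2 - h * k - k ^ 2) ≤ 0.92 := by
      have e5 : Real.pi * (2 / 3) * (3 * r ^ 2 - h ^ 2 - h * k - k ^ 2) ≤ Real.pi * (2 / 3) * 0.2152 := by
        apply mul_le_mul_of_nonneg_left e3
        positivity
      norm_num at e5 ⊢
      linarith
    have := mul_le_mul_of_nonneg_left e4 (sub_nonneg.2 hk)
    linarith
  · unfold capV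
    rw [mul_zero, zero_add]
    have e2 : 2 * (Real.pi * (r - h) ^ 2 * (2 * r + h) / 3) =
        (r - h) * (Real.pi * (2 / 3) * ((r - h) * (2 * r + h))) := by ring
    have e3 : (r - h) * (2 * r + h) ≤ 0.03 * 3.63 := by
      apply mul_le_mul <;> norm_num at * <;> linarith
    have e4 : Real.pi * (2 / 3) * ((r - h) * (2 * r + h)) ≤ 0.92 := by
      have e5 : Real.pi * (2 / 3) * ((r - h) * (2 * r + h)) ≤ Real.pi * (2 / 3) * (0.03 * 3.63) := by
        apply mul_le_mul_of_nonneg_left e3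
        positivity
      norm_num at e5 ⊢
      linarith
    rw [e2]
    have e6 := mul_le_mul_of_nonneg_left e4 (sub_nonneg.2 h1.le)
    have e7 : r - h ≤ k - h := by linarith [not_lt.1 h2]
    norm_num at e6 ⊢
    linarith
  · exact absurd (hk.trans_lt ‹k < r›) h1
  · norm_num
    linarith

theorem vb1 (r δ s : ℝ) (hr1 : 1.17 ≤ r) (hr : r ≤ 1.21) (hδ1 : 0.156 ≤ δ) (hδ : δ ≤ 0.19) (hs : 0 ≤ s)
    (h4 : δ ≤ 0.172 → 0.182 - δ ≤ s) (h5 : 0.009 - max (δ - 0.18) 0 ≤ s) :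
    2 * capP r (1 + δ) ≤ 0.92 * s + 0.2995 * Bc r := by
  have h0 : (0 : ℝ) ≤ r := by norm_num at hr1; linarith
  have hB := vb_Bc_nonneg r (by norm_num at hr1; linarith) hr
  rcases le_or_gt δ 0.172 with c1 | c1
  · have hs1 := h4 c1
    have hδ0 : (0 : ℝ) ≤ 1 + δ := by norm_num at hδ1; linarith
    rcases le_or_gt r 1.205 with c2 | c2
    · have h6 := vb_cap r 1.205 (1 + δ) hδ0 h0 c2 (by norm_num at c1 ⊢; linarith)
      refine h6.trans ?_
      norm_num at hs1 hδ1 c1 hB ⊢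
      nlinarith [mul_nonneg (sub_nonneg.2 hδ1) (sub_nonneg.2 c1),
        mul_nonneg (mul_nonneg (sub_nonneg.2 hδ1) (sub_nonneg.2 c1)) (sub_nonneg.2 hδ1)]
    · have h6 := vb_cap r 1.21 (1 + δ) hδ0 h0 hr (by norm_num at c1 ⊢; linarith)
      refine h6.trans ?_
      have h7 := vb_B1205 r c2.le hr
      norm_num at hs1 hδ1 c1 h7 ⊢
      nlinarith [mul_nonneg (sub_nonneg.2 hδ1) (sub_nonneg.2 c1),
        mul_nonneg (mul_nonneg (sub_nonneg.2 hδ1) (sub_nonneg.2 c1)) (sub_nonneg.2 hδ1)]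
  rcases le_or_gt δ 0.18 with c2 | c2
  · have e1 : max (δ - 0.18) 0 = 0 := max_eq_right (by linarith)
    rw [e1] at h5
    have e2 : capP r (1 + δ) ≤ capP r 1.172 := capP_anti r 1.172 (1 + δ) (by norm_num)
      (by norm_num at c1 ⊢; linarith) h0
    rcases le_or_gt r 1.205 with c3 | c3
    · have h6 := vb_cap r 1.205 1.172 (by norm_num) h0 c3 (by norm_num)
      norm_num at h5 h6 e2 hB ⊢
      linarith
    · have h6 := vb_cap r 1.21 1.172 (by norm_num) h0 hr (by norm_num)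
      have h7 := vb_B1205 r c3.le hr
      norm_num at h5 h6 e2 h7 ⊢
      linarith
  have h8 := vb_1189 r hr1 hr
  rcases le_or_gt δ 0.189 with c3 | c3
  · have e1 : max (δ - 0.18) 0 = δ - 0.18 := max_eq_left (by linarith)
    rw [e1] at h5
    have e2 := vb_lip r (1 + δ) 1.189 hr h0 (by norm_num at c2 ⊢; linarith) (by norm_num at c3 ⊢; linarith)
    norm_num at h5 e2 h8 ⊢
    linarith
  · have e2 : capP r (1 + δ) ≤ capP r 1.189 := capP_anti r 1.189 (1 + δ) (by norm_num)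
      (by norm_num at c3 ⊢; linarith) h0
    norm_num at h8 e2 ⊢
    linarith

theorem vb2 (r δ : ℝ) (hr1 : 1.17 ≤ r) (hr : r ≤ 1.21) (hδ1 : 0.19 ≤ δ) : 2 * capP r (1 + δ) ≤ 0.2472 * Bc r := by
  have h0 : (0 : ℝ) ≤ r := by norm_num at hr1; linarith
  have e1 : capP r (1 + δ) ≤ capP r 1.19 := capP_anti r 1.19 (1 + δ) (by norm_num)
      (by norm_num at hδ1 ⊢; linarith) h0
  suffices hh : 2 * capP r 1.19 ≤ 0.2472 * Bc r by linarith
  rcases le_or_gt r 1.19 with h | h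
  · have h1 : capP r 1.19 = 0 := by
      unfold capP
      rw [if_neg (not_lt.2 h)]
    rw [h1]
    have := vb_Bc_nonneg r (by norm_num at hr1; linarith) hr
    linarith
  rcases le_or_gt r 1.2 with h2 | h2
  · have h3 := vb_cap r 1.2 1.19 (by norm_num) h0 h2 (by norm_num)
    have h4 := vb_B1189 r (by norm_num at h ⊢; linarith) hr
    norm_num at h3 h4 ⊢
    linarith
  rcases le_or_gt r 1.205 with h3 | h3
  · have h4 := vb_cap r 1.205 1.19 (by norm_num) h0 h3 (by norm_num)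
    have h5 := vb_B12 r h2.le hr
    norm_num at h4 h5 ⊢
    linarith
  rcases le_or_gt r 1.208 with h4 | h4
  · have h5 := vb_cap r 1.208 1.19 (by norm_num) h0 h4 (by norm_num)
    have h6 := vb_B1205 r h3.le hr
    norm_num at h5 h6 ⊢
    linarith
  · have h5 := vb_cap r 1.21 1.19 (by norm_num) h0 hr (by norm_num)
    have h6 := vb_B1208 r h4.le hr
    norm_num at h5 h6 ⊢
    linarith

theorem vc1 (δ s : ℝ) (hδ1 : 0.156 ≤ δ) (hδ : δ ≤ 0.2) (hs : 0 ≤ s)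
    (h4 : δ ≤ 0.172 → 0.182 - δ ≤ s) (h5 : δ ≤ 0.19 → 0.009 - max (δ - 0.18) 0 ≤ s) :
    0.024988 ≤ 0.915 * s + 0.0298 - 2 * capP 1.21 (1 + δ) := by
  have hδ0 : (0 : ℝ) ≤ 1 + δ := by norm_num at hδ1; linarith
  rcases le_or_gt δ 0.172 with c1 | c1
  · have hs1 := h4 c1
    have h6 := vb_cap 1.21 1.21 (1 + δ) hδ0 (by norm_num) le_rfl (by norm_num at c1 ⊢; linarith)
    norm_num at hs1 hδ1 c1 h6 ⊢
    nlinarith [mul_nonneg (sub_nonneg.2 hδ1) (sub_nonneg.2 c1),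
      mul_nonneg (mul_nonneg (sub_nonneg.2 hδ1) (sub_nonneg.2 c1)) (sub_nonneg.2 hδ1)]
  rcases le_or_gt δ 0.18 with c2 | c2
  · have h5' := h5 (by norm_num at c2 ⊢; linarith)
    have e1 : max (δ - 0.18) 0 = 0 := max_eq_right (by linarith)
    rw [e1] at h5'
    have e2 : capP 1.21 (1 + δ) ≤ capP 1.21 1.172 := capP_anti 1.21 1.172 (1 + δ) (by norm_num)
      (by norm_num at c1 ⊢; linarith) (by norm_num)
    have h6 := vb_cap 1.21 1.21 1.172 (by norm_num) (by norm_num) le_rfl (by norm_num)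
    norm_num at h5' h6 e2 ⊢
    linarith
  have h6 := vb_cap 1.21 1.21 1.189 (by norm_num) (by norm_num) le_rfl (by norm_num)
  rcases le_or_gt δ 0.189 with c3 | c3
  · have h5' := h5 (by norm_num at c3 ⊢; linarith)
    have e1 : max (δ - 0.18) 0 = δ - 0.18 := max_eq_left (by linarith)
    rw [e1] at h5'
    have h7 := vb_cap 1.21 1.21 (1 + δ) hδ0 (by norm_num) le_rfl (by norm_num at c3 ⊢; linarith)
    norm_num at h5' h7 c2 c3 ⊢
    nlinarith [mul_nonneg (sub_nonneg.2 c2.le) (sub_nonneg.2 c3),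
      mul_nonneg (mul_nonneg (sub_nonneg.2 c2.le) (sub_nonneg.2 c3)) (sub_nonneg.2 c2.le)]
  · have e2 : capP 1.21 (1 + δ) ≤ capP 1.21 1.189 := capP_anti 1.21 1.189 (1 + δ) (by norm_num)
      (by norm_num at c3 ⊢; linarith) (by norm_num)
    norm_num at h6 e2 ⊢
    linarith

theorem vc2 (δ s : ℝ) (hδ1 : 0.2 ≤ δ) (hs : 0 ≤ s) : 0.024988 ≤ 0.915 * s + 0.0274 - 2 * capP 1.21 (1 + δ) := by
  have e2 : capP 1.21 (1 + δ) ≤ capP 1.21 1.2 := capP_anti 1.21 1.2 (1 + δ) (by norm_num)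
      (by norm_num at hδ1 ⊢; linarith) (by norm_num)
  have h6 := vb_cap 1.21 1.21 1.2 (by norm_num) (by norm_num) le_rfl (by norm_num)
  norm_num at h6 e2 ⊢
  linarith

theorem v1210 : (5.525412 : ℝ) ≤ 4 / 3 * Real.pi * 1.21 ^ 3 - 12 * capV 1.21 1 := by
  have h1 := Real.pi_gt_d20
  unfold capV
  norm_num at h1 ⊢
  linarith

end Pool.Agent.H54.V
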