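/-
JOB VOR-VMAIN.  Case 2: the volume inequality.  D : Case2 m, s = Σ (h i - 1) ≤ .0276, P = Poly (Sum.elim u z) (Sum.elim h g) r.
(h i ≤ 1.0276; ⟪u i,z a⟫ - 1/2·(1 + (g a - 1)) ≤ (h i - 1)/2, i.e. with g a ≤ 2τ: max 0 (⟪u i,z a⟫ - τ) ≤ (h i - 1)/2, so
 Σ_i max 0 (⟪u i,z a⟫ - τ) ≤ s/2;  ⟪u i, z a⟫ ≤ (1.0276² + R0² - 1)/(2·1.0276·R0) < .6341 in general, ≤ .607 for g a ≤ 1.2.)
QV r ≤ V12 r (`QV_le_V12`).
(A) m = 0 or all g a ≥ r (capP r (g a) = 0).  r ≥ 1.17: `gain` and `VA`.  r < 1.17: `union_bound`, capP r (h i) ≤ capP r 1 = capV r 1,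
 lens r a5 = 0 (`lens_small`), so 4/3πr³ - 12 capV r 1 = V12 r.
(B) some g a < r.  Let δ = min_a g a - 1 > .156, attained at a0, z = z a0; m ≤ 2, so Σ_a capP r (g a) ≤ 2 capP r (1+δ).  s4, s5 for a0.
 (B1) r < 1.17: δ < .17, s ≥ .182 - δ ≥ .012.  `union_bound`: need Σ_i (capV r 1 - capP r (h i)) ≥ 2 capP r (1+δ).  Left: since
  r > 1.156, h ≤ 1.0276: capV r 1 - capV r h = π(h-1)(r² - (h²+h+1)/3) ≥ π (h-1)(1.3363 - 1.0560) ≥ .88 (h-1), sum ≥ .88·.012 > .0105;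
  right ≤ 2 capV 1.17 1.156 ≤ .0015.  (lens r a5 = 0 again.)
 (B2) 1.17 ≤ r ≤ 1.21.  δ ≤ .19: `gain` + `VH1` (τ = .595) + `vb1` + `Bc_up`: V12 + Bc(.2995 - .8 s) + .94 s - 2capP r (1+δ) ≥ V12 as
  .8 s Bc ≤ .016 s ≤ .02 s.  δ > .19: if g a0 < r ≤ 1.21: `gain` + `VH2` (τ = .605, g a0 ≤ 1.21) + `vb2`.
 (B3) r > 1.21: then VP r ≥ VP 1.21 (`kc_VP_mono` in Kcrit.lean or directly) and QV r ≤ QV R0 ≤ V12 R0 ≤ 5.5504
  (`QV_mono`, `QV_le_V12`, `V12_R0`).  VP 1.21 ≥ (`gain`, `P1_low'`) 5.525412 + Σ lens + .94 s - 2 capP 1.21 (1+δ) (`v1210`); δ ≤ .2: `HV1`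
  (Σ lens ≥ .0298 - .05·s/2) and `vc1`; δ > .2: `HV2` (Σ lens ≥ .0274 - .025 s; g a0 ≤ R0 ≤ 2·.6293) and `vc2`.
  (If g a0 ≥ 1.21 the cap term is 0; the argument is the same.)
-/
import Pool.Agent.H54.V.KDefs
import Pool.Agent.H54.V.J.Dodec
import Pool.Agent.H54.V.J.Gain
import Pool.Agent.H54.V.J.Fin
import Pool.Agent.H54.V.J.Num1
import Pool.Agent.H54.V.J.Kcrit
import Pool.Agent.H54.V.J.VA
import Pool.Agent.H54.V.J.VB
set_option autoImplicit false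
open MeasureTheory
namespace Pool.Agent.H54.V

theorem vm_cos {h g : ℝ} (h1 : 1 ≤ h) (g1 : 1 ≤ g) :
    (h ^ 2 + g ^ 2 - 1) / (2 * h * g) ≤ g / 2 + (h - 1) / 2 := by
  rw [div_le_iff₀ (by positivity)]
  have a1 := mul_nonneg (sub_nonneg.2 h1) (sub_nonneg.2 g1)
  have a2 := mul_nonneg a1 (by linarith : (0 : ℝ) ≤ g + 2)
  have a3 := mul_nonneg a1 (sub_nonneg.2 h1)
  nlinarith

theorem vm_cos1 {h g : ℝ} (h1 : 1 ≤ h) (h2 : h ≤ 1.0276) (g1 : 1.156 ≤ g) (g2 : g ≤ 1.2) :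
    (h ^ 2 + g ^ 2 - 1) / (2 * h * g) ≤ 0.607 := by
  rw [div_le_iff₀ (by positivity)]
  have a1 := mul_nonneg (sub_nonneg.2 h1) (sub_nonneg.2 h2)
  have a2 := mul_nonneg (sub_nonneg.2 g1) (sub_nonneg.2 g2)
  have b1 := mul_nonneg (sub_nonneg.2 h1) (sub_nonneg.2 g1)
  have b2 := mul_nonneg (sub_nonneg.2 h1) (sub_nonneg.2 g2)
  have b3 := mul_nonneg (sub_nonneg.2 h2) (sub_nonneg.2 g1)
  have b4 := mul_nonneg (sub_nonneg.2 h2) (sub_nonneg.2 g2)
  nlinarith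

theorem vm_cos2 {h g : ℝ} (h1 : 1 ≤ h) (h2 : h ≤ 1.0276) (g1 : 1.156 ≤ g) (g2 : g ≤ 1.25841) :
    (h ^ 2 + g ^ 2 - 1) / (2 * h * g) ≤ 0.6341 := by
  rw [div_le_iff₀ (by positivity)]
  have a1 := mul_nonneg (sub_nonneg.2 h1) (sub_nonneg.2 h2)
  have a2 := mul_nonneg (sub_nonneg.2 g1) (sub_nonneg.2 g2)
  have b1 := mul_nonneg (sub_nonneg.2 h1) (sub_nonneg.2 g1)
  have b2 := mul_nonneg (sub_nonneg.2 h1) (sub_nonneg.2 g2)
  have b3 := mul_nonneg (sub_nonneg.2 h2) (sub_nonneg.2 g1)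
  have b4 := mul_nonneg (sub_nonneg.2 h2) (sub_nonneg.2 g2)
  nlinarith

theorem vm_s0 {m : ℕ} (D : Case2 m) : 0 ≤ ∑ i, (D.h i - 1) :=
  Finset.sum_nonneg fun i _ => sub_nonneg.2 (D.h1 i)

theorem vm_h2 {m : ℕ} (D : Case2 m) (i : Fin 12) : D.h i ≤ 1.0276 := by
  have h : D.h i - 1 ≤ ∑ i, (D.h i - 1) := Finset.single_le_sum (f := fun i => D.h i - 1)
    (fun i _ => sub_nonneg.2 (D.h1 i)) (Finset.mem_univ i)
  have := D.hs
  linarith

theorem vm_sum {m : ℕ} (D : Case2 m) (a : Fin m) (τ : ℝ) (hτ : D.g a ≤ 2 * τ) :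
    ∑ i, max 0 (inner ℝ (D.u i) (D.z a) - τ) ≤ (∑ i, (D.h i - 1)) / 2 := by
  rw [Finset.sum_div]
  refine Finset.sum_le_sum fun i _ => ?_
  have h1 := D.h1 i
  have h2 := D.huz i a
  have h3 := vm_cos h1 (by linarith [D.g1 a] : (1 : ℝ) ≤ D.g a)
  refine max_le (by linarith) ?_
  linarith

theorem vm_caps {m : ℕ} (D : Case2 m) (a : Fin m) (ha : ∀ b, D.g a ≤ D.g b) (r : ℝ)
    (hr : 0 ≤ r) : ∑ b, capP r (D.g b) ≤ 2 * capP r (D.g a) := by
  have h0 : 0 ≤ D.g a := by linarith [D.g1 a]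
  have hc := capP_nonneg r (D.g a) h0 hr
  have h1 : ∑ b, capP r (D.g b) ≤ ∑ _b : Fin m, capP r (D.g a) :=
    Finset.sum_le_sum fun b _ => capP_anti r (D.g a) (D.g b) h0 (ha b) hr
  rw [Finset.sum_const, Finset.card_univ, Fintype.card_fin, nsmul_eq_mul] at h1
  have h2 : (m : ℝ) ≤ 2 := by exact_mod_cast D.hm
  nlinarith

theorem vm_union {m : ℕ} (D : Case2 m) (r : ℝ) (h1 : 1 < r) :
    4 / 3 * Real.pi * r ^ 3 - (∑ i, capP r (D.h i) + ∑ a, capP r (D.g a)) ≤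
      VP (Sum.elim D.u D.z) (Sum.elim D.h D.g) r := by
  have h := union_bound (Sum.elim D.u D.z) (Sum.elim D.h D.g) r (by linarith)
    (by
      rintro (i | a)
      · exact D.hu i
      · exact D.hz a)
    (by
      rintro (i | a)
      · exact (zero_le_one.trans (D.h1 i))
      · have := D.g1 a
        simp only [Sum.elim_inr]
        linarith)
  rw [Fintype.sum_sum_type] at h
  simpa only [Sum.elim_inl, Sum.elim_inr] using h

theorem vm_gain {m : ℕ} (D : Case2 m) (r : ℝ) (hr : 1.17 ≤ r) :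
    VP D.u (fun _ => 1) r + 0.94 * ∑ i, (D.h i - 1) - ∑ a, capP r (D.g a) ≤
      VP (Sum.elim D.u D.z) (Sum.elim D.h D.g) r :=
  gain D.u D.h D.z D.g r D.hu D.hz D.h1 (vm_h2 D) D.huu (fun a => (D.g1 a).le)
    (fun a => (D.g2 a).le) D.huz hr

theorem vm_capV1 {m : ℕ} (D : Case2 m) (r : ℝ) (h1 : 1 < r) (i : Fin 12) :
    capP r (D.h i) ≤ capV r 1 := by
  have h := capP_anti r 1 (D.h i) zero_le_one (D.h1 i) (by linarith)
  have h2 : capP r 1 = capV r 1 := by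
    unfold capP
    rw [if_pos h1]
  rwa [h2] at h

/-- no far face is active -/
theorem vm_A {m : ℕ} (D : Case2 m) (r : ℝ) (h1 : 1 < r) (hr : r ≤ R0) (hA : ∀ a, r ≤ D.g a) :
    V12 r ≤ VP (Sum.elim D.u D.z) (Sum.elim D.h D.g) r := by
  have h0 : ∑ a, capP r (D.g a) = 0 := by
    refine Finset.sum_eq_zero fun a _ => ?_
    unfold capP
    rw [if_neg (not_lt.2 (hA a))]
  have hs := vm_s0 D
  rcases le_total 1.17 r with h2 | h2
  · have h3 := vm_gain D r h2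
    have h4 := VA r h1 hr D.u D.hu D.huu
    linarith
  · have h3 := vm_union D r h1
    have h4 : ∑ i, capP r (D.h i) ≤ 12 * capV r 1 := by
      have h5 : ∑ i, capP r (D.h i) ≤ ∑ _i : Fin 12, capV r 1 :=
        Finset.sum_le_sum fun i _ => vm_capV1 D r h1 i
      rw [Finset.sum_const, Finset.card_univ, Fintype.card_fin, nsmul_eq_mul] at h5
      simpa using h5
    unfold V12
    rw [lens_small r h1 (by linarith)]
    linarith

theorem vm_B1 {m : ℕ} (D : Case2 m) (r : ℝ) (h1 : 1 < r) (hr : r ≤ 1.17)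
    (a : Fin m) (ha : ∀ b, D.g a ≤ D.g b) (har : D.g a < r) :
    V12 r ≤ VP (Sum.elim D.u D.z) (Sum.elim D.h D.g) r := by
  have hpi := Real.pi_pos
  have hg1 := D.g1 a
  have h3 := vm_union D r h1
  have hc := vm_caps D a ha r (by linarith)
  have hcap : capP r (D.g a) ≤ Real.pi * 0.0003 := by
    unfold capP capV
    rw [if_pos har]
    have e1 : (r - D.g a) ^ 2 ≤ 0.014 ^ 2 := pow_le_pow_left₀ (by linarith) (by linarith) 2
    have e2 : (r - D.g a) ^ 2 * (2 * r + D.g a) ≤ 0.014 ^ 2 * 3.51 :=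
      mul_le_mul e1 (by linarith) (by linarith) (by norm_num)
    have e3 : Real.pi * ((r - D.g a) ^ 2 * (2 * r + D.g a)) ≤ Real.pi * (0.014 ^ 2 * 3.51) :=
      mul_le_mul_of_nonneg_left e2 hpi.le
    have e4 : Real.pi * (r - D.g a) ^ 2 * (2 * r + D.g a) / 3 =
        Real.pi * ((r - D.g a) ^ 2 * (2 * r + D.g a)) / 3 := by ring
    rw [e4]
    nlinarith
  have hi : ∀ i, Real.pi * (0.3 * (D.h i - 1)) ≤ capV r 1 - capP r (D.h i) := by
    intro i
    have h4 := D.h1 i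
    have h5 := vm_h2 D i
    unfold capP
    rw [if_pos (by linarith)]
    have e1 : capV r 1 - capV r (D.h i) =
        Real.pi * ((D.h i - 1) * (r ^ 2 - (D.h i ^ 2 + D.h i + 1) / 3)) := by
      unfold capV
      ring
    rw [e1]
    refine mul_le_mul_of_nonneg_left ?_ hpi.le
    have e2 : (1.156 : ℝ) ^ 2 ≤ r ^ 2 := pow_le_pow_left₀ (by norm_num) (by linarith) 2
    have e3 : D.h i ^ 2 ≤ 1.0276 ^ 2 := pow_le_pow_left₀ (by linarith) h5 2
    have e4 : (0.3 : ℝ) ≤ r ^ 2 - (D.h i ^ 2 + D.h i + 1) / 3 := by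
      norm_num at e2 e3
      linarith
    have e5 := mul_le_mul_of_nonneg_left e4 (sub_nonneg.2 h4)
    linarith
  have hsum : ∑ i, (Real.pi * (0.3 * (D.h i - 1))) ≤ ∑ i, (capV r 1 - capP r (D.h i)) :=
    Finset.sum_le_sum fun i _ => hi i
  have q1 : ∑ i, (Real.pi * (0.3 * (D.h i - 1))) = Real.pi * (0.3 * ∑ i, (D.h i - 1)) := by
    rw [← Finset.mul_sum, ← Finset.mul_sum]
  have q2 : ∑ i, (capV r 1 - capP r (D.h i)) = 12 * capV r 1 - ∑ i, capP r (D.h i) := by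
    rw [Finset.sum_sub_distrib, Finset.sum_const, Finset.card_univ, Fintype.card_fin,
      nsmul_eq_mul]
    norm_num
  rw [q1, q2] at hsum
  have h4 := D.s4 a (by linarith)
  have hs : (0.012 : ℝ) ≤ ∑ i, (D.h i - 1) := by linarith
  have h5 : Real.pi * (0.3 * 0.012) ≤ Real.pi * (0.3 * ∑ i, (D.h i - 1)) :=
    mul_le_mul_of_nonneg_left (mul_le_mul_of_nonneg_left hs (by norm_num)) hpi.le
  unfold V12
  rw [lens_small r h1 (by linarith)]
  nlinarith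

theorem vm_B2 {m : ℕ} (D : Case2 m) (r : ℝ) (hr1 : 1.17 ≤ r) (hr : r ≤ 1.21)
    (a : Fin m) (ha : ∀ b, D.g a ≤ D.g b) (har : D.g a < r) :
    V12 r ≤ VP (Sum.elim D.u D.z) (Sum.elim D.h D.g) r := by
  have h1 : 1 < r := by linarith
  have hR : r ≤ R0 := by linarith [R0_bounds.1]
  have hg1 := D.g1 a
  have hs := vm_s0 D
  have hg := vm_gain D r hr1
  have hc := vm_caps D a ha r (by linarith)
  have hB0 := Bc_nonneg r h1 hR
  have hB := Bc_up r h1 hr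
  have hcos : ∀ i, inner ℝ (D.u i) (D.z a) ≤ (0.64 : ℝ) := fun i =>
    (D.huz i a).trans ((gn_far_cos (D.h1 i) (vm_h2 D i) hg1.le (D.g2 a).le).trans (by norm_num))
  have hBs : Bc r * ((∑ i, (D.h i - 1)) / 2) ≤ 0.01 * ∑ i, (D.h i - 1) := by
    nlinarith
  rcases le_total (D.g a) 1.19 with h2 | h2
  · have h3 := VH1 r h1 (by linarith) D.u D.hu D.huu (D.z a) (D.hz a) hcos
    have h4 := vm_sum D a 0.595 (by linarith)
    have h5 := vb1 r (D.g a - 1) (∑ i, (D.h i - 1)) hr1 hr (by linarith) (by linarith) hs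
      (fun h => by have := D.s4 a (by linarith); linarith)
      (by
        have := D.s5 a h2
        have e : D.g a - 1 - 0.18 = D.g a - 1.18 := by ring
        rw [e]
        exact this)
    have e1 : 1 + (D.g a - 1) = D.g a := by ring
    rw [e1] at h5
    have h6 := mul_le_mul_of_nonneg_left h4 hB0
    nlinarith
  · have h3 := VH2 r h1 (by linarith) D.u D.hu D.huu (D.z a) (D.hz a) hcos
    have h4 := vm_sum D a 0.605 (by linarith)
    have h5 := vb2 r (D.g a - 1) hr1 hr (by linarith)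
    have e1 : 1 + (D.g a - 1) = D.g a := by ring
    rw [e1] at h5
    have h6 := mul_le_mul_of_nonneg_left h4 hB0
    nlinarith

theorem vm_B3 (v1 : HV1) (v2 : HV2) {m : ℕ} (D : Case2 m) (a : Fin m)
    (ha : ∀ b, D.g a ≤ D.g b) :
    5.5504 ≤ VP (Sum.elim D.u D.z) (Sum.elim D.h D.g) 1.21 := by
  have hg1 := D.g1 a
  have hs := vm_s0 D
  have hg := vm_gain D 1.21 (by norm_num)
  have hc := vm_caps D a ha 1.21 (by norm_num)
  have hP := P1_low' 1.21 (by norm_num) (by norm_num) D.u D.hu D.huu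
  have hv := v1210
  have e1 : 1 + (D.g a - 1) = D.g a := by ring
  have hR := R0_bounds.2
  have hgR := D.g2 a
  rcases le_total (D.g a) 1.2 with h2 | h2
  · have h3 := v1 D.u (D.z a) D.hu (D.hz a) D.huu (fun i =>
      (D.huz i a).trans (vm_cos1 (D.h1 i) (vm_h2 D i) hg1.le h2))
    have h4 := vm_sum D a 0.6 (by linarith)
    have h5 := vc1 (D.g a - 1) (∑ i, (D.h i - 1)) (by linarith) (by linarith) hs
      (fun h => by have := D.s4 a (by linarith); linarith)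
      (fun h => by
        have := D.s5 a (by linarith)
        have e : D.g a - 1 - 0.18 = D.g a - 1.18 := by ring
        rw [e]
        exact this)
    rw [e1] at h5
    linarith
  · have h3 := v2 D.u (D.z a) D.hu (D.hz a) D.huu (fun i =>
      (D.huz i a).trans (vm_cos2 (D.h1 i) (vm_h2 D i) hg1.le (by linarith)))
    have h4 := vm_sum D a 0.6293 (by linarith)
    have h5 := vc2 (D.g a - 1) (∑ i, (D.h i - 1)) (by linarith) hs
    rw [e1] at h5
    linarith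

theorem vmain (v1 : HV1) (v2 : HV2) {m : ℕ} (D : Case2 m) (r : ℝ) (h1 : 1 < r) (hr : r ≤ R0) :
    QV r ≤ VP (Sum.elim D.u D.z) (Sum.elim D.h D.g) r := by
  by_cases hA : ∀ a, r ≤ D.g a
  · exact (QV_le_V12 r h1 hr).trans (vm_A D r h1 hr hA)
  · push Not at hA
    obtain ⟨a', ha'⟩ := hA
    have : Nonempty (Fin m) := ⟨a'⟩
    obtain ⟨a, ha⟩ := Finite.exists_min D.g
    have har : D.g a < r := (ha a').trans_lt ha'
    rcases le_total r 1.17 with h2 | h2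
    · exact (QV_le_V12 r h1 hr).trans (vm_B1 D r h1 h2 a ha har)
    · rcases le_total r 1.21 with h3 | h3
      · exact (QV_le_V12 r h1 hr).trans (vm_B2 D r h2 h3 a ha har)
      · have h4 := vm_B3 v1 v2 D a ha
        have h5 := kc_VP_mono (Sum.elim D.u D.z) (Sum.elim D.h D.g) h3
        have h6 := QV_mono hr
        have h7 := QV_le_V12 R0 (by linarith [R0_bounds.1]) le_rfl
        have h8 := V12_R0
        linarith

end Pool.Agent.H54.V
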