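/-
JOB VOR-EN.  Energy is at most 5/2 times the total height excess (every point has at most 5 violating neighbours).
Lemma A (planar): there are no 6 vectors w_1..w_6 ≠ 0 in a 2-dimensional real inner product space with
⟪w_i,w_j⟫ < ½ ‖w_i‖ ‖w_j‖ for all i ≠ j (six vectors with pairwise angles > 60°; e.g. identify the plane with ℂ, sort the
arguments, or: two of the six lie in the same closed 60° sector of the six sectors starting at the direction of w_1).
Lemma B: let p, w, w' be unit vectors of E3, c = ⟪p,w⟫ ∈ [c0,0.65], c' = ⟪p,w'⟫ ∈ [c0',0.65], 1/2 ≤ c0, c0' and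
⟪w,w'⟫ < c0 c0' + ½ √(1-c0²) √(1-c0'²).  Then the projections w - c p, w' - c' p are nonzero and
⟪w-cp, w'-c'p⟫ = ⟪w,w'⟫ - c c' < ½ √(1-c²) √(1-c'²):  the function c c' + ½ √(1-c²)√(1-c'²) is increasing in c and in c' on
[1/2,0.65]² (derivative in c: c' - ½ c √(1-c'²)/√(1-c²) ≥ 0.5 - ½·0.65·0.8661/0.7599 > 0); at (c0,c0) it is (1+c0²)/2,
at (1/2,1/2) it is 5/8, at (1/2, c0') with c0' ≥ 1/2 it is ≥ 5/8, and with c0' ≥ 3/5 it is > 0.64.
Lemma C: hence a unit vector p has at most 5 neighbours in a finite family for which Lemma B applies to all pairs.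
Main theorem: call j a violating neighbour of the ordinary point i if ⟪u i,u j⟫ > 1/2, and the special point a if
⟪u i,z a⟫ > τ a (≥ τ0 ≥ 1/2).  By Lemmas B, C (c0 = 1/2 for an ordinary violating neighbour, c0 = τ0 for a special one) every ordinary point has at most 5 violating neighbours in total, and every
special point at most 5 violating ordinary neighbours.  Each violating pair of ordinary points contributes at most
(δ i + δ j)/2, each violating pair (i,a) at most δ i/2 + e a/2.  Sum.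
(All cosines in question are < 5/8 < 0.65.)
-/
import Pool.Agent.H54.V.Defs
set_option autoImplicit false
open MeasureTheory
namespace Pool.Agent.H54.V

theorem en_planar {ι : Type*} [DecidableEq ι] (K : Finset ι) (ζ : ι → ℂ)
    (h0 : ∀ i ∈ K, ζ i ≠ 0)
    (h : ∀ i ∈ K, ∀ j ∈ K, i ≠ j →
      (ζ i * (starRingEnd ℂ) (ζ j)).re < 1 / 2 * (‖ζ i‖ * ‖ζ j‖)) : K.card ≤ 5 := by
  by_contra hc
  have hc' : 6 ≤ K.card := by omega
  obtain ⟨a, ha⟩ : K.Nonempty := Finset.card_pos.mp (by omega)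
  have hπ := Real.pi_pos
  set x : ι → ℂ := fun i => ζ i * (starRingEnd ℂ) (ζ a) with hx
  have hxn : ∀ i, ‖x i‖ = ‖ζ i‖ * ‖ζ a‖ := by
    intro i
    rw [hx]
    simp only [norm_mul, RCLike.norm_conj]
  have hx0 : ∀ i ∈ K, x i ≠ 0 := by
    intro i hi he
    have h1 := hxn i
    rw [he, norm_zero] at h1
    have h2 : 0 < ‖ζ i‖ * ‖ζ a‖ :=
      mul_pos (norm_pos_iff.mpr (h0 i hi)) (norm_pos_iff.mpr (h0 a ha))
    linarith
  set t : ι → ℝ := fun i => if (x i).arg < 0 then (x i).arg + 2 * Real.pi else (x i).arg with ht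
  have hcos : ∀ i ∈ K, Real.cos (t i) = (x i).re / ‖x i‖ := by
    intro i hi
    have h1 := Complex.cos_arg (hx0 i hi)
    simp only [ht]
    split_ifs
    · rw [Real.cos_add_two_pi, h1]
    · exact h1
  have hsin : ∀ i, Real.sin (t i) = (x i).im / ‖x i‖ := by
    intro i
    have h1 := Complex.sin_arg (x i)
    simp only [ht]
    split_ifs
    · rw [Real.sin_add_two_pi, h1]
    · exact h1
  have hdiff : ∀ i ∈ K, ∀ j ∈ K, Real.cos (t i - t j) * (‖ζ i‖ * ‖ζ j‖) =
      (ζ i * (starRingEnd ℂ) (ζ j)).re := by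
    intro i hi j hj
    have hi0 : ‖ζ i‖ ≠ 0 := norm_ne_zero_iff.mpr (h0 i hi)
    have hj0 : ‖ζ j‖ ≠ 0 := norm_ne_zero_iff.mpr (h0 j hj)
    have ha0 : ‖ζ a‖ ≠ 0 := norm_ne_zero_iff.mpr (h0 a ha)
    have hsq : ‖ζ a‖ ^ 2 = (ζ a).re * (ζ a).re + (ζ a).im * (ζ a).im := by
      rw [Complex.sq_norm, Complex.normSq_apply]
    rw [Real.cos_sub, hcos i hi, hcos j hj, hsin, hsin, hxn, hxn]
    have e1 : (x i).re * (x j).re + (x i).im * (x j).im =
        (ζ i * (starRingEnd ℂ) (ζ j)).re * ‖ζ a‖ ^ 2 := by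
      rw [hsq]
      simp only [hx, Complex.mul_re, Complex.mul_im, Complex.conj_re, Complex.conj_im]
      ring
    field_simp
    linear_combination e1
  have hrange : ∀ i ∈ K.erase a, Real.pi / 3 < t i ∧ t i < 5 * Real.pi / 3 := by
    intro i hi
    obtain ⟨hia, hiK⟩ := Finset.mem_erase.mp hi
    have h1 := h i hiK a ha hia
    have h2 : Real.cos ((x i).arg) < 1 / 2 := by
      rw [Complex.cos_arg (hx0 i hiK), div_lt_iff₀ (norm_pos_iff.mpr (hx0 i hiK)), hxn]
      exact h1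
    have h3 : Real.pi / 3 < |(x i).arg| := by
      by_contra hn
      have hn' : |(x i).arg| ≤ Real.pi / 3 := not_lt.mp hn
      have h4 := Real.cos_le_cos_of_nonneg_of_le_pi (abs_nonneg (x i).arg) (by linarith) hn'
      rw [Real.cos_pi_div_three, Real.cos_abs] at h4
      linarith
    have h5 := Complex.neg_pi_lt_arg (x i)
    have h6 := Complex.arg_le_pi (x i)
    simp only [ht]
    split_ifs with hneg
    · rw [abs_of_neg hneg] at h3
      constructor <;> linarith
    · rw [abs_of_nonneg (not_lt.mp hneg)] at h3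
      constructor <;> linarith
  have hmaps : ∀ i ∈ K.erase a, ⌊t i * 3 / Real.pi⌋ ∈ Finset.Icc (1 : ℤ) 4 := by
    intro i hi
    obtain ⟨h1, h2⟩ := hrange i hi
    rw [Finset.mem_Icc]
    constructor
    · rw [Int.le_floor, le_div_iff₀ hπ]
      push_cast
      linarith
    · have : ⌊t i * 3 / Real.pi⌋ < 5 := by
        rw [Int.floor_lt, div_lt_iff₀ hπ]
        push_cast
        linarith
      omega
  have hcard : (Finset.Icc (1 : ℤ) 4).card < (K.erase a).card := by
    rw [Finset.card_erase_of_mem ha]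
    simp
    omega
  obtain ⟨i, hi, j, hj, hij, hfl⟩ := Finset.exists_ne_map_eq_of_card_lt_of_maps_to hcard hmaps
  have hfl' : ⌊t i * 3 / Real.pi⌋ = ⌊t j * 3 / Real.pi⌋ := hfl
  have h1 := Int.abs_sub_lt_one_of_floor_eq_floor hfl'
  have h2 : |t i - t j| < Real.pi / 3 := by
    have e : t i * 3 / Real.pi - t j * 3 / Real.pi = (t i - t j) * (3 / Real.pi) := by ring
    rw [e, abs_mul, abs_of_pos (by positivity : (0 : ℝ) < 3 / Real.pi)] at h1
    rw [lt_div_iff₀ (by norm_num : (0 : ℝ) < 3)]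
    have h3 : |t i - t j| * (3 / Real.pi) = |t i - t j| * 3 / Real.pi := by ring
    rw [h3, div_lt_iff₀ hπ] at h1
    linarith
  have h3 : 1 / 2 < Real.cos (t i - t j) := by
    have h4 := Real.cos_lt_cos_of_nonneg_of_le_pi (abs_nonneg (t i - t j))
      (by linarith : Real.pi / 3 ≤ Real.pi) h2
    rw [Real.cos_pi_div_three, Real.cos_abs] at h4
    exact h4
  have hiK := (Finset.mem_erase.mp hi).2
  have hjK := (Finset.mem_erase.mp hj).2
  have h4 := hdiff i hiK j hjK
  have h5 := h i hiK j hjK hij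
  rw [← h4] at h5
  have h6 : 0 < ‖ζ i‖ * ‖ζ j‖ :=
    mul_pos (norm_pos_iff.mpr (h0 i hiK)) (norm_pos_iff.mpr (h0 j hjK))
  have h7 := lt_of_mul_lt_mul_right h5 h6.le
  linarith

/-- the lower bound of `⟪w, w'⟫` when the projections make an angle of 60 degrees -/
noncomputable def en_G (c c' : ℝ) : ℝ :=
  c * c' + 1 / 2 * (Real.sqrt (1 - c ^ 2) * Real.sqrt (1 - c' ^ 2))

theorem en_G_comm (c c' : ℝ) : en_G c c' = en_G c' c := by
  unfold en_G
  ring

theorem en_G_mono {c0 c c' : ℝ} (h0 : 1 / 2 ≤ c0) (h1 : c0 ≤ c) (h2 : c ≤ 13 / 20)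
    (h3 : 1 / 2 ≤ c') (h4 : c' ≤ 13 / 20) : en_G c0 c' ≤ en_G c c' := by
  unfold en_G
  set s0 := Real.sqrt (1 - c0 ^ 2) with hs0
  set s := Real.sqrt (1 - c ^ 2) with hs
  set s' := Real.sqrt (1 - c' ^ 2) with hs'
  have e0 : s0 ^ 2 = 1 - c0 ^ 2 := Real.sq_sqrt (by nlinarith)
  have e1 : s ^ 2 = 1 - c ^ 2 := Real.sq_sqrt (by nlinarith)
  have e2 : s' ^ 2 = 1 - c' ^ 2 := Real.sq_sqrt (by nlinarith)
  have p0 : 3 / 4 ≤ s0 := Real.le_sqrt_of_sq_le (by nlinarith)
  have p1 : 3 / 4 ≤ s := Real.le_sqrt_of_sq_le (by nlinarith)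
  have p2 : 0 ≤ s' := Real.sqrt_nonneg _
  have p3 : s' ≤ 1 := by
    rw [hs', Real.sqrt_le_iff]
    exact ⟨zero_le_one, by nlinarith⟩
  have p4 : s ≤ s0 := Real.sqrt_le_sqrt (by nlinarith)
  have h5 : (s0 - s) * (3 / 2) ≤ (c - c0) * (13 / 10) := by
    have h6 : (s0 - s) * (s0 + s) = (c - c0) * (c + c0) := by linear_combination e0 - e1
    have h7 : (s0 - s) * (3 / 2) ≤ (s0 - s) * (s0 + s) :=
      mul_le_mul_of_nonneg_left (by linarith) (by linarith)
    have h8 : (c - c0) * (c + c0) ≤ (c - c0) * (13 / 10) :=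
      mul_le_mul_of_nonneg_left (by linarith) (by linarith)
    linarith
  have h6 : (s0 - s) * s' ≤ (s0 - s) * 1 := mul_le_mul_of_nonneg_left p3 (by linarith)
  have h7 : (c - c0) * (1 / 2) ≤ (c - c0) * c' := mul_le_mul_of_nonneg_left h3 (by linarith)
  nlinarith

theorem en_G_mono2 {c0 c c0' c' : ℝ} (h0 : 1 / 2 ≤ c0) (h1 : c0 ≤ c) (h2 : c ≤ 13 / 20)
    (h0' : 1 / 2 ≤ c0') (h1' : c0' ≤ c') (h2' : c' ≤ 13 / 20) :
    en_G c0 c0' ≤ en_G c c' := by
  refine (en_G_mono h0 h1 h2 h0' (by linarith)).trans ?_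
  rw [en_G_comm c c0', en_G_comm c c']
  exact en_G_mono h0' h1' h2' (by linarith) h2

theorem en_five {ι : Type*} [DecidableEq ι] (p : E3) (hp : ‖p‖ = 1) (K : Finset ι) (w : ι → E3)
    (c0 : ι → ℝ) (hw : ∀ k ∈ K, ‖w k‖ = 1) (h0 : ∀ k ∈ K, 1 / 2 ≤ c0 k)
    (h1 : ∀ k ∈ K, c0 k ≤ inner ℝ p (w k)) (h2 : ∀ k ∈ K, inner ℝ p (w k) ≤ (13 / 20 : ℝ))
    (h3 : ∀ k ∈ K, ∀ l ∈ K, k ≠ l → inner ℝ (w k) (w l) < en_G (c0 k) (c0 l)) :
    K.card ≤ 5 := by
  obtain ⟨b, hb⟩ := Orthonormal.exists_orthonormalBasis_extension_of_card_eq (𝕜 := ℝ) (E := E3)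
    (ι := Fin 3) (by simp) (v := fun _ => p) (s := {0}) (by
      refine ⟨fun i => by simpa using hp, fun i j hij => ?_⟩
      exact absurd (Subsingleton.elim i j) hij)
  have hb0 : b 0 = p := hb 0 (by simp)
  have hexp : ∀ v v' : E3, inner ℝ v v' = inner ℝ p v * inner ℝ p v' +
      (inner ℝ (b 1) v * inner ℝ (b 1) v' + inner ℝ (b 2) v * inner ℝ (b 2) v') := by
    intro v v'
    have h4 := b.sum_inner_mul_inner v v'
    rw [Fin.sum_univ_three, hb0] at h4
    rw [← h4, real_inner_comm p v, real_inner_comm (b 1) v, real_inner_comm (b 2) v]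
    ring
  set ζ : ι → ℂ := fun k => ⟨inner ℝ (b 1) (w k), inner ℝ (b 2) (w k)⟩ with hζ
  have hre : ∀ k l, (ζ k * (starRingEnd ℂ) (ζ l)).re =
      inner ℝ (w k) (w l) - inner ℝ p (w k) * inner ℝ p (w l) := by
    intro k l
    rw [hexp (w k) (w l)]
    simp only [hζ, Complex.mul_re, Complex.conj_re, Complex.conj_im]
    ring
  have hn : ∀ k ∈ K, ‖ζ k‖ ^ 2 = 1 - (inner ℝ p (w k)) ^ 2 := by
    intro k hk
    have h4 := hexp (w k) (w k)
    rw [real_inner_self_eq_norm_sq, hw k hk] at h4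
    rw [Complex.sq_norm, Complex.normSq_apply]
    simp only [hζ]
    linarith
  have hn' : ∀ k ∈ K, ‖ζ k‖ = Real.sqrt (1 - (inner ℝ p (w k)) ^ 2) := by
    intro k hk
    rw [← hn k hk, Real.sqrt_sq (norm_nonneg _)]
  refine en_planar K ζ ?_ ?_
  · intro k hk he
    have h4 := hn k hk
    rw [he, norm_zero] at h4
    have h5 := h2 k hk
    have h6 := (h0 k hk).trans (h1 k hk)
    nlinarith
  · intro k hk l hl hkl
    have h4 := h3 k hk l hl hkl
    have h5 := en_G_mono2 (h0 k hk) (h1 k hk) (h2 k hk) (h0 l hl) (h1 l hl) (h2 l hl)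
    rw [hre, hn' k hk, hn' l hl]
    unfold en_G at h5
    unfold en_G at h4
    linarith

theorem en_le {n m : ℕ} (u : Fin n → E3) (z : Fin m → E3) (hu : ∀ i, ‖u i‖ = 1) (hz : ∀ a, ‖z a‖ = 1)
    (δ : Fin n → ℝ) (hδ : ∀ i, 0 ≤ δ i) (τ e : Fin m → ℝ) (he : ∀ a, 0 ≤ e a) (τ0 : ℝ) (hτ0 : 1 / 2 ≤ τ0)
    (hτ : ∀ a, τ0 ≤ τ a) (huu : ∀ i j, i ≠ j → inner ℝ (u i) (u j) < (5 / 8 : ℝ))
    (huz : ∀ i a, inner ℝ (u i) (z a) < (5 / 8 : ℝ) ∨ (3 / 5 ≤ τ0 ∧ inner ℝ (u i) (z a) ≤ (0.64 : ℝ)))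
    (hzz : ∀ a b, a ≠ b → inner ℝ (z a) (z b) < (1 + τ0 ^ 2) / 2)
    (hoo : ∀ i j, i ≠ j → inner ℝ (u i) (u j) ≤ 1 / 2 + (δ i + δ j) / 2)
    (hos : ∀ i a, inner ℝ (u i) (z a) ≤ τ a + δ i / 2 + e a / 2) :
    en u z τ ≤ 5 / 2 * ∑ i, δ i + 5 / 2 * ∑ a, e a := by
  classical
  have huz' : ∀ i a, inner ℝ (u i) (z a) ≤ (13 / 20 : ℝ) := by
    intro i a
    rcases huz i a with h | h
    · linarith
    · have := h.2
      norm_num at this ⊢
      linarith
  have hG0 : en_G (1 / 2) (1 / 2) = 5 / 8 := by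
    unfold en_G
    rw [Real.mul_self_sqrt (by norm_num)]
    norm_num
  have hG1 : ∀ i a, τ0 ≤ 13 / 20 → inner ℝ (u i) (z a) < en_G (1 / 2) τ0 := by
    intro i a hτ1
    rcases huz i a with h | h
    · refine h.trans_le ?_
      rw [← hG0]
      exact en_G_mono2 le_rfl le_rfl (by norm_num) le_rfl hτ0 hτ1
    · have h4 : en_G (1 / 2) (3 / 5) ≤ en_G (1 / 2) τ0 :=
        en_G_mono2 le_rfl le_rfl (by norm_num) (by norm_num) h.1 hτ1
      have h5 : (0.64 : ℝ) < en_G (1 / 2) (3 / 5) := by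
        unfold en_G
        have h6 : Real.sqrt (1 - (3 / 5 : ℝ) ^ 2) = 4 / 5 := by
          rw [show (1 - (3 / 5 : ℝ) ^ 2) = (4 / 5) ^ 2 by norm_num]
          exact Real.sqrt_sq (by norm_num)
        have h7 : (0.86 : ℝ) ≤ Real.sqrt (1 - (1 / 2 : ℝ) ^ 2) :=
          Real.le_sqrt_of_sq_le (by norm_num)
        rw [h6]
        norm_num at h7 ⊢
        linarith
      exact lt_of_le_of_lt h.2 (lt_of_lt_of_le h5 h4)
  have hG2 : en_G τ0 τ0 = (1 + τ0 ^ 2) / 2 ∨ 13 / 20 < τ0 := by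
    rcases le_or_gt τ0 (13 / 20) with h | h
    · left
      unfold en_G
      rw [Real.mul_self_sqrt (by nlinarith)]
      ring
    · exact Or.inr h
  -- violating neighbours
  let A : Fin n → Finset (Fin n) := fun i =>
    Finset.univ.filter fun j => j ≠ i ∧ 1 / 2 < inner ℝ (u i) (u j)
  let B : Fin n → Finset (Fin m) := fun i =>
    Finset.univ.filter fun a => τ a < inner ℝ (u i) (z a)
  let C : Fin m → Finset (Fin n) := fun a =>
    Finset.univ.filter fun i => τ a < inner ℝ (u i) (z a)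
  have hA : ∀ i j, j ∈ A i ↔ j ≠ i ∧ 1 / 2 < inner ℝ (u i) (u j) := by
    intro i j
    simp [A]
  have hB : ∀ i a, a ∈ B i ↔ τ a < inner ℝ (u i) (z a) := by
    intro i a
    simp [B]
  have hC : ∀ a i, i ∈ C a ↔ τ a < inner ℝ (u i) (z a) := by
    intro a i
    simp [C]
  have hAB : ∀ i, (A i).card + (B i).card ≤ 5 := by
    intro i
    rw [← Finset.card_disjSum]
    refine en_five (u i) (hu i) _ (Sum.elim u z) (Sum.elim (fun _ => 1 / 2) (fun _ => τ0))
      ?_ ?_ ?_ ?_ ?_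
    · rintro (j | a) _
      · exact hu j
      · exact hz a
    · rintro (j | a) _
      · exact le_rfl
      · exact hτ0
    · rintro (j | a) hk
      · rw [Finset.inl_mem_disjSum, hA] at hk
        exact hk.2.le
      · rw [Finset.inr_mem_disjSum, hB] at hk
        exact (hτ a).trans hk.le
    · rintro (j | a) hk
      · rw [Finset.inl_mem_disjSum, hA] at hk
        have := huu i j (Ne.symm hk.1)
        simp only [Sum.elim_inl]
        linarith
      · exact huz' i a
    · rintro (j | a) hk (l | c) hl hkl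
      · have hjl : j ≠ l := fun h => hkl (by rw [h])
        simp only [Sum.elim_inl]
        rw [hG0]
        exact huu j l hjl
      · rw [Finset.inr_mem_disjSum, hB] at hl
        simp only [Sum.elim_inl, Sum.elim_inr]
        exact hG1 j c ((hτ c).trans (hl.le.trans (huz' i c)))
      · rw [Finset.inr_mem_disjSum, hB] at hk
        simp only [Sum.elim_inl, Sum.elim_inr]
        rw [en_G_comm, real_inner_comm]
        exact hG1 l a ((hτ a).trans (hk.le.trans (huz' i a)))
      · rw [Finset.inr_mem_disjSum, hB] at hk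
        have hac : a ≠ c := fun h => hkl (by rw [h])
        simp only [Sum.elim_inr]
        rcases hG2 with h | h
        · rw [h]
          exact hzz a c hac
        · have := (hτ a).trans (hk.le.trans (huz' i a))
          linarith
  have hC5 : ∀ a, (C a).card ≤ 5 := by
    intro a
    refine en_five (z a) (hz a) _ u (fun _ => 1 / 2) (fun k _ => hu k) (fun _ _ => le_rfl)
      ?_ ?_ ?_
    · intro k hk
      rw [hC] at hk
      rw [real_inner_comm]
      linarith [hτ a]
    · intro k _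
      rw [real_inner_comm]
      exact huz' k a
    · intro k _ l _ hkl
      rw [hG0]
      exact huu k l hkl
  -- sums
  have hAsymm : ∀ i j, j ∈ A i ↔ i ∈ A j := by
    intro i j
    rw [hA, hA, real_inner_comm]
    exact and_congr_left fun _ => ne_comm
  have hpair : pairSum (fun i j => max 0 (inner ℝ (u i) (u j) - 1 / 2)) ≤
      ∑ i, (A i).card * (δ i / 2) := by
    have h1 : pairSum (fun i j => max 0 (inner ℝ (u i) (u j) - 1 / 2)) ≤
        ∑ i, ∑ j, ((if i < j ∧ j ∈ A i then δ i / 2 else 0) +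
          (if i < j ∧ j ∈ A i then δ j / 2 else 0)) := by
      unfold pairSum
      refine Finset.sum_le_sum fun i _ => Finset.sum_le_sum fun j _ => ?_
      by_cases hij : i < j
      · rw [if_pos hij]
        by_cases hv : j ∈ A i
        · rw [if_pos ⟨hij, hv⟩, if_pos ⟨hij, hv⟩]
          have := hoo i j hij.ne
          apply max_le
          · linarith [hδ i, hδ j]
          · linarith
        · rw [if_neg (fun h => hv h.2), if_neg (fun h => hv h.2)]
          rw [hA] at hv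
          have h2 : inner ℝ (u i) (u j) ≤ (1 / 2 : ℝ) := by
            by_contra hcon
            exact hv ⟨hij.ne', not_le.mp hcon⟩
          rw [add_zero]
          exact max_le le_rfl (by linarith)
      · rw [if_neg hij, if_neg (fun h => hij h.1), if_neg (fun h => hij h.1), add_zero]
    refine h1.trans ?_
    simp only [Finset.sum_add_distrib]
    rw [Finset.sum_comm (f := fun i j => if i < j ∧ j ∈ A i then δ j / 2 else 0),
      ← Finset.sum_add_distrib]
    refine Finset.sum_le_sum fun i _ => ?_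
    rw [← Finset.sum_add_distrib]
    have h3 : ((A i).card : ℝ) * (δ i / 2) = ∑ j, if j ∈ A i then δ i / 2 else 0 := by
      rw [Finset.sum_ite_mem, Finset.univ_inter, Finset.sum_const, nsmul_eq_mul]
    rw [h3]
    refine Finset.sum_le_sum fun j _ => ?_
    have hd := hδ i
    by_cases hv : j ∈ A i
    · have hv' := (hAsymm i j).mp hv
      rw [if_pos hv]
      rcases lt_trichotomy i j with h | h | h
      · rw [if_pos ⟨h, hv⟩, if_neg (fun h' => lt_asymm h h'.1), add_zero]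
      · rw [if_neg (fun h' => h'.1.ne h), if_neg (fun h' => h'.1.ne' h)]
        linarith
      · rw [if_neg (fun h' => lt_asymm h h'.1), if_pos ⟨h, hv'⟩, zero_add]
    · have hv' : i ∉ A j := fun h => hv ((hAsymm i j).mpr h)
      rw [if_neg hv, if_neg (fun h => hv h.2), if_neg (fun h => hv' h.2), add_zero]
  have hspec : ∑ a, ∑ i, max 0 (inner ℝ (u i) (z a) - τ a) ≤
      ∑ i, (B i).card * (δ i / 2) + ∑ a, (C a).card * (e a / 2) := by
    have h1 : ∑ a, ∑ i, max 0 (inner ℝ (u i) (z a) - τ a) ≤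
        ∑ a, ∑ i, ((if a ∈ B i then δ i / 2 else 0) + (if i ∈ C a then e a / 2 else 0)) := by
      refine Finset.sum_le_sum fun a _ => Finset.sum_le_sum fun i _ => ?_
      by_cases hv : τ a < inner ℝ (u i) (z a)
      · rw [if_pos ((hB i a).mpr hv), if_pos ((hC a i).mpr hv)]
        have := hos i a
        apply max_le
        · linarith [hδ i, he a]
        · linarith
      · rw [if_neg (fun h => hv ((hB i a).mp h)), if_neg (fun h => hv ((hC a i).mp h)), add_zero]
        exact max_le le_rfl (by linarith [not_lt.mp hv])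
    refine h1.trans (le_of_eq ?_)
    simp only [Finset.sum_add_distrib]
    rw [Finset.sum_comm (f := fun a i => if a ∈ B i then δ i / 2 else 0)]
    congr 1
    · refine Finset.sum_congr rfl fun i _ => ?_
      rw [Finset.sum_ite_mem, Finset.univ_inter, Finset.sum_const, nsmul_eq_mul]
    · refine Finset.sum_congr rfl fun a _ => ?_
      rw [Finset.sum_ite_mem, Finset.univ_inter, Finset.sum_const, nsmul_eq_mul]
  have hfin1 : ∑ i, ((A i).card : ℝ) * (δ i / 2) + ∑ i, ((B i).card : ℝ) * (δ i / 2) ≤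
      5 / 2 * ∑ i, δ i := by
    rw [← Finset.sum_add_distrib, Finset.mul_sum]
    refine Finset.sum_le_sum fun i _ => ?_
    have h1 : ((A i).card : ℝ) + ((B i).card : ℝ) ≤ 5 := by exact_mod_cast hAB i
    nlinarith [hδ i]
  have hfin2 : ∑ a, ((C a).card : ℝ) * (e a / 2) ≤ 5 / 2 * ∑ a, e a := by
    rw [Finset.mul_sum]
    refine Finset.sum_le_sum fun a _ => ?_
    have h1 : ((C a).card : ℝ) ≤ 5 := by exact_mod_cast hC5 a
    nlinarith [he a]
  unfold en
  linarith

end Pool.Agent.H54.V
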