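/-
JOB VOR-KBASE.  Elementary lemmas for the K-level.
`Tf_mono`: T = (A² + B² - 1)/(2AB), A = 1+a, B = 1+b: ∂/∂A = (A² + 1 - B²)/(2A²B) > 0 on [1,1.3]²; without calculus:
T(A',B) - T(A,B) = (A'-A)(A A' + 1 - B²)/(2 A A' B).
`Tf_le`: (1+a)(1+b)(1+a+b) = (1+a+b)² + ab(1+a+b) ≥ 1 + 2a + 2b + a² + b².
`gh_slope`: gh x / x = .44 - x - x²/3 is decreasing.
`s_le`: each gh (δ i) ≤ gh D, so δ i ≤ D or gh (δ i) = gh D ... (gh is strictly increasing on [0,1/5]: gh' = .44-2x-x² ≥ 0), then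
gh D · Σ δ i ≤ D Σ gh (δ i) ≤ D gh D.
`en_sep`: `en_le` with e a = max 0 (ε a - (2 τ a - 1)) and Tf_le.
`cfg_sep`: c.sep rewritten.
-/
import Pool.Agent.H54.V.KDefs
import Pool.Agent.H54.V.J.En
set_option autoImplicit false
open MeasureTheory
namespace Pool.Agent.H54.V

theorem Tf_comm (a b : ℝ) : Tf a b = Tf b a := by
  unfold Tf
  congr 1 <;> ring

theorem Tf_mono1 {a a' b : ℝ} (ha : 0 ≤ a) (haa : a ≤ a') (hb : 0 ≤ b) (hb' : b ≤ 3 / 10) :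
    Tf a b ≤ Tf a' b := by
  unfold Tf
  rw [div_le_div_iff₀ (by positivity) (by
    have : 0 ≤ a' := ha.trans haa
    positivity)]
  have h1 : 0 ≤ (1 + a) * (1 + a') + 1 - (1 + b) ^ 2 := by nlinarith [ha.trans haa]
  have h2 : 0 ≤ 2 * (1 + b) * ((a' - a) * ((1 + a) * (1 + a') + 1 - (1 + b) ^ 2)) :=
    mul_nonneg (by linarith) (mul_nonneg (by linarith) h1)
  linarith

theorem Tf_mono {a a' b b' : ℝ} (ha : 0 ≤ a) (haa : a ≤ a') (hb : 0 ≤ b) (hbb : b ≤ b') (ha' : a' ≤ 3 / 10)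
    (hb' : b' ≤ 3 / 10) : Tf a b ≤ Tf a' b' := by
  refine (Tf_mono1 ha haa hb (hbb.trans hb')).trans ?_
  rw [Tf_comm a' b, Tf_comm a' b']
  exact Tf_mono1 hb hbb (ha.trans haa) ha'

theorem Tf_le {a b : ℝ} (ha : 0 ≤ a) (hb : 0 ≤ b) : Tf a b ≤ 1 / 2 + (a + b) / 2 := by
  unfold Tf
  rw [div_le_iff₀ (by positivity)]
  have h1 : 0 ≤ a * b := mul_nonneg ha hb
  have h2 : 0 ≤ a * b * (1 + a + b) := mul_nonneg h1 (by linarith)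
  nlinarith

theorem cfg_sep {N : ℕ} {H : ℝ} (c : Cfg N H) (i j : Fin N) (h : i ≠ j) :
    inner ℝ (c.u i) (c.u j) ≤ Tf (c.h i - 1) (c.h j - 1) := by
  have h1 := c.sep i j h
  unfold Tf
  rw [add_sub_cancel, add_sub_cancel]
  exact h1

theorem ch_one : ch 1 = 17 / 375 := by
  unfold ch
  norm_num

theorem ch_eq {x : ℝ} (hx : 0 ≤ x) (hx' : x < 1 / 5) : ch (1 + x) = ch 1 - gh x := by
  rw [ch_one]
  unfold ch gh
  rw [if_pos (by linarith)]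
  ring

theorem ch_nonneg {h : ℝ} (h1 : 1 ≤ h) : 0 ≤ ch h := by
  unfold ch
  split_ifs
  · have h2 : 0 ≤ 12 / 5 + h := by linarith
    positivity
  · exact le_rfl

theorem ch_anti {h k : ℝ} (h1 : 1 ≤ h) (hk : h ≤ k) : ch k ≤ ch h := by
  by_cases hk2 : k < 6 / 5
  · unfold ch
    rw [if_pos hk2, if_pos (hk.trans_lt hk2)]
    have h3 : 0 ≤ (k - h) * (18 / 5 * ((6 / 5 - h) + (6 / 5 - k)) -
        ((6 / 5 - h) ^ 2 + (6 / 5 - h) * (6 / 5 - k) + (6 / 5 - k) ^ 2)) := by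
      apply mul_nonneg (by linarith)
      have hu : 0 ≤ 6 / 5 - h := by linarith
      have hv : 0 ≤ 6 / 5 - k := by linarith
      have hu1 : 6 / 5 - h ≤ 1 / 5 := by linarith
      have hv1 : 6 / 5 - k ≤ 1 / 5 := by linarith
      nlinarith [mul_nonneg hu hv]
    linarith
  · have h3 : ch k = 0 := by
      unfold ch
      rw [if_neg hk2]
    rw [h3]
    exact ch_nonneg h1

theorem gh_nonneg {x : ℝ} (hx : 0 ≤ x) (hx' : x ≤ 1 / 5) : 0 ≤ gh x := by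
  unfold gh
  have h1 : 0 ≤ x * (11 / 25 - x - x ^ 2 / 3) := by
    apply mul_nonneg hx
    nlinarith
  linarith

theorem gh_strict {x y : ℝ} (hx : 0 ≤ x) (hxy : x < y) (hy : y ≤ 1 / 5) : gh x < gh y := by
  unfold gh
  have h2 : x ^ 2 + x * y + y ^ 2 ≤ 3 / 25 := by nlinarith
  have h1 : 0 < (y - x) * (11 / 25 - (x + y) - (x ^ 2 + x * y + y ^ 2) / 3) :=
    mul_pos (by linarith) (by linarith)
  linarith

theorem gh_mono {x y : ℝ} (hx : 0 ≤ x) (hxy : x ≤ y) (hy : y ≤ 1 / 5) : gh x ≤ gh y := by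
  rcases hxy.eq_or_lt with h | h
  · rw [h]
  · exact (gh_strict hx h hy).le

theorem gh_slope {x D : ℝ} (hx : 0 ≤ x) (hxD : x ≤ D) (hD : D ≤ 1 / 5) : gh D * x ≤ gh x * D := by
  unfold gh
  have hD0 : 0 ≤ D := hx.trans hxD
  have h1 : 0 ≤ x * D * ((D - x) * (1 + (D + x) / 3)) :=
    mul_nonneg (mul_nonneg hx hD0) (mul_nonneg (by linarith) (by linarith))
  linarith

/-- `δ i ≤ D` for all `i`. -/
theorem s_le_slope {n : ℕ} (δ : Fin n → ℝ) (h0 : ∀ i, 0 ≤ δ i) (D : ℝ) (hD : D ≤ 1 / 5) (h : ∀ i, δ i ≤ D) :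
    gh D * ∑ i, δ i ≤ D * ∑ i, gh (δ i) := by
  rw [Finset.mul_sum, Finset.mul_sum]
  refine Finset.sum_le_sum fun i _ => ?_
  rw [mul_comm D]
  exact gh_slope (h0 i) (h i) hD

theorem s_le {n : ℕ} (δ : Fin n → ℝ) (h0 : ∀ i, 0 ≤ δ i) (h5 : ∀ i, δ i ≤ 1 / 5) (D : ℝ) (hD0 : 0 < D)
    (hD : D ≤ 1 / 5) (h : ∑ i, gh (δ i) ≤ gh D) : ∑ i, δ i ≤ D := by
  have h1 : ∀ i, δ i ≤ D := by
    intro i
    by_contra hc
    have h2 : gh (δ i) ≤ ∑ i, gh (δ i) :=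
      Finset.single_le_sum (f := fun i => gh (δ i)) (fun i _ => gh_nonneg (h0 i) (h5 i))
        (Finset.mem_univ i)
    have h3 := gh_strict hD0.le (not_le.mp hc) (h5 i)
    linarith
  have h2 := s_le_slope δ h0 D hD h1
  have h3 : 0 < gh D := by
    have h4 := gh_strict le_rfl hD0 hD
    have h5 : gh 0 = 0 := by
      unfold gh
      norm_num
    linarith
  have h4 : D * ∑ i, gh (δ i) ≤ D * gh D := mul_le_mul_of_nonneg_left h hD0.le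
  have h5 : gh D * ∑ i, δ i ≤ gh D * D := by linarith
  exact le_of_mul_le_mul_left h5 h3

theorem le_sum {n : ℕ} (δ : Fin n → ℝ) (h0 : ∀ i, 0 ≤ δ i) (i : Fin n) : δ i ≤ ∑ k, δ k :=
  Finset.single_le_sum (f := δ) (fun i _ => h0 i) (Finset.mem_univ i)

theorem le_sum2 {n : ℕ} (δ : Fin n → ℝ) (h0 : ∀ i, 0 ≤ δ i) (i j : Fin n) (hij : i ≠ j) : δ i + δ j ≤ ∑ k, δ k := by
  rw [← Finset.sum_pair hij]
  exact Finset.sum_le_sum_of_subset_of_nonneg (Finset.subset_univ _) (fun k _ _ => h0 k)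

theorem en_sep {n m : ℕ} (u : Fin n → E3) (z : Fin m → E3) (hu : ∀ i, ‖u i‖ = 1) (hz : ∀ a, ‖z a‖ = 1)
    (δ : Fin n → ℝ) (ε : Fin m → ℝ) (hδ : ∀ i, 0 ≤ δ i) (hε : ∀ a, 0 ≤ ε a) (τ : Fin m → ℝ) (τ0 : ℝ)
    (hτ0 : 1 / 2 ≤ τ0) (hτ : ∀ a, τ0 ≤ τ a)
    (huu : ∀ i j, i ≠ j → inner ℝ (u i) (u j) ≤ Tf (δ i) (δ j)) (huz : ∀ i a, inner ℝ (u i) (z a) ≤ Tf (δ i) (ε a))
    (huu5 : ∀ i j, i ≠ j → inner ℝ (u i) (u j) < (5 / 8 : ℝ))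
    (huz5 : ∀ i a, inner ℝ (u i) (z a) < (5 / 8 : ℝ) ∨ (3 / 5 ≤ τ0 ∧ inner ℝ (u i) (z a) ≤ (0.64 : ℝ)))
    (hzz5 : ∀ a b, a ≠ b → inner ℝ (z a) (z b) < (1 + τ0 ^ 2) / 2) :
    en u z τ ≤ 5 / 2 * ∑ i, δ i + 5 / 2 * ∑ a, max 0 (ε a - (2 * τ a - 1)) := by
  refine en_le u z hu hz δ hδ τ (fun a => max 0 (ε a - (2 * τ a - 1))) (fun a => le_max_left _ _)
    τ0 hτ0 hτ huu5 huz5 hzz5 ?_ ?_
  · intro i j hij
    exact (huu i j hij).trans (Tf_le (hδ i) (hδ j))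
  · intro i a
    have h1 := (huz i a).trans (Tf_le (hδ i) (hε a))
    have h2 : ε a - (2 * τ a - 1) ≤ max 0 (ε a - (2 * τ a - 1)) := le_max_right _ _
    linarith

end Pool.Agent.H54.V
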