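/-
JOB VOR-K14A.  Fourteen centres, δ_13 ≤ .1 (index 12), δ_14 ≤ .175 (index 13): the K-criterion holds.
Write δ i = c.h i - 1.  Suppose not K: Σ_{i<14} ch (c.h i) > 12 ch 1 - .00675, ch (1+x) = ch 1 - gh x (`ch_eq`), ch 1 = 17/375.
(a) δ_14 ≤ .1: Σ_{i<14} gh (δ i) < 2·17/375 + .00675 = .0974167; `s_le_slope` with D = .1, gh .1/.1 = .3366667:
 Σδ < .28936; `HL1` (T(.1,.1) ≤ .5868) and `en_sep` (m = 0): .7796 ≤ en ≤ 2.5 Σδ < .7234, contradiction.
(b) δ_14 > .1: 13 ordinary points, special point z = u 13, ε = δ_14.  Σ_{i<13} gh (δ i) < 17/375 + ch (1+δ_14) + .00675,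
 Σ_{i<13} δ i < that/.3366667, en ≤ 2.5 Σδ as ε ≤ 2τ-1:
 δ_14 ∈ (.1,.125]: ch ≤ ch 1.1 = .0116667, 2.5Σδ < .4735 < .5218 (HL2, T(.1,.125) ≤ .5963);
 δ_14 ∈ (.125,.155]: ch ≤ ch 1.125 = .006610, 2.5Σδ < .4359 < .4593 (HL3, T(.1,.155) ≤ .6077);
 δ_14 ∈ (.155,.175]: ch ≤ ch 1.155 = .0024, 2.5Σδ < .4046 < .4187 (HL4, T(.1,.175) ≤ .6155).
 In all cases T(.1,.1) ≤ .5868 < 5/8 and T(.1,.175) < 5/8.
-/
import Pool.Agent.H54.V.J.KBase
set_option autoImplicit false
open MeasureTheory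
namespace Pool.Agent.H54.V

theorem k14a_gh1 : gh 0.1 = 101 / 3000 := by
  unfold gh
  norm_num

theorem k14a_unit (c : Cfg 14 (6 / 5)) (i : Fin 14) : 0 ≤ c.h i - 1 := by
  linarith [c.one_le i]

theorem k14a_castSucc (c : Cfg 14 (6 / 5)) (h12 : c.h 12 ≤ 1.1) (i : Fin 13) :
    c.h i.castSucc - 1 ≤ 0.1 := by
  have h : i.castSucc ≤ (12 : Fin 14) := by
    rw [Fin.le_def]
    have h1 := i.isLt
    have h2 : ((12 : Fin 14) : ℕ) = 12 := rfl
    rw [h2, Fin.val_castSucc]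
    omega
  have := c.mono h
  norm_num at h12 ⊢
  linarith

/-- the general case: thirteen ordinary points and one special point -/
theorem k14a_case (c : Cfg 14 (6 / 5)) (h12 : c.h 12 ≤ 1.1) (lo hi τ U E : ℝ)
    (hT : TCert 13 (0.5868 : ℝ) (fun _ : Fin 1 => U) (fun _ => τ) (fun _ _ => 0.6) E)
    (hlo1 : 1 ≤ lo) (hlo : lo ≤ c.h 13) (hhi : c.h 13 ≤ hi) (hhi3 : hi ≤ 1.3) (hτ : hi ≤ 2 * τ)
    (hτ0 : 1 / 2 ≤ τ) (hU : Tf 0.1 (hi - 1) ≤ U) (hU5 : U < 5 / 8)
    (hE : 5 / 2 * (0.1 * (17 / 375 + ch lo + 27 / 4000)) ≤ E * (101 / 3000)) : KK c.h := by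
  unfold KK
  by_contra hK
  push Not at hK
  rw [ch_one] at hK
  have hlast : (Fin.last 13 : Fin 14) = 13 := rfl
  rw [Fin.sum_univ_castSucc, hlast] at hK
  set δ : Fin 13 → ℝ := fun i => c.h i.castSucc - 1 with hδ
  have hδ0 : ∀ i, 0 ≤ δ i := fun i => k14a_unit c _
  have hδ1 : ∀ i, δ i ≤ 0.1 := fun i => k14a_castSucc c h12 i
  have hch : ∀ i : Fin 13, ch (c.h i.castSucc) = 17 / 375 - gh (δ i) := by
    intro i
    have h1 : c.h i.castSucc = 1 + δ i := by
      simp only [hδ]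
      ring
    rw [h1, ch_eq (hδ0 i) (by have := hδ1 i; norm_num at this ⊢; linarith), ch_one]
  have hsum : ∑ i : Fin 13, ch (c.h i.castSucc) = 13 * (17 / 375) - ∑ i, gh (δ i) := by
    rw [Finset.sum_congr rfl (fun i _ => hch i), Finset.sum_sub_distrib]
    simp
  have hlast2 : ch (c.h 13) ≤ ch lo := ch_anti hlo1 hlo
  have hgh : ∑ i, gh (δ i) < 17 / 375 + ch lo + 27 / 4000 := by
    rw [hsum] at hK
    linarith
  have hslope := s_le_slope δ hδ0 0.1 (by norm_num) hδ1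
  rw [k14a_gh1] at hslope
  have hsep : ∀ i j : Fin 13, i ≠ j → inner ℝ (c.u i.castSucc) (c.u j.castSucc) ≤ Tf (δ i) (δ j) := by
    intro i j hij
    exact cfg_sep c _ _ (fun h => hij (Fin.castSucc_injective _ h))
  have hsepz : ∀ (i : Fin 13) (_ : Fin 1), inner ℝ (c.u i.castSucc) (c.u 13) ≤
      Tf (δ i) (c.h 13 - 1) := by
    intro i _
    refine cfg_sep c _ _ (fun h => ?_)
    rw [← hlast] at h
    exact (Fin.castSucc_lt_last i).ne h
  have h13 : 0 ≤ c.h 13 - 1 := k14a_unit c _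
  have hTuu : ∀ i j : Fin 13, Tf (δ i) (δ j) ≤ 0.5868 := by
    intro i j
    refine (Tf_mono (hδ0 i) (hδ1 i) (hδ0 j) (hδ1 j) (by norm_num) (by norm_num)).trans ?_
    unfold Tf
    norm_num
  have hTuz : ∀ i : Fin 13, Tf (δ i) (c.h 13 - 1) ≤ U := by
    intro i
    exact (Tf_mono (hδ0 i) (hδ1 i) h13 (sub_le_sub_right hhi 1) (by norm_num)
      (by norm_num at hhi3 ⊢; linarith)).trans hU
  have e1 := hT (fun i : Fin 13 => c.u i.castSucc) (fun _ : Fin 1 => c.u 13) (fun i => c.unit _)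
    (fun _ => c.unit _) (fun i j hij => (hsep i j hij).trans (hTuu i j))
    (fun i a => (hsepz i a).trans (hTuz i)) (fun a b hab => absurd (Subsingleton.elim a b) hab)
  have e2 := en_sep (fun i : Fin 13 => c.u i.castSucc) (fun _ : Fin 1 => c.u 13) (fun i => c.unit _)
    (fun _ => c.unit _) δ (fun _ => c.h 13 - 1) hδ0 (fun _ => h13) (fun _ => τ) τ hτ0
    (fun _ => le_refl _) hsep hsepz
    (fun i j hij => lt_of_le_of_lt ((hsep i j hij).trans (hTuu i j)) (by norm_num))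
    (fun i a => Or.inl (lt_of_le_of_lt ((hsepz i a).trans (hTuz i)) hU5))
    (fun a b hab => absurd (Subsingleton.elim a b) hab)
  rw [Fin.sum_univ_one, max_eq_left (by linarith)] at e2
  have e3 : E ≤ 5 / 2 * ∑ i, δ i := by
    linarith
  have e4 : E * (101 / 3000) ≤ 5 / 2 * (101 / 3000 * ∑ i, δ i) := by
    linarith
  norm_num at hslope e4 hE hgh
  linarith

theorem K14a (h1 : HL1) (h2 : HL2) (h3 : HL3) (h4 : HL4) (c : Cfg 14 (6 / 5)) (h12 : c.h 12 ≤ 1.1)
    (h13 : c.h 13 ≤ 1.175) : KK c.h := by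
  rcases le_or_gt (c.h 13) 1.1 with ha | ha
  · -- all heights at most 1.1
    unfold KK
    by_contra hK
    push Not at hK
    rw [ch_one] at hK
    set δ : Fin 14 → ℝ := fun i => c.h i - 1 with hδ
    have hδ0 : ∀ i, 0 ≤ δ i := fun i => k14a_unit c _
    have hδ1 : ∀ i, δ i ≤ 0.1 := by
      intro i
      have h : i ≤ (13 : Fin 14) := Fin.le_last i
      have := c.mono h
      simp only [hδ]
      norm_num at ha ⊢
      linarith
    have hch : ∀ i : Fin 14, ch (c.h i) = 17 / 375 - gh (δ i) := by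
      intro i
      have h1 : c.h i = 1 + δ i := by
        simp only [hδ]
        ring
      rw [h1, ch_eq (hδ0 i) (by have := hδ1 i; norm_num at this ⊢; linarith), ch_one]
    have hsum : ∑ i : Fin 14, ch (c.h i) = 14 * (17 / 375) - ∑ i, gh (δ i) := by
      rw [Finset.sum_congr rfl (fun i _ => hch i), Finset.sum_sub_distrib]
      simp
    rw [hsum] at hK
    have hslope := s_le_slope δ hδ0 0.1 (by norm_num) hδ1
    rw [k14a_gh1] at hslope
    have hsep : ∀ i j : Fin 14, i ≠ j → inner ℝ (c.u i) (c.u j) ≤ Tf (δ i) (δ j) :=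
      fun i j hij => cfg_sep c _ _ hij
    have hTuu : ∀ i j : Fin 14, Tf (δ i) (δ j) ≤ 0.5868 := by
      intro i j
      refine (Tf_mono (hδ0 i) (hδ1 i) (hδ0 j) (hδ1 j) (by norm_num) (by norm_num)).trans ?_
      unfold Tf
      norm_num
    have e1 := h1 c.u (fun _ : Fin 0 => 0) c.unit (fun a => a.elim0)
      (fun i j hij => (hsep i j hij).trans (hTuu i j)) (fun i a => a.elim0) (fun a => a.elim0)
    have e2 := en_sep c.u (fun _ : Fin 0 => (0 : E3)) c.unit (fun a => a.elim0) δ (fun _ => 0) hδ0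
      (fun a => a.elim0) (fun _ => 0) (1 / 2) (le_refl _) (fun a => a.elim0) hsep
      (fun i a => a.elim0)
      (fun i j hij => lt_of_le_of_lt ((hsep i j hij).trans (hTuu i j)) (by norm_num))
      (fun i a => a.elim0) (fun a => a.elim0)
    rw [Fin.sum_univ_zero] at e2
    norm_num at e1 e2 hslope hK
    linarith
  · rcases le_or_gt (c.h 13) 1.125 with hb | hb
    · refine k14a_case c h12 1.1 1.125 0.5625 0.5963 0.5218 h2 (by norm_num) ha.le hb (by norm_num)
        (by norm_num) (by norm_num) ?_ (by norm_num) ?_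
      · unfold Tf
        norm_num
      · unfold ch
        norm_num
    · rcases le_or_gt (c.h 13) 1.155 with hd | hd
      · refine k14a_case c h12 1.125 1.155 0.5775 0.6077 0.4593 h3 (by norm_num) hb.le hd
          (by norm_num) (by norm_num) (by norm_num) ?_ (by norm_num) ?_
        · unfold Tf
          norm_num
        · unfold ch
          norm_num
      · refine k14a_case c h12 1.155 1.175 0.5875 0.6155 0.4187 h4 (by norm_num) hd.le h13
          (by norm_num) (by norm_num) (by norm_num) ?_ (by norm_num) ?_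
        · unfold Tf
          norm_num
        · unfold ch
          norm_num

end Pool.Agent.H54.V
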