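/-
JOB VOR-K14C.  Fourteen centres, .1 < δ_13 ≤ .156 (index 12), δ_13 ≤ δ_14 ≤ .175 (index 13): the K-criterion holds.
Write δ i = c.h i - 1.  Suppose not K: then (ch (1+x) = ch 1 - gh x)
 Σ_{i<12} gh (δ i) < ρ := ch (1+δ_13) + ch (1+δ_14) + .00675.
If ρ ≤ gh D then s = Σ_{i<12} δ i ≤ D (`s_le`), so δ i ≤ D, δ i + δ j ≤ D and ⟪u i,u j⟫ ≤ Tf ≤ 1/2 + D/2 (`Tf_le`, `le_sum2`).
Special points: u 12, u 13.  In each case ε a ≤ 2 τ a - 1, so `en_sep` gives en ≤ 2.5 s ≤ 2.5 D.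
(1) δ_14 ≤ .14: ρ ≤ 2 ch 1.1 + .00675 = .0300834 ≤ gh .0855; 2.5 D = .21375 < .2360 (HK1); 1/2 + D/2 ≤ .5435,
 T(.0855,.14) ≤ .5976, T(.14,.14) ≤ .6153.
(2) δ_13 ≤ .125, .14 < δ_14 ≤ .175: ρ ≤ ch 1.1 + ch 1.14 + .00675 = .0226647 ≤ gh .06; 2.5 D = .15 < .1975 (HK2);
 T(.06,.125) ≤ .5836, T(.06,.175) ≤ .6047, T(.125,.175) ≤ .6274.
(3) δ_13 ∈ (.125,.156], .14 < δ_14 ≤ .175: ρ ≤ ch 1.125 + ch 1.14 + .00675 = .017608 ≤ gh .0448; 2.5 D = .112 < .1255 (HK3);
 1/2 + D/2 ≤ .5228, T(.0448,.156) ≤ .5913, T(.0448,.175) ≤ .6008, T(.156,.175) ≤ .6366.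
 In all cases all inner products with ordinary points are < 5/8 and T(ε,ε') < (1+τ0²)/2 with τ0 = .5625.
-/
import Pool.Agent.H54.V.J.KBase
set_option autoImplicit false
open MeasureTheory
namespace Pool.Agent.H54.V

theorem K14c_core (c : Cfg 14 (6 / 5)) (D : ℝ) (hD0 : 0 < D) (hD : D ≤ 1 / 5) (l0 l1 e0 e1 : ℝ)
    (hl0 : 1 ≤ l0) (hl1 : 1 ≤ l1) (hl0' : l0 ≤ c.h 12) (hl1' : l1 ≤ c.h 13)
    (he0 : c.h 12 ≤ 1 + e0) (he1 : c.h 13 ≤ 1 + e1) (he0' : e0 ≤ 3 / 10) (he1' : e1 ≤ 3 / 10)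
    (hρ : ch l0 + ch l1 + 27 / 4000 ≤ gh D)
    (tp : ℝ) (U τ : Fin 2 → ℝ) (tz E : ℝ) (hT : TCert 12 tp U τ (fun _ _ => tz) E)
    (htp : 1 / 2 + D / 2 ≤ tp) (htp5 : tp < 5 / 8) (hU0 : Tf D e0 ≤ U 0) (hU1 : Tf D e1 ≤ U 1)
    (hU05 : U 0 < 5 / 8) (hU15 : U 1 < 5 / 8) (hz : Tf e0 e1 ≤ tz)
    (hz5 : tz < (1 + (9 / 16 : ℝ) ^ 2) / 2) (hτ0 : 9 / 16 ≤ τ 0) (hτ1 : 9 / 16 ≤ τ 1)
    (hτe0 : e0 ≤ 2 * τ 0 - 1) (hτe1 : e1 ≤ 2 * τ 1 - 1) (hE : 5 / 2 * D < E) : KK c.h := by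
  by_contra hK
  unfold KK at hK
  rw [not_le] at hK
  have hsum : ∑ i : Fin 14, ch (c.h i) = ∑ i : Fin 12, ch (c.h (Fin.castAdd 2 i)) +
      ∑ a : Fin 2, ch (c.h (Fin.natAdd 12 a)) :=
    Fin.sum_univ_add (a := 12) (b := 2) (fun i => ch (c.h i))
  set δ : Fin 12 → ℝ := fun i => c.h (Fin.castAdd 2 i) - 1 with hδ
  have hδ0 : ∀ i, 0 ≤ δ i := fun i => sub_nonneg.2 (c.one_le _)
  have hδ5' : ∀ i, δ i < 1 / 5 := by
    intro i
    have h1 := c.lt (Fin.castAdd 2 i)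
    have h2 : δ i = c.h (Fin.castAdd 2 i) - 1 := rfl
    rw [h2]
    linarith
  have hch : ∀ i : Fin 12, ch (c.h (Fin.castAdd 2 i)) = ch 1 - gh (δ i) := by
    intro i
    have h1 := ch_eq (hδ0 i) (hδ5' i)
    have h2 : 1 + δ i = c.h (Fin.castAdd 2 i) := by
      change 1 + (c.h (Fin.castAdd 2 i) - 1) = _
      ring
    rw [h2] at h1
    exact h1
  have hsum1 : ∑ i : Fin 12, ch (c.h (Fin.castAdd 2 i)) = 12 * ch 1 - ∑ i, gh (δ i) := by
    rw [Finset.sum_congr rfl fun i _ => hch i, Finset.sum_sub_distrib]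
    simp
  have hsum2 : ∑ a : Fin 2, ch (c.h (Fin.natAdd 12 a)) = ch (c.h 12) + ch (c.h 13) := by
    rw [Fin.sum_univ_two]
    rfl
  have hc0 : ch (c.h 12) ≤ ch l0 := ch_anti hl0 hl0'
  have hc1 : ch (c.h 13) ≤ ch l1 := ch_anti hl1 hl1'
  have hgh : ∑ i, gh (δ i) ≤ gh D := by
    rw [hsum, hsum1, hsum2] at hK
    linarith
  have hs : ∑ i, δ i ≤ D := s_le δ hδ0 (fun i => (hδ5' i).le) D hD0 hD hgh
  have hδD : ∀ i, δ i ≤ D := fun i => (le_sum δ hδ0 i).trans hs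
  -- special points
  set ε : Fin 2 → ℝ := fun a => c.h (Fin.natAdd 12 a) - 1 with hε
  set e : Fin 2 → ℝ := ![e0, e1] with he
  have hε0 : ∀ a, 0 ≤ ε a := fun a => sub_nonneg.2 (c.one_le _)
  have hεe : ∀ a, ε a ≤ e a := by
    intro a
    fin_cases a
    · change c.h 12 - 1 ≤ e0
      linarith
    · change c.h 13 - 1 ≤ e1
      linarith
  have he3 : ∀ a, e a ≤ 3 / 10 := by
    intro a
    fin_cases a
    · exact he0'
    · exact he1'
  have hUa : ∀ a, Tf D (e a) ≤ U a := by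
    intro a
    fin_cases a
    · exact hU0
    · exact hU1
  have hUa5 : ∀ a, U a < 5 / 8 := by
    intro a
    fin_cases a
    · exact hU05
    · exact hU15
  have hτa : ∀ a, 9 / 16 ≤ τ a := by
    intro a
    fin_cases a
    · exact hτ0
    · exact hτ1
  have hτea : ∀ a, e a ≤ 2 * τ a - 1 := by
    intro a
    fin_cases a
    · exact hτe0
    · exact hτe1
  have huu : ∀ i j : Fin 12, i ≠ j →
      inner ℝ (c.u (Fin.castAdd 2 i)) (c.u (Fin.castAdd 2 j)) ≤ Tf (δ i) (δ j) := by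
    intro i j hij
    exact cfg_sep c _ _ (fun h => hij (Fin.castAdd_injective 12 2 h))
  have hne : ∀ (i : Fin 12) (a : Fin 2), (Fin.castAdd 2 i : Fin 14) ≠ Fin.natAdd 12 a := by
    intro i a h
    have h1 := congrArg Fin.val h
    simp only [Fin.val_castAdd, Fin.val_natAdd] at h1
    have := i.2
    omega
  have huz : ∀ (i : Fin 12) (a : Fin 2),
      inner ℝ (c.u (Fin.castAdd 2 i)) (c.u (Fin.natAdd 12 a)) ≤ Tf (δ i) (ε a) := by
    intro i a
    exact cfg_sep c _ _ (hne i a)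
  have huuD : ∀ i j : Fin 12, i ≠ j →
      inner ℝ (c.u (Fin.castAdd 2 i)) (c.u (Fin.castAdd 2 j)) ≤ tp := by
    intro i j hij
    have h1 := Tf_le (hδ0 i) (hδ0 j)
    have h2 := le_sum2 δ hδ0 i j hij
    have h3 := huu i j hij
    linarith
  have huzD : ∀ (i : Fin 12) (a : Fin 2),
      inner ℝ (c.u (Fin.castAdd 2 i)) (c.u (Fin.natAdd 12 a)) ≤ U a := by
    intro i a
    refine (huz i a).trans (le_trans ?_ (hUa a))
    exact Tf_mono (hδ0 i) (hδD i) (hε0 a) (hεe a) (by linarith) (he3 a)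
  have h01 : inner ℝ (c.u 12) (c.u 13) ≤ tz := by
    refine (cfg_sep c 12 13 (by decide)).trans (le_trans ?_ hz)
    exact Tf_mono (hε0 0) (hεe 0) (hε0 1) (hεe 1) he0' he1'
  have hzz : ∀ a b : Fin 2, a ≠ b →
      inner ℝ (c.u (Fin.natAdd 12 a)) (c.u (Fin.natAdd 12 b)) ≤ tz := by
    intro a b hab
    fin_cases a <;> fin_cases b
    · exact absurd rfl hab
    · exact h01
    · have h2 : inner ℝ (c.u 13) (c.u 12) = (inner ℝ (c.u 12) (c.u 13) : ℝ) :=
        real_inner_comm _ _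
      change inner ℝ (c.u 13) (c.u 12) ≤ tz
      rw [h2]
      exact h01
    · exact absurd rfl hab
  have hen := hT (fun i => c.u (Fin.castAdd 2 i)) (fun a => c.u (Fin.natAdd 12 a))
    (fun i => c.unit _) (fun a => c.unit _) huuD huzD hzz
  have hen2 := en_sep (fun i : Fin 12 => c.u (Fin.castAdd 2 i)) (fun a : Fin 2 => c.u (Fin.natAdd 12 a))
    (fun i => c.unit _) (fun a => c.unit _) δ ε hδ0 hε0 τ (9 / 16) (by norm_num) hτa huu huz
    (fun i j hij => lt_of_le_of_lt (huuD i j hij) htp5)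
    (fun i a => Or.inl (lt_of_le_of_lt (huzD i a) (hUa5 a)))
    (fun a b hab => lt_of_le_of_lt (hzz a b hab) hz5)
  have h0 : ∑ a : Fin 2, max 0 (ε a - (2 * τ a - 1)) = 0 := by
    refine Finset.sum_eq_zero fun a _ => max_eq_left ?_
    have h1 := hεe a
    have h2 := hτea a
    linarith
  rw [h0] at hen2
  linarith

theorem K14c (h1 : HK1) (h2 : HK2) (h3 : HK3) (c : Cfg 14 (6 / 5)) (h12 : 1.1 < c.h 12) (h12' : c.h 12 ≤ 1.156)
    (h13 : c.h 13 ≤ 1.175) : KK c.h := by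
  have hm : c.h 12 ≤ c.h 13 := c.mono (by decide)
  have hch : ∀ x : ℝ, x < 6 / 5 → ch x = (6 / 5 - x) ^ 2 * (12 / 5 + x) / 3 := by
    intro x hx
    unfold ch
    rw [if_pos hx]
  rcases le_or_gt (c.h 13) 1.14 with hA | hA
  · refine K14c_core c 0.0855 (by norm_num) (by norm_num) 1.1 1.1 0.14 0.14 (by norm_num)
      (by norm_num) h12.le (h12.le.trans hm) (by norm_num at hA ⊢; linarith)
      (by norm_num at hA ⊢; linarith) (by norm_num) (by norm_num) ?_ _ _ _ _ _ h1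
      (by norm_num) (by norm_num) ?_ ?_ (by norm_num) (by norm_num) ?_ (by norm_num) (by norm_num)
      (by norm_num) (by norm_num) (by norm_num) (by norm_num)
    · rw [hch _ (by norm_num)]
      unfold gh
      norm_num
    · unfold Tf
      norm_num
    · unfold Tf
      norm_num
    · unfold Tf
      norm_num
  · rcases le_or_gt (c.h 12) 1.125 with hB | hB
    · refine K14c_core c 0.06 (by norm_num) (by norm_num) 1.1 1.14 0.125 0.175 (by norm_num)
        (by norm_num) h12.le hA.le (by norm_num at hB ⊢; linarith)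
        (by norm_num at h13 ⊢; linarith) (by norm_num) (by norm_num) ?_ _ _ _ _ _ h2
        (by norm_num) (by norm_num) ?_ ?_ ?_ ?_ ?_ (by norm_num) ?_
        ?_ ?_ ?_ (by norm_num)
      · rw [hch _ (by norm_num), hch _ (by norm_num)]
        unfold gh
        norm_num
      · unfold Tf
        norm_num
      · unfold Tf
        norm_num
      · norm_num
      · norm_num
      · unfold Tf
        norm_num
      · norm_num
      · norm_num
      · norm_num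
      · norm_num
    · refine K14c_core c 0.0448 (by norm_num) (by norm_num) 1.125 1.14 0.156 0.175 (by norm_num)
        (by norm_num) hB.le hA.le (by norm_num at h12' ⊢; linarith)
        (by norm_num at h13 ⊢; linarith) (by norm_num) (by norm_num) ?_ _ _ _ _ _ h3
        (by norm_num) (by norm_num) ?_ ?_ ?_ ?_ ?_ (by norm_num) ?_
        ?_ ?_ ?_ (by norm_num)
      · rw [hch _ (by norm_num), hch _ (by norm_num)]
        unfold gh
        norm_num
      · unfold Tf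
        norm_num
      · unfold Tf
        norm_num
      · norm_num
      · norm_num
      · unfold Tf
        norm_num
      · norm_num
      · norm_num
      · norm_num
      · norm_num

end Pool.Agent.H54.V
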