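/-
JOB VOR-K15.  Fifteen or more centres with h < 6/5: the K-criterion holds.
Let n = #{i : c.h i ≤ 1.12} (the first n indices, c.h is monotone), m = N - n; u = first n, z = last m directions,
δ i = c.h i - 1 ≤ .12, ε a = c.h - 1 ∈ (.12,.2).  T(.12,.12) ≤ .60141, T(.12,.2) ≤ .63036, T(.2,.2) ≤ .65278 (`Tf_mono`,
`cfg_sep`), so `hL n m` gives E10 n m ≤ en, and `en_sep` (τ = τ0 = .6; .60141 < 5/8, .63036 ≤ .64, .65278 < .68;
ε - .2 ≤ 0) gives en ≤ (5/2) Σ δ i.  Also Σ gh (δ i) ≥ (gh .12/.12) Σ δ i (`s_le_slope`), gh .12/.12 = .3152, so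
Σ gh (δ i) ≥ .12608 E10 n m; and Σ gh (δ i) ≥ 0.
K holds as soon as Σ_{i<n} gh (δ i) ≥ (n - 12)·17/375 + m·ch 1.12 + 27/4000, ch 1.12 = 0.00750933.. (≤ .0075094):
arithmetic lemma `K15_arith`: for naturals with n + m ≥ 15: (n-12)·17/375 + m·.0075094 + .00675 ≤ 0 or ≤ .12608·E10 n m.
Numerically (n,m): need/.12608 vs E10: (12,3): .2322 < .4573, (13,2): .5322 < .8707, (14,1): .8322 < 1.3009,
(15,0): 1.1322 < 1.7478, (12,4): .2918 < 1.017; E10 grows quadratically.  Proof: Q(n,m) = E10 - need is increasing in n and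
in m for n + m ≥ 15 (Q(n+1,m)-Q(n,m) = .13141 n + .07851 m - .803345 - .35956.. > 0 for n+m ≥ 15, similarly in m if n ≥ 12:
.07851 n + .0424 m - .5097 - .05956 > 0), so for n ≥ 12 reduce to n + m = 15; for n ≤ 11 (interval_cases n) need > 0 forces m
large (n = 11: m ≥ 6, n = 10: m ≥ 12, ...) and Q ≥ 0 is a quadratic inequality in m (nlinarith).
-/
import Pool.Agent.H54.V.J.KBase
set_option autoImplicit false
open MeasureTheory
namespace Pool.Agent.H54.V

theorem K15_arith (n m : ℕ) (h : 15 ≤ n + m) :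
    ((n : ℝ) - 12) * (17 / 375) + m * 0.0075094 + 0.00675 ≤ 0 ∨
    ((n : ℝ) - 12) * (17 / 375) + m * 0.0075094 + 0.00675 ≤ 0.12608 * E10 n m := by
  have hm : (0 : ℝ) ≤ m := Nat.cast_nonneg m
  have hs : (15 : ℝ) ≤ (n : ℝ) + m := by exact_mod_cast h
  rcases Nat.lt_or_ge n 12 with hn | hn
  · by_cases hneed : ((n : ℝ) - 12) * (17 / 375) + m * 0.0075094 + 0.00675 ≤ 0
    · exact Or.inl hneed
    · right
      rw [not_le] at hneed
      unfold E10
      interval_cases n <;> norm_num at hneed hs ⊢ <;> nlinarith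
  · right
    have hn' : (12 : ℝ) ≤ n := by exact_mod_cast hn
    unfold E10
    obtain ⟨x, hx⟩ : ∃ x : ℝ, (n : ℝ) = x + 12 := ⟨n - 12, by ring⟩
    rw [hx] at hs hn' ⊢
    have hx0 : 0 ≤ x := by linarith
    have h1 : 0 ≤ x * m := mul_nonneg hx0 hm
    have h2 : 0 ≤ x * x := mul_nonneg hx0 hx0
    have h3 : 0 ≤ (m : ℝ) * m := mul_nonneg hm hm
    nlinarith

theorem K15_T1 : Tf 0.12 0.12 ≤ 0.60141 := by
  unfold Tf
  norm_num

theorem K15_T2 : Tf 0.12 0.2 ≤ 0.63036 := by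
  unfold Tf
  norm_num

theorem K15_T3 : Tf 0.2 0.2 ≤ 0.65278 := by
  unfold Tf
  norm_num

theorem K15 (hL : HL10) {N : ℕ} (c : Cfg N (6 / 5)) (hN : 15 ≤ N) : KK c.h := by
  classical
  set P : Fin N → Prop := fun i => c.h i ≤ 1.12 with hP
  set n := Fintype.card {i // P i} with hn
  set m := Fintype.card {i // ¬ P i} with hm
  have e1 : Fin n ≃ {i // P i} := (Fintype.equivFin _).symm
  have e2 : Fin m ≃ {i // ¬ P i} := (Fintype.equivFin _).symm
  have hnm : n + m = N := by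
    rw [hn, hm, ← Fintype.card_sum, Fintype.card_congr (Equiv.sumCompl P), Fintype.card_fin]
  set u : Fin n → E3 := fun i => c.u (e1 i).1 with hu
  set z : Fin m → E3 := fun a => c.u (e2 a).1 with hz
  set δ : Fin n → ℝ := fun i => c.h (e1 i).1 - 1 with hδ
  set ε : Fin m → ℝ := fun a => c.h (e2 a).1 - 1 with hε
  have d0 : ∀ i, 0 ≤ δ i := fun i => by
    have := c.one_le (e1 i).1
    simp only [hδ]
    linarith
  have d1 : ∀ i, δ i ≤ 0.12 := fun i => by
    have h1 : c.h (e1 i).1 ≤ 1.12 := (e1 i).2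
    simp only [hδ]
    linarith
  have g0 : ∀ a, 0.12 ≤ ε a := fun a => by
    have h1 : ¬ c.h (e2 a).1 ≤ 1.12 := (e2 a).2
    simp only [hε]
    rw [not_le] at h1
    linarith
  have g1 : ∀ a, ε a ≤ 0.2 := fun a => by
    have := c.lt (e2 a).1
    simp only [hε]
    norm_num at this ⊢
    linarith
  have huu : ∀ i j, i ≠ j → inner ℝ (u i) (u j) ≤ Tf (δ i) (δ j) := fun i j hij =>
    cfg_sep c _ _ (fun h => hij (e1.injective (Subtype.ext h)))
  have hzz : ∀ a b, a ≠ b → inner ℝ (z a) (z b) ≤ Tf (ε a) (ε b) := fun a b hab =>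
    cfg_sep c _ _ (fun h => hab (e2.injective (Subtype.ext h)))
  have huz : ∀ i a, inner ℝ (u i) (z a) ≤ Tf (δ i) (ε a) := fun i a =>
    cfg_sep c _ _ (fun h => (e2 a).2 (by
      have h1 := (e1 i).2
      rw [h] at h1
      exact h1))
  have huu' : ∀ i j, i ≠ j → inner ℝ (u i) (u j) ≤ (0.60141 : ℝ) := fun i j hij =>
    ((huu i j hij).trans (Tf_mono (d0 i) (d1 i) (d0 j) (d1 j) (by norm_num) (by norm_num))).trans
      K15_T1
  have huz' : ∀ i a, inner ℝ (u i) (z a) ≤ (0.63036 : ℝ) := fun i a =>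
    ((huz i a).trans (Tf_mono (d0 i) (d1 i) (by linarith [g0 a]) (g1 a) (by norm_num)
      (by norm_num))).trans K15_T2
  have hzz' : ∀ a b, a ≠ b → inner ℝ (z a) (z b) ≤ (0.65278 : ℝ) := fun a b hab =>
    ((hzz a b hab).trans (Tf_mono (by linarith [g0 a]) (g1 a) (by linarith [g0 b]) (g1 b)
      (by norm_num) (by norm_num))).trans K15_T3
  have hE : E10 n m ≤ en u z (fun _ => 0.6) :=
    hL n m u z (fun i => c.unit _) (fun a => c.unit _) huu' huz' hzz'
  have hen := en_sep u z (fun i => c.unit _) (fun a => c.unit _) δ ε d0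
    (fun a => by linarith [g0 a]) (fun _ => 0.6) 0.6 (by norm_num) (fun _ => le_rfl) huu huz
    (fun i j hij => (huu' i j hij).trans_lt (by norm_num))
    (fun i a => Or.inr ⟨by norm_num, (huz' i a).trans (by norm_num)⟩)
    (fun a b hab => (hzz' a b hab).trans_lt (by norm_num))
  have hmax : ∑ a, max 0 (ε a - (2 * (0.6 : ℝ) - 1)) = 0 := by
    apply Finset.sum_eq_zero
    intro a _
    apply max_eq_left
    have := g1 a
    norm_num at this ⊢
    linarith
  rw [hmax] at hen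
  have hsl := s_le_slope δ d0 0.12 (by norm_num) d1
  have hg12 : gh 0.12 = 0.037824 := by
    unfold gh
    norm_num
  rw [hg12] at hsl
  have hgh0 : 0 ≤ ∑ i, gh (δ i) := Finset.sum_nonneg fun i _ =>
    gh_nonneg (d0 i) ((d1 i).trans (by norm_num))
  have hsum : ∑ i, ch (c.h i) = ∑ i : Fin n, ch (1 + δ i) + ∑ a : Fin m, ch (1 + ε a) := by
    have h1 := Fintype.sum_subtype_add_sum_subtype P (fun i => ch (c.h i))
    rw [← h1, ← Equiv.sum_comp e1, ← Equiv.sum_comp e2]
    congr 1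
    · refine Finset.sum_congr rfl fun i _ => ?_
      simp only [hδ]
      rw [add_sub_cancel]
    · refine Finset.sum_congr rfl fun i _ => ?_
      simp only [hε]
      rw [add_sub_cancel]
  have hnear : ∑ i : Fin n, ch (1 + δ i) = n * (17 / 375) - ∑ i, gh (δ i) := by
    rw [Finset.sum_congr rfl (fun i _ => ch_eq (d0 i) ((d1 i).trans_lt (by norm_num))),
      Finset.sum_sub_distrib, ch_one]
    simp
  have hc12 : ch (1 + 0.12) ≤ 0.0075094 := by
    unfold ch
    rw [if_pos (by norm_num)]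
    norm_num
  have hfar : ∑ a : Fin m, ch (1 + ε a) ≤ m * 0.0075094 := by
    calc ∑ a : Fin m, ch (1 + ε a) ≤ ∑ _a : Fin m, (0.0075094 : ℝ) :=
          Finset.sum_le_sum fun a _ =>
            (ch_anti (by norm_num) (by linarith [g0 a])).trans hc12
      _ = m * 0.0075094 := by simp
  unfold KK
  rw [hsum, hnear, ch_one]
  rcases K15_arith n m (by omega) with h | h
  · linarith
  · have h2 : 0.12608 * E10 n m ≤ ∑ i, gh (δ i) := by
      linarith
    linarith

end Pool.Agent.H54.V
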