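/-
JOB VOR-LB.  Consequences of the certificates when s = Σ δ i ≤ .0276 (δ i ≥ 0, so δ i ≤ .0276, δ i + δ j ≤ .0276).
Ordinary inner products ≤ 1/2 + .0138 = .5138 ≤ .514 (`Tf_le`, `le_sum2`).  `en_sep`: en ≤ 2.5 s + 2.5 Σ max 0 (ε a - (2τ a - 1)).
`LB4`: ε ∈ [.14,.172]: HC4 (τ = .57), T(.0276,.172) ≤ .5936 ≤ .594: .1055 ≤ 2.5 s + 2.5(ε - .14), s ≥ .0422 + .14 - ε.
`LB5`: ε ≤ .19: HC5 (τ = .59), T(.0276,.19) ≤ .6020 ≤ .6025: .0226 ≤ 2.5 s + 2.5 max(ε - .18, 0).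
`N15`: three special points with excess ≤ R0 - 1 ≤ .25841: HL11 (τ = τ0 = .6293; 2τ-1 = .2586 ≥ ε): T(.0276,.25841) ≤ .6341 ≤ .64,
 T(.25841,.25841) ≤ .6843 < (1+τ0²)/2: .1565 ≤ 2.5 s ≤ .069, contradiction.
-/
import Pool.Agent.H54.V.J.KBase
import Pool.Agent.H54.V.J.Fin
set_option autoImplicit false
open MeasureTheory
namespace Pool.Agent.H54.V

theorem lb_tp {u : Fin 12 → E3} {δ : Fin 12 → ℝ} (h0 : ∀ i, 0 ≤ δ i) (hs : ∑ i, δ i ≤ 0.0276)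
    (huu : ∀ i j, i ≠ j → inner ℝ (u i) (u j) ≤ Tf (δ i) (δ j)) (i j : Fin 12) (hij : i ≠ j) :
    inner ℝ (u i) (u j) ≤ (0.5138 : ℝ) := by
  have h1 := huu i j hij
  have h2 := Tf_le (h0 i) (h0 j)
  have h3 := le_sum2 δ h0 i j hij
  norm_num at hs ⊢
  linarith

theorem lb_d {δ : Fin 12 → ℝ} (h0 : ∀ i, 0 ≤ δ i) (hs : ∑ i, δ i ≤ 0.0276) (i : Fin 12) :
    δ i ≤ 0.0276 := (le_sum δ h0 i).trans hs

theorem LB4 (c4 : HC4) (u : Fin 12 → E3) (z : E3) (hu : ∀ i, ‖u i‖ = 1) (hz : ‖z‖ = 1)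
    (δ : Fin 12 → ℝ) (ε : ℝ) (h0 : ∀ i, 0 ≤ δ i) (hs : ∑ i, δ i ≤ 0.0276) (hε0 : 0.14 ≤ ε) (hε : ε ≤ 0.172)
    (huu : ∀ i j, i ≠ j → inner ℝ (u i) (u j) ≤ Tf (δ i) (δ j)) (huz : ∀ i, inner ℝ (u i) z ≤ Tf (δ i) ε) :
    0.182 - ε ≤ ∑ i, δ i := by
  have htp := lb_tp h0 hs huu
  have hε0' : 0 ≤ ε := by
    norm_num at hε0
    linarith
  have hU : ∀ i, inner ℝ (u i) z ≤ (0.594 : ℝ) := by
    intro i
    refine (huz i).trans ((Tf_mono (h0 i) (lb_d h0 hs i) hε0' hε (by norm_num)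
      (by norm_num)).trans ?_)
    unfold Tf
    rw [div_le_iff₀ (by norm_num)]
    norm_num
  have h1 := c4 u (fun _ => z) hu (fun _ => hz)
    (fun i j hij => (htp i j hij).trans (by norm_num)) (fun i _ => hU i)
    (fun a b hab => absurd (Subsingleton.elim a b) hab)
  have h2 := en_sep u (fun _ : Fin 1 => z) hu (fun _ => hz) δ (fun _ => ε) h0 (fun _ => hε0')
    (fun _ => (0.57 : ℝ)) 0.57 (by norm_num) (fun _ => le_rfl) huu (fun i _ => huz i)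
    (fun i j hij => (htp i j hij).trans_lt (by norm_num))
    (fun i _ => Or.inl ((hU i).trans_lt (by norm_num)))
    (fun a b hab => absurd (Subsingleton.elim a b) hab)
  rw [Fin.sum_univ_one, max_eq_right (by norm_num at hε0 ⊢; linarith)] at h2
  have h3 := h1.trans h2
  norm_num at h3 ⊢
  linarith

theorem LB5 (c5 : HC5) (u : Fin 12 → E3) (z : E3) (hu : ∀ i, ‖u i‖ = 1) (hz : ‖z‖ = 1)
    (δ : Fin 12 → ℝ) (ε : ℝ) (h0 : ∀ i, 0 ≤ δ i) (hs : ∑ i, δ i ≤ 0.0276) (hε0 : 0.14 ≤ ε) (hε : ε ≤ 0.19)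
    (huu : ∀ i j, i ≠ j → inner ℝ (u i) (u j) ≤ Tf (δ i) (δ j)) (huz : ∀ i, inner ℝ (u i) z ≤ Tf (δ i) ε) :
    0.009 - max (ε - 0.18) 0 ≤ ∑ i, δ i := by
  have htp := lb_tp h0 hs huu
  have hε0' : 0 ≤ ε := by
    norm_num at hε0
    linarith
  have hU : ∀ i, inner ℝ (u i) z ≤ (0.6025 : ℝ) := by
    intro i
    refine (huz i).trans ((Tf_mono (h0 i) (lb_d h0 hs i) hε0' hε (by norm_num)
      (by norm_num)).trans ?_)
    unfold Tf
    rw [div_le_iff₀ (by norm_num)]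
    norm_num
  have h1 := c5 u (fun _ => z) hu (fun _ => hz)
    (fun i j hij => (htp i j hij).trans (by norm_num)) (fun i _ => hU i)
    (fun a b hab => absurd (Subsingleton.elim a b) hab)
  have h2 := en_sep u (fun _ : Fin 1 => z) hu (fun _ => hz) δ (fun _ => ε) h0 (fun _ => hε0')
    (fun _ => (0.59 : ℝ)) 0.59 (by norm_num) (fun _ => le_rfl) huu (fun i _ => huz i)
    (fun i j hij => (htp i j hij).trans_lt (by norm_num))
    (fun i _ => Or.inl ((hU i).trans_lt (by norm_num)))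
    (fun a b hab => absurd (Subsingleton.elim a b) hab)
  rw [Fin.sum_univ_one] at h2
  have h3 := h1.trans h2
  have h4 : max 0 (ε - (2 * 0.59 - 1)) = max (ε - 0.18) 0 := by
    rw [max_comm]
    norm_num
  rw [h4] at h3
  have h5 : (0.0226 : ℝ) = 2.5 * 0.00904 := by norm_num
  rw [h5] at h3
  generalize max (ε - 0.18) 0 = w at h3 ⊢
  norm_num at h3 ⊢
  linarith

theorem N15 (hL : HL11) (u : Fin 12 → E3) (z : Fin 3 → E3) (hu : ∀ i, ‖u i‖ = 1) (hz : ∀ a, ‖z a‖ = 1)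
    (δ : Fin 12 → ℝ) (ε : Fin 3 → ℝ) (h0 : ∀ i, 0 ≤ δ i) (hs : ∑ i, δ i ≤ 0.0276) (hε0 : ∀ a, 0 ≤ ε a)
    (hε : ∀ a, ε a ≤ R0 - 1)
    (huu : ∀ i j, i ≠ j → inner ℝ (u i) (u j) ≤ Tf (δ i) (δ j)) (huz : ∀ i a, inner ℝ (u i) (z a) ≤ Tf (δ i) (ε a))
    (hzz : ∀ a b, a ≠ b → inner ℝ (z a) (z b) ≤ Tf (ε a) (ε b)) : False := by
  have htp := lb_tp h0 hs huu
  have hε' : ∀ a, ε a ≤ 0.25841 := by
    intro a
    have h1 := hε a
    have h2 := R0_bounds.2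
    norm_num at h2 ⊢
    linarith
  have hU : ∀ i a, inner ℝ (u i) (z a) ≤ (0.6341 : ℝ) := by
    intro i a
    refine (huz i a).trans ((Tf_mono (h0 i) (lb_d h0 hs i) (hε0 a) (hε' a) (by norm_num)
      (by norm_num)).trans ?_)
    unfold Tf
    rw [div_le_iff₀ (by norm_num)]
    norm_num
  have hZ : ∀ a b, a ≠ b → inner ℝ (z a) (z b) ≤ (0.6843 : ℝ) := by
    intro a b hab
    refine (hzz a b hab).trans ((Tf_mono (hε0 a) (hε' a) (hε0 b) (hε' b) (by norm_num)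
      (by norm_num)).trans ?_)
    unfold Tf
    rw [div_le_iff₀ (by norm_num)]
    norm_num
  have h1 := hL u z hu hz (fun i j hij => (htp i j hij).trans (by norm_num)) hU hZ
  have h2 := en_sep u z hu hz δ ε h0 hε0
    (fun _ => (0.6293 : ℝ)) 0.6293 (by norm_num) (fun _ => le_rfl) huu huz
    (fun i j hij => (htp i j hij).trans_lt (by norm_num))
    (fun i a => Or.inr ⟨by norm_num, (hU i a).trans (by norm_num)⟩)
    (fun a b hab => (hZ a b hab).trans_lt (by norm_num))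
  have h3 : ∑ a, max 0 (ε a - (2 * 0.6293 - 1)) = 0 := by
    refine Finset.sum_eq_zero fun a _ => max_eq_left ?_
    have h4 := hε' a
    norm_num at h4 ⊢
    linarith
  rw [h3] at h2
  have h4 := h1.trans h2
  norm_num at h4 hs
  linarith

end Pool.Agent.H54.V
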