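/-
JOB VOR-SK.  Twelve ordinary centres and one special centre (excess ε ≥ all δ i, ε ≤ .156):
Σ gh (δ i) ≥ ch (1+ε) + .0075.  Suppose not: Σ gh (δ i) < ρ(ε) := ch (1+ε) + .0075
= (.136 - 1.32 ε + 3 ε² + ε³)/3 + .0075.  s = Σ δ i.  `en_sep` with m = 1: en ≤ 2.5 s + 2.5 max 0 (ε - (2τ-1)).
Since δ i ≤ ε: s (.44 - ε - ε²/3) ≤ Σ gh (δ i) < ρ(ε) (`gh_slope`/`s_le_slope`); and s ≤ D if ρ(ε) ≤ gh D (`s_le`).
(1) ε ≤ .05, HC1 (τ = .5, T(.05,.05) ≤ .5465): ρ(ε) ≤ (.1365 - ε)(.44 - ε - ε²/3) on [0,.05] (at 0: .05284 < .06006, at .05: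
 .033375 < .03367), so s + ε < .1365, en < .34125 < .342.
(2a) .05 < ε ≤ .07, HC2 (τ = .53): ρ(ε) ≤ (.0892 - max 0 (ε-.06))(.44 - ε - ε²/3) (at .05: .033375 < .03471; at .06: .03011 <
 .03379; at .07: .02705 < .02917), en < 2.5·.0892 = .223 < .224.  Inner products: δ i + δ j ≤ s ≤ .0892 and δ i, δ j ≤ ε:
 T ≤ .542 (e.g. T(a,b) ≤ 1/2 + (a+b)/2 - (ab)·1.5/(1.12) ... or: ε ≤ .06: s ≤ .0858 at .05, use
 s(.44-ε-ε²/3) < ρ(ε) on [.05,.06]: s < .0859, then T ≤ 1/2 + s/2 - 3ab/(2(1+a)(1+b)) and if a + b > .084 then a, b ≥ .024;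
 ε > .06: s < .0796, T ≤ .5398), and T(δ i, ε) ≤ T(.07,.07) ≤ .5633 ≤ .573.
(2b) .07 < ε ≤ .1, HC2: ρ(ε) ≤ gh (.1494 - ε) (at .07: .02705 < .02847; at .1: .019167 < .019256), so s ≤ .1494 - ε,
 en ≤ 2.5 (.1494 - ε + ε - .06) = .2235 < .224; T(δ i,δ j) ≤ 1/2 + .0794/2 ≤ .542;
 T(δ i,ε) ≤ ≤ .573 because δ i ≤ min(ε, .1494 - ε): ε ≤ .0775: T(.0775,.0775) ≤ .5694; ε ∈ (.0775,.085]: T(.0719,.085) ≤ .5696;
 ε ∈ (.085,.0925]: T(.0644,.0925) ≤ .5705; ε ∈ (.0925,.1]: T(.0569,.1) ≤ .5708.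
(3) .1 < ε ≤ .14, HC3 (τ = .55): ρ(ε) ≤ gh (.1688 - ε) (at .1: .01917 < .02543; at .14: .011749 < .011835), s ≤ .1688 - ε,
 en ≤ 2.5·.0688 = .172 < .1725.  For the inner products use s ≤ .0494 for ε ≥ .1 (ρ ≤ ρ(.1) = .019167 ≤ gh .0494 = .019256):
 T(δ i,δ j) ≤ 1/2 + .0247 ≤ .525; T(δ i,ε): ε ≤ .12: T(.0494,.12) ≤ .5768; ε > .12: s ≤ .0376 (ρ(.12) = .01501 ≤ gh .0376),
 T(.0376,.14) ≤ .5819 ≤ .582.
(4) .14 < ε ≤ .156, HC4 (τ = .57): ρ(ε) ≤ gh (.1796 - ε) (at .14: .01175 < .01583; at .156: .009795 < .009823), s ≤ .1796 - ε,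
 en ≤ 2.5·.0396 = .099 < .1055; also s ≤ .0288 (ρ(.14) = .011749 ≤ gh .0288 = .01183): T(δ i,δ j) ≤ .5144 ≤ .5155,
 T(.0288,.156) ≤ .5865 ≤ .594.
All inner products are < 5/8.
(Please split with a second seat if you like: parts (1),(2) and (3),(4) are independent lemmas SK12, SK34.)
-/
import Pool.Agent.H54.V.J.KBase
set_option autoImplicit false
open MeasureTheory
namespace Pool.Agent.H54.V

/-- the slope inequality -/
theorem SK_slope {n : ℕ} (δ : Fin n → ℝ) (ε : ℝ) (h0 : ∀ i, 0 ≤ δ i) (hδε : ∀ i, δ i ≤ ε) :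
    (11 / 25 - ε - ε ^ 2 / 3) * ∑ i, δ i ≤ ∑ i, gh (δ i) := by
  rw [Finset.mul_sum]
  refine Finset.sum_le_sum fun i _ => ?_
  have h1 := h0 i
  have h2 := hδε i
  unfold gh
  have h3 : 0 ≤ δ i * ((ε - δ i) * (1 + (ε + δ i) / 3)) := by
    have : 0 ≤ ε - δ i := sub_nonneg.2 h2
    have : 0 ≤ ε := h1.trans h2
    positivity
  nlinarith

/-- the combination of the certificate and `en_sep` -/
theorem SK_core {tp U τ E : ℝ} (hc : TCert 12 tp (fun _ : Fin 1 => U) (fun _ => τ) (fun _ _ => 1) E)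
    (u : Fin 12 → E3) (z : E3) (hu : ∀ i, ‖u i‖ = 1) (hz : ‖z‖ = 1)
    (δ : Fin 12 → ℝ) (ε : ℝ) (h0 : ∀ i, 0 ≤ δ i) (hε : 0 ≤ ε)
    (htp : tp < 5 / 8) (hU : U < 5 / 8) (hτ : 1 / 2 ≤ τ)
    (huu : ∀ i j, i ≠ j → inner ℝ (u i) (u j) ≤ Tf (δ i) (δ j)) (huz : ∀ i, inner ℝ (u i) z ≤ Tf (δ i) ε)
    (h1 : ∀ i j, i ≠ j → Tf (δ i) (δ j) ≤ tp) (h2 : ∀ i, Tf (δ i) ε ≤ U) :
    E ≤ 5 / 2 * ∑ i, δ i + 5 / 2 * max 0 (ε - (2 * τ - 1)) := by
  have e1 := hc u (fun _ => z) hu (fun _ => hz) (fun i j hij => (huu i j hij).trans (h1 i j hij))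
    (fun i _ => (huz i).trans (h2 i)) (fun a b hab => absurd (Subsingleton.elim a b) hab)
  have e2 := en_sep u (fun _ : Fin 1 => z) hu (fun _ => hz) δ (fun _ => ε) h0 (fun _ => hε)
    (fun _ => τ) τ hτ (fun _ => le_rfl) huu (fun i _ => huz i)
    (fun i j hij => lt_of_le_of_lt ((huu i j hij).trans (h1 i j hij)) htp)
    (fun i _ => Or.inl (lt_of_le_of_lt ((huz i).trans (h2 i)) hU))
    (fun a b hab => absurd (Subsingleton.elim a b) hab)
  have e3 : ∑ a : Fin 1, max 0 (ε - (2 * τ - 1)) = max 0 (ε - (2 * τ - 1)) := by simp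
  rw [e3] at e2
  exact e1.trans e2

theorem SK_T542 {a b : ℝ} (ha : 0 ≤ a) (hb : 0 ≤ b) (ha' : a ≤ 0.06) (hb' : b ≤ 0.06)
    (hab : a + b ≤ 0.0859) : Tf a b ≤ 0.542 := by
  unfold Tf
  rw [div_le_iff₀ (by positivity)]
  have h1 : 0 ≤ a * b := mul_nonneg ha hb
  have h2 : 0 ≤ (0.06 - a) * (0.06 - b) := mul_nonneg (by linarith) (by linarith)
  by_cases h : a + b ≤ 0.084
  · have h3 : (a + b) * (a + b) ≤ 0.084 * (a + b) := by nlinarith
    nlinarith
  · have h3 : (a + b) * (a + b) ≤ 0.0859 * (a + b) := by nlinarith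
    nlinarith

theorem SK12 (c1 : HC1) (c2 : HC2) (u : Fin 12 → E3) (z : E3) (hu : ∀ i, ‖u i‖ = 1) (hz : ‖z‖ = 1)
    (δ : Fin 12 → ℝ) (ε : ℝ) (h0 : ∀ i, 0 ≤ δ i) (hδε : ∀ i, δ i ≤ ε) (hε : ε ≤ 0.1)
    (huu : ∀ i j, i ≠ j → inner ℝ (u i) (u j) ≤ Tf (δ i) (δ j)) (huz : ∀ i, inner ℝ (u i) z ≤ Tf (δ i) ε) :
    ch (1 + ε) + 0.0075 ≤ ∑ i, gh (δ i) := by
  have hε0 : 0 ≤ ε := (h0 0).trans (hδε 0)
  by_contra hcon
  rw [not_le, ch_eq hε0 (by norm_num at hε ⊢; linarith), ch_one] at hcon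
  have hslope := SK_slope δ ε h0 hδε
  have hs := le_sum δ h0
  have hs2 := le_sum2 δ h0
  have hs0 : 0 ≤ ∑ i, δ i := Finset.sum_nonneg fun i _ => h0 i
  have h5 : ∀ i, δ i ≤ 1 / 5 := fun i => (hδε i).trans (by norm_num at hε ⊢; linarith)
  have hSL := s_le δ h0 h5
  generalize ∑ i, gh (δ i) = S at hcon hslope hSL
  generalize hsd : ∑ i, δ i = s at hslope hs hs2 hs0 hSL
  unfold gh at hcon
  norm_num at hε
  have hK : 0 < 11 / 25 - ε - ε ^ 2 / 3 := by nlinarith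
  rcases le_or_gt ε 0.05 with h | h
  · -- case 1
    have hb : s < 0.1365 - ε := by
      by_contra hlt
      rw [not_lt] at hlt
      have := mul_le_mul_of_nonneg_left hlt hK.le
      nlinarith
    have hE := SK_core c1 u z hu hz δ ε h0 hε0 (by norm_num) (by norm_num) (by norm_num) huu huz
      (fun i j _ => (Tf_mono (h0 i) ((hδε i).trans h) (h0 j) ((hδε j).trans h) (by norm_num)
        (by norm_num)).trans (by norm_num [Tf]))
      (fun i => (Tf_mono (h0 i) ((hδε i).trans h) hε0 h (by norm_num)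
        (by norm_num)).trans (by norm_num [Tf]))
    rw [hsd] at hE
    have hm : max 0 (ε - (2 * (0.5 : ℝ) - 1)) ≤ ε := max_le hε0 (by norm_num)
    linarith
  rcases le_or_gt ε 0.06 with h' | h'
  · have hb : s < 0.0859 := by
      by_contra hlt
      rw [not_lt] at hlt
      have := mul_le_mul_of_nonneg_left hlt hK.le
      nlinarith [mul_nonneg (sub_nonneg.2 h.le) (sub_nonneg.2 h')]
    have hE := SK_core c2 u z hu hz δ ε h0 hε0 (by norm_num) (by norm_num) (by norm_num) huu huz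
      (fun i j hij => SK_T542 (h0 i) (h0 j) ((hδε i).trans h') ((hδε j).trans h')
        ((hs2 i j hij).trans hb.le))
      (fun i => (Tf_mono (h0 i) ((hδε i).trans h') hε0 h' (by norm_num)
        (by norm_num)).trans (by norm_num [Tf]))
    rw [hsd] at hE
    have hm : max 0 (ε - (2 * (0.53 : ℝ) - 1)) ≤ 0 := max_le le_rfl (by norm_num; linarith)
    linarith
  rcases le_or_gt ε 0.07 with h'' | h''
  · have hb : s < 0.0796 := by
      by_contra hlt
      rw [not_lt] at hlt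
      have := mul_le_mul_of_nonneg_left hlt hK.le
      nlinarith [mul_nonneg (sub_nonneg.2 h'.le) (sub_nonneg.2 h'')]
    have hE := SK_core c2 u z hu hz δ ε h0 hε0 (by norm_num) (by norm_num) (by norm_num) huu huz
      (fun i j hij => (Tf_le (h0 i) (h0 j)).trans (by linarith [hs2 i j hij]))
      (fun i => (Tf_mono (h0 i) ((hδε i).trans h'') hε0 h'' (by norm_num)
        (by norm_num)).trans (by norm_num [Tf]))
    rw [hsd] at hE
    have hm : max 0 (ε - (2 * (0.53 : ℝ) - 1)) ≤ 0.01 := max_le (by norm_num) (by norm_num; linarith)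
    have hb2 : s < 0.1492 - ε := by
      by_contra hlt
      rw [not_lt] at hlt
      have := mul_le_mul_of_nonneg_left hlt hK.le
      nlinarith
    have hm2 : max 0 (ε - (2 * (0.53 : ℝ) - 1)) ≤ ε - 0.06 :=
      max_le (by linarith) (by norm_num)
    linarith
  · have hD : s ≤ 0.1494 - ε := by
      apply hSL _ (by linarith) (by linarith)
      unfold gh
      nlinarith [mul_nonneg (sub_nonneg.2 h''.le) (sub_nonneg.2 hε)]
    have hT : ∀ i, Tf (δ i) ε ≤ 0.573 := by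
      intro i
      have hi := hs i
      rcases le_or_gt ε 0.0775 with g | g
      · exact (Tf_mono (h0 i) ((hδε i).trans g) hε0 g (by norm_num) (by norm_num)).trans
          (by norm_num [Tf])
      rcases le_or_gt ε 0.085 with g' | g'
      · exact (Tf_mono (h0 i) (show δ i ≤ 0.0719 by linarith) hε0 g' (by norm_num)
          (by norm_num)).trans (by norm_num [Tf])
      rcases le_or_gt ε 0.0925 with g'' | g''
      · exact (Tf_mono (h0 i) (show δ i ≤ 0.0644 by linarith) hε0 g'' (by norm_num)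
          (by norm_num)).trans (by norm_num [Tf])
      · exact (Tf_mono (h0 i) (show δ i ≤ 0.0569 by linarith) hε0 (show ε ≤ 0.1 by linarith)
          (by norm_num) (by norm_num)).trans (by norm_num [Tf])
    have hE := SK_core c2 u z hu hz δ ε h0 hε0 (by norm_num) (by norm_num) (by norm_num) huu huz
      (fun i j hij => (Tf_le (h0 i) (h0 j)).trans (by linarith [hs2 i j hij])) hT
    rw [hsd] at hE
    have hm2 : max 0 (ε - (2 * (0.53 : ℝ) - 1)) ≤ ε - 0.06 :=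
      max_le (by linarith) (by norm_num)
    linarith

theorem SK34 (c3 : HC3) (c4 : HC4) (u : Fin 12 → E3) (z : E3) (hu : ∀ i, ‖u i‖ = 1) (hz : ‖z‖ = 1)
    (δ : Fin 12 → ℝ) (ε : ℝ) (h0 : ∀ i, 0 ≤ δ i) (hδε : ∀ i, δ i ≤ ε) (hε0 : 0.1 < ε) (hε : ε ≤ 0.156)
    (huu : ∀ i j, i ≠ j → inner ℝ (u i) (u j) ≤ Tf (δ i) (δ j)) (huz : ∀ i, inner ℝ (u i) z ≤ Tf (δ i) ε) :
    ch (1 + ε) + 0.0075 ≤ ∑ i, gh (δ i) := by
  have hε1 : 0 ≤ ε := (h0 0).trans (hδε 0)
  by_contra hcon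
  rw [not_le, ch_eq hε1 (by norm_num at hε ⊢; linarith), ch_one] at hcon
  have hs := le_sum δ h0
  have hs2 := le_sum2 δ h0
  have hs0 : 0 ≤ ∑ i, δ i := Finset.sum_nonneg fun i _ => h0 i
  have h5 : ∀ i, δ i ≤ 1 / 5 := fun i => (hδε i).trans (by norm_num at hε ⊢; linarith)
  have hSL := s_le δ h0 h5
  generalize ∑ i, gh (δ i) = S at hcon hSL
  generalize hsd : ∑ i, δ i = s at hs hs2 hs0 hSL
  unfold gh at hcon
  rcases le_or_gt ε 0.14 with h | h
  · have hD : s ≤ 0.1688 - ε := by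
      apply hSL _ (by linarith) (by linarith)
      unfold gh
      nlinarith [mul_nonneg (sub_nonneg.2 hε0.le) (sub_nonneg.2 h)]
    have hD1 : s ≤ 0.0494 := by
      apply hSL _ (by norm_num) (by norm_num)
      unfold gh
      have h1 : 0 ≤ (ε - 0.1) * (0.34 - ε - (ε ^ 2 + 0.1 * ε + 0.01) / 3) :=
        mul_nonneg (by linarith) (by nlinarith)
      nlinarith
    have hT : ∀ i, Tf (δ i) ε ≤ 0.582 := by
      intro i
      have hi := hs i
      rcases le_or_gt ε 0.12 with g | g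
      · exact (Tf_mono (h0 i) (hi.trans hD1) hε1 g (by norm_num) (by norm_num)).trans
          (by norm_num [Tf])
      · have hD2 : s ≤ 0.0376 := by
          apply hSL _ (by norm_num) (by norm_num)
          unfold gh
          have h1 : 0 ≤ (ε - 0.12) * (0.32 - ε - (ε ^ 2 + 0.12 * ε + 0.0144) / 3) :=
            mul_nonneg (by linarith) (by nlinarith)
          nlinarith
        exact (Tf_mono (h0 i) (hi.trans hD2) hε1 h (by norm_num) (by norm_num)).trans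
          (by norm_num [Tf])
    have hE := SK_core c3 u z hu hz δ ε h0 hε1 (by norm_num) (by norm_num) (by norm_num) huu huz
      (fun i j hij => (Tf_le (h0 i) (h0 j)).trans (by linarith [hs2 i j hij])) hT
    rw [hsd] at hE
    have hm2 : max 0 (ε - (2 * (0.55 : ℝ) - 1)) ≤ ε - 0.1 :=
      max_le (by linarith) (by norm_num)
    linarith
  · have hD : s ≤ 0.1796 - ε := by
      apply hSL _ (by linarith) (by linarith)
      unfold gh
      nlinarith [mul_nonneg (sub_nonneg.2 h.le) (sub_nonneg.2 hε)]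
    have hD1 : s ≤ 0.0288 := by
      apply hSL _ (by norm_num) (by norm_num)
      unfold gh
      have h1 : 0 ≤ (ε - 0.14) * (0.3 - ε - (ε ^ 2 + 0.14 * ε + 0.0196) / 3) :=
        mul_nonneg (by linarith) (by nlinarith)
      nlinarith
    have hE := SK_core c4 u z hu hz δ ε h0 hε1 (by norm_num) (by norm_num) (by norm_num) huu huz
      (fun i j hij => (Tf_le (h0 i) (h0 j)).trans (by linarith [hs2 i j hij]))
      (fun i => (Tf_mono (h0 i) ((hs i).trans hD1) hε1 hε (by norm_num) (by norm_num)).trans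
          (by norm_num [Tf]))
    rw [hsd] at hE
    have hm2 : max 0 (ε - (2 * (0.57 : ℝ) - 1)) ≤ ε - 0.14 :=
      max_le (by linarith) (by norm_num)
    linarith

end Pool.Agent.H54.V
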