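/-
JOB VOR-KCASE.  If the K-criterion fails, the configuration is in Case 2.
Let c : Cfg N R0, ¬ KK c.h, and let n = #{i : c.h i < 6/5} (the first n indices by monotonicity); the others have ch = 0.
The first n centres form a Cfg n (6/5) (call it c') and Σ ch is the same, so ¬ KK c'.h.
 n ≤ 11: Σ ch ≤ 11 ch 1 ≤ 12 ch 1 - .00675 (ch_anti, ch_one): contradiction, so n ≥ 12.  n ≤ 14 by `K15`.
 Let δ i = c.h i - 1.
 n = 12: Σ_{i<12} gh (δ i) < .00675.
 n = 13: Σ_{i<12} gh (δ i) < ch (1+δ_13) + .00675; `SK12`, `SK34` (δ_13 ≤ .156; δ i ≤ δ_13 by monotonicity) are contradictory, so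
  δ_13 > .156.
 n = 14: if δ_14 ≤ .175 then δ_13 ≤ .1 contradicts `K14a`, .1 < δ_13 ≤ .156 contradicts `K14c`; if δ_14 > .175 then
  ch (1+δ_14) ≤ ch 1.175 ≤ .00075 and δ_13 ≤ .156 contradicts SK12/SK34.  So δ_13 > .156.
 In all cases every index ≥ 12 has c.h > 1.156 (for index ≥ n: c.h ≥ 1.2), and
 Σ_{i<12} gh (δ i) < 2 ch 1.156 + .00675 = .0113407 ≤ .41·.0276..., so (`s_le` with D = .0276·: gh .0276 = .011375 ≥ .0113407)
 s = Σ_{i<12} δ i ≤ .0276.  Hence δ i ≤ .0276, δ i + δ j ≤ .0276, inner products ≤ 1/2 + .0138 ≤ .514.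
 `N15` (applied to the indices 12, 13, 14) shows N ≤ 14, so m = N - 12 ≤ 2.  s4, s5 : `LB4`, `LB5` (ε = c.h - 1; .156 < ε).
 u i = c.u (castLE i), z a = c.u (12 + a), etc.; the polyhedra Poly (Sum.elim u z) (Sum.elim h g) r and Poly c.u c.h r are equal
 (reindexing), so the volumes agree.
-/
import Pool.Agent.H54.V.J.K15
import Pool.Agent.H54.V.J.K14a
import Pool.Agent.H54.V.J.K14c
import Pool.Agent.H54.V.J.SK
import Pool.Agent.H54.V.J.LB
set_option autoImplicit false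
open MeasureTheory
namespace Pool.Agent.H54.V

theorem kc_thr {N : ℕ} (h : Fin N → ℝ) (hm : Monotone h) (H : ℝ) :
    ∃ n, n ≤ N ∧ ∀ i : Fin N, (i : ℕ) < n ↔ h i < H := by
  classical
  have hex : ∃ n, n = N ∨ ∃ hn : n < N, H ≤ h ⟨n, hn⟩ := ⟨N, Or.inl rfl⟩
  refine ⟨Nat.find hex, Nat.find_min' hex (Or.inl rfl), fun i => ⟨fun hi => ?_, fun hi => ?_⟩⟩
  · have := Nat.find_min hex hi
    by_contra hc
    rw [not_lt] at hc
    exact this (Or.inr ⟨i.2, hc⟩)
  · by_contra hc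
    rw [not_lt] at hc
    rcases Nat.find_spec hex with h1 | ⟨h1, h2⟩
    · exact absurd i.2 (by omega)
    · have h3 : (⟨Nat.find hex, h1⟩ : Fin N) ≤ i := hc
      exact absurd (h2.trans (hm h3)) (not_le.2 hi)

theorem kc_sum {N n : ℕ} (hn : n ≤ N) (f : Fin N → ℝ) (hf : ∀ i : Fin N, n ≤ (i : ℕ) → f i = 0) :
    ∑ i, f i = ∑ i : Fin n, f (Fin.castLE hn i) := by
  obtain ⟨k, rfl⟩ := Nat.exists_eq_add_of_le hn
  rw [Fin.sum_univ_add]
  have h1 : ∑ i : Fin k, f (Fin.natAdd n i) = 0 := Finset.sum_eq_zero fun i _ => hf _ (by simp)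
  rw [h1, add_zero]
  rfl

/-- restriction to the first `n` centres -/
def kcRes {N : ℕ} {H : ℝ} (c : Cfg N H) (n : ℕ) (hn : n ≤ N) (H' : ℝ)
    (hH : ∀ i : Fin n, c.h (Fin.castLE hn i) < H') : Cfg n H' where
  u i := c.u (Fin.castLE hn i)
  h i := c.h (Fin.castLE hn i)
  unit _ := c.unit _
  one_le _ := c.one_le _
  lt i := hH i
  mono i j hij := c.mono (show Fin.castLE hn i ≤ Fin.castLE hn j from hij)
  sep _ _ hij := c.sep _ _ fun h => hij (Fin.castLE_injective hn h)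

theorem kc_two {m : ℕ} (f : Fin m → ℝ) (h0 : ∀ a : Fin m, 2 ≤ (a : ℕ) → f a = 0) (B : ℝ) (hB : 0 ≤ B)
    (hf : ∀ a, f a ≤ B) : ∑ a, f a ≤ 2 * B := by
  rcases m with _ | _ | k
  · simpa using hB
  · rw [Fin.sum_univ_one]
    linarith [hf 0]
  · rw [Fin.sum_univ_succ, Fin.sum_univ_succ]
    have h1 : ∑ i : Fin k, f i.succ.succ = 0 :=
      Finset.sum_eq_zero fun i _ => h0 _ (Nat.le_add_left 2 _)
    rw [h1]
    linarith [hf 0, hf (Fin.succ 0)]

theorem kc_ch_zero {h : ℝ} (hh : 6 / 5 ≤ h) : ch h = 0 := by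
  unfold ch
  rw [if_neg (not_lt.2 hh)]

theorem kc_SK (c1 : HC1) (c2 : HC2) (c3 : HC3) (c4 : HC4) {m : ℕ} (c : Cfg (12 + m) R0)
    (a : Fin m) (ha : c.h (Fin.natAdd 12 a) ≤ 1.156) :
    ch (c.h (Fin.natAdd 12 a)) + 0.0075 ≤ ∑ i : Fin 12, gh (c.h (Fin.castAdd m i) - 1) := by
  have h0 : ∀ i : Fin 12, 0 ≤ c.h (Fin.castAdd m i) - 1 := fun i => sub_nonneg.2 (c.one_le _)
  have hle : ∀ i : Fin 12, c.h (Fin.castAdd m i) - 1 ≤ c.h (Fin.natAdd 12 a) - 1 := by
    intro i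
    refine sub_le_sub_right (c.mono ?_) 1
    rw [Fin.le_def, Fin.val_castAdd, Fin.val_natAdd]
    omega
  have huu : ∀ i j : Fin 12, i ≠ j → inner ℝ (c.u (Fin.castAdd m i)) (c.u (Fin.castAdd m j)) ≤
      Tf (c.h (Fin.castAdd m i) - 1) (c.h (Fin.castAdd m j) - 1) := fun i j hij =>
    cfg_sep c _ _ fun h => hij (Fin.castAdd_injective 12 m h)
  have huz : ∀ i : Fin 12, inner ℝ (c.u (Fin.castAdd m i)) (c.u (Fin.natAdd 12 a)) ≤
      Tf (c.h (Fin.castAdd m i) - 1) (c.h (Fin.natAdd 12 a) - 1) := by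
    intro i
    refine cfg_sep c _ _ fun h => ?_
    have := congrArg Fin.val h
    rw [Fin.val_castAdd, Fin.val_natAdd] at this
    omega
  have he : 1 + (c.h (Fin.natAdd 12 a) - 1) = c.h (Fin.natAdd 12 a) := by ring
  norm_num at ha
  rcases le_or_gt (c.h (Fin.natAdd 12 a)) 1.1 with h | h
  · norm_num at h
    have := SK12 c1 c2 (fun i => c.u (Fin.castAdd m i)) (c.u (Fin.natAdd 12 a))
      (fun i => c.unit _) (c.unit _) (fun i => c.h (Fin.castAdd m i) - 1)
      (c.h (Fin.natAdd 12 a) - 1) h0 hle (by norm_num; linarith) huu huz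
    rwa [he] at this
  · norm_num at h
    have := SK34 c3 c4 (fun i => c.u (Fin.castAdd m i)) (c.u (Fin.natAdd 12 a))
      (fun i => c.unit _) (c.unit _) (fun i => c.h (Fin.castAdd m i) - 1)
      (c.h (Fin.natAdd 12 a) - 1) h0 hle (by norm_num; linarith) (by norm_num; linarith) huu huz
    rwa [he] at this

theorem kc_S {m : ℕ} (c : Cfg (12 + m) R0) (hK : ¬ KK c.h)
    (h12 : ∀ i : Fin 12, c.h (Fin.castAdd m i) < 6 / 5) :
    ∑ i : Fin 12, gh (c.h (Fin.castAdd m i) - 1) <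
      ∑ a : Fin m, ch (c.h (Fin.natAdd 12 a)) + 27 / 4000 := by
  unfold KK at hK
  rw [not_le, Fin.sum_univ_add] at hK
  have hch : ∀ i : Fin 12, ch (c.h (Fin.castAdd m i)) = ch 1 - gh (c.h (Fin.castAdd m i) - 1) := by
    intro i
    have h1 := ch_eq (x := c.h (Fin.castAdd m i) - 1) (sub_nonneg.2 (c.one_le _))
      (by linarith [h12 i])
    rwa [add_sub_cancel] at h1
  rw [Finset.sum_congr rfl fun i _ => hch i, Finset.sum_sub_distrib] at hK
  simp only [Finset.sum_const, Finset.card_univ, Fintype.card_fin, nsmul_eq_mul] at hK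
  push_cast at hK
  linarith

theorem kc_far (l1 : HL1) (l2 : HL2) (l3 : HL3) (l4 : HL4) (k1 : HK1) (k2 : HK2) (k3 : HK3)
    (c1 : HC1) (c2 : HC2) (c3 : HC3) (c4 : HC4) {m : ℕ} (c : Cfg (12 + m) R0) (hK : ¬ KK c.h)
    (h12 : ∀ i : Fin 12, c.h (Fin.castAdd m i) < 6 / 5)
    (h14 : ∀ i : Fin (12 + m), 14 ≤ (i : ℕ) → 6 / 5 ≤ c.h i) (a : Fin m) :
    1.156 < c.h (Fin.natAdd 12 a) := by
  by_contra hcon
  rw [not_lt] at hcon
  have hS := kc_S c hK h12
  rcases m with _ | _ | k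
  · exact a.elim0
  · rw [Fin.sum_univ_one] at hS
    have ha : a = 0 := Fin.ext (by
      have := a.2
      rw [Fin.val_zero]
      omega)
    rw [ha] at hcon
    have := kc_SK c1 c2 c3 c4 c 0 hcon
    norm_num at this hS
    linarith
  · have h1 : ∑ i : Fin k, ch (c.h (Fin.natAdd 12 i.succ.succ)) = 0 :=
      Finset.sum_eq_zero fun i _ => kc_ch_zero (h14 _ (by
        simp only [Fin.val_natAdd, Fin.val_succ]
        omega))
    have hF : ∑ a : Fin (k + 1 + 1), ch (c.h (Fin.natAdd 12 a)) =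
        ch (c.h (Fin.natAdd 12 (0 : Fin (k + 2)))) +
          (ch (c.h (Fin.natAdd 12 (Fin.succ 0 : Fin (k + 2)))) + 0) := by
      rw [Fin.sum_univ_succ, Fin.sum_univ_succ, h1]
    rw [hF] at hS
    generalize hg : ∑ i : Fin 12, gh (c.h (Fin.castAdd (k + 1 + 1) i) - 1) = S at hS
    have hcon0 : c.h (Fin.natAdd 12 (0 : Fin (k + 2))) ≤ 1.156 := by
      refine (c.mono ?_).trans hcon
      rw [Fin.le_def, Fin.val_natAdd, Fin.val_natAdd, Fin.val_zero]
      omega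
    rcases le_or_gt (c.h (Fin.natAdd 12 (Fin.succ 0 : Fin (k + 2)))) 1.175 with h13 | h13
    · have hn : 14 ≤ 12 + (k + 2) := by omega
      have hlt : ∀ i : Fin 14, c.h (Fin.castLE hn i) < 6 / 5 := by
        intro i
        have h2 : Fin.castLE hn i ≤ Fin.natAdd 12 (Fin.succ 0 : Fin (k + 2)) := by
          rw [Fin.le_def, Fin.val_natAdd, Fin.val_castLE, Fin.val_succ, Fin.val_zero]
          omega
        have h3 := c.mono h2
        have h4 : (1.175 : ℝ) < 6 / 5 := by norm_num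
        linarith
      apply hK
      have hKK : KK (kcRes c 14 hn (6 / 5) hlt).h := by
        have e12 : (kcRes c 14 hn (6 / 5) hlt).h 12 = c.h (Fin.natAdd 12 (0 : Fin (k + 2))) := rfl
        have e13 : (kcRes c 14 hn (6 / 5) hlt).h 13 =
            c.h (Fin.natAdd 12 (Fin.succ 0 : Fin (k + 2))) := rfl
        rcases le_or_gt (c.h (Fin.natAdd 12 (0 : Fin (k + 2)))) 1.1 with h | h
        · exact K14a l1 l2 l3 l4 _ (by rw [e12]; exact h) (by rw [e13]; exact h13)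
        · exact K14c k1 k2 k3 _ (by rw [e12]; exact h) (by rw [e12]; exact hcon0)
            (by rw [e13]; exact h13)
      unfold KK at hKK ⊢
      rw [kc_sum hn (fun i => ch (c.h i)) fun i hi => kc_ch_zero (h14 i hi)]
      exact hKK
    · have h2 : ch (c.h (Fin.natAdd 12 (Fin.succ 0 : Fin (k + 2)))) ≤ ch 1.175 :=
        ch_anti (by norm_num) h13.le
      have h3 : ch 1.175 ≤ 0.00075 := by
        unfold ch
        rw [if_pos (by norm_num)]
        norm_num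
      have h4 : ch (c.h (Fin.natAdd 12 (0 : Fin (k + 2)))) + 0.0075 ≤
          ∑ i : Fin 12, gh (c.h (Fin.castAdd (k + 1 + 1) i) - 1) := kc_SK c1 c2 c3 c4 c 0 hcon0
      rw [hg] at h4
      have h5 : (0.0075 : ℝ) = 3 / 400 := by norm_num
      have h6 : (0.00075 : ℝ) = 3 / 4000 := by norm_num
      rw [h5] at h4
      rw [h6] at h3
      linarith

theorem kcase (l10 : HL10) (l1 : HL1) (l2 : HL2) (l3 : HL3) (l4 : HL4) (k1 : HK1) (k2 : HK2) (k3 : HK3) (l11 : HL11)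
    (c1 : HC1) (c2 : HC2) (c3 : HC3) (c4 : HC4) (c5 : HC5) {N : ℕ} (c : Cfg N R0) (hK : ¬ KK c.h) :
    ∃ m : ℕ, ∃ D : Case2 m, ∀ r : ℝ, VP (Sum.elim D.u D.z) (Sum.elim D.h D.g) r = VP c.u c.h r := by
  obtain ⟨n, hn, hthr⟩ := kc_thr c.h c.mono (6 / 5)
  have hge : ∀ i : Fin N, n ≤ (i : ℕ) → 6 / 5 ≤ c.h i := fun i hi =>
    not_lt.1 fun h => absurd ((hthr i).2 h) (not_lt.2 hi)
  have hlt : ∀ i : Fin n, c.h (Fin.castLE hn i) < 6 / 5 := fun i => (hthr _).1 i.2
  have hsum := kc_sum hn (fun i => ch (c.h i)) fun i hi => kc_ch_zero (hge i hi)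
  have hK' : ¬ KK (kcRes c n hn (6 / 5) hlt).h := by
    intro h
    apply hK
    unfold KK at h ⊢
    rw [hsum]
    exact h
  have hn15 : n < 15 := by
    by_contra h
    exact hK' (K15 l10 _ (not_lt.1 h))
  have hn12 : 12 ≤ n := by
    by_contra h
    apply hK'
    unfold KK
    have h1 : ∑ i : Fin n, ch ((kcRes c n hn (6 / 5) hlt).h i) ≤ n * ch 1 := by
      calc ∑ i : Fin n, ch ((kcRes c n hn (6 / 5) hlt).h i) ≤ ∑ _i : Fin n, ch 1 :=
            Finset.sum_le_sum fun i _ => ch_anti le_rfl (c.one_le _)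
        _ = n * ch 1 := by simp
    have hn11 : (n : ℝ) ≤ 11 := by
      have : n ≤ 11 := by omega
      exact_mod_cast this
    rw [ch_one] at h1 ⊢
    linarith
  obtain ⟨m, rfl⟩ := Nat.exists_eq_add_of_le (hn12.trans hn)
  have h12 : ∀ i : Fin 12, c.h (Fin.castAdd m i) < 6 / 5 := by
    intro i
    refine (hthr _).1 ?_
    rw [Fin.val_castAdd]
    omega
  have h14 : ∀ i : Fin (12 + m), 14 ≤ (i : ℕ) → 6 / 5 ≤ c.h i := fun i hi => hge i (by omega)
  have hfar := kc_far l1 l2 l3 l4 k1 k2 k3 c1 c2 c3 c4 c hK h12 h14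
  have h0 : ∀ i : Fin 12, 0 ≤ c.h (Fin.castAdd m i) - 1 := fun i => sub_nonneg.2 (c.one_le _)
  have hS := kc_S c hK h12
  have hB : 0 ≤ ch 1.156 := ch_nonneg (by norm_num)
  have hF : ∑ a : Fin m, ch (c.h (Fin.natAdd 12 a)) ≤ 2 * ch 1.156 := by
    refine kc_two _ (fun a ha => kc_ch_zero (h14 _ ?_)) _ hB
      fun a => ch_anti (by norm_num) (hfar a).le
    rw [Fin.val_natAdd]
    omega
  have hgh : ∑ i : Fin 12, gh (c.h (Fin.castAdd m i) - 1) ≤ gh 0.0276 := by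
    have h1 : 2 * ch 1.156 + 27 / 4000 ≤ gh 0.0276 := by
      unfold ch gh
      rw [if_pos (by norm_num)]
      norm_num
    linarith
  have hs : ∑ i : Fin 12, (c.h (Fin.castAdd m i) - 1) ≤ 0.0276 :=
    s_le (fun i => c.h (Fin.castAdd m i) - 1) h0 (fun i => by linarith [h12 i]) 0.0276
      (by norm_num) (by norm_num) hgh
  have huu : ∀ i j : Fin 12, i ≠ j → inner ℝ (c.u (Fin.castAdd m i)) (c.u (Fin.castAdd m j)) ≤
      Tf (c.h (Fin.castAdd m i) - 1) (c.h (Fin.castAdd m j) - 1) := fun i j hij =>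
    cfg_sep c _ _ fun h => hij (Fin.castAdd_injective 12 m h)
  have hne : ∀ (i : Fin 12) (a : Fin m), Fin.castAdd m i ≠ Fin.natAdd 12 a := by
    intro i a h
    have := congrArg Fin.val h
    rw [Fin.val_castAdd, Fin.val_natAdd] at this
    omega
  have huz : ∀ (i : Fin 12) (a : Fin m), inner ℝ (c.u (Fin.castAdd m i)) (c.u (Fin.natAdd 12 a)) ≤
      Tf (c.h (Fin.castAdd m i) - 1) (c.h (Fin.natAdd 12 a) - 1) := fun i a =>
    cfg_sep c _ _ (hne i a)
  have hm : m ≤ 2 := by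
    by_contra hm
    have h3 : 3 ≤ m := by omega
    refine N15 l11 (fun i => c.u (Fin.castAdd m i)) (fun a => c.u (Fin.natAdd 12 (Fin.castLE h3 a)))
      (fun i => c.unit _) (fun a => c.unit _) (fun i => c.h (Fin.castAdd m i) - 1)
      (fun a => c.h (Fin.natAdd 12 (Fin.castLE h3 a)) - 1) h0 hs
      (fun a => sub_nonneg.2 (c.one_le _)) (fun a => sub_le_sub_right (c.lt _).le 1) huu
      (fun i a => huz i _) fun a b hab => cfg_sep c _ _ fun h => hab ?_
    exact Fin.castLE_injective h3 (Fin.natAdd_injective _ _ h)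
  refine ⟨m, ⟨fun i => c.u (Fin.castAdd m i), fun i => c.h (Fin.castAdd m i),
    fun a => c.u (Fin.natAdd 12 a), fun a => c.h (Fin.natAdd 12 a), fun i => c.unit _,
    fun a => c.unit _, fun i => c.one_le _, hs, hfar, fun a => c.lt _, fun i j hij => ?_,
    fun i a => c.sep _ _ (hne i a), hm, fun a ha => ?_, fun a ha => ?_⟩, fun r => ?_⟩
  · have h1 := huu i j hij
    have h2 := Tf_le (h0 i) (h0 j)
    have h3 := le_sum2 _ h0 i j hij
    have h4 : (1 : ℝ) / 2 + 0.0276 / 2 ≤ 0.514 := by norm_num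
    linarith
  · have h1 := hfar a
    norm_num at h1 ha
    have := LB4 c4 (fun i => c.u (Fin.castAdd m i)) (c.u (Fin.natAdd 12 a)) (fun i => c.unit _)
      (c.unit _) (fun i => c.h (Fin.castAdd m i) - 1) (c.h (Fin.natAdd 12 a) - 1) h0 hs
      (by norm_num; linarith) (by norm_num; linarith) huu (fun i => huz i a)
    norm_num at this ⊢
    linarith
  · have h1 := hfar a
    norm_num at h1 ha
    have := LB5 c5 (fun i => c.u (Fin.castAdd m i)) (c.u (Fin.natAdd 12 a)) (fun i => c.unit _)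
      (c.unit _) (fun i => c.h (Fin.castAdd m i) - 1) (c.h (Fin.natAdd 12 a) - 1) h0 hs
      (by norm_num; linarith) (by norm_num; linarith) huu (fun i => huz i a)
    have he : c.h (Fin.natAdd 12 a) - 1 - 0.18 = c.h (Fin.natAdd 12 a) - 1.18 := by
      norm_num
      ring
    rwa [he] at this
  · unfold VP
    congr 2
    ext x
    constructor
    · rintro ⟨h1, h2⟩
      refine ⟨h1, fun i => ?_⟩
      refine Fin.addCases (motive := fun i => inner ℝ (c.u i) x ≤ c.h i)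
        (fun i => h2 (Sum.inl i)) (fun a => h2 (Sum.inr a)) i
    · rintro ⟨h1, h2⟩
      refine ⟨h1, fun i => ?_⟩
      rcases i with i | a
      · exact h2 _
      · exact h2 _

end Pool.Agent.H54.V
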