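/-
JOB VOR-LP12.  The sharp kernel for 12 points, and its version with a hole (uses `leg_psd`, `leg_one`).
Notation a = a5, g(t) = (t+1)(t+a)², g1(t) = (t-a) g(t).  Legendre expansions (a² = 1/5):
t² = (2P2+1)/3, t³ = (2P3+3P1)/5, t⁴ = (8P4+20P2+7)/35.  g = t³ + (1+2a)t² + (2a+a²)t + a², and
g1 = (t+1)(t+a)(t²-1/5) = t⁴ + (1+a)t³ + (a-1/5)t² - (1+a)/5 t - a/5.  All Legendre coefficients of g and g1 are ≥ 0:
g: (0.83148, 1.69443, 1.26295, 0.4, 0), g1: (0.19296, 0.57889, 0.73624, 0.57889, 0.22857) (k = 0..4).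
`lp12`: H = A g + B g1, Σ_{i,j} (H(t_ij) - H_0) ≥ 0 and 72 H_0 - 6 H(1) = 30 A g(a) exactly
(72 g_0 - 6 g(1) = 30 g(a), 72 g1_0 - 6 g1(1) = 0, with a² = 1/5).
`lp12hole`: let Γ = Σ Γ_k P_k with Γ_0 = 1, let Q ≥ Σ_{k=1}^4 Γ_k²/g1_k and c = 12/Q.  For every k ≥ 1 the 2×2 matrix
[[H_k, c B Γ_k],[c B Γ_k, c² B Γ_k²/g1_k]] is positive semidefinite (H_k ≥ B g1_k), so applying `leg_psd` to the 13
points u_i, z (weights √H_k on u_i and c B Γ_k/√H_k on z, or directly the discriminant form) and summing over k = 1..4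
Σ_{i,j} (H(t_ij) - H_0) + 2 c B Σ_i (Γ(⟪u_i,z⟫) - 1) + c² B Q ≥ 0, i.e.
Σ_{i<j} H(t_ij) ≥ 30 A g(a) + B (12 c - c² Q/2) - c B Σ Γ = 30 A g(a) + B (72/Q - (12/Q) Σ Γ(⟪u_i,z⟫)).
For Γ = γ (u+1)(u+0.345)²(u-τ):  τ = 0.595: 72/Q = 0.29987;  τ = 0.605: 72/Q = 0.24757
(compute the Legendre coefficients exactly, choose γ rational with Γ_0 = 1 or just close: state Γ via its unnormalised
coefficients).  Then use Γ(u) ≤ 0 for -1 ≤ u ≤ τ and Γ(u) ≤ 30 (u-τ) for τ ≤ u ≤ 0.64.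
Only the statements below are needed (c·30 ≤ 1.6).
-/
import Pool.Agent.H54.V.J.Leg
import Pool.Agent.H54.V.J.LensLow
set_option autoImplicit false
open MeasureTheory
namespace Pool.Agent.H54.V

theorem lp12_pairSum {n : ℕ} (f : Fin n → Fin n → ℝ) (hf : ∀ i j, f i j = f j i) :
    ∑ i, ∑ j, f i j = 2 * pairSum f + ∑ i, f i i := by
  have h1 : ∑ i, ∑ j, f i j = ∑ i, ∑ j, ((if i < j then f i j else 0) +
      (if j < i then f j i else 0) + (if i = j then f i j else 0)) := by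
    refine Finset.sum_congr rfl fun i _ => Finset.sum_congr rfl fun j _ => ?_
    rcases lt_trichotomy i j with h | h | h
    · rw [if_pos h, if_neg h.asymm, if_neg h.ne]; ring
    · subst h; simp
    · rw [if_neg h.asymm, if_pos h, if_neg h.ne', hf j i]; ring
  rw [h1]
  simp only [Finset.sum_add_distrib]
  have h2 : ∑ i, ∑ j, (if j < i then f j i else 0) = pairSum f := by
    rw [Finset.sum_comm]; rfl
  have h3 : ∑ i, ∑ j, (if i < j then f i j else 0) = pairSum f := rfl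
  have h4 : ∑ i, ∑ j, (if i = j then f i j else 0) = ∑ i, f i i := by
    refine Finset.sum_congr rfl fun i _ => ?_
    rw [Finset.sum_ite_eq]
    simp
  rw [h2, h3, h4]
  ring

theorem lp12_leg (t : ℝ) : leg 0 t = 1 ∧ leg 1 t = t ∧ leg 2 t = (3 * t ^ 2 - 1) / 2 ∧
    leg 3 t = (5 * t ^ 3 - 3 * t) / 2 ∧ leg 4 t = (35 * t ^ 4 - 30 * t ^ 2 + 3) / 8 := by
  refine ⟨rfl, rfl, ?_, ?_, ?_⟩
  · simp [leg]; ring
  · simp [leg]; ring
  · simp [leg]; ring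

theorem lp12_a5 : a5 ^ 2 = 1 / 5 ∧ 0.4472 ≤ a5 := by
  have h5 : (0 : ℝ) < Real.sqrt 5 := Real.sqrt_pos.2 (by norm_num)
  have hs : Real.sqrt 5 ^ 2 = 5 := Real.sq_sqrt (by norm_num)
  have h1 : a5 ^ 2 = 1 / 5 := by
    unfold a5
    rw [div_pow, hs]; norm_num
  have h0 : 0 < a5 := by unfold a5; positivity
  refine ⟨h1, ?_⟩
  by_contra hc
  have hc' := not_le.1 hc
  nlinarith

/-- the double sum of a kernel -/
noncomputable def lp12_S (u : Fin 12 → E3) (k : ℕ) : ℝ := ∑ i, ∑ j, leg k (inner ℝ (u i) (u j))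

theorem lp12_S_nonneg (u : Fin 12 → E3) (hu : ∀ i, ‖u i‖ = 1) (k : ℕ) (hk : k ≤ 12) :
    0 ≤ lp12_S u k := by
  have := leg_psd k hk u hu (fun _ => 1)
  simpa [lp12_S] using this

theorem lp12_S13 (u : Fin 12 → E3) (hu : ∀ i, ‖u i‖ = 1) (z : E3) (hz : ‖z‖ = 1) (k : ℕ)
    (hk : k ≤ 12) (α β : ℝ) :
    0 ≤ α ^ 2 * lp12_S u k + 2 * α * β * (∑ i, leg k (inner ℝ (u i) z)) + β ^ 2 := by
  have hx : ∀ i, ‖(Fin.cons z u : Fin 13 → E3) i‖ = 1 := by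
    intro i
    refine Fin.cases ?_ (fun j => ?_) i
    · simpa using hz
    · simpa using hu j
  have h := leg_psd k hk (Fin.cons z u : Fin 13 → E3) hx (Fin.cons β (fun _ => α))
  rw [Fin.sum_univ_succ] at h
  simp only [Fin.sum_univ_succ (n := 12), Fin.cons_zero, Fin.cons_succ] at h
  rw [real_inner_self_eq_norm_sq, hz, one_pow, leg_one, Finset.sum_add_distrib] at h
  have e1 : ∑ i, β * α * leg k (inner ℝ z (u i)) = α * β * ∑ i, leg k (inner ℝ (u i) z) := by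
    rw [Finset.mul_sum]
    refine Finset.sum_congr rfl fun i _ => ?_
    rw [real_inner_comm]; ring
  have e2 : ∑ i, α * β * leg k (inner ℝ (u i) z) = α * β * ∑ i, leg k (inner ℝ (u i) z) := by
    rw [Finset.mul_sum]
  have e3 : ∑ i, ∑ j, α * α * leg k (inner ℝ (u i) (u j)) = α ^ 2 * lp12_S u k := by
    unfold lp12_S
    simp only [Finset.mul_sum, sq]
  rw [e1, e2, e3] at h
  linarith

theorem lp12_Sfun (u : Fin 12 → E3) (c0 c1 c2 c3 c4 : ℝ) :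
    ∑ i, ∑ j, (c0 + c1 * leg 1 (inner ℝ (u i) (u j)) + c2 * leg 2 (inner ℝ (u i) (u j)) +
      c3 * leg 3 (inner ℝ (u i) (u j)) + c4 * leg 4 (inner ℝ (u i) (u j))) =
    144 * c0 + c1 * lp12_S u 1 + c2 * lp12_S u 2 + c3 * lp12_S u 3 + c4 * lp12_S u 4 := by
  unfold lp12_S
  simp only [Finset.sum_add_distrib, Finset.mul_sum]
  simp only [Finset.sum_const, Finset.card_univ, Fintype.card_fin, nsmul_eq_mul]
  norm_num
  ring

/-- the kernel -/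
noncomputable def lp12_H (A B t : ℝ) : ℝ := gA t * (A + B * (t - a5))

theorem lp12_H_exp (A B t : ℝ) : lp12_H A B t =
    (A * ((8 + 10 * a5) / 15) + B * (2 * (1 + a5) / 15)) +
    (A * (4 / 5 + 2 * a5) + B * (2 * (1 + a5) / 5)) * leg 1 t +
    (A * (2 * (1 + 2 * a5) / 3) + B * (46 / 105 + 2 * a5 / 3)) * leg 2 t +
    (A * (2 / 5) + B * (2 * (1 + a5) / 5)) * leg 3 t +
    (B * (8 / 35)) * leg 4 t := by
  obtain ⟨-, l1, l2, l3, l4⟩ := lp12_leg t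
  rw [l1, l2, l3, l4]
  unfold lp12_H gA
  have ha := lp12_a5.1
  linear_combination (A * (t + 1) - B * (a5 * (t + 1) + t * (t + 1)) * 1 + 0) * ha

theorem lp12_main (A B : ℝ) (u : Fin 12 → E3) (hu : ∀ i, ‖u i‖ = 1) :
    2 * pairSum (fun i j => gA (inner ℝ (u i) (u j)) * (A + B * (inner ℝ (u i) (u j) - a5))) =
      60 * A * gA a5 + (A * (4 / 5 + 2 * a5) + B * (2 * (1 + a5) / 5)) * lp12_S u 1 +
    (A * (2 * (1 + 2 * a5) / 3) + B * (46 / 105 + 2 * a5 / 3)) * lp12_S u 2 +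
    (A * (2 / 5) + B * (2 * (1 + a5) / 5)) * lp12_S u 3 +
    (B * (8 / 35)) * lp12_S u 4 := by
  have h1 := lp12_pairSum (fun i j : Fin 12 => lp12_H A B (inner ℝ (u i) (u j)))
    (fun i j => by rw [real_inner_comm])
  have h2 : ∑ i : Fin 12, lp12_H A B (inner ℝ (u i) (u i)) = 12 * lp12_H A B 1 := by
    simp only [real_inner_self_eq_norm_sq, hu, one_pow, Finset.sum_const, Finset.card_univ,
      Fintype.card_fin, nsmul_eq_mul]
    norm_num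
  rw [h2] at h1
  simp only [lp12_H_exp] at h1
  rw [lp12_Sfun] at h1
  have h3 : pairSum (fun i j => gA (inner ℝ (u i) (u j)) * (A + B * (inner ℝ (u i) (u j) - a5))) =
      pairSum (fun i j : Fin 12 => lp12_H A B (inner ℝ (u i) (u j))) := rfl
  rw [h3]
  simp only [lp12_H_exp]
  simp only [leg_one] at h1
  have ha := lp12_a5.1
  have hg : gA a5 = 4 / 5 * (1 + a5) := by
    unfold gA
    linear_combination 4 * (a5 + 1) * ha
  rw [hg]
  linarith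

theorem lp12 (A B : ℝ) (hA : 0 ≤ A) (hB : 0 ≤ B) (u : Fin 12 → E3) (hu : ∀ i, ‖u i‖ = 1) :
    30 * A * gA a5 ≤ pairSum (fun i j => gA (inner ℝ (u i) (u j)) * (A + B * (inner ℝ (u i) (u j) - a5))) := by
  have h := lp12_main A B u hu
  have ha := lp12_a5.2
  have s1 := lp12_S_nonneg u hu 1 (by norm_num)
  have s2 := lp12_S_nonneg u hu 2 (by norm_num)
  have s3 := lp12_S_nonneg u hu 3 (by norm_num)
  have s4 := lp12_S_nonneg u hu 4 (by norm_num)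
  have ha0 : 0 ≤ a5 := by linarith
  have p1 : 0 ≤ (A * (4 / 5 + 2 * a5) + B * (2 * (1 + a5) / 5)) * lp12_S u 1 := by positivity
  have p2 : 0 ≤ (A * (2 * (1 + 2 * a5) / 3) + B * (46 / 105 + 2 * a5 / 3)) * lp12_S u 2 := by
    positivity
  have p3 : 0 ≤ (A * (2 / 5) + B * (2 * (1 + a5) / 5)) * lp12_S u 3 := by positivity
  have p4 : 0 ≤ (B * (8 / 35)) * lp12_S u 4 := by positivity
  linarith

/-- the test polynomial -/
def lp12_G (τ t : ℝ) : ℝ := (t + 1) * (t + 0.345) ^ 2 * (t - τ)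

theorem lp12_G_exp (τ t : ℝ) : lp12_G τ t =
    (1 / 5 + (0.345 ^ 2 + 0.69 * (1 - τ) - τ) / 3 - τ * 0.345 ^ 2) +
    (3 / 5 * (1.69 - τ) + ((1 - τ) * 0.345 ^ 2 - 0.69 * τ)) * leg 1 t +
    (4 / 7 + 2 / 3 * (0.345 ^ 2 + 0.69 * (1 - τ) - τ)) * leg 2 t +
    (2 / 5 * (1.69 - τ)) * leg 3 t + (8 / 35) * leg 4 t := by
  obtain ⟨-, l1, l2, l3, l4⟩ := lp12_leg t
  rw [l1, l2, l3, l4]
  unfold lp12_G
  ring

theorem lp12_pt (τ c t : ℝ) (hc : 0 ≤ c) (hc1 : c * (1.64 * 0.985 ^ 2) ≤ 1.6) (hτ : -0.345 ≤ τ)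
    (hb : -1 ≤ t) (hi : t ≤ 0.64) : c * lp12_G τ t ≤ 1.6 * max 0 (t - τ) := by
  unfold lp12_G
  rcases le_total t τ with ht | ht
  · rw [max_eq_left (by linarith), mul_zero]
    have h1 : 0 ≤ (t + 1) * (t + 0.345) ^ 2 := mul_nonneg (by linarith) (sq_nonneg _)
    have h2 := mul_nonneg hc (mul_nonneg h1 (sub_nonneg.2 ht))
    have e1 : c * ((t + 1) * (t + 0.345) ^ 2 * (t - τ)) =
        -(c * ((t + 1) * (t + 0.345) ^ 2 * (τ - t))) := by ring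
    rw [e1]
    exact neg_nonpos.2 h2
  · rw [max_eq_right (by linarith)]
    have h1 : (t + 1) * (t + 0.345) ^ 2 ≤ 1.64 * 0.985 ^ 2 := by
      have e1 : t + 1 ≤ 1.64 := by linarith
      have e2 : (t + 0.345) ^ 2 ≤ 0.985 ^ 2 := by
        have : 0 ≤ t + 0.345 := by linarith
        have : t + 0.345 ≤ 0.985 := by linarith
        gcongr
      exact mul_le_mul e1 e2 (sq_nonneg _) (by norm_num)
    have h2 : c * ((t + 1) * (t + 0.345) ^ 2) ≤ 1.6 :=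
      (mul_le_mul_of_nonneg_left h1 hc).trans hc1
    have h3 := mul_le_mul_of_nonneg_right h2 (sub_nonneg.2 ht)
    rw [← mul_assoc]
    exact h3

theorem lp12_hole_gen (A B τ c κ : ℝ) (hA : 0 ≤ A) (hB : 0 ≤ B) (hc : 0 ≤ c)
    (hc1 : c * (1.64 * 0.985 ^ 2) ≤ 1.6) (hτ : -0.345 ≤ τ)
    (hκ : κ ≤ 12 * c * (1 / 5 + (0.345 ^ 2 + 0.69 * (1 - τ) - τ) / 3 - τ * 0.345 ^ 2) -
      c ^ 2 / 2 * ((3 / 5 * (1.69 - τ) + ((1 - τ) * 0.345 ^ 2 - 0.69 * τ)) ^ 2 / 0.57888 +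
        (4 / 7 + 2 / 3 * (0.345 ^ 2 + 0.69 * (1 - τ) - τ)) ^ 2 / 0.7362 +
        (2 / 5 * (1.69 - τ)) ^ 2 / 0.57888 + 8 / 35))
    (u : Fin 12 → E3) (hu : ∀ i, ‖u i‖ = 1)
    (z : E3) (hz : ‖z‖ = 1) (huz : ∀ i, inner ℝ (u i) z ≤ (0.64 : ℝ)) :
    30 * A * gA a5 + B * (κ - 1.6 * ∑ i, max 0 (inner ℝ (u i) z - τ)) ≤
      pairSum (fun i j => gA (inner ℝ (u i) (u j)) * (A + B * (inner ℝ (u i) (u j) - a5))) := by
  have h := lp12_main A B u hu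
  have ha := lp12_a5.2
  have s1 := lp12_S_nonneg u hu 1 (by norm_num)
  have s2 := lp12_S_nonneg u hu 2 (by norm_num)
  have s3 := lp12_S_nonneg u hu 3 (by norm_num)
  have s4 := lp12_S_nonneg u hu 4 (by norm_num)
  have ha0 : 0 ≤ a5 := by linarith
  set G1 := 3 / 5 * (1.69 - τ) + ((1 - τ) * 0.345 ^ 2 - 0.69 * τ) with hG1
  set G2 := 4 / 7 + 2 / 3 * (0.345 ^ 2 + 0.69 * (1 - τ) - τ) with hG2
  set G3 := 2 / 5 * (1.69 - τ) with hG3
  set G0 := 1 / 5 + (0.345 ^ 2 + 0.69 * (1 - τ) - τ) / 3 - τ * 0.345 ^ 2 with hG0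
  set T1 := ∑ i, leg 1 (inner ℝ (u i) z) with hT1
  set T2 := ∑ i, leg 2 (inner ℝ (u i) z) with hT2
  set T3 := ∑ i, leg 3 (inner ℝ (u i) z) with hT3
  set T4 := ∑ i, leg 4 (inner ℝ (u i) z) with hT4
  have q1 := lp12_S13 u hu z hz 1 (by norm_num) 0.57888 (c * G1)
  have q2 := lp12_S13 u hu z hz 2 (by norm_num) 0.7362 (c * G2)
  have q3 := lp12_S13 u hu z hz 3 (by norm_num) 0.57888 (c * G3)
  have q4 := lp12_S13 u hu z hz 4 (by norm_num) (8 / 35) (c * (8 / 35))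
  rw [← hT1] at q1
  rw [← hT2] at q2
  rw [← hT3] at q3
  rw [← hT4] at q4
  have r1 : 0 ≤ 0.57888 * lp12_S u 1 + 2 * c * G1 * T1 + c ^ 2 * (G1 ^ 2 / 0.57888) := by
    have : 0.57888 * lp12_S u 1 + 2 * c * G1 * T1 + c ^ 2 * (G1 ^ 2 / 0.57888) =
      (0.57888 ^ 2 * lp12_S u 1 + 2 * 0.57888 * (c * G1) * T1 + (c * G1) ^ 2) / 0.57888 := by
      field_simp
    rw [this]; exact div_nonneg q1 (by norm_num)
  have r2 : 0 ≤ 0.7362 * lp12_S u 2 + 2 * c * G2 * T2 + c ^ 2 * (G2 ^ 2 / 0.7362) := by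
    have : 0.7362 * lp12_S u 2 + 2 * c * G2 * T2 + c ^ 2 * (G2 ^ 2 / 0.7362) =
      (0.7362 ^ 2 * lp12_S u 2 + 2 * 0.7362 * (c * G2) * T2 + (c * G2) ^ 2) / 0.7362 := by
      field_simp
    rw [this]; exact div_nonneg q2 (by norm_num)
  have r3 : 0 ≤ 0.57888 * lp12_S u 3 + 2 * c * G3 * T3 + c ^ 2 * (G3 ^ 2 / 0.57888) := by
    have : 0.57888 * lp12_S u 3 + 2 * c * G3 * T3 + c ^ 2 * (G3 ^ 2 / 0.57888) =
      (0.57888 ^ 2 * lp12_S u 3 + 2 * 0.57888 * (c * G3) * T3 + (c * G3) ^ 2) / 0.57888 := by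
      field_simp
    rw [this]; exact div_nonneg q3 (by norm_num)
  have r4 : 0 ≤ 8 / 35 * lp12_S u 4 + 2 * c * (8 / 35) * T4 + c ^ 2 * (8 / 35) := by
    have : 8 / 35 * lp12_S u 4 + 2 * c * (8 / 35) * T4 + c ^ 2 * (8 / 35) =
      ((8 / 35) ^ 2 * lp12_S u 4 + 2 * (8 / 35) * (c * (8 / 35)) * T4 + (c * (8 / 35)) ^ 2) /
        (8 / 35) := by
      field_simp
    rw [this]; exact div_nonneg q4 (by norm_num)
  have hsumG : ∑ i, lp12_G τ (inner ℝ (u i) z) =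
      12 * G0 + G1 * T1 + G2 * T2 + G3 * T3 + 8 / 35 * T4 := by
    simp only [lp12_G_exp, Finset.sum_add_distrib, ← Finset.mul_sum]
    simp only [Finset.sum_const, Finset.card_univ, Fintype.card_fin, nsmul_eq_mul]
    rw [hT1, hT2, hT3, hT4, hG0, hG1, hG2, hG3]
    push_cast
    ring
  have hmax : c * ∑ i, lp12_G τ (inner ℝ (u i) z) ≤ 1.6 * ∑ i, max 0 (inner ℝ (u i) z - τ) := by
    rw [Finset.mul_sum, Finset.mul_sum]
    refine Finset.sum_le_sum fun i _ => ?_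
    have hb : -1 ≤ (inner ℝ (u i) z : ℝ) := by
      have := abs_real_inner_le_norm (u i) z
      rw [hu i, hz, mul_one] at this
      exact (abs_le.1 this).1
    exact lp12_pt τ c _ hc hc1 hτ hb (huz i)
  have p1 : 0 ≤ A * (4 / 5 + 2 * a5) * lp12_S u 1 := by positivity
  have p2 : 0 ≤ A * (2 * (1 + 2 * a5) / 3) * lp12_S u 2 := by positivity
  have p3 : 0 ≤ A * (2 / 5) * lp12_S u 3 := by positivity
  have w1 : 0 ≤ (2 * (1 + a5) / 5 - 0.57888) * lp12_S u 1 :=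
    mul_nonneg (by linarith) s1
  have w2 : 0 ≤ (46 / 105 + 2 * a5 / 3 - 0.7362) * lp12_S u 2 :=
    mul_nonneg (by linarith) s2
  have w3 : 0 ≤ (2 * (1 + a5) / 5 - 0.57888) * lp12_S u 3 :=
    mul_nonneg (by linarith) s3
  set M := ∑ i, max 0 (inner ℝ (u i) z - τ) with hM
  have hB1 : 2 * (κ - 1.6 * M) ≤ 2 * (1 + a5) / 5 * lp12_S u 1 +
      (46 / 105 + 2 * a5 / 3) * lp12_S u 2 + 2 * (1 + a5) / 5 * lp12_S u 3 +
      8 / 35 * lp12_S u 4 := by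
    rw [hsumG] at hmax
    linarith only [r1, r2, r3, r4, hκ, hmax, w1, w2, w3]
  have hB2 := mul_le_mul_of_nonneg_left hB1 hB
  linarith only [h, hB2, p1, p2, p3]

theorem lp12hole1 (A B : ℝ) (hA : 0 ≤ A) (hB : 0 ≤ B) (u : Fin 12 → E3) (hu : ∀ i, ‖u i‖ = 1)
    (z : E3) (hz : ‖z‖ = 1) (huz : ∀ i, inner ℝ (u i) z ≤ (0.64 : ℝ)) :
    30 * A * gA a5 + B * (0.2995 - 1.6 * ∑ i, max 0 (inner ℝ (u i) z - 0.595)) ≤
      pairSum (fun i j => gA (inner ℝ (u i) (u j)) * (A + B * (inner ℝ (u i) (u j) - a5))) :=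
  lp12_hole_gen A B 0.595 0.785 0.2995 hA hB (by norm_num) (by norm_num) (by norm_num)
    (by norm_num) u hu z hz huz

theorem lp12hole2 (A B : ℝ) (hA : 0 ≤ A) (hB : 0 ≤ B) (u : Fin 12 → E3) (hu : ∀ i, ‖u i‖ = 1)
    (z : E3) (hz : ‖z‖ = 1) (huz : ∀ i, inner ℝ (u i) z ≤ (0.64 : ℝ)) :
    30 * A * gA a5 + B * (0.2472 - 1.6 * ∑ i, max 0 (inner ℝ (u i) z - 0.605)) ≤
      pairSum (fun i j => gA (inner ℝ (u i) (u j)) * (A + B * (inner ℝ (u i) (u j) - a5))) :=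
  lp12_hole_gen A B 0.605 0.726 0.2472 hA hB (by norm_num) (by norm_num) (by norm_num)
    (by norm_num) u hu z hz huz

end Pool.Agent.H54.V
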